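import Pool.Agent.H45.KTD.Bas

/-!
# KTD Acc: the accounting of the cliques

`H k` disjoint sets (`k ∈ L`), `HU = ⋃ H k`, `O = univ \ HU`.  Every `t`-clique `K` is of one of the kinds:
(a) `K ⊆ H k` for some `k`; (b) `K ⊆ HU` and not contained in a single `H k`; (c) `K ⊆ O`;
(d) `K` meets `O` and `HU`: let `b ∈ K ∩ O`, `v ∈ K ∩ H k`.  If `K \ {b} ⊆ H k` then `K.erase b` is a `(t-1)`-clique in
`nb b (H k)`; if not there is `z ∈ K`, `z ≠ b`, `z ∉ H k`; then `v ∈ nb b (H k)`, `z ∈ NN b \ H k`, `v ~ z`, and the other `t - 3` elements of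
`K` are in `NN b`: for given `b, k` there are at most `ee (nb b (H k)) (NN b \ H k) D ^ (t-3)` such `K` if `|NN b| ≤ D`.
Kind (c): `∑_{b ∈ O} kq (t - 1) (nb b O) = t kq t O` (`sum_kq_nb`).
Kind (a): at most `∑ kq t (H k)`.
-/

set_option autoImplicit false

open Finset

namespace Pool.Agent.H45.KTD

open Pool.Agent.H11.TD

open scoped Classical in
private lemma Acc_mem_nb {α : Type} [Fintype α] [DecidableEq α] (G : SimpleGraph α) (v u : α) (S : Finset α) :
    u ∈ nb G v S ↔ u ∈ S ∧ G.Adj v u := by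
  unfold nb
  rw [Finset.mem_filter]

private lemma Acc_mem_NN {α : Type} [Fintype α] [DecidableEq α] (G : SimpleGraph α) (v u : α) :
    u ∈ NN G v ↔ G.Adj v u := by
  unfold NN
  rw [Acc_mem_nb]
  exact ⟨fun h => h.2, fun h => ⟨Finset.mem_univ _, h⟩⟩

/-- the cliques of the second kind through `b` and the set `S` -/
private noncomputable def Acc_B {α : Type} [Fintype α] [DecidableEq α] (G : SimpleGraph α) (t : ℕ) (b : α)
    (S : Finset α) : Finset (Finset α) :=
  (nb G b S).biUnion (fun v => (nb G v (NN G b \ S)).biUnion (fun z =>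
    ((NN G b).powersetCard (t - 3)).image (fun T => insert b (insert v (insert z T)))))

private lemma Acc_B_card {α : Type} [Fintype α] [DecidableEq α] (G : SimpleGraph α) (t : ℕ) (b : α)
    (S : Finset α) : (Acc_B G t b S).card ≤ ee G (nb G b S) (NN G b \ S) * (NN G b).card ^ (t - 3) := by
  unfold Acc_B ee
  refine Finset.card_biUnion_le.trans ?_
  rw [Finset.sum_mul]
  apply Finset.sum_le_sum
  intro v hv
  refine Finset.card_biUnion_le.trans ?_
  have : ∀ z ∈ nb G v (NN G b \ S), (((NN G b).powersetCard (t - 3)).image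
      (fun T => insert b (insert v (insert z T)))).card ≤ (NN G b).card ^ (t - 3) := by
    intro z hz
    refine Finset.card_image_le.trans ?_
    rw [Finset.card_powersetCard]
    exact Nat.choose_le_pow _ _
  refine (Finset.sum_le_card_nsmul _ _ _ this).trans ?_
  rw [smul_eq_mul]

private lemma Acc_cover {α : Type} [Fintype α] [DecidableEq α] (G : SimpleGraph α) (t : ℕ) (ht : 4 ≤ t)
    (S : Finset α) (K : Finset α) (hK : K ∈ cq G t univ) (b : α) (hb : b ∈ K) (hbS : b ∉ S)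
    (v : α) (hv : v ∈ K) (hvS : v ∈ S) :
    K ∈ (cq G (t - 1) (nb G b S)).image (insert b) ∪ Acc_B G t b S := by
  rw [mem_cq] at hK
  obtain ⟨-, hcard, hcl⟩ := hK
  have hbv : b ≠ v := fun h => hbS (h ▸ hvS)
  rw [Finset.mem_union]
  by_cases hz : ∀ z ∈ K, z ≠ b → z ∈ S
  · left
    rw [Finset.mem_image]
    refine ⟨K.erase b, ?_, Finset.insert_erase hb⟩
    rw [mem_cq]
    refine ⟨?_, ?_, ?_⟩
    · intro z hz'
      rw [Finset.mem_erase] at hz'
      rw [Acc_mem_nb]
      exact ⟨hz z hz'.2 hz'.1, hcl (Finset.mem_coe.2 hb) (Finset.mem_coe.2 hz'.2) (Ne.symm hz'.1)⟩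
    · rw [Finset.card_erase_of_mem hb, hcard]
    · exact hcl.subset (by exact_mod_cast Finset.erase_subset b K)
  · right
    push Not at hz
    obtain ⟨z, hzK, hzb, hzS⟩ := hz
    have hvz : v ≠ z := fun h => hzS (h ▸ hvS)
    have hAbv : G.Adj b v := hcl (Finset.mem_coe.2 hb) (Finset.mem_coe.2 hv) hbv
    have hAbz : G.Adj b z := hcl (Finset.mem_coe.2 hb) (Finset.mem_coe.2 hzK) (Ne.symm hzb)
    have hAvz : G.Adj v z := hcl (Finset.mem_coe.2 hv) (Finset.mem_coe.2 hzK) hvz
    unfold Acc_B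
    rw [Finset.mem_biUnion]
    refine ⟨v, (Acc_mem_nb G b v S).2 ⟨hvS, hAbv⟩, ?_⟩
    rw [Finset.mem_biUnion]
    refine ⟨z, (Acc_mem_nb G v z _).2 ⟨?_, hAvz⟩, ?_⟩
    · rw [Finset.mem_sdiff]
      exact ⟨(Acc_mem_NN G b z).2 hAbz, hzS⟩
    · rw [Finset.mem_image]
      refine ⟨((K.erase b).erase v).erase z, ?_, ?_⟩
      · rw [Finset.mem_powersetCard]
        constructor
        · intro u hu
          rw [Finset.mem_erase, Finset.mem_erase, Finset.mem_erase] at hu
          rw [Acc_mem_NN]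
          exact hcl (Finset.mem_coe.2 hb) (Finset.mem_coe.2 hu.2.2.2) (Ne.symm hu.2.2.1)
        · rw [Finset.card_erase_of_mem, Finset.card_erase_of_mem, Finset.card_erase_of_mem hb, hcard]
          · omega
          · exact Finset.mem_erase.2 ⟨Ne.symm hbv, hv⟩
          · exact Finset.mem_erase.2 ⟨Ne.symm hvz, Finset.mem_erase.2 ⟨hzb, hzK⟩⟩
      · show insert b (insert v (insert z (((K.erase b).erase v).erase z))) = K
        rw [Finset.insert_erase (Finset.mem_erase.2 ⟨Ne.symm hvz, Finset.mem_erase.2 ⟨hzb, hzK⟩⟩),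
          Finset.insert_erase (Finset.mem_erase.2 ⟨Ne.symm hbv, hv⟩), Finset.insert_erase hb]

open scoped Classical in
theorem acck {α : Type} [Fintype α] [DecidableEq α] (G : SimpleGraph α) {ι : Type}
    (L : Finset ι) (H : ι → Finset α) (t : ℕ) (ht : 4 ≤ t)
    (h : ∀ i ∈ L, ∀ j ∈ L, i ≠ j → Disjoint (H i) (H j)) (D : ℝ)
    (hD : ∀ v, ((NN G v).card : ℝ) ≤ D) :
    (kq G t univ : ℝ) ≤ ∑ k ∈ L, (kq G t (H k) : ℝ) +
      (((cq G t (L.biUnion H)).filter (fun K => ∀ k ∈ L, ¬ K ⊆ H k)).card : ℝ) +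
      ∑ b ∈ univ \ L.biUnion H, (∑ k ∈ L, ((kq G (t - 1) (nb G b (H k)) : ℝ) +
        (ee G (nb G b (H k)) (NN G b \ H k) : ℝ) * D ^ (t - 3)) +
        (kq G (t - 1) (nb G b (univ \ L.biUnion H)) : ℝ) / t) := by
  set HU := L.biUnion H with hHU
  set O := univ \ HU with hO
  have hcover : cq G t univ ⊆ (L.biUnion (fun k => cq G t (H k)) ∪
      (cq G t HU).filter (fun K => ∀ k ∈ L, ¬ K ⊆ H k)) ∪ (cq G t O ∪
      O.biUnion (fun b => L.biUnion (fun k =>
        (cq G (t - 1) (nb G b (H k))).image (insert b) ∪ Acc_B G t b (H k)))) := by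
    intro K hK
    rw [Finset.mem_union]
    have hK' := (mem_cq G).1 hK
    by_cases h1 : K ⊆ HU
    · left
      rw [Finset.mem_union]
      by_cases h2 : ∀ k ∈ L, ¬ K ⊆ H k
      · right
        rw [Finset.mem_filter, mem_cq]
        exact ⟨⟨h1, hK'.2⟩, h2⟩
      · left
        push Not at h2
        obtain ⟨k, hk, hKk⟩ := h2
        rw [Finset.mem_biUnion]
        refine ⟨k, hk, ?_⟩
        rw [mem_cq]
        exact ⟨hKk, hK'.2⟩
    · right
      rw [Finset.mem_union]
      by_cases h2 : K ⊆ O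
      · left
        rw [mem_cq]
        exact ⟨h2, hK'.2⟩
      · right
        obtain ⟨b, hb, hbU⟩ := Finset.not_subset.1 h1
        obtain ⟨v, hv, hvO⟩ := Finset.not_subset.1 h2
        have hvU : v ∈ HU := by
          by_contra hh
          exact hvO (Finset.mem_sdiff.2 ⟨Finset.mem_univ _, hh⟩)
        rw [hHU, Finset.mem_biUnion] at hvU
        obtain ⟨k, hk, hvk⟩ := hvU
        rw [Finset.mem_biUnion]
        refine ⟨b, Finset.mem_sdiff.2 ⟨Finset.mem_univ _, hbU⟩, ?_⟩
        rw [Finset.mem_biUnion]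
        refine ⟨k, hk, ?_⟩
        apply Acc_cover G t ht (H k) K hK b hb ?_ v hv hvk
        intro hbk
        exact hbU (Finset.mem_biUnion.2 ⟨k, hk, hbk⟩)
  have hnat : kq G t univ ≤ (∑ k ∈ L, kq G t (H k) +
      ((cq G t HU).filter (fun K => ∀ k ∈ L, ¬ K ⊆ H k)).card) + (kq G t O +
      ∑ b ∈ O, ∑ k ∈ L, (kq G (t - 1) (nb G b (H k)) +
        ee G (nb G b (H k)) (NN G b \ H k) * (NN G b).card ^ (t - 3))) := by
    have h0 : kq G t univ = (cq G t univ).card := rfl
    rw [h0]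
    refine (Finset.card_le_card hcover).trans ?_
    refine (Finset.card_union_le _ _).trans ?_
    refine Nat.add_le_add ?_ ?_
    · refine (Finset.card_union_le _ _).trans ?_
      refine Nat.add_le_add ?_ le_rfl
      exact Finset.card_biUnion_le
    · refine (Finset.card_union_le _ _).trans ?_
      refine Nat.add_le_add le_rfl ?_
      refine Finset.card_biUnion_le.trans ?_
      apply Finset.sum_le_sum
      intro b _
      refine Finset.card_biUnion_le.trans ?_
      apply Finset.sum_le_sum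
      intro k _
      refine (Finset.card_union_le _ _).trans ?_
      refine Nat.add_le_add ?_ (Acc_B_card G t b (H k))
      exact Finset.card_image_le
  have hO2 : (t : ℝ) * (kq G t O : ℝ) = ∑ b ∈ O, (kq G (t - 1) (nb G b O) : ℝ) := by
    have h1 := sum_kq_nb G (t - 1) O
    have h2 : t - 1 + 1 = t := by omega
    rw [h2] at h1
    have h3 := congrArg (fun n : ℕ => (n : ℝ)) h1
    simp only [Nat.cast_sum, Nat.cast_mul] at h3
    exact h3.symm
  have ht0 : (0 : ℝ) < (t : ℝ) := by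
    have : 0 < t := by omega
    exact_mod_cast this
  have hO3 : (kq G t O : ℝ) = ∑ b ∈ O, (kq G (t - 1) (nb G b O) : ℝ) / t := by
    rw [← Finset.sum_div, ← hO2]
    field_simp
  have hcast : (kq G t univ : ℝ) ≤ (∑ k ∈ L, (kq G t (H k) : ℝ) +
      (((cq G t HU).filter (fun K => ∀ k ∈ L, ¬ K ⊆ H k)).card : ℝ)) + ((kq G t O : ℝ) +
      ∑ b ∈ O, ∑ k ∈ L, ((kq G (t - 1) (nb G b (H k)) : ℝ) +
        (ee G (nb G b (H k)) (NN G b \ H k) : ℝ) * ((NN G b).card : ℝ) ^ (t - 3))) := by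
    exact_mod_cast hnat
  refine hcast.trans ?_
  rw [Finset.sum_add_distrib, ← hO3]
  have hlast : ∑ b ∈ O, ∑ k ∈ L, ((kq G (t - 1) (nb G b (H k)) : ℝ) +
        (ee G (nb G b (H k)) (NN G b \ H k) : ℝ) * ((NN G b).card : ℝ) ^ (t - 3)) ≤
      ∑ b ∈ O, ∑ k ∈ L, ((kq G (t - 1) (nb G b (H k)) : ℝ) +
        (ee G (nb G b (H k)) (NN G b \ H k) : ℝ) * D ^ (t - 3)) := by
    apply Finset.sum_le_sum
    intro b _
    apply Finset.sum_le_sum
    intro k _
    have hp : ((NN G b).card : ℝ) ^ (t - 3) ≤ D ^ (t - 3) :=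
      pow_le_pow_left₀ (Nat.cast_nonneg _) (hD b) _
    have := mul_le_mul_of_nonneg_left hp (Nat.cast_nonneg (α := ℝ) (ee G (nb G b (H k)) (NN G b \ H k)))
    linarith
  linarith

end Pool.Agent.H45.KTD
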