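import Pool.Agent.H45.KTD.TurK

/-!
# KTD BadK: bad vertices are in few cliques

`b` bad: `ee (NN b) (NN b) < (R (R - 1) - ε) m²`.  With `N = |NN b| ≤ R m + r`, `kq_cf`, `kq_stab` (`s = t - 1 ≥ 3`) and
`kq_two`: `kq (t - 1) (NN b) ≤ C(R, t-1) / C(R, 2) (m + r/R) ^ (t - 3) (R (R - 1) - ε) m² / 2
= C(R, t-1) (m + r/R) ^ (t-3) m² (1 - ε / (R (R - 1)))`, and `(m + r/R) ^ (t-3) ≤ m ^ (t-3) (1 + ε / (2 R (R-1)))` for large
`m`, so `ε' = C(R, t-1) ε / (2 R (R-1))` works (for `ε ≤ R (R - 1)`; for larger `ε` the left side is `≤ 0`, use the value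
`min ε (R (R-1))`: a bad vertex for `ε` is bad for every smaller value).
-/

set_option autoImplicit false

open Finset

namespace Pool.Agent.H45.KTD

open Pool.Agent.H11.TD

private lemma ev_pow (ρ x : ℝ) (n : ℕ) (hx : 0 < x) :
    ∃ m0 : ℕ, ∀ m : ℕ, m0 ≤ m → (1 + ρ / m) ^ n ≤ 1 + x := by
  have h : Filter.Tendsto (fun m : ℕ => (1 + ρ / (m : ℝ)) ^ n) Filter.atTop (nhds ((1 + 0) ^ n)) :=
    (tendsto_const_nhds.add (tendsto_const_div_atTop_nhds_zero_nat ρ)).pow n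
  rw [add_zero, one_pow] at h
  have h1 := h.eventually (eventually_le_nhds (show (1 : ℝ) < 1 + x by linarith))
  exact Filter.eventually_atTop.1 h1

theorem badK (R r t : ℕ) (hR : 4 ≤ R) (ht : 4 ≤ t) (htR : t ≤ R + 1) (ε : ℝ) (hε : 0 < ε) :
    ∃ ε' : ℝ, 0 < ε' ∧ ∃ m0 : ℕ, ∀ m : ℕ, m0 ≤ m →
      ∀ (α : Type) [Fintype α] [DecidableEq α] (G : SimpleGraph α), Ctx G R r m →
        ∀ b ∈ Bad G R m ε,
          (kq G (t - 1) (NN G b) : ℝ) ≤ ((R.choose (t - 1) : ℝ) - ε') * (m : ℝ) ^ (t - 1) := by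
  have hRR : (4 : ℝ) ≤ R := by exact_mod_cast hR
  have hP : (0 : ℝ) < (R : ℝ) * (R - 1) := by nlinarith
  obtain ⟨x, hxdef⟩ : ∃ x : ℝ, x = min ε ((R : ℝ) * (R - 1)) / ((R : ℝ) * (R - 1)) := ⟨_, rfl⟩
  have hx0 : 0 < x := by rw [hxdef]; exact div_pos (lt_min hε hP) hP
  have hx1 : x ≤ 1 := by rw [hxdef, div_le_one hP]; exact min_le_right _ _
  have hxε : (R : ℝ) * (R - 1) * x ≤ ε := by
    rw [hxdef]
    have : (R : ℝ) * (R - 1) * (min ε ((R : ℝ) * (R - 1)) / ((R : ℝ) * (R - 1))) =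
        min ε ((R : ℝ) * (R - 1)) := mul_div_cancel₀ _ hP.ne'
    rw [this]; exact min_le_left _ _
  have hC : (0 : ℝ) < (R.choose (t - 1) : ℝ) := by
    exact_mod_cast Nat.choose_pos (by omega)
  have hC2 : (R.choose 2 : ℝ) = (R : ℝ) * (R - 1) / 2 := Nat.cast_choose_two ℝ R
  obtain ⟨m0, hm0⟩ := ev_pow ((r : ℝ) / R) (x / 2) (t - 3) (by linarith)
  refine ⟨(R.choose (t - 1) : ℝ) * x / 2, by positivity, max m0 1, ?_⟩
  intro m hm α _ _ G hG b hb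
  have hm1 : 1 ≤ m := le_trans (le_max_right _ _) hm
  have hmR : (1 : ℝ) ≤ m := by exact_mod_cast hm1
  have hpow := hm0 m (le_trans (le_max_left _ _) hm)
  have hbad : (ee G (NN G b) (NN G b) : ℝ) < ((R : ℝ) * (R - 1) - ε) * (m : ℝ) ^ 2 := by
    classical
    unfold Bad at hb
    have := (mem_filter.1 hb).2
    unfold Good at this
    exact not_le.1 this
  have hcf := kq_cf G hG.cf b (NN G b) (Finset.Subset.refl _)
  have hst := kq_stab G (s := t - 1) (R := R) (by omega) (by omega) (NN G b) hcf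
  have h2 : (2 : ℝ) * kq G 2 (NN G b) = ee G (NN G b) (NN G b) := by
    exact_mod_cast kq_two G (NN G b)
  have hk2 : (kq G 2 (NN G b) : ℝ) ≤ (R : ℝ) * (R - 1) / 2 * (1 - x) * (m : ℝ) ^ 2 := by
    have h3 : ((R : ℝ) * (R - 1) - ε) * (m : ℝ) ^ 2 ≤
        (R : ℝ) * (R - 1) * (1 - x) * (m : ℝ) ^ 2 := by
      apply mul_le_mul_of_nonneg_right _ (by positivity)
      nlinarith
    linarith
  have hcard : ((NN G b).card : ℝ) / R ≤ m * (1 + (r : ℝ) / R / m) := by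
    have h4 : ((NN G b).card : ℝ) ≤ R * m + r := by exact_mod_cast hG.deg b
    have h5 : (m : ℝ) * (1 + (r : ℝ) / R / m) = (R * m + r) / R := by
      field_simp
    rw [h5]
    exact div_le_div_of_nonneg_right h4 (by linarith)
  have hcard0 : 0 ≤ ((NN G b).card : ℝ) / R := by positivity
  have e1 : t - 1 - 2 = t - 3 := by omega
  rw [e1] at hst
  have hmp : (0 : ℝ) ≤ (m : ℝ) ^ (t - 3) := by positivity
  have h6 : (((NN G b).card : ℝ) / R) ^ (t - 3) ≤ (m : ℝ) ^ (t - 3) * (1 + x / 2) := by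
    calc (((NN G b).card : ℝ) / R) ^ (t - 3) ≤ (m * (1 + (r : ℝ) / R / m)) ^ (t - 3) :=
          pow_le_pow_left₀ hcard0 hcard _
      _ = (m : ℝ) ^ (t - 3) * (1 + (r : ℝ) / R / m) ^ (t - 3) := mul_pow _ _ _
      _ ≤ _ := mul_le_mul_of_nonneg_left hpow hmp
  have hk0 : (0 : ℝ) ≤ kq G 2 (NN G b) := Nat.cast_nonneg _
  have hq : 0 ≤ (R.choose (t - 1) : ℝ) / (R.choose 2 : ℝ) := by positivity
  calc (kq G (t - 1) (NN G b) : ℝ)
      ≤ (R.choose (t - 1) : ℝ) / (R.choose 2 : ℝ) * (((NN G b).card : ℝ) / R) ^ (t - 3) *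
        kq G 2 (NN G b) := hst
    _ ≤ (R.choose (t - 1) : ℝ) / (R.choose 2 : ℝ) * ((m : ℝ) ^ (t - 3) * (1 + x / 2)) *
        ((R : ℝ) * (R - 1) / 2 * (1 - x) * (m : ℝ) ^ 2) := by
        apply mul_le_mul (mul_le_mul_of_nonneg_left h6 hq) hk2 hk0
        exact mul_nonneg hq (mul_nonneg hmp (by linarith))
    _ = (R.choose (t - 1) : ℝ) * ((1 + x / 2) * (1 - x)) * ((m : ℝ) ^ (t - 3) * (m : ℝ) ^ 2) := by
        rw [hC2]
        have hR0 : (R : ℝ) ≠ 0 := by linarith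
        have hR1 : (R : ℝ) - 1 ≠ 0 := by linarith
        field_simp
    _ = (R.choose (t - 1) : ℝ) * ((1 + x / 2) * (1 - x)) * (m : ℝ) ^ (t - 1) := by
        rw [← pow_add]; congr 2; omega
    _ ≤ ((R.choose (t - 1) : ℝ) - (R.choose (t - 1) : ℝ) * x / 2) * (m : ℝ) ^ (t - 1) := by
        apply mul_le_mul_of_nonneg_right _ (by positivity)
        nlinarith [mul_nonneg hC.le (mul_nonneg hx0.le hx0.le)]

end Pool.Agent.H45.KTD
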