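import Pool.Agent.H45.KTD.Defs

/-!
# KTD Bas: elementary facts about `cq` and `kq`

* `kq_cf`: a clique `K ⊆ NN G v` with `R + 1` elements together with `v` would be a clique with `R + 2` elements.
* `kq_two`: `ee G S S` is the number of ordered adjacent pairs in `S`.
* `sum_kq_nb`: both sides count the pairs (`v`, `K`), `K ∈ cq G (t + 1) S`, `v ∈ K` (`K ↦ K.erase v`).
-/

set_option autoImplicit false

open Finset

namespace Pool.Agent.H45.KTD

open Pool.Agent.H11.TD

variable {α : Type} [Fintype α] [DecidableEq α] (G : SimpleGraph α)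

private theorem mem_nb' {v w : α} {S : Finset α} : w ∈ nb G v S ↔ w ∈ S ∧ G.Adj v w := by
  classical
  unfold nb
  simp [Finset.mem_filter]

theorem mem_cq {t : ℕ} {S K : Finset α} :
    K ∈ cq G t S ↔ K ⊆ S ∧ K.card = t ∧ G.IsClique (K : Set α) := by
  classical
  unfold cq
  rw [Finset.mem_filter, Finset.mem_powersetCard]
  tauto

theorem cq_mono {t : ℕ} {S T : Finset α} (h : S ⊆ T) : cq G t S ⊆ cq G t T := by
  intro K hK
  rw [mem_cq] at hK ⊢
  exact ⟨hK.1.trans h, hK.2⟩

theorem kq_mono {t : ℕ} {S T : Finset α} (h : S ⊆ T) : kq G t S ≤ kq G t T :=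
  Finset.card_le_card (cq_mono G h)

theorem kq_one (S : Finset α) : kq G 1 S = S.card := by
  classical
  unfold kq
  symm
  apply Finset.card_bij (fun v _ => ({v} : Finset α))
  · intro v hv
    rw [mem_cq]
    refine ⟨Finset.singleton_subset_iff.2 hv, Finset.card_singleton v, ?_⟩
    simp
  · intro a _ b _ h
    exact Finset.singleton_injective h
  · intro K hK
    rw [mem_cq] at hK
    obtain ⟨v, rfl⟩ := Finset.card_eq_one.1 hK.2.1
    exact ⟨v, hK.1 (Finset.mem_singleton_self v), rfl⟩

theorem kq_le (t : ℕ) (S : Finset α) : kq G t S ≤ S.card ^ t := by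
  classical
  unfold kq cq
  refine (Finset.card_filter_le _ _).trans ?_
  rw [Finset.card_powersetCard]
  exact Nat.choose_le_pow S.card t

theorem kq_cf {R : ℕ} (hG : G.CliqueFree (R + 2)) (v : α) (S : Finset α) (hS : S ⊆ NN G v) :
    kq G (R + 1) S = 0 := by
  classical
  unfold kq
  rw [Finset.card_eq_zero, Finset.eq_empty_iff_forall_notMem]
  intro K hK
  rw [mem_cq] at hK
  obtain ⟨hKS, hKc, hKq⟩ := hK
  have hadj : ∀ w ∈ K, G.Adj v w := by
    intro w hw
    have := hS (hKS hw)
    unfold NN at this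
    exact ((mem_nb' G).1 this).2
  have hv : v ∉ K := fun hv => G.loopless.irrefl v (hadj v hv)
  apply hG (insert v K)
  rw [SimpleGraph.isNClique_iff]
  refine ⟨?_, by rw [Finset.card_insert_of_notMem hv, hKc]⟩
  rw [Finset.coe_insert]
  exact hKq.insert (fun w hw _ => hadj w hw)

theorem sum_kq_nb (t : ℕ) (S : Finset α) :
    ∑ v ∈ S, kq G t (nb G v S) = (t + 1) * kq G (t + 1) S := by
  classical
  -- both sides count pairs
  have h1 : ∀ v ∈ S, kq G t (nb G v S) = ((cq G (t + 1) S).filter (fun K => v ∈ K)).card := by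
    intro v hv
    unfold kq
    apply Finset.card_bij (fun K _ => insert v K)
    · intro K hK
      rw [mem_cq] at hK
      obtain ⟨hKS, hKc, hKq⟩ := hK
      have hadj : ∀ w ∈ K, G.Adj v w := fun w hw => ((mem_nb' G).1 (hKS hw)).2
      have hvK : v ∉ K := fun hv => G.loopless.irrefl v (hadj v hv)
      rw [Finset.mem_filter, mem_cq]
      refine ⟨⟨?_, by rw [Finset.card_insert_of_notMem hvK, hKc], ?_⟩, Finset.mem_insert_self v K⟩
      · intro w hw
        rcases Finset.mem_insert.1 hw with rfl | hw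
        · exact hv
        · exact ((mem_nb' G).1 (hKS hw)).1
      · rw [Finset.coe_insert]
        exact hKq.insert (fun w hw _ => hadj w hw)
    · intro K hK K' hK' h
      rw [mem_cq] at hK hK'
      have hvK : v ∉ K := fun hv => G.loopless.irrefl v (((mem_nb' G).1 (hK.1 hv)).2)
      have hvK' : v ∉ K' := fun hv => G.loopless.irrefl v (((mem_nb' G).1 (hK'.1 hv)).2)
      rw [← Finset.erase_insert hvK, ← Finset.erase_insert hvK', h]
    · intro K hK
      rw [Finset.mem_filter, mem_cq] at hK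
      obtain ⟨⟨hKS, hKc, hKq⟩, hvK⟩ := hK
      refine ⟨K.erase v, ?_, Finset.insert_erase hvK⟩
      rw [mem_cq]
      refine ⟨?_, by rw [Finset.card_erase_of_mem hvK, hKc]; rfl, ?_⟩
      · intro w hw
        rw [Finset.mem_erase] at hw
        rw [mem_nb']
        exact ⟨hKS hw.2, hKq (Finset.mem_coe.2 hvK) (Finset.mem_coe.2 hw.2) (Ne.symm hw.1)⟩
      · exact hKq.subset (by rw [Finset.coe_erase]; exact Set.diff_subset)
  rw [Finset.sum_congr rfl h1]
  have h2 : ∑ v ∈ S, ((cq G (t + 1) S).filter (fun K => v ∈ K)).card =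
      ∑ K ∈ cq G (t + 1) S, (S.filter (fun v => v ∈ K)).card := by
    simp only [Finset.card_filter]
    rw [Finset.sum_comm]
  rw [h2]
  have h3 : ∀ K ∈ cq G (t + 1) S, (S.filter (fun v => v ∈ K)).card = t + 1 := by
    intro K hK
    rw [mem_cq] at hK
    rw [Finset.filter_mem_eq_inter, Finset.inter_eq_right.2 hK.1, hK.2.1]
  rw [Finset.sum_congr rfl h3, Finset.sum_const, smul_eq_mul, mul_comm]
  rfl

theorem kq_two (S : Finset α) : 2 * kq G 2 S = ee G S S := by
  have h := sum_kq_nb G 1 S
  simp only [kq_one] at h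
  unfold ee
  rw [h]

theorem kq_univ (t : ℕ) : kq G t univ = {s : Finset α | G.IsNClique t s}.ncard := by
  classical
  unfold kq
  rw [← Set.ncard_coe_finset]
  congr 1
  ext K
  rw [Finset.mem_coe, mem_cq, Set.mem_setOf_eq, SimpleGraph.isNClique_iff]
  constructor
  · rintro ⟨_, h1, h2⟩
    exact ⟨h2, h1⟩
  · rintro ⟨h1, h2⟩
    exact ⟨Finset.subset_univ K, h2, h1⟩

end Pool.Agent.H45.KTD
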