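import Pool.Agent.H11.TD.Fami
import Pool.Agent.H11.TD.Cls

/-!
# PROJECT KTD (MP_e32fce_co, helper45): cliques `K_t`, `t ≥ 4`, in graphs of bounded degree and clique number

`ω = R + 1`, `Δ = R m + r`.  The structure theory (cores, hulls, families of cores) is that of helper11
(`Pool.Agent.H11.TD`).  `cq G t S` is the set of the cliques with `t` vertices contained in `S`, `kq G t S` their number,
`es t a` the `t`-th elementary symmetric polynomial.

The upper bound works with a payment function `ψ m u`: what a cluster (hull of a core) pays for a vertex outside all hulls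
which has `u i` neighbours in the part `i` of the cluster; `χ m u` says that an error may be charged to the vertex.
`PayA`: the cluster can pay.  `PayB`: the payments suffice for every outside vertex.
-/

set_option autoImplicit false

open Finset

namespace Pool.Agent.H45.KTD

open Pool.Agent.H11.TD

section graphs

variable {α : Type} [Fintype α] [DecidableEq α]

open scoped Classical in
/-- the `t`-cliques contained in `S` -/
noncomputable def cq (G : SimpleGraph α) (t : ℕ) (S : Finset α) : Finset (Finset α) :=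
  (S.powersetCard t).filter (fun K => G.IsClique (K : Set α))

/-- the number of `t`-cliques contained in `S` -/
noncomputable def kq (G : SimpleGraph α) (t : ℕ) (S : Finset α) : ℕ := (cq G t S).card

end graphs

/-- elementary symmetric polynomial -/
def es {k : ℕ} (t : ℕ) (a : Fin k → ℝ) : ℝ :=
  ∑ S ∈ (univ : Finset (Fin k)).powersetCard t, ∏ i ∈ S, a i

/-- `κ`: the number of `t`-cliques through an edge of the cluster is about `κ m ^ (t - 2)` -/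
def KK (R t : ℕ) : ℝ := ((R - 1).choose (t - 2) : ℝ)

/-- `A = C(R, t - 1) (t - 1) / t = κ R / t` -/
noncomputable def AA (R t : ℕ) : ℝ := (R.choose (t - 1) : ℝ) * ((t : ℝ) - 1) / t

/-- number of `t`-cliques of `L`: `r` parts of size `m + 1`, `R + 1 - r` parts of size `m` -/
noncomputable def KL (R r m t : ℕ) : ℝ :=
  es t (fun i : Fin (R + 1) => (m : ℝ) + if (i : ℕ) < r then 1 else 0)

/-- the clique density of `L` -/
noncomputable def PL (R r m t : ℕ) : ℝ := KL R r m t / ((R + 1) * m + r)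

/-- `u i`: number of neighbours of an outside vertex in the part `i` of a cluster -/
structure Vec (R m : ℕ) (γ η : ℝ) (u : Fin (R + 1) → ℝ) : Prop where
  nn : ∀ i, 0 ≤ u i
  le : ∀ i, u i ≤ (1 + 5 * R * η) * m
  zero : ∃ i, u i ≤ 6 * R * η * m
  sum : ∑ i, u i ≤ (R - γ / 2) * m

/-- data of a cluster: parts `A i`, for `v ∈ A i` the numbers `mu v` of missing, `ex v` of external, `bb v` of outside
neighbours, for the outside vertices `b ∈ B` the vectors `u b` -/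
structure CK (R r m : ℕ) (γ η : ℝ) {α : Type} [DecidableEq α] (A : Fin (R + 1) → Finset α)
    (mu ex bb : α → ℕ) (B : Finset α) (u : α → Fin (R + 1) → ℝ) : Prop where
  size : ∀ i, |((A i).card : ℝ) - m| ≤ 5 * R * η * m
  hmu : ∀ i, ∀ v ∈ A i, (mu v : ℝ) ≤ 2 * γ * m
  dbl : ∀ i, 2 * ∑ v ∈ A i, (mu v : ℝ) ≤ ∑ j, ∑ v ∈ A j, (mu v : ℝ)
  rel : ∀ i, ∀ v ∈ A i, ((ex v : ℤ) + bb v) + ((∑ k, ((A k).card : ℤ)) - (R + 1) * m - r) -
    ((A i).card - m) ≤ mu v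
  sB : ∀ i, ∑ v ∈ A i, (bb v : ℝ) = ∑ b ∈ B, u b i
  vec : ∀ b ∈ B, Vec R m γ η (u b)

/-- numerical data of a cluster: sizes `m + x i` of the parts, `M i` missing edges at the part `i`; the excess is
`c = ∑ x i - r` -/
structure CN (R r m : ℕ) (γ η : ℝ) (x : Fin (R + 1) → ℤ) (M : Fin (R + 1) → ℝ) {ι : Type}
    (B : Finset ι) (u : ι → Fin (R + 1) → ℝ) : Prop where
  hx : ∀ i, |(x i : ℝ)| ≤ 5 * R * η * m
  hM : ∀ i, 0 ≤ M i
  dbl : ∀ i, 2 * M i ≤ ∑ j, M j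
  part : ∀ i, ∑ b ∈ B, u b i ≤ M i + ((m : ℝ) + x i) * ((x i : ℝ) - ((∑ k, (x k : ℝ)) - r))
  vec : ∀ b ∈ B, Vec R m γ η (u b)

open scoped Classical in
/-- the cluster can pay `ψ` -/
def PayA (R r t : ℕ) (ψ : ℕ → (Fin (R + 1) → ℝ) → ℝ) (χ : ℕ → (Fin (R + 1) → ℝ) → Prop) : Prop :=
  ∀ C : ℝ, 0 < C → ∃ C2 γ0 : ℝ, 0 < C2 ∧ 0 < γ0 ∧ ∀ γ : ℝ, 0 < γ → γ ≤ γ0 → ∃ η0 : ℝ, 0 < η0 ∧
    ∀ η : ℝ, 0 < η → η ≤ η0 → ∀ m : ℕ, Par R r m γ η →
      ∀ (x : Fin (R + 1) → ℤ) (M : Fin (R + 1) → ℝ) (ι : Type) (B : Finset ι)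
        (u : ι → Fin (R + 1) → ℝ), CN R r m γ η x M B u →
        AA R t * (m : ℝ) ^ (t - 1) * ((∑ i, (x i : ℝ)) - r) +
          C * η * (m : ℝ) ^ (t - 1) * |(∑ i, (x i : ℝ)) - r| -
          (KK R t / 2 - C * γ) * (m : ℝ) ^ (t - 2) *
            (∑ i, (x i : ℝ) * ((x i : ℝ) - 1) + ∑ i, M i) + ∑ b ∈ B, ψ m (u b) ≤
        C2 * η * (m : ℝ) ^ (t - 1) * ((B.filter (fun b => χ m (u b))).card : ℝ)

open scoped Classical in
/-- the payments `ψ` suffice for an outside vertex with vectors `u i` into the clusters `i ∈ L`, `k i` cliques in the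
cluster `i`, `e i` mixed cliques, and `h` neighbours outside all clusters -/
def PayB (R r t : ℕ) (ψ : ℕ → (Fin (R + 1) → ℝ) → ℝ) (χ : ℕ → (Fin (R + 1) → ℝ) → Prop) : Prop :=
  ∀ C2 C3 : ℝ, 0 < C2 → 0 < C3 → ∃ γ0 : ℝ, 0 < γ0 ∧ ∀ γ : ℝ, 0 < γ → γ ≤ γ0 → ∃ η0 : ℝ, 0 < η0 ∧
    ∀ η : ℝ, 0 < η → η ≤ η0 → ∃ C4 c5 : ℝ, 0 < C4 ∧ 0 < c5 ∧ ∀ m : ℕ, Par R r m γ η →
      ∀ (ι : Type) (L : Finset ι) (u : ι → Fin (R + 1) → ℝ) (k e : ι → ℝ) (h : ℝ),
        (∀ i ∈ L, Vec R m γ η (u i)) →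
        (∀ i ∈ L, k i ≤ (R.choose (t - 1) : ℝ) * ((∑ j, u i j) / R) ^ (t - 1) ∧
          k i ≤ es (t - 1) (u i)) →
        (∀ i ∈ L, e i ≤ C3 * γ * (m : ℝ) ^ (t - 2) * ∑ j, u i j ∧
          e i ≤ C3 * Real.sqrt η * (m : ℝ) ^ (t - 1)) →
        0 ≤ h → ∑ i ∈ L, ∑ j, u i j + h ≤ R * m + r →
        ∑ i ∈ L, (k i - ψ m (u i) + e i +
          (if χ m (u i) then C2 * η * (m : ℝ) ^ (t - 1) else 0)) +
          (R.choose (t - 1) : ℝ) * (h / R) ^ (t - 1) / t - PL R r m t ≤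
        C4 * (m : ℝ) ^ (t - 2) - c5 * (m : ℝ) ^ (t - 2) * ∑ i ∈ L, ∑ j, u i j

/-- payments are nonnegative, and charged vertices have many neighbours in the cluster -/
structure PayC (R r : ℕ) (ψ : ℕ → (Fin (R + 1) → ℝ) → ℝ) (χ : ℕ → (Fin (R + 1) → ℝ) → Prop) :
    Prop where
  nn : ∀ (m : ℕ) (γ η : ℝ) (u : Fin (R + 1) → ℝ), Par R r m γ η → Vec R m γ η u → 0 ≤ ψ m u
  ch : ∃ c0 : ℝ, 0 < c0 ∧ ∀ (m : ℕ) (γ η : ℝ) (u : Fin (R + 1) → ℝ), Par R r m γ η →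
    Vec R m γ η u → χ m u → c0 * m ≤ ∑ j, u j

end Pool.Agent.H45.KTD
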