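import Pool.Agent.H11.TD.Dat
import Pool.Agent.H45.KTD.Defs

/-!
# KTD Cdat: the numerical data of a cluster

`muV G A v = ms G A i v` for `v ∈ A i` (`muV_eq` in `Pool.Agent.H11.TD.Dat`; the proof of `cluster_data` there is very similar and can
be copied).  `O = univ \ HH L`.  For `V ∈ L`, `A = hpt G m γ V`, `mu = muV G A`, `ex v = |nb v (HH L \ hull V)|`, `bb v = |nb v O|`,
`B = O`, `u b i = |nb b (hpt V i)|`:
* `size`: `hpt_size`; `hmu`: `hpt_ms`;
* `dbl`: `∑_{v ∈ A i} mu v` is the number of pairs `(v, w)`, `v ∈ A i`, `w ∈ A j`, `j ≠ i`, not adjacent; by symmetry each such pair is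
  counted in `∑_{w ∈ A j} mu w`, so `∑_{v ∈ A i} mu v ≤ ∑_{j ≠ i} ∑_{w ∈ A j} mu w`;
* `rel`: `v ∈ A i`: `|NN v| = |nb v (hull V)| + ex v + bb v` (`univ = hull V ∪ (HH \ hull V) ∪ O`),
  `|nb v (hull V)| = |rest A i| - ms` (`hpt_indep`, `nb_rest_card`), `|rest A i| = ∑ |A k| - |A i|` (`rest_card`),
  `|NN v| ≤ R m + r`;
* `sB`: double counting (`sum_nb_comm`);
* `vec`: `nn` clear; `le`: `u b i ≤ |A i| ≤ (1 + 5 R η) m` (`hpt_size`); `sum`: `∑ i, u b i = |nb b (hull V)|` (disjoint parts) and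
  `not_hull_deg` (`b ∉ HH L`, so `b ∉ hull V`); `zero`: `no_clique_nb` (in `TD.Pick`, used in the proof of `not_hull_deg`): some
  `|nb b (V i)| ≤ (R + 1) η m`, and `hpt V i \ V i ⊆ hull \ tot V` (`hpt_disj`, `core_sub_hpt`) has at most `4 R η m` elements
  (`hull_out_card`), `(R + 1) + 4 R ≤ 6 R`.
-/

set_option autoImplicit false

open Finset

namespace Pool.Agent.H45.KTD

open Pool.Agent.H11.TD

section

variable {α : Type} [Fintype α] [DecidableEq α] (G : SimpleGraph α)

private theorem cdat_three (v : α) (S1 S2 S3 : Finset α) (h12 : Disjoint S1 S2)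
    (h13 : Disjoint S1 S3) (h23 : Disjoint S2 S3) :
    (nb G v S1).card + (nb G v S2).card + (nb G v S3).card ≤ (NN G v).card := by
  have e : ∀ S T : Finset α, Disjoint S T → (nb G v S).card + (nb G v T).card =
      (nb G v (S ∪ T)).card := by
    intro S T h
    rw [nb_union, Finset.card_union_of_disjoint]
    rw [Finset.disjoint_left]
    intro a ha hb
    rw [mem_nb] at ha hb
    exact Finset.disjoint_left.1 h ha.1 hb.1
  rw [e S1 S2 h12, e (S1 ∪ S2) S3 (Finset.disjoint_union_left.2 ⟨h13, h23⟩)]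
  exact nb_card_le G v _

private theorem cdat_rest_sub {k : ℕ} (A : Fin k → Finset α) (i : Fin k) : rest A i ⊆ tot A := by
  rw [← rest_union A i]
  exact Finset.subset_union_left

private theorem cdat_ms {k : ℕ} (A : Fin k → Finset α)
    (hd : ∀ i j, i ≠ j → Disjoint (A i) (A j)) (i : Fin k) (v : α) (hv : v ∈ A i) :
    muV G A v = (nb Gᶜ v (rest A i)).card := by
  rw [muV_eq G A hd i v hv]
  unfold ms
  congr 1
  ext w
  rw [Finset.mem_sdiff, mem_nb, mem_nb, SimpleGraph.compl_adj]
  constructor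
  · rintro ⟨h1, h2⟩
    refine ⟨h1, ?_, fun h => h2 ⟨h1, h⟩⟩
    rintro rfl
    rw [mem_rest] at h1
    obtain ⟨j, hj, hw⟩ := h1
    exact Finset.disjoint_left.1 (hd j i hj) hw hv
  · rintro ⟨h1, _, h2⟩
    exact ⟨h1, fun h => h2 h.2⟩

private theorem cdat_dbl {k : ℕ} (A : Fin k → Finset α)
    (hd : ∀ i j, i ≠ j → Disjoint (A i) (A j)) (i : Fin k) :
    2 * ∑ v ∈ A i, muV G A v ≤ ∑ j, ∑ v ∈ A j, muV G A v := by
  have e1 : ∑ v ∈ A i, muV G A v = ∑ w ∈ rest A i, (nb Gᶜ w (A i)).card := by
    rw [Finset.sum_congr rfl (cdat_ms G A hd i), sum_nb_comm]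
  have e2 : ∑ w ∈ rest A i, (nb Gᶜ w (A i)).card ≤ ∑ w ∈ rest A i, muV G A w := by
    apply Finset.sum_le_sum
    intro w hw
    rw [mem_rest] at hw
    obtain ⟨j, hj, hw⟩ := hw
    rw [cdat_ms G A hd j w hw]
    apply Finset.card_le_card
    apply nb_mono
    intro a ha
    rw [mem_rest]
    exact ⟨i, hj.symm, ha⟩
  have e3 : ∑ j, ∑ v ∈ A j, muV G A v = ∑ v ∈ rest A i, muV G A v + ∑ v ∈ A i, muV G A v := by
    rw [← Finset.sum_union, rest_union]
    · unfold tot
      rw [Finset.sum_biUnion]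
      intro a _ b _ hab
      exact hd a b hab
    · rw [Finset.disjoint_left]
      intro a ha hb
      rw [mem_rest] at ha
      obtain ⟨j, hj, ha⟩ := ha
      exact Finset.disjoint_left.1 (hd j i hj) ha hb
  rw [e3]
  omega

private theorem cdat_sum {k : ℕ} (A : Fin k → Finset α)
    (hd : ∀ i j, i ≠ j → Disjoint (A i) (A j)) (b : α) :
    ∑ i, (nb G b (A i)).card = (nb G b (tot A)).card := by
  rw [← Finset.card_biUnion]
  · congr 1
    ext w
    simp only [Finset.mem_biUnion, Finset.mem_univ, true_and, mem_nb, mem_tot]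
    constructor
    · rintro ⟨i, h1, h2⟩
      exact ⟨⟨i, h1⟩, h2⟩
    · rintro ⟨⟨i, h1⟩, h2⟩
      exact ⟨i, h1, h2⟩
  · intro i _ j _ hij
    change Disjoint (nb G b (A i)) (nb G b (A j))
    rw [Finset.disjoint_left]
    intro a ha hb
    rw [mem_nb] at ha hb
    exact Finset.disjoint_left.1 (hd i j hij) ha.1 hb.1

end

theorem cdat {α : Type} [Fintype α] [DecidableEq α] (G : SimpleGraph α) {R r m : ℕ} {γ η : ℝ}
    (hp : Par R r m γ η) (hG : Ctx G R r m)
    (L : Finset (Fin (R + 1) → Finset α)) (hL : Fam G R m γ η L) (V : Fin (R + 1) → Finset α)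
    (hV : V ∈ L) : CK R r m γ η (hpt G m γ V) (muV G (hpt G m γ V))
      (fun v => (nb G v (HH G m γ L \ hull G m γ V)).card)
      (fun v => (nb G v (univ \ HH G m γ L)).card)
      (univ \ HH G m γ L) (fun y i => ((nb G y (hpt G m γ V i)).card : ℝ)) := by
  have hC : Core G R m η V := hL.core V hV
  have hd : ∀ i j, i ≠ j → Disjoint (hpt G m γ V i) (hpt G m γ V j) :=
    fun i j hij => hpt_disj G hp hG hC i j hij
  have hm0 : (0 : ℝ) ≤ m := Nat.cast_nonneg m
  have hη := hp.hη
  have hR4 : (4 : ℝ) ≤ R := by exact_mod_cast hp.hR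
  have hsub : hull G m γ V ⊆ HH G m γ L := by
    intro y hy
    unfold HH
    rw [Finset.mem_biUnion]
    exact ⟨V, hV, hy⟩
  refine
    { size := ?_
      hmu := ?_
      dbl := ?_
      rel := ?_
      sB := ?_
      vec := ?_ }
  · intro i
    obtain ⟨h1, h2⟩ := hpt_size G hp hG hC i
    have h3 : 0 ≤ η * m := mul_nonneg hη.le hm0
    rw [abs_le]
    constructor
    · nlinarith
    · linarith
  · intro i v hv
    rw [muV_eq G _ hd i v hv]
    exact hpt_ms G hp hG hC i v hv
  · intro i
    exact_mod_cast cdat_dbl G _ hd i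
  · intro i v hv
    rw [muV_eq G _ hd i v hv]
    have h1 := nb_rest_card G (hpt G m γ V) i v
    have h2 := rest_card (hpt G m γ V) hd i
    have h3 := hG.deg v
    have hrs : rest (hpt G m γ V) i ⊆ hull G m γ V := cdat_rest_sub _ i
    have h4 := cdat_three G v (rest (hpt G m γ V) i) (HH G m γ L \ hull G m γ V)
      (univ \ HH G m γ L)
      (Finset.disjoint_left.2 fun y hy hy' => (Finset.mem_sdiff.1 hy').2 (hrs hy))
      (Finset.disjoint_left.2 fun y hy hy' => (Finset.mem_sdiff.1 hy').2 (hsub (hrs hy)))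
      (Finset.disjoint_left.2 fun y hy hy' => (Finset.mem_sdiff.1 hy').2
        (Finset.mem_sdiff.1 hy).1)
    have h5 : (∑ k, ((hpt G m γ V k).card : ℤ)) =
        ((rest (hpt G m γ V) i).card : ℤ) + (hpt G m γ V i).card := by
      exact_mod_cast h2.symm
    rw [h5]
    have h6 : (((rest (hpt G m γ V) i).card : ℕ) : ℤ) =
        (nb G v (rest (hpt G m γ V) i)).card + ms G (hpt G m γ V) i v := by
      exact_mod_cast h1.symm
    rw [h6]
    have h7 : ((nb G v (rest (hpt G m γ V) i)).card : ℤ) +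
        (nb G v (HH G m γ L \ hull G m γ V)).card +
        (nb G v (univ \ HH G m γ L)).card ≤ R * m + r := by
      exact_mod_cast h4.trans h3
    have h8 : ((R : ℤ) + 1) * m = R * m + m := by ring
    rw [h8]
    linarith
  · intro i
    have h1 := sum_nb_comm G (hpt G m γ V i) (univ \ HH G m γ L)
    exact_mod_cast h1
  · intro b hb
    have hb' : b ∉ hull G m γ V := fun h => (Finset.mem_sdiff.1 hb).2 (hsub h)
    refine
      { nn := fun i => Nat.cast_nonneg _
        le := ?_
        zero := ?_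
        sum := ?_ }
    · intro i
      have h1 : (((nb G b (hpt G m γ V i)).card : ℕ) : ℝ) ≤ ((hpt G m γ V i).card : ℝ) := by
        exact_mod_cast nb_card_le' G b _
      exact h1.trans (hpt_size G hp hG hC i).2
    · obtain ⟨i, hi⟩ := no_clique_nb G hG.cf hη hC b
      refine ⟨i, ?_⟩
      have hout := hull_out_card G hp hG hC
      have h1 : nb G b (hpt G m γ V i) ⊆ nb G b (V i) ∪ (hull G m γ V \ tot V) := by
        intro w hw
        rw [mem_nb] at hw
        rw [Finset.mem_union, mem_nb, Finset.mem_sdiff]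
        by_cases hc : w ∈ V i
        · exact Or.inl ⟨hc, hw.2⟩
        · refine Or.inr ⟨?_, ?_⟩
          · unfold hull
            rw [mem_tot]
            exact ⟨i, hw.1⟩
          · intro ht
            rw [mem_tot] at ht
            obtain ⟨j, hj⟩ := ht
            by_cases hij : i = j
            · subst hij
              exact hc hj
            · exact Finset.disjoint_left.1 (hd i j hij) hw.1 (core_sub_hpt G hp hC j hj)
      have h2 : ((nb G b (hpt G m γ V i)).card : ℝ) ≤
          ((nb G b (V i)).card : ℝ) + ((hull G m γ V \ tot V).card : ℝ) := by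
        exact_mod_cast (Finset.card_le_card h1).trans (Finset.card_union_le _ _)
      have h3 : 0 ≤ η * m := mul_nonneg hη.le hm0
      have h4 : ((R : ℝ) + 1) * (η * m) + 4 * R * η * m ≤ 6 * R * η * m := by nlinarith
      linarith
    · have h1 := cdat_sum G (hpt G m γ V) hd b
      have h2 : (∑ i, ((nb G b (hpt G m γ V i)).card : ℝ)) =
          ((nb G b (hull G m γ V)).card : ℝ) := by
        unfold hull
        exact_mod_cast h1
      rw [h2]
      exact not_hull_deg G hp hG hC b hb'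

end Pool.Agent.H45.KTD
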