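import Pool.Agent.H11.TD.Cls
import Pool.Agent.H45.KTD.Bas

/-!
# KTD ClsK: the extremal function for `K_t` and the limit

As in `Pool.Agent.H11.TD.Cls` (real file; the proofs there can be adapted), with `t`-cliques instead of triangles, `t ≥ 1`.
`kc_bdd`: `kc t G ≤ 2 ^ p`.
`exK_lo`: `q = p / n0` disjoint copies of `G0` (the graph on `Fin q × Fin n0` with `(i, a) ~ (j, b)` iff `i = j` and `a ~ b`, mapped into
`Fin p` by an embedding, `SimpleGraph.map`): maximum degree and clique number do not increase, and there are `≥ q kc t G0`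
`t`-cliques.
`lim_ofK`: `kc t G ≤ P p` for all graphs in the class gives `exK ≤ P p`; lower bound from `exK_lo`; squeeze.
`liminf_ofK`: `exK / p ≥ (p / n0) kc t G0 / p → kc t G0 / n0 > P`.
-/

set_option autoImplicit false

open Finset Filter Topology

namespace Pool.Agent.H45.KTD

open Pool.Agent.H11.TD

/-- the number of cliques with `t` vertices -/
noncomputable def kc {V : Type} (t : ℕ) (G : SimpleGraph V) : ℕ :=
  {s : Finset V | G.IsNClique t s}.ncard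

/-- the maximum number of `t`-cliques in the graphs with `p` vertices of the class -/
noncomputable def exK (t p Δ ω : ℕ) : ℕ := sSup (kc t '' Cls p Δ ω)

/-- disjoint copies of a graph -/
private def kcp {n0 : ℕ} (hn0 : 0 < n0) (G0 : SimpleGraph (Fin n0)) (p : ℕ) :
    SimpleGraph (Fin p) where
  Adj u v := (u : ℕ) / n0 = (v : ℕ) / n0 ∧
    G0.Adj ⟨(u : ℕ) % n0, Nat.mod_lt _ hn0⟩ ⟨(v : ℕ) % n0, Nat.mod_lt _ hn0⟩
  symm := ⟨fun _ _ h => ⟨h.1.symm, h.2.symm⟩⟩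
  loopless := ⟨fun _ h => h.2.ne rfl⟩

private theorem kcp_mem {n0 Δ ω : ℕ} (hn0 : 0 < n0) {G0 : SimpleGraph (Fin n0)}
    (h0 : G0 ∈ Cls n0 Δ ω) (p : ℕ) : kcp hn0 G0 p ∈ Cls p Δ ω := by
  classical
  constructor
  · intro v
    refine le_trans (Set.ncard_le_ncard_of_injOn
      (fun u : Fin p => (⟨(u : ℕ) % n0, Nat.mod_lt _ hn0⟩ : Fin n0)) ?_ ?_ (Set.toFinite _))
      (h0.1 ⟨(v : ℕ) % n0, Nat.mod_lt _ hn0⟩)
    · intro u hu
      exact hu.2
    · intro u hu u' hu' he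
      have h1 : (u : ℕ) / n0 = (u' : ℕ) / n0 := hu.1.symm.trans hu'.1
      have h2 : (u : ℕ) % n0 = (u' : ℕ) % n0 := congrArg Fin.val he
      apply Fin.ext
      rw [← Nat.div_add_mod (u : ℕ) n0, ← Nat.div_add_mod (u' : ℕ) n0, h1, h2]
  · intro s hs
    refine h0.2 (s.image fun u : Fin p => (⟨(u : ℕ) % n0, Nat.mod_lt _ hn0⟩ : Fin n0)) ?_
    rw [SimpleGraph.isNClique_iff] at hs ⊢
    constructor
    · intro a ha b hb hab
      rw [mem_coe, mem_image] at ha hb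
      obtain ⟨u, hu, rfl⟩ := ha
      obtain ⟨v, hv, rfl⟩ := hb
      exact (hs.1 hu hv fun h => hab (by rw [h])).2
    · rw [card_image_of_injOn, hs.2]
      intro u hu v hv he
      by_contra hne
      exact (hs.1 hu hv hne).2.ne he

private theorem kcp_kc (t : ℕ) (ht1 : 1 ≤ t) {n0 : ℕ} (hn0 : 0 < n0) (G0 : SimpleGraph (Fin n0)) (p : ℕ) :
    p / n0 * kc t G0 ≤ kc t (kcp hn0 G0 p) := by
  classical
  have hlt : ∀ (i : Fin (p / n0)) (a : Fin n0), (a : ℕ) + n0 * i < p := by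
    intro i a
    have h1 : n0 * ((i : ℕ) + 1) ≤ n0 * (p / n0) := Nat.mul_le_mul_left _ i.2
    have h2 := Nat.mul_div_le p n0
    have h3 := a.2
    have h4 : n0 * ((i : ℕ) + 1) = n0 * i + n0 := by ring
    omega
  have hmod : ∀ (i : Fin (p / n0)) (a : Fin n0), ((a : ℕ) + n0 * i) % n0 = a := by
    intro i a
    rw [Nat.add_mul_mod_self_left, Nat.mod_eq_of_lt a.2]
  have hdiv : ∀ (i : Fin (p / n0)) (a : Fin n0), ((a : ℕ) + n0 * i) / n0 = i := by
    intro i a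
    rw [Nat.add_mul_div_left _ _ hn0, Nat.div_eq_of_lt a.2, zero_add]
  let g : Fin (p / n0) → Fin n0 → Fin p := fun i a => ⟨(a : ℕ) + n0 * i, hlt i a⟩
  have hginj : ∀ i, Function.Injective (g i) := by
    intro i a b h
    have h1 : (a : ℕ) + n0 * i = (b : ℕ) + n0 * i := congrArg Fin.val h
    exact Fin.ext (by omega)
  have hgg : ∀ i a j b, g i a = g j b → i = j ∧ a = b := by
    intro i a j b h
    have h1 : (a : ℕ) + n0 * i = (b : ℕ) + n0 * j := congrArg Fin.val h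
    have h2 := hdiv i a
    have h3 := hmod i a
    rw [h1, hdiv] at h2
    rw [h1, hmod] at h3
    exact ⟨(Fin.ext h2).symm, (Fin.ext h3).symm⟩
  have h1 : ((Set.univ : Set (Fin (p / n0))) ×ˢ {s : Finset (Fin n0) | G0.IsNClique t s}).ncard =
      p / n0 * kc t G0 := by
    rw [Set.ncard_prod, Set.ncard_univ, Nat.card_eq_fintype_card, Fintype.card_fin]
    rfl
  rw [← h1]
  unfold kc
  refine Set.ncard_le_ncard_of_injOn (fun x => x.2.image (g x.1)) ?_ ?_ (Set.toFinite _)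
  · rintro ⟨i, s⟩ hs
    have hs' : G0.IsNClique t s := hs.2
    show (kcp hn0 G0 p).IsNClique t (s.image (g i))
    rw [SimpleGraph.isNClique_iff] at hs' ⊢
    constructor
    · intro u hu v hv huv
      rw [mem_coe, mem_image] at hu hv
      obtain ⟨a, ha, rfl⟩ := hu
      obtain ⟨b, hb, rfl⟩ := hv
      refine ⟨?_, ?_⟩
      · show ((a : ℕ) + n0 * i) / n0 = ((b : ℕ) + n0 * i) / n0
        rw [hdiv, hdiv]
      · have h2 := hs'.1 ha hb fun h => huv (by rw [h])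
        have h3 : (⟨((g i a : Fin p) : ℕ) % n0, Nat.mod_lt _ hn0⟩ : Fin n0) = a :=
          Fin.ext (hmod i a)
        have h4 : (⟨((g i b : Fin p) : ℕ) % n0, Nat.mod_lt _ hn0⟩ : Fin n0) = b :=
          Fin.ext (hmod i b)
        rw [h3, h4]
        exact h2
    · rw [card_image_of_injective _ (hginj i), hs'.2]
  · rintro ⟨i, s⟩ hs ⟨j, t'⟩ ht he
    have hs' : G0.IsNClique t s := hs.2
    have he' : s.image (g i) = t'.image (g j) := he
    have hne : s.Nonempty := card_pos.1 (by rw [hs'.card_eq]; omega)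
    obtain ⟨a, ha⟩ := hne
    have h2 : g i a ∈ t'.image (g j) := by
      rw [← he']
      exact mem_image_of_mem _ ha
    obtain ⟨b, _, hb⟩ := mem_image.1 h2
    obtain ⟨hij, _⟩ := hgg j b i a hb
    subst hij
    have h3 : s = t' := image_injective (hginj j) he'
    rw [h3]


private theorem kc_bdd (t p Δ ω : ℕ) : BddAbove (kc t '' Cls p Δ ω) := by
  refine ⟨2 ^ p, ?_⟩
  rintro _ ⟨G, _, rfl⟩
  unfold kc
  refine le_trans (Set.ncard_le_ncard (Set.subset_univ _) (Set.toFinite _)) ?_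
  rw [Set.ncard_univ, Nat.card_eq_fintype_card, Fintype.card_finset, Fintype.card_fin]

theorem exK_lo (t p Δ ω n0 : ℕ) (ht : 1 ≤ t) (hn0 : 0 < n0) (G0 : SimpleGraph (Fin n0))
    (hG0 : G0 ∈ Cls n0 Δ ω) : p / n0 * kc t G0 ≤ exK t p Δ ω := by
  refine (kcp_kc t ht hn0 G0 p).trans ?_
  exact le_csSup (kc_bdd t p Δ ω) ⟨_, kcp_mem hn0 hG0 p, rfl⟩

theorem exK_up (t p Δ ω : ℕ) (P : ℝ) (hP : 0 ≤ P)
    (hup : ∀ G : SimpleGraph (Fin p), G ∈ Cls p Δ ω → (kc t G : ℝ) ≤ P * p) :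
    (exK t p Δ ω : ℝ) ≤ P * p := by
  by_cases hne : (kc t '' Cls p Δ ω).Nonempty
  · obtain ⟨G, hG, he⟩ := Nat.sSup_mem hne (kc_bdd t p Δ ω)
    have h2 := hup G hG
    rw [he] at h2
    exact h2
  · rw [Set.not_nonempty_iff_eq_empty] at hne
    unfold exK
    rw [hne]
    simp only [csSup_empty, bot_eq_zero, Nat.cast_zero]
    positivity

private theorem div_lo (p n0 : ℕ) (hn0 : 0 < n0) : (p : ℝ) - n0 ≤ ((p / n0 : ℕ) : ℝ) * n0 := by
  have h7 := Nat.div_add_mod p n0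
  have h8 := Nat.mod_lt p hn0
  have h9 : p ≤ p / n0 * n0 + n0 := by
    rw [mul_comm]
    omega
  have h10 : (p : ℝ) ≤ ((p / n0 : ℕ) : ℝ) * n0 + n0 := by exact_mod_cast h9
  linarith

theorem lim_ofK (t Δ ω n0 : ℕ) (ht : 1 ≤ t) (P : ℝ) (hn0 : 0 < n0) (hP : 0 ≤ P)
    (hup : ∀ p (G : SimpleGraph (Fin p)), G ∈ Cls p Δ ω → (kc t G : ℝ) ≤ P * p)
    (hlo : ∃ G0 ∈ Cls n0 Δ ω, P * n0 ≤ (kc t G0 : ℝ)) :
    Tendsto (fun p : ℕ => (exK t p Δ ω : ℝ) / p) atTop (𝓝 P) := by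
  obtain ⟨G0, hG0, hG0P⟩ := hlo
  have h1 : ∀ p : ℕ, (exK t p Δ ω : ℝ) ≤ P * p := fun p => exK_up t p Δ ω P hP (hup p)
  have h2 : ∀ p : ℕ, P * ((p : ℝ) - n0) ≤ exK t p Δ ω := by
    intro p
    have h4 := exK_lo t p Δ ω n0 ht hn0 G0 hG0
    have h5 : ((p / n0 : ℕ) : ℝ) * (kc t G0 : ℝ) ≤ exK t p Δ ω := by exact_mod_cast h4
    refine le_trans ?_ h5
    have h6 := div_lo p n0 hn0
    calc P * ((p : ℝ) - n0) ≤ P * (((p / n0 : ℕ) : ℝ) * n0) := by gcongr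
      _ = ((p / n0 : ℕ) : ℝ) * (P * n0) := by ring
      _ ≤ ((p / n0 : ℕ) : ℝ) * (kc t G0 : ℝ) := by gcongr
  have h3 : Tendsto (fun p : ℕ => P * (1 - (n0 : ℝ) / p)) atTop (𝓝 P) := by
    have h4 : Tendsto (fun p : ℕ => (n0 : ℝ) / p) atTop (𝓝 0) :=
      tendsto_const_div_atTop_nhds_zero_nat _
    have h5 := (tendsto_const_nhds (x := (1 : ℝ)).sub h4).const_mul P
    simpa using h5
  refine tendsto_of_tendsto_of_tendsto_of_le_of_le' h3 tendsto_const_nhds ?_ ?_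
  · filter_upwards [eventually_gt_atTop 0] with p hp
    have hp' : (0 : ℝ) < p := by exact_mod_cast hp
    rw [le_div_iff₀ hp']
    have h6 : P * (1 - (n0 : ℝ) / p) * p = P * ((p : ℝ) - n0) := by
      field_simp
    rw [h6]
    exact h2 p
  · filter_upwards [eventually_gt_atTop 0] with p hp
    have hp' : (0 : ℝ) < p := by exact_mod_cast hp
    rw [div_le_iff₀ hp']
    exact h1 p

theorem liminf_ofK (t Δ ω n0 : ℕ) (ht : 1 ≤ t) (P : ℝ) (hn0 : 0 < n0)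
    (hlo : ∃ G0 ∈ Cls n0 Δ ω, P * n0 < (kc t G0 : ℝ)) :
    ∃ c : ℝ, P < c ∧ ∀ᶠ p : ℕ in atTop, c ≤ (exK t p Δ ω : ℝ) / p := by
  obtain ⟨G0, hG0, hG0P⟩ := hlo
  have hn0' : (0 : ℝ) < n0 := by exact_mod_cast hn0
  obtain ⟨K, hK⟩ : ∃ K : ℝ, K = (kc t G0 : ℝ) / n0 := ⟨_, rfl⟩
  have hK0 : 0 ≤ K := by
    rw [hK]
    positivity
  have hPK : P < K := by
    rw [hK, lt_div_iff₀ hn0']
    exact hG0P
  have hKn : K * n0 = (kc t G0 : ℝ) := by
    rw [hK]
    field_simp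
  refine ⟨(P + K) / 2, by linarith, ?_⟩
  have h3 : Tendsto (fun p : ℕ => K * (1 - (n0 : ℝ) / p)) atTop (𝓝 K) := by
    have h4 : Tendsto (fun p : ℕ => (n0 : ℝ) / p) atTop (𝓝 0) :=
      tendsto_const_div_atTop_nhds_zero_nat _
    have h5 := (tendsto_const_nhds (x := (1 : ℝ)).sub h4).const_mul K
    simpa using h5
  have h4 : ∀ᶠ p : ℕ in atTop, (P + K) / 2 < K * (1 - (n0 : ℝ) / p) :=
    h3.eventually_const_lt (by linarith)
  filter_upwards [h4, eventually_gt_atTop 0] with p h5 hp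
  refine h5.le.trans ?_
  have hp' : (0 : ℝ) < p := by exact_mod_cast hp
  rw [le_div_iff₀ hp']
  have h6 : K * (1 - (n0 : ℝ) / p) * p = K * ((p : ℝ) - n0) := by
    field_simp
  rw [h6]
  have h7 := exK_lo t p Δ ω n0 ht hn0 G0 hG0
  have h8 : ((p / n0 : ℕ) : ℝ) * (kc t G0 : ℝ) ≤ exK t p Δ ω := by exact_mod_cast h7
  have h9 := div_lo p n0 hn0
  calc K * ((p : ℝ) - n0) ≤ K * (((p / n0 : ℕ) : ℝ) * n0) := by gcongr
    _ = ((p / n0 : ℕ) : ℝ) * (K * n0) := by ring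
    _ = ((p / n0 : ℕ) : ℝ) * (kc t G0 : ℝ) := by rw [hKn]
    _ ≤ _ := h8

end Pool.Agent.H45.KTD
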