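import Pool.Agent.H45.KTD.Tau

/-!
# KTD CombF: slots of a cluster (combinatorial core)

`q = R - r`.
* `setA` (`∑ g = r`): let `F = {g ≥ 1}`.  If `|F| ≥ r` take `F' ⊆ F` with `r` elements: `∑_{F'} g ≥ r`, so `W = F'ᶜ` has
  `∑_W g ≤ 0`.  If `|F| < r` take `F' ⊇ F` with `r` elements: `W = F'ᶜ ⊆ {g ≤ 0}`.
* `setB`, `setC` (`∑ h = q`, `s ∈ {q, q + 1}`): let `P = {h ≥ 1}`.  If `|P| ≥ s` take `W ⊆ P` with `s` elements, `∑_W h ≥ s`.  If
  `|P| < s` take `W ⊇ P` with `s` elements: outside `W` we have `h ≤ 0`, so `∑_W h ≥ ∑ h = q`.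
Let `i0 b` be an index with `u b (i0 b) ≤ ε m`.  `combA` (`|B'| = p`, `∑ f = r + R p`): `n i = #{b ∈ B' : i0 b ≠ i}`, `∑ n = R p`;
`setA` for `g = f - n`; `W` has `q + 1` elements and `∑_W (f - n) ≤ 0`.
`∑_{i ∈ W} (S i - m f i) ≥ ∑_{b ∉ B'} ∑_{i ∈ W} u b i + ∑_{b ∈ B'} ∑_{i ∈ W, i ≠ i0 b} u b i - m ∑_W f`
`≥ ∑_{b ∉ B'} tau (u b) - ∑_{b ∈ B'} ∑_{i ∈ W, i ≠ i0 b} (m - u b i)` (as `m ∑_W f ≤ m ∑_W n`).  For `b ∈ B'`, `τ = tau (u b)`:
 - if `i0 b ∈ W`: `τ ≤ ∑_W u ≤ ∑_{W \ i0} u + ε m`, so the sum is `≤ q m - τ + ε m`, and `q m - τ ≥ - (q + 1) ε m` (`τ ≤ ∑` of any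
   `q + 1` coordinates including `i0`: `≤ ε m + q (1 + ε) m`), so `q m - τ + ε m ≤ ((q+1)/q)(q m - τ) + 3 ε m`;
 - if `i0 b ∉ W`: for `j ∈ W`: `τ ≤ ∑_{W \ j} u + u (i0)`; sum over `j ∈ W`: `(q + 1) τ ≤ q ∑_W u + (q + 1) ε m`, so the sum is
   `(q + 1) m - ∑_W u ≤ ((q + 1)/q)(q m - τ) + 2 ε m`.
`combC` (`|B'| = p + 1`): the same with `h = n - f`, `∑ h = R (p + 1) - r - R p = q`, `setC`: `m ∑_W (n - f) ≥ q m`.
`combB`: `setB`, `|W| = q`: for `b ∈ B'`: if `i0 b ∉ W`: `τ ≤ ∑_W u + ε m`, so `∑_W (m - u) ≤ q m - τ + ε m`; if `i0 b ∈ W` take `j ∉ W`: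
`τ ≤ ∑_{W} u + u j ≤ ε m + ∑_{W \ i0} u + (1 + ε) m`, so `∑_{W \ i0} (m - u) ≤ (q - 1) m - τ + (1 + 2 ε) m = q m - τ + 2 ε m`.
-/

set_option autoImplicit false

open Finset

namespace Pool.Agent.H45.KTD

open Pool.Agent.H11.TD

theorem setA (R r : ℕ) (hr : r ≤ R) (g : Fin (R + 1) → ℤ) (hg : ∑ i, g i = r) :
    ∃ W : Finset (Fin (R + 1)), W.card = R + 1 - r ∧ ∑ i ∈ W, g i ≤ 0 := by
  classical
  obtain ⟨F, hF⟩ : ∃ F : Finset (Fin (R + 1)), F = univ.filter (fun i => 1 ≤ g i) := ⟨_, rfl⟩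
  rcases le_or_gt r F.card with hc | hc
  · obtain ⟨F', hF', hc'⟩ := Finset.exists_subset_card_eq hc
    refine ⟨F'ᶜ, ?_, ?_⟩
    · rw [card_compl, Fintype.card_fin, hc']
    · have h1 := Finset.sum_add_sum_compl F' g
      have h2 : ∑ i ∈ F', (1 : ℤ) ≤ ∑ i ∈ F', g i := by
        refine sum_le_sum fun i hi => ?_
        have := hF' hi
        rw [hF, mem_filter] at this
        exact this.2
      rw [sum_const, hc', nsmul_eq_mul, mul_one] at h2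
      linarith
  · obtain ⟨F', hF', _, hc'⟩ := Finset.exists_subsuperset_card_eq (subset_univ F) hc.le
      (by rw [card_univ, Fintype.card_fin]; omega)
    refine ⟨F'ᶜ, ?_, ?_⟩
    · rw [card_compl, Fintype.card_fin, hc']
    · refine sum_nonpos fun i hi => ?_
      rw [mem_compl] at hi
      have h1 : i ∉ F := fun h => hi (hF' h)
      rw [hF, mem_filter] at h1
      push Not at h1
      have := h1 (mem_univ _)
      omega

theorem setBC (R r s : ℕ) (hr : r ≤ R) (hs : s = R - r ∨ s = R + 1 - r) (h : Fin (R + 1) → ℤ)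
    (hh : ∑ i, h i = (R : ℤ) - r) :
    ∃ W : Finset (Fin (R + 1)), W.card = s ∧ (R : ℤ) - r ≤ ∑ i ∈ W, h i := by
  classical
  obtain ⟨F, hF⟩ : ∃ F : Finset (Fin (R + 1)), F = univ.filter (fun i => 1 ≤ h i) := ⟨_, rfl⟩
  have hs1 : (R : ℤ) - r ≤ s := by omega
  rcases le_or_gt s F.card with hc | hc
  · obtain ⟨F', hF', hc'⟩ := Finset.exists_subset_card_eq hc
    refine ⟨F', hc', ?_⟩
    have h2 : ∑ i ∈ F', (1 : ℤ) ≤ ∑ i ∈ F', h i := by
      refine sum_le_sum fun i hi => ?_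
      have := hF' hi
      rw [hF, mem_filter] at this
      exact this.2
    rw [sum_const, hc', nsmul_eq_mul, mul_one] at h2
    linarith
  · obtain ⟨F', hF', _, hc'⟩ := Finset.exists_subsuperset_card_eq (subset_univ F) hc.le
      (by rw [card_univ, Fintype.card_fin]; omega)
    refine ⟨F', hc', ?_⟩
    have h1 := Finset.sum_add_sum_compl F' h
    have h2 : ∑ i ∈ F'ᶜ, h i ≤ 0 := by
      refine sum_nonpos fun i hi => ?_
      rw [mem_compl] at hi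
      have h1 : i ∉ F := fun h => hi (hF' h)
      rw [hF, mem_filter] at h1
      push Not at h1
      have := h1 (mem_univ _)
      omega
    linarith

/-- vectors with a small coordinate -/
structure VecE (R : ℕ) (m ε : ℝ) (u : Fin (R + 1) → ℝ) : Prop where
  nn : ∀ i, 0 ≤ u i
  le : ∀ i, u i ≤ (1 + ε) * m
  zero : ∃ i, u i ≤ ε * m

private theorem n_sum {ι : Type} [DecidableEq ι] {k : ℕ} (B' : Finset ι) (i0 : ι → Fin k)
    (W : Finset (Fin k)) : ∑ i ∈ W, ((B'.filter fun b => i ≠ i0 b).card : ℤ) =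
      ∑ b ∈ B', ((W.filter fun i => i ≠ i0 b).card : ℤ) := by
  simp only [Finset.card_filter, Nat.cast_sum]
  rw [sum_comm]

private theorem n_univ {ι : Type} [DecidableEq ι] {R : ℕ} (B' : Finset ι) (i0 : ι → Fin (R + 1)) :
    ∑ i, ((B'.filter fun b => i ≠ i0 b).card : ℤ) = R * (B'.card : ℤ) := by
  rw [n_sum]
  have h1 : ∀ b ∈ B', (((univ : Finset (Fin (R + 1))).filter fun i => i ≠ i0 b).card : ℤ) = R := by
    intro b _
    rw [Finset.filter_ne', card_erase_of_mem (mem_univ _), card_univ, Fintype.card_fin]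
    simp
  rw [sum_congr rfl h1, sum_const, nsmul_eq_mul, mul_comm]

private theorem comb_split {ι : Type} [DecidableEq ι] {R : ℕ} (m : ℝ) (B B' : Finset ι)
    (hB : B' ⊆ B) (u : ι → Fin (R + 1) → ℝ) (i0 : ι → Fin (R + 1)) (f : Fin (R + 1) → ℤ)
    (W : Finset (Fin (R + 1))) :
    ∑ i ∈ W, (∑ b ∈ B, u b i - m * (f i : ℝ)) = ∑ b ∈ B \ B', ∑ i ∈ W, u b i -
      ∑ b ∈ B', (m * ((W.filter fun i => i ≠ i0 b).card : ℝ) - ∑ i ∈ W, u b i) +
      m * ((∑ i ∈ W, (((B'.filter fun b => i ≠ i0 b).card : ℤ) - f i) : ℤ) : ℝ) := by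
  rw [sum_sub_distrib, sum_comm, ← sum_sdiff hB (f := fun b => ∑ i ∈ W, u b i)]
  rw [sum_sub_distrib, sum_sub_distrib, n_sum]
  push_cast
  rw [← mul_sum, ← mul_sum]
  ring

private theorem perA {R r : ℕ} (hr : r < R) {m ε : ℝ} (hm : 0 ≤ m) (hε : 0 ≤ ε)
    (u : Fin (R + 1) → ℝ) (hu : VecE R m ε u) (i0 : Fin (R + 1)) (hi0 : u i0 ≤ ε * m)
    (W : Finset (Fin (R + 1))) (hW : W.card = R + 1 - r) :
    m * ((W.filter fun i => i ≠ i0).card : ℝ) - ∑ i ∈ W, u i ≤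
      ((R : ℝ) + 1 - r) / (R - r) * (((R : ℝ) - r) * m - tau R r u) + 3 * ε * m := by
  have hq : (1 : ℝ) ≤ (R : ℝ) - r := by
    have : (r : ℝ) + 1 ≤ R := by exact_mod_cast hr
    linarith
  have hq0 : (0 : ℝ) < (R : ℝ) - r := by linarith
  have hWr : (W.card : ℝ) = (R : ℝ) + 1 - r := by
    rw [hW, Nat.cast_sub (by omega)]
    push_cast
    ring
  have hem : 0 ≤ ε * m := mul_nonneg hε hm
  have e1 : ((R : ℝ) + 1 - r) / (R - r) = 1 + 1 / ((R : ℝ) - r) := by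
    field_simp
    ring
  by_cases hi : i0 ∈ W
  · have h1 : ((W.filter fun i => i ≠ i0).card : ℝ) = (R : ℝ) - r := by
      rw [Finset.filter_ne', card_erase_of_mem hi, Nat.cast_sub (card_pos.2 ⟨_, hi⟩), hWr]
      push_cast
      ring
    have h2 := tau_le (R := R) (r := r) u W hW
    have h3 : ∑ i ∈ W, u i ≤ ((R : ℝ) - r) * ((1 + ε) * m) + ε * m := by
      rw [← add_sum_erase W u hi]
      have h4 : ∑ i ∈ W.erase i0, u i ≤ ∑ i ∈ W.erase i0, ((1 + ε) * m) :=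
        sum_le_sum fun i _ => hu.le i
      rw [sum_const, nsmul_eq_mul, ← Finset.filter_ne', h1] at h4
      rw [← Finset.filter_ne'] 
      linarith
    rw [h1, e1]
    have h5 : -(2 * (ε * m)) ≤ 1 / ((R : ℝ) - r) * (((R : ℝ) - r) * m - tau R r u) := by
      rw [div_mul_eq_mul_div, one_mul, le_div_iff₀ hq0]
      nlinarith
    nlinarith
  · have h1 : ((W.filter fun i => i ≠ i0).card : ℝ) = (R : ℝ) + 1 - r := by
      rw [Finset.filter_ne', erase_eq_of_notMem hi, hWr]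
    have h2 : ∀ j ∈ W, tau R r u ≤ ∑ i ∈ W, u i - u j + ε * m := by
      intro j hj
      have hj' : i0 ∉ W.erase j := fun h => hi (mem_of_mem_erase h)
      have h3 := tau_le (R := R) (r := r) u (insert i0 (W.erase j)) (by
        rw [card_insert_of_notMem hj', card_erase_of_mem hj, ← hW]
        have := card_pos.2 ⟨j, hj⟩
        omega)
      rw [sum_insert hj'] at h3
      have h4 := add_sum_erase W u hj
      linarith
    have h3 := sum_le_sum h2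
    rw [sum_const, nsmul_eq_mul, hWr, sum_add_distrib, sum_sub_distrib, sum_const, sum_const,
      nsmul_eq_mul, nsmul_eq_mul, hWr] at h3
    rw [h1]
    have h5 : tau R r u * ((R : ℝ) + 1 - r) / (R - r) ≤
        ∑ i ∈ W, u i + ((R : ℝ) + 1 - r) / (R - r) * (ε * m) := by
      rw [div_le_iff₀ hq0]
      have e2 : (∑ i ∈ W, u i + ((R : ℝ) + 1 - r) / (R - r) * (ε * m)) * ((R : ℝ) - r) =
          (∑ i ∈ W, u i) * ((R : ℝ) - r) + ((R : ℝ) + 1 - r) * (ε * m) := by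
        field_simp
      rw [e2]
      linarith
    have h6 : ((R : ℝ) + 1 - r) / (R - r) * (ε * m) ≤ 2 * (ε * m) := by
      refine mul_le_mul_of_nonneg_right ?_ hem
      rw [div_le_iff₀ hq0]
      linarith
    have e3 : ((R : ℝ) + 1 - r) / (R - r) * (((R : ℝ) - r) * m - tau R r u) =
        ((R : ℝ) + 1 - r) * m - tau R r u * ((R : ℝ) + 1 - r) / (R - r) := by
      field_simp
    rw [e3]
    linarith

private theorem perB {R r : ℕ} (hr : r < R) {m ε : ℝ} (hm : 0 ≤ m) (hε : 0 ≤ ε)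
    (u : Fin (R + 1) → ℝ) (hu : VecE R m ε u) (i0 : Fin (R + 1)) (hi0 : u i0 ≤ ε * m)
    (W : Finset (Fin (R + 1))) (hW : W.card = R - r) :
    m * ((W.filter fun i => i ≠ i0).card : ℝ) - ∑ i ∈ W, u i ≤
      (((R : ℝ) - r) * m - tau R r u) + 3 * ε * m := by
  have hWr : (W.card : ℝ) = (R : ℝ) - r := by
    rw [hW, Nat.cast_sub (by omega)]
  have hem : 0 ≤ ε * m := mul_nonneg hε hm
  by_cases hi : i0 ∈ W
  · have h1 : ((W.filter fun i => i ≠ i0).card : ℝ) = (R : ℝ) - r - 1 := by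
      rw [Finset.filter_ne', card_erase_of_mem hi, Nat.cast_sub (card_pos.2 ⟨_, hi⟩), hWr]
      push_cast
      ring
    obtain ⟨j, hj⟩ : ∃ j, j ∉ W := by
      by_contra hcon
      push Not at hcon
      have : W = univ := eq_univ_of_forall hcon
      rw [this, card_univ, Fintype.card_fin] at hW
      omega
    have h3 := tau_le (R := R) (r := r) u (insert j W) (by
      rw [card_insert_of_notMem hj, hW]
      omega)
    rw [sum_insert hj] at h3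
    have h4 := hu.le j
    rw [h1]
    linarith
  · have h1 : ((W.filter fun i => i ≠ i0).card : ℝ) = (R : ℝ) - r := by
      rw [Finset.filter_ne', erase_eq_of_notMem hi, hWr]
    have h3 := tau_le (R := R) (r := r) u (insert i0 W) (by
      rw [card_insert_of_notMem hi, hW]
      omega)
    rw [sum_insert hi] at h3
    rw [h1]
    linarith

private theorem ex_i0 {R : ℕ} {m ε : ℝ} {ι : Type} (B : Finset ι) (u : ι → Fin (R + 1) → ℝ)
    (hu : ∀ b ∈ B, VecE R m ε (u b)) :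
    ∃ i0 : ι → Fin (R + 1), ∀ b ∈ B, u b (i0 b) ≤ ε * m := by
  have h : ∀ b, ∃ i : Fin (R + 1), b ∈ B → u b i ≤ ε * m := by
    intro b
    by_cases hb : b ∈ B
    · obtain ⟨i, hi⟩ := (hu b hb).zero
      exact ⟨i, fun _ => hi⟩
    · exact ⟨0, fun h => absurd h hb⟩
  choose i0 hi0 using h
  exact ⟨i0, hi0⟩

theorem combA (R r p : ℕ) (hr : r < R) (m ε : ℝ) (hm : 0 ≤ m) (hε : 0 ≤ ε) {ι : Type}
    [DecidableEq ι] (B B' : Finset ι) (hB : B' ⊆ B) (hp : B'.card = p)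
    (u : ι → Fin (R + 1) → ℝ) (hu : ∀ b ∈ B, VecE R m ε (u b)) (f : Fin (R + 1) → ℤ)
    (hf : ∑ i, f i = r + R * p) : ∃ W : Finset (Fin (R + 1)),
      ∑ b ∈ B \ B', tau R r (u b) -
        ((R : ℝ) + 1 - r) / (R - r) * ∑ b ∈ B', (((R : ℝ) - r) * m - tau R r (u b)) -
        3 * ε * m * p ≤ ∑ i ∈ W, (∑ b ∈ B, u b i - m * (f i : ℝ)) := by
  obtain ⟨i0, hi0⟩ := ex_i0 B u hu
  have hn := n_univ B' i0
  rw [hp] at hn
  obtain ⟨W, hW, hWs⟩ := setA R r hr.le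
    (fun i => f i - ((B'.filter fun b => i ≠ i0 b).card : ℤ)) (by
      rw [sum_sub_distrib, hn, hf]
      ring)
  refine ⟨W, ?_⟩
  rw [comb_split m B B' hB u i0 f W]
  have h1 : ∑ b ∈ B \ B', tau R r (u b) ≤ ∑ b ∈ B \ B', ∑ i ∈ W, u b i :=
    sum_le_sum fun b _ => tau_le (u b) W hW
  have h2 : ∑ b ∈ B', (m * ((W.filter fun i => i ≠ i0 b).card : ℝ) - ∑ i ∈ W, u b i) ≤
      ∑ b ∈ B', (((R : ℝ) + 1 - r) / (R - r) * (((R : ℝ) - r) * m - tau R r (u b)) +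
        3 * ε * m) :=
    sum_le_sum fun b hb => perA hr hm hε (u b) (hu b (hB hb)) (i0 b) (hi0 b (hB hb)) W hW
  rw [sum_add_distrib, sum_const, hp, nsmul_eq_mul, ← mul_sum] at h2
  have h3 : 0 ≤ m * ((∑ i ∈ W, (((B'.filter fun b => i ≠ i0 b).card : ℤ) - f i) : ℤ) : ℝ) := by
    refine mul_nonneg hm ?_
    have h4 : (0 : ℤ) ≤ ∑ i ∈ W, (((B'.filter fun b => i ≠ i0 b).card : ℤ) - f i) := by
      rw [sum_sub_distrib] at hWs ⊢
      linarith
    exact_mod_cast h4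
  linarith

theorem combB (R r p : ℕ) (hr : r < R) (m ε : ℝ) (hm : 0 ≤ m) (hε : 0 ≤ ε) {ι : Type}
    [DecidableEq ι] (B B' : Finset ι) (hB : B' ⊆ B) (hp : B'.card = p + 1)
    (u : ι → Fin (R + 1) → ℝ) (hu : ∀ b ∈ B, VecE R m ε (u b)) (f : Fin (R + 1) → ℤ)
    (hf : ∑ i, f i = r + R * p) : ∃ W : Finset (Fin (R + 1)),
      ((R : ℝ) - r) * m - ∑ b ∈ B', (((R : ℝ) - r) * m - tau R r (u b)) -
        3 * ε * m * (p + 1) ≤ ∑ i ∈ W, (∑ b ∈ B, u b i - m * (f i : ℝ)) := by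
  obtain ⟨i0, hi0⟩ := ex_i0 B u hu
  have hn := n_univ B' i0
  rw [hp] at hn
  obtain ⟨W, hW, hWs⟩ := setBC R r (R - r) hr.le (Or.inl rfl)
    (fun i => ((B'.filter fun b => i ≠ i0 b).card : ℤ) - f i) (by
      rw [sum_sub_distrib, hn, hf]
      push_cast
      ring)
  refine ⟨W, ?_⟩
  rw [comb_split m B B' hB u i0 f W]
  have h1 : 0 ≤ ∑ b ∈ B \ B', ∑ i ∈ W, u b i :=
    sum_nonneg fun b hb => sum_nonneg fun i _ => (hu b (mem_sdiff.1 hb).1).nn i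
  have h2 : ∑ b ∈ B', (m * ((W.filter fun i => i ≠ i0 b).card : ℝ) - ∑ i ∈ W, u b i) ≤
      ∑ b ∈ B', ((((R : ℝ) - r) * m - tau R r (u b)) + 3 * ε * m) :=
    sum_le_sum fun b hb => perB hr hm hε (u b) (hu b (hB hb)) (i0 b) (hi0 b (hB hb)) W hW
  rw [sum_add_distrib, sum_const, hp, nsmul_eq_mul] at h2
  push_cast at h2
  have h3 : ((R : ℝ) - r) * m ≤
      m * ((∑ i ∈ W, (((B'.filter fun b => i ≠ i0 b).card : ℤ) - f i) : ℤ) : ℝ) := by
    have h4 : ((R : ℝ) - r) ≤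
        ((∑ i ∈ W, (((B'.filter fun b => i ≠ i0 b).card : ℤ) - f i) : ℤ) : ℝ) := by
      exact_mod_cast hWs
    nlinarith
  linarith

theorem combC (R r p : ℕ) (hr : r < R) (m ε : ℝ) (hm : 0 ≤ m) (hε : 0 ≤ ε) {ι : Type}
    [DecidableEq ι] (B B' : Finset ι) (hB : B' ⊆ B) (hp : B'.card = p + 1)
    (u : ι → Fin (R + 1) → ℝ) (hu : ∀ b ∈ B, VecE R m ε (u b)) (f : Fin (R + 1) → ℤ)
    (hf : ∑ i, f i = r + R * p) : ∃ W : Finset (Fin (R + 1)),
      ((R : ℝ) - r) * m + ∑ b ∈ B \ B', tau R r (u b) -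
        ((R : ℝ) + 1 - r) / (R - r) * ∑ b ∈ B', (((R : ℝ) - r) * m - tau R r (u b)) -
        3 * ε * m * (p + 1) ≤ ∑ i ∈ W, (∑ b ∈ B, u b i - m * (f i : ℝ)) := by
  obtain ⟨i0, hi0⟩ := ex_i0 B u hu
  have hn := n_univ B' i0
  rw [hp] at hn
  obtain ⟨W, hW, hWs⟩ := setBC R r (R + 1 - r) hr.le (Or.inr rfl)
    (fun i => ((B'.filter fun b => i ≠ i0 b).card : ℤ) - f i) (by
      rw [sum_sub_distrib, hn, hf]
      push_cast
      ring)
  refine ⟨W, ?_⟩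
  rw [comb_split m B B' hB u i0 f W]
  have h1 : ∑ b ∈ B \ B', tau R r (u b) ≤ ∑ b ∈ B \ B', ∑ i ∈ W, u b i :=
    sum_le_sum fun b _ => tau_le (u b) W hW
  have h2 : ∑ b ∈ B', (m * ((W.filter fun i => i ≠ i0 b).card : ℝ) - ∑ i ∈ W, u b i) ≤
      ∑ b ∈ B', (((R : ℝ) + 1 - r) / (R - r) * (((R : ℝ) - r) * m - tau R r (u b)) +
        3 * ε * m) :=
    sum_le_sum fun b hb => perA hr hm hε (u b) (hu b (hB hb)) (i0 b) (hi0 b (hB hb)) W hW
  rw [sum_add_distrib, sum_const, hp, nsmul_eq_mul, ← mul_sum] at h2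
  push_cast at h2
  have h3 : ((R : ℝ) - r) * m ≤
      m * ((∑ i ∈ W, (((B'.filter fun b => i ≠ i0 b).card : ℤ) - f i) : ℤ) : ℝ) := by
    have h4 : ((R : ℝ) - r) ≤
        ((∑ i ∈ W, (((B'.filter fun b => i ≠ i0 b).card : ℤ) - f i) : ℤ) : ℝ) := by
      exact_mod_cast hWs
    nlinarith
  linarith

end Pool.Agent.H45.KTD
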