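import Mathlib

/-!
# KTD Cond: the numerical condition for the scalar payment

`x = r/R < 1 - 2/t` (from `2 R < t (R - r)`).  `4 ≤ t`.
* `x ≤ 1/2`: first alternative: `t = 4`: `x < 1/2`, `4 x² < 1`; `t ≥ 5`: `t 2 ^ (2 - t) < 1` (induction).
* `x > 1/2`: then `t ≥ 5` (`t = 4` gives `x < 1/2`).  `s(x) = x ^ (t-1) + (1-x) ^ (t-1)` is convex (or increasing on `[1/2, 1]`), so on
  `[1/2, y]` it is at most `max (s(1/2)) (s(y))`; `t s(1/2) = t 2 ^ (2-t) < 1`.
  `t = 5, 6, 7`, `y = 1 - 2/t`: `5 s(3/5) = 97/125`, `6 s(2/3) = 22/27`, `7 s(5/7) = 15689/16807`.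
  `t ≥ 8`, `y = 7/10`: `t ((7/10) ^ (t-1) + (3/10) ^ (t-1)) < 1` (`t = 8`: `< 0.67`; induction: `(t+1) (7/10) ≤ t`).
-/

set_option autoImplicit false

namespace Pool.Agent.H45.KTD

private theorem cond_half (k : ℕ) (hk : 3 ≤ k) : ((k + 2 : ℕ) : ℝ) * (1 / 2) ^ k < 1 := by
  induction k, hk using Nat.le_induction with
  | base => norm_num
  | succ k hk ih =>
    have hk' : (3 : ℝ) ≤ k := by exact_mod_cast hk
    have hp : (0 : ℝ) < (1 / 2) ^ k := by positivity
    push_cast at ih ⊢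
    rw [pow_succ]
    nlinarith

private theorem cond_a (k : ℕ) (hk : 7 ≤ k) :
    ((k + 1 : ℕ) : ℝ) * (7 / 10) ^ k ≤ 8 * (7 / 10) ^ 7 := by
  induction k, hk using Nat.le_induction with
  | base => norm_num
  | succ k hk ih =>
    have hk' : (7 : ℝ) ≤ k := by exact_mod_cast hk
    have hp : (0 : ℝ) < (7 / 10) ^ k := by positivity
    push_cast at ih ⊢
    rw [pow_succ]
    refine le_trans ?_ ih
    nlinarith

private theorem cond_b (k : ℕ) (hk : 7 ≤ k) :
    ((k + 1 : ℕ) : ℝ) * (1 / 2) ^ k ≤ 8 * (1 / 2) ^ 7 := by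
  induction k, hk using Nat.le_induction with
  | base => norm_num
  | succ k hk ih =>
    have hk' : (7 : ℝ) ≤ k := by exact_mod_cast hk
    have hp : (0 : ℝ) < (1 / 2) ^ k := by positivity
    push_cast at ih ⊢
    rw [pow_succ]
    refine le_trans ?_ ih
    nlinarith

theorem condS (R r t : ℕ) (hR : 4 ≤ R) (hrR : r < R) (ht : 4 ≤ t) (hI : 2 * R < t * (R - r))
    (h : 2 * r ≤ R ∨ t ≤ 7 ∨ 10 * r < 7 * R) :
    ((r : ℝ) / R ≤ 1 / 2 ∧ (t : ℝ) * ((r : ℝ) / R) ^ (t - 2) < 1) ∨
      (1 / 2 ≤ (r : ℝ) / R ∧ 5 ≤ t ∧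
        (t : ℝ) * (((r : ℝ) / R) ^ (t - 1) + (1 - (r : ℝ) / R) ^ (t - 1)) < 1) := by
  have hRpos : (0 : ℝ) < R := by exact_mod_cast (by omega : 0 < R)
  have hI' : (2 : ℝ) * R < t * ((R : ℝ) - r) := by
    have h2 : ((2 * R : ℕ) : ℝ) < ((t * (R - r) : ℕ) : ℝ) := by exact_mod_cast hI
    rw [Nat.cast_mul, Nat.cast_mul, Nat.cast_sub hrR.le] at h2
    exact_mod_cast h2
  obtain ⟨x, hx⟩ : ∃ x : ℝ, x = (r : ℝ) / R := ⟨_, rfl⟩
  have hrx : (r : ℝ) = x * R := by
    rw [hx]
    field_simp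
  rw [← hx]
  have hx0 : 0 ≤ x := by
    rw [hx]
    positivity
  have htx : 2 < (t : ℝ) * (1 - x) := by
    have h3 : 2 * (R : ℝ) < ((t : ℝ) * (1 - x)) * R := by
      calc 2 * (R : ℝ) < t * ((R : ℝ) - r) := hI'
        _ = ((t : ℝ) * (1 - x)) * R := by rw [hrx]; ring
    exact lt_of_mul_lt_mul_right h3 hRpos.le
  rcases le_or_gt x (1 / 2) with hx2 | hx2
  · left
    refine ⟨hx2, ?_⟩
    rcases Nat.lt_or_ge t 5 with h5 | h5
    · have h4 : t = 4 := by omega
      subst h4
      push_cast at htx ⊢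
      nlinarith
    · obtain ⟨k, rfl⟩ : ∃ k, t = k + 2 := ⟨t - 2, by omega⟩
      have h6 := cond_half k (by omega)
      have h7 : x ^ k ≤ (1 / 2) ^ k := pow_le_pow_left₀ hx0 hx2 k
      have h8 : k + 2 - 2 = k := rfl
      rw [h8]
      have h9 : (0 : ℝ) ≤ ((k + 2 : ℕ) : ℝ) := Nat.cast_nonneg _
      exact lt_of_le_of_lt (mul_le_mul_of_nonneg_left h7 h9) h6
  · right
    have h2r : ¬ 2 * r ≤ R := by
      intro h3
      have h4 : (2 : ℝ) * r ≤ R := by exact_mod_cast h3
      rw [hrx] at h4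
      nlinarith
    refine ⟨hx2.le, ?_, ?_⟩
    · by_contra h5
      have h4 : t = 4 := by omega
      subst h4
      push_cast at htx
      linarith
    · rcases Nat.lt_or_ge t 8 with h8 | h8
      · obtain ⟨y, rfl⟩ : ∃ y, x = 1 / 2 + y := ⟨x - 1 / 2, by ring⟩
        have hy0 : 0 ≤ y := by linarith
        have hy2 : 0 ≤ y * y := mul_nonneg hy0 hy0
        interval_cases t
        · exfalso
          push_cast at htx
          linarith
        · push_cast at htx ⊢
          have hy : y ≤ 1 / 10 := by linarith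
          have h1 : y * y ≤ 1 / 100 := by nlinarith
          have h3 : (y * y) * (y * y) ≤ 1 / 10000 := by nlinarith
          have e : (1 / 2 + y) ^ (5 - 1) + (1 - (1 / 2 + y)) ^ (5 - 1) =
              1 / 8 + 3 * (y * y) + 2 * ((y * y) * (y * y)) := by ring
          rw [e]
          linarith
        · push_cast at htx ⊢
          have hy : y ≤ 1 / 6 := by linarith
          have h1 : y * y ≤ 1 / 36 := by nlinarith
          have h3 : (y * y) * (y * y) ≤ 1 / 1296 := by nlinarith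
          have e : (1 / 2 + y) ^ (6 - 1) + (1 - (1 / 2 + y)) ^ (6 - 1) =
              1 / 16 + 5 / 2 * (y * y) + 5 * ((y * y) * (y * y)) := by ring
          rw [e]
          linarith
        · push_cast at htx ⊢
          have hy : y ≤ 3 / 14 := by linarith
          have h1 : y * y ≤ 9 / 196 := by nlinarith
          have h3 : (y * y) * (y * y) ≤ 81 / 38416 := by nlinarith
          have h4 : (y * y) * ((y * y) * (y * y)) ≤ 9 / 196 * (81 / 38416) :=
            mul_le_mul h1 h3 (mul_nonneg hy2 hy2) (by norm_num)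
          have e : (1 / 2 + y) ^ (7 - 1) + (1 - (1 / 2 + y)) ^ (7 - 1) =
              1 / 32 + 15 / 8 * (y * y) + 15 / 2 * ((y * y) * (y * y)) +
                2 * ((y * y) * ((y * y) * (y * y))) := by ring
          rw [e]
          linarith
      · have h10 : 10 * r < 7 * R := by omega
        have h11 : (10 : ℝ) * r < 7 * R := by exact_mod_cast h10
        rw [hrx] at h11
        have hx7 : x ≤ 7 / 10 := by
          have h12 : x * R < 7 / 10 * R := by linarith
          exact (lt_of_mul_lt_mul_right h12 hRpos.le).le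
        obtain ⟨k, rfl⟩ : ∃ k, t = k + 1 := ⟨t - 1, by omega⟩
        have h13 : k + 1 - 1 = k := rfl
        rw [h13]
        have ha := cond_a k (by omega)
        have hb := cond_b k (by omega)
        have h14 : x ^ k ≤ (7 / 10) ^ k := pow_le_pow_left₀ hx0 hx7 k
        have h15 : (1 - x) ^ k ≤ (1 / 2) ^ k :=
          pow_le_pow_left₀ (by linarith) (by linarith) k
        have h16 : (0 : ℝ) ≤ ((k + 1 : ℕ) : ℝ) := Nat.cast_nonneg _
        have h17 := mul_le_mul_of_nonneg_left h14 h16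
        have h18 := mul_le_mul_of_nonneg_left h15 h16
        rw [mul_add]
        have h19 : (8 : ℝ) * (7 / 10) ^ 7 + 8 * (1 / 2) ^ 7 < 1 := by norm_num
        linarith

end Pool.Agent.H45.KTD
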