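import Pool.Agent.H45.KTD.Macl
import Pool.Agent.H45.KTD.CombF

/-!
# KTD EsAB: bound for `es s v` in terms of the averages of the `r` largest and of the other coordinates

`W` from `tau_ex` (`q + 1` elements, `q = R - r`), `a = (∑_{Wᶜ} v) / r` (`Wᶜ` has `r` elements), `b = tau / q = (∑_W v)/q`.  Let `v i0 ≤ ε`.
If `i0 ∈ W` put `i1 = i0`; otherwise all `v i`, `i ∈ W`, are `≤ v i0 ≤ ε` and `i1` is any element of `W`.  So `i1 ∈ W`, `v i1 ≤ ε`.
`b ≤ a + ε`: the `q` elements of `W \ {i1}` are at most every element outside `W`, so at most `a`.  `a ≤ 1 + ε` clear.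
`fe_split`: `es s v = ∑_l fe (s - l) Wᶜ v * fe l W v`; `macl`: `fe (s - l) Wᶜ ≤ C(r, s - l) a ^ (s - l)`;
`fe_insert` (`i1`), `macl` and `∑_{W \ i1} v ≤ q b`: `fe l W ≤ C(q, l) b ^ l + ε C(q, l - 1) b ^ (l - 1)` (`l ≥ 1`).
Error: `ε ∑_{l ≥ 1} C(r, s - l) C(q, l - 1) a ^ (s - l) b ^ (l - 1)`, monomials of degree `s - 1 ≥ 1`, with `a ≤ 2`, `b ≤ 3`, `a ≤ ∑ v`,
`b ≤ ∑ v`.
-/

set_option autoImplicit false

open Finset

namespace Pool.Agent.H45.KTD

open Pool.Agent.H11.TD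

private theorem mono_bd (a b T : ℝ) (ha : 0 ≤ a) (hb : 0 ≤ b) (ha3 : a ≤ 3) (hb3 : b ≤ 3)
    (haT : a ≤ T) (hbT : b ≤ T) (i j : ℕ) (hij : 1 ≤ i + j) : a ^ i * b ^ j ≤ 3 ^ (i + j) * T := by
  have hT : 0 ≤ T := ha.trans haT
  rcases Nat.eq_zero_or_pos i with hi | hi
  · subst hi
    obtain ⟨j', rfl⟩ : ∃ j', j = j' + 1 := ⟨j - 1, by omega⟩
    have h1 : b ^ j' ≤ 3 ^ j' := pow_le_pow_left₀ hb hb3 _
    calc a ^ 0 * b ^ (j' + 1) = b ^ j' * b := by ring
      _ ≤ 3 ^ j' * T := mul_le_mul h1 hbT hb (by positivity)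
      _ ≤ 3 ^ (0 + (j' + 1)) * T := by
        refine mul_le_mul_of_nonneg_right ?_ hT
        exact pow_le_pow_right₀ (by norm_num) (by omega)
  · obtain ⟨i', rfl⟩ : ∃ i', i = i' + 1 := ⟨i - 1, by omega⟩
    have h1 : a ^ i' ≤ 3 ^ i' := pow_le_pow_left₀ ha ha3 _
    have h2 : b ^ j ≤ 3 ^ j := pow_le_pow_left₀ hb hb3 _
    calc a ^ (i' + 1) * b ^ j = (a ^ i' * b ^ j) * a := by ring
      _ ≤ (3 ^ i' * 3 ^ j) * T :=
        mul_le_mul (mul_le_mul h1 h2 (by positivity) (by positivity)) haT ha (by positivity)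
      _ = 3 ^ (i' + j) * T := by rw [pow_add]
      _ ≤ 3 ^ (i' + 1 + j) * T := by
        refine mul_le_mul_of_nonneg_right ?_ hT
        exact pow_le_pow_right₀ (by norm_num) (by omega)

theorem es_ab (R r s : ℕ) (hr : 1 ≤ r) (hrR : r < R) (hs : 2 ≤ s) : ∃ C : ℝ, 0 < C ∧
    ∀ (ε : ℝ) (v : Fin (R + 1) → ℝ), 0 ≤ ε → ε ≤ 1 → VecE R 1 ε v →
      ∃ a b : ℝ, 0 ≤ b ∧ b ≤ a + ε ∧ a ≤ 1 + ε ∧ b = tau R r v / ((R : ℝ) - r) ∧
        r * a + ((R : ℝ) - r) * b = ∑ i, v i ∧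
        es s v ≤ ∑ l ∈ range (s + 1), (r.choose (s - l) : ℝ) * ((R - r).choose l : ℝ) *
          a ^ (s - l) * b ^ l + C * ε * ∑ i, v i := by
  refine ⟨(s + 1) * (2 ^ r * 2 ^ R * 3 ^ s), by positivity, ?_⟩
  intro ε v hε hε1 hv
  obtain ⟨W, hWc, hWt, hWm⟩ := tau_ex R r v
  have hWcc : Wᶜ.card = r := by
    rw [card_compl, Fintype.card_fin, hWc]
    omega
  have hr0 : (1 : ℝ) ≤ r := by exact_mod_cast hr
  have hrR' : (r : ℝ) + 1 ≤ R := by exact_mod_cast hrR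
  set q : ℝ := (R : ℝ) - r with hq
  have hq1 : 1 ≤ q := by rw [hq]; linarith
  have hqnat : ((R - r : ℕ) : ℝ) = q := by rw [Nat.cast_sub hrR.le]
  -- an element of `W` with small value
  obtain ⟨i1, hi1W, hi1⟩ : ∃ i1 ∈ W, v i1 ≤ ε := by
    obtain ⟨i0, hi0⟩ := hv.zero
    rw [mul_one] at hi0
    by_cases h : i0 ∈ W
    · exact ⟨i0, h, hi0⟩
    · obtain ⟨i, hi⟩ : W.Nonempty := card_pos.1 (by omega)
      exact ⟨i, hi, (hWm i hi i0 h).trans hi0⟩
  set a : ℝ := (∑ i ∈ Wᶜ, v i) / r with ha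
  set b : ℝ := tau R r v / q with hb
  have ha0 : 0 ≤ a := div_nonneg (sum_nonneg (fun i _ => hv.nn i)) (by linarith)
  have hb0 : 0 ≤ b := div_nonneg (tau_nn v hv.nn) (by linarith)
  have hra : r * a = ∑ i ∈ Wᶜ, v i := by
    rw [ha]
    field_simp
  have hqb : q * b = ∑ i ∈ W, v i := by
    rw [hb, ← hWt]
    field_simp
  have hsum : r * a + q * b = ∑ i, v i := by
    rw [hra, hqb, add_comm]
    exact sum_add_sum_compl W v
  have ha1 : a ≤ 1 + ε := by
    have h1 : ∑ i ∈ Wᶜ, v i ≤ r * (1 + ε) := by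
      refine (sum_le_sum (fun i _ => hv.le i)).trans (le_of_eq ?_)
      rw [sum_const, hWcc, nsmul_eq_mul, mul_one]
    rw [← hra] at h1
    exact le_of_mul_le_mul_left h1 (by linarith)
  have hsa : ∀ i ∈ W, v i ≤ a := by
    intro i hi
    have h1 : ∑ _j ∈ Wᶜ, v i ≤ ∑ j ∈ Wᶜ, v j :=
      sum_le_sum (fun j hj => hWm i hi j (mem_compl.1 hj))
    rw [sum_const, hWcc, nsmul_eq_mul, ← hra] at h1
    exact le_of_mul_le_mul_left h1 (by linarith)
  have hWe : (W.erase i1).card = R - r := by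
    rw [card_erase_of_mem hi1W, hWc]
    omega
  have hWsum : ∑ i ∈ W, v i = v i1 + ∑ i ∈ W.erase i1, v i := (add_sum_erase W v hi1W).symm
  have hba : b ≤ a + ε := by
    have h1 : ∑ i ∈ W.erase i1, v i ≤ q * a := by
      refine (sum_le_sum (fun i hi => hsa i (mem_of_mem_erase hi))).trans (le_of_eq ?_)
      rw [sum_const, hWe, nsmul_eq_mul, hqnat]
    have h2 : q * b ≤ q * (a + ε) := by
      rw [hqb, hWsum]
      nlinarith
    exact le_of_mul_le_mul_left h2 (by linarith)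
  refine ⟨a, b, hb0, hba, ha1, rfl, hsum, ?_⟩
  set T : ℝ := ∑ i, v i with hT
  have haT : a ≤ T := by
    rw [← hsum]
    nlinarith [mul_nonneg (by linarith : (0 : ℝ) ≤ q) hb0]
  have hbT : b ≤ T := by
    rw [← hsum]
    nlinarith [mul_nonneg (by linarith : (0 : ℝ) ≤ (r : ℝ)) ha0]
  have hT0 : 0 ≤ T := ha0.trans haT
  have hout : ∀ l : ℕ, fe (s - l) Wᶜ v ≤ (r.choose (s - l) : ℝ) * a ^ (s - l) := by
    intro l
    have h1 := macl (s - l) Wᶜ v (fun i _ => hv.nn i)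
    rw [hWcc] at h1
    exact h1
  have hb' : (∑ i ∈ W.erase i1, v i) / ((W.erase i1).card : ℝ) ≤ b := by
    rw [hWe, hqnat, div_le_iff₀ (by linarith)]
    have := hv.nn i1
    nlinarith
  have hb'0 : 0 ≤ (∑ i ∈ W.erase i1, v i) / ((W.erase i1).card : ℝ) :=
    div_nonneg (sum_nonneg (fun i _ => hv.nn i)) (Nat.cast_nonneg _)
  have hin : ∀ l : ℕ, fe l (W.erase i1) v ≤ ((R - r).choose l : ℝ) * b ^ l := by
    intro l
    have h1 := macl l (W.erase i1) v (fun i _ => hv.nn i)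
    refine h1.trans ?_
    rw [hWe] at hb' hb'0 ⊢
    exact mul_le_mul_of_nonneg_left (pow_le_pow_left₀ hb'0 hb' _) (Nat.cast_nonneg _)
  have hch1 : ∀ l : ℕ, (r.choose l : ℝ) ≤ 2 ^ r := by
    intro l
    exact_mod_cast Nat.choose_le_two_pow r l
  have hch2 : ∀ l : ℕ, ((R - r).choose l : ℝ) ≤ 2 ^ R := by
    intro l
    have : (R - r).choose l ≤ 2 ^ R :=
      (Nat.choose_le_two_pow _ _).trans (Nat.pow_le_pow_right (by norm_num) (by omega))
    exact_mod_cast this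
  have hterm : ∀ l ∈ range (s + 1), fe (s - l) Wᶜ v * fe l W v ≤
      (r.choose (s - l) : ℝ) * ((R - r).choose l : ℝ) * a ^ (s - l) * b ^ l +
        2 ^ r * 2 ^ R * 3 ^ s * ε * T := by
    intro l hl
    rw [mem_range] at hl
    have hK : 0 ≤ 2 ^ r * 2 ^ R * 3 ^ s * ε * T := by positivity
    have hnn1 : 0 ≤ fe l W v := fe_nn l W v (fun i _ => hv.nn i)
    have hnn2 : 0 ≤ (r.choose (s - l) : ℝ) * a ^ (s - l) := by positivity
    rcases Nat.eq_zero_or_pos l with h0 | h0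
    · subst h0
      have h1 : fe 0 W v = 1 := by simp [fe]
      rw [h1, mul_one, Nat.choose_zero_right, pow_zero, Nat.cast_one, mul_one, mul_one]
      linarith [hout 0]
    · obtain ⟨l', rfl⟩ : ∃ l', l = l' + 1 := ⟨l - 1, by omega⟩
      have h1 : fe (l' + 1) W v = fe (l' + 1) (W.erase i1) v + v i1 * fe l' (W.erase i1) v := by
        have h2 := fe_insert l' (W.erase i1) i1 (notMem_erase i1 W) v
        rw [insert_erase hi1W] at h2
        exact h2
      have h3 : fe (l' + 1) W v ≤ ((R - r).choose (l' + 1) : ℝ) * b ^ (l' + 1) +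
          ε * (((R - r).choose l' : ℝ) * b ^ l') := by
        rw [h1]
        refine add_le_add (hin (l' + 1)) ?_
        exact mul_le_mul hi1 (hin l') (fe_nn l' _ v (fun i _ => hv.nn i)) hε
      have h4 : a ^ (s - (l' + 1)) * b ^ l' ≤ 3 ^ s * T := by
        have h5 := mono_bd a b T ha0 hb0 (by linarith) (by linarith) haT hbT (s - (l' + 1)) l'
          (by omega)
        refine h5.trans (mul_le_mul_of_nonneg_right ?_ hT0)
        exact pow_le_pow_right₀ (by norm_num) (by omega)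
      have h6 : (r.choose (s - (l' + 1)) : ℝ) * ((R - r).choose l' : ℝ) *
          (a ^ (s - (l' + 1)) * b ^ l') ≤ 2 ^ r * 2 ^ R * (3 ^ s * T) := by
        refine mul_le_mul ?_ h4 (by positivity) (by positivity)
        exact mul_le_mul (hch1 _) (hch2 _) (Nat.cast_nonneg _) (by positivity)
      calc fe (s - (l' + 1)) Wᶜ v * fe (l' + 1) W v
          ≤ ((r.choose (s - (l' + 1)) : ℝ) * a ^ (s - (l' + 1))) *
            (((R - r).choose (l' + 1) : ℝ) * b ^ (l' + 1) +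
              ε * (((R - r).choose l' : ℝ) * b ^ l')) :=
            mul_le_mul (hout (l' + 1)) h3 hnn1 hnn2
        _ = (r.choose (s - (l' + 1)) : ℝ) * ((R - r).choose (l' + 1) : ℝ) *
              a ^ (s - (l' + 1)) * b ^ (l' + 1) +
            ε * ((r.choose (s - (l' + 1)) : ℝ) * ((R - r).choose l' : ℝ) *
              (a ^ (s - (l' + 1)) * b ^ l')) := by ring
        _ ≤ (r.choose (s - (l' + 1)) : ℝ) * ((R - r).choose (l' + 1) : ℝ) *
              a ^ (s - (l' + 1)) * b ^ (l' + 1) + ε * (2 ^ r * 2 ^ R * (3 ^ s * T)) := by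
            have := mul_le_mul_of_nonneg_left h6 hε
            linarith
        _ = _ := by ring
  rw [fe_split s W v]
  refine (sum_le_sum hterm).trans (le_of_eq ?_)
  rw [sum_add_distrib, sum_const, card_range, nsmul_eq_mul]
  push_cast
  ring

end Pool.Agent.H45.KTD
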