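import Pool.Agent.H45.KTD.Defs

/-!
# KTD PSp: the clique density of `L`

`KL = es t a` with `a i ∈ {m, m + 1}`, `∑ a i = (R + 1) m + r`.  `t * es t a = ∑ i, a i * es (t - 1) (a without i)`, and
`es (t - 1)` of the `R` other variables is between `C(R, t-1) m ^ (t-1)` and `C(R, t-1) (m + 1) ^ (t-1)`.  So
`C(R, t-1) m ^ (t-1) / t ≤ PL ≤ C(R, t-1) (m + 1) ^ (t-1) / t ≤ C(R, t-1) m ^ (t-1) / t + C m ^ (t-2)` for `m ≥ 1`.
-/

set_option autoImplicit false

open Finset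

namespace Pool.Agent.H45.KTD

/-- `(s + 1) es (s + 1) a = ∑ i, a i * es s (a without i)`. -/
private theorem PSp_es {k : ℕ} (s : ℕ) (a : Fin k → ℝ) :
    ((s : ℝ) + 1) * es (s + 1) a =
      ∑ i, a i * ∑ T ∈ (univ.erase i).powersetCard s, ∏ j ∈ T, a j := by
  classical
  unfold es
  have h1 : ((s : ℝ) + 1) * ∑ S ∈ (univ : Finset (Fin k)).powersetCard (s + 1), ∏ i ∈ S, a i =
      ∑ S ∈ (univ : Finset (Fin k)).powersetCard (s + 1), ∑ _i ∈ S, ∏ j ∈ S, a j := by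
    rw [mul_sum]
    refine sum_congr rfl fun S hS => ?_
    rw [sum_const, (mem_powersetCard.1 hS).2, nsmul_eq_mul]
    push_cast
    ring
  rw [h1]
  have h2 : ∑ S ∈ (univ : Finset (Fin k)).powersetCard (s + 1), ∑ _i ∈ S, ∏ j ∈ S, a j =
      ∑ i, ∑ S ∈ ((univ : Finset (Fin k)).powersetCard (s + 1)).filter (fun S => i ∈ S),
        ∏ j ∈ S, a j := by
    refine Finset.sum_comm' ?_
    intro S i
    simp only [mem_filter, mem_univ, and_true]
  rw [h2]
  refine sum_congr rfl fun i _ => ?_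
  rw [mul_sum]
  refine Finset.sum_bij' (fun S _ => S.erase i) (fun T _ => insert i T) ?_ ?_ ?_ ?_ ?_
  · intro S hS
    rw [mem_filter, mem_powersetCard] at hS
    rw [mem_powersetCard]
    refine ⟨fun x hx => ?_, ?_⟩
    · rw [mem_erase] at hx ⊢
      exact ⟨hx.1, mem_univ _⟩
    · rw [card_erase_of_mem hS.2, hS.1.2]
      rfl
  · intro T hT
    rw [mem_powersetCard] at hT
    have hi : i ∉ T := fun h => by
      have := hT.1 h
      simp at this
    rw [mem_filter, mem_powersetCard]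
    exact ⟨⟨subset_univ _, by rw [card_insert_of_notMem hi, hT.2]⟩, mem_insert_self _ _⟩
  · intro S hS
    rw [mem_filter] at hS
    exact insert_erase hS.2
  · intro T hT
    rw [mem_powersetCard] at hT
    have hi : i ∉ T := fun h => by
      have := hT.1 h
      simp at this
    exact erase_insert hi
  · intro S hS
    rw [mem_filter] at hS
    exact (mul_prod_erase S a hS.2).symm

private theorem PSp_card {k : ℕ} (i : Fin (k + 1)) (s : ℕ) :
    ((((univ : Finset (Fin (k + 1))).erase i).powersetCard s).card : ℝ) = (k.choose s : ℝ) := by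
  rw [card_powersetCard, card_erase_of_mem (mem_univ _), card_univ, Fintype.card_fin]
  rfl

private theorem PSp_sum (R r m : ℕ) (hr : r ≤ R) :
    ∑ i : Fin (R + 1), ((m : ℝ) + if (i : ℕ) < r then 1 else 0) = (R + 1) * m + r := by
  rw [sum_add_distrib, sum_const, card_univ, Fintype.card_fin, nsmul_eq_mul]
  congr 1
  · push_cast
    ring
  · rw [Finset.sum_ite, sum_const_zero, add_zero, sum_const, nsmul_eq_mul, mul_one]
    congr 1
    have h : (univ.filter fun i : Fin (R + 1) => (i : ℕ) < r) =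
        (Finset.range r).attachFin (fun n hn => by
          have := Finset.mem_range.1 hn
          omega) := by
      ext i
      simp [Finset.mem_attachFin]
    rw [h, Finset.card_attachFin, Finset.card_range]

private theorem PSp_lo (R r m s : ℕ) (hr : r ≤ R) :
    ((R + 1) * m + r) * ((R.choose s : ℝ) * (m : ℝ) ^ s) ≤ ((s : ℝ) + 1) * KL R r m (s + 1) := by
  unfold KL
  rw [PSp_es, ← PSp_sum R r m hr, sum_mul]
  refine sum_le_sum fun i _ => mul_le_mul_of_nonneg_left ?_ (by positivity)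
  have h1 : ∀ T ∈ ((univ : Finset (Fin (R + 1))).erase i).powersetCard s,
      (m : ℝ) ^ s ≤ ∏ j ∈ T, ((m : ℝ) + if (j : ℕ) < r then 1 else 0) := by
    intro T hT
    rw [mem_powersetCard] at hT
    rw [← hT.2, ← prod_const]
    refine prod_le_prod (fun j _ => by positivity) fun j _ => ?_
    split_ifs <;> linarith
  refine le_trans (le_of_eq ?_) (Finset.card_nsmul_le_sum _ _ _ h1)
  rw [nsmul_eq_mul, PSp_card]

private theorem PSp_hi (R r m s : ℕ) (hr : r ≤ R) :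
    ((s : ℝ) + 1) * KL R r m (s + 1) ≤
      ((R + 1) * m + r) * ((R.choose s : ℝ) * ((m : ℝ) + 1) ^ s) := by
  unfold KL
  rw [PSp_es, ← PSp_sum R r m hr, sum_mul]
  refine sum_le_sum fun i _ => mul_le_mul_of_nonneg_left ?_ (by positivity)
  have h1 : ∀ T ∈ ((univ : Finset (Fin (R + 1))).erase i).powersetCard s,
      ∏ j ∈ T, ((m : ℝ) + if (j : ℕ) < r then 1 else 0) ≤ ((m : ℝ) + 1) ^ s := by
    intro T hT
    rw [mem_powersetCard] at hT
    rw [← hT.2, ← prod_const]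
    refine prod_le_prod (fun j _ => by positivity) fun j _ => ?_
    split_ifs <;> linarith
  refine (Finset.sum_le_card_nsmul _ _ _ h1).trans (le_of_eq ?_)
  rw [nsmul_eq_mul, PSp_card]

private theorem PSp_den (R r m : ℕ) (hm : 1 ≤ m) : (0 : ℝ) < (R + 1) * m + r := by
  have h1 : (1 : ℝ) ≤ m := by exact_mod_cast hm
  positivity

theorem PL_lo (R r m t : ℕ) (hr : r ≤ R) (ht : 1 ≤ t) (hm : 1 ≤ m) :
    (R.choose (t - 1) : ℝ) * (m : ℝ) ^ (t - 1) / t ≤ PL R r m t := by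
  obtain ⟨s, rfl⟩ : ∃ s, t = s + 1 := ⟨t - 1, by omega⟩
  have h1 := PSp_lo R r m s hr
  have h2 := PSp_den R r m hm
  unfold PL
  rw [Nat.add_sub_cancel, div_le_div_iff₀ (by positivity) h2]
  push_cast
  linarith

private theorem PSp_pow (s : ℕ) : ∃ c : ℝ, 0 < c ∧ ∀ m : ℝ, 1 ≤ m →
    (m + 1) ^ (s + 1) ≤ m ^ (s + 1) + c * m ^ s := by
  induction s with
  | zero => exact ⟨1, one_pos, fun m _ => by simp⟩
  | succ s ih =>
    obtain ⟨c, hc, h⟩ := ih
    refine ⟨2 * c + 1, by positivity, fun m hm => ?_⟩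
    have h1 := h m hm
    have h2 : (0 : ℝ) ≤ m ^ s := by positivity
    have h3 : c * m ^ s ≤ c * m ^ (s + 1) := by
      refine mul_le_mul_of_nonneg_left ?_ hc.le
      exact pow_le_pow_right₀ hm (Nat.le_succ s)
    calc (m + 1) ^ (s + 1 + 1) = (m + 1) ^ (s + 1) * (m + 1) := pow_succ _ _
      _ ≤ (m ^ (s + 1) + c * m ^ s) * (m + 1) :=
          mul_le_mul_of_nonneg_right h1 (by linarith)
      _ = m ^ (s + 1 + 1) + c * m ^ (s + 1) + m ^ (s + 1) + c * m ^ s := by ring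
      _ ≤ m ^ (s + 1 + 1) + (2 * c + 1) * m ^ (s + 1) := by linarith

theorem PL_hi (R r t : ℕ) (hr : r ≤ R) (ht : 2 ≤ t) : ∃ C : ℝ, 0 < C ∧ ∀ m : ℕ, 1 ≤ m →
    PL R r m t ≤ (R.choose (t - 1) : ℝ) * (m : ℝ) ^ (t - 1) / t + C * (m : ℝ) ^ (t - 2) := by
  obtain ⟨s, rfl⟩ : ∃ s, t = s + 2 := ⟨t - 2, by omega⟩
  obtain ⟨c, hc, hpow⟩ := PSp_pow s
  refine ⟨(R.choose (s + 1) : ℝ) * c + 1, by positivity, fun m hm => ?_⟩
  have hm' : (1 : ℝ) ≤ m := by exact_mod_cast hm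
  have h1 := PSp_hi R r m (s + 1) hr
  have h2 := PSp_den R r m hm
  have h3 := hpow m hm'
  have e1 : s + 2 - 1 = s + 1 := rfl
  have e2 : s + 2 - 2 = s := rfl
  rw [e1, e2]
  have h4 : PL R r m (s + 2) ≤ (R.choose (s + 1) : ℝ) * ((m : ℝ) + 1) ^ (s + 1) /
      ((s + 2 : ℕ) : ℝ) := by
    unfold PL
    rw [div_le_div_iff₀ h2 (by positivity)]
    push_cast at h1 ⊢
    linarith
  have h5 : (0 : ℝ) ≤ (R.choose (s + 1) : ℝ) := by positivity
  have h6 : (0 : ℝ) ≤ (m : ℝ) ^ s := by positivity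
  have h7 : (1 : ℝ) ≤ ((s + 2 : ℕ) : ℝ) := by
    push_cast
    have : (0 : ℝ) ≤ s := by positivity
    linarith
  refine h4.trans ?_
  have h8 : (R.choose (s + 1) : ℝ) * ((m : ℝ) + 1) ^ (s + 1) / ((s + 2 : ℕ) : ℝ) ≤
      (R.choose (s + 1) : ℝ) * ((m : ℝ) ^ (s + 1) + c * (m : ℝ) ^ s) / ((s + 2 : ℕ) : ℝ) := by
    gcongr
  refine h8.trans ?_
  have h9 : (R.choose (s + 1) : ℝ) * (c * (m : ℝ) ^ s) / ((s + 2 : ℕ) : ℝ) ≤
      (R.choose (s + 1) : ℝ) * (c * (m : ℝ) ^ s) := div_le_self (by positivity) h7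
  rw [mul_add, add_div]
  have h10 : (R.choose (s + 1) : ℝ) * (c * (m : ℝ) ^ s) ≤
      ((R.choose (s + 1) : ℝ) * c + 1) * (m : ℝ) ^ s := by
    have : ((R.choose (s + 1) : ℝ) * c + 1) * (m : ℝ) ^ s =
      (R.choose (s + 1) : ℝ) * (c * (m : ℝ) ^ s) + (m : ℝ) ^ s := by ring
    rw [this]
    linarith
  linarith

end Pool.Agent.H45.KTD
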