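import Pool.Agent.H45.KTD.EsP
import Pool.Agent.H45.KTD.PSp

/-!
# KTD EsD: the number of transversals of a cluster compared with `L`

`X = ∑ x i`, `c = X - r`, `Q = ∑ x i (x i - 1) ≥ 0`, `M = 5 R η m ≥ 1` (as `η m ≥ r + 1 ≥ 1`), `1 / m ≤ η`.
`es_add` for the vectors `x` and `xL = 1_{i < r}` (`es_ind`) gives
`es t (m + x) - KL = C(R, t-1) m ^ (t-1) c + κ m ^ (t-2) (es 2 x - C(r, 2)) + ∑_{3 ≤ j ≤ t} C(R+1-j, t-j) m ^ (t-j) (es j x - C(r, j))`.
* `j = 2`: `2 (es 2 x - C(r,2)) = X² - ∑ x² - r² + r = - Q + c (c + 2 r - 1)` (as `∑ x² = Q + X`, `X = r + c`), and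
  `|c| ≤ (R + 1) M + r ≤ C η m`, `r ≤ η m`, so this term is `≤ - (κ/2) m ^ (t-2) Q + C η m ^ (t-1) |c|`.
* `j ≥ 3`: by `es_diff` `≤ C m ^ (t-j) (M ^ (j-2) Q + |c|)`, and `m ^ (t-j) M ^ (j-2) = (5 R η) ^ (j-2) m ^ (t-2) ≤ 5 R η m ^ (t-2)`,
  `m ^ (t-j) ≤ m ^ (t-3) ≤ η m ^ (t-2)`.
* `PL ((R + 1) m + X) = KL + PL c`, and by `PL_lo`, `PL_hi` `|PL - C(R, t-1) m ^ (t-1) / t| ≤ C m ^ (t-2) ≤ C η m ^ (t-1)`, so
  `C(R, t-1) m ^ (t-1) c - PL c ≤ AA m ^ (t-1) c + C η m ^ (t-1) |c|`.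
-/

set_option autoImplicit false

open Finset

namespace Pool.Agent.H45.KTD

theorem esD (R r t : ℕ) (hR : 4 ≤ R) (hr : r ≤ R) (ht : 4 ≤ t) (htR : t ≤ R + 1) :
    ∃ C : ℝ, 0 < C ∧ ∀ (m : ℕ) (η : ℝ), 0 < η → 1000 * (R : ℝ) ^ 2 * η ≤ 1 →
      (r : ℝ) + 1 ≤ η * m → ∀ x : Fin (R + 1) → ℤ, (∀ i, |(x i : ℝ)| ≤ 5 * R * η * m) →
        es t (fun i => (m : ℝ) + x i) - PL R r m t * ((R + 1) * m + ∑ i, (x i : ℝ)) ≤
          AA R t * (m : ℝ) ^ (t - 1) * ((∑ i, (x i : ℝ)) - r) +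
          C * η * (m : ℝ) ^ (t - 1) * |(∑ i, (x i : ℝ)) - r| -
          (KK R t / 2 - C * η) * (m : ℝ) ^ (t - 2) * ∑ i, (x i : ℝ) * ((x i : ℝ) - 1) := by
  obtain ⟨C1, hC1, hPL⟩ := PL_hi R r t hr (by omega)
  have hR4 : (4 : ℝ) ≤ R := by exact_mod_cast hR
  have hK0 : 0 ≤ KK R t := by unfold KK; positivity
  refine ⟨C1 + KK R t * (5 * R * (R + 1) + 3) + t * 2 ^ (2 * R + 4) * (5 * R) + 1,
    by positivity, ?_⟩
  intro m η hη hη1 hrm x hx
  have hηsmall : 5 * (R : ℝ) * η ≤ 1 := by nlinarith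
  have hη2 : η ≤ 1 := by nlinarith
  have hr0 : (0 : ℝ) ≤ r := Nat.cast_nonneg r
  have hηm : 1 ≤ η * m := by linarith
  have hm0 : (0 : ℝ) ≤ (m : ℝ) := Nat.cast_nonneg m
  have hm1R : (1 : ℝ) ≤ m := by nlinarith
  have hm1 : 1 ≤ m := by exact_mod_cast hm1R
  have hlo := PL_lo R r m t hr (by omega) hm1
  have hhi := hPL m hm1
  have hKL : KL R r m t = PL R r m t * ((R + 1) * m + r) := by
    unfold PL
    rw [div_mul_cancel₀]
    have : 0 < ((R : ℝ) + 1) * m + r := by positivity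
    exact this.ne'
  obtain ⟨s, rfl⟩ : ∃ s, t = s + 4 := ⟨t - 4, by omega⟩
  have e1 : s + 4 - 1 = s + 3 := rfl
  have e2 : s + 4 - 2 = s + 2 := rfl
  rw [e1] at hlo hhi ⊢
  rw [e2] at hhi ⊢
  set X : ℝ := ∑ i, (x i : ℝ) with hX
  set Q : ℝ := ∑ i, (x i : ℝ) * ((x i : ℝ) - 1) with hQ
  set M : ℝ := 5 * R * η * m with hM
  have hM1 : 1 ≤ M := by
    rw [hM]
    nlinarith
  have hQ0 : 0 ≤ Q := by
    refine sum_nonneg (fun i _ => ?_)
    have h : 0 ≤ x i * (x i - 1) := by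
      rcases le_or_gt (x i) 0 with h | h
      · nlinarith
      · have : 1 ≤ x i := h
        nlinarith
    exact_mod_cast h
  -- the expansion
  have hexp : es (s + 4) (fun i => (m : ℝ) + x i) - KL R r m (s + 4) =
      ∑ j ∈ range (s + 5), ((R + 1 - j).choose (s + 4 - j) : ℝ) * (m : ℝ) ^ (s + 4 - j) *
        (es j (fun i => (x i : ℝ)) - (r.choose j : ℝ)) := by
    have h1 := es_add (k := R + 1) (s + 4) (m : ℝ) (fun i => (x i : ℝ))
    have h2 := es_add (k := R + 1) (s + 4) (m : ℝ)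
      (fun i : Fin (R + 1) => if (i : ℕ) < r then (1 : ℝ) else 0)
    unfold KL
    rw [h1, h2, ← sum_sub_distrib]
    refine sum_congr rfl (fun j _ => ?_)
    rw [es_ind r j (by omega)]
    ring
  have hsplit : es (s + 4) (fun i => (m : ℝ) + x i) - KL R r m (s + 4) =
      (R.choose (s + 3) : ℝ) * (m : ℝ) ^ (s + 3) * (X - r) +
      KK R (s + 4) * (m : ℝ) ^ (s + 2) * (es 2 (fun i => (x i : ℝ)) - (r.choose 2 : ℝ)) +
      ∑ j ∈ range (s + 2), ((R + 1 - (j + 3)).choose (s + 4 - (j + 3)) : ℝ) *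
        (m : ℝ) ^ (s + 4 - (j + 3)) *
        (es (j + 3) (fun i => (x i : ℝ)) - (r.choose (j + 3) : ℝ)) := by
    rw [hexp, sum_range_succ', sum_range_succ', sum_range_succ']
    have f0 : es 0 (fun i : Fin (R + 1) => (x i : ℝ)) - (r.choose 0 : ℝ) = 0 := by
      rw [es_zero]
      simp
    have f1 : es (0 + 1) (fun i : Fin (R + 1) => (x i : ℝ)) - (r.choose (0 + 1) : ℝ) = X - r := by
      rw [zero_add, es_one]
      simp [hX]
    rw [f0, f1]
    have g1 : R + 1 - (0 + 1) = R := by omega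
    have g2 : s + 4 - (0 + 1) = s + 3 := by omega
    have g3 : R + 1 - (0 + 1 + 1) = R - 1 := by omega
    have g4 : s + 4 - (0 + 1 + 1) = s + 2 := by omega
    have g5 : (0 + 1 + 1 : ℕ) = 2 := rfl
    rw [g1, g2, g3, g4, g5]
    have g6 : KK R (s + 4) = ((R - 1).choose (s + 2) : ℝ) := rfl
    rw [g6]
    have g7 : ∀ j : ℕ, j + 1 + 1 + 1 = j + 3 := fun j => rfl
    simp only [g7]
    ring
  -- j = 2
  have hj2 : 2 * (es 2 (fun i => (x i : ℝ)) - (r.choose 2 : ℝ)) =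
      - Q + (X - r) * ((X - r) + 2 * r - 1) := by
    have h1 := es_two (fun i => (x i : ℝ))
    have h2 : (r.choose 2 : ℝ) = r * (r - 1) / 2 := Nat.cast_choose_two ℝ r
    have h3 : Q = ∑ i, (x i : ℝ) ^ 2 - X := by
      rw [hQ, hX, ← sum_sub_distrib]
      exact sum_congr rfl (fun i _ => by ring)
    rw [mul_sub, h1, h2, h3]
    ring
  have hXabs : |X| ≤ (R + 1) * M := by
    rw [hX]
    refine (abs_sum_le_sum_abs _ _).trans ((sum_le_sum (fun i _ => hx i)).trans ?_)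
    rw [sum_const, card_univ, Fintype.card_fin, nsmul_eq_mul]
    push_cast
    exact le_refl _
  have hc : |X - r| ≤ (R + 1) * M + r := by
    have h1 := abs_sub X (r : ℝ)
    have h2 : |(r : ℝ)| = r := abs_of_nonneg hr0
    linarith
  have hj2b : KK R (s + 4) * (m : ℝ) ^ (s + 2) *
      (es 2 (fun i => (x i : ℝ)) - (r.choose 2 : ℝ)) ≤
      - (KK R (s + 4) / 2 * (m : ℝ) ^ (s + 2) * Q) +
        KK R (s + 4) * (5 * R * (R + 1) + 3) * (η * (m : ℝ) ^ (s + 3) * |X - r|) := by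
    have h1 : (X - r) * ((X - r) + 2 * r - 1) ≤
        |X - r| * (2 * ((5 * R * (R + 1) + 3) * (η * m))) := by
      refine (le_abs_self _).trans ?_
      rw [abs_mul]
      refine mul_le_mul_of_nonneg_left ?_ (abs_nonneg _)
      have h2 : |(X - r) + 2 * r - 1| ≤ |X - r| + 2 * r + 1 := by
        rw [abs_le]
        have h3 := neg_abs_le (X - r)
        have h4 := le_abs_self (X - r)
        constructor <;> linarith
      have h5 : (R + 1) * M = 5 * R * (R + 1) * (η * m) := by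
        rw [hM]
        ring
      have h6 : 0 ≤ 5 * (R : ℝ) * (R + 1) * (η * m) := by positivity
      nlinarith
    have h2 : es 2 (fun i => (x i : ℝ)) - (r.choose 2 : ℝ) ≤
        - (Q / 2) + |X - r| * ((5 * R * (R + 1) + 3) * (η * m)) := by
      linarith
    have h3 : 0 ≤ KK R (s + 4) * (m : ℝ) ^ (s + 2) := mul_nonneg hK0 (by positivity)
    refine (mul_le_mul_of_nonneg_left h2 h3).trans (le_of_eq ?_)
    ring
  -- j >= 3
  have hP : ∀ j, j ∈ range (s + 2) →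
      ((R + 1 - (j + 3)).choose (s + 4 - (j + 3)) : ℝ) * (m : ℝ) ^ (s + 4 - (j + 3)) *
        (es (j + 3) (fun i => (x i : ℝ)) - (r.choose (j + 3) : ℝ)) ≤
      2 ^ (2 * R + 4) * (5 * R * (η * (m : ℝ) ^ (s + 2) * Q) +
        η * (m : ℝ) ^ (s + 3) * |X - r|) := by
    intro j hj
    rw [mem_range] at hj
    have h1 := es_diff R r (j + 3) hr (by omega) M hM1 x hx
    have h2 : ((R + 1 - (j + 3)).choose (s + 4 - (j + 3)) : ℝ) ≤ 2 ^ (R + 1) := by
      have : (R + 1 - (j + 3)).choose (s + 4 - (j + 3)) ≤ 2 ^ (R + 1) :=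
        (Nat.choose_le_two_pow _ _).trans (Nat.pow_le_pow_right (by norm_num) (by omega))
      exact_mod_cast this
    have e3 : j + 3 - 2 = j + 1 := rfl
    rw [e3] at h1
    have e4 : s + 4 - (j + 3) = s + 1 - j := by omega
    rw [e4] at h2 ⊢
    have hm2 : (m : ℝ) ^ (s + 1 - j) ≤ (m : ℝ) ^ (s + 1) :=
      pow_le_pow_right₀ hm1R (by omega)
    have hb : (m : ℝ) ^ (s + 1 - j) * M ^ (j + 1) ≤ 5 * R * η * (m : ℝ) ^ (s + 2) := by
      have h3 : M ^ (j + 1) = (5 * R * η) ^ (j + 1) * (m : ℝ) ^ (j + 1) := by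
        rw [hM, mul_pow]
      have h4 : (m : ℝ) ^ (s + 1 - j) * (m : ℝ) ^ (j + 1) = (m : ℝ) ^ (s + 2) := by
        rw [← pow_add]
        congr 1
        omega
      have h5 : (5 * R * η) ^ (j + 1) ≤ 5 * R * η := by
        rw [pow_succ]
        have h6 : (5 * (R : ℝ) * η) ^ j ≤ 1 := pow_le_one₀ (by positivity) hηsmall
        have h7 : 0 ≤ 5 * (R : ℝ) * η := by positivity
        nlinarith
      calc (m : ℝ) ^ (s + 1 - j) * M ^ (j + 1)
          = (5 * R * η) ^ (j + 1) * ((m : ℝ) ^ (s + 1 - j) * (m : ℝ) ^ (j + 1)) := by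
            rw [h3]
            ring
        _ = (5 * R * η) ^ (j + 1) * (m : ℝ) ^ (s + 2) := by rw [h4]
        _ ≤ 5 * R * η * (m : ℝ) ^ (s + 2) := mul_le_mul_of_nonneg_right h5 (by positivity)
    have hd : (m : ℝ) ^ (s + 1 - j) ≤ η * (m : ℝ) ^ (s + 3) := by
      have h3 : (m : ℝ) ^ (s + 1) * 1 ≤ (m : ℝ) ^ (s + 1) * ((η * m) * m) := by
        refine mul_le_mul_of_nonneg_left ?_ (by positivity)
        nlinarith
      calc (m : ℝ) ^ (s + 1 - j) ≤ (m : ℝ) ^ (s + 1) * 1 := by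
            rw [mul_one]
            exact hm2
        _ ≤ (m : ℝ) ^ (s + 1) * ((η * m) * m) := h3
        _ = η * (m : ℝ) ^ (s + 3) := by ring
    have hQc : 0 ≤ M ^ (j + 1) * Q + |X - r| := by positivity
    calc ((R + 1 - (j + 3)).choose (s + 1 - j) : ℝ) * (m : ℝ) ^ (s + 1 - j) *
        (es (j + 3) (fun i => (x i : ℝ)) - (r.choose (j + 3) : ℝ))
        ≤ ((R + 1 - (j + 3)).choose (s + 1 - j) : ℝ) * (m : ℝ) ^ (s + 1 - j) *
          (2 ^ (R + 3) * (M ^ (j + 1) * Q + |X - r|)) := by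
          refine mul_le_mul_of_nonneg_left ((le_abs_self _).trans h1) (by positivity)
      _ ≤ 2 ^ (R + 1) * (m : ℝ) ^ (s + 1 - j) *
          (2 ^ (R + 3) * (M ^ (j + 1) * Q + |X - r|)) := by
          refine mul_le_mul_of_nonneg_right ?_ (by positivity)
          exact mul_le_mul_of_nonneg_right h2 (by positivity)
      _ = 2 ^ (2 * R + 4) * (((m : ℝ) ^ (s + 1 - j) * M ^ (j + 1)) * Q +
          (m : ℝ) ^ (s + 1 - j) * |X - r|) := by
          ring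
      _ ≤ 2 ^ (2 * R + 4) * ((5 * R * η * (m : ℝ) ^ (s + 2)) * Q +
          (η * (m : ℝ) ^ (s + 3)) * |X - r|) := by
          refine mul_le_mul_of_nonneg_left ?_ (by positivity)
          exact add_le_add (mul_le_mul_of_nonneg_right hb hQ0)
            (mul_le_mul_of_nonneg_right hd (abs_nonneg _))
      _ = _ := by ring
  have hsum := sum_le_sum hP
  rw [sum_const, card_range, nsmul_eq_mul] at hsum
  -- the density
  have hcoef : (R.choose (s + 3) : ℝ) * (m : ℝ) ^ (s + 3) - PL R r m (s + 4) =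
      AA R (s + 4) * (m : ℝ) ^ (s + 3) -
        (PL R r m (s + 4) - (R.choose (s + 3) : ℝ) * (m : ℝ) ^ (s + 3) / ((s + 4 : ℕ) : ℝ)) := by
    unfold AA
    rw [e1]
    push_cast
    field_simp
    ring
  have herr : |PL R r m (s + 4) - (R.choose (s + 3) : ℝ) * (m : ℝ) ^ (s + 3) /
      ((s + 4 : ℕ) : ℝ)| ≤ C1 * (η * (m : ℝ) ^ (s + 3)) := by
    rw [abs_of_nonneg (by linarith)]
    have h1 : (m : ℝ) ^ (s + 2) * 1 ≤ (m : ℝ) ^ (s + 2) * (η * m) :=
      mul_le_mul_of_nonneg_left hηm (by positivity)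
    have h2 : (m : ℝ) ^ (s + 2) * (η * m) = η * (m : ℝ) ^ (s + 3) := by ring
    have h3 : C1 * (m : ℝ) ^ (s + 2) ≤ C1 * (η * (m : ℝ) ^ (s + 3)) := by
      refine mul_le_mul_of_nonneg_left ?_ hC1.le
      linarith
    linarith
  set E : ℝ := PL R r m (s + 4) - (R.choose (s + 3) : ℝ) * (m : ℝ) ^ (s + 3) /
      ((s + 4 : ℕ) : ℝ) with hE
  have hEc : -(E * (X - r)) ≤ C1 * (η * (m : ℝ) ^ (s + 3)) * |X - r| := by
    have h1 : -(E * (X - r)) ≤ |E * (X - r)| := neg_le_abs _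
    rw [abs_mul] at h1
    exact h1.trans (mul_le_mul_of_nonneg_right herr (abs_nonneg _))
  set a : ℝ := η * (m : ℝ) ^ (s + 3) * |X - r| with ha
  set b : ℝ := η * (m : ℝ) ^ (s + 2) * Q with hb
  have ha0 : 0 ≤ a := by positivity
  have hb0 : 0 ≤ b := by positivity
  have hfin : es (s + 4) (fun i => (m : ℝ) + x i) - PL R r m (s + 4) * ((R + 1) * m + X) =
      (AA R (s + 4) * (m : ℝ) ^ (s + 3) - E) * (X - r) +
      KK R (s + 4) * (m : ℝ) ^ (s + 2) * (es 2 (fun i => (x i : ℝ)) - (r.choose 2 : ℝ)) +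
      ∑ j ∈ range (s + 2), ((R + 1 - (j + 3)).choose (s + 4 - (j + 3)) : ℝ) *
        (m : ℝ) ^ (s + 4 - (j + 3)) *
        (es (j + 3) (fun i => (x i : ℝ)) - (r.choose (j + 3) : ℝ)) := by
    rw [← hcoef]
    have h1 : es (s + 4) (fun i => (m : ℝ) + x i) = KL R r m (s + 4) +
      (es (s + 4) (fun i => (m : ℝ) + x i) - KL R r m (s + 4)) := by ring
    rw [h1, hsplit, hKL]
    ring
  rw [hfin]
  have hT : (0 : ℝ) ≤ 2 ^ (2 * R + 4) := by positivity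
  have hT1 : ((s + 2 : ℕ) : ℝ) * (2 ^ (2 * R + 4) * (5 * R * b + a)) ≤
      ((s + 4 : ℕ) : ℝ) * 2 ^ (2 * R + 4) * (5 * R) * (b + a) := by
    have h1 : 5 * R * b + a ≤ 5 * R * (b + a) := by nlinarith
    have h2 : ((s + 2 : ℕ) : ℝ) ≤ ((s + 4 : ℕ) : ℝ) := by
      exact_mod_cast (by omega : s + 2 ≤ s + 4)
    calc ((s + 2 : ℕ) : ℝ) * (2 ^ (2 * R + 4) * (5 * R * b + a))
        ≤ ((s + 4 : ℕ) : ℝ) * (2 ^ (2 * R + 4) * (5 * R * (b + a))) := by
          refine mul_le_mul h2 ?_ (by positivity) (by positivity)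
          exact mul_le_mul_of_nonneg_left h1 hT
      _ = _ := by ring
  have hK1 : 0 ≤ KK R (s + 4) * (5 * R * (R + 1) + 3) * b :=
    mul_nonneg (mul_nonneg hK0 (by positivity)) hb0
  have hC1b : 0 ≤ C1 * b := mul_nonneg hC1.le hb0
  have hrhs : AA R (s + 4) * (m : ℝ) ^ (s + 3) * (X - r) +
      (C1 + KK R (s + 4) * (5 * R * (R + 1) + 3) +
        ((s + 4 : ℕ) : ℝ) * 2 ^ (2 * R + 4) * (5 * R) + 1) * η * (m : ℝ) ^ (s + 3) * |X - r| -
      (KK R (s + 4) / 2 - (C1 + KK R (s + 4) * (5 * R * (R + 1) + 3) +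
        ((s + 4 : ℕ) : ℝ) * 2 ^ (2 * R + 4) * (5 * R) + 1) * η) * (m : ℝ) ^ (s + 2) * Q =
      AA R (s + 4) * (m : ℝ) ^ (s + 3) * (X - r) +
      (C1 * a + KK R (s + 4) * (5 * R * (R + 1) + 3) * a + a) +
      (C1 * b + KK R (s + 4) * (5 * R * (R + 1) + 3) * b + b) +
      ((s + 4 : ℕ) : ℝ) * 2 ^ (2 * R + 4) * (5 * R) * (b + a) -
      KK R (s + 4) / 2 * (m : ℝ) ^ (s + 2) * Q := by
    rw [ha, hb]
    ring
  rw [hrhs]
  have hEc2 : C1 * (η * (m : ℝ) ^ (s + 3)) * |X - r| = C1 * a := by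
    rw [ha]
    ring
  rw [hEc2] at hEc
  linarith

end Pool.Agent.H45.KTD
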