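import Pool.Agent.H45.KTD.Defs

/-!
# KTD EsP: elementary symmetric polynomials

* `es_add`: `∏_{i ∈ S} (m + x i) = ∑_{T ⊆ S} m ^ (t - |T|) ∏_{i ∈ T} x i` (`Finset.prod_add`), and every set `T` of `j` indices is
  contained in `C(k - j, t - j)` sets `S` with `t` elements.
* `es_two`: `2 es 2 x = (∑ x)² - ∑ x²`.
* `es_ind`: `es j` of the indicator vector of the first `r` indices is `C(r, j)`.
* `es_diff`: `x` integers with `|x i| ≤ M`, `M ≥ 1`, `Q = ∑ x i (x i - 1)` (`≥ 0`, even), `c = ∑ x i - r`, `j ≥ 3`.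
  Call `i` big if `x i ∉ {0, 1}`; then `|x i| ≤ x i ^ 2 ≤ 2 x i (x i - 1) ≤ 2 Q` (all terms of `Q` are `≥ 0`).
-/

set_option autoImplicit false

open Finset

namespace Pool.Agent.H45.KTD

/-- the number of the sets with `t` elements which contain a given set -/
private theorem card_sup {α : Type} [Fintype α] [DecidableEq α] (t : ℕ) (T : Finset α)
    (hT : T.card ≤ t) :
    (((univ : Finset α).powersetCard t).filter (fun S => T ⊆ S)).card =
      (Fintype.card α - T.card).choose (t - T.card) := by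
  have h1 : ((univ : Finset α) \ T).card = Fintype.card α - T.card := by
    rw [card_sdiff_of_subset (subset_univ T), card_univ]
  rw [← h1, ← card_powersetCard]
  refine card_nbij' (fun S => S \ T) (fun S => S ∪ T) ?_ ?_ ?_ ?_
  · intro S hS
    rw [mem_coe, mem_filter, mem_powersetCard] at hS
    rw [mem_coe, mem_powersetCard]
    refine ⟨sdiff_subset_sdiff (subset_univ S) (Subset.refl T), ?_⟩
    rw [card_sdiff_of_subset hS.2, hS.1.2]
  · intro S hS
    rw [mem_coe, mem_powersetCard] at hS
    rw [mem_coe, mem_filter, mem_powersetCard]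
    refine ⟨⟨subset_univ _, ?_⟩, subset_union_right⟩
    rw [card_union_of_disjoint, hS.2]
    · omega
    · exact disjoint_left.2 (fun a ha hb => (mem_sdiff.1 (hS.1 ha)).2 hb)
  · intro S hS
    rw [mem_coe, mem_filter] at hS
    exact sdiff_union_of_subset hS.2
  · intro S hS
    rw [mem_coe, mem_powersetCard] at hS
    ext a
    simp only [mem_sdiff, mem_union]
    constructor
    · rintro ⟨h | h, h2⟩
      · exact h
      · exact absurd h h2
    · intro h
      exact ⟨Or.inl h, (mem_sdiff.1 (hS.1 h)).2⟩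

theorem es_add {k : ℕ} (t : ℕ) (m : ℝ) (x : Fin k → ℝ) :
    es t (fun i => m + x i) =
      ∑ j ∈ range (t + 1), ((k - j).choose (t - j) : ℝ) * m ^ (t - j) * es j x := by
  classical
  unfold es
  have h1 : ∀ S ∈ (univ : Finset (Fin k)).powersetCard t, ∏ i ∈ S, (m + x i) =
      ∑ j ∈ range (t + 1), ∑ T ∈ (univ : Finset (Fin k)).powersetCard j,
        if T ⊆ S then m ^ (t - j) * ∏ i ∈ T, x i else 0 := by
    intro S hS
    rw [mem_powersetCard] at hS
    have e1 : ∏ i ∈ S, (m + x i) = ∏ i ∈ S, (x i + m) :=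
      prod_congr rfl (fun i _ => add_comm _ _)
    rw [e1, prod_add, sum_powerset, hS.2]
    refine sum_congr rfl (fun j _ => ?_)
    rw [← sum_filter]
    refine sum_congr ?_ (fun T hT => ?_)
    · ext T
      simp only [mem_powersetCard, mem_filter, subset_univ, true_and]
      exact and_comm
    · rw [mem_filter, mem_powersetCard] at hT
      rw [prod_const, card_sdiff_of_subset hT.2, hS.2, hT.1.2, mul_comm]
  rw [sum_congr rfl h1, sum_comm]
  refine sum_congr rfl (fun j hj => ?_)
  rw [sum_comm, mul_sum]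
  refine sum_congr rfl (fun T hT => ?_)
  rw [mem_powersetCard] at hT
  rw [← sum_filter, sum_const, nsmul_eq_mul, card_sup t T (by
    have := mem_range.1 hj
    omega), hT.2, Fintype.card_fin]
  ring

theorem es_zero {k : ℕ} (x : Fin k → ℝ) : es 0 x = 1 := by
  simp [es]

theorem es_one {k : ℕ} (x : Fin k → ℝ) : es 1 x = ∑ i, x i := by
  simp [es, powersetCard_one]

private theorem pow2 {α : Type} [DecidableEq α] (x : α → ℝ) (s : Finset α) :
    2 * ∑ S ∈ s.powersetCard 2, ∏ i ∈ S, x i = (∑ i ∈ s, x i) ^ 2 - ∑ i ∈ s, x i ^ 2 := by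
  induction s using Finset.induction_on with
  | empty =>
    have h : powersetCard 2 (∅ : Finset α) = ∅ := powersetCard_eq_empty.2 (by simp)
    rw [h]
    simp
  | @insert a s ha ih =>
    have h1 : powersetCard 2 (insert a s) =
        powersetCard 2 s ∪ (powersetCard 1 s).image (insert a) := powersetCard_succ_insert ha 1
    have h2 : Disjoint (powersetCard 2 s) ((powersetCard 1 s).image (insert a)) := by
      rw [disjoint_left]
      intro S hS hS2
      rw [mem_image] at hS2
      obtain ⟨T, _, rfl⟩ := hS2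
      exact ha ((mem_powersetCard.1 hS).1 (mem_insert_self a T))
    have h3 : ∑ S ∈ (powersetCard 1 s).image (insert a), ∏ i ∈ S, x i =
        x a * ∑ i ∈ s, x i := by
      rw [powersetCard_one, map_eq_image, image_image, sum_image]
      · rw [mul_sum]
        refine sum_congr rfl (fun i hi => ?_)
        simp only [Function.comp_apply, Function.Embedding.coeFn_mk]
        rw [prod_insert, prod_singleton]
        rw [mem_singleton]
        rintro rfl
        exact ha hi
      · intro i hi j hj h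
        simp only [Function.comp_apply, Function.Embedding.coeFn_mk] at h
        have hi2 : i ∈ insert a ({j} : Finset α) := by
          rw [← h]
          simp
        rw [mem_insert, mem_singleton] at hi2
        rcases hi2 with h4 | h4
        · rw [mem_coe] at hi
          rw [h4] at hi
          exact absurd hi ha
        · exact h4
    rw [h1, sum_union h2, h3, mul_add, ih, sum_insert ha, sum_insert ha]
    ring

theorem es_two {k : ℕ} (x : Fin k → ℝ) : 2 * es 2 x = (∑ i, x i) ^ 2 - ∑ i, x i ^ 2 := by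
  exact pow2 x univ

private theorem es_set {k : ℕ} (j : ℕ) (F : Finset (Fin k)) :
    ∑ S ∈ (univ : Finset (Fin k)).powersetCard j, ∏ i ∈ S, (if i ∈ F then (1 : ℝ) else 0) =
      (F.card.choose j : ℝ) := by
  have h1 : ∀ S ∈ (univ : Finset (Fin k)).powersetCard j,
      ∏ i ∈ S, (if i ∈ F then (1 : ℝ) else 0) = if S ⊆ F then 1 else 0 := by
    intro S _
    by_cases h : S ⊆ F
    · rw [if_pos h]
      exact prod_eq_one (fun i hi => if_pos (h hi))
    · rw [if_neg h]
      obtain ⟨i, hi, hi2⟩ := not_subset.1 h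
      exact prod_eq_zero hi (if_neg hi2)
  rw [sum_congr rfl h1, ← sum_filter, sum_const, nsmul_eq_mul, mul_one, ← card_powersetCard]
  congr 2
  ext S
  simp only [mem_filter, mem_powersetCard, subset_univ, true_and]
  exact and_comm

theorem es_ind {k : ℕ} (r j : ℕ) (hr : r ≤ k) :
    es j (fun i : Fin k => if (i : ℕ) < r then (1 : ℝ) else 0) = (r.choose j : ℝ) := by
  have h := es_set j ((univ : Finset (Fin k)).filter (fun i : Fin k => (i : ℕ) < r))
  have h2 : ((univ : Finset (Fin k)).filter (fun i : Fin k => (i : ℕ) < r)).card = r := by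
    rw [Fin.card_filter_val_lt]
    exact min_eq_right hr
  rw [h2] at h
  rw [← h]
  unfold es
  refine sum_congr rfl (fun S _ => prod_congr rfl (fun i _ => ?_))
  simp

private theorem big_le (z : ℤ) (h0 : z ≠ 0) (h1 : z ≠ 1) :
    (z : ℝ) ^ 2 ≤ 2 * ((z : ℝ) * ((z : ℝ) - 1)) := by
  have h : z ^ 2 ≤ 2 * (z * (z - 1)) := by
    rcases lt_or_gt_of_ne h0 with h | h
    · nlinarith
    · have : 2 ≤ z := by omega
      nlinarith
  exact_mod_cast h

private theorem abs_le_sq (z : ℤ) : |(z : ℝ)| ≤ (z : ℝ) ^ 2 := by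
  have h : |z| ≤ z ^ 2 := by
    rw [← sq_abs]
    rcases eq_or_ne z 0 with h | h
    · simp [h]
    · have : 1 ≤ |z| := Int.one_le_abs h
      nlinarith
  exact_mod_cast h

private theorem q_nn (z : ℤ) : 0 ≤ (z : ℝ) * ((z : ℝ) - 1) := by
  have h : 0 ≤ z * (z - 1) := by
    rcases le_or_gt z 0 with h | h
    · nlinarith
    · have : 1 ≤ z := h
      nlinarith
  exact_mod_cast h

theorem es_diff (R r j : ℕ) (hr : r ≤ R) (hj : 3 ≤ j) (M : ℝ) (hM : 1 ≤ M) (x : Fin (R + 1) → ℤ)
    (hx : ∀ i, |(x i : ℝ)| ≤ M) :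
    |es j (fun i => (x i : ℝ)) - (r.choose j : ℝ)| ≤
      2 ^ (R + 3) * (M ^ (j - 2) * ∑ i, (x i : ℝ) * ((x i : ℝ) - 1) + |(∑ i, (x i : ℝ)) - r|) := by
  classical
  set Q : ℝ := ∑ i, (x i : ℝ) * ((x i : ℝ) - 1) with hQ
  set F : Finset (Fin (R + 1)) := univ.filter (fun i => x i = 1) with hF
  have hq : ∀ i, (x i : ℝ) * ((x i : ℝ) - 1) ≤ Q := fun i =>
    single_le_sum (f := fun i => (x i : ℝ) * ((x i : ℝ) - 1)) (fun k _ => q_nn (x k)) (mem_univ i)
  have hQ0 : 0 ≤ Q := sum_nonneg (fun i _ => q_nn (x i))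
  have hMp : 1 ≤ M ^ (j - 2) := one_le_pow₀ hM
  have hMQ : 0 ≤ M ^ (j - 2) * Q := mul_nonneg (by linarith) hQ0
  have hpair : ∀ l l' : Fin (R + 1), l ≠ l' → x l ≠ 0 → x l ≠ 1 →
      |(x l : ℝ)| * |(x l' : ℝ)| ≤ 2 * Q := by
    intro l l' hne h0 h1
    by_cases hb : x l' = 0 ∨ x l' = 1
    · have h3 : |(x l' : ℝ)| ≤ 1 := by
        rcases hb with h | h <;> simp [h]
      have h4 : |(x l : ℝ)| ≤ 2 * Q :=
        (abs_le_sq (x l)).trans ((big_le (x l) h0 h1).trans (by linarith [hq l]))
      have h5 : |(x l : ℝ)| * |(x l' : ℝ)| ≤ |(x l : ℝ)| * 1 :=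
        mul_le_mul_of_nonneg_left h3 (abs_nonneg _)
      linarith
    · rw [not_or] at hb
      have h3 := big_le (x l) h0 h1
      have h4 := big_le (x l') hb.1 hb.2
      have h5 : (x l : ℝ) * ((x l : ℝ) - 1) + (x l' : ℝ) * ((x l' : ℝ) - 1) ≤ Q := by
        rw [hQ, ← sum_pair (f := fun i => (x i : ℝ) * ((x i : ℝ) - 1)) hne]
        exact sum_le_sum_of_subset_of_nonneg (subset_univ _) (fun k _ _ => q_nn (x k))
      have h6 : 2 * (|(x l : ℝ)| * |(x l' : ℝ)|) ≤ (x l : ℝ) ^ 2 + (x l' : ℝ) ^ 2 := by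
        have := sq_nonneg (|(x l : ℝ)| - |(x l' : ℝ)|)
        have e1 := sq_abs (x l : ℝ)
        have e2 := sq_abs (x l' : ℝ)
        nlinarith
      linarith
  have hset : ∀ S ∈ (univ : Finset (Fin (R + 1))).powersetCard j,
      |∏ i ∈ S, (x i : ℝ) - ∏ i ∈ S, (if i ∈ F then (1 : ℝ) else 0)| ≤
        2 * (M ^ (j - 2) * Q) := by
    intro S hS
    rw [mem_powersetCard] at hS
    by_cases hb : ∀ i ∈ S, x i = 0 ∨ x i = 1
    · have e : ∏ i ∈ S, (x i : ℝ) = ∏ i ∈ S, (if i ∈ F then (1 : ℝ) else 0) := by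
        refine prod_congr rfl (fun i hi => ?_)
        rcases hb i hi with h | h
        · rw [if_neg, h]
          · simp
          · rw [hF, mem_filter, h]
            simp
        · rw [if_pos, h]
          · simp
          · rw [hF, mem_filter, h]
            simp
      rw [e, sub_self, abs_zero]
      linarith
    · push Not at hb
      obtain ⟨l, hl, h0, h1⟩ := hb
      have e : ∏ i ∈ S, (if i ∈ F then (1 : ℝ) else 0) = 0 := by
        refine prod_eq_zero hl (if_neg ?_)
        rw [hF, mem_filter]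
        exact fun h => h1 h.2
      have hc1 : (S.erase l).card = j - 1 := by
        rw [card_erase_of_mem hl, hS.2]
      obtain ⟨l', hl'⟩ : (S.erase l).Nonempty := card_pos.1 (by omega)
      have hc2 : ((S.erase l).erase l').card = j - 2 := by
        rw [card_erase_of_mem hl', hc1]
        omega
      rw [e, sub_zero, abs_prod, ← mul_prod_erase S _ hl, ← mul_prod_erase (S.erase l) _ hl',
        ← mul_assoc]
      have h2 : ∏ i ∈ (S.erase l).erase l', |(x i : ℝ)| ≤ M ^ (j - 2) := by
        rw [← hc2, ← prod_const]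
        exact prod_le_prod (fun i _ => abs_nonneg _) (fun i _ => hx i)
      have h3 := hpair l l' (ne_of_mem_erase hl').symm h0 h1
      calc |(x l : ℝ)| * |(x l' : ℝ)| * ∏ i ∈ (S.erase l).erase l', |(x i : ℝ)|
          ≤ (2 * Q) * M ^ (j - 2) :=
            mul_le_mul h3 h2 (prod_nonneg (fun i _ => abs_nonneg _)) (by linarith)
        _ = 2 * (M ^ (j - 2) * Q) := by ring
  have hcard : (((univ : Finset (Fin (R + 1))).powersetCard j).card : ℝ) ≤ 2 ^ (R + 1) := by
    rw [card_powersetCard, card_univ, Fintype.card_fin]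
    exact_mod_cast Nat.choose_le_two_pow (R + 1) j
  have h1 : |es j (fun i => (x i : ℝ)) - (F.card.choose j : ℝ)| ≤
      2 ^ (R + 1) * (2 * (M ^ (j - 2) * Q)) := by
    rw [← es_set j F]
    unfold es
    rw [← sum_sub_distrib]
    refine (abs_sum_le_sum_abs _ _).trans ((sum_le_sum hset).trans ?_)
    rw [sum_const, nsmul_eq_mul]
    exact mul_le_mul_of_nonneg_right hcard (by linarith)
  have h2 : |(F.card.choose j : ℝ) - (r.choose j : ℝ)| ≤
      2 ^ (R + 1) * (M ^ (j - 2) * Q + |(∑ i, (x i : ℝ)) - r|) := by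
    by_cases hs : F.card = r
    · rw [hs, sub_self, abs_zero]
      exact mul_nonneg (by positivity) (add_nonneg hMQ (abs_nonneg _))
    · have hFc : F.card ≤ R + 1 := by
        have := card_le_univ F
        rwa [Fintype.card_fin] at this
      have h3 : (F.card.choose j : ℝ) ≤ 2 ^ (R + 1) := by
        have : F.card.choose j ≤ 2 ^ (R + 1) :=
          (Nat.choose_le_two_pow F.card j).trans (Nat.pow_le_pow_right (by norm_num) hFc)
        exact_mod_cast this
      have h4 : (r.choose j : ℝ) ≤ 2 ^ (R + 1) := by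
        have : r.choose j ≤ 2 ^ (R + 1) :=
          (Nat.choose_le_two_pow r j).trans (Nat.pow_le_pow_right (by norm_num) (by omega))
        exact_mod_cast this
      have h5 : |(F.card.choose j : ℝ) - (r.choose j : ℝ)| ≤ 2 ^ (R + 1) := by
        have p1 : (0 : ℝ) ≤ (F.card.choose j : ℝ) := Nat.cast_nonneg _
        have p2 : (0 : ℝ) ≤ (r.choose j : ℝ) := Nat.cast_nonneg _
        rw [abs_le]
        constructor <;> linarith
      have h6 : 1 ≤ M ^ (j - 2) * Q + |(∑ i, (x i : ℝ)) - r| := by
        have hQz : Q = ((∑ i, x i * (x i - 1) : ℤ) : ℝ) := by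
          rw [hQ]
          push_cast
          rfl
        by_cases hQ1 : Q = 0
        · have hz : ∀ i, x i = 0 ∨ x i = 1 := by
            intro i
            have h7 := (sum_eq_zero_iff_of_nonneg (s := univ)
              (f := fun i => (x i : ℝ) * ((x i : ℝ) - 1)) (fun k _ => q_nn (x k))).1
              (by rw [← hQ]; exact hQ1) i (mem_univ i)
            rcases mul_eq_zero.1 h7 with h8 | h8
            · left
              exact_mod_cast h8
            · right
              have : (x i : ℝ) = 1 := by linarith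
              exact_mod_cast this
          have h8 : ∑ i, (x i : ℝ) = (F.card : ℝ) := by
            rw [hF, card_filter, Nat.cast_sum]
            refine sum_congr rfl (fun i _ => ?_)
            rcases hz i with h | h <;> simp [h]
          rw [hQ1, mul_zero, zero_add, h8]
          have h9 : (F.card : ℤ) - (r : ℤ) ≠ 0 := by
            intro h
            exact hs (by omega)
          have h10 : 1 ≤ |(F.card : ℤ) - (r : ℤ)| := Int.one_le_abs h9
          exact_mod_cast h10
        · have h7 : 1 ≤ Q := by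
            have h8 : 0 < Q := lt_of_le_of_ne hQ0 (Ne.symm hQ1)
            rw [hQz] at h8 ⊢
            have h9 : 0 < ∑ i, x i * (x i - 1) := by exact_mod_cast h8
            have h10 : 1 ≤ ∑ i, x i * (x i - 1) := h9
            exact_mod_cast h10
          have h8 : 1 ≤ M ^ (j - 2) * Q := by nlinarith
          linarith [abs_nonneg ((∑ i, (x i : ℝ)) - r)]
      calc |(F.card.choose j : ℝ) - (r.choose j : ℝ)| ≤ 2 ^ (R + 1) * 1 := by linarith
        _ ≤ _ := mul_le_mul_of_nonneg_left h6 (by positivity)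
  have h3 : |es j (fun i => (x i : ℝ)) - (r.choose j : ℝ)| ≤
      2 ^ (R + 1) * (2 * (M ^ (j - 2) * Q)) +
        2 ^ (R + 1) * (M ^ (j - 2) * Q + |(∑ i, (x i : ℝ)) - r|) := by
    have e : es j (fun i => (x i : ℝ)) - (r.choose j : ℝ) =
        (es j (fun i => (x i : ℝ)) - (F.card.choose j : ℝ)) +
          ((F.card.choose j : ℝ) - (r.choose j : ℝ)) := by ring
    rw [e]
    exact (abs_add_le _ _).trans (add_le_add h1 h2)
  refine h3.trans ?_
  have e : (2 : ℝ) ^ (R + 3) = 4 * 2 ^ (R + 1) := by ring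
  rw [e]
  have hp : (0 : ℝ) < 2 ^ (R + 1) := by positivity
  nlinarith [abs_nonneg ((∑ i, (x i : ℝ)) - r), mul_nonneg hp.le hMQ,
    mul_nonneg hp.le (abs_nonneg ((∑ i, (x i : ℝ)) - r))]

end Pool.Agent.H45.KTD
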