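import Pool.Agent.H45.KTD.Tra

/-!
# KTD HCnt: the number of cliques in a hull

`A i = hpt G m γ V i`, `a i = |A i|`, `(1 - 5 R η) m ≤ a i ≤ 2 m` (`hpt_size`), `ms ≤ 2 γ m` (`hpt_ms`), the `A i` are independent
(`hpt_indep`) and disjoint (`hpt_disj`), `hull = tot A`.  So every `t`-clique in the hull is a transversal set without
a missing pair (a pair `u ∈ A i`, `v ∈ A j`, `i ≠ j`, not adjacent), and
`kq t hull ≤ |tr A t| - #{K ∈ tr A t with exactly one missing pair}`.
For a missing pair `u, v`: by `tr_two` (`k = R + 1`, `l = (1 - 5 R η) m`) there are at least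
`κ (1 - 5 R η) ^ (t-2) m ^ (t-2) ≥ κ (1 - 5 R t η) m ^ (t-2)` sets `K ∈ tr A t` containing `u, v`.  Those with a further missing pair:
* a pair `{u, w}` or `{v, w}`: `w` is one of the `≤ 2 · 2 γ m` missing vertices of `u` or `v`, and the other `t - 3` elements of `K`
  are in `tot A`, `|tot A| ≤ 2 (R + 1) m`: at most `4 γ m (2 (R + 1) m) ^ (t-3)` sets;
* a pair `{w, w'}` disjoint from `{u, v}` (`t ≥ 4`): `w ∈ tot A`, `w'` missing for `w`: at most
  `2 (R + 1) m · 2 γ m · (2 (R + 1) m) ^ (t-4)` sets.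
So at least `(κ - C0 γ) m ^ (t-2)` sets `K` for which `{u, v}` is the only missing pair (`η ≤ γ`), `C0` depending on `R, t` only.
These are different for different missing pairs, and the number of missing pairs is `(1/2) ∑_i ∑_{v ∈ A i} ms v`.
(If `κ - C0 γ < 0` nothing is to be proved for these: the number of sets is `≥ 0`.)
-/

set_option autoImplicit false

open Finset

namespace Pool.Agent.H45.KTD

open Pool.Agent.H11.TD

section aux

variable {α : Type} [Fintype α] [DecidableEq α]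

private theorem card_supersets (N S : Finset α) (t s : ℕ) (hs : S.card = s)
    (T : Finset (Finset α)) (hT : ∀ K ∈ T, K ⊆ N ∧ K.card = t ∧ S ⊆ K) :
    T.card ≤ N.card ^ (t - s) := by
  have h1 : T.card ≤ (N.powersetCard (t - s)).card := by
    apply Finset.card_le_card_of_injOn (fun K => K \ S)
    · intro K hK
      obtain ⟨h1, h2, h3⟩ := hT K hK
      have : K \ S ⊆ N ∧ (K \ S).card = t - s := by
        constructor
        · exact (sdiff_subset).trans h1
        · rw [card_sdiff_of_subset h3, h2, hs]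
      simpa [mem_powersetCard] using this
    · intro K hK K' hK' h
      obtain ⟨_, _, h3⟩ := hT K hK
      obtain ⟨_, _, h3'⟩ := hT K' hK'
      have h' : K \ S = K' \ S := h
      rw [← sdiff_union_of_subset h3, ← sdiff_union_of_subset h3', h']
  rw [card_powersetCard] at h1
  exact h1.trans (Nat.choose_le_pow _ _)

/-- the missing partners of a vertex -/
private noncomputable def DD (G : SimpleGraph α) {k : ℕ} (A : Fin k → Finset α) (i : Fin k) (x : α) :
    Finset α := rest A i \ nb G x (rest A i)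

/-- `(x, y)` is a missing pair -/
private def Mi (G : SimpleGraph α) {k : ℕ} (A : Fin k → Finset α) (x y : α) : Prop :=
  ∃ i, x ∈ A i ∧ y ∈ DD G A i x

private theorem mem_DD {G : SimpleGraph α} {k : ℕ} {A : Fin k → Finset α} {i : Fin k} {x y : α} :
    y ∈ DD G A i x ↔ (∃ j, j ≠ i ∧ y ∈ A j) ∧ ¬ G.Adj x y := by
  unfold DD
  rw [mem_sdiff, mem_nb, mem_rest]
  constructor
  · rintro ⟨h1, h2⟩
    exact ⟨h1, fun h => h2 ⟨h1, h⟩⟩
  · rintro ⟨h1, h2⟩
    exact ⟨h1, fun h => h2 h.2⟩

private theorem Mi_symm {G : SimpleGraph α} {k : ℕ} {A : Fin k → Finset α} {x y : α}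
    (h : Mi G A x y) : Mi G A y x := by
  obtain ⟨i, hx, hy⟩ := h
  rw [mem_DD] at hy
  obtain ⟨⟨j, hj, hyj⟩, hn⟩ := hy
  exact ⟨j, hyj, mem_DD.2 ⟨⟨i, hj.symm, hx⟩, fun h => hn h.symm⟩⟩

open scoped Classical in
/-- number of sets `K ∈ T` containing `S`, `y` and some `x ∈ X` with `(x, y)` missing -/
private theorem bad_count (G : SimpleGraph α) {k : ℕ} (A : Fin k → Finset α)
    (hd : ∀ i j, i ≠ j → Disjoint (A i) (A j)) (d : ℝ)
    (hms : ∀ i, ∀ v ∈ A i, ((DD G A i v).card : ℝ) ≤ d) (t s : ℕ)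
    (S X : Finset α) (hX : X ⊆ tot A)
    (hs : ∀ x ∈ X, ∀ y, Mi G A x y → y ∉ S → (insert y (insert x S)).card = s)
    (T : Finset (Finset α))
    (hT : ∀ K ∈ T, K ⊆ tot A ∧ K.card = t ∧ S ⊆ K ∧ ∃ x ∈ X, x ∈ K ∧ ∃ y ∈ K, y ∉ S ∧ Mi G A x y) :
    (T.card : ℝ) ≤ X.card * d * ((tot A).card : ℝ) ^ (t - s) := by
  have hsub : T ⊆ X.biUnion (fun x => ((tot A).filter (fun y => Mi G A x y ∧ y ∉ S)).biUnion
      (fun y => T.filter (fun K => insert y (insert x S) ⊆ K))) := by
    intro K hK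
    obtain ⟨h1, h2, h3, x, hx, hxK, y, hyK, hyS, hm⟩ := hT K hK
    simp only [mem_biUnion, mem_filter]
    refine ⟨x, hx, y, ⟨h1 hyK, hm, hyS⟩, hK, ?_⟩
    intro z hz
    simp only [mem_insert] at hz
    rcases hz with rfl | rfl | hz
    · exact hyK
    · exact hxK
    · exact h3 hz
  have h1 : (T.card : ℝ) ≤ ∑ x ∈ X, ∑ y ∈ (tot A).filter (fun y => Mi G A x y ∧ y ∉ S),
      ((T.filter (fun K => insert y (insert x S) ⊆ K)).card : ℝ) := by
    have := card_le_card hsub
    have h2 := this.trans card_biUnion_le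
    have h3 : ∑ x ∈ X, (((tot A).filter (fun y => Mi G A x y ∧ y ∉ S)).biUnion
      (fun y => T.filter (fun K => insert y (insert x S) ⊆ K))).card ≤
      ∑ x ∈ X, ∑ y ∈ (tot A).filter (fun y => Mi G A x y ∧ y ∉ S),
      (T.filter (fun K => insert y (insert x S) ⊆ K)).card :=
      sum_le_sum (fun x _ => card_biUnion_le)
    exact_mod_cast h2.trans h3
  refine h1.trans ?_
  have h4 : ∀ x ∈ X, ∑ y ∈ (tot A).filter (fun y => Mi G A x y ∧ y ∉ S),
      ((T.filter (fun K => insert y (insert x S) ⊆ K)).card : ℝ) ≤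
      d * ((tot A).card : ℝ) ^ (t - s) := by
    intro x hx
    have h5 : ∀ y ∈ (tot A).filter (fun y => Mi G A x y ∧ y ∉ S),
      ((T.filter (fun K => insert y (insert x S) ⊆ K)).card : ℝ) ≤ ((tot A).card : ℝ) ^ (t - s) := by
      intro y hy
      rw [mem_filter] at hy
      have := card_supersets (tot A) (insert y (insert x S)) t s (hs x hx y hy.2.1 hy.2.2)
        (T.filter (fun K => insert y (insert x S) ⊆ K)) (by
          intro K hK
          rw [mem_filter] at hK
          exact ⟨(hT K hK.1).1, (hT K hK.1).2.1, hK.2⟩)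
      exact_mod_cast this
    refine (sum_le_card_nsmul _ _ _ h5).trans ?_
    rw [nsmul_eq_mul]
    refine mul_le_mul_of_nonneg_right ?_ (by positivity)
    obtain ⟨i, hi⟩ := (mem_tot A).1 (hX hx)
    refine le_trans ?_ (hms i x hi)
    have : (tot A).filter (fun y => Mi G A x y ∧ y ∉ S) ⊆ DD G A i x := by
      intro y hy
      rw [mem_filter] at hy
      obtain ⟨j, hj, hyj⟩ := hy.2.1
      have : j = i := by
        by_contra hne
        exact (disjoint_left.1 (hd j i hne)) hj hi
      rw [← this]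
      exact hyj
    exact_mod_cast card_le_card this
  refine (sum_le_card_nsmul _ _ _ h4).trans ?_
  rw [nsmul_eq_mul]
  apply le_of_eq
  ring

open scoped Classical in
/-- transversal sets for which `{u, v}` is the only missing pair -/
private noncomputable def WW (G : SimpleGraph α) {k : ℕ} (A : Fin k → Finset α) (t : ℕ) (u v : α) :
    Finset (Finset α) :=
  (tr A t).filter (fun K => u ∈ K ∧ v ∈ K ∧ ∀ x ∈ K, ∀ y ∈ K, Mi G A x y →
    (x = u ∧ y = v) ∨ (x = v ∧ y = u))

open scoped Classical in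
private theorem WW_lower (G : SimpleGraph α) {k : ℕ} (A : Fin k → Finset α)
    (hd : ∀ i j, i ≠ j → Disjoint (A i) (A j)) (d : ℝ) (hd0 : 0 ≤ d)
    (hms : ∀ i, ∀ v ∈ A i, ((DD G A i v).card : ℝ) ≤ d) (t : ℕ) (ht : 4 ≤ t)
    (l : ℝ) (hl : 0 ≤ l) (hA : ∀ i, l ≤ ((A i).card : ℝ)) {i : Fin k} {u v : α}
    (hu : u ∈ A i) (hv : v ∈ DD G A i u) :
    ((k - 2).choose (t - 2) : ℝ) * l ^ (t - 2) - 3 * d * ((tot A).card : ℝ) ^ (t - 3) ≤
      ((WW G A t u v).card : ℝ) := by
  have hv' := mem_DD.1 hv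
  obtain ⟨⟨j, hji, hvj⟩, hnadj⟩ := hv'
  have h0 := tr_two A hd t (by omega) l hl hA hji.symm hu hvj
  have huv : u ≠ v := by
    rintro rfl
    exact (disjoint_left.1 (hd j i hji)) hvj hu
  have huT : u ∈ tot A := (mem_tot A).2 ⟨i, hu⟩
  have hvT : v ∈ tot A := (mem_tot A).2 ⟨j, hvj⟩
  have hMne : ∀ x y, Mi G A x y → x ≠ y := by
    rintro x y ⟨a, hxa, hya⟩ rfl
    obtain ⟨⟨b, hb, hxb⟩, _⟩ := mem_DD.1 hya
    exact (disjoint_left.1 (hd b a hb)) hxb hxa
  -- the bad sets
  set F : Finset (Finset α) := (tr A t).filter (fun K => u ∈ K ∧ v ∈ K) with hF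
  set B1 : Finset (Finset α) := F.filter (fun K => ∃ x ∈ ({u, v} : Finset α), x ∈ K ∧
    ∃ y ∈ K, y ∉ ({u, v} : Finset α) ∧ Mi G A x y) with hB1
  set B2 : Finset (Finset α) := F.filter (fun K => ∃ x ∈ tot A \ ({u, v} : Finset α), x ∈ K ∧
    ∃ y ∈ K, y ∉ ({u, v} : Finset α) ∧ Mi G A x y) with hB2
  have hcov : F ⊆ WW G A t u v ∪ (B1 ∪ B2) := by
    intro K hK
    rw [hF, mem_filter] at hK
    by_cases hW : K ∈ WW G A t u v
    · exact mem_union_left _ hW
    · apply mem_union_right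
      have hKT : K ⊆ tot A := by
        have := hK.1
        unfold tr at this
        rw [mem_filter, mem_powersetCard] at this
        exact this.1.1
      have : ∃ x ∈ K, ∃ y ∈ K, y ∉ ({u, v} : Finset α) ∧ Mi G A x y := by
        by_contra hcon
        push Not at hcon
        apply hW
        unfold WW
        rw [mem_filter]
        refine ⟨hK.1, hK.2.1, hK.2.2, ?_⟩
        intro x hx y hy hm
        have hy' : y ∈ ({u, v} : Finset α) := by
          by_contra h
          exact hcon x hx y hy h hm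
        have hx' : x ∈ ({u, v} : Finset α) := by
          by_contra h
          exact hcon y hy x hx h (Mi_symm hm)
        have hne := hMne x y hm
        simp only [mem_insert, mem_singleton] at hx' hy'
        rcases hx' with rfl | rfl <;> rcases hy' with rfl | rfl
        · exact absurd rfl hne
        · left; exact ⟨rfl, rfl⟩
        · right; exact ⟨rfl, rfl⟩
        · exact absurd rfl hne
      obtain ⟨x, hx, y, hy, hyn, hm⟩ := this
      by_cases hxs : x ∈ ({u, v} : Finset α)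
      · apply mem_union_left
        rw [hB1, mem_filter, hF, mem_filter]
        exact ⟨hK, x, hxs, hx, y, hy, hyn, hm⟩
      · apply mem_union_right
        rw [hB2, mem_filter, hF, mem_filter]
        exact ⟨hK, x, mem_sdiff.2 ⟨hKT hx, hxs⟩, hx, y, hy, hyn, hm⟩
  have hKt : ∀ K ∈ F, K ⊆ tot A ∧ K.card = t ∧ ({u, v} : Finset α) ⊆ K := by
    intro K hK
    rw [hF, mem_filter] at hK
    have := hK.1
    unfold tr at this
    rw [mem_filter, mem_powersetCard] at this
    refine ⟨this.1.1, this.1.2, ?_⟩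
    intro z hz
    simp only [mem_insert, mem_singleton] at hz
    rcases hz with rfl | rfl
    · exact hK.2.1
    · exact hK.2.2
  have hb1 : (B1.card : ℝ) ≤ 2 * d * ((tot A).card : ℝ) ^ (t - 3) := by
    have := bad_count G A hd d hms t 3 {u, v} {u, v} (by
      intro z hz
      simp only [mem_insert, mem_singleton] at hz
      rcases hz with rfl | rfl
      · exact huT
      · exact hvT) (by
      intro x hx y hm hy
      rw [insert_eq_of_mem hx, card_insert_of_notMem hy, card_pair huv]) B1 (by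
      intro K hK
      rw [hB1, mem_filter] at hK
      exact ⟨(hKt K hK.1).1, (hKt K hK.1).2.1, (hKt K hK.1).2.2, hK.2⟩)
    rw [card_pair huv] at this
    exact_mod_cast this
  have hb2 : (B2.card : ℝ) ≤ d * ((tot A).card : ℝ) ^ (t - 3) := by
    have := bad_count G A hd d hms t 4 {u, v} (tot A \ {u, v}) sdiff_subset (by
      intro x hx y hm hy
      rw [mem_sdiff] at hx
      have hyx : y ∉ insert x ({u, v} : Finset α) := by
        intro h
        rw [mem_insert] at h
        rcases h with h | h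
        · exact hMne x y hm h.symm
        · exact hy h
      rw [card_insert_of_notMem hyx, card_insert_of_notMem hx.2, card_pair huv]) B2 (by
      intro K hK
      rw [hB2, mem_filter] at hK
      exact ⟨(hKt K hK.1).1, (hKt K hK.1).2.1, (hKt K hK.1).2.2, hK.2⟩)
    refine this.trans ?_
    have h6 : ((tot A \ {u, v}).card : ℝ) ≤ ((tot A).card : ℝ) := by
      exact_mod_cast card_le_card sdiff_subset
    have h7 : t - 3 = (t - 4) + 1 := by omega
    rw [h7, pow_succ]
    have : (0:ℝ) ≤ ((tot A).card : ℝ) ^ (t - 4) := by positivity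
    calc ((tot A \ {u, v}).card : ℝ) * d * ((tot A).card : ℝ) ^ (t - 4)
        ≤ ((tot A).card : ℝ) * d * ((tot A).card : ℝ) ^ (t - 4) := by
          gcongr
      _ = d * (((tot A).card : ℝ) ^ (t - 4) * ((tot A).card : ℝ)) := by ring
  have hc : (F.card : ℝ) ≤ ((WW G A t u v).card : ℝ) + (B1.card + B2.card) := by
    have := (card_le_card hcov).trans (card_union_le _ _)
    have h8 := card_union_le B1 B2
    have h9 : F.card ≤ (WW G A t u v).card + (B1.card + B2.card) := by omega
    exact_mod_cast h9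
  have h0' : ((k - 2).choose (t - 2) : ℝ) * l ^ (t - 2) ≤ (F.card : ℝ) := by
    convert h0
  linarith

open scoped Classical in
private theorem main_count (G : SimpleGraph α) {k : ℕ} (A : Fin k → Finset α)
    (hd : ∀ i j, i ≠ j → Disjoint (A i) (A j))
    (hind : ∀ i, ∀ u ∈ A i, ∀ v ∈ A i, ¬ G.Adj u v) (t : ℕ) (c : ℝ)
    (hW : ∀ i, ∀ u ∈ A i, ∀ v ∈ DD G A i u, c ≤ ((WW G A t u v).card : ℝ)) :
    (kq G t (tot A) : ℝ) ≤ es t (fun i => ((A i).card : ℝ)) -
      c / 2 * ∑ i, ∑ v ∈ A i, ((DD G A i v).card : ℝ) := by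
  have hMne : ∀ x y, Mi G A x y → x ≠ y := by
    rintro x y ⟨a, hxa, hya⟩ rfl
    obtain ⟨⟨b, hb, hxb⟩, _⟩ := mem_DD.1 hya
    exact (disjoint_left.1 (hd b a hb)) hxb hxa
  set Q : Finset (Σ _ : Fin k, Σ _ : α, α) :=
    (univ : Finset (Fin k)).sigma (fun i => (A i).sigma (fun u => DD G A i u)) with hQ
  have hQc : (Q.card : ℝ) = ∑ i, ∑ v ∈ A i, ((DD G A i v).card : ℝ) := by
    rw [hQ, card_sigma]
    push_cast
    apply sum_congr rfl
    intro i _
    rw [card_sigma]
    push_cast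
    rfl
  have hsub : cq G t (tot A) ⊆ tr A t := by
    intro K hK
    rw [mem_cq] at hK
    unfold tr
    rw [mem_filter, mem_powersetCard]
    refine ⟨⟨hK.1, hK.2.1⟩, ?_⟩
    intro i
    rw [card_le_one]
    intro a ha b hb
    rw [mem_inter] at ha hb
    by_contra hne
    exact hind i a ha.2 b hb.2 (hK.2.2 (by simpa using ha.1) (by simpa using hb.1) hne)
  have h1 : c * (Q.card : ℝ) ≤ ∑ q ∈ Q, ((WW G A t q.2.1 q.2.2).card : ℝ) := by
    have : ∀ q ∈ Q, c ≤ ((WW G A t q.2.1 q.2.2).card : ℝ) := by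
      rintro ⟨i, u, v⟩ hq
      rw [hQ, mem_sigma, mem_sigma] at hq
      exact hW i u hq.2.1 v hq.2.2
    have := card_nsmul_le_sum Q _ c this
    rw [nsmul_eq_mul] at this
    linarith
  have h2 : ∑ q ∈ Q, (WW G A t q.2.1 q.2.2).card =
      ∑ K ∈ tr A t, (Q.filter (fun q => K ∈ WW G A t q.2.1 q.2.2)).card := by
    have : ∀ q ∈ Q, (WW G A t q.2.1 q.2.2).card =
        ((tr A t).filter (fun K => K ∈ WW G A t q.2.1 q.2.2)).card := by
      intro q _
      congr 1
      ext K
      rw [mem_filter]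
      constructor
      · intro h
        refine ⟨?_, h⟩
        unfold WW at h
        exact (mem_filter.1 h).1
      · intro h
        exact h.2
    rw [sum_congr rfl this]
    simp only [card_filter]
    exact sum_comm
  have h3 : ∀ K ∈ tr A t, (Q.filter (fun q => K ∈ WW G A t q.2.1 q.2.2)).card ≤
      if K ∈ cq G t (tot A) then 0 else 2 := by
    intro K hK
    rcases (Q.filter (fun q => K ∈ WW G A t q.2.1 q.2.2)).eq_empty_or_nonempty with he | ⟨q0, hq0⟩
    · rw [he, card_empty]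
      exact Nat.zero_le _
    · obtain ⟨i0, a, b⟩ := q0
      rw [mem_filter, hQ, mem_sigma, mem_sigma] at hq0
      obtain ⟨⟨_, ha, hb⟩, hKW⟩ := hq0
      simp only at ha hb hKW
      have hKW' := hKW
      unfold WW at hKW'
      rw [mem_filter] at hKW'
      obtain ⟨_, haK, hbK, huniq⟩ := hKW'
      have hmab : Mi G A a b := ⟨i0, ha, hb⟩
      have hnc : K ∉ cq G t (tot A) := by
        intro hc
        rw [mem_cq] at hc
        exact (mem_DD.1 hb).2 (hc.2.2 (by simpa using haK) (by simpa using hbK) (hMne a b hmab))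
      rw [if_neg hnc]
      have h5 : (Q.filter (fun q => K ∈ WW G A t q.2.1 q.2.2)).card ≤ ({a, b} : Finset α).card := by
        apply card_le_card_of_injOn (fun q => q.2.1)
        · rintro ⟨i, u, v⟩ hq
          rw [mem_coe, mem_filter, hQ, mem_sigma, mem_sigma] at hq
          obtain ⟨⟨_, hu, hv⟩, hKW2⟩ := hq
          simp only at hu hv hKW2
          unfold WW at hKW2
          rw [mem_filter] at hKW2
          rcases huniq u hKW2.2.1 v hKW2.2.2.1 ⟨i, hu, hv⟩ with h | h
          · simp [h.1]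
          · simp [h.1]
        · rintro ⟨i, u, v⟩ hq ⟨i', u', v'⟩ hq' heq
          rw [mem_coe, mem_filter, hQ, mem_sigma, mem_sigma] at hq hq'
          obtain ⟨⟨_, hu, hv⟩, hKW2⟩ := hq
          obtain ⟨⟨_, hu', hv'⟩, hKW2'⟩ := hq'
          simp only at hu hv hKW2 hu' hv' hKW2' heq
          subst heq
          unfold WW at hKW2 hKW2'
          rw [mem_filter] at hKW2 hKW2'
          have hii : i = i' := by
            by_contra hne
            exact (disjoint_left.1 (hd i i' hne)) hu hu'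
          subst hii
          have hvv : v = v' := by
            have hab := hMne a b hmab
            rcases huniq u hKW2.2.1 v hKW2.2.2.1 ⟨i, hu, hv⟩ with h | h <;>
            rcases huniq u hKW2'.2.1 v' hKW2'.2.2.1 ⟨i, hu', hv'⟩ with h' | h'
            · rw [h.2, h'.2]
            · exact absurd (h.1.symm.trans h'.1) hab
            · exact absurd (h'.1.symm.trans h.1) hab
            · rw [h.2, h'.2]
          subst hvv
          rfl
      exact h5.trans card_le_two
  have h4 : ∑ K ∈ tr A t, (if K ∈ cq G t (tot A) then 0 else 2) =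
      2 * ((tr A t).card - (cq G t (tot A)).card) := by
    have : ∀ K ∈ tr A t, (if K ∈ cq G t (tot A) then 0 else 2) =
        2 * (if K ∈ cq G t (tot A) then 0 else 1) := by
      intro K _
      split_ifs <;> rfl
    rw [sum_congr rfl this, ← mul_sum]
    congr 1
    rw [← card_sdiff_of_subset hsub, card_eq_sum_ones, sum_ite, sum_const_zero, zero_add]
    apply sum_congr _ (fun _ _ => rfl)
    ext K
    rw [mem_filter, mem_sdiff]
  have h5 : ∑ q ∈ Q, (WW G A t q.2.1 q.2.2).card ≤ 2 * ((tr A t).card - (cq G t (tot A)).card) := by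
    rw [h2, ← h4]
    exact sum_le_sum h3
  have h6 : (cq G t (tot A)).card ≤ (tr A t).card := card_le_card hsub
  have h7 : (∑ q ∈ Q, ((WW G A t q.2.1 q.2.2).card : ℝ)) ≤
      2 * (((tr A t).card : ℝ) - ((cq G t (tot A)).card : ℝ)) := by
    have : ((∑ q ∈ Q, (WW G A t q.2.1 q.2.2).card : ℕ) : ℝ) ≤
      ((2 * ((tr A t).card - (cq G t (tot A)).card) : ℕ) : ℝ) := by exact_mod_cast h5
    push_cast [Nat.cast_sub h6] at this
    exact this
  rw [tr_card A hd t] at h7
  rw [← hQc]
  unfold kq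
  linarith

end aux

theorem hcnt (R r t : ℕ) (hR : 4 ≤ R) (ht : 4 ≤ t) (htR : t ≤ R + 1) : ∃ C : ℝ, 0 < C ∧
    ∀ (m : ℕ) (γ η : ℝ), Par R r m γ η →
      ∀ (α : Type) [Fintype α] [DecidableEq α] (G : SimpleGraph α), Ctx G R r m →
        ∀ V : Fin (R + 1) → Finset α, Core G R m η V →
          (kq G t (hull G m γ V) : ℝ) ≤ es t (fun i => ((hpt G m γ V i).card : ℝ)) -
            (KK R t / 2 - C * γ) * (m : ℝ) ^ (t - 2) *
              ∑ i, ∑ v ∈ hpt G m γ V i, (ms G (hpt G m γ V) i v : ℝ) := by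
  refine ⟨(KK R t * t + 6 * (2 * ((R : ℝ) + 1)) ^ (t - 3)) / 2, ?_, ?_⟩
  · have : 0 ≤ KK R t := by unfold KK; positivity
    positivity
  intro m γ η hp α _ _ G hG V hV
  have hK0 : 0 ≤ KK R t := by unfold KK; positivity
  have hm0 : (0:ℝ) ≤ m := Nat.cast_nonneg m
  have hRr : (4:ℝ) ≤ R := by exact_mod_cast hR
  have hγ := hp.hγ
  have hη := hp.hη
  have hηγ : η ≤ γ := by
    have := hp.hη'
    nlinarith [mul_pos hη hη, mul_nonneg hη.le (by nlinarith : (0:ℝ) ≤ (R:ℝ)^2 - 1)]
  have hγ1 : 4000 * γ ≤ 1 := by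
    have := hp.hγ'
    nlinarith
  have hRη : 5 * R * η ≤ 1 := by
    have h1 := hp.hη'
    nlinarith [mul_nonneg hη.le (by nlinarith : (0:ℝ) ≤ (R:ℝ)^2 - R)]
  have hd := hpt_disj G hp hG hV
  have hsz := hpt_size G hp hG hV
  have hmsb := hpt_ms G hp hG hV
  set A := hpt G m γ V with hA
  have htot : ((tot A).card : ℝ) ≤ 2 * (R + 1) * m := by
    rw [tot_card A hd]
    push_cast
    have : ∀ i ∈ (univ : Finset (Fin (R + 1))), ((A i).card : ℝ) ≤ 2 * m := by
      intro i _
      have := (hsz i).2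
      nlinarith
    refine (sum_le_card_nsmul _ _ _ this).trans ?_
    rw [nsmul_eq_mul, card_univ, Fintype.card_fin]
    push_cast
    linarith
  have hW : ∀ i, ∀ u ∈ A i, ∀ v ∈ DD G A i u,
      (KK R t - (KK R t * t + 6 * (2 * ((R : ℝ) + 1)) ^ (t - 3)) * γ) * (m : ℝ) ^ (t - 2) ≤
        ((WW G A t u v).card : ℝ) := by
    intro i u hu v hv
    have h1 := WW_lower G A hd (2 * γ * m) (by positivity) (fun i v hv => hmsb i v hv) t ht
      ((1 - η) * m) (by nlinarith) (fun i => (hsz i).1) hu hv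
    refine le_trans ?_ h1
    have h2 : ((tot A).card : ℝ) ^ (t - 3) ≤ (2 * (R + 1) * m) ^ (t - 3) :=
      pow_le_pow_left₀ (by positivity) htot _
    have h3 : (m : ℝ) ^ (t - 2) = (m : ℝ) ^ (t - 3) * m := by
      rw [← pow_succ]; congr 1; omega
    have h4 : 1 - (t : ℝ) * γ ≤ (1 - η) ^ (t - 2) := by
      have := one_add_mul_le_pow (show (-2 : ℝ) ≤ -η by nlinarith) (t - 2)
      have h5 : (((t - 2 : ℕ) : ℝ)) * η ≤ t * γ := by
        have : ((t - 2 : ℕ) : ℝ) ≤ t := by exact_mod_cast Nat.sub_le t 2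
        nlinarith [Nat.cast_nonneg (α := ℝ) (t - 2)]
      calc 1 - (t : ℝ) * γ ≤ 1 + ((t - 2 : ℕ) : ℝ) * (-η) := by linarith
        _ ≤ (1 + -η) ^ (t - 2) := this
        _ = (1 - η) ^ (t - 2) := by ring_nf
    have h6 : ((R + 1 - 2).choose (t - 2) : ℝ) = KK R t := by
      unfold KK
      congr 2
    rw [h6, mul_pow (1 - η) (m : ℝ) (t - 2)]
    have h7 : 3 * (2 * γ * m) * ((tot A).card : ℝ) ^ (t - 3) ≤
        6 * (2 * ((R : ℝ) + 1)) ^ (t - 3) * γ * (m : ℝ) ^ (t - 2) := by
      calc 3 * (2 * γ * m) * ((tot A).card : ℝ) ^ (t - 3)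
          ≤ 3 * (2 * γ * m) * (2 * (R + 1) * m) ^ (t - 3) := by gcongr
        _ = 6 * (2 * ((R : ℝ) + 1)) ^ (t - 3) * γ * (m : ℝ) ^ (t - 2) := by
          rw [h3, mul_pow (2 * ((R : ℝ) + 1)) (m : ℝ)]
          ring
    have h8 : (KK R t - KK R t * t * γ) * (m : ℝ) ^ (t - 2) ≤
        KK R t * ((1 - η) ^ (t - 2) * (m : ℝ) ^ (t - 2)) := by
      have : KK R t * (1 - t * γ) ≤ KK R t * (1 - η) ^ (t - 2) :=
        mul_le_mul_of_nonneg_left h4 hK0
      have h9 : (0:ℝ) ≤ (m : ℝ) ^ (t - 2) := by positivity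
      nlinarith
    linarith
  have hmain := main_count G A hd (fun i u hu v hv => hpt_indep G hp hG hV i u v hu hv) t _ hW
  have hh : hull G m γ V = tot A := rfl
  rw [hh]
  refine hmain.trans (le_of_eq ?_)
  have : ∀ i, ∀ v, ((DD G A i v).card : ℝ) = (ms G A i v : ℝ) := fun i v => rfl
  simp only [this]
  ring

end Pool.Agent.H45.KTD
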