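import Pool.Agent.H45.KTD.Bas

/-!
# KTD Tra: transversal sets

`A : Fin k → Finset α` disjoint sets.  `tr A t`: the `t`-element subsets of `tot A` with at most one element in each
`A i`.  Such a set is the same as a set `I` of `t` indices together with an element of `∏_{i ∈ I} A i`, so
`|tr A t| = es t (|A i|)`.
`tr_two`: for `i ≠ j`, `u ∈ A i`, `v ∈ A j` the number of sets in `tr A t` which contain `u` and `v` is at least
`C(k - 2, t - 2) l ^ (t - 2)` if `l ≤ |A h|` for all `h` (choose `t - 2` of the other `k - 2` indices and one element in each).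
-/

set_option autoImplicit false

open Finset

namespace Pool.Agent.H45.KTD

open Pool.Agent.H11.TD

variable {α : Type} [Fintype α] [DecidableEq α]

/-- transversal sets -/
def tr {k : ℕ} (A : Fin k → Finset α) (t : ℕ) : Finset (Finset α) :=
  ((tot A).powersetCard t).filter (fun K => ∀ i, (K ∩ A i).card ≤ 1)

omit [Fintype α] in
private lemma mem_tot' {k : ℕ} {A : Fin k → Finset α} {x : α} : x ∈ tot A ↔ ∃ i, x ∈ A i := by
  simp [tot]

omit [Fintype α] in
private lemma mem_tr' {k : ℕ} {A : Fin k → Finset α} {t : ℕ} {K : Finset α} :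
    K ∈ tr A t ↔ K ⊆ tot A ∧ K.card = t ∧ ∀ i, (K ∩ A i).card ≤ 1 := by
  simp [tr, Finset.mem_powersetCard, and_assoc]

/-- the set of the indices used by `K` -/
private def ix {k : ℕ} (A : Fin k → Finset α) (K : Finset α) : Finset (Fin k) :=
  (univ : Finset (Fin k)).filter (fun i => (K ∩ A i).Nonempty)

omit [Fintype α] in
private lemma mem_ix {k : ℕ} {A : Fin k → Finset α} {K : Finset α} {i : Fin k} :
    i ∈ ix A K ↔ ∃ x ∈ K, x ∈ A i := by
  simp [ix, Finset.Nonempty]

omit [Fintype α] in
private lemma tr_uniq {k : ℕ} {A : Fin k → Finset α} {t : ℕ} {K : Finset α} (h : K ∈ tr A t)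
    {i : Fin k} {x y : α} (hx : x ∈ K) (hxi : x ∈ A i) (hy : y ∈ K) (hyi : y ∈ A i) : x = y := by
  have h1 := (mem_tr'.1 h).2.2 i
  rw [Finset.card_le_one] at h1
  exact h1 x (Finset.mem_inter.2 ⟨hx, hxi⟩) y (Finset.mem_inter.2 ⟨hy, hyi⟩)

omit [Fintype α] in
private lemma dj_eq {k : ℕ} {A : Fin k → Finset α} (hd : ∀ i j, i ≠ j → Disjoint (A i) (A j))
    {i j : Fin k} {x : α} (hi : x ∈ A i) (hj : x ∈ A j) : i = j := by
  by_contra h
  exact (Finset.disjoint_left.1 (hd i j h)) hi hj

omit [Fintype α] in
private lemma ix_card {k : ℕ} {A : Fin k → Finset α} (hd : ∀ i j, i ≠ j → Disjoint (A i) (A j))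
    {t : ℕ} {K : Finset α} (h : K ∈ tr A t) : (ix A K).card = t := by
  classical
  have hK := mem_tr'.1 h
  have h1 : ∀ x ∈ K, ∃ i, x ∈ A i := fun x hx => mem_tot'.1 (hK.1 hx)
  choose g hg using h1
  rw [← hK.2.1]
  symm
  refine Finset.card_bij (fun x hx => g x hx) ?_ ?_ ?_
  · intro x hx
    exact mem_ix.2 ⟨x, hx, hg x hx⟩
  · intro x hx y hy hxy
    refine tr_uniq h hx (hg x hx) hy ?_
    have : g x hx = g y hy := hxy
    rw [this]
    exact hg y hy
  · intro i hi
    obtain ⟨x, hx, hxi⟩ := mem_ix.1 hi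
    exact ⟨x, hx, dj_eq hd (hg x hx) hxi⟩

omit [Fintype α] in
private lemma fib_card {k : ℕ} {A : Fin k → Finset α} (hd : ∀ i j, i ≠ j → Disjoint (A i) (A j))
    {t : ℕ} {I : Finset (Fin k)} (hI : I.card = t) :
    ((tr A t).filter (fun K => ix A K = I)).card = ∏ i ∈ I, (A i).card := by
  classical
  rw [← Finset.card_pi]
  symm
  refine Finset.card_bij (fun f _ => I.attach.image (fun i => f i.1 i.2)) ?_ ?_ ?_
  · intro f hf
    rw [Finset.mem_pi] at hf
    rw [Finset.mem_filter]
    have hinj : Function.Injective (fun i : {x // x ∈ I} => f i.1 i.2) := by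
      intro i j hij
      have h1 : f i.1 i.2 = f j.1 j.2 := hij
      have h2 := hf i.1 i.2
      rw [h1] at h2
      exact Subtype.ext (dj_eq hd h2 (hf j.1 j.2))
    refine ⟨mem_tr'.2 ⟨?_, ?_, ?_⟩, ?_⟩
    · intro x hx
      simp only [Finset.mem_image, Finset.mem_attach, true_and] at hx
      obtain ⟨i, rfl⟩ := hx
      exact mem_tot'.2 ⟨i.1, hf i.1 i.2⟩
    · rw [Finset.card_image_of_injective _ hinj, Finset.card_attach, hI]
    · intro i
      rw [Finset.card_le_one]
      intro x hx y hy
      simp only [Finset.mem_inter, Finset.mem_image, Finset.mem_attach, true_and] at hx hy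
      obtain ⟨⟨a, rfl⟩, hxi⟩ := hx
      obtain ⟨⟨b, rfl⟩, hyi⟩ := hy
      have h1 := dj_eq hd hxi (hf a.1 a.2)
      have h2 := dj_eq hd hyi (hf b.1 b.2)
      have h3 : a = b := Subtype.ext (h1.symm.trans h2)
      rw [h3]
    · ext i
      rw [mem_ix]
      constructor
      · rintro ⟨x, hx, hxi⟩
        simp only [Finset.mem_image, Finset.mem_attach, true_and] at hx
        obtain ⟨a, rfl⟩ := hx
        rw [dj_eq hd hxi (hf a.1 a.2)]
        exact a.2
      · intro hi
        exact ⟨f i hi, Finset.mem_image.2 ⟨⟨i, hi⟩, Finset.mem_attach _ _, rfl⟩, hf i hi⟩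
  · intro f hf g hg hfg
    rw [Finset.mem_pi] at hf hg
    funext i hi
    have h1 : f i hi ∈ I.attach.image (fun i => g i.1 i.2) := by
      have h2 : f i hi ∈ I.attach.image (fun i => f i.1 i.2) :=
        Finset.mem_image.2 ⟨⟨i, hi⟩, Finset.mem_attach _ _, rfl⟩
      have h3 : I.attach.image (fun i => f i.1 i.2) = I.attach.image (fun i => g i.1 i.2) := hfg
      rw [← h3]
      exact h2
    simp only [Finset.mem_image, Finset.mem_attach, true_and] at h1
    obtain ⟨a, ha⟩ := h1
    have h4 : a.1 = i := by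
      refine dj_eq hd (hg a.1 a.2) ?_
      rw [ha]
      exact hf i hi
    subst h4
    exact ha.symm
  · intro K hK
    rw [Finset.mem_filter] at hK
    obtain ⟨hK1, hK2⟩ := hK
    have h1 : ∀ i, i ∈ I → ∃ x, x ∈ K ∧ x ∈ A i := by
      intro i hi
      rw [← hK2] at hi
      obtain ⟨x, hx, hxi⟩ := mem_ix.1 hi
      exact ⟨x, hx, hxi⟩
    choose f hf using h1
    refine ⟨f, Finset.mem_pi.2 (fun i hi => (hf i hi).2), ?_⟩
    show I.attach.image (fun i => f i.1 i.2) = K
    ext x
    simp only [Finset.mem_image, Finset.mem_attach, true_and]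
    constructor
    · rintro ⟨a, rfl⟩
      exact (hf a.1 a.2).1
    · intro hx
      obtain ⟨i, hi⟩ := mem_tot'.1 ((mem_tr'.1 hK1).1 hx)
      have h2 : i ∈ I := by
        rw [← hK2]
        exact mem_ix.2 ⟨x, hx, hi⟩
      exact ⟨⟨i, h2⟩, tr_uniq hK1 (hf i h2).1 (hf i h2).2 hx hi⟩

omit [Fintype α] in
private lemma tr_card' {k : ℕ} (A : Fin k → Finset α) (hd : ∀ i j, i ≠ j → Disjoint (A i) (A j))
    (t : ℕ) : (tr A t).card =
      ∑ I ∈ (univ : Finset (Fin k)).powersetCard t, ∏ i ∈ I, (A i).card := by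
  classical
  rw [Finset.card_eq_sum_card_fiberwise (f := ix A)
    (t := (univ : Finset (Fin k)).powersetCard t)]
  · refine Finset.sum_congr rfl fun I hI => ?_
    exact fib_card hd (Finset.mem_powersetCard.1 hI).2
  · intro K hK
    simp only [Finset.mem_coe] at hK ⊢
    exact Finset.mem_powersetCard.2 ⟨Finset.subset_univ _, ix_card hd hK⟩

theorem tr_card {k : ℕ} (A : Fin k → Finset α) (hd : ∀ i j, i ≠ j → Disjoint (A i) (A j)) (t : ℕ) :
    ((tr A t).card : ℝ) = es t (fun i => ((A i).card : ℝ)) := by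
  rw [tr_card' A hd t, es]
  push_cast
  rfl

theorem tr_two {k : ℕ} (A : Fin k → Finset α) (hd : ∀ i j, i ≠ j → Disjoint (A i) (A j)) (t : ℕ)
    (ht : 2 ≤ t) (l : ℝ) (hl : 0 ≤ l) (hA : ∀ i, l ≤ ((A i).card : ℝ)) {i j : Fin k} (hij : i ≠ j)
    {u v : α} (hu : u ∈ A i) (hv : v ∈ A j) :
    ((k - 2).choose (t - 2) : ℝ) * l ^ (t - 2) ≤
      (((tr A t).filter (fun K => u ∈ K ∧ v ∈ K)).card : ℝ) := by
  classical
  let A' : Fin k → Finset α := fun h => if h = i ∨ h = j then ∅ else A h
  have hA'sub : ∀ h, A' h ⊆ A h := by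
    intro h
    by_cases h1 : h = i ∨ h = j
    · simp [A', h1]
    · simp [A', h1]
  have hA'i : ∀ h, (h = i ∨ h = j) → A' h = ∅ := by
    intro h h1
    simp [A', h1]
  have hA'o : ∀ h, ¬ (h = i ∨ h = j) → A' h = A h := by
    intro h h1
    simp [A', h1]
  have hd' : ∀ a b, a ≠ b → Disjoint (A' a) (A' b) := fun a b hab =>
    Finset.disjoint_of_subset_left (hA'sub a) (Finset.disjoint_of_subset_right (hA'sub b) (hd a b hab))
  have huv : u ≠ v := by
    intro h
    rw [← h] at hv
    exact hij (dj_eq hd hu hv)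
  -- members of sets in `tr A' _` are in `A h`, `h ≠ i, j`
  have hnot : ∀ {s : ℕ} {K : Finset α}, K ∈ tr A' s → ∀ {x : α} {h : Fin k}, x ∈ K → x ∈ A h →
      ¬ (h = i ∨ h = j) := by
    intro s K hK x h hx hxh h1
    obtain ⟨b, hb⟩ := mem_tot'.1 ((mem_tr'.1 hK).1 hx)
    have hbh : b = h := dj_eq hd (hA'sub b hb) hxh
    rw [hbh, hA'i h h1] at hb
    exact absurd hb (Finset.notMem_empty _)
  have hcard : (tr A' (t - 2)).card ≤ ((tr A t).filter (fun K => u ∈ K ∧ v ∈ K)).card := by
    refine Finset.card_le_card_of_injOn (fun K => insert u (insert v K)) ?_ ?_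
    · intro K hK
      rw [Finset.mem_coe] at hK
      have huK : u ∉ K := fun h => hnot hK h hu (Or.inl rfl)
      have hvK : v ∉ K := fun h => hnot hK h hv (Or.inr rfl)
      have hK' := mem_tr'.1 hK
      simp only [Finset.coe_filter, Set.mem_setOf_eq]
      refine ⟨mem_tr'.2 ⟨?_, ?_, ?_⟩, Finset.mem_insert_self _ _,
        Finset.mem_insert_of_mem (Finset.mem_insert_self _ _)⟩
      · intro x hx
        rw [Finset.mem_insert, Finset.mem_insert] at hx
        rcases hx with rfl | rfl | hx
        · exact mem_tot'.2 ⟨i, hu⟩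
        · exact mem_tot'.2 ⟨j, hv⟩
        · obtain ⟨b, hb⟩ := mem_tot'.1 (hK'.1 hx)
          exact mem_tot'.2 ⟨b, hA'sub b hb⟩
      · rw [Finset.card_insert_of_notMem, Finset.card_insert_of_notMem hvK, hK'.2.1]
        · omega
        · rw [Finset.mem_insert]
          rintro (h | h)
          · exact huv h
          · exact huK h
      · intro h
        rw [Finset.card_le_one]
        intro x hx y hy
        rw [Finset.mem_inter, Finset.mem_insert, Finset.mem_insert] at hx hy
        obtain ⟨hx, hxh⟩ := hx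
        obtain ⟨hy, hyh⟩ := hy
        by_cases hh : h = i ∨ h = j
        · have hx' : x = u ∨ x = v := by
            rcases hx with hx | hx | hx
            · exact Or.inl hx
            · exact Or.inr hx
            · exact absurd hh (hnot hK hx hxh)
          have hy' : y = u ∨ y = v := by
            rcases hy with hy | hy | hy
            · exact Or.inl hy
            · exact Or.inr hy
            · exact absurd hh (hnot hK hy hyh)
          rcases hx' with rfl | rfl <;> rcases hy' with rfl | rfl
          · rfl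
          · exact absurd ((dj_eq hd hu hxh).trans (dj_eq hd hv hyh).symm) hij
          · exact absurd ((dj_eq hd hu hyh).trans (dj_eq hd hv hxh).symm) hij
          · rfl
        · have hx' : x ∈ K := by
            rcases hx with rfl | rfl | hx
            · exact absurd (Or.inl (dj_eq hd hxh hu)) hh
            · exact absurd (Or.inr (dj_eq hd hxh hv)) hh
            · exact hx
          have hy' : y ∈ K := by
            rcases hy with rfl | rfl | hy
            · exact absurd (Or.inl (dj_eq hd hyh hu)) hh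
            · exact absurd (Or.inr (dj_eq hd hyh hv)) hh
            · exact hy
          refine tr_uniq hK hx' (i := h) ?_ hy' ?_
          · rw [hA'o h hh]; exact hxh
          · rw [hA'o h hh]; exact hyh
    · intro K hK K' hK' h
      rw [Finset.mem_coe] at hK hK'
      have huK : u ∉ K := fun h => hnot hK h hu (Or.inl rfl)
      have hvK : v ∉ K := fun h => hnot hK h hv (Or.inr rfl)
      have huK' : u ∉ K' := fun h => hnot hK' h hu (Or.inl rfl)
      have hvK' : v ∉ K' := fun h => hnot hK' h hv (Or.inr rfl)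
      have h0 : insert u (insert v K) = insert u (insert v K') := h
      have h1 : u ∉ insert v K := by
        rw [Finset.mem_insert]
        rintro (h | h)
        · exact huv h
        · exact huK h
      have h2 : u ∉ insert v K' := by
        rw [Finset.mem_insert]
        rintro (h | h)
        · exact huv h
        · exact huK' h
      rw [← Finset.erase_insert hvK, ← Finset.erase_insert h1, h0, Finset.erase_insert h2,
        Finset.erase_insert hvK']
  have hk2 : ((univ : Finset (Fin k)) \ {i, j}).card = k - 2 := by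
    rw [Finset.card_sdiff_of_subset (Finset.subset_univ _), Finset.card_univ, Fintype.card_fin,
      Finset.card_pair hij]
  have hsum : ((k - 2).choose (t - 2) : ℝ) * l ^ (t - 2) ≤ ((tr A' (t - 2)).card : ℝ) := by
    rw [tr_card A' hd' (t - 2), es]
    calc ((k - 2).choose (t - 2) : ℝ) * l ^ (t - 2)
        = ∑ _S ∈ ((univ : Finset (Fin k)) \ {i, j}).powersetCard (t - 2), l ^ (t - 2) := by
          rw [Finset.sum_const, Finset.card_powersetCard, hk2, nsmul_eq_mul]
      _ ≤ ∑ S ∈ ((univ : Finset (Fin k)) \ {i, j}).powersetCard (t - 2),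
            ∏ h ∈ S, ((A' h).card : ℝ) := by
          refine Finset.sum_le_sum fun S hS => ?_
          rw [Finset.mem_powersetCard] at hS
          rw [← hS.2, ← Finset.prod_const]
          refine Finset.prod_le_prod (fun _ _ => hl) fun h hh => ?_
          have h1 := hS.1 hh
          rw [Finset.mem_sdiff, Finset.mem_insert, Finset.mem_singleton] at h1
          rw [hA'o h h1.2]
          exact hA h
      _ ≤ ∑ S ∈ (univ : Finset (Fin k)).powersetCard (t - 2), ∏ h ∈ S, ((A' h).card : ℝ) := by
          refine Finset.sum_le_sum_of_subset_of_nonneg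
            (Finset.powersetCard_mono (Finset.subset_univ _)) fun S _ _ => ?_
          exact Finset.prod_nonneg fun h _ => Nat.cast_nonneg _
  exact hsum.trans (by exact_mod_cast hcard)

end Pool.Agent.H45.KTD
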