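import Pool.Agent.H45.KTD.MM

/-!
# KTD TurK: Turan's theorem for cliques with linear stability

Induction on `s` with `kq_step` (`C(R, s + 1) (s + 1) = C(R, s) (R - s)`), starting from `kq_one` resp. from `s = 2`.
-/

set_option autoImplicit false

open Finset

namespace Pool.Agent.H45.KTD

open Pool.Agent.H11.TD

variable {α : Type} [Fintype α] [DecidableEq α] (G : SimpleGraph α)

/-- One step of the induction. -/
private theorem TurK_step {R s : ℕ} (hs : 1 ≤ s) (hsR : s + 1 ≤ R) (S : Finset α)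
    (hS : kq G (R + 1) S = 0) (c y : ℝ)
    (h : (kq G s S : ℝ) ≤ (R.choose s : ℝ) * c * y) :
    (kq G (s + 1) S : ℝ) ≤ (R.choose (s + 1) : ℝ) * c * (((S.card : ℝ) / R) * y) := by
  have hR : (0 : ℝ) < R := by
    have : 0 < R := by omega
    exact_mod_cast this
  have hs0 : (0 : ℝ) < (s : ℝ) + 1 := by positivity
  have h1 := kq_step G hs (by omega : s ≤ R) S hS
  have hch : (R.choose (s + 1) : ℝ) * ((s : ℝ) + 1) = (R.choose s : ℝ) * ((R : ℝ) - s) := by
    have h2 := Nat.choose_succ_right_eq R s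
    have h3 : ((R.choose (s + 1) * (s + 1) : ℕ) : ℝ) = ((R.choose s * (R - s) : ℕ) : ℝ) := by
      rw [h2]
    rw [Nat.cast_mul, Nat.cast_mul, Nat.cast_sub (by omega : s ≤ R)] at h3
    push_cast at h3
    exact h3
  have hRs : (0 : ℝ) ≤ (R : ℝ) - s := by
    have : (s : ℝ) ≤ R := by exact_mod_cast (by omega : s ≤ R)
    linarith
  have h4 : ((R : ℝ) - s) * S.card * kq G s S ≤
      ((R : ℝ) - s) * S.card * ((R.choose s : ℝ) * c * y) :=
    mul_le_mul_of_nonneg_left h (mul_nonneg hRs (Nat.cast_nonneg _))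
  have h5 : (R : ℝ) * ((s : ℝ) + 1) * kq G (s + 1) S ≤
      (R : ℝ) * ((s : ℝ) + 1) * ((R.choose (s + 1) : ℝ) * c * (((S.card : ℝ) / R) * y)) := by
    refine (h1.trans h4).trans (le_of_eq ?_)
    have e : (R : ℝ) * ((s : ℝ) + 1) * ((R.choose (s + 1) : ℝ) * c * (((S.card : ℝ) / R) * y)) =
        ((R.choose (s + 1) : ℝ) * ((s : ℝ) + 1)) * c * y * S.card := by
      field_simp
    rw [e, hch]
    ring
  exact le_of_mul_le_mul_left h5 (mul_pos hR hs0)

theorem kq_turan {R s : ℕ} (hs : 1 ≤ s) (hsR : s ≤ R) (S : Finset α) (hS : kq G (R + 1) S = 0) :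
    (kq G s S : ℝ) ≤ (R.choose s : ℝ) * ((S.card : ℝ) / R) ^ s := by
  induction s, hs using Nat.le_induction with
  | base =>
    have hR : (R : ℝ) ≠ 0 := by
      have : R ≠ 0 := by omega
      exact_mod_cast this
    rw [kq_one, Nat.choose_one_right, pow_one]
    apply le_of_eq
    field_simp
  | succ s hs ih =>
    have h1 := TurK_step G hs hsR S hS 1 (((S.card : ℝ) / R) ^ s) (by
      rw [mul_one]
      exact ih (by omega))
    rw [mul_one] at h1
    rw [pow_succ']
    exact h1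

theorem kq_stab {R s : ℕ} (hs : 2 ≤ s) (hsR : s ≤ R) (S : Finset α) (hS : kq G (R + 1) S = 0) :
    (kq G s S : ℝ) ≤ (R.choose s : ℝ) / (R.choose 2 : ℝ) * ((S.card : ℝ) / R) ^ (s - 2) *
      kq G 2 S := by
  induction s, hs using Nat.le_induction with
  | base =>
    have hR : ((R.choose 2 : ℕ) : ℝ) ≠ 0 := by
      have : R.choose 2 ≠ 0 := (Nat.choose_pos (by omega)).ne'
      exact_mod_cast this
    rw [div_self hR, Nat.sub_self, pow_zero, one_mul, one_mul]
  | succ s hs ih =>
    have h1 := TurK_step G (by omega : 1 ≤ s) hsR S hS (1 / (R.choose 2 : ℝ))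
      (((S.card : ℝ) / R) ^ (s - 2) * kq G 2 S) (by
      refine (ih (by omega)).trans (le_of_eq ?_)
      ring)
    refine h1.trans (le_of_eq ?_)
    have e : s + 1 - 2 = (s - 2) + 1 := by omega
    rw [e, pow_succ']
    ring

end Pool.Agent.H45.KTD
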