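import Pool.Agent.H11.TD.HulB
import Pool.Agent.H45.KTD.TurK
import Pool.Agent.H45.KTD.Tra

/-!
# KTD Knb: the cliques in the neighbourhood of a vertex inside a hull

First part: `nb b (hull V) ⊆ NN b`, `kq_cf`, `kq_turan`; `|nb b (hull V)| = ∑ |nb b (hpt V i)|` (`hull V` is the disjoint union of the
`hpt V i`, `hpt_disj`).
Second part: the sets `A i = nb b (hpt V i)` are disjoint and independent (`hpt_indep`), `nb b (hull V) = tot A`, so every `s`-clique
contained in it is an element of `tr A s`; `tr_card`.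
-/

set_option autoImplicit false

open Finset

namespace Pool.Agent.H45.KTD

open Pool.Agent.H11.TD

private theorem knb_tot {α : Type} [Fintype α] [DecidableEq α] (G : SimpleGraph α) {k : ℕ}
    (A : Fin k → Finset α) (b : α) : nb G b (tot A) = tot (fun i => nb G b (A i)) := by
  ext w
  rw [mem_nb, mem_tot, mem_tot]
  constructor
  · rintro ⟨⟨i, h1⟩, h2⟩
    exact ⟨i, (mem_nb G).2 ⟨h1, h2⟩⟩
  · rintro ⟨i, h1⟩
    rw [mem_nb] at h1
    exact ⟨⟨i, h1.1⟩, h1.2⟩

private theorem knb_disj {α : Type} [Fintype α] [DecidableEq α] (G : SimpleGraph α) {k : ℕ}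
    (A : Fin k → Finset α) (hd : ∀ i j, i ≠ j → Disjoint (A i) (A j)) (b : α) (i j : Fin k)
    (hij : i ≠ j) : Disjoint (nb G b (A i)) (nb G b (A j)) := by
  rw [Finset.disjoint_left]
  intro a ha hb
  rw [mem_nb] at ha hb
  exact Finset.disjoint_left.1 (hd i j hij) ha.1 hb.1

theorem nb_hull_card {α : Type} [Fintype α] [DecidableEq α] (G : SimpleGraph α) {R r m : ℕ}
    {γ η : ℝ} {V : Fin (R + 1) → Finset α} (hp : Par R r m γ η) (hG : Ctx G R r m)
    (hV : Core G R m η V) (b : α) : ((nb G b (hull G m γ V)).card : ℝ) =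
      ∑ i, ((nb G b (hpt G m γ V i)).card : ℝ) := by
  unfold hull
  rw [knb_tot, tot_card _ (knb_disj G _ (hpt_disj G hp hG hV) b)]
  push_cast
  rfl

/-- the cliques in the neighbourhood of `b` inside a hull -/
theorem kq_nb_hull {α : Type} [Fintype α] [DecidableEq α] (G : SimpleGraph α) {R r m : ℕ} {γ η : ℝ}
    {V : Fin (R + 1) → Finset α} (hp : Par R r m γ η) (hG : Ctx G R r m) (hV : Core G R m η V)
    (s : ℕ) (hs : 1 ≤ s) (hsR : s ≤ R) (b : α) :
    (kq G s (nb G b (hull G m γ V)) : ℝ) ≤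
        (R.choose s : ℝ) * ((∑ i, ((nb G b (hpt G m γ V i)).card : ℝ)) / R) ^ s ∧
      (kq G s (nb G b (hull G m γ V)) : ℝ) ≤
        es s (fun i => ((nb G b (hpt G m γ V i)).card : ℝ)) := by
  constructor
  · have h1 := kq_turan G hs hsR (nb G b (hull G m γ V)) (kq_cf G hG.cf b _ (by
      intro w hw
      rw [mem_nb] at hw
      rw [mem_NN]
      exact hw.2))
    rwa [nb_hull_card G hp hG hV b] at h1
  · have hd := knb_disj G _ (hpt_disj G hp hG hV) b
    have h1 := tr_card (fun i => nb G b (hpt G m γ V i)) hd s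
    rw [← h1]
    unfold kq
    have h2 : cq G s (nb G b (hull G m γ V)) ⊆ tr (fun i => nb G b (hpt G m γ V i)) s := by
      intro K hK
      rw [mem_cq] at hK
      obtain ⟨hK1, hK2, hK3⟩ := hK
      unfold tr
      rw [Finset.mem_filter, Finset.mem_powersetCard]
      refine ⟨⟨?_, hK2⟩, ?_⟩
      · unfold hull at hK1
        rwa [knb_tot] at hK1
      · intro i
        rw [Finset.card_le_one]
        intro x hx z hz
        by_contra hxz
        rw [Finset.mem_inter, mem_nb] at hx hz
        exact hpt_indep G hp hG hV i x z hx.2.1 hz.2.1 (hK3 hx.1 hz.1 hxz)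
    exact_mod_cast Finset.card_le_card h2

end Pool.Agent.H45.KTD
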