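import Pool.Agent.H45.KTD.LowLK

/-!
# KTD LB: two copies of `L` and a vertex using free degrees

`n = (R + 1) m + r`, `T = turanGraph n (R + 1)`; the classes `a % (R + 1) = i`, `i < r`, have `m + 1` elements and degrees
`n - (m + 1) = R m + r - 1`, the other classes `m` elements and degrees `n - m = R m + r`.  `k = (R - r) m / r ≤ m`.
Graph on `Option (Bool × Fin n)` (transported to `Fin (2 n + 1)`): `(i, a) ~ (j, b)` iff `i = j` and `a ~ b` in `T`; the vertex `none` is adjacent to
`(false, a)` iff `a % (R + 1) < r`, and to `(true, a)` iff `a % (R + 1) < r` and `a / (R + 1) < k`.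
Degree of `none`: `r (m + 1) + r k ≤ r m + r + (R - r) m = R m + r`.  The vertices adjacent to `none` have degree
`R m + r - 1` in `T`.  A clique containing `none` has its other vertices in one copy and in the `r` big classes, so at most
`r + 1 ≤ R + 1` vertices.
`t`-cliques: `2 kc t T = 2 KL` (`kc_turan`) in the two copies; with `none`: the `(t - 1)`-cliques in its neighbourhood, which contains a complete
`r`-partite graph with classes of size `m + 1` and one with classes of size `k`: `C(r, t-1) ((m + 1) ^ (t-1) + k ^ (t-1))`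
(`tr_card`).  (Only `≤` is needed.)
-/

set_option autoImplicit false

open Finset

namespace Pool.Agent.H45.KTD

open Pool.Agent.H11.TD

/-- the graph -/
private def LB_H (R r m k : ℕ) : SimpleGraph (Option (Bool × Fin ((R + 1) * m + r))) where
  Adj := fun u v => match u, v with
    | none, none => False
    | none, some (i, a) => (a : ℕ) % (R + 1) < r ∧ (i = true → (a : ℕ) / (R + 1) < k)
    | some (i, a), none => (a : ℕ) % (R + 1) < r ∧ (i = true → (a : ℕ) / (R + 1) < k)
    | some (i, a), some (j, b) => i = j ∧ (a : ℕ) % (R + 1) ≠ (b : ℕ) % (R + 1)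
  symm := ⟨by
    rintro (_ | ⟨i, a⟩) (_ | ⟨j, b⟩) h
    · exact h
    · exact h
    · exact h
    · exact ⟨h.1.symm, h.2.symm⟩⟩
  loopless := ⟨by
    rintro (_ | ⟨i, a⟩) h
    · exact h
    · exact h.2 rfl⟩

private theorem LB_card (n M j k : ℕ) (hj : j < M) (hk : ∀ q < k, M * q + j < n) :
    (univ.filter (fun a : Fin n => (a : ℕ) % M = j ∧ (a : ℕ) / M < k)).card = k := by
  rw [← Finset.card_map Fin.valEmbedding]
  have h : (univ.filter (fun a : Fin n => (a : ℕ) % M = j ∧ (a : ℕ) / M < k)).map Fin.valEmbedding =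
      (range k).image (fun q => M * q + j) := by
    ext v
    simp only [Finset.mem_map, Finset.mem_filter, Finset.mem_univ, true_and,
      Fin.valEmbedding_apply, Finset.mem_image, Finset.mem_range]
    constructor
    · rintro ⟨w, ⟨hw1, hw2⟩, rfl⟩
      refine ⟨(w : ℕ) / M, hw2, ?_⟩
      rw [← hw1]
      exact Nat.div_add_mod _ _
    · rintro ⟨q, hq, rfl⟩
      refine ⟨⟨M * q + j, hk q hq⟩, ⟨?_, ?_⟩, rfl⟩
      · simp only
        rw [Nat.mul_add_mod, Nat.mod_eq_of_lt hj]
      · simp only
        rw [Nat.mul_add_div (by omega), Nat.div_eq_of_lt hj]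
        simpa using hq
  rw [h, Finset.card_image_of_injective, Finset.card_range]
  intro a b hab
  have h2 : M * a = M * b := by
    simp only at hab
    omega
  exact Nat.eq_of_mul_eq_mul_left (by omega) h2

private theorem LB_card_le (n M r k : ℕ) :
    (univ.filter (fun a : Fin n => (a : ℕ) % M < r ∧ (a : ℕ) / M < k)).card ≤ r * k := by
  have h := Finset.card_le_card_of_injOn (s := univ.filter (fun a : Fin n => (a : ℕ) % M < r ∧ (a : ℕ) / M < k))
    (t := (range r) ×ˢ (range k)) (fun a => ((a : ℕ) % M, (a : ℕ) / M)) (by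
      intro a ha
      rw [Finset.mem_coe, Finset.mem_filter] at ha
      simp only [Finset.coe_product, Set.mem_prod, Finset.mem_coe, Finset.mem_range]
      exact ha.2) (by
      intro a _ b _ hab
      simp only [Prod.mk.injEq] at hab
      apply Fin.ext
      rw [← Nat.div_add_mod (a : ℕ) M, ← Nat.div_add_mod (b : ℕ) M, hab.1, hab.2])
  rwa [Finset.card_product, Finset.card_range, Finset.card_range] at h

private theorem LB_four {β : Type} [DecidableEq β] (S F1 F2 F3 F4 : Finset β)
    (τ : β → Bool × Bool) (h1 : ∀ s ∈ F1, s ∈ S ∧ τ s = (false, false))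
    (h2 : ∀ s ∈ F2, s ∈ S ∧ τ s = (false, true)) (h3 : ∀ s ∈ F3, s ∈ S ∧ τ s = (true, false))
    (h4 : ∀ s ∈ F4, s ∈ S ∧ τ s = (true, true)) :
    F1.card + F2.card + F3.card + F4.card ≤ S.card := by
  have d12 : Disjoint F1 F2 := by
    rw [Finset.disjoint_left]
    intro s hs hs'
    have := (h1 s hs).2
    rw [(h2 s hs').2] at this
    simp at this
  have d123 : Disjoint (F1 ∪ F2) F3 := by
    rw [Finset.disjoint_left]
    intro s hs hs'
    have h := (h3 s hs').2
    rcases Finset.mem_union.1 hs with hs | hs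
    · rw [(h1 s hs).2] at h
      simp at h
    · rw [(h2 s hs).2] at h
      simp at h
  have d1234 : Disjoint (F1 ∪ F2 ∪ F3) F4 := by
    rw [Finset.disjoint_left]
    intro s hs hs'
    have h := (h4 s hs').2
    rcases Finset.mem_union.1 hs with hs | hs
    · rcases Finset.mem_union.1 hs with hs | hs
      · rw [(h1 s hs).2] at h
        simp at h
      · rw [(h2 s hs).2] at h
        simp at h
    · rw [(h3 s hs).2] at h
      simp at h
  rw [← Finset.card_union_of_disjoint d12, ← Finset.card_union_of_disjoint d123,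
    ← Finset.card_union_of_disjoint d1234]
  apply Finset.card_le_card
  intro s hs
  rcases Finset.mem_union.1 hs with hs | hs
  · rcases Finset.mem_union.1 hs with hs | hs
    · rcases Finset.mem_union.1 hs with hs | hs
      · exact (h1 s hs).1
      · exact (h2 s hs).1
    · exact (h3 s hs).1
  · exact (h4 s hs).1

private theorem LB_es {k : ℕ} (t : ℕ) (c : ℝ) :
    es t (fun _ : Fin k => c) = (k.choose t : ℝ) * c ^ t := by
  unfold es
  have h : ∀ S ∈ (univ : Finset (Fin k)).powersetCard t, ∏ _i ∈ S, c = c ^ t := by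
    intro S hS
    rw [Finset.prod_const, (Finset.mem_powersetCard.1 hS).2]
  rw [Finset.sum_congr rfl h, Finset.sum_const, Finset.card_powersetCard, Finset.card_univ,
    Fintype.card_fin, nsmul_eq_mul]

private def LB_emb {n : ℕ} (i : Bool) : Fin n ↪ Option (Bool × Fin n) :=
  ⟨fun a => some (i, a), fun a b h => by simpa using h⟩

private theorem LB_deg (R r m k : ℕ) (hr : 1 ≤ r) (hrR : r < R)
    (hrk : r * k ≤ (R - r) * m) (v : Option (Bool × Fin ((R + 1) * m + r))) :
    ((LB_H R r m k).neighborSet v).ncard ≤ R * m + r := by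
  classical
  rcases v with _ | ⟨i, a⟩
  · -- the vertex none
    have hsub : (LB_H R r m k).neighborSet none ⊆
        (((univ.filter (fun a : Fin ((R + 1) * m + r) => (a : ℕ) % (R + 1) < r ∧
          (a : ℕ) / (R + 1) < m + 1)).map (LB_emb false) ∪
        (univ.filter (fun a : Fin ((R + 1) * m + r) => (a : ℕ) % (R + 1) < r ∧
          (a : ℕ) / (R + 1) < k)).map (LB_emb true) : Finset _) : Set _) := by
      rintro (_ | ⟨j, b⟩) h
      · exact absurd h (by change ¬ (LB_H R r m k).Adj none none; exact (LB_H R r m k).irrefl)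
      · have hb : (b : ℕ) % (R + 1) < r ∧ (j = true → (b : ℕ) / (R + 1) < k) := h
        rw [Finset.mem_coe, Finset.mem_union, Finset.mem_map, Finset.mem_map]
        cases j with
        | false =>
          left
          refine ⟨b, Finset.mem_filter.2 ⟨mem_univ _, hb.1, ?_⟩, rfl⟩
          have h2 := b.isLt
          rw [Nat.div_lt_iff_lt_mul (by omega)]
          calc (b : ℕ) < (R + 1) * m + r := h2
            _ ≤ (m + 1) * (R + 1) := by nlinarith
        | true =>
          right
          exact ⟨b, Finset.mem_filter.2 ⟨mem_univ _, hb.1, hb.2 rfl⟩, rfl⟩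
    have h1 := Set.ncard_le_ncard hsub (Finset.finite_toSet _)
    rw [Set.ncard_coe_finset] at h1
    have h2 := Finset.card_union_le
      ((univ.filter (fun a : Fin ((R + 1) * m + r) => (a : ℕ) % (R + 1) < r ∧
          (a : ℕ) / (R + 1) < m + 1)).map (LB_emb false))
      ((univ.filter (fun a : Fin ((R + 1) * m + r) => (a : ℕ) % (R + 1) < r ∧
          (a : ℕ) / (R + 1) < k)).map (LB_emb true))
    rw [Finset.card_map, Finset.card_map] at h2
    have h3 := LB_card_le ((R + 1) * m + r) (R + 1) r (m + 1)
    have h4 := LB_card_le ((R + 1) * m + r) (R + 1) r k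
    have h5 : r * (m + 1) + r * k ≤ R * m + r := by
      obtain ⟨s, rfl⟩ := Nat.exists_eq_add_of_le hrR.le
      rw [Nat.add_sub_cancel_left] at hrk
      nlinarith
    omega
  · -- the other vertices
    have hn := a.isLt
    have hm0 : 0 < R + 1 := by omega
    have hmod := Nat.mod_lt (a : ℕ) hm0
    have hcompl : ∀ c : ℕ, c ≤ (univ.filter (fun b : Fin ((R + 1) * m + r) =>
        (b : ℕ) % (R + 1) = (a : ℕ) % (R + 1))).card →
        (univ.filter (fun b : Fin ((R + 1) * m + r) =>
          (a : ℕ) % (R + 1) ≠ (b : ℕ) % (R + 1))).card + c ≤ (R + 1) * m + r := by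
      intro c hc
      have h1 := Finset.card_filter_add_card_filter_not
        (s := (univ : Finset (Fin ((R + 1) * m + r))))
        (fun b : Fin ((R + 1) * m + r) => (b : ℕ) % (R + 1) = (a : ℕ) % (R + 1))
      rw [Finset.card_univ, Fintype.card_fin] at h1
      have h2 : (univ.filter (fun b : Fin ((R + 1) * m + r) =>
          (a : ℕ) % (R + 1) ≠ (b : ℕ) % (R + 1))) = (univ.filter (fun b : Fin ((R + 1) * m + r) =>
          ¬ (b : ℕ) % (R + 1) = (a : ℕ) % (R + 1))) := by
        apply Finset.filter_congr
        intro b _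
        exact ne_comm
      rw [h2]
      omega
    by_cases ha : (a : ℕ) % (R + 1) < r
    · have hc : m + 1 ≤ (univ.filter (fun b : Fin ((R + 1) * m + r) =>
          (b : ℕ) % (R + 1) = (a : ℕ) % (R + 1))).card := by
        have h1 := LB_card ((R + 1) * m + r) (R + 1) ((a : ℕ) % (R + 1)) (m + 1) hmod (by
          intro q hq
          have : (R + 1) * q ≤ (R + 1) * m := Nat.mul_le_mul_left _ (by omega)
          omega)
        calc m + 1 = _ := h1.symm
          _ ≤ _ := Finset.card_le_card (by
            intro b hb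
            rw [Finset.mem_filter] at hb ⊢
            exact ⟨hb.1, hb.2.1⟩)
      have h2 := hcompl _ hc
      have hsub : (LB_H R r m k).neighborSet (some (i, a)) ⊆
          ((insert none ((univ.filter (fun b : Fin ((R + 1) * m + r) =>
            (a : ℕ) % (R + 1) ≠ (b : ℕ) % (R + 1))).map (LB_emb i)) : Finset _) : Set _) := by
        rintro (_ | ⟨j, b⟩) h
        · simp
        · have hb : i = j ∧ (a : ℕ) % (R + 1) ≠ (b : ℕ) % (R + 1) := h
          obtain ⟨rfl, hb⟩ := hb
          rw [Finset.mem_coe, Finset.mem_insert, Finset.mem_map]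
          right
          exact ⟨b, Finset.mem_filter.2 ⟨mem_univ _, hb⟩, rfl⟩
      have h3 := Set.ncard_le_ncard hsub (Finset.finite_toSet _)
      rw [Set.ncard_coe_finset] at h3
      have h4 := Finset.card_insert_le (none : Option (Bool × Fin ((R + 1) * m + r)))
        ((univ.filter (fun b : Fin ((R + 1) * m + r) =>
            (a : ℕ) % (R + 1) ≠ (b : ℕ) % (R + 1))).map (LB_emb i))
      rw [Finset.card_map] at h4
      have h5 : (R + 1) * m = R * m + m := by ring
      omega
    · have hc : m ≤ (univ.filter (fun b : Fin ((R + 1) * m + r) =>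
          (b : ℕ) % (R + 1) = (a : ℕ) % (R + 1))).card := by
        have h1 := LB_card ((R + 1) * m + r) (R + 1) ((a : ℕ) % (R + 1)) m hmod (by
          intro q hq
          have h2 : (R + 1) * (q + 1) ≤ (R + 1) * m := Nat.mul_le_mul_left _ (by omega)
          have h3 : (R + 1) * (q + 1) = (R + 1) * q + (R + 1) := by ring
          omega)
        calc m = _ := h1.symm
          _ ≤ _ := Finset.card_le_card (by
            intro b hb
            rw [Finset.mem_filter] at hb ⊢
            exact ⟨hb.1, hb.2.1⟩)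
      have h2 := hcompl _ hc
      have hsub : (LB_H R r m k).neighborSet (some (i, a)) ⊆
          (((univ.filter (fun b : Fin ((R + 1) * m + r) =>
            (a : ℕ) % (R + 1) ≠ (b : ℕ) % (R + 1))).map (LB_emb i) : Finset _) : Set _) := by
        rintro (_ | ⟨j, b⟩) h
        · have hb : (a : ℕ) % (R + 1) < r ∧ (i = true → (a : ℕ) / (R + 1) < k) := h
          exact absurd hb.1 ha
        · have hb : i = j ∧ (a : ℕ) % (R + 1) ≠ (b : ℕ) % (R + 1) := h
          obtain ⟨rfl, hb⟩ := hb
          rw [Finset.mem_coe, Finset.mem_map]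
          exact ⟨b, Finset.mem_filter.2 ⟨mem_univ _, hb⟩, rfl⟩
      have h3 := Set.ncard_le_ncard hsub (Finset.finite_toSet _)
      rw [Set.ncard_coe_finset, Finset.card_map] at h3
      have h5 : (R + 1) * m = R * m + m := by ring
      omega

private theorem LB_free (R r m k : ℕ) (hrR : r < R) : (LB_H R r m k).CliqueFree (R + 1 + 1) := by
  have hcol : (LB_H R r m k).Colorable (R + 1) := by
    refine ⟨SimpleGraph.Coloring.mk (fun v => match v with
      | none => (⟨r, by omega⟩ : Fin (R + 1))
      | some (_, a) => ⟨(a : ℕ) % (R + 1), Nat.mod_lt _ (by omega)⟩) ?_⟩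
    rintro (_ | ⟨i, a⟩) (_ | ⟨j, b⟩) h
    · exact absurd h (LB_H R r m k).irrefl
    · have hb : (b : ℕ) % (R + 1) < r ∧ (j = true → (b : ℕ) / (R + 1) < k) := h
      simp only [ne_eq, Fin.mk.injEq]
      omega
    · have hb : (a : ℕ) % (R + 1) < r ∧ (i = true → (a : ℕ) / (R + 1) < k) := h
      simp only [ne_eq, Fin.mk.injEq]
      omega
    · have hb : i = j ∧ (a : ℕ) % (R + 1) ≠ (b : ℕ) % (R + 1) := h
      simp only [ne_eq, Fin.mk.injEq]
      exact hb.2
  exact hcol.cliqueFree (by omega)

/-- the classes in the neighbourhood of `none` -/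
private def LB_A (R r m k : ℕ) (j : Fin r) : Finset (Fin ((R + 1) * m + r)) :=
  univ.filter (fun a => (a : ℕ) % (R + 1) = (j : ℕ) ∧ (a : ℕ) / (R + 1) < k)

private theorem LB_A_disj (R r m k : ℕ) (i j : Fin r) (hij : i ≠ j) :
    Disjoint (LB_A R r m k i) (LB_A R r m k j) := by
  rw [Finset.disjoint_left]
  intro a ha hb
  have h1 := (Finset.mem_filter.1 ha).2.1
  have h2 := (Finset.mem_filter.1 hb).2.1
  apply hij
  apply Fin.ext
  omega

private theorem LB_A_card (R r m k : ℕ) (hrR : r < R) (hk : k ≤ m + 1) (j : Fin r) :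
    (LB_A R r m k j).card = k := by
  apply LB_card
  · have := j.isLt
    omega
  · intro q hq
    have h1 : (R + 1) * q ≤ (R + 1) * m := Nat.mul_le_mul_left _ (by omega)
    have := j.isLt
    omega

private theorem LB_tr (R r m k k' t : ℕ) (ht : 2 ≤ t) (i : Bool) (hi : i = true → k' ≤ k)
    (K : Finset (Fin ((R + 1) * m + r))) (hK : K ∈ tr (LB_A R r m k') (t - 1)) :
    (LB_H R r m k).IsNClique t (insert none (K.map (LB_emb i))) ∧ K.Nonempty := by
  classical
  unfold tr at hK
  rw [Finset.mem_filter, Finset.mem_powersetCard] at hK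
  obtain ⟨⟨hK1, hK2⟩, hK3⟩ := hK
  have hmem : ∀ a ∈ K, ∃ j : Fin r, a ∈ LB_A R r m k' j := by
    intro a ha
    exact (mem_tot _).1 (hK1 ha)
  have hnone : (none : Option (Bool × Fin ((R + 1) * m + r))) ∉ K.map (LB_emb i) := by
    intro h
    obtain ⟨a, _, ha⟩ := Finset.mem_map.1 h
    exact absurd ha (by simp [LB_emb])
  have hadjn : ∀ a ∈ K, (LB_H R r m k).Adj none (some (i, a)) := by
    intro a ha
    obtain ⟨j, hj⟩ := hmem a ha
    have h1 := (Finset.mem_filter.1 hj).2
    refine ⟨?_, ?_⟩
    · rw [h1.1]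
      exact j.isLt
    · intro h2
      exact lt_of_lt_of_le h1.2 (hi h2)
  refine ⟨⟨?_, ?_⟩, ?_⟩
  · intro u hu v hv huv
    rw [Finset.mem_coe, Finset.mem_insert, Finset.mem_map] at hu hv
    rcases hu with rfl | ⟨a, ha, rfl⟩
    · rcases hv with rfl | ⟨b, hb, rfl⟩
      · exact absurd rfl huv
      · exact hadjn b hb
    · rcases hv with rfl | ⟨b, hb, rfl⟩
      · exact (hadjn a ha).symm
      · refine ⟨rfl, ?_⟩
        intro hab
        have hne : a ≠ b := by
          rintro rfl
          exact huv rfl
        obtain ⟨j, hj⟩ := hmem a ha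
        have hj' : b ∈ LB_A R r m k' j := by
          obtain ⟨j', hj'⟩ := hmem b hb
          have h1 := (Finset.mem_filter.1 hj).2.1
          have h2 := (Finset.mem_filter.1 hj').2.1
          have h3 : j' = j := by
            apply Fin.ext
            omega
          rwa [h3] at hj'
        have h4 := hK3 j
        have h5 : ({a, b} : Finset _) ⊆ K ∩ LB_A R r m k' j := by
          intro x hx
          rw [Finset.mem_insert, Finset.mem_singleton] at hx
          rcases hx with rfl | rfl
          · exact Finset.mem_inter.2 ⟨ha, hj⟩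
          · exact Finset.mem_inter.2 ⟨hb, hj'⟩
        have h6 := Finset.card_le_card h5
        rw [Finset.card_pair hne] at h6
        omega
  · rw [Finset.card_insert_of_notMem hnone, Finset.card_map, hK2]
    omega
  · rw [← Finset.card_pos, hK2]
    omega

private theorem LB_count (R r m k t : ℕ) (ht : 2 ≤ t) (hrR : r < R) (hk : k ≤ m) :
    2 * KL R r m t + (r.choose (t - 1) : ℝ) * (((m : ℝ) + 1) ^ (t - 1) +
        (k : ℝ) ^ (t - 1)) ≤ (kc t (LB_H R r m k) : ℝ) := by
  classical
  set n := (R + 1) * m + r with hn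
  -- the four families
  let C : Finset (Finset (Fin n)) := univ.filter (fun s => (SimpleGraph.turanGraph n (R + 1)).IsNClique t s)
  have hC : (C.card : ℝ) = KL R r m t := by
    rw [← kc_turan R r m t hrR.le]
    unfold kc
    rw [← Set.ncard_coe_finset]
    congr 2
    ext s
    rw [Finset.mem_coe, Finset.mem_filter]
    exact ⟨fun h => h.2, fun h => ⟨mem_univ _, h⟩⟩
  let S : Finset (Finset (Option (Bool × Fin n))) := univ.filter (fun s => (LB_H R r m k).IsNClique t s)
  have hS : kc t (LB_H R r m k) = S.card := by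
    unfold kc
    rw [← Set.ncard_coe_finset]
    congr 1
    ext s
    rw [Finset.mem_coe, Finset.mem_filter]
    exact ⟨fun h => ⟨mem_univ _, h⟩, fun h => h.2⟩
  let F : Bool → Finset (Finset (Option (Bool × Fin n))) := fun i => C.image (fun s => s.map (LB_emb i))
  let T : ℕ → Finset (Finset (Fin n)) := fun k' => tr (LB_A R r m k') (t - 1)
  let E : Bool → ℕ → Finset (Finset (Option (Bool × Fin n))) := fun i k' =>
    (T k').image (fun s => insert none (s.map (LB_emb i)))
  have hinjF : ∀ i : Bool, Function.Injective (fun s : Finset (Fin n) => s.map (LB_emb i)) :=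
    fun i => Finset.map_injective _
  have hnone : ∀ (i : Bool) (s : Finset (Fin n)), (none : Option (Bool × Fin n)) ∉ s.map (LB_emb i) := by
    intro i s h
    obtain ⟨a, _, ha⟩ := Finset.mem_map.1 h
    exact absurd ha (by simp [LB_emb])
  have hinjE : ∀ i : Bool, Function.Injective
      (fun s : Finset (Fin n) => insert (none : Option (Bool × Fin n)) (s.map (LB_emb i))) := by
    intro i s s' h
    apply hinjF i
    have h1 := congrArg (fun u : Finset (Option (Bool × Fin n)) => u.erase none) h
    simp only at h1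
    rwa [Finset.erase_insert (hnone i s), Finset.erase_insert (hnone i s')] at h1
  have hFc : ∀ i, (F i).card = C.card := fun i => Finset.card_image_of_injective _ (hinjF i)
  have hEc : ∀ i k', (E i k').card = (T k').card := fun i k' =>
    Finset.card_image_of_injective _ (hinjE i)
  have hTc : ∀ k' ≤ m + 1, ((T k').card : ℝ) = (r.choose (t - 1) : ℝ) * (k' : ℝ) ^ (t - 1) := by
    intro k' hk'
    have h1 := tr_card (LB_A R r m k') (LB_A_disj R r m k') (t - 1)
    have h2 : (fun j : Fin r => ((LB_A R r m k' j).card : ℝ)) = fun _ => (k' : ℝ) := by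
      funext j
      rw [LB_A_card R r m k' hrR hk' j]
    rw [h2, LB_es] at h1
    exact h1
  let τ : Finset (Option (Bool × Fin n)) → Bool × Bool := fun s =>
    (decide (none ∈ s), decide (∃ a : Fin n, some (true, a) ∈ s))
  have hmememb : ∀ (i : Bool) (s : Finset (Fin n)) (a : Fin n),
      some (true, a) ∈ s.map (LB_emb i) ↔ i = true ∧ a ∈ s := by
    intro i s a
    rw [Finset.mem_map]
    constructor
    · rintro ⟨b, hb, hb'⟩
      have h1 : some (i, b) = some (true, a) := hb'
      simp only [Option.some.injEq, Prod.mk.injEq] at h1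
      obtain ⟨rfl, rfl⟩ := h1
      exact ⟨rfl, hb⟩
    · rintro ⟨rfl, ha⟩
      exact ⟨a, ha, rfl⟩
  have hF : ∀ i : Bool, ∀ s ∈ F i, s ∈ S ∧ τ s = (false, i) := by
    intro i s hs
    obtain ⟨s0, hs0, rfl⟩ := Finset.mem_image.1 hs
    have h0 : (SimpleGraph.turanGraph n (R + 1)).IsNClique t s0 := (Finset.mem_filter.1 hs0).2
    refine ⟨Finset.mem_filter.2 ⟨mem_univ _, ?_, ?_⟩, ?_⟩
    · intro u hu v hv huv
      rw [Finset.mem_coe, Finset.mem_map] at hu hv
      obtain ⟨a, ha, rfl⟩ := hu
      obtain ⟨b, hb, rfl⟩ := hv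
      have hab : a ≠ b := by
        rintro rfl
        exact huv rfl
      exact ⟨rfl, h0.1 ha hb hab⟩
    · rw [Finset.card_map]
      exact h0.2
    · have hne : s0.Nonempty := by
        rw [← Finset.card_pos, h0.2]
        omega
      obtain ⟨a0, ha0⟩ := hne
      simp only [τ, hmememb, hnone, decide_false, Prod.mk.injEq, true_and]
      cases i with
      | false => simp
      | true =>
        simp only [true_and, decide_eq_true_eq]
        exact ⟨a0, ha0⟩
  have hE : ∀ (i : Bool) (k' : ℕ), (i = true → k' ≤ k) → ∀ s ∈ E i k', s ∈ S ∧ τ s = (true, i) := by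
    intro i k' hik s hs
    obtain ⟨s0, hs0, rfl⟩ := Finset.mem_image.1 hs
    obtain ⟨h1, a0, ha0⟩ := LB_tr R r m k k' t ht i hik s0 hs0
    refine ⟨Finset.mem_filter.2 ⟨mem_univ _, h1⟩, ?_⟩
    simp only [τ, Finset.mem_insert_self, decide_true, Finset.mem_insert, reduceCtorEq, false_or,
      hmememb, Prod.mk.injEq, true_and]
    cases i with
    | false => simp
    | true =>
      simp only [true_and, decide_eq_true_eq]
      exact ⟨a0, ha0⟩
  have hfour := LB_four S (F false) (F true) (E false (m + 1)) (E true k) τ (hF false) (hF true)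
    (hE false (m + 1) (fun h => absurd h (by simp))) (hE true k (fun _ => le_rfl))
  rw [hFc, hFc, hEc, hEc] at hfour
  have hreal : (C.card : ℝ) + C.card + (T (m + 1)).card + (T k).card ≤ S.card := by
    exact_mod_cast hfour
  rw [hC, hTc (m + 1) le_rfl, hTc k (by omega)] at hreal
  rw [hS]
  push_cast at hreal
  linarith

theorem low_B (R r m t : ℕ) (hr : 1 ≤ r) (hrR : r < R) (hq : R ≤ 2 * r) (ht : 2 ≤ t)
    (hm : 1 ≤ m) : ∃ G0 ∈ Cls (2 * ((R + 1) * m + r) + 1) (R * m + r) (R + 1),
      2 * KL R r m t + (r.choose (t - 1) : ℝ) * (((m : ℝ) + 1) ^ (t - 1) +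
        (((R - r) * m / r : ℕ) : ℝ) ^ (t - 1)) ≤ (kc t G0 : ℝ) := by
  classical
  have hk : (R - r) * m / r ≤ m := by
    rw [Nat.div_le_iff_le_mul_add_pred (by omega)]
    have : (R - r) * m ≤ r * m := Nat.mul_le_mul_right _ (by omega)
    omega
  have hrk : r * ((R - r) * m / r) ≤ (R - r) * m := Nat.mul_div_le _ _
  have hcard : Fintype.card (Option (Bool × Fin ((R + 1) * m + r))) =
      2 * ((R + 1) * m + r) + 1 := by
    rw [Fintype.card_option, Fintype.card_prod, Fintype.card_bool, Fintype.card_fin]
  let e := Fintype.equivFinOfCardEq hcard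
  let G0 : SimpleGraph (Fin (2 * ((R + 1) * m + r) + 1)) :=
    (LB_H R r m ((R - r) * m / r)).comap e.symm
  have hG0 : ∀ u v, G0.Adj u v ↔ (LB_H R r m ((R - r) * m / r)).Adj (e.symm u) (e.symm v) :=
    fun u v => Iff.rfl
  refine ⟨G0, ⟨?_, ?_⟩, ?_⟩
  · intro v
    refine le_trans ?_ (LB_deg R r m _ hr hrR hrk (e.symm v))
    refine Set.ncard_le_ncard_of_injOn e.symm ?_ e.symm.injective.injOn (Set.toFinite _)
    intro w hw
    exact hw
  · intro s hs
    apply LB_free R r m ((R - r) * m / r) hrR (s.map e.symm.toEmbedding)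
    refine ⟨?_, ?_⟩
    · intro u hu v hv huv
      rw [Finset.mem_coe, Finset.mem_map] at hu hv
      obtain ⟨a, ha, rfl⟩ := hu
      obtain ⟨b, hb, rfl⟩ := hv
      have hab : a ≠ b := by
        rintro rfl
        exact huv rfl
      exact hs.1 ha hb hab
    · rw [Finset.card_map]
      exact hs.2
  · refine le_trans (LB_count R r m ((R - r) * m / r) t ht hrR hk) ?_
    have h1 : kc t (LB_H R r m ((R - r) * m / r)) ≤ kc t G0 := by
      unfold kc
      refine Set.ncard_le_ncard_of_injOn (fun s => s.map e.toEmbedding) ?_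
        (Finset.map_injective _).injOn (Set.toFinite _)
      intro s hs
      refine ⟨?_, ?_⟩
      · intro u hu v hv huv
        rw [Finset.mem_coe, Finset.mem_map] at hu hv
        obtain ⟨a, ha, rfl⟩ := hu
        obtain ⟨b, hb, rfl⟩ := hv
        have hab : a ≠ b := by
          rintro rfl
          exact huv rfl
        rw [hG0]
        change (LB_H R r m ((R - r) * m / r)).Adj (e.symm (e a)) (e.symm (e b))
        rw [e.symm_apply_apply, e.symm_apply_apply]
        exact hs.1 ha hb hab
      · rw [Finset.card_map]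
        exact hs.2
    exact_mod_cast h1

end Pool.Agent.H45.KTD
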