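import Pool.Agent.H45.KTD.PSp

/-!
# KTD LBn: the graph of LB is better than `L` (numerical)

`2 KL = PL · 2 ((R + 1) m + r)`, so the claim is `PL < C(r, t-1) ((m + 1) ^ (t-1) + k ^ (t-1))`, `k = (R - r) m / r ≥ (q/r) m - 1`,
`q = R - r`.  `PL ≤ C(R, t-1) m ^ (t-1) / t + C m ^ (t-2)` (`PL_hi`), and the right side is at least
`C(r, t-1) (1 + (q/r) ^ (t-1)) m ^ (t-1) - C' m ^ (t-2)`.
-/

set_option autoImplicit false

open Finset

namespace Pool.Agent.H45.KTD

theorem lbn (R r t : ℕ) (hR : 4 ≤ R) (hr : 1 ≤ r) (hrR : r < R) (ht : 4 ≤ t) (htR : t ≤ R + 1)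
    (h : R.choose (t - 1) * r ^ (t - 1) < t * r.choose (t - 1) * (r ^ (t - 1) + (R - r) ^ (t - 1))) :
    ∃ m0 : ℕ, ∀ m : ℕ, m0 ≤ m →
      PL R r m t * (2 * ((R + 1) * m + r) + 1) < 2 * KL R r m t +
        (r.choose (t - 1) : ℝ) * (((m : ℝ) + 1) ^ (t - 1) +
          (((R - r) * m / r : ℕ) : ℝ) ^ (t - 1)) := by
  obtain ⟨C, hC, hhi⟩ := PL_hi R r t (by omega) (by omega)
  obtain ⟨n, rfl⟩ : ∃ n, t = n + 2 := ⟨t - 2, by omega⟩
  have e1 : n + 2 - 1 = n + 1 := rfl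
  have e2 : n + 2 - 2 = n := rfl
  rw [e1, e2] at hhi
  rw [e1] at h ⊢
  have hrR' : (1 : ℝ) ≤ r := by exact_mod_cast hr
  set q : ℝ := (R : ℝ) - r with hq
  have hqnat : ((R - r : ℕ) : ℝ) = q := by
    rw [Nat.cast_sub hrR.le]
  have hq0 : 1 ≤ q := by
    have : (r : ℝ) + 1 ≤ R := by exact_mod_cast hrR
    rw [hq]
    linarith
  have hn : (0 : ℝ) < (n : ℝ) + 2 := by positivity
  set c : ℝ := (r.choose (n + 1) : ℝ) with hc
  have hc0 : 0 ≤ c := Nat.cast_nonneg _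
  set A : ℝ := (R.choose (n + 1) : ℝ) with hA
  have hδ : 0 < c * (1 + (q / r) ^ (n + 1)) - A / (n + 2) := by
    have h1 : A * (r : ℝ) ^ (n + 1) < (n + 2) * c * ((r : ℝ) ^ (n + 1) + q ^ (n + 1)) := by
      have h2 : ((R.choose (n + 1) * r ^ (n + 1) : ℕ) : ℝ) <
          (((n + 2) * r.choose (n + 1) * (r ^ (n + 1) + (R - r) ^ (n + 1)) : ℕ) : ℝ) := by
        exact_mod_cast h
      push_cast at h2
      rw [Nat.cast_sub hrR.le] at h2
      rw [hA, hc, hq]
      linarith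
    have hrp : (0 : ℝ) < (r : ℝ) ^ (n + 1) := by positivity
    rw [sub_pos, div_lt_iff₀ hn, div_pow]
    have h3 : c * (1 + q ^ (n + 1) / (r : ℝ) ^ (n + 1)) * (n + 2) =
        ((n + 2) * c * ((r : ℝ) ^ (n + 1) + q ^ (n + 1))) / (r : ℝ) ^ (n + 1) := by
      field_simp
    rw [h3, lt_div_iff₀ hrp]
    exact h1
  set δ : ℝ := c * (1 + (q / r) ^ (n + 1)) - A / (n + 2) with hδd
  obtain ⟨m1, hm1⟩ := exists_nat_gt ((C + c * (n + 1) * (q / r) ^ n) / δ)
  refine ⟨m1 + r + 1, fun m hm => ?_⟩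
  have hm1' : 1 ≤ m := by omega
  have hmR : (1 : ℝ) ≤ m := by exact_mod_cast hm1'
  have hmm : (C + c * (n + 1) * (q / r) ^ n) / δ < m := by
    refine hm1.trans_le ?_
    exact_mod_cast (by omega : m1 ≤ m)
  rw [div_lt_iff₀ hδ] at hmm
  have hhi' := hhi m hm1'
  have hKL : KL R r m (n + 2) = PL R r m (n + 2) * ((R + 1) * m + r) := by
    unfold PL
    rw [div_mul_cancel₀]
    have : 0 < ((R : ℝ) + 1) * m + r := by positivity
    exact this.ne'
  set k : ℕ := (R - r) * m / r with hk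
  set x : ℝ := q / r * m with hx
  have hx1 : 1 ≤ x := by
    have h1 : (r : ℝ) ≤ m := by exact_mod_cast (by omega : r ≤ m)
    have h2 : (1 : ℝ) ≤ 1 / r * m := by
      rw [one_div, inv_mul_eq_div, le_div_iff₀ (by linarith)]
      linarith
    have h3 : 1 / (r : ℝ) * m ≤ q / r * m := by
      refine mul_le_mul_of_nonneg_right ?_ (by linarith)
      exact div_le_div_of_nonneg_right hq0 (by linarith)
    linarith
  have hkx : x - 1 ≤ k := by
    have h1 : (R - r) * m < r * (k + 1) := by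
      have h2 := Nat.lt_mul_div_succ ((R - r) * m) (show 0 < r by omega)
      rw [hk]
      exact h2
    have h2 : (((R - r) * m : ℕ) : ℝ) < ((r * (k + 1) : ℕ) : ℝ) := by exact_mod_cast h1
    push_cast at h2
    rw [Nat.cast_sub hrR.le, ← hq] at h2
    have h3 : x < k + 1 := by
      rw [hx, div_mul_eq_mul_div, div_lt_iff₀ (by linarith)]
      linarith
    linarith
  have hkp : x ^ (n + 1) - (n + 1) * x ^ n ≤ (k : ℝ) ^ (n + 1) := by
    have h1 : (x - 1) ^ (n + 1) ≤ (k : ℝ) ^ (n + 1) :=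
      pow_le_pow_left₀ (by linarith) hkx _
    refine le_trans ?_ h1
    have h2 : 1 + ((n + 1 : ℕ) : ℝ) * (-(1 / x)) ≤ (1 + -(1 / x)) ^ (n + 1) := by
      refine one_add_mul_le_pow ?_ (n + 1)
      have h3 : 1 / x ≤ 1 := by
        rw [div_le_one (by linarith)]
        exact hx1
      linarith
    have h3 : (x - 1) ^ (n + 1) = x ^ (n + 1) * (1 + -(1 / x)) ^ (n + 1) := by
      rw [← mul_pow]
      congr 1
      field_simp
      ring
    have h4 : x ^ (n + 1) - (n + 1) * x ^ n =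
        x ^ (n + 1) * (1 + ((n + 1 : ℕ) : ℝ) * (-(1 / x))) := by
      push_cast
      field_simp
      ring
    rw [h3, h4]
    exact mul_le_mul_of_nonneg_left h2 (by positivity)
  set M : ℝ := (m : ℝ) ^ n with hM
  have hM0 : 0 < M := by positivity
  have hMs : (m : ℝ) ^ (n + 1) = m * M := by
    rw [hM]
    ring
  rw [hMs] at hhi'
  have hxp : x ^ (n + 1) = (q / r) ^ (n + 1) * (m * M) := by
    rw [hx, mul_pow, hMs]
  have hxn : x ^ n = (q / r) ^ n * M := by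
    rw [hx, mul_pow, hM]
  rw [hxp, hxn] at hkp
  have hmp : m * M ≤ ((m : ℝ) + 1) ^ (n + 1) := by
    rw [← hMs]
    exact pow_le_pow_left₀ (by linarith) (by linarith) _
  have hcast : ((n + 2 : ℕ) : ℝ) = (n : ℝ) + 2 := by push_cast; ring
  rw [hcast] at hhi'
  have hexp : PL R r m (n + 2) * (2 * ((R + 1) * m + r) + 1) =
      2 * KL R r m (n + 2) + PL R r m (n + 2) := by
    rw [hKL]
    ring
  rw [hexp]
  have h1 : c * (m * M + ((q / r) ^ (n + 1) * (m * M) - (n + 1) * ((q / r) ^ n * M))) ≤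
      c * (((m : ℝ) + 1) ^ (n + 1) + (k : ℝ) ^ (n + 1)) :=
    mul_le_mul_of_nonneg_left (by linarith) hc0
  have h2 : (C + c * (n + 1) * (q / r) ^ n) * M < (m * δ) * M :=
    mul_lt_mul_of_pos_right hmm hM0
  have h3 : m * δ * M = c * (m * M) + c * (q / r) ^ (n + 1) * (m * M) - A * (m * M) / (n + 2) := by
    rw [hδd]
    ring
  rw [h3] at h2
  have h4 : c * (m * M + ((q / r) ^ (n + 1) * (m * M) - (n + 1) * ((q / r) ^ n * M))) =
      c * (m * M) + c * (q / r) ^ (n + 1) * (m * M) - c * (n + 1) * (q / r) ^ n * M := by ring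
  rw [h4] at h1
  linarith

end Pool.Agent.H45.KTD
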