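import Pool.Agent.H45.KTD.LowLK

/-!
# KTD LG: the graph `G*` (`r + 1` classes of size `m + 1`, `R - r` of size `m`, minus a matching of the small classes)

`s = R - r ≥ 2`, `n = (R + 1) m + r + 1`, vertices `Fin n`.  The `s m` vertices `v < s m` form the small classes,
`c v = v % s` (size `m` each), the other `(r + 1)(m + 1)` vertices the big classes, `c v = s + (v - s m) % (r + 1)`
(size `m + 1` each).  `G_0` = complete multipartite graph (`mpK`; `KL R (r + 1) m t` is symmetric in the sizes).
Delete the edges `{2 j, 2 j + 1}`, `j < ⌊s m / 2⌋` (the classes differ as `s ≥ 2`), and if `s m` is odd also the edge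
`{s m - 2, s m - 1}`; together `(s m + 1) / 2` edges.  Each deleted edge is contained in at most
`C(R - 1, t - 2) (m + 1) ^ (t - 2)` of the `t`-cliques of `G_0` (choose `t - 2` of the other `R - 1` classes and a vertex in each), and
every `t`-clique of `G_0` which contains no deleted edge is a clique of `G*`.
Degrees: a big vertex has `n - (m + 1) = R m + r` neighbours; a small vertex has at most `n - m - 1 = R m + r`, because
each small vertex is in a deleted pair.  `(R + 1)`-partite, so no clique with `R + 2` vertices.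
Compare `Pool.Agent.H11.TD.LowG` (real file), from which much can be copied.
-/

set_option autoImplicit false

open Finset

namespace Pool.Agent.H45.KTD

open Pool.Agent.H11.TD

/-- successive deletion of the edges `p i, q i` -/
private def lgk_H {α : Type} (G : SimpleGraph α) (p q : ℕ → α) : ℕ → SimpleGraph α
  | 0 => G
  | j + 1 => (lgk_H G p q j).deleteEdges {s(p j, q j)}

private theorem lgk_adj {α : Type} (G : SimpleGraph α) (p q : ℕ → α) (j : ℕ) (a b : α) :
    (lgk_H G p q j).Adj a b ↔ G.Adj a b ∧ ∀ i < j, s(a, b) ≠ s(p i, q i) := by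
  induction j with
  | zero => simp [lgk_H]
  | succ j ih =>
    rw [lgk_H, SimpleGraph.deleteEdges_adj, ih]
    constructor
    · rintro ⟨⟨h1, h2⟩, h3⟩
      refine ⟨h1, fun i hi => ?_⟩
      rcases Nat.lt_succ_iff_lt_or_eq.mp hi with h | h
      · exact h2 i h
      · subst h
        simpa using h3
    · rintro ⟨h1, h2⟩
      refine ⟨⟨h1, fun i hi => h2 i (by omega)⟩, ?_⟩
      have := h2 j (by omega)
      simpa using this

/-- the class of a vertex, as a natural number -/
private def lgk_c (s r m v : ℕ) : ℕ := if v < s * m then v % s else s + (v - s * m) % (r + 1)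

private theorem lgk_c_lt (s r m v : ℕ) (hs : 2 ≤ s) : lgk_c s r m v < r + s + 1 := by
  unfold lgk_c
  split_ifs with h
  · have := Nat.mod_lt v (show 0 < s by omega)
    omega
  · have := Nat.mod_lt (v - s * m) (show 0 < r + 1 by omega)
    omega

private theorem lgk_c_small (s r m v : ℕ) (hs : 2 ≤ s) : lgk_c s r m v < s ↔ v < s * m := by
  unfold lgk_c
  split_ifs with h
  · have := Nat.mod_lt v (show 0 < s by omega)
    simp [h, this]
  · constructor
    · intro h'; omega
    · intro h'; omega

private theorem lgk_card_small (s r m n i : ℕ) (hs : 2 ≤ s) (hn : n = s * m + (r + 1) * (m + 1))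
    (hi : i < s) : (univ.filter (fun v : Fin n => lgk_c s r m v.val = i)).card = m := by
  rw [← Finset.card_map Fin.valEmbedding]
  have : (univ.filter (fun v : Fin n => lgk_c s r m v.val = i)).map Fin.valEmbedding =
      (range m).image (fun k => s * k + i) := by
    ext v
    simp only [Finset.mem_map, Finset.mem_filter, Finset.mem_univ, true_and,
      Fin.valEmbedding_apply, Finset.mem_image, Finset.mem_range]
    constructor
    · rintro ⟨w, hw, rfl⟩
      have h1 : w.val < s * m := by
        rw [← lgk_c_small s r m w.val hs]; omega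
      unfold lgk_c at hw
      rw [if_pos h1] at hw
      refine ⟨w.val / s, Nat.div_lt_of_lt_mul h1, ?_⟩
      rw [← hw]
      exact Nat.div_add_mod _ _
    · rintro ⟨k, hk, rfl⟩
      have h1 : s * k + i < s * m := by
        calc s * k + i < s * k + s := by omega
          _ = s * (k + 1) := by ring
          _ ≤ s * m := Nat.mul_le_mul_left s hk
      have h2 : s * k + i < n := by rw [hn]; omega
      refine ⟨⟨s * k + i, h2⟩, ?_, rfl⟩
      unfold lgk_c
      simp only
      rw [if_pos h1, Nat.mul_add_mod, Nat.mod_eq_of_lt hi]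
  rw [this, Finset.card_image_of_injective, Finset.card_range]
  intro a b hab
  have : s * a = s * b := by
    simp only at hab
    omega
  exact Nat.eq_of_mul_eq_mul_left (by omega) this

private theorem lgk_card_big (s r m n i : ℕ) (hs : 2 ≤ s) (hn : n = s * m + (r + 1) * (m + 1))
    (hi : s ≤ i) (hi' : i < r + s + 1) :
    (univ.filter (fun v : Fin n => lgk_c s r m v.val = i)).card = m + 1 := by
  rw [← Finset.card_map Fin.valEmbedding]
  have : (univ.filter (fun v : Fin n => lgk_c s r m v.val = i)).map Fin.valEmbedding =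
      (range (m + 1)).image (fun k => s * m + ((r + 1) * k + (i - s))) := by
    ext v
    simp only [Finset.mem_map, Finset.mem_filter, Finset.mem_univ, true_and,
      Fin.valEmbedding_apply, Finset.mem_image, Finset.mem_range]
    constructor
    · rintro ⟨w, hw, rfl⟩
      have h1 : ¬ w.val < s * m := by
        rw [← lgk_c_small s r m w.val hs]; omega
      unfold lgk_c at hw
      rw [if_neg h1] at hw
      have hw2 : w.val < s * m + (r + 1) * (m + 1) := by rw [← hn]; exact w.isLt
      refine ⟨(w.val - s * m) / (r + 1), Nat.div_lt_of_lt_mul (by omega), ?_⟩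
      have h3 : i - s = (w.val - s * m) % (r + 1) := by omega
      rw [h3, Nat.div_add_mod]
      omega
    · rintro ⟨k, hk, rfl⟩
      have h1 : (r + 1) * k + (i - s) < (r + 1) * (m + 1) := by
        calc (r + 1) * k + (i - s) < (r + 1) * k + (r + 1) := by omega
          _ = (r + 1) * (k + 1) := by ring
          _ ≤ (r + 1) * (m + 1) := Nat.mul_le_mul_left _ hk
      have h2 : s * m + ((r + 1) * k + (i - s)) < n := by rw [hn]; omega
      refine ⟨⟨s * m + ((r + 1) * k + (i - s)), h2⟩, ?_, rfl⟩
      unfold lgk_c
      simp only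
      rw [if_neg (by omega), Nat.add_sub_cancel_left, Nat.mul_add_mod,
        Nat.mod_eq_of_lt (by omega)]
      omega
  rw [this, Finset.card_image_of_injective, Finset.card_range]
  intro a b hab
  have : (r + 1) * a = (r + 1) * b := by
    simp only at hab
    omega
  exact Nat.eq_of_mul_eq_mul_left (by omega) this

private theorem lgk_c_ne (s r m a d : ℕ) (hs : 2 ≤ s) (hd : 1 ≤ d) (hds : d < s) (h : a + d < s * m) :
    lgk_c s r m a ≠ lgk_c s r m (a + d) := by
  unfold lgk_c
  rw [if_pos (by omega), if_pos h]
  intro h'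
  have h1 : a ≡ a + d [MOD s] := h'
  have h2 : s ∣ a + d - a := (Nat.modEq_iff_dvd' (by omega)).mp h1
  rw [Nat.add_sub_cancel_left] at h2
  exact absurd (Nat.le_of_dvd (by omega) h2) (by omega)


/-- a graph with fewer edges and its lost cliques -/
private theorem lgk_kc {n : ℕ} (t : ℕ) (G : SimpleGraph (Fin n)) (p q : ℕ → Fin n) (N : ℝ) (j : ℕ)
    (h : ∀ i < j, (({K : Finset (Fin n) | G.IsNClique t K ∧ p i ∈ K ∧ q i ∈ K}.ncard : ℕ) : ℝ) ≤ N) :
    (kc t G : ℝ) ≤ kc t (lgk_H G p q j) + (j : ℝ) * N := by
  induction j with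
  | zero => simp [lgk_H]
  | succ j ih =>
    have h1 := ih (fun i hi => h i (by omega))
    have h2 : kc t (lgk_H G p q j) ≤ kc t (lgk_H G p q (j + 1)) +
        {K : Finset (Fin n) | G.IsNClique t K ∧ p j ∈ K ∧ q j ∈ K}.ncard := by
      unfold kc
      refine le_trans (Set.ncard_le_ncard ?_ (Set.toFinite _)) (Set.ncard_union_le _ _)
      intro K hK
      by_cases hpq : p j ∈ K ∧ q j ∈ K
      · right
        refine ⟨?_, hpq⟩
        have hK' : (lgk_H G p q j).IsNClique t K := hK
        rw [SimpleGraph.isNClique_iff] at hK' ⊢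
        refine ⟨?_, hK'.2⟩
        intro a ha b hb hab
        exact ((lgk_adj G p q j a b).mp (hK'.1 ha hb hab)).1
      · left
        have hK' : (lgk_H G p q j).IsNClique t K := hK
        show (lgk_H G p q (j + 1)).IsNClique t K
        rw [SimpleGraph.isNClique_iff] at hK' ⊢
        refine ⟨?_, hK'.2⟩
        intro a ha b hb hab
        rw [lgk_H, SimpleGraph.deleteEdges_adj]
        refine ⟨hK'.1 ha hb hab, ?_⟩
        intro hs
        rw [Set.mem_singleton_iff, Sym2.eq_iff] at hs
        rcases hs with ⟨h5, h6⟩ | ⟨h5, h6⟩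
        · exact hpq ⟨h5 ▸ ha, h6 ▸ hb⟩
        · exact hpq ⟨h6 ▸ hb, h5 ▸ ha⟩
    have h3 := h j (by omega)
    have h4 : (kc t (lgk_H G p q j) : ℝ) ≤ kc t (lgk_H G p q (j + 1)) +
        ({K : Finset (Fin n) | G.IsNClique t K ∧ p j ∈ K ∧ q j ∈ K}.ncard : ℝ) := by
      exact_mod_cast h2
    push_cast
    linarith

/-- number of the cliques of a complete multipartite graph through two vertices -/
private theorem lgk_two {n R m : ℕ} (t : ℕ) (ht : 2 ≤ t) (G : SimpleGraph (Fin n))
    (c : Fin n → Fin (R + 1)) (hG : ∀ u v, G.Adj u v ↔ c u ≠ c v)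
    (hc : ∀ i, (univ.filter (fun v => c v = i)).card ≤ m + 1) {u v : Fin n} (huv : c u ≠ c v) :
    (({K : Finset (Fin n) | G.IsNClique t K ∧ u ∈ K ∧ v ∈ K}.ncard : ℕ) : ℝ) ≤
      ((R - 1).choose (t - 2) : ℝ) * ((m : ℝ) + 1) ^ (t - 2) := by
  classical
  -- the other classes
  let A : Fin (R + 1) → Finset (Fin n) := fun i =>
    if i = c u ∨ i = c v then ∅ else univ.filter (fun w => c w = i)
  have hA : ∀ i w, w ∈ A i → c w = i ∧ i ≠ c u ∧ i ≠ c v := by
    intro i w hw
    simp only [A] at hw
    split_ifs at hw with h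
    · simp at hw
    · push Not at h
      exact ⟨(Finset.mem_filter.mp hw).2, h.1, h.2⟩
  have hd : ∀ i j, i ≠ j → Disjoint (A i) (A j) := by
    intro i j hij
    rw [Finset.disjoint_left]
    intro w hw hw'
    exact hij ((hA i w hw).1.symm.trans (hA j w hw').1)
  have huvne : u ≠ v := fun h => huv (by rw [h])
  have h1 : {K : Finset (Fin n) | G.IsNClique t K ∧ u ∈ K ∧ v ∈ K}.ncard ≤
      (tr A (t - 2)).card := by
    rw [← Set.ncard_coe_finset]
    refine Set.ncard_le_ncard_of_injOn (fun K => (K.erase u).erase v) ?_ ?_ (Finset.finite_toSet _)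
    · rintro K ⟨hK, hu, hv⟩
      rw [SimpleGraph.isNClique_iff] at hK
      rw [Finset.mem_coe]
      unfold tr
      rw [Finset.mem_filter, Finset.mem_powersetCard]
      have hv' : v ∈ K.erase u := Finset.mem_erase.mpr ⟨huvne.symm, hv⟩
      refine ⟨⟨?_, ?_⟩, ?_⟩
      · intro w hw
        rw [Finset.mem_erase, Finset.mem_erase] at hw
        unfold tot
        rw [Finset.mem_biUnion]
        refine ⟨c w, Finset.mem_univ _, ?_⟩
        have e1 : c w ≠ c u := (hG w u).mp (hK.1 hw.2.2 hu hw.2.1)
        have e2 : c w ≠ c v := (hG w v).mp (hK.1 hw.2.2 hv hw.1)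
        simp only [A]
        rw [if_neg (by push Not; exact ⟨e1, e2⟩)]
        simp
      · rw [Finset.card_erase_of_mem hv', Finset.card_erase_of_mem hu, hK.2]
        omega
      · intro i
        rw [Finset.card_le_one]
        intro a ha b hb
        rw [Finset.mem_inter] at ha hb
        by_contra hab
        have e1 : a ∈ K := Finset.mem_of_mem_erase (Finset.mem_of_mem_erase ha.1)
        have e2 : b ∈ K := Finset.mem_of_mem_erase (Finset.mem_of_mem_erase hb.1)
        exact (hG a b).mp (hK.1 e1 e2 hab) ((hA i a ha.2).1.trans (hA i b hb.2).1.symm)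
    · rintro K ⟨-, hu, hv⟩ L ⟨-, hu', hv'⟩ hKL
      simp only at hKL
      have e1 : v ∈ K.erase u := Finset.mem_erase.mpr ⟨huvne.symm, hv⟩
      have e2 : v ∈ L.erase u := Finset.mem_erase.mpr ⟨huvne.symm, hv'⟩
      have e3 : K.erase u = L.erase u := by
        rw [← Finset.insert_erase e1, ← Finset.insert_erase e2, hKL]
      rw [← Finset.insert_erase hu, ← Finset.insert_erase hu', e3]
  have h2 : ((tr A (t - 2)).card : ℝ) ≤
      ((R - 1).choose (t - 2) : ℝ) * ((m : ℝ) + 1) ^ (t - 2) := by
    rw [tr_card A hd]
    unfold es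
    have hz : ∀ i, (i = c u ∨ i = c v) → ((A i).card : ℝ) = 0 := by
      intro i hi
      simp only [A]
      rw [if_pos hi]
      simp
    have hle : ∀ i, ((A i).card : ℝ) ≤ (m : ℝ) + 1 := by
      intro i
      simp only [A]
      split_ifs
      · simp; positivity
      · exact_mod_cast hc i
    have h3 : ∑ S ∈ (univ : Finset (Fin (R + 1))).powersetCard (t - 2), ∏ i ∈ S, ((A i).card : ℝ) =
        ∑ S ∈ ((univ.erase (c u)).erase (c v)).powersetCard (t - 2),
          ∏ i ∈ S, ((A i).card : ℝ) := by
      symm
      refine Finset.sum_subset (Finset.powersetCard_mono (Finset.subset_univ _)) ?_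
      intro S hS hS'
      rw [Finset.mem_powersetCard] at hS hS'
      have h4 : ¬ S ⊆ (univ.erase (c u)).erase (c v) := fun h => hS' ⟨h, hS.2⟩
      rw [Finset.not_subset] at h4
      obtain ⟨i, hi, hi'⟩ := h4
      refine Finset.prod_eq_zero hi (hz i ?_)
      rw [Finset.mem_erase, Finset.mem_erase] at hi'
      by_contra hcon
      push Not at hcon
      exact hi' ⟨hcon.2, hcon.1, Finset.mem_univ _⟩
    rw [h3]
    have h5 : ∀ S ∈ ((univ.erase (c u)).erase (c v)).powersetCard (t - 2),
        ∏ i ∈ S, ((A i).card : ℝ) ≤ ((m : ℝ) + 1) ^ (t - 2) := by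
      intro S hS
      rw [Finset.mem_powersetCard] at hS
      rw [← hS.2]
      refine (Finset.prod_le_prod (fun i _ => Nat.cast_nonneg _) fun i _ => hle i).trans
        (le_of_eq ?_)
      rw [Finset.prod_const]
    refine (Finset.sum_le_sum h5).trans (le_of_eq ?_)
    rw [Finset.sum_const, Finset.card_powersetCard, Finset.card_erase_of_mem, Finset.card_erase_of_mem
      (Finset.mem_univ _), Finset.card_univ, Fintype.card_fin, nsmul_eq_mul]
    · rfl
    · exact Finset.mem_erase.mpr ⟨huv.symm, Finset.mem_univ _⟩
  calc (({K : Finset (Fin n) | G.IsNClique t K ∧ u ∈ K ∧ v ∈ K}.ncard : ℕ) : ℝ)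
      ≤ ((tr A (t - 2)).card : ℝ) := by exact_mod_cast h1
    _ ≤ _ := h2

theorem low_GK (R r m t : ℕ) (hr : r + 2 ≤ R) (hm : 1 ≤ m) (ht : 2 ≤ t) :
    ∃ G0 ∈ Cls ((R + 1) * m + r + 1) (R * m + r) (R + 1),
      KL R (r + 1) m t - ((((R - r) * m + 1) / 2 : ℕ) : ℝ) * ((R - 1).choose (t - 2) : ℝ) *
        ((m : ℝ) + 1) ^ (t - 2) ≤ (kc t G0 : ℝ) := by
  classical
  obtain ⟨s, rfl⟩ : ∃ s, R = r + s := ⟨R - r, by omega⟩
  have hs : 2 ≤ s := by omega
  generalize hn' : (r + s + 1) * m + r + 1 = n
  have hn : n = s * m + (r + 1) * (m + 1) := by rw [← hn']; ring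
  have hsm : 2 ≤ s * m := by
    calc 2 ≤ s := hs
      _ = s * 1 := by ring
      _ ≤ s * m := Nat.mul_le_mul_left _ hm
  have hsmn : s * m < n := by
    rw [hn]; have : 0 < (r + 1) * (m + 1) := by positivity
    omega
  -- the classes
  let c : Fin n → Fin (r + s + 1) := fun v => ⟨lgk_c s r m v.val, lgk_c_lt s r m v.val hs⟩
  have hc : ∀ v, (c v).val = lgk_c s r m v.val := fun v => rfl
  have hcard : ∀ i : Fin (r + s + 1), (univ.filter (fun v => c v = i)).card =
      if i.val < s then m else m + 1 := by
    intro i
    have h1 : (univ.filter (fun v => c v = i)) =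
        univ.filter (fun v : Fin n => lgk_c s r m v.val = i.val) := by
      ext v
      simp only [Finset.mem_filter, Finset.mem_univ, true_and, ← hc, Fin.ext_iff]
    rw [h1]
    split_ifs with h
    · exact lgk_card_small s r m n i.val hs hn h
    · exact lgk_card_big s r m n i.val hs hn (by omega) i.isLt
  -- the pairs
  let p : ℕ → Fin n := fun j => ⟨min (2 * j) (s * m - 2), by omega⟩
  let q : ℕ → Fin n := fun j => ⟨min (2 * j) (s * m - 2) + 1, by omega⟩
  have hpq : ∀ j, c (p j) ≠ c (q j) := by
    intro j hj
    have : lgk_c s r m (p j).val = lgk_c s r m (q j).val := by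
      rw [← hc, ← hc, hj]
    exact lgk_c_ne s r m (min (2 * j) (s * m - 2)) 1 hs le_rfl (by omega) (by omega) this
  have hps : ∀ j, (c (p j)).val < s := by
    intro j
    rw [hc, lgk_c_small s r m _ hs]
    show min (2 * j) (s * m - 2) < s * m
    omega
  have hqs : ∀ j, (c (q j)).val < s := by
    intro j
    rw [hc, lgk_c_small s r m _ hs]
    show min (2 * j) (s * m - 2) + 1 < s * m
    omega
  -- the complete multipartite graph
  let G : SimpleGraph (Fin n) :=
    { Adj := fun u v => c u ≠ c v
      symm := ⟨fun u v h => Ne.symm h⟩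
      loopless := ⟨fun u h => h rfl⟩ }
  have hG : ∀ u v, G.Adj u v ↔ c u ≠ c v := fun u v => Iff.rfl
  have hHc : ∀ j u v, (lgk_H G p q j).Adj u v → c u ≠ c v := by
    intro j u v h
    exact ((lgk_adj G p q j u v).mp h).1
  set K := (s * m + 1) / 2 with hK
  refine ⟨lgk_H G p q K, ⟨?_, ?_⟩, ?_⟩
  · -- degrees
    intro v
    by_cases hv : v.val < s * m
    · -- small vertex
      obtain ⟨w, hw1, hw2⟩ : ∃ w, c w ≠ c v ∧ ¬ (lgk_H G p q K).Adj v w := by
        have hi : v.val / 2 < K := by omega
        have h1 : v = p (v.val / 2) ∨ v = q (v.val / 2) := by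
          rcases Nat.even_or_odd' v.val with ⟨k, hk | hk⟩
          · by_cases h2 : v.val ≤ s * m - 2
            · left
              apply Fin.ext
              show v.val = min (2 * (v.val / 2)) (s * m - 2)
              omega
            · right
              apply Fin.ext
              show v.val = min (2 * (v.val / 2)) (s * m - 2) + 1
              omega
          · right
            apply Fin.ext
            show v.val = min (2 * (v.val / 2)) (s * m - 2) + 1
            omega
        rcases h1 with h1 | h1
        · refine ⟨q (v.val / 2), ?_, ?_⟩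
          · conv_rhs => rw [h1]
            exact (hpq _).symm
          · intro hadj
            have := ((lgk_adj G p q K _ _).mp hadj).2 (v.val / 2) hi
            apply this
            rw [← h1]
        · refine ⟨p (v.val / 2), ?_, ?_⟩
          · conv_rhs => rw [h1]
            exact hpq _
          · intro hadj
            have := ((lgk_adj G p q K _ _).mp hadj).2 (v.val / 2) hi
            apply this
            rw [← h1, Sym2.eq_swap]
      have h1 : (lgk_H G p q K).neighborSet v ⊆
          ((univ \ univ.filter (fun u => c u = c v)).erase w : Finset (Fin n)) := by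
        intro u hu
        rw [SimpleGraph.mem_neighborSet] at hu
        simp only [Finset.coe_erase, Set.mem_sdiff, Finset.mem_coe, Finset.mem_sdiff,
          Finset.mem_univ, Finset.mem_filter, true_and, Set.mem_singleton_iff]
        refine ⟨fun h => hHc K v u hu h.symm, ?_⟩
        rintro rfl
        exact hw2 hu
      have h2 := Set.ncard_le_ncard h1 (Finset.finite_toSet _)
      rw [Set.ncard_coe_finset, Finset.card_erase_of_mem (by simp [hw1]),
        Finset.card_sdiff_of_subset (Finset.subset_univ _), hcard, if_pos (by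
          rw [hc, lgk_c_small s r m _ hs]; exact hv), Finset.card_univ, Fintype.card_fin] at h2
      refine h2.trans (le_of_eq ?_)
      have : n = (r + s) * m + r + m + 1 := by rw [hn]; ring
      omega
    · have h1 : (lgk_H G p q K).neighborSet v ⊆
          ((univ \ univ.filter (fun u => c u = c v)) : Finset (Fin n)) := by
        intro u hu
        rw [SimpleGraph.mem_neighborSet] at hu
        simp only [Finset.mem_coe, Finset.mem_sdiff,
          Finset.mem_univ, Finset.mem_filter, true_and]
        exact fun h => hHc K v u hu h.symm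
      have h2 := Set.ncard_le_ncard h1 (Finset.finite_toSet _)
      rw [Set.ncard_coe_finset,
        Finset.card_sdiff_of_subset (Finset.subset_univ _), hcard, if_neg (by
          rw [hc, lgk_c_small s r m _ hs]; exact hv), Finset.card_univ, Fintype.card_fin] at h2
      refine h2.trans (le_of_eq ?_)
      have : n = (r + s) * m + r + m + 1 := by rw [hn]; ring
      omega
  · -- no large clique
    have hcol : (lgk_H G p q K).Colorable (r + s + 1) :=
      ⟨SimpleGraph.Coloring.mk c fun {u v} h => hHc K u v h⟩
    exact hcol.cliqueFree (by omega)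
  · -- cliques
    have hG2 : ∀ u v, G.Adj u v ↔ Fin.rev (c u) ≠ Fin.rev (c v) := by
      intro u v
      rw [hG, ne_eq, ne_eq, Fin.rev_inj]
    have hkc : (kc t G : ℝ) = KL (r + s) (r + 1) m t := by
      rw [mpK t G (fun v => Fin.rev (c v)) hG2]
      unfold KL
      congr 1
      funext i
      have e1 : (univ.filter (fun v => Fin.rev (c v) = i)) = univ.filter (fun v => c v = Fin.rev i) := by
        ext v
        simp only [Finset.mem_filter, Finset.mem_univ, true_and]
        constructor
        · intro h
          rw [← h, Fin.rev_rev]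
        · intro h
          rw [h, Fin.rev_rev]
      rw [e1, hcard, Fin.val_rev]
      have hi := i.isLt
      by_cases h : i.val < r + 1
      · rw [if_pos h, if_neg (by omega)]
        push_cast
        ring
      · rw [if_neg h, if_pos (by omega)]
        ring
    have hcm : ∀ i, (univ.filter (fun v => c v = i)).card ≤ m + 1 := by
      intro i
      rw [hcard i]
      split_ifs <;> omega
    have h1 := lgk_kc t G p q (((r + s - 1).choose (t - 2) : ℝ) * ((m : ℝ) + 1) ^ (t - 2)) K
      (fun i _ => lgk_two t ht G c hG hcm (hpq i))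
    rw [hkc] at h1
    rw [show r + s - r = s by omega, ← hK]
    linarith

end Pool.Agent.H45.KTD
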