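import Pool.Agent.H45.KTD.EsP
import Pool.Agent.H45.KTD.PSp

/-!
# KTD LGn: `G*` is better than `L` if `t (R - r) < 2 R` (numerical)

`KL (r + 1) - KL r` is `∑_j C(R + 1 - j, t - j) m ^ (t - j) (C(r + 1, j) - C(r, j))` (`es_add`, `es_ind`), so
`≥ C(R, t-1) m ^ (t-1)` (term `j = 1`).  `KL r = PL ((R + 1) m + r)`, `PL ≤ C(R, t-1) m ^ (t-1) / t + C m ^ (t-2)` (`PL_hi`).  With
`κ = C(R - 1, t - 2) > 0`, `C(R, t-1) (t - 1) = κ R`, `q = R - r` the difference of the two sides is at least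
`κ (R/t - q/2) m ^ (t-1) - C' m ^ (t-2) > 0` for large `m`.
-/

set_option autoImplicit false

open Finset

namespace Pool.Agent.H45.KTD

private theorem succ_pow_bd (m : ℝ) (hm : 1 ≤ m) (n : ℕ) :
    m * (m + 1) ^ n ≤ (m + 3 ^ n) * m ^ n := by
  induction n with
  | zero => simp
  | succ n ih =>
    have h1 : m * (m + 1) ^ (n + 1) ≤ (m + 3 ^ n) * m ^ n * (m + 1) := by
      calc m * (m + 1) ^ (n + 1) = m * (m + 1) ^ n * (m + 1) := by ring
        _ ≤ _ := mul_le_mul_of_nonneg_right ih (by linarith)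
    refine h1.trans ?_
    have h2 : (1 : ℝ) ≤ 3 ^ n := one_le_pow₀ (by norm_num)
    have h3 : (m + 3 ^ n) * (m + 1) ≤ (m + 3 ^ (n + 1)) * m := by
      rw [pow_succ]
      nlinarith [mul_nonneg (by linarith : (0 : ℝ) ≤ 3 ^ n - 1) (by linarith : (0 : ℝ) ≤ m - 1)]
    calc (m + 3 ^ n) * m ^ n * (m + 1) = ((m + 3 ^ n) * (m + 1)) * m ^ n := by ring
      _ ≤ ((m + 3 ^ (n + 1)) * m) * m ^ n := mul_le_mul_of_nonneg_right h3 (by positivity)
      _ = _ := by ring

private theorem KL_step (R r m t : ℕ) (hr : r + 1 ≤ R) (ht : 1 ≤ t) :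
    (R.choose (t - 1) : ℝ) * (m : ℝ) ^ (t - 1) + KL R r m t ≤ KL R (r + 1) m t := by
  obtain ⟨s, rfl⟩ : ∃ s, t = s + 1 := ⟨t - 1, by omega⟩
  rw [Nat.add_sub_cancel]
  have h0 : ∀ r' : ℕ, r' ≤ R → KL R r' m (s + 1) =
      ∑ j ∈ range (s + 2), ((R + 1 - j).choose (s + 1 - j) : ℝ) * (m : ℝ) ^ (s + 1 - j) *
        (r'.choose j : ℝ) := by
    intro r' hr'
    have h2 := es_add (k := R + 1) (s + 1) (m : ℝ)
      (fun i : Fin (R + 1) => if (i : ℕ) < r' then (1 : ℝ) else 0)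
    unfold KL
    rw [h2]
    refine sum_congr rfl (fun j _ => ?_)
    rw [es_ind r' j (by omega)]
  have h1 : KL R (r + 1) m (s + 1) - KL R r m (s + 1) =
      ∑ j ∈ range (s + 2), ((R + 1 - j).choose (s + 1 - j) : ℝ) * (m : ℝ) ^ (s + 1 - j) *
        (((r + 1).choose j : ℝ) - (r.choose j : ℝ)) := by
    rw [h0 r (by omega), h0 (r + 1) hr, ← sum_sub_distrib]
    exact sum_congr rfl (fun j _ => by ring)
  have h2 : ∀ j ∈ range (s + 2), 0 ≤ ((R + 1 - j).choose (s + 1 - j) : ℝ) *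
      (m : ℝ) ^ (s + 1 - j) * (((r + 1).choose j : ℝ) - (r.choose j : ℝ)) := by
    intro j _
    have h3 : (r.choose j : ℝ) ≤ ((r + 1).choose j : ℝ) := by
      exact_mod_cast Nat.choose_le_choose j (Nat.le_succ r)
    exact mul_nonneg (by positivity) (by linarith)
  have h3 := single_le_sum h2 (show 1 ∈ range (s + 2) by rw [mem_range]; omega)
  rw [← h1] at h3
  have e1 : R + 1 - 1 = R := rfl
  have e2 : s + 1 - 1 = s := rfl
  rw [e1, e2, Nat.choose_one_right, Nat.choose_one_right] at h3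
  push_cast at h3
  have e3 : (r : ℝ) + 1 - r = 1 := by ring
  rw [e3, mul_one] at h3
  linarith

theorem lgn (R r t : ℕ) (hR : 4 ≤ R) (hr : r + 2 ≤ R) (ht : 4 ≤ t) (htR : t ≤ R + 1)
    (h : t * (R - r) < 2 * R) : ∃ m0 : ℕ, ∀ m : ℕ, m0 ≤ m →
      PL R r m t * ((R + 1) * m + r + 1) < KL R (r + 1) m t -
        ((((R - r) * m + 1) / 2 : ℕ) : ℝ) * ((R - 1).choose (t - 2) : ℝ) *
          ((m : ℝ) + 1) ^ (t - 2) := by
  obtain ⟨C, hC, hhi⟩ := PL_hi R r t (by omega) (by omega)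
  obtain ⟨n, rfl⟩ : ∃ n, t = n + 2 := ⟨t - 2, by omega⟩
  have e1 : n + 2 - 1 = n + 1 := rfl
  have e2 : n + 2 - 2 = n := rfl
  rw [e1, e2] at hhi
  rw [e2]
  set κ : ℝ := ((R - 1).choose n : ℝ) with hκ
  have hκ1 : 1 ≤ κ := by
    rw [hκ]
    exact_mod_cast Nat.choose_pos (show n ≤ R - 1 by omega)
  have hid : (R : ℝ) * κ = (R.choose (n + 1) : ℝ) * (n + 1) := by
    have h1 := Nat.add_one_mul_choose_eq (R - 1) n
    have h2 : (R - 1) + 1 = R := by omega
    rw [h2] at h1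
    rw [hκ]
    exact_mod_cast h1
  set q : ℝ := (R : ℝ) - r with hq
  have hq0 : 0 ≤ q := by
    have : (r : ℝ) + 2 ≤ R := by exact_mod_cast hr
    rw [hq]
    linarith
  have hn : (0 : ℝ) < (n : ℝ) + 2 := by positivity
  have hδ : 0 < (R : ℝ) / (n + 2) - q / 2 := by
    have h1 : ((n + 2 : ℕ) : ℝ) * ((R - r : ℕ) : ℝ) < 2 * (R : ℝ) := by exact_mod_cast h
    rw [Nat.cast_sub (by omega)] at h1
    push_cast at h1
    rw [sub_pos, div_lt_div_iff₀ (by norm_num) hn]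
    rw [hq]
    linarith
  set δ : ℝ := (R : ℝ) / (n + 2) - q / 2 with hδd
  set D : ℝ := 3 ^ n with hD
  have hD0 : 0 < D := by positivity
  obtain ⟨m1, hm1⟩ := exists_nat_gt ((C + κ / 2 * (1 + q * D + D)) / (κ * δ))
  refine ⟨m1 + 1, fun m hm => ?_⟩
  have hm1' : 1 ≤ m := by omega
  have hmR : (1 : ℝ) ≤ m := by exact_mod_cast hm1'
  have hmm : (C + κ / 2 * (1 + q * D + D)) / (κ * δ) < m := by
    refine hm1.trans_le ?_
    exact_mod_cast (by omega : m1 ≤ m)
  have hκδ : 0 < κ * δ := mul_pos (by linarith) hδ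
  rw [div_lt_iff₀ hκδ] at hmm
  have hhi' := hhi m hm1'
  have hstep := KL_step R r m (n + 2) (by omega) (by omega)
  rw [e1] at hstep
  have hKL : KL R r m (n + 2) = PL R r m (n + 2) * ((R + 1) * m + r) := by
    unfold PL
    rw [div_mul_cancel₀]
    have : 0 < ((R : ℝ) + 1) * m + r := by positivity
    exact this.ne'
  set M : ℝ := (m : ℝ) ^ n with hM
  have hM0 : 0 < M := by positivity
  have hMs : (m : ℝ) ^ (n + 1) = m * M := by
    rw [hM]
    ring
  rw [hMs] at hhi' hstep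
  have hpow : ((m : ℝ) + 1) ^ n ≤ (1 + D / m) * M := by
    have h1 := succ_pow_bd (m : ℝ) hmR n
    have h2 : (1 + D / m) * M = ((m + D) * M) / m := by
      field_simp
    rw [h2, le_div_iff₀ (by linarith)]
    linarith
  have hN : ((((R - r) * m + 1) / 2 : ℕ) : ℝ) ≤ (q * m + 1) / 2 := by
    refine (Nat.cast_div_le (α := ℝ)).trans (le_of_eq ?_)
    push_cast
    rw [Nat.cast_sub (by omega), hq]
  have hNκ : ((((R - r) * m + 1) / 2 : ℕ) : ℝ) * κ * ((m : ℝ) + 1) ^ n ≤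
      κ / 2 * (q * m + (1 + q * D + D)) * M := by
    have h1 : ((((R - r) * m + 1) / 2 : ℕ) : ℝ) * κ * ((m : ℝ) + 1) ^ n ≤
        (q * m + 1) / 2 * κ * ((1 + D / m) * M) := by
      refine mul_le_mul (mul_le_mul_of_nonneg_right hN (by linarith)) hpow (by positivity) ?_
      positivity
    refine h1.trans ?_
    have h2 : (q * m + 1) * (1 + D / m) ≤ q * m + (1 + q * D + D) := by
      have h3 : (q * m + 1) * (1 + D / m) = q * m + 1 + q * D + D / m := by
        field_simp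
        ring
      have h4 : D / m ≤ D := div_le_self hD0.le hmR
      rw [h3]
      linarith
    have h5 : 0 ≤ κ / 2 * M := by positivity
    calc (q * m + 1) / 2 * κ * ((1 + D / m) * M)
        = ((q * m + 1) * (1 + D / m)) * (κ / 2 * M) := by ring
      _ ≤ (q * m + (1 + q * D + D)) * (κ / 2 * M) := mul_le_mul_of_nonneg_right h2 h5
      _ = _ := by ring
  have hcoef : (R.choose (n + 1) : ℝ) - (R.choose (n + 1) : ℝ) / (n + 2) =
      κ * ((R : ℝ) / (n + 2)) := by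
    have h1 : κ * ((R : ℝ) / (n + 2)) = (R * κ) / (n + 2) := by ring
    rw [h1, hid]
    field_simp
    ring
  have hcast : ((n + 2 : ℕ) : ℝ) = (n : ℝ) + 2 := by push_cast; ring
  rw [hcast] at hhi'
  have hexp : PL R r m (n + 2) * ((R + 1) * m + r + 1) =
      KL R r m (n + 2) + PL R r m (n + 2) := by
    rw [hKL]
    ring
  rw [hexp]
  have hgoal : PL R r m (n + 2) + κ / 2 * (q * m + (1 + q * D + D)) * M <
      (R.choose (n + 1) : ℝ) * (m * M) := by
    have h1 : (C + κ / 2 * (1 + q * D + D)) * M < (m * (κ * δ)) * M :=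
      mul_lt_mul_of_pos_right hmm hM0
    have h2 : (R.choose (n + 1) : ℝ) * (m * M) =
        (R.choose (n + 1) : ℝ) * (m * M) / (n + 2) + κ * ((R : ℝ) / (n + 2)) * (m * M) := by
      rw [← hcoef]
      ring
    have h3 : κ * ((R : ℝ) / (n + 2)) * (m * M) = m * (κ * δ) * M + κ / 2 * (q * m) * M := by
      rw [hδd]
      ring
    rw [h2, h3]
    linarith
  linarith

end Pool.Agent.H45.KTD
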