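import Pool.Agent.H45.KTD.ClsK
import Pool.Agent.H45.KTD.Tra

/-!
# KTD LowLK: complete multipartite graphs

`mpK`: in the complete multipartite graph with classes the fibres of `c` the `t`-cliques are the transversal sets of the classes
(`tr_card`, `kq_univ`).
`kc_turan`: `turanGraph n k` has `v ~ w` iff `v % k ≠ w % k` (`SimpleGraph.turanGraph`); with `n = (R + 1) m + r`, `k = R + 1` the class `i` has `m + 1`
elements if `i < r` and `m` elements otherwise (`Nat.count_modEq_card` or a direct bijection).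
`turan_cls`: degrees `n - (m + 1)` and `n - m = R m + r`; `(R + 1)`-partite, so no clique with `R + 2` vertices
(`SimpleGraph.turanGraph_cliqueFree`).
See also `Pool.Agent.H11.TD.LowL`, `Pool.Agent.H11.TD.Tur` (real files).
-/

set_option autoImplicit false

open Finset

namespace Pool.Agent.H45.KTD

open Pool.Agent.H11.TD

theorem mpK {n k : ℕ} (t : ℕ) (G : SimpleGraph (Fin n)) (c : Fin n → Fin k)
    (h : ∀ u v, G.Adj u v ↔ c u ≠ c v) :
    (kc t G : ℝ) = es t (fun i => ((univ.filter (fun v => c v = i)).card : ℝ)) := by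
  have hd : ∀ i j : Fin k, i ≠ j → Disjoint (univ.filter (fun v => c v = i))
      (univ.filter (fun v => c v = j)) := by
    intro i j hij
    rw [Finset.disjoint_left]
    intro v hv hv'
    exact hij ((mem_filter.1 hv).2.symm.trans (mem_filter.1 hv').2)
  rw [← tr_card (fun i => univ.filter (fun v => c v = i)) hd t]
  have h1 : kc t G = (cq G t univ).card := (kq_univ G t).symm
  rw [h1]
  congr 2
  ext K
  rw [mem_cq]
  unfold tr
  rw [mem_filter, mem_powersetCard]
  have htot : tot (fun i => univ.filter (fun v => c v = i)) = (univ : Finset (Fin n)) := by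
    ext v
    unfold tot
    simp
  rw [htot]
  constructor
  · rintro ⟨_, hc, hK⟩
    refine ⟨⟨subset_univ _, hc⟩, fun i => ?_⟩
    rw [card_le_one]
    intro u hu v hv
    rw [mem_inter, mem_filter] at hu hv
    by_contra hne
    exact (h u v).1 (hK (mem_coe.2 hu.1) (mem_coe.2 hv.1) hne) (hu.2.2.trans hv.2.2.symm)
  · rintro ⟨⟨_, hc⟩, hK⟩
    refine ⟨subset_univ _, hc, ?_⟩
    intro u hu v hv hne
    rw [h]
    intro hcc
    have h2 := hK (c v)
    rw [card_le_one] at h2
    refine hne (h2 u ?_ v ?_)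
    · rw [mem_inter, mem_filter]
      exact ⟨mem_coe.1 hu, mem_univ _, hcc⟩
    · rw [mem_inter, mem_filter]
      exact ⟨mem_coe.1 hv, mem_univ _, rfl⟩

/-- the class of a vertex -/
private def lowLK_c (R n : ℕ) (v : Fin n) : Fin (R + 1) :=
  ⟨v.1 % (R + 1), Nat.mod_lt _ (Nat.succ_pos R)⟩

private theorem lowLK_card (R r m : ℕ) (hr : r ≤ R) (i : Fin (R + 1)) :
    (univ.filter (fun v : Fin ((R + 1) * m + r) => lowLK_c R _ v = i)).card =
      m + if i.1 < r then 1 else 0 := by
  have h1 : (univ.filter (fun v : Fin ((R + 1) * m + r) => lowLK_c R _ v = i)).card =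
      ((range ((R + 1) * m + r)).filter (fun v => v ≡ i.1 [MOD (R + 1)])).card := by
    refine card_bij (fun v _ => v.1) ?_ ?_ ?_
    · intro v hv
      rw [mem_filter] at hv ⊢
      refine ⟨mem_range.2 v.2, ?_⟩
      have h2 := congrArg Fin.val hv.2
      unfold Nat.ModEq
      rw [Nat.mod_eq_of_lt i.2]
      exact h2
    · intro v _ w _ h
      exact Fin.ext h
    · intro v hv
      rw [mem_filter] at hv
      refine ⟨⟨v, mem_range.1 hv.1⟩, ?_, rfl⟩
      rw [mem_filter]
      refine ⟨mem_univ _, Fin.ext ?_⟩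
      have h2 := hv.2
      unfold Nat.ModEq at h2
      rw [Nat.mod_eq_of_lt i.2] at h2
      exact h2
  rw [h1, ← Nat.count_eq_card_filter_range, Nat.count_modEq_card _ (Nat.succ_pos R),
    Nat.mod_eq_of_lt i.2]
  have h2 : ((R + 1) * m + r) % (R + 1) = r := by
    rw [Nat.mul_add_mod, Nat.mod_eq_of_lt (by omega)]
  have h3 : ((R + 1) * m + r) / (R + 1) = m := by
    rw [Nat.mul_add_div (Nat.succ_pos R), Nat.div_eq_of_lt (by omega), add_zero]
  rw [h2, h3]

private theorem lowLK_adj (R r m : ℕ) (u v : Fin ((R + 1) * m + r)) :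
    (SimpleGraph.turanGraph ((R + 1) * m + r) (R + 1)).Adj u v ↔
      lowLK_c R _ u ≠ lowLK_c R _ v := by
  unfold lowLK_c
  rw [Ne, Fin.mk.injEq]
  rfl

theorem kc_turan (R r m t : ℕ) (hr : r ≤ R) :
    (kc t (SimpleGraph.turanGraph ((R + 1) * m + r) (R + 1)) : ℝ) = KL R r m t := by
  rw [mpK t _ (lowLK_c R _) (lowLK_adj R r m)]
  unfold KL
  congr 1
  funext i
  rw [lowLK_card R r m hr]
  push_cast
  rfl

theorem turan_cls (R r m : ℕ) (hr : r ≤ R) :
    SimpleGraph.turanGraph ((R + 1) * m + r) (R + 1) ∈ Cls ((R + 1) * m + r) (R * m + r) (R + 1) := by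
  classical
  refine ⟨fun v => ?_, SimpleGraph.turanGraph_cliqueFree (Nat.succ_pos R)⟩
  have h1 : (SimpleGraph.turanGraph ((R + 1) * m + r) (R + 1)).neighborSet v =
      (((univ : Finset (Fin ((R + 1) * m + r))).filter
        (fun u => ¬ (lowLK_c R _ u = lowLK_c R _ v)) : Finset (Fin ((R + 1) * m + r))) :
          Set (Fin ((R + 1) * m + r))) := by
    ext u
    rw [SimpleGraph.mem_neighborSet, lowLK_adj, coe_filter, Set.mem_ofPred_eq]
    constructor
    · intro h
      exact ⟨mem_univ _, fun h' => h h'.symm⟩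
    · intro h h'
      exact h.2 h'.symm
  rw [h1, Set.ncard_coe_finset]
  have h2 := card_filter_add_card_filter_not (s := (univ : Finset (Fin ((R + 1) * m + r))))
    (fun u => lowLK_c R _ u = lowLK_c R _ v)
  rw [lowLK_card R r m hr, card_univ, Fintype.card_fin] at h2
  have h3 : (R + 1) * m = R * m + m := by ring
  omega

end Pool.Agent.H45.KTD
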