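import Pool.Agent.H45.KTD.Bas

/-!
# KTD MM: the Moon–Moser inequality and its consequence

Fix `S`, `n = |S|`, `k j = kq G j S`.
`moon_moser` (`j ≥ 2`): for a clique `A ⊆ S` let `cn A` be the set of the vertices of `S` adjacent to all vertices of `A`,
`d(A) = |cn A|`.
* `∑_{C} d(C)² = ∑_A ∑_{a ∈ A} d(A \ a)` (`C` the `(j-1)`-cliques, `A` the `j`-cliques; pairs `(C, x)`, `x ∈ cn C`,
  correspond to pairs `(A, a)`, `a ∈ A`), and in the same way `∑_C d(C) = j k_j`, `∑_A d(A) = (j + 1) k_{j+1}`.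
* For fixed `A` a vertex `x` is adjacent to all of `A \ a` for all `a ∈ A` if `x ∈ cn A`, and for at most one `a ∈ A`
  otherwise.  So `∑_{a ∈ A} d(A \ a) ≤ j d(A) + (n - d(A))`.
* Cauchy: `(j k_j)² = (∑_C d(C))² ≤ k_{j-1} ∑_C d(C)² ≤ k_{j-1} ((j - 1)(j + 1) k_{j+1} + n k_j)`.

`kq_step`: if there is no `(R + 1)`-clique in `S` then `R (j + 1) k_{j+1} ≤ (R - j) n k_j` for `1 ≤ j ≤ R`.
Downward induction from `j = R`: let `R (i + 1) k_{i+1} ≤ (R - i) n k_i`; if `k_i = 0` there is nothing to prove, otherwise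
by `moon_moser` `i² k_i² ≤ k_{i-1} k_i ((i - 1)(R - i) n / R + n)`, i.e. `i² k_i ≤ k_{i-1} n i (R - i + 1) / R`.
-/

set_option autoImplicit false

open Finset

namespace Pool.Agent.H45.KTD

open Pool.Agent.H11.TD

variable {α : Type} [Fintype α] [DecidableEq α] (G : SimpleGraph α)

open scoped Classical in
/-- common neighbours in `S` -/
private noncomputable def cn (S A : Finset α) : Finset α := S.filter (fun x => ∀ a ∈ A, G.Adj a x)

private theorem mem_cn {S A : Finset α} {x : α} :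
    x ∈ cn G S A ↔ x ∈ S ∧ ∀ a ∈ A, G.Adj a x := by
  simp only [cn, mem_filter]

private theorem sum_cn (S : Finset α) (i : ℕ) (f : Finset α → ℕ) :
    ∑ C ∈ cq G i S, (cn G S C).card * f C =
      ∑ A ∈ cq G (i + 1) S, ∑ a ∈ A, f (A.erase a) := by
  have h1 : ∑ C ∈ cq G i S, (cn G S C).card * f C =
      ∑ C ∈ cq G i S, ∑ _x ∈ cn G S C, f C :=
    sum_congr rfl (fun C _ => by rw [sum_const, smul_eq_mul])
  rw [h1, sum_sigma', sum_sigma']
  refine sum_nbij' (fun p : (_ : Finset α) × α => ⟨insert p.2 p.1, p.2⟩)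
    (fun p : (_ : Finset α) × α => ⟨p.1.erase p.2, p.2⟩) ?_ ?_ ?_ ?_ ?_
  · rintro ⟨C, x⟩ hp
    rw [mem_sigma] at hp ⊢
    dsimp only at hp ⊢
    obtain ⟨hC, hx⟩ := hp
    rw [mem_cq] at hC ⊢
    rw [mem_cn] at hx
    obtain ⟨hCS, hCc, hCq⟩ := hC
    have hxC : x ∉ C := fun h => G.irrefl (hx.2 x h)
    refine ⟨⟨insert_subset hx.1 hCS, ?_, ?_⟩, mem_insert_self x C⟩
    · rw [card_insert_of_notMem hxC, hCc]
    · rw [coe_insert]
      exact hCq.insert (fun b hb _ => (hx.2 b hb).symm)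
  · rintro ⟨A, a⟩ hp
    rw [mem_sigma] at hp ⊢
    dsimp only at hp ⊢
    obtain ⟨hA, ha⟩ := hp
    rw [mem_cq] at hA ⊢
    rw [mem_cn]
    obtain ⟨hAS, hAc, hAq⟩ := hA
    refine ⟨⟨(erase_subset a A).trans hAS, ?_, ?_⟩, hAS ha, ?_⟩
    · rw [card_erase_of_mem ha, hAc, Nat.add_sub_cancel]
    · exact hAq.subset (by exact_mod_cast erase_subset a A)
    · intro b hb
      exact hAq (mem_of_mem_erase hb) ha (ne_of_mem_erase hb)
  · rintro ⟨C, x⟩ hp
    rw [mem_sigma] at hp
    dsimp only at hp ⊢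
    have hxC : x ∉ C := fun h => G.irrefl (((mem_cn G).1 hp.2).2 x h)
    rw [erase_insert hxC]
  · rintro ⟨A, a⟩ hp
    rw [mem_sigma] at hp
    dsimp only at hp ⊢
    rw [insert_erase hp.2]
  · rintro ⟨C, x⟩ hp
    rw [mem_sigma] at hp
    dsimp only at hp ⊢
    have hxC : x ∉ C := fun h => G.irrefl (((mem_cn G).1 hp.2).2 x h)
    rw [erase_insert hxC]

private theorem cn_le (S A : Finset α) (j : ℕ) (hA : A.card = j) :
    ∑ a ∈ A, (cn G S (A.erase a)).card + (cn G S A).card ≤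
      j * (cn G S A).card + S.card := by
  classical
  have h1 : ∑ a ∈ A, (cn G S (A.erase a)).card =
      ∑ x ∈ S, (A.filter (fun a => x ∈ cn G S (A.erase a))).card := by
    have h2 : ∀ a ∈ A, (cn G S (A.erase a)).card =
        ∑ x ∈ S, if x ∈ cn G S (A.erase a) then 1 else 0 := by
      intro a _
      rw [← card_filter]
      congr 1
      ext x
      rw [mem_filter]
      exact ⟨fun h => ⟨((mem_cn G).1 h).1, h⟩, fun h => h.2⟩
    rw [sum_congr rfl h2, sum_comm]
    exact sum_congr rfl (fun x _ => (card_filter _ _).symm)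
  have h3 : (cn G S A).card = ∑ x ∈ S, if x ∈ cn G S A then 1 else 0 := by
    rw [← card_filter]
    congr 1
    ext x
    rw [mem_filter]
    exact ⟨fun h => ⟨((mem_cn G).1 h).1, h⟩, fun h => h.2⟩
  have h4 : ∀ x ∈ S, (A.filter (fun a => x ∈ cn G S (A.erase a))).card +
      (if x ∈ cn G S A then 1 else 0) ≤ j * (if x ∈ cn G S A then 1 else 0) + 1 := by
    intro x hx
    by_cases hxA : x ∈ cn G S A
    · rw [if_pos hxA, mul_one]
      have := card_filter_le A (fun a => x ∈ cn G S (A.erase a))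
      omega
    · rw [if_neg hxA, mul_zero, add_zero, zero_add, card_le_one]
      intro a ha b hb
      by_contra hab
      rw [mem_filter, mem_cn] at ha hb
      refine hxA ((mem_cn G).2 ⟨hx, fun c hc => ?_⟩)
      by_cases hca : c = a
      · refine hb.2.2 c (mem_erase.2 ⟨?_, hc⟩)
        rw [hca]
        exact hab
      · exact ha.2.2 c (mem_erase.2 ⟨hca, hc⟩)
  have h5 := sum_le_sum h4
  rw [sum_add_distrib, sum_add_distrib, ← mul_sum, ← h1, ← h3, sum_const, smul_eq_mul,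
    mul_one] at h5
  exact h5

theorem moon_moser (S : Finset α) (j : ℕ) (hj : 2 ≤ j) :
    ((j : ℝ) * kq G j S) ^ 2 ≤
      (kq G (j - 1) S : ℝ) * (((j : ℝ) ^ 2 - 1) * kq G (j + 1) S + (S.card : ℝ) * kq G j S) := by
  obtain ⟨i, rfl⟩ : ∃ i, j = i + 1 := ⟨j - 1, by omega⟩
  rw [Nat.add_sub_cancel]
  have h1 : ∑ C ∈ cq G i S, (cn G S C).card = (i + 1) * kq G (i + 1) S := by
    have h := sum_cn G S i (fun _ => 1)
    simp only [mul_one] at h
    rw [h, kq, mul_comm, ← smul_eq_mul, ← sum_const]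
    refine sum_congr rfl (fun A hA => ?_)
    rw [sum_const, smul_eq_mul, mul_one]
    exact ((mem_cq G).1 hA).2.1
  have h2 : ∑ A ∈ cq G (i + 1) S, (cn G S A).card = (i + 2) * kq G (i + 2) S := by
    have h := sum_cn G S (i + 1) (fun _ => 1)
    simp only [mul_one] at h
    rw [h, kq, mul_comm, ← smul_eq_mul, ← sum_const]
    refine sum_congr rfl (fun A hA => ?_)
    rw [sum_const, smul_eq_mul, mul_one]
    exact ((mem_cq G).1 hA).2.1
  have h3 : ∑ C ∈ cq G i S, (cn G S C).card * (cn G S C).card =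
      ∑ A ∈ cq G (i + 1) S, ∑ a ∈ A, (cn G S (A.erase a)).card :=
    sum_cn G S i (fun C => (cn G S C).card)
  have h4 : ∑ A ∈ cq G (i + 1) S, ∑ a ∈ A, (cn G S (A.erase a)).card +
      (i + 2) * kq G (i + 2) S ≤
      (i + 1) * ((i + 2) * kq G (i + 2) S) + S.card * kq G (i + 1) S := by
    have h5 : ∀ A ∈ cq G (i + 1) S, ∑ a ∈ A, (cn G S (A.erase a)).card + (cn G S A).card ≤
        (i + 1) * (cn G S A).card + S.card :=
      fun A hA => cn_le G S A (i + 1) ((mem_cq G).1 hA).2.1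
    have h6 := sum_le_sum h5
    rw [sum_add_distrib, sum_add_distrib, ← mul_sum, h2, sum_const, smul_eq_mul] at h6
    have h7 : (cq G (i + 1) S).card = kq G (i + 1) S := rfl
    rw [h7] at h6
    linarith
  have h8 : (((i : ℝ) + 1) * kq G (i + 1) S) ^ 2 ≤
      (kq G i S : ℝ) * ∑ C ∈ cq G i S, ((cn G S C).card : ℝ) ^ 2 := by
    have h9 := sq_sum_le_card_mul_sum_sq (s := cq G i S) (f := fun C => ((cn G S C).card : ℝ))
    have h10 : ∑ C ∈ cq G i S, ((cn G S C).card : ℝ) = ((i : ℝ) + 1) * kq G (i + 1) S := by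
      exact_mod_cast h1
    rw [h10] at h9
    exact h9
  have h11 : ∑ C ∈ cq G i S, ((cn G S C).card : ℝ) ^ 2 + ((i : ℝ) + 2) * kq G (i + 2) S ≤
      ((i : ℝ) + 1) * (((i : ℝ) + 2) * kq G (i + 2) S) + (S.card : ℝ) * kq G (i + 1) S := by
    have h12 : ∑ C ∈ cq G i S, ((cn G S C).card : ℝ) ^ 2 =
        ((∑ C ∈ cq G i S, (cn G S C).card * (cn G S C).card : ℕ) : ℝ) := by
      push_cast
      exact sum_congr rfl (fun C _ => by ring)
    rw [h12, h3]
    exact_mod_cast h4
  have hk : (0 : ℝ) ≤ kq G i S := Nat.cast_nonneg _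
  push_cast
  refine h8.trans (mul_le_mul_of_nonneg_left ?_ hk)
  have e : i + 1 + 1 = i + 2 := rfl
  rw [e]
  linarith

theorem kq_step {R j : ℕ} (hj : 1 ≤ j) (hjR : j ≤ R) (S : Finset α) (hS : kq G (R + 1) S = 0) :
    (R : ℝ) * ((j : ℝ) + 1) * kq G (j + 1) S ≤ ((R : ℝ) - j) * S.card * kq G j S := by
  have key : ∀ d i : ℕ, i + d = R → 1 ≤ i →
      (R : ℝ) * ((i : ℝ) + 1) * kq G (i + 1) S ≤ ((R : ℝ) - i) * S.card * kq G i S := by
    intro d
    induction d with
    | zero =>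
      intro i hi _
      have hi2 : i = R := by omega
      subst hi2
      rw [hS]
      simp
    | succ d ih =>
      intro i hi h1
      have h2 := ih (i + 1) (by omega) (by omega)
      have h3 := moon_moser G S (i + 1) (by omega)
      rw [Nat.add_sub_cancel] at h3
      have hR : (i : ℝ) + 1 ≤ R := by exact_mod_cast (by omega : i + 1 ≤ R)
      have hi0 : (1 : ℝ) ≤ i := by exact_mod_cast h1
      push_cast at h2 h3
      have e : i + 1 + 1 = i + 2 := rfl
      rw [e] at h2 h3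
      have p0 : (0 : ℝ) ≤ kq G i S := Nat.cast_nonneg _
      have p1 : (0 : ℝ) ≤ S.card := Nat.cast_nonneg _
      rcases Nat.eq_zero_or_pos (kq G (i + 1) S) with h | h
      · rw [h]
        simp only [Nat.cast_zero, mul_zero]
        exact mul_nonneg (mul_nonneg (by linarith) p1) p0
      · have hk : (0 : ℝ) < kq G (i + 1) S := by exact_mod_cast h
        have hpos : (0 : ℝ) < ((i : ℝ) + 1) * kq G (i + 1) S := by positivity
        refine le_of_mul_le_mul_left ?_ hpos
        have h4 : (R : ℝ) * ((((i : ℝ) + 1) ^ 2 - 1) * kq G (i + 2) S) ≤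
            i * (((R : ℝ) - (i + 1)) * S.card * kq G (i + 1) S) := by
          have h5 := mul_le_mul_of_nonneg_left h2 (by linarith : (0 : ℝ) ≤ i)
          refine le_trans (le_of_eq ?_) h5
          ring
        have h6 : (R : ℝ) * (((i : ℝ) + 1) * kq G (i + 1) S) ^ 2 ≤
            (kq G i S : ℝ) * ((R : ℝ) * ((((i : ℝ) + 1) ^ 2 - 1) * kq G (i + 2) S) +
              (R : ℝ) * (S.card * kq G (i + 1) S)) := by
          have h7 := mul_le_mul_of_nonneg_left h3 (by linarith : (0 : ℝ) ≤ R)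
          refine h7.trans (le_of_eq ?_)
          ring
        have h8 : (kq G i S : ℝ) * ((R : ℝ) * ((((i : ℝ) + 1) ^ 2 - 1) * kq G (i + 2) S) +
              (R : ℝ) * (S.card * kq G (i + 1) S)) ≤
            (kq G i S : ℝ) * (i * (((R : ℝ) - (i + 1)) * S.card * kq G (i + 1) S) +
              (R : ℝ) * (S.card * kq G (i + 1) S)) :=
          mul_le_mul_of_nonneg_left (by linarith) p0
        calc ((i : ℝ) + 1) * kq G (i + 1) S * ((R : ℝ) * ((i : ℝ) + 1) * kq G (i + 1) S)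
            = (R : ℝ) * (((i : ℝ) + 1) * kq G (i + 1) S) ^ 2 := by ring
          _ ≤ _ := h6.trans h8
          _ = ((i : ℝ) + 1) * kq G (i + 1) S * (((R : ℝ) - i) * S.card * kq G i S) := by ring
  exact key (R - j) j (by omega) hj

end Pool.Agent.H45.KTD
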