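import Pool.Agent.H45.KTD.Defs

/-!
# KTD Macl: Maclaurin's inequality and splitting of elementary symmetric polynomials

`fe s S v = ∑_{T ⊆ S, |T| = s} ∏_{i ∈ T} v i`.
* `bern`: `f_j = A ^ j - j A a ^ (j-1) + (j-1) a ^ j ≥ 0` for `A, a ≥ 0`: `f_{j+1} - A f_j = j a ^ (j-1) (A - a)²`.
* `macl`: induction on `S`: `fe (s) (insert i S) = fe s S + v i * fe (s-1) S`; with `n = |S| + 1`, `a` the average over `S` and
  `A` the average over `insert i S`, `v i = n A - (n - 1) a`:
  `fe ≤ C(n-1, s) a ^ s + C(n-1, s-1) (n A - (n-1) a) a ^ (s-1) = C(n, s) (s A a ^ (s-1) - (s - 1) a ^ s) ≤ C(n, s) A ^ s`.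
* `fe_split`: a subset with `s` elements of `univ` is determined by its parts in `W` and in `Wᶜ`.
-/

set_option autoImplicit false

open Finset

namespace Pool.Agent.H45.KTD

/-- elementary symmetric polynomial of the variables in `S` -/
def fe {n : ℕ} (s : ℕ) (S : Finset (Fin n)) (v : Fin n → ℝ) : ℝ :=
  ∑ T ∈ S.powersetCard s, ∏ i ∈ T, v i

private theorem Macl_fe_zero {n : ℕ} (S : Finset (Fin n)) (v : Fin n → ℝ) : fe 0 S v = 1 := by
  unfold fe
  rw [Finset.powersetCard_zero, Finset.sum_singleton, Finset.prod_empty]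

private theorem Macl_fe_empty {n : ℕ} (s : ℕ) (v : Fin n → ℝ) : fe (s + 1) ∅ v = 0 := by
  unfold fe
  rw [Finset.powersetCard_eq_empty.2 (by simp), Finset.sum_empty]

private theorem Macl_insert {n : ℕ} (s : ℕ) (S : Finset (Fin n)) (i : Fin n) (hi : i ∉ S)
    (v : Fin n → ℝ) : fe (s + 1) (insert i S) v = fe (s + 1) S v + v i * fe s S v := by
  unfold fe
  rw [Finset.powersetCard_succ_insert hi, Finset.sum_union, Finset.sum_image, Finset.mul_sum]
  · congr 1
    refine Finset.sum_congr rfl fun T hT => ?_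
    have hiT : i ∉ T := fun h => hi ((Finset.mem_powersetCard.1 hT).1 h)
    rw [Finset.prod_insert hiT]
  · intro T hT T' hT' h
    have hiT : i ∉ T := fun h => hi ((Finset.mem_powersetCard.1 hT).1 h)
    have hiT' : i ∉ T' := fun h => hi ((Finset.mem_powersetCard.1 hT').1 h)
    rw [← Finset.erase_insert hiT, ← Finset.erase_insert hiT', h]
  · rw [Finset.disjoint_left]
    intro T hT hT'
    obtain ⟨T', _, rfl⟩ := Finset.mem_image.1 hT'
    exact hi ((Finset.mem_powersetCard.1 hT).1 (Finset.mem_insert_self i T'))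

private theorem Macl_nn {n : ℕ} (s : ℕ) (S : Finset (Fin n)) (v : Fin n → ℝ)
    (hv : ∀ i ∈ S, 0 ≤ v i) : 0 ≤ fe s S v :=
  Finset.sum_nonneg fun _ hT => Finset.prod_nonneg fun i hi =>
    hv i ((Finset.mem_powersetCard.1 hT).1 hi)

private theorem Macl_split {n : ℕ} (S : Finset (Fin n)) (v : Fin n → ℝ) (W : Finset (Fin n)) :
    Disjoint S W → ∀ s, fe s (S ∪ W) v = ∑ l ∈ range (s + 1), fe (s - l) S v * fe l W v := by
  induction W using Finset.induction_on with
  | empty =>
    intro _ s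
    rw [Finset.union_empty, Finset.sum_range_succ', Nat.sub_zero, Macl_fe_zero, mul_one,
      Finset.sum_eq_zero fun l _ => by rw [Macl_fe_empty, mul_zero], zero_add]
  | insert i W hi ih =>
    intro hd s
    rw [Finset.disjoint_insert_right] at hd
    obtain ⟨hiS, hd⟩ := hd
    have hiu : i ∉ S ∪ W := by
      rw [Finset.mem_union]
      exact fun h => h.elim hiS hi
    rcases s with _ | s
    · rw [Finset.sum_range_one, Nat.sub_zero, Macl_fe_zero, Macl_fe_zero, Macl_fe_zero, mul_one]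
    · rw [Finset.union_insert, Macl_insert s _ i hiu, ih hd, ih hd, Finset.sum_range_succ' _ (s + 1),
        Finset.sum_range_succ' _ (s + 1), Macl_fe_zero, Macl_fe_zero, Finset.mul_sum]
      have e : ∀ l ∈ range (s + 1), fe (s + 1 - (l + 1)) S v * fe (l + 1) (insert i W) v =
          fe (s + 1 - (l + 1)) S v * fe (l + 1) W v + v i * (fe (s - l) S v * fe l W v) := by
        intro l _
        rw [Macl_insert l W i hi, Nat.add_sub_add_right]
        ring
      rw [Finset.sum_congr rfl e, Finset.sum_add_distrib]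
      ring

theorem bern (A a : ℝ) (hA : 0 ≤ A) (ha : 0 ≤ a) (j : ℕ) (hj : 1 ≤ j) :
    j * A * a ^ (j - 1) - ((j : ℝ) - 1) * a ^ j ≤ A ^ j := by
  obtain ⟨i, rfl⟩ : ∃ i, j = i + 1 := ⟨j - 1, by omega⟩
  clear hj
  rw [Nat.add_sub_cancel]
  induction i with
  | zero => simp
  | succ i ih =>
    have h1 := mul_le_mul_of_nonneg_left ih hA
    have h2 : 0 ≤ ((i : ℝ) + 1) * a ^ i * (A - a) ^ 2 := by positivity
    push_cast at h1 ⊢
    have e1 : A ^ (i + 1 + 1) = A * A ^ (i + 1) := by ring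
    rw [e1]
    refine le_trans ?_ h1
    have e2 : A * (((i : ℝ) + 1) * A * a ^ i - ((i : ℝ) + 1 - 1) * a ^ (i + 1)) -
        (((i : ℝ) + 1 + 1) * A * a ^ (i + 1) - ((i : ℝ) + 1 + 1 - 1) * a ^ (i + 1 + 1)) =
        ((i : ℝ) + 1) * a ^ i * (A - a) ^ 2 := by ring
    linarith

theorem macl {n : ℕ} (s : ℕ) (S : Finset (Fin n)) (v : Fin n → ℝ) (hv : ∀ i ∈ S, 0 ≤ v i) :
    fe s S v ≤ (S.card.choose s : ℝ) * ((∑ i ∈ S, v i) / S.card) ^ s := by
  induction S using Finset.induction_on generalizing s with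
  | empty =>
    rcases s with _ | s
    · rw [Macl_fe_zero]; simp
    · rw [Macl_fe_empty]; simp
  | insert i S hi ih =>
    rcases s with _ | s
    · rw [Macl_fe_zero]; simp
    · have hvS : ∀ i ∈ S, 0 ≤ v i := fun j hj => hv j (Finset.mem_insert_of_mem hj)
      have hvi : 0 ≤ v i := hv i (Finset.mem_insert_self i S)
      have h1 := ih (s + 1) hvS
      have h2 := mul_le_mul_of_nonneg_left (ih s hvS) hvi
      have hsum : 0 ≤ ∑ j ∈ S, v j := Finset.sum_nonneg hvS
      rw [Macl_insert s S i hi, Finset.card_insert_of_notMem hi, Finset.sum_insert hi]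
      obtain ⟨a, ha⟩ : ∃ a : ℝ, a = (∑ j ∈ S, v j) / S.card := ⟨_, rfl⟩
      obtain ⟨A, hA⟩ : ∃ A : ℝ, A = (v i + ∑ j ∈ S, v j) / ((S.card + 1 : ℕ) : ℝ) := ⟨_, rfl⟩
      have ha0 : 0 ≤ a := by rw [ha]; positivity
      have hA0 : 0 ≤ A := by rw [hA]; positivity
      have hSa : ∑ j ∈ S, v j = S.card * a := by
        rw [ha]
        rcases S.eq_empty_or_nonempty with h0 | h0
        · rw [h0]; simp
        · have hne : (S.card : ℝ) ≠ 0 := Nat.cast_ne_zero.2 h0.card_pos.ne'
          rw [mul_div_cancel₀ _ hne]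
      have hvA : v i = ((S.card : ℝ) + 1) * A - S.card * a := by
        have hne : (S.card : ℝ) + 1 ≠ 0 := (Nat.cast_add_one_pos S.card).ne'
        rw [← hSa, hA]
        push_cast
        rw [mul_div_cancel₀ _ hne]
        ring
      rw [← ha] at h1 h2
      rw [← hA]
      refine (add_le_add h1 h2).trans ?_
      have hb := bern A a hA0 ha0 (s + 1) (by omega)
      rw [Nat.add_sub_cancel] at hb
      have hch : ((S.card : ℝ) + 1) * (S.card.choose s : ℝ) =
          ((S.card + 1).choose (s + 1) : ℝ) * ((s : ℝ) + 1) := by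
        exact_mod_cast Nat.add_one_mul_choose_eq S.card s
      have hpas : ((S.card + 1).choose (s + 1) : ℝ) =
          (S.card.choose s : ℝ) + (S.card.choose (s + 1) : ℝ) := by
        exact_mod_cast Nat.choose_succ_succ S.card s
      have hb2 := mul_le_mul_of_nonneg_left hb
        (Nat.cast_nonneg (α := ℝ) ((S.card + 1).choose (s + 1)))
      refine le_trans (le_of_eq ?_) hb2
      rw [hvA, hpas]
      rw [hpas] at hch
      push_cast
      rw [pow_succ]
      linear_combination (A * a ^ s - a ^ s * a) * hch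

theorem fe_split {n : ℕ} (s : ℕ) (W : Finset (Fin n)) (v : Fin n → ℝ) :
    es s v = ∑ l ∈ range (s + 1), fe (s - l) Wᶜ v * fe l W v := by
  rw [← Macl_split Wᶜ v W disjoint_compl_left s, Finset.union_comm, Finset.union_compl]
  rfl

theorem fe_insert {n : ℕ} (s : ℕ) (S : Finset (Fin n)) (i : Fin n) (hi : i ∉ S) (v : Fin n → ℝ) :
    fe (s + 1) (insert i S) v = fe (s + 1) S v + v i * fe s S v :=
  Macl_insert s S i hi v

theorem es_mul {k : ℕ} (s : ℕ) (a : ℝ) (v : Fin k → ℝ) :
    es s (fun i => a * v i) = a ^ s * es s v := by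
  unfold es
  rw [Finset.mul_sum]
  refine Finset.sum_congr rfl fun T hT => ?_
  rw [Finset.prod_mul_distrib, Finset.prod_const, (Finset.mem_powersetCard.1 hT).2]

theorem fe_nn {n : ℕ} (s : ℕ) (S : Finset (Fin n)) (v : Fin n → ℝ) (hv : ∀ i ∈ S, 0 ≤ v i) :
    0 ≤ fe s S v :=
  Macl_nn s S v hv

end Pool.Agent.H45.KTD
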