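import Pool.Agent.H45.KTD.CombF

/-!
# KTD PayRA: the refined payment, cluster side

Notation.  `D = R m + r`, `x = r/R`, `z1 = x/2`, `q = R - r ≥ 2` (from `2 R < t q`, `t ≤ R + 1`), `A = AA R t = κ R / t > 0`,
`κ = KK R t`, `δ = κ/2 - A/q > 0`; take `γ0` with `C γ0 ≤ δ`, so `κ/2 - C γ ≥ A/q`.  `U b = ∑ i, u b i`, `z b = U b / D ≤ U b / (R m)`,
`τ b = tau R r (u b)`, `β b = R τ b / (q D) ≤ τ b / (q m)`, `X = ∑ x i`, `c = X - r`, `Q = ∑ x i (x i - 1)` (all terms `≥ 0`),
`𝓜 = ∑ M i`, `S i = ∑_b u b i`; `b` large: `z b > z1` (that is `chiR`), `N` the number of large `b`.  `κ1 = q/(q+1)`,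
`κ2 = 1 + 1/(10 q)`, `g β = max (κ1 β) (1 - κ2 (1 - β))`; `φ = β/10` for small, `φ = min (g β) ((z - z1)/(1 - z1))` for large `b`;
`psiR = A m ^ (t-1) φ`.  `1/m ≤ η`, `r ≤ η m`, `ε = 6 R η`; `Vec` gives `VecE R m ε`.
Facts: (i) `0 ≤ φ ≤ β` (`β ≤ 1`); (ii) `β ≤ (3/2) z` (`tau_avg`); (iii) `φ ≤ z`, for large `φ ≤ (z - z1)/(1 - z1)`;
(iv) `τ b / (q m) ≤ 1 - g1`, `g1 = γ/(4 R)` (`tau_vec`, `Vec.sum`, `1000 R² η ≤ γ`).
(v) sum of `part`: `∑ U b ≤ 𝓜 + m (r - R c) + Q + X - c X`.
(vi) if `c = - p ≤ 0`, `f i = x i + p` (so `∑ f = r + R p`), then for every set `W`: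
`Q + 𝓜 ≥ ∑_{i ∈ W} (S i - m f i) - 10 R² (1 + p) η m`: by `part` (and `M i ≥ 0`)
`𝓜 ≥ ∑_W (S i - (m + x i) f i)`, `x i f i = x i (x i - 1) + (1 + p) x i`, `|x i| ≤ 5 R η m`.
Also `Q + 𝓜 ≥ 0`, so `Q + 𝓜 ≥ θ ∑_W (S i - m f i) - 10 R² (1 + p) η m` for `θ ∈ [0, 1]`.
Case `c ≥ 1`: as in PaySA, `ψ ≤ A m ^ (t-1) z ≤ (A/R) m ^ (t-2) U`.
Case `c = - p ≤ 0`:
A1. `|B| ≤ p`: `∑ φ ≤ p (1 - g1)`; fine if `C η ≤ A g1`.
A2. `N ≤ p < |B|`, `p ≥ 1`: `B' ⊇ {large}`, `|B'| = p`; `combA`, `θ = 1/10`.  `A m ^ (t-1) φ b ≤ A m ^ (t-1) - (A/q) m ^ (t-2) (q m - τ b)` for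
  `b ∈ B'`, `≤ (A/(10 q)) m ^ (t-2) τ b` for the others.  Left side `≤ C' η p m ^ (t-1) - (A/q)(1 - (q+1)/(10 q)) m ^ (t-2) ∑_{B'} (q m - τ b)`
  `≤ C' η p m ^ (t-1) - (17/20) A g1 p m ^ (t-1) ≤ 0` for small `η`.
A3. `p = 0`, `N = 0`: `c = 0`, `∑ x = r`; `setA` for `g = x`: `Q + 𝓜 ≥ Q + ∑_W (S i - (m + x i) x i) ≥ ∑_W S i + Q - ∑_W x i²`
  `≥ ∑_W S i ≥ ∑ τ b` (`Q - ∑_W x i² = ∑_{∉ W} x i (x i - 1) - ∑_W x i ≥ 0`), and `∑ ψ ≤ (A/(10 q)) m ^ (t-2) ∑ τ b`: left side `≤ 0`.
A4. `N = p + 1`, `B' = {large}`.  (1) If `φ b ≤ 1 - κ2 (1 - β b)` for all large `b`: use `(9/10) combB + (1/10) combC`: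
  `9/10 + (q+1)/(10 q) = κ2`, everything cancels up to errors `C' η (p + 1) m ^ (t-1)`.
  (2) Otherwise some large `b*` has `φ ≤ g β = κ1 β`: `combA` with `B' = {large} \ {b*}`, `θ = κ1` (`κ1 (q+1)/q = 1`): left side
  `≤ errors - (κ1 - 1/10)(A/q) m ^ (t-2) ∑_{small} τ b`.
A5. `N ≥ p + 2`: `Z1 = ∑_{large} z`, `Z2 = ∑_{small} z`, `Σ1 = ∑_{large} (z - z1)/(1 - z1)`, `∑ φ ≤ Σ1 + (3/20) Z2`.  By (v)
  (`X = r - p ≤ r`) `Q + 𝓜 ≥ R m (Z1 + Z2) - m (r + R p) - r (1 + p)`, and `Q + 𝓜 ≥ 0`, so up to errors `C' η N m ^ (t-1)` the claim is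
  `Σ1 + (3/20) Z2 ≤ p + max 0 ((Z1 + Z2 - x - p)/(1 - x))` (`R/q = 1/(1 - x)`).  If the left side is `> p` then, as
  `Z1 = N z1 + (1 - z1) Σ1`, the difference `(Z1 + Z2 - x - p)/(1 - x) - (Σ1 + (3/20) Z2 - p)` is
  `[N z1 + (x - z1) Σ1 + (1 - (3/20)(1 - x)) Z2 - x - p x]/(1 - x) ≥ [(N - p) z1 - x + (1 - (3/20)(1 - z1)) Z2]/(1 - x) ≥ 0`
  because `Σ1 > p - (3/20) Z2` and `N - p ≥ 2`, `z1 = x/2`.
In A4, A5 the errors are `≤ C2 η N m ^ (t-1)`.
-/

set_option autoImplicit false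

open Finset

namespace Pool.Agent.H45.KTD

open Pool.Agent.H11.TD

/-- normalised sum of the `R + 1 - r` smallest coordinates -/
noncomputable def bet (R r m : ℕ) (u : Fin (R + 1) → ℝ) : ℝ :=
  R * tau R r u / (((R : ℝ) - r) * (R * m + r))

/-- normalised sum of all coordinates -/
noncomputable def zet (R r m : ℕ) (u : Fin (R + 1) → ℝ) : ℝ := (∑ i, u i) / (R * m + r)

noncomputable def gR (R r : ℕ) (b : ℝ) : ℝ :=
  max (((R : ℝ) - r) / (R - r + 1) * b) (1 - (1 + 1 / (10 * ((R : ℝ) - r))) * (1 - b))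

open scoped Classical in
/-- refined payment -/
noncomputable def psiR (R r t m : ℕ) (u : Fin (R + 1) → ℝ) : ℝ :=
  AA R t * (m : ℝ) ^ (t - 1) * (if zet R r m u ≤ (r : ℝ) / R / 2 then bet R r m u / 10 else
    min (gR R r (bet R r m u)) ((zet R r m u - (r : ℝ) / R / 2) / (1 - (r : ℝ) / R / 2)))

/-- large vertices -/
def chiR (R r m : ℕ) (u : Fin (R + 1) → ℝ) : Prop := (r : ℝ) / R / 2 < zet R r m u

/-- data of one outside vertex -/
private structure VD (q m g1 z1 τ z φ : ℝ) (lg : Prop) : Prop where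
  τ0 : 0 ≤ τ
  τ1 : τ ≤ q * m * (1 - g1)
  φ0 : 0 ≤ φ
  φτ : q * (m * φ) ≤ τ
  z0 : 0 ≤ z
  sm : ¬ lg → 10 * (q * (m * φ)) ≤ τ ∧ φ ≤ 3 / 20 * z
  la : lg → φ ≤ (z - z1) / (1 - z1)
  lb : lg → (q + 1) * (m * φ) ≤ τ ∨ q * (m * φ) ≤ q * m - (1 + 1 / (10 * q)) * (q * m - τ)

open scoped Classical in
private noncomputable def phiR (R r m : ℕ) (u : Fin (R + 1) → ℝ) : ℝ :=
  if zet R r m u ≤ (r : ℝ) / R / 2 then bet R r m u / 10 else
    min (gR R r (bet R r m u)) ((zet R r m u - (r : ℝ) / R / 2) / (1 - (r : ℝ) / R / 2))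

private theorem payRA_m {R r m : ℕ} {γ η : ℝ} (hPar : Par R r m γ η) : (0 : ℝ) < m := by
  have h1 := hPar.hm
  have h2 : (0 : ℝ) ≤ r := Nat.cast_nonneg r
  have hη0 := hPar.hη
  by_contra h3
  have h4 : (m : ℝ) ≤ 0 := not_lt.mp h3
  have h5 : η * (m : ℝ) ≤ 0 := mul_nonpos_of_nonneg_of_nonpos hη0.le h4
  linarith

private theorem payRA_z1 {R r : ℕ} (hr : 1 ≤ r) (hrR : r < R) :
    0 < (r : ℝ) / R / 2 ∧ (r : ℝ) / R / 2 < 1 := by
  have hr0 : (0 : ℝ) < r := by exact_mod_cast hr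
  have hrR' : (r : ℝ) < R := by exact_mod_cast hrR
  have hR0 : (0 : ℝ) < R := by linarith
  constructor
  · positivity
  · rw [div_div, div_lt_one (by positivity)]
    linarith

private theorem payRA_phi_nn {R r m : ℕ} {γ η : ℝ} (hr : 1 ≤ r) (hrR : r < R)
    (hPar : Par R r m γ η) {u : Fin (R + 1) → ℝ} (hu : Vec R m γ η u) : 0 ≤ phiR R r m u := by
  have hm := payRA_m hPar
  have hr0 : (0 : ℝ) < r := by exact_mod_cast hr
  have hrR' : (r : ℝ) < R := by exact_mod_cast hrR
  have hR0 : (0 : ℝ) < R := by linarith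
  have hq : (0 : ℝ) < (R : ℝ) - r := by linarith
  have hτ := tau_nn (r := r) u hu.nn
  have hβ : 0 ≤ bet R r m u := by
    unfold bet
    positivity
  obtain ⟨hz0, hz1⟩ := payRA_z1 hr hrR
  unfold phiR
  split_ifs with h
  · positivity
  · apply le_min
    · unfold gR
      apply le_max_of_le_left
      positivity
    · apply div_nonneg
      · linarith
      · linarith

private theorem payRA_vec {R r m : ℕ} {γ η : ℝ} (hr : 1 ≤ r) (hrR : r < R)
    (hq2 : 2 ≤ (R : ℝ) - r) (hPar : Par R r m γ η) {u : Fin (R + 1) → ℝ}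
    (hu : Vec R m γ η u) :
    VD ((R : ℝ) - r) m (γ / (4 * R)) ((r : ℝ) / R / 2) (tau R r u) (zet R r m u)
      (phiR R r m u) (chiR R r m u) := by
  have hm := payRA_m hPar
  have hr0 : (0 : ℝ) < r := by exact_mod_cast hr
  have hrR' : (r : ℝ) < R := by exact_mod_cast hrR
  have hR0 : (0 : ℝ) < R := by linarith
  have hR1 : 1 ≤ R := by omega
  have hR1' : (1 : ℝ) ≤ R := by exact_mod_cast hR1
  have hφ0 := payRA_phi_nn hr hrR hPar hu
  have hτ := tau_nn (r := r) u hu.nn
  have havg := tau_avg hrR.le u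
  have hvec := tau_vec hR1 hrR.le u hu
  have hsum := hu.sum
  have hU0 : 0 ≤ ∑ i, u i := sum_nonneg (fun i _ => hu.nn i)
  obtain ⟨hz0, hz1⟩ := payRA_z1 hr hrR
  have hγ := hPar.hγ
  have hη' := hPar.hη'
  set q := (R : ℝ) - r with hq
  set τ := tau R r u with hτd
  set U := ∑ i, u i with hU
  have hq0 : 0 < q := by linarith
  have hD : (0 : ℝ) < R * m + r := by positivity
  have hDm : (R : ℝ) * m ≤ R * m + r := by linarith
  -- τ1
  have hτ1 : τ ≤ q * m * (1 - γ / (4 * R)) := by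
    have e1 : q / R * U ≤ q / R * ((R - γ / 2) * m) :=
      mul_le_mul_of_nonneg_left hsum (by positivity)
    have e2 : q / R * ((R - γ / 2) * m) = q * m - q * m * (γ / (2 * R)) := by
      field_simp
    have e3 : 6 * R * η * m ≤ q * m * (γ / (4 * R)) := by
      have e4 : 6 * R * η ≤ γ / (4 * R) := by
        rw [le_div_iff₀ (by positivity)]
        nlinarith [hPar.hη, sq_nonneg (R : ℝ)]
      have e5 : γ / (4 * R) ≤ q * (γ / (4 * R)) := by
        have : 0 ≤ γ / (4 * R) := by positivity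
        nlinarith
      have e6 := mul_le_mul_of_nonneg_right (e4.trans e5) hm.le
      linarith
    have e7 : q * m * (γ / (2 * R)) = q * m * (γ / (4 * R)) + q * m * (γ / (4 * R)) := by
      field_simp
      ring
    linarith
  have hg0 : 0 < γ / (4 * R) := by positivity
  have hτqm : τ ≤ q * m := by
    have : 0 ≤ q * m * (γ / (4 * R)) := by positivity
    linarith
  -- β
  have hβdef : bet R r m u = R * τ / (q * (R * m + r)) := rfl
  have hβ0 : 0 ≤ bet R r m u := by
    rw [hβdef]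
    positivity
  have hβτ : q * (m * bet R r m u) ≤ τ := by
    rw [hβdef]
    have e1 : q * (m * (R * τ / (q * (R * m + r)))) = τ * ((R * m) / (R * m + r)) := by
      field_simp
    rw [e1]
    have e2 : (R * m) / ((R : ℝ) * m + r) ≤ 1 := by
      rw [div_le_one hD]
      exact hDm
    calc τ * ((R * m) / (R * m + r)) ≤ τ * 1 := mul_le_mul_of_nonneg_left e2 hτ
      _ = τ := mul_one τ
  have hβ1 : bet R r m u ≤ 1 := by
    by_contra hcon
    push Not at hcon
    have : q * m < q * (m * bet R r m u) := by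
      have : 0 < q * m * (bet R r m u - 1) := by
        apply mul_pos (by positivity)
        linarith
      linarith
    linarith
  have hzdef : zet R r m u = U / (R * m + r) := rfl
  have hzz0 : 0 ≤ zet R r m u := by
    rw [hzdef]
    positivity
  have hβz : bet R r m u ≤ 3 / 2 * zet R r m u := by
    rw [hβdef, hzdef]
    have e1 : R * τ ≤ 3 / 2 * q * U := by
      have e2 : ((R : ℝ) + 1 - r) * U ≤ 3 / 2 * q * U := by
        apply mul_le_mul_of_nonneg_right _ hU0
        linarith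
      linarith
    rw [div_le_iff₀ (by positivity)]
    have e3 : 3 / 2 * (U / (R * m + r)) * (q * (R * m + r)) = 3 / 2 * q * U := by
      field_simp
    rw [e3]
    exact e1
  have hgR : gR R r (bet R r m u) ≤ bet R r m u := by
    unfold gR
    apply max_le
    · have : ((R : ℝ) - r) / (R - r + 1) ≤ 1 := by
        rw [div_le_one (by linarith)]
        linarith
      calc ((R : ℝ) - r) / (R - r + 1) * bet R r m u ≤ 1 * bet R r m u :=
            mul_le_mul_of_nonneg_right this hβ0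
        _ = bet R r m u := one_mul _
    · have e1 : 0 ≤ 1 / (10 * ((R : ℝ) - r)) := by
        have : 0 < 10 * ((R : ℝ) - r) := by linarith
        positivity
      have e2 : 0 ≤ 1 / (10 * ((R : ℝ) - r)) * (1 - bet R r m u) := mul_nonneg e1 (by linarith)
      linarith
  have hφβ : phiR R r m u ≤ bet R r m u := by
    unfold phiR
    split_ifs with h
    · linarith
    · exact (min_le_left _ _).trans hgR
  refine ⟨hτ, hτ1, hφ0, ?_, hzz0, ?_, ?_, ?_⟩
  · refine le_trans ?_ hβτ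
    exact mul_le_mul_of_nonneg_left (mul_le_mul_of_nonneg_left hφβ hm.le) hq0.le
  · intro hlg
    have hle : zet R r m u ≤ (r : ℝ) / R / 2 := not_lt.mp hlg
    have e1 : phiR R r m u = bet R r m u / 10 := by
      unfold phiR
      rw [if_pos hle]
    rw [e1]
    constructor
    · have : 10 * (q * (m * (bet R r m u / 10))) = q * (m * bet R r m u) := by ring
      rw [this]
      exact hβτ
    · linarith
  · intro hlg
    have hle : ¬ zet R r m u ≤ (r : ℝ) / R / 2 := not_le.mpr hlg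
    unfold phiR
    rw [if_neg hle]
    exact min_le_right _ _
  · intro hlg
    have hle : ¬ zet R r m u ≤ (r : ℝ) / R / 2 := not_le.mpr hlg
    have e1 : phiR R r m u ≤ gR R r (bet R r m u) := by
      unfold phiR
      rw [if_neg hle]
      exact min_le_left _ _
    unfold gR at e1
    rcases le_max_iff.mp e1 with h | h
    · left
      have e2 : (q + 1) * (m * (q / (q + 1) * bet R r m u)) = q * (m * bet R r m u) := by
        field_simp
      have e3 : (q + 1) * (m * phiR R r m u) ≤ (q + 1) * (m * (q / (q + 1) * bet R r m u)) :=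
        mul_le_mul_of_nonneg_left (mul_le_mul_of_nonneg_left h hm.le) (by linarith)
      linarith
    · right
      have e2 : q * (m * phiR R r m u) ≤
          q * (m * (1 - (1 + 1 / (10 * q)) * (1 - bet R r m u))) :=
        mul_le_mul_of_nonneg_left (mul_le_mul_of_nonneg_left h hm.le) hq0.le
      have e3 : q * (m * (1 - (1 + 1 / (10 * q)) * (1 - bet R r m u))) =
          q * m - (1 + 1 / (10 * q)) * (q * m - q * (m * bet R r m u)) := by ring
      have e4 : (1 + 1 / (10 * q)) * (q * m - τ) ≤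
          (1 + 1 / (10 * q)) * (q * m - q * (m * bet R r m u)) := by
        apply mul_le_mul_of_nonneg_left _ (by positivity)
        linarith
      linarith

private theorem payRA_num {ι : Type} [DecidableEq ι] (B : Finset ι) (lg : ι → Prop)
    [DecidablePred lg] (τ z φ : ι → ℝ) (R r q m η g1 z1 C' G E : ℝ) (p : ℕ)
    (hq : 2 ≤ q) (hqR : q = R - r) (hr : 0 < r) (hz1 : z1 = r / R / 2) (hm : 0 < m)
    (hη : 0 < η) (hC' : 0 < C') (hg : 0 < g1) (hg1 : g1 ≤ 1) (hrm : r ≤ η * m) (hE : 0 < E)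
    (hη1 : η * (C' + E) ≤ 17 / 20 * g1)
    (hd : ∀ b ∈ B, VD q m g1 z1 (τ b) (z b) (φ b) (lg b)) (hG : 0 ≤ G)
    (hv : R * m * ∑ b ∈ B, z b ≤ G + m * (r + R * p) + r * (1 + p))
    (hA : ∀ B' ⊆ B, B'.card = p → ∑ b ∈ B \ B', τ b -
      (q + 1) / q * ∑ b ∈ B', (q * m - τ b) ≤ G + E * η * m * (1 + p))
    (hB : ∀ B' ⊆ B, B'.card = p + 1 → q * m - ∑ b ∈ B', (q * m - τ b) ≤ G + E * η * m * (1 + p))
    (hC : ∀ B' ⊆ B, B'.card = p + 1 → q * m + ∑ b ∈ B \ B', τ b -
      (q + 1) / q * ∑ b ∈ B', (q * m - τ b) ≤ G + E * η * m * (1 + p))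
    (h3 : p = 0 → ∑ b ∈ B, τ b ≤ G) :
    q * (-(m * p) + C' * η * m * p + m * ∑ b ∈ B, φ b) - G ≤
      q * ((C' + E + 1) * η * m * ((B.filter lg).card : ℝ)) := by
  have hq0 : 0 < q := by linarith
  have hR : 0 < R := by linarith
  set N := (B.filter lg).card with hN
  have hN0 : (0 : ℝ) ≤ N := Nat.cast_nonneg _
  have hp0 : (0 : ℝ) ≤ p := Nat.cast_nonneg _
  have hrhs : 0 ≤ q * ((C' + E + 1) * η * m * (N : ℝ)) := by positivity
  have hηm : 0 < η * m := mul_pos hη hm
  have hηC : C' * η ≤ 17 / 20 * g1 := by linarith only [hη1, mul_nonneg hη.le hE.le]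
  -- the sum of φ over a set
  have hφτ : ∀ B' ⊆ B, q * (m * ∑ b ∈ B', φ b) ≤ (B'.card : ℝ) * (q * m) -
      ∑ b ∈ B', (q * m - τ b) := by
    intro B' hB'
    have h1 : ∑ b ∈ B', q * (m * φ b) ≤ ∑ b ∈ B', τ b :=
      sum_le_sum (fun b hb => (hd b (hB' hb)).φτ)
    rw [← mul_sum, ← mul_sum] at h1
    rw [sum_sub_distrib, sum_const, nsmul_eq_mul]
    linarith
  have hsmall : ∀ B' ⊆ B, (∀ b ∈ B', ¬ lg b) → q * (m * ∑ b ∈ B', φ b) ≤ (∑ b ∈ B', τ b) / 10 := by
    intro B' hB' hs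
    have h1 : ∑ b ∈ B', 10 * (q * (m * φ b)) ≤ ∑ b ∈ B', τ b :=
      sum_le_sum (fun b hb => ((hd b (hB' hb)).sm (hs b hb)).1)
    rw [← mul_sum, ← mul_sum, ← mul_sum] at h1
    linarith
  have hDl : ∀ B' ⊆ B, (B'.card : ℝ) * (q * m * g1) ≤ ∑ b ∈ B', (q * m - τ b) := by
    intro B' hB'
    have h1 : ∑ b ∈ B', q * m * g1 ≤ ∑ b ∈ B', (q * m - τ b) := by
      refine sum_le_sum (fun b hb => ?_)
      have := (hd b (hB' hb)).τ1
      linarith
    rwa [sum_const, nsmul_eq_mul] at h1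
  have hDl0 : ∀ B' ⊆ B, 0 ≤ ∑ b ∈ B', (q * m - τ b) := by
    intro B' hB'
    refine le_trans ?_ (hDl B' hB')
    positivity
  have hT0 : ∀ B' ⊆ B, 0 ≤ ∑ b ∈ B', τ b := fun B' hB' => sum_nonneg (fun b hb => (hd b (hB' hb)).τ0)
  have hsplit : ∀ B' ⊆ B, ∑ b ∈ B, φ b = ∑ b ∈ B', φ b + ∑ b ∈ B \ B', φ b := by
    intro B' hB'
    rw [← sum_sdiff hB', add_comm]
  by_cases hA1 : B.card ≤ p
  · -- few vertices
    have h1 := hφτ B subset_rfl
    have h2 := hDl B subset_rfl
    have h4 : (B.card : ℝ) ≤ p := by exact_mod_cast hA1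
    have h5 : q * (m * ∑ b ∈ B, φ b) ≤ (B.card : ℝ) * (q * m * (1 - g1)) := by
      have : (B.card : ℝ) * (q * m * (1 - g1)) = (B.card : ℝ) * (q * m) -
        (B.card : ℝ) * (q * m * g1) := by ring
      linarith
    have h6 : (B.card : ℝ) * (q * m * (1 - g1)) ≤ p * (q * m * (1 - g1)) := by
      apply mul_le_mul_of_nonneg_right h4
      apply mul_nonneg (by positivity)
      linarith
    have h7 : 0 ≤ (q * m * p) * (g1 - C' * η) := by
      apply mul_nonneg (by positivity)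
      linarith
    have h8 : q * (-(m * p) + C' * η * m * p + m * ∑ b ∈ B, φ b) - G ≤ 0 := by
      linarith only [h5, h6, h7, hG]
    linarith only [h8, hrhs]
  have hA1' : p < B.card := not_le.mp hA1
  by_cases hA2 : N ≤ p
  · rcases Nat.eq_zero_or_pos p with hp | hp
    · -- no large vertices, p = 0
      have hN00 : N = 0 := by omega
      have hno : ∀ b ∈ B, ¬ lg b := by
        intro b hb hl
        have : b ∈ B.filter lg := mem_filter.mpr ⟨hb, hl⟩
        rw [hN, card_eq_zero] at hN00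
        rw [hN00] at this
        exact absurd this (notMem_empty b)
      have h1 := hsmall B subset_rfl hno
      have h2 := h3 hp
      have h4 := hT0 B subset_rfl
      rw [hp]
      push_cast
      have h5 : q * (-(m * 0) + C' * η * m * 0 + m * ∑ b ∈ B, φ b) - G ≤ 0 := by
        have : q * (-(m * 0) + C' * η * m * 0 + m * ∑ b ∈ B, φ b) =
          q * (m * ∑ b ∈ B, φ b) := by ring
        linarith
      linarith
    · obtain ⟨B', hB'1, hB'2, hB'3⟩ := exists_subsuperset_card_eq (filter_subset lg B) hA2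
        hA1'.le
      have h1 := hφτ B' hB'2
      have hno : ∀ b ∈ B \ B', ¬ lg b := by
        intro b hb hl
        have hb' := mem_sdiff.mp hb
        exact hb'.2 (hB'1 (mem_filter.mpr ⟨hb'.1, hl⟩))
      have h2 := hsmall (B \ B') sdiff_subset hno
      have h4 := hA B' hB'2 hB'3
      have h5 := hDl B' hB'2
      have h6 := hT0 (B \ B') sdiff_subset
      rw [hB'3] at h1 h5
      rw [hsplit B' hB'2]
      set Dl := ∑ b ∈ B', (q * m - τ b) with hDldef
      set T := ∑ b ∈ B \ B', τ b with hTdef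
      have hp1 : (1 : ℝ) ≤ p := by exact_mod_cast hp
      have h7 : (q + 1) / q ≤ 3 / 2 := by
        rw [div_le_div_iff₀ hq0 (by norm_num)]
        linarith
      have hDl0' : 0 ≤ Dl := hDl0 B' hB'2
      have h8 : (q + 1) / q * Dl ≤ 3 / 2 * Dl := mul_le_mul_of_nonneg_right h7 hDl0'
      have h9 : 0 ≤ E * η * m * (1 + p) := by positivity
      have h10 : (1 / 10) * (T - 3 / 2 * Dl) ≤ G + E * η * m * (1 + p) := by
        linarith
      have h11 : E * η * m * (1 + p) ≤ q * (E * η * m * p) := by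
        have e1 : E * η * m * (1 + p) ≤ 2 * (E * η * m * p) := by
          have : 0 ≤ E * η * m * (p - 1) := by
            apply mul_nonneg (by positivity)
            linarith
          linarith
        have e2 : 2 * (E * η * m * p) ≤ q * (E * η * m * p) :=
          mul_le_mul_of_nonneg_right hq (by positivity)
        linarith
      have h12 : 0 ≤ (q * m * p) * (17 / 20 * g1 - η * (C' + E)) := by
        apply mul_nonneg (by positivity)
        linarith
      have h13 : q * (-(m * p) + C' * η * m * p + m * (∑ b ∈ B', φ b + ∑ b ∈ B \ B', φ b)) - G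
          ≤ 0 := by
        linarith only [h1, h2, h5, h10, h11, h12]
      linarith only [h13, hrhs]
  have hA2' : p + 1 ≤ N := by omega
  rcases Nat.eq_or_lt_of_le hA2' with hNp | hNp
  · -- N = p + 1
    set L := B.filter lg with hL
    have hLB : L ⊆ B := filter_subset _ _
    have hLc : L.card = p + 1 := by omega
    have hno : ∀ b ∈ B \ L, ¬ lg b := by
      intro b hb hl
      have hb' := mem_sdiff.mp hb
      exact hb'.2 (mem_filter.mpr ⟨hb'.1, hl⟩)
    have h2 := hsmall (B \ L) sdiff_subset hno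
    have hT := hT0 (B \ L) sdiff_subset
    have hNr : (N : ℝ) = p + 1 := by rw [← hNp]; push_cast; ring
    rw [hNr]
    have herr : E * η * m * (1 + p) ≤ q * (E * η * m * (p + 1)) := by
      have : 0 ≤ E * η * m * (1 + p) := by positivity
      linarith only [mul_le_mul_of_nonneg_right hq this, this]
    have hfin : q * (C' * η * m * p) + E * η * m * (1 + p) ≤
        q * ((C' + E + 1) * η * m * (p + 1)) := by
      have e1 : q * ((C' + E + 1) * η * m * (p + 1)) = q * (C' * η * m * p) +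
        q * (E * η * m * (p + 1)) + q * (C' * η * m) + q * (η * m * (p + 1)) := by ring
      have e2 : 0 ≤ q * (C' * η * m) := by positivity
      have e3 : 0 ≤ q * (η * m * (p + 1)) := by positivity
      linarith
    by_cases hall : ∀ b ∈ L, q * (m * φ b) ≤ q * m - (1 + 1 / (10 * q)) * (q * m - τ b)
    · have h4 := hB L hLB hLc
      have h5 := hC L hLB hLc
      have h6 : q * (m * ∑ b ∈ L, φ b) ≤ (p + 1) * (q * m) -
          (1 + 1 / (10 * q)) * ∑ b ∈ L, (q * m - τ b) := by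
        have e1 := sum_le_sum hall
        rw [sum_sub_distrib, sum_const, nsmul_eq_mul, ← mul_sum, ← mul_sum, ← mul_sum, hLc] at e1
        push_cast at e1
        exact e1
      rw [hsplit L hLB]
      set Dl := ∑ b ∈ L, (q * m - τ b) with hDldef
      set T := ∑ b ∈ B \ L, τ b with hTdef
      have h7 : (9 / 10) * (q * m - Dl) + (1 / 10) * (q * m + T - (q + 1) / q * Dl) =
          q * m + T / 10 - (1 + 1 / (10 * q)) * Dl := by
        field_simp
        ring
      have h8 : q * m + T / 10 - (1 + 1 / (10 * q)) * Dl ≤ G + E * η * m * (1 + p) := by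
        rw [← h7]
        linarith only [h4, h5]
      linarith only [h6, h2, h8, hfin]
    · push Not at hall
      obtain ⟨b0, hb0, hb0'⟩ := hall
      have hb0B := hLB hb0
      have h5 : (q + 1) * (m * φ b0) ≤ τ b0 := by
        rcases (hd b0 hb0B).lb (mem_filter.mp hb0).2 with h | h
        · exact h
        · exact absurd h (not_le.mpr hb0')
      set L' := L.erase b0 with hL'
      have hL'B : L' ⊆ B := (erase_subset _ _).trans hLB
      have hL'c : L'.card = p := by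
        rw [hL', card_erase_of_mem hb0, hLc]
        rfl
      have h4 := hA L' hL'B hL'c
      have h6 := hφτ L' hL'B
      rw [hL'c] at h6
      have hsd : B \ L' = insert b0 (B \ L) := by
        ext b
        simp only [mem_sdiff, mem_insert, hL', mem_erase]
        constructor
        · rintro ⟨h1, h2⟩
          by_cases h3 : b = b0
          · exact Or.inl h3
          · exact Or.inr ⟨h1, fun h => h2 ⟨h3, h⟩⟩
        · rintro (h | h)
          · rw [h]
            exact ⟨hb0B, fun h => h.1 rfl⟩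
          · exact ⟨h.1, fun h' => h.2 h'.2⟩
      have hb0n : b0 ∉ B \ L := fun h => (mem_sdiff.mp h).2 hb0
      rw [hsplit L' hL'B]
      rw [hsd, sum_insert hb0n] at h4
      rw [hsd, sum_insert hb0n]
      set Dl := ∑ b ∈ L', (q * m - τ b) with hDldef
      set T := ∑ b ∈ B \ L, τ b with hTdef
      set k1 := q / (q + 1) with hk1
      have hk1a : k1 * ((q + 1) / q) = 1 := by
        rw [hk1]
        field_simp
      have hk1b : 2 / 3 ≤ k1 := by
        rw [hk1, div_le_div_iff₀ (by norm_num) (by linarith)]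
        linarith
      have hk1c : k1 ≤ 1 := by
        rw [hk1, div_le_one (by linarith)]
        linarith
      have h7 : k1 * (τ b0 + T) - Dl ≤ G + E * η * m * (1 + p) := by
        have e1 : k1 * (τ b0 + T - (q + 1) / q * Dl) = k1 * (τ b0 + T) - Dl := by
          have : k1 * (τ b0 + T - (q + 1) / q * Dl) =
            k1 * (τ b0 + T) - (k1 * ((q + 1) / q)) * Dl := by ring
          rw [this, hk1a, one_mul]
        rw [← e1]
        have e2 : 0 ≤ G + E * η * m * (1 + p) := by positivity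
        have e3 := mul_le_mul_of_nonneg_left h4 (by linarith : (0 : ℝ) ≤ k1)
        have e4 := mul_le_mul_of_nonneg_right hk1c e2
        linarith
      have h8 : q * (m * φ b0) ≤ k1 * τ b0 := by
        have e1 : q * (m * φ b0) = k1 * ((q + 1) * (m * φ b0)) := by
          rw [hk1]
          field_simp
        rw [e1]
        exact mul_le_mul_of_nonneg_left h5 (by linarith)
      have h9 : (1 / 10) * T ≤ k1 * T := mul_le_mul_of_nonneg_right (by linarith only [hk1b]) hT
      linarith only [h6, h8, h2, h9, h7, hfin]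
  · -- N ≥ p + 2
    set L := B.filter lg with hL
    have hLB : L ⊆ B := filter_subset _ _
    have hno : ∀ b ∈ B \ L, ¬ lg b := by
      intro b hb hl
      have hb' := mem_sdiff.mp hb
      exact hb'.2 (mem_filter.mpr ⟨hb'.1, hl⟩)
    have hNr : (p : ℝ) + 2 ≤ N := by exact_mod_cast hNp
    have hz1' : z1 * R = r / 2 := by
      rw [hz1]
      field_simp
    have hz1lt : z1 < 1 := by
      by_contra hcon
      push Not at hcon
      have : R ≤ z1 * R := by linarith only [mul_le_mul_of_nonneg_right hcon hR.le]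
      linarith only [this, hz1', hq, hqR, hr]
    set Sg := ∑ b ∈ L, (z b - z1) / (1 - z1) with hSg
    set Z2 := ∑ b ∈ B \ L, z b with hZ2
    have hZ20 : 0 ≤ Z2 := sum_nonneg (fun b hb => (hd b (sdiff_subset hb)).z0)
    have hZ1 : ∑ b ∈ L, z b = N * z1 + (1 - z1) * Sg := by
      rw [hSg, mul_sum]
      have e1 : ∀ b ∈ L, z b = z1 + (1 - z1) * ((z b - z1) / (1 - z1)) := by
        intro b _
        have : 1 - z1 ≠ 0 := by linarith
        field_simp
        ring
      rw [sum_congr rfl e1, sum_add_distrib, sum_const, nsmul_eq_mul]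
    have hΦ : ∑ b ∈ B, φ b ≤ Sg + 3 / 20 * Z2 := by
      rw [hsplit L hLB]
      apply add_le_add
      · exact sum_le_sum (fun b hb => (hd b (hLB hb)).la (mem_filter.mp hb).2)
      · rw [hZ2, mul_sum]
        exact sum_le_sum (fun b hb => ((hd b (sdiff_subset hb)).sm (hno b hb)).2)
    have hΦm : q * (m * ∑ b ∈ B, φ b) ≤ q * (m * (Sg + 3 / 20 * Z2)) :=
      mul_le_mul_of_nonneg_left (mul_le_mul_of_nonneg_left hΦ hm.le) hq0.le
    have hpN : q * (C' * η * m * p) ≤ q * (C' * η * m * N) := by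
      apply mul_le_mul_of_nonneg_left _ hq0.le
      apply mul_le_mul_of_nonneg_left _ (by positivity)
      linarith
    have hRHS : q * ((C' + E + 1) * η * m * (N : ℝ)) = q * (C' * η * m * N) +
        q * (E * η * m * N) + q * (η * m * N) := by ring
    have hEN : 0 ≤ q * (E * η * m * N) := by positivity
    have hηN : 0 ≤ q * (η * m * N) := by positivity
    by_cases hcase : Sg + 3 / 20 * Z2 ≤ p
    · have h1 : q * (m * (Sg + 3 / 20 * Z2)) ≤ q * (m * p) :=
        mul_le_mul_of_nonneg_left (mul_le_mul_of_nonneg_left hcase hm.le) hq0.le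
      rw [hRHS]
      linarith only [hΦm, h1, hpN, hG, hEN, hηN]
    · push Not at hcase
      have hsumz : ∑ b ∈ B, z b = N * z1 + (1 - z1) * Sg + Z2 := by
        rw [← hZ1, hZ2, ← sum_sdiff hLB, add_comm]
      rw [hsumz] at hv
      have h1 : r * (1 + p) ≤ η * m * N := by
        calc r * (1 + p) ≤ η * m * (1 + p) := mul_le_mul_of_nonneg_right hrm (by linarith)
          _ ≤ η * m * N := mul_le_mul_of_nonneg_left (by linarith) hηm.le
      have h2 : η * m * N ≤ q * (η * m * N) := by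
        have : 0 ≤ η * m * N := by positivity
        linarith only [mul_le_mul_of_nonneg_right hq this, this]
      have hbr : q * (Sg + 3 / 20 * Z2 - p) - R * (N * z1 + (1 - z1) * Sg + Z2) + r + R * p ≤ 0 := by
        have e1 : R * (N * z1 + (1 - z1) * Sg + Z2) =
            N * (z1 * R) + R * Sg - (z1 * R) * Sg + R * Z2 := by ring
        rw [e1, hz1', hqR]
        have e2 : 0 ≤ r * (Sg + 3 / 20 * Z2 - p) := mul_nonneg hr.le (by linarith)
        have e3 : 0 ≤ r * (N - p - 2) := mul_nonneg hr.le (by linarith)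
        have e4 : 0 ≤ r * Z2 := mul_nonneg hr.le hZ20
        have e5 : 0 ≤ R * Z2 := mul_nonneg hR.le hZ20
        linarith only [e2, e3, e4, e5]
      have hbrm := mul_le_mul_of_nonneg_left hbr hm.le
      rw [hRHS]
      linarith only [hbrm, hv, h1, h2, hΦm, hpN, hEN]

private theorem payRA_int (x : ℤ) : (0 : ℝ) ≤ (x : ℝ) * ((x : ℝ) - 1) := by
  have h : 0 ≤ x * (x - 1) := by
    rcases le_or_gt x 0 with h | h
    · exact mul_nonneg_of_nonpos_of_nonpos h (by linarith)
    · exact mul_nonneg h.le (by linarith [Int.add_one_le_iff.mpr h])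
  exact_mod_cast h

private theorem payRA_W {R r m : ℕ} {γ η : ℝ} (hPar : Par R r m γ η) {x : Fin (R + 1) → ℤ}
    {M : Fin (R + 1) → ℝ} {ι : Type} {B : Finset ι} {u : ι → Fin (R + 1) → ℝ}
    (hCN : CN R r m γ η x M B u) (p : ℕ) (hp : (∑ i, (x i : ℝ)) - r = -(p : ℝ))
    (W : Finset (Fin (R + 1))) :
    ∑ i ∈ W, (∑ b ∈ B, u b i - m * (((x i + p : ℤ)) : ℝ)) ≤
      (∑ i, (x i : ℝ) * ((x i : ℝ) - 1) + ∑ i, M i) + 10 * (R : ℝ) ^ 2 * η * m * (1 + p) := by
  have hm := payRA_m hPar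
  have hη := hPar.hη
  have hR1 : (1 : ℝ) ≤ R := by
    have := hPar.hR
    exact_mod_cast (by omega : 1 ≤ R)
  have hp0 : (0 : ℝ) ≤ p := Nat.cast_nonneg p
  have h1 : ∀ i : Fin (R + 1), ∑ b ∈ B, u b i - m * (((x i + p : ℤ)) : ℝ) ≤
      M i + (x i : ℝ) * ((x i : ℝ) - 1) + (1 + p) * (5 * R * η * m) := by
    intro i
    have e1 := hCN.part i
    have e2 := (abs_le.mp (hCN.hx i)).2
    have e3 : (1 + (p : ℝ)) * (x i : ℝ) ≤ (1 + p) * (5 * R * η * m) :=
      mul_le_mul_of_nonneg_left e2 (by linarith)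
    rw [hp] at e1
    push_cast
    have e4 : ((m : ℝ) + x i) * ((x i : ℝ) - -(p : ℝ)) - m * ((x i : ℝ) + p) =
        (x i : ℝ) * ((x i : ℝ) - 1) + (1 + p) * (x i : ℝ) := by ring
    linarith
  have h2 : ∀ i : Fin (R + 1), 0 ≤
      M i + (x i : ℝ) * ((x i : ℝ) - 1) + (1 + p) * (5 * R * η * m) := by
    intro i
    have e1 := hCN.hM i
    have e2 := payRA_int (x i)
    have e3 : 0 ≤ (1 + (p : ℝ)) * (5 * R * η * m) := by positivity
    linarith
  calc ∑ i ∈ W, (∑ b ∈ B, u b i - m * (((x i + p : ℤ)) : ℝ))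
      ≤ ∑ i ∈ W, (M i + (x i : ℝ) * ((x i : ℝ) - 1) + (1 + p) * (5 * R * η * m)) :=
        sum_le_sum (fun i _ => h1 i)
    _ ≤ ∑ i, (M i + (x i : ℝ) * ((x i : ℝ) - 1) + (1 + p) * (5 * R * η * m)) :=
        sum_le_sum_of_subset_of_nonneg (subset_univ W) (fun i _ _ => h2 i)
    _ = (∑ i, (x i : ℝ) * ((x i : ℝ) - 1) + ∑ i, M i) +
        ((R : ℝ) + 1) * ((1 + p) * (5 * R * η * m)) := by
        rw [sum_add_distrib, sum_add_distrib, sum_const, card_univ, Fintype.card_fin,
          nsmul_eq_mul]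
        push_cast
        ring
    _ ≤ (∑ i, (x i : ℝ) * ((x i : ℝ) - 1) + ∑ i, M i) + 10 * (R : ℝ) ^ 2 * η * m * (1 + p) := by
        have e1 : 0 ≤ (1 + (p : ℝ)) * (5 * R * η * m) := by positivity
        have e2 : ((R : ℝ) + 1) * ((1 + p) * (5 * R * η * m)) ≤
            (2 * R) * ((1 + p) * (5 * R * η * m)) :=
          mul_le_mul_of_nonneg_right (by linarith) e1
        have e3 : (2 * (R : ℝ)) * ((1 + p) * (5 * R * η * m)) =
            10 * (R : ℝ) ^ 2 * η * m * (1 + p) := by ring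
        linarith

private theorem payRA_U {R r m : ℕ} {γ η : ℝ} {x : Fin (R + 1) → ℤ}
    {M : Fin (R + 1) → ℝ} {ι : Type} {B : Finset ι} {u : ι → Fin (R + 1) → ℝ}
    (hCN : CN R r m γ η x M B u) :
    ∑ b ∈ B, ∑ i, u b i ≤ (∑ i, (x i : ℝ) * ((x i : ℝ) - 1) + ∑ i, M i) +
      m * (r - R * ((∑ i, (x i : ℝ)) - r)) +
      (∑ i, (x i : ℝ)) * (1 - ((∑ i, (x i : ℝ)) - r)) := by
  set c := (∑ i, (x i : ℝ)) - r with hc
  have h1 : ∑ i, ∑ b ∈ B, u b i ≤ ∑ i, (M i + ((m : ℝ) + x i) * ((x i : ℝ) - c)) :=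
    sum_le_sum (fun i _ => hCN.part i)
  rw [sum_comm] at h1
  have h2 : ∀ i : Fin (R + 1), M i + ((m : ℝ) + x i) * ((x i : ℝ) - c) =
      M i + ((x i : ℝ) * ((x i : ℝ) - 1) + ((m + 1 - c) * (x i : ℝ) - m * c)) := by
    intro i
    ring
  rw [sum_congr rfl (fun i _ => h2 i), sum_add_distrib, sum_add_distrib, sum_sub_distrib,
    ← mul_sum, sum_const, card_univ, Fintype.card_fin, nsmul_eq_mul] at h1
  have h3 : (∑ i, (x i : ℝ)) = c + r := by
    rw [hc]
    ring
  rw [h3] at h1 ⊢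
  push_cast at h1
  have h4 : (m + 1 - c) * (c + r) - ((R : ℝ) + 1) * (m * c) =
      m * (r - R * c) + (c + r) * (1 - c) := by ring
  linarith

private theorem payRA_zero {R r m : ℕ} {γ η : ℝ} (hrR : r < R) {x : Fin (R + 1) → ℤ}
    {M : Fin (R + 1) → ℝ} {ι : Type} {B : Finset ι} {u : ι → Fin (R + 1) → ℝ}
    (hCN : CN R r m γ η x M B u) (hx : (∑ i, (x i : ℝ)) - r = 0) :
    ∑ b ∈ B, tau R r (u b) ≤ ∑ i, (x i : ℝ) * ((x i : ℝ) - 1) + ∑ i, M i := by
  have hxi : ∑ i, x i = (r : ℤ) := by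
    have : ((∑ i, x i : ℤ) : ℝ) = ((r : ℤ) : ℝ) := by
      push_cast
      linarith
    exact_mod_cast this
  obtain ⟨W, hWc, hW⟩ := setA R r hrR.le x hxi
  have hW' : ∑ i ∈ W, (x i : ℝ) ≤ 0 := by exact_mod_cast hW
  have h1 : ∑ b ∈ B, tau R r (u b) ≤ ∑ b ∈ B, ∑ i ∈ W, u b i :=
    sum_le_sum (fun b _ => tau_le (u b) W hWc)
  rw [sum_comm] at h1
  have h2 : ∑ i ∈ W, ∑ b ∈ B, u b i ≤
      ∑ i ∈ W, (M i + (x i : ℝ) * ((x i : ℝ) - 1) + ((m : ℝ) + 1) * (x i : ℝ)) := by
    refine sum_le_sum (fun i _ => ?_)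
    have e1 := hCN.part i
    rw [hx] at e1
    have e2 : ((m : ℝ) + x i) * ((x i : ℝ) - 0) =
        (x i : ℝ) * ((x i : ℝ) - 1) + ((m : ℝ) + 1) * (x i : ℝ) := by ring
    linarith
  rw [sum_add_distrib, ← mul_sum] at h2
  have h3 : ((m : ℝ) + 1) * ∑ i ∈ W, (x i : ℝ) ≤ 0 :=
    mul_nonpos_of_nonneg_of_nonpos (by positivity) hW'
  have h4 : ∑ i ∈ W, (M i + (x i : ℝ) * ((x i : ℝ) - 1)) ≤
      ∑ i, (M i + (x i : ℝ) * ((x i : ℝ) - 1)) :=
    sum_le_sum_of_subset_of_nonneg (subset_univ W)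
      (fun i _ _ => add_nonneg (hCN.hM i) (payRA_int (x i)))
  rw [sum_add_distrib (s := univ)] at h4
  linarith

private theorem payRA_comb {R r m : ℕ} {γ η : ℝ} (hr : 1 ≤ r) (hrR : r < R)
    (hPar : Par R r m γ η) {x : Fin (R + 1) → ℤ}
    {M : Fin (R + 1) → ℝ} {ι : Type} [DecidableEq ι] {B : Finset ι} {u : ι → Fin (R + 1) → ℝ}
    (hCN : CN R r m γ η x M B u) (p : ℕ) (hp : (∑ i, (x i : ℝ)) - r = -(p : ℝ)) :
    (∀ B' ⊆ B, B'.card = p → ∑ b ∈ B \ B', tau R r (u b) -
      (((R : ℝ) - r) + 1) / ((R : ℝ) - r) * ∑ b ∈ B', (((R : ℝ) - r) * m - tau R r (u b)) ≤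
      (∑ i, (x i : ℝ) * ((x i : ℝ) - 1) + ∑ i, M i) +
        (18 * (R : ℝ) + 10 * (R : ℝ) ^ 2) * η * m * (1 + p)) ∧
    (∀ B' ⊆ B, B'.card = p + 1 → ((R : ℝ) - r) * m -
      ∑ b ∈ B', (((R : ℝ) - r) * m - tau R r (u b)) ≤
      (∑ i, (x i : ℝ) * ((x i : ℝ) - 1) + ∑ i, M i) +
        (18 * (R : ℝ) + 10 * (R : ℝ) ^ 2) * η * m * (1 + p)) ∧
    (∀ B' ⊆ B, B'.card = p + 1 → ((R : ℝ) - r) * m + ∑ b ∈ B \ B', tau R r (u b) -
      (((R : ℝ) - r) + 1) / ((R : ℝ) - r) * ∑ b ∈ B', (((R : ℝ) - r) * m - tau R r (u b)) ≤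
      (∑ i, (x i : ℝ) * ((x i : ℝ) - 1) + ∑ i, M i) +
        (18 * (R : ℝ) + 10 * (R : ℝ) ^ 2) * η * m * (1 + p)) := by
  have hm := payRA_m hPar
  have hη := hPar.hη
  have hR0 : (0 : ℝ) < R := by exact_mod_cast (by omega : 0 < R)
  have hp0 : (0 : ℝ) ≤ p := Nat.cast_nonneg p
  have hf : ∑ i, (x i + (p : ℤ)) = (r : ℤ) + R * p := by
    have h1 : ((∑ i, x i : ℤ) : ℝ) = (((r : ℤ) - (p : ℤ) : ℤ) : ℝ) := by
      push_cast
      linarith
    have h2 : ∑ i, x i = (r : ℤ) - p := by exact_mod_cast h1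
    rw [sum_add_distrib, h2, sum_const, card_univ, Fintype.card_fin, nsmul_eq_mul]
    push_cast
    ring
  have hε : (0 : ℝ) ≤ 6 * R * η := by positivity
  have hvE : ∀ b ∈ B, VecE R m (6 * R * η) (u b) := by
    intro b hb
    have hv := hCN.vec b hb
    refine ⟨hv.nn, fun i => ?_, ?_⟩
    · refine (hv.le i).trans ?_
      apply mul_le_mul_of_nonneg_right _ hm.le
      have : 0 ≤ (R : ℝ) * η := by positivity
      linarith
    · exact hv.zero
  have hq1 : ((R : ℝ) + 1 - r) = ((R : ℝ) - r) + 1 := by ring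
  refine ⟨?_, ?_, ?_⟩
  · intro B' hB' hc
    obtain ⟨W, hW⟩ := combA R r p hrR m (6 * R * η) hm.le hε B B' hB' hc u hvE
      (fun i => x i + (p : ℤ)) hf
    have h1 := payRA_W hPar hCN p hp W
    rw [hq1] at hW
    have h2 : 3 * (6 * R * η) * m * p ≤ 18 * (R : ℝ) * η * m * (1 + p) := by
      have : 0 ≤ 18 * (R : ℝ) * η * m := by positivity
      linarith
    linarith
  · intro B' hB' hc
    obtain ⟨W, hW⟩ := combB R r p hrR m (6 * R * η) hm.le hε B B' hB' hc u hvE
      (fun i => x i + (p : ℤ)) hf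
    have h1 := payRA_W hPar hCN p hp W
    have h2 : 3 * (6 * R * η) * m * (p + 1) = 18 * (R : ℝ) * η * m * (1 + p) := by ring
    linarith
  · intro B' hB' hc
    obtain ⟨W, hW⟩ := combC R r p hrR m (6 * R * η) hm.le hε B B' hB' hc u hvE
      (fun i => x i + (p : ℤ)) hf
    have h1 := payRA_W hPar hCN p hp W
    rw [hq1] at hW
    have h2 : 3 * (6 * R * η) * m * (p + 1) = 18 * (R : ℝ) * η * m * (1 + p) := by ring
    linarith

private theorem payRA_AA (R t : ℕ) (ht : 4 ≤ t) (htR : t ≤ R + 1) :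
    0 < KK R t ∧ AA R t = KK R t * R / t := by
  constructor
  · unfold KK
    exact_mod_cast Nat.choose_pos (by omega)
  · unfold AA KK
    congr 1
    have h1 : (R - 1 + 1) * (R - 1).choose (t - 2) = (R - 1 + 1).choose (t - 2 + 1) * (t - 2 + 1) :=
      Nat.add_one_mul_choose_eq _ _
    have h2 : R - 1 + 1 = R := by omega
    have h3 : t - 2 + 1 = t - 1 := by omega
    rw [h2, h3] at h1
    have h4 : ((t - 1 : ℕ) : ℝ) = (t : ℝ) - 1 := by
      rw [Nat.cast_sub (by omega)]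
      norm_num
    rw [← h4]
    have h5 : ((R * (R - 1).choose (t - 2) : ℕ) : ℝ) = ((R.choose (t - 1) * (t - 1) : ℕ) : ℝ) := by
      rw [h1]
    push_cast at h5
    linarith

theorem payR_A (R r t : ℕ) (hR : 4 ≤ R) (hr : 1 ≤ r) (hrR : r < R) (ht : 4 ≤ t) (htR : t ≤ R + 1)
    (hI : 2 * R < t * (R - r)) : PayA R r t (psiR R r t) (chiR R r) := by
  classical
  have hr0 : (0 : ℝ) < r := by exact_mod_cast hr
  have hrR' : (r : ℝ) < R := by exact_mod_cast hrR
  have hR0 : (0 : ℝ) < R := by linarith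
  have hR4 : (4 : ℝ) ≤ R := by exact_mod_cast hR
  have ht0 : (0 : ℝ) < t := by exact_mod_cast (by omega : 0 < t)
  have hqN : 2 ≤ R - r := by
    by_contra hcon
    have h1 : R - r ≤ 1 := by omega
    have h2 : t * (R - r) ≤ t * 1 := Nat.mul_le_mul_left t h1
    omega
  have hqc : ((R - r : ℕ) : ℝ) = (R : ℝ) - r := Nat.cast_sub hrR.le
  have hq2 : 2 ≤ (R : ℝ) - r := by
    rw [← hqc]
    exact_mod_cast hqN
  have hIr : 2 * (R : ℝ) < t * ((R : ℝ) - r) := by
    rw [← hqc]
    exact_mod_cast hI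
  obtain ⟨hκ, hAκ⟩ := payRA_AA R t ht htR
  set q := (R : ℝ) - r with hq
  set A := AA R t with hA
  set κ := KK R t with hκd
  have hq0 : 0 < q := by linarith
  have hA0 : 0 < A := by
    rw [hAκ]
    positivity
  have hδ0 : A / q < κ / 2 := by
    rw [div_lt_iff₀ hq0, hAκ, div_lt_iff₀ ht0]
    linarith only [mul_lt_mul_of_pos_left hIr hκ]
  set δ := κ / 2 - A / q with hδ
  have hδpos : 0 < δ := by linarith
  intro C hC
  set E := 18 * (R : ℝ) + 10 * (R : ℝ) ^ 2 with hE
  have hE0 : 0 < E := by positivity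
  clear_value A κ δ E
  refine ⟨C + A * (E + 1), δ / (2 * C), by positivity, by positivity, ?_⟩
  intro γ hγ hγ0
  refine ⟨min (17 / 20 * (γ / (4 * R)) / (C / A + E)) (δ * q / (2 * C)),
    lt_min (by positivity) (by positivity), ?_⟩
  intro η hη hη0 m hPar x M ι B u hCN
  have hm := payRA_m hPar
  have hη1 : η * (C / A + E) ≤ 17 / 20 * (γ / (4 * R)) := by
    have := hη0.trans (min_le_left _ _)
    rwa [le_div_iff₀ (by positivity)] at this
  have hη2 : η * (2 * C) ≤ δ * q := by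
    have := hη0.trans (min_le_right _ _)
    rwa [le_div_iff₀ (by positivity)] at this
  have hκC : A / q + δ / 2 ≤ κ / 2 - C * γ := by
    rw [le_div_iff₀ (by positivity)] at hγ0
    rw [hδ] at hγ0 ⊢
    linarith
  have hG0 : 0 ≤ ∑ i, (x i : ℝ) * ((x i : ℝ) - 1) + ∑ i, M i :=
    add_nonneg (sum_nonneg (fun i _ => payRA_int (x i))) (sum_nonneg (fun i _ => hCN.hM i))
  have hU := payRA_U hCN
  have hvd : ∀ b ∈ B, VD q m (γ / (4 * R)) ((r : ℝ) / R / 2) (tau R r (u b)) (zet R r m (u b))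
      (phiR R r m (u b)) (chiR R r m (u b)) :=
    fun b hb => payRA_vec hr hrR hq2 hPar (hCN.vec b hb)
  set G := ∑ i, (x i : ℝ) * ((x i : ℝ) - 1) + ∑ i, M i with hG
  have hpow : (m : ℝ) ^ (t - 1) = (m : ℝ) ^ (t - 2) * m := by
    rw [← pow_succ]
    congr 1
    omega
  have hP : 0 < (m : ℝ) ^ (t - 2) := by positivity
  have hψ : ∑ b ∈ B, psiR R r t m (u b) =
      A * (m : ℝ) ^ (t - 1) * ∑ b ∈ B, phiR R r m (u b) := by
    rw [mul_sum, hA]
    rfl
  have key : A * m * ((∑ i, (x i : ℝ)) - r) + C * η * m * |(∑ i, (x i : ℝ)) - r| -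
      (κ / 2 - C * γ) * G + A * m * ∑ b ∈ B, phiR R r m (u b) ≤
      (C + A * (E + 1)) * η * m * ((B.filter (fun b => chiR R r m (u b))).card : ℝ) := by
    rcases le_or_gt (∑ i, x i) (r : ℤ) with hc | hc
    · obtain ⟨p, hp⟩ : ∃ p : ℕ, (r : ℤ) - ∑ i, x i = p :=
        ⟨((r : ℤ) - ∑ i, x i).toNat, (Int.toNat_of_nonneg (by linarith)).symm⟩
      have hp' : (∑ i, (x i : ℝ)) - r = -(p : ℝ) := by
        have : (((r : ℤ) - ∑ i, x i : ℤ) : ℝ) = ((p : ℤ) : ℝ) := by rw [hp]
        push_cast at this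
        linarith only [this]
      have hp0 : (0 : ℝ) ≤ p := Nat.cast_nonneg p
      obtain ⟨hcA, hcB, hcC⟩ := payRA_comb hr hrR hPar hCN p hp'
      rw [← hE] at hcA hcB hcC
      have hv : R * m * ∑ b ∈ B, zet R r m (u b) ≤ G + m * (r + R * p) + r * (1 + p) := by
        have e1 : R * m * ∑ b ∈ B, zet R r m (u b) ≤ ∑ b ∈ B, ∑ i, u b i := by
          rw [mul_sum]
          refine sum_le_sum (fun b hb => ?_)
          have hU0 : 0 ≤ ∑ i, u b i := sum_nonneg (fun i _ => (hCN.vec b hb).nn i)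
          have hD : (0 : ℝ) < R * m + r := by positivity
          unfold zet
          have e2 : R * m * ((∑ i, u b i) / (R * m + r)) =
              (∑ i, u b i) * ((R * m) / (R * m + r)) := by
            field_simp
          rw [e2]
          have e3 : (R * m) / ((R : ℝ) * m + r) ≤ 1 := by
            rw [div_le_one hD]
            linarith only [hr0]
          calc (∑ i, u b i) * ((R * m) / (R * m + r)) ≤ (∑ i, u b i) * 1 :=
                mul_le_mul_of_nonneg_left e3 hU0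
            _ = ∑ i, u b i := mul_one _
        have e4 : ∑ i, (x i : ℝ) = r - p := by linarith only [hp']
        rw [hp', e4] at hU
        have e5 : ((r : ℝ) - p) * (1 - -(p : ℝ)) ≤ r * (1 + p) := by
          linarith only [hp0, mul_nonneg hp0 hp0]
        have e6 : (m : ℝ) * (r - R * -(p : ℝ)) = m * (r + R * p) := by ring
        linarith only [e1, hU, e5, e6]
      have hnum := payRA_num B (fun b => chiR R r m (u b)) (fun b => tau R r (u b))
        (fun b => zet R r m (u b)) (fun b => phiR R r m (u b)) R r q m η (γ / (4 * R))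
        ((r : ℝ) / R / 2) (C / A) G E p hq2 hq hr0 rfl hm hη (div_pos hC hA0) (by positivity)
        (by
          have h1 := hPar.hγ'
          rw [div_le_one (by positivity)]
          nlinarith only [h1, hR0, hR4])
        (by
          have := hPar.hm
          linarith only [this]) hE0 hη1 hvd hG0 hv hcA hcB hcC
        (by
          intro hp00
          rw [hp00] at hp'
          push_cast at hp'
          exact payRA_zero hrR hCN (by linarith only [hp']))
      rw [hp', abs_neg, abs_of_nonneg hp0]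
      set N := ((B.filter (fun b => chiR R r m (u b))).card : ℝ) with hN
      set Φ := ∑ b ∈ B, phiR R r m (u b) with hΦ
      have h1 := mul_le_mul_of_nonneg_left hnum (div_pos hA0 hq0).le
      have h2 : A / q * (q * (-(m * p) + C / A * η * m * p + m * Φ) - G) =
          A * m * -(p : ℝ) + C * η * m * p - A / q * G + A * m * Φ := by
        field_simp
        ring
      have h3 : A / q * (q * ((C / A + E + 1) * η * m * N)) = (C + A * (E + 1)) * η * m * N := by
        field_simp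
        ring
      rw [h2, h3] at h1
      have h4 : A / q * G ≤ (κ / 2 - C * γ) * G :=
        mul_le_mul_of_nonneg_right (by linarith only [hκC, hδpos]) hG0
      linarith only [h1, h4]
    · have hc1 : (1 : ℝ) ≤ (∑ i, (x i : ℝ)) - r := by
        have h1 : (r : ℤ) + 1 ≤ ∑ i, x i := hc
        have h2 : (((r : ℤ) + 1 : ℤ) : ℝ) ≤ ((∑ i, x i : ℤ) : ℝ) := by exact_mod_cast h1
        push_cast at h2
        linarith only [h2]
      set c := (∑ i, (x i : ℝ)) - r with hcd
      have hX : ∑ i, (x i : ℝ) = r + c := by rw [hcd]; ring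
      rw [hX] at hU
      rw [abs_of_nonneg (by linarith only [hc1])]
      set N := ((B.filter (fun b => chiR R r m (u b))).card : ℝ) with hN
      have hN0 : 0 ≤ N := Nat.cast_nonneg _
      set S := ∑ b ∈ B, ∑ i, u b i with hS
      have hS0 : 0 ≤ S := sum_nonneg (fun b hb => sum_nonneg (fun i _ => (hCN.vec b hb).nn i))
      have hGS : S + m * (c * q) ≤ G := by
        have e1 : ((r : ℝ) + c) * (1 - c) ≤ 0 :=
          mul_nonpos_of_nonneg_of_nonpos (by linarith only [hc1, hr0]) (by linarith only [hc1])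
        have e2 : c * q ≤ R * c - r := by
          rw [hq]
          linarith only [mul_le_mul_of_nonneg_left hc1 hr0.le]
        have e3 := mul_le_mul_of_nonneg_left e2 hm.le
        linarith only [hU, e1, e3]
      have hΦS : q * (m * ∑ b ∈ B, phiR R r m (u b)) ≤ S := by
        rw [mul_sum, mul_sum, hS]
        refine sum_le_sum (fun b hb => ?_)
        have e1 := (hvd b hb).φτ
        have e2 := tau_avg hrR.le (u b)
        have hU0 : 0 ≤ ∑ i, u b i := sum_nonneg (fun i _ => (hCN.vec b hb).nn i)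
        have e3 : tau R r (u b) ≤ ∑ i, u b i := by
          have e4 : ((R : ℝ) + 1 - r) * ∑ i, u b i ≤ ((R : ℝ) + 1) * ∑ i, u b i :=
            mul_le_mul_of_nonneg_right (by linarith only [hr0]) hU0
          have e5 := e2.trans e4
          exact le_of_mul_le_mul_left e5 (by linarith only [hR0])
        linarith only [e1, e3]
      have hAΦ : A * m * ∑ b ∈ B, phiR R r m (u b) ≤ A / q * S := by
        have e1 := mul_le_mul_of_nonneg_left hΦS (div_pos hA0 hq0).le
        have e2 : A / q * (q * (m * ∑ b ∈ B, phiR R r m (u b))) =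
            A * m * ∑ b ∈ B, phiR R r m (u b) := by
          field_simp
        linarith only [e1, e2]
      have hκG : (A / q + δ / 2) * (S + m * (c * q)) ≤ (κ / 2 - C * γ) * G := by
        calc (A / q + δ / 2) * (S + m * (c * q)) ≤ (A / q + δ / 2) * G :=
              mul_le_mul_of_nonneg_left hGS (by positivity)
          _ ≤ (κ / 2 - C * γ) * G := mul_le_mul_of_nonneg_right hκC hG0
      have hexp : (A / q + δ / 2) * (S + m * (c * q)) =
          A / q * S + A * m * c + δ / 2 * S + δ / 2 * (m * (c * q)) := by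
        field_simp
        ring
      have hCη : C * η * m * c ≤ δ / 2 * (m * (c * q)) := by
        have e1 : C * η ≤ δ * q / 2 := by linarith only [hη2]
        have e2 := mul_le_mul_of_nonneg_right e1 (by positivity : 0 ≤ m * c)
        have e3 : δ * q / 2 * (m * c) = δ / 2 * (m * (c * q)) := by ring
        linarith only [e2, e3]
      have hE1 : 0 ≤ C + A * (E + 1) := by
        have e1 := mul_pos hA0 (by linarith only [hE0] : (0 : ℝ) < E + 1)
        linarith only [e1, hC]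
      have hrhs : 0 ≤ (C + A * (E + 1)) * η * m * N :=
        mul_nonneg (mul_nonneg (mul_nonneg hE1 hη.le) hm.le) hN0
      have hδS : 0 ≤ δ / 2 * S := by positivity
      linarith only [hAΦ, hκG, hexp, hCη, hrhs, hδS]
  have hkey := mul_le_mul_of_nonneg_left key hP.le
  rw [← hA, ← hκd]
  calc A * (m : ℝ) ^ (t - 1) * ((∑ i, (x i : ℝ)) - r) +
        C * η * (m : ℝ) ^ (t - 1) * |(∑ i, (x i : ℝ)) - r| -
        (κ / 2 - C * γ) * (m : ℝ) ^ (t - 2) * G + ∑ b ∈ B, psiR R r t m (u b)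
      = (m : ℝ) ^ (t - 2) * (A * m * ((∑ i, (x i : ℝ)) - r) +
        C * η * m * |(∑ i, (x i : ℝ)) - r| -
        (κ / 2 - C * γ) * G + A * m * ∑ b ∈ B, phiR R r m (u b)) := by
        rw [hψ, hpow]
        ring
    _ ≤ (m : ℝ) ^ (t - 2) * ((C + A * (E + 1)) * η * m *
        ((B.filter (fun b => chiR R r m (u b))).card : ℝ)) := hkey
    _ = (C + A * (E + 1)) * η * (m : ℝ) ^ (t - 1) *
        ((B.filter (fun b => chiR R r m (u b))).card : ℝ) := by
        rw [hpow]
        ring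

theorem payR_C (R r t : ℕ) (hR : 4 ≤ R) (hr : 1 ≤ r) (hrR : r < R) (ht : 4 ≤ t) :
    PayC R r (psiR R r t) (chiR R r) := by
  constructor
  · intro m γ η u hPar hu
    have h1 := payRA_phi_nn hr hrR hPar hu
    have h2 : psiR R r t m u = AA R t * (m : ℝ) ^ (t - 1) * phiR R r m u := rfl
    rw [h2]
    have h3 : 0 ≤ AA R t := by
      unfold AA
      have : (4 : ℝ) ≤ t := by exact_mod_cast ht
      apply div_nonneg
      · apply mul_nonneg (Nat.cast_nonneg _)
        linarith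
      · linarith
    positivity
  · refine ⟨1 / 2, by norm_num, ?_⟩
    intro m γ η u hPar hu hχ
    have hm := payRA_m hPar
    have hr0 : (1 : ℝ) ≤ r := by exact_mod_cast hr
    have hR0 : (0 : ℝ) < R := by exact_mod_cast (by omega : 0 < R)
    have hD : (0 : ℝ) < R * m + r := by positivity
    unfold chiR zet at hχ
    rw [lt_div_iff₀ hD] at hχ
    have e1 : (r : ℝ) / R / 2 * (R * m + r) = r * m / 2 + r * r / (2 * R) := by
      field_simp
    rw [e1] at hχ
    have e2 : 0 ≤ (r : ℝ) * r / (2 * R) := by positivity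
    have e3 : (m : ℝ) ≤ r * m := by nlinarith
    linarith

end Pool.Agent.H45.KTD
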