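import Pool.Agent.H45.KTD.CombF
import Pool.Agent.H45.KTD.PayRA

/-!
# KTD PayO: the case `r = R - 1`, `t = R + 1` (cliques of maximal size, `Δ ≡ -1`), cluster side

`r = R - 1`, `q = 1`, `t = R + 1`, `κ = KK = 1`, `A = AA = R/(R+1)`, `D = R m + r`.  `z b = U b / D`, `β b = R τ b / D ≤ τ b / m`, `τ = tau` = sum of
the two smallest coordinates.  `φ = 0` if `z ≤ 1/2` and `min β (2 z - 1)` otherwise (`b` large); `N` = number of large `b`;
`X = ∑ x i`, `c = X - r`, `Q`, `𝓜`, `S i` as in PayRA; `f i = x i - c`, `∑ f = r - R c`; `ε = 6 R η`.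
(S) sum of `part`: `Q + 𝓜 ≥ ∑ U b - m (r - R c) - X (1 - c)`.  (d) `𝓜 ≥ 2 M i ≥ 2 (S i - (m + x i) f i)` for every `i`.
`Z1 = ∑_{large} z`, `∑ ψ ≤ A m ^ R (2 Z1 - N)`, `∑ U b ≥ R m Z1`.
* `c = 1`: `∑ f = - 1`, some `f i ≤ - 1`, so (d) `𝓜 ≥ 2 (m + x i) ≥ 2 m (1 - 5 R η)`.  `N = 0`: left side `≤ m ^ R (A + C η - (1/2 - C γ) 2 (1 - 5 R η)) ≤ 0`
  as `A < 1`.  `N ≥ 1`: (S): `Q + 𝓜 ≥ R m Z1 + m`; left side / `m ^ R` `≤ A + C η - (1/2 - C γ)(R Z1 + 1) + A (2 Z1 - N)`
  `≤ - 1/2 + small - (R/2 - 2 A - C γ R) Z1 ≤ 0` (`R/2 - 2 A ≥ 2/(R+1) > 0`... for `R ≥ 4`, `A < 1`).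
* `c ≥ 2`: (S): `Q + 𝓜 ≥ R m Z1 + m (R (c-1) + 1)`; left side / `m ^ R` `≤ c (A + C η) - (1/2 - C γ)(R Z1 + R (c - 1) + 1) + 2 A Z1 ≤ 0`
  (`(R/2)(c-1) + 1/2 ≥ c + 1/2`).
* `c = - p ≤ 0`, `N ≤ p`: `2 z - 1 ≤ 1 - γ/R` (`Vec.sum`): left side `≤ m ^ R p (- A + C η + A (1 - γ/R)) ≤ 0`.
* `c = - p`, `N = p + 1`, `B' = {large}`: `n i = #{b ∈ B' : i0 b ≠ i}` (`u b (i0 b) ≤ ε m`), `∑ (n i - f i) = R (p+1) - r - R p = 1`, so
  `h i = n i - f i ≥ 1` for some `i`; as `n i ≤ p + 1`, `f i = x i + p`: `x i ≤ 0`, `x i = - y`, `h i = n i - p + y`, `y ≤ h i + p`,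
  `y ≤ 5 R η m`.  For `b ∈ B'`, `i0 b ≠ i`: `u b i ≥ τ b - ε m`.  So
  `S i - (m + x i) f i ≥ m h i - ∑_{B'} (m - τ b) - ε m (p + 1) - y (y - p)`, `y (y - p) ≤ y² ≤ 5 R η m (h i + p)`, hence
  `𝓜 ≥ 2 m (1 - s) - C' η m (p + 1)`, `s = ∑_{B'} (1 - τ b / m) ≥ 0` (`τ b ≤ m` from `tau_vec`).  `∑ φ ≤ ∑_{B'} τ b / m = p + 1 - s`.  Left side / `m ^ R`
  `≤ A (1 - s) - (1/2 - C γ) max 0 (2 (1 - s)) + C'' η (p + 1) ≤ C'' η N` (`1 - 2 C γ ≥ A`).
* `c = - p`, `N ≥ p + 2`: (S), `X = r - p ≤ r`: `Q + 𝓜 ≥ R m Z1 - m (r + R p) - r (1 + p)`.  If `2 Z1 - N ≤ p` clear.  Otherwise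
  `Z1 > (N + p)/2 ≥ p + 1` and `(1/2 - C γ)(R Z1 - (R - 1) - R p) - A (2 Z1 - N - p)` is increasing in `Z1` and positive at
  `Z1 = (N + p)/2`.
`payO_C`: `c0 = R/2`.
-/

set_option autoImplicit false

open Finset

namespace Pool.Agent.H45.KTD

open Pool.Agent.H11.TD

open scoped Classical in
/-- payment in the case `r = R - 1`, `t = R + 1` -/
noncomputable def psiO (R m : ℕ) (u : Fin (R + 1) → ℝ) : ℝ :=
  AA R (R + 1) * (m : ℝ) ^ R * (if zet R (R - 1) m u ≤ 1 / 2 then 0 else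
    min (bet R (R - 1) m u) (2 * zet R (R - 1) m u - 1))

def chiO (R m : ℕ) (u : Fin (R + 1) → ℝ) : Prop := 1 / 2 < zet R (R - 1) m u

private theorem PayO_AA (R : ℕ) : AA R (R + 1) = (R : ℝ) / (R + 1) := by
  unfold AA
  rw [Nat.add_sub_cancel, Nat.choose_self]
  push_cast
  ring

private theorem PayO_KK (R : ℕ) : KK R (R + 1) = 1 := by
  unfold KK
  have : R + 1 - 2 = R - 1 := by omega
  rw [this, Nat.choose_self]
  norm_num

open scoped Classical in
/-- the normalised payment -/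
private noncomputable def PayO_phi (R m : ℕ) (u : Fin (R + 1) → ℝ) : ℝ :=
  if zet R (R - 1) m u ≤ 1 / 2 then 0 else
    min (bet R (R - 1) m u) (2 * zet R (R - 1) m u - 1)

private theorem PayO_psi (R m : ℕ) (u : Fin (R + 1) → ℝ) :
    psiO R m u = AA R (R + 1) * (m : ℝ) ^ R * PayO_phi R m u := rfl

private theorem PayO_phi_small {R m : ℕ} {u : Fin (R + 1) → ℝ} (h : ¬ chiO R m u) :
    PayO_phi R m u = 0 := by
  unfold PayO_phi
  rw [if_pos (not_lt.1 h)]

private theorem PayO_phi_le {R m : ℕ} {u : Fin (R + 1) → ℝ} (h : chiO R m u) :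
    PayO_phi R m u ≤ 2 * zet R (R - 1) m u - 1 ∧ PayO_phi R m u ≤ bet R (R - 1) m u := by
  unfold PayO_phi
  rw [if_neg (not_le.2 h)]
  exact ⟨min_le_right _ _, min_le_left _ _⟩

private theorem PayO_cast {R : ℕ} (hR : 4 ≤ R) : ((R - 1 : ℕ) : ℝ) = (R : ℝ) - 1 := by
  rw [Nat.cast_sub (by omega)]; norm_num

/-- a consequence of `tau_le` for two indices -/
private theorem PayO_tau_two {R : ℕ} (hR : 4 ≤ R) (u : Fin (R + 1) → ℝ) {i j : Fin (R + 1)}
    (hij : i ≠ j) : tau R (R - 1) u ≤ u i + u j := by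
  have h := tau_le (R := R) (r := R - 1) u {i, j} (by rw [Finset.card_pair hij]; omega)
  rwa [Finset.sum_pair hij] at h

private theorem PayO_int_sq (x : ℤ) : (0 : ℝ) ≤ (x : ℝ) * ((x : ℝ) - 1) := by
  have h : 0 ≤ x * (x - 1) := by
    rcases le_or_gt x 0 with h | h
    · exact mul_nonneg_of_nonpos_of_nonpos h (by omega)
    · exact mul_nonneg h.le (by omega)
  exact_mod_cast h

/-- positivity facts -/
private theorem PayO_pos {R m : ℕ} {γ η : ℝ} (hP : Par R (R - 1) m γ η) :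
    0 < (m : ℝ) ∧ (R : ℝ) ≤ η * m ∧ (4 : ℝ) ≤ R := by
  have h4 : (4 : ℝ) ≤ R := by exact_mod_cast hP.hR
  have h1 := hP.hm
  rw [PayO_cast hP.hR] at h1
  have h2 : (R : ℝ) ≤ η * m := by linarith
  refine ⟨?_, h2, h4⟩
  have h3 : 0 < η * m := by linarith
  exact (mul_pos_iff_of_pos_left hP.hη).1 h3

private theorem PayO_zet_le {R m : ℕ} {γ η : ℝ} (hP : Par R (R - 1) m γ η)
    {u : Fin (R + 1) → ℝ} (hu : Vec R m γ η u) : zet R (R - 1) m u ≤ 1 - γ / (2 * R) := by
  obtain ⟨hm, _, hR4⟩ := PayO_pos hP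
  unfold zet
  rw [PayO_cast hP.hR, div_le_iff₀ (by nlinarith)]
  refine hu.sum.trans ?_
  have hγ1 : γ ≤ 1 := by
    have := hP.hγ'
    have h0 := hP.hγ
    nlinarith
  have e1 : (1 - γ / (2 * R)) * ((R : ℝ) * m + (R - 1))
      = (R - γ / 2) * m + (1 - γ / (2 * R)) * (R - 1) := by
    field_simp
  rw [e1]
  have h2 : γ / (2 * R) ≤ 1 := by
    rw [div_le_one (by positivity)]
    linarith
  have h3 : 0 ≤ (1 - γ / (2 * R)) * ((R : ℝ) - 1) := mul_nonneg (by linarith) (by linarith)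
  linarith

private theorem PayO_bet_le {R m : ℕ} {γ η : ℝ} (hP : Par R (R - 1) m γ η)
    {u : Fin (R + 1) → ℝ} (hu : Vec R m γ η u) :
    bet R (R - 1) m u ≤ tau R (R - 1) u / m := by
  obtain ⟨hm, _, hR4⟩ := PayO_pos hP
  have ht := tau_nn (R := R) (r := R - 1) u hu.nn
  unfold bet
  rw [PayO_cast hP.hR]
  have e1 : ((R : ℝ) - (R - 1)) * (R * m + (R - 1)) = R * m + (R - 1) := by ring
  rw [e1, div_le_div_iff₀ (by nlinarith) hm]
  nlinarith [mul_nonneg ht (by linarith : (0 : ℝ) ≤ R - 1)]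

private theorem PayO_tau_le {R m : ℕ} {γ η : ℝ} (hP : Par R (R - 1) m γ η)
    {u : Fin (R + 1) → ℝ} (hu : Vec R m γ η u) : tau R (R - 1) u ≤ m := by
  obtain ⟨hm, _, hR4⟩ := PayO_pos hP
  have h := tau_vec (r := R - 1) (by have := hP.hR; omega) (by omega) u hu
  rw [PayO_cast hP.hR] at h
  have h1 : ((R : ℝ) - (R - 1)) / R * ∑ i, u i ≤ ((R : ℝ) - (R - 1)) / R * ((R - γ / 2) * m) :=
    mul_le_mul_of_nonneg_left hu.sum (by
      have : (R : ℝ) - (R - 1) = 1 := by ring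
      rw [this]; positivity)
  have h2 : ((R : ℝ) - (R - 1)) / R * ((R - γ / 2) * m) = m - γ / (2 * R) * m := by
    field_simp
    ring
  have h3 : 6 * R * η ≤ γ / (2 * R) := by
    rw [le_div_iff₀ (by positivity)]
    have := hP.hη'
    nlinarith [hP.hη, mul_nonneg (sq_nonneg (R : ℝ)) hP.hη.le]
  have h4 := mul_le_mul_of_nonneg_right h3 hm.le
  linarith

/-- sum of `part` -/
private theorem PayO_S {R m : ℕ} {γ η : ℝ} {x : Fin (R + 1) → ℤ} {M : Fin (R + 1) → ℝ}
    {ι : Type} {B : Finset ι} {u : ι → Fin (R + 1) → ℝ} (hR : 4 ≤ R)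
    (H : CN R (R - 1) m γ η x M B u) {c : ℝ} (hc : c = ∑ k, (x k : ℝ) - ((R - 1 : ℕ) : ℝ)) :
    ∑ b ∈ B, ∑ i, u b i ≤ (∑ i, (x i : ℝ) * ((x i : ℝ) - 1) + ∑ i, M i)
      + m * ((R : ℝ) - 1 - R * c) + ((R : ℝ) - 1 + c) * (1 - c) := by
  have h1 : ∑ i, ∑ b ∈ B, u b i ≤ ∑ i, (M i + ((m : ℝ) + x i) * ((x i : ℝ) - c)) :=
    Finset.sum_le_sum fun i _ => by rw [hc]; exact H.part i
  rw [Finset.sum_comm] at h1
  refine h1.trans (le_of_eq ?_)
  have hX : ∑ k, (x k : ℝ) = c + (R - 1) := by rw [hc, PayO_cast hR]; ring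
  have e1 : ∀ i, M i + ((m : ℝ) + x i) * ((x i : ℝ) - c)
      = M i + (x i : ℝ) * ((x i : ℝ) - 1) + (m + 1 - c) * (x i : ℝ) - m * c := fun i => by ring
  simp_rw [e1]
  rw [Finset.sum_sub_distrib, Finset.sum_add_distrib, Finset.sum_add_distrib, ← Finset.mul_sum,
    hX, Finset.sum_const, Finset.card_univ, Fintype.card_fin, nsmul_eq_mul]
  push_cast
  ring

section main

variable {R m : ℕ} {γ η : ℝ} {x : Fin (R + 1) → ℤ} {M : Fin (R + 1) → ℝ} {ι : Type}
  {B : Finset ι} {u : ι → Fin (R + 1) → ℝ}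

open scoped Classical in
private theorem PayO_phi_sum : ∑ b ∈ B, PayO_phi R m (u b)
    = ∑ b ∈ B.filter (fun b => chiO R m (u b)), PayO_phi R m (u b) := by
  rw [Finset.sum_filter]
  refine Finset.sum_congr rfl fun b _ => ?_
  split_ifs with h
  · rfl
  · exact PayO_phi_small h

open scoped Classical in
private theorem PayO_phi_sum_z : ∑ b ∈ B, PayO_phi R m (u b)
    ≤ 2 * ∑ b ∈ B.filter (fun b => chiO R m (u b)), zet R (R - 1) m (u b)
      - ((B.filter (fun b => chiO R m (u b))).card : ℝ) := by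
  rw [PayO_phi_sum, Finset.mul_sum]
  have h1 : ((B.filter (fun b => chiO R m (u b))).card : ℝ)
      = ∑ b ∈ B.filter (fun b => chiO R m (u b)), (1 : ℝ) := by simp
  rw [h1, ← Finset.sum_sub_distrib]
  exact Finset.sum_le_sum fun b hb => (PayO_phi_le (Finset.mem_filter.1 hb).2).1

open scoped Classical in
private theorem PayO_phi_sum_N (hP : Par R (R - 1) m γ η) (H : CN R (R - 1) m γ η x M B u) :
    ∑ b ∈ B, PayO_phi R m (u b)
    ≤ ((B.filter (fun b => chiO R m (u b))).card : ℝ) * (1 - γ / R) := by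
  rw [PayO_phi_sum]
  have h1 : ((B.filter (fun b => chiO R m (u b))).card : ℝ) * (1 - γ / R)
      = ∑ b ∈ B.filter (fun b => chiO R m (u b)), (1 - γ / R) := by
    rw [Finset.sum_const, nsmul_eq_mul]
  rw [h1]
  refine Finset.sum_le_sum fun b hb => ?_
  have hb' := Finset.mem_filter.1 hb
  have h2 := (PayO_phi_le hb'.2).1
  have h3 := PayO_zet_le hP (H.vec b hb'.1)
  have h4 : 2 * (γ / (2 * R)) = γ / R := by
    obtain ⟨_, _, hR4⟩ := PayO_pos hP
    field_simp
  linarith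

open scoped Classical in
private theorem PayO_phi_sum_tau (hP : Par R (R - 1) m γ η) (H : CN R (R - 1) m γ η x M B u) :
    ∑ b ∈ B, PayO_phi R m (u b)
    ≤ ∑ b ∈ B.filter (fun b => chiO R m (u b)), tau R (R - 1) (u b) / m := by
  rw [PayO_phi_sum]
  refine Finset.sum_le_sum fun b hb => ?_
  have hb' := Finset.mem_filter.1 hb
  exact (PayO_phi_le hb'.2).2.trans (PayO_bet_le hP (H.vec b hb'.1))

open scoped Classical in
/-- lower bound for the sum of all `U` -/
private theorem PayO_U (hP : Par R (R - 1) m γ η) (H : CN R (R - 1) m γ η x M B u) :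
    0 ≤ ∑ b ∈ B.filter (fun b => chiO R m (u b)), zet R (R - 1) m (u b) ∧
    R * m * ∑ b ∈ B.filter (fun b => chiO R m (u b)), zet R (R - 1) m (u b)
      ≤ ∑ b ∈ B, ∑ i, u b i := by
  obtain ⟨hm, _, hR4⟩ := PayO_pos hP
  have hz : ∀ b ∈ B.filter (fun b => chiO R m (u b)), 0 ≤ zet R (R - 1) m (u b) := by
    intro b hb
    have : (1 : ℝ) / 2 < zet R (R - 1) m (u b) := (Finset.mem_filter.1 hb).2
    linarith
  refine ⟨Finset.sum_nonneg hz, ?_⟩
  rw [Finset.mul_sum]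
  refine (Finset.sum_le_sum fun b hb => ?_).trans
    (Finset.sum_le_sum_of_subset_of_nonneg (Finset.filter_subset _ _) fun b hb _ =>
      Finset.sum_nonneg fun i _ => (H.vec b hb).nn i)
  have h1 : (0 : ℝ) < (R : ℝ) * m + ((R - 1 : ℕ) : ℝ) := by
    rw [PayO_cast hP.hR]; nlinarith
  have h2 : ((R : ℝ) * m + ((R - 1 : ℕ) : ℝ)) * zet R (R - 1) m (u b) = ∑ i, u b i := by
    unfold zet
    field_simp
  rw [← h2]
  refine mul_le_mul_of_nonneg_right ?_ (hz b hb)
  have : (0 : ℝ) ≤ ((R - 1 : ℕ) : ℝ) := Nat.cast_nonneg _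
  linarith

open scoped Classical in
/-- the case of `p + 1` large vertices -/
private theorem PayO_d (hP : Par R (R - 1) m γ η) (H : CN R (R - 1) m γ η x M B u) {p : ℕ}
    (hX : ∑ k, x k = (R : ℤ) - 1 - p)
    (hN : (B.filter (fun b => chiO R m (u b))).card = p + 1) :
    2 * m * (1 - ∑ b ∈ B.filter (fun b => chiO R m (u b)), (1 - tau R (R - 1) (u b) / m)
      - 11 * R * η * (p + 1)) ≤ ∑ i, M i := by
  obtain ⟨hm, _, hR4⟩ := PayO_pos hP
  have hR := hP.hR
  set L := B.filter (fun b => chiO R m (u b)) with hL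
  have hLB : ∀ b ∈ L, b ∈ B := fun b hb => (Finset.mem_filter.1 hb).1
  have hex : ∀ b, ∃ i, b ∈ L → u b i ≤ 6 * R * η * m := by
    intro b
    by_cases hb : b ∈ L
    · obtain ⟨i, hi⟩ := (H.vec b (hLB b hb)).zero
      exact ⟨i, fun _ => hi⟩
    · exact ⟨0, fun h => absurd h hb⟩
  choose i0 hi0 using hex
  -- the numbers `n i`
  let n : Fin (R + 1) → ℤ := fun i => ((L.filter (fun b => i0 b ≠ i)).card : ℤ)
  have hn_sum : ∑ i, n i = (R : ℤ) * (p + 1) := by
    have h1 : ∀ i, n i = ∑ b ∈ L, if i0 b ≠ i then (1 : ℤ) else 0 := by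
      intro i
      simp only [n]
      rw [Finset.card_filter]
      push_cast
      rfl
    simp_rw [h1]
    rw [Finset.sum_comm]
    have h2 : ∀ b ∈ L, ∑ i, (if i0 b ≠ i then (1 : ℤ) else 0) = R := by
      intro b _
      have h3 : ∀ i, (if i0 b ≠ i then (1 : ℤ) else 0) = 1 - (if i0 b = i then 1 else 0) := by
        intro i
        by_cases h : i0 b = i
        · simp [h]
        · simp [h]
      simp_rw [h3]
      rw [Finset.sum_sub_distrib, Finset.sum_ite_eq, if_pos (Finset.mem_univ _)]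
      simp
    rw [Finset.sum_congr rfl h2, Finset.sum_const, hN]
    simp
    ring
  obtain ⟨i, -, hi⟩ : ∃ i ∈ (Finset.univ : Finset (Fin (R + 1))), 0 < n i - (x i + p) := by
    refine Finset.exists_lt_of_sum_lt (f := fun _ => (0 : ℤ)) (g := fun i => n i - (x i + p)) ?_ |>.imp
      fun i h => ⟨h.1, h.2⟩
    rw [Finset.sum_sub_distrib, Finset.sum_add_distrib, hn_sum, hX]
    simp
    ring_nf
    omega
  have hn1 : n i ≤ p + 1 := by
    simp only [n]
    have := Finset.card_filter_le L (fun b => i0 b ≠ i)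
    rw [hN] at this
    exact_mod_cast this
  have hn0 : 0 ≤ n i := by simp only [n]; positivity
  set h : ℤ := n i - (x i + p) with hh
  have hx0 : x i ≤ 0 := by omega
  -- real versions
  have hh1 : (1 : ℝ) ≤ h := by exact_mod_cast (by omega : 1 ≤ h)
  have hhr : (h : ℝ) = (n i : ℝ) - ((x i : ℝ) + p) := by rw [hh]; push_cast; ring
  have hxr : (x i : ℝ) ≤ 0 := by exact_mod_cast hx0
  have hnr1 : (n i : ℝ) ≤ p + 1 := by exact_mod_cast hn1
  have hnr0 : (0 : ℝ) ≤ n i := by exact_mod_cast hn0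
  have hp0 : (0 : ℝ) ≤ p := Nat.cast_nonneg _
  have hε0 : 0 ≤ 6 * R * η * m := by have := hP.hη; positivity
  -- lower bound for `S i`
  have hτm : ∀ b ∈ L, tau R (R - 1) (u b) ≤ m := fun b hb => PayO_tau_le hP (H.vec b (hLB b hb))
  have hS1 : ∑ b ∈ L.filter (fun b => i0 b ≠ i), u b i ≤ ∑ b ∈ B, u b i := by
    refine Finset.sum_le_sum_of_subset_of_nonneg ?_ fun b hb _ => (H.vec b hb).nn i
    exact (Finset.filter_subset _ _).trans (Finset.filter_subset _ _)
  have hS2 : ∑ b ∈ L.filter (fun b => i0 b ≠ i), (tau R (R - 1) (u b) - 6 * R * η * m)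
      ≤ ∑ b ∈ L.filter (fun b => i0 b ≠ i), u b i := by
    refine Finset.sum_le_sum fun b hb => ?_
    have hb' := Finset.mem_filter.1 hb
    have h1 := PayO_tau_two hR (u b) hb'.2
    have h2 := hi0 b hb'.1
    linarith
  have hS3 : (n i : ℝ) * m - ∑ b ∈ L, (m - tau R (R - 1) (u b)) - 6 * R * η * m * (p + 1)
      ≤ ∑ b ∈ L.filter (fun b => i0 b ≠ i), (tau R (R - 1) (u b) - 6 * R * η * m) := by
    have h1 : ∑ b ∈ L.filter (fun b => i0 b ≠ i), (tau R (R - 1) (u b) - 6 * R * η * m)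
        = (n i : ℝ) * m - ∑ b ∈ L.filter (fun b => i0 b ≠ i), (m - tau R (R - 1) (u b))
          - 6 * R * η * m * (n i : ℝ) := by
      have h2 : ∀ b, tau R (R - 1) (u b) - 6 * R * η * m
          = (m - 6 * R * η * m) - (m - tau R (R - 1) (u b)) := fun b => by ring
      simp_rw [h2]
      rw [Finset.sum_sub_distrib, Finset.sum_const, nsmul_eq_mul]
      have h3 : (((L.filter (fun b => i0 b ≠ i)).card : ℕ) : ℝ) = (n i : ℝ) := by
        simp only [n]; push_cast; rfl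
      rw [h3]
      ring
    rw [h1]
    have h2 : ∑ b ∈ L.filter (fun b => i0 b ≠ i), (m - tau R (R - 1) (u b))
        ≤ ∑ b ∈ L, ((m : ℝ) - tau R (R - 1) (u b)) :=
      Finset.sum_le_sum_of_subset_of_nonneg (Finset.filter_subset _ _) fun b hb _ => by
        have := hτm b hb
        linarith
    have h3 : 6 * R * η * m * (n i : ℝ) ≤ 6 * R * η * m * (p + 1) :=
      mul_le_mul_of_nonneg_left hnr1 hε0
    linarith
  -- `part`
  have hpart := H.part i
  have hdbl := H.dbl i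
  have hc : ∑ k, (x k : ℝ) - ((R - 1 : ℕ) : ℝ) = -(p : ℝ) := by
    have h1 : ∑ k, (x k : ℝ) = ((∑ k, x k : ℤ) : ℝ) := by push_cast; rfl
    rw [h1, hX, PayO_cast hR]
    push_cast
    ring
  rw [hc] at hpart
  have hsum_s : ∑ b ∈ L, ((m : ℝ) - tau R (R - 1) (u b))
      = m * ∑ b ∈ L, (1 - tau R (R - 1) (u b) / m) := by
    rw [Finset.mul_sum]
    refine Finset.sum_congr rfl fun b _ => ?_
    field_simp
  rw [hsum_s] at hS3
  set s := ∑ b ∈ L, (1 - tau R (R - 1) (u b) / m) with hs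
  -- `y = - x i`
  have hy2 : -(x i : ℝ) ≤ 5 * R * η * m := by
    have := (abs_le.1 (H.hx i)).1
    linarith
  have hy1 : -(x i : ℝ) ≤ h + p := by rw [hhr]; linarith
  have hyy : (x i : ℝ) * (x i + p) ≤ 5 * R * η * m * (h + p) := by
    have h1 : (x i : ℝ) * (x i + p) ≤ (-(x i : ℝ)) * (-(x i : ℝ)) := by nlinarith
    have h2 : (-(x i : ℝ)) * (-(x i : ℝ)) ≤ 5 * R * η * m * (h + p) :=
      mul_le_mul hy2 hy1 (by linarith) (by have := hP.hη; positivity)
    linarith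
  have hη5 : 5 * R * η ≤ 1 := by
    have h1 := hP.hη'
    have h2 := hP.hγ'
    have h3 : γ ≤ 1 := by nlinarith [hP.hγ]
    nlinarith [hP.hη]
  have hm5 : 0 ≤ m * (1 - 5 * R * η) * ((h : ℝ) - 1) :=
    mul_nonneg (mul_nonneg hm.le (by linarith)) (by linarith)
  have e1 : ((m : ℝ) + x i) * ((x i : ℝ) - -(p : ℝ)) = m * (n i - h) + (x i : ℝ) * (x i + p) := by
    rw [hhr]; ring
  rw [e1] at hpart
  have key : m * (1 - s - 11 * R * η * (p + 1)) ≤ M i := by
    have h1 : (n i : ℝ) * m - m * s - 6 * R * η * m * (p + 1)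
        ≤ M i + (m * (n i - h) + (x i : ℝ) * (x i + p)) :=
      hS3.trans (hS2.trans (hS1.trans hpart))
    linarith
  linarith

end main

/-- the numerical core; `δ = 1 - A` -/
private theorem PayO_core {R N : ℕ} {a δ c C η γ T Φ Z ρ s : ℝ} (hR : (4 : ℝ) ≤ R)
    (ha : a = 1 - δ) (hδ : 0 < δ) (hδ1 : δ ≤ 1 / 5) (hC : 0 < C) (hγ : 0 < γ) (hη : 0 < η)
    (h1 : 8 * R * (C * γ) ≤ δ) (h2 : 4 * ((C + 5 * R) * η) ≤ δ) (h3 : C * η ≤ a * γ / R)
    (hT : 0 ≤ T) (hZ : 0 ≤ Z) (hΦZ : Φ ≤ 2 * Z - N) (hΦN : Φ ≤ N * (1 - γ / R))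
    (hρ : 0 ≤ ρ) (hρη : ρ ≤ η) (hγR : γ ≤ R)
    (hS : R * Z ≤ T + (R - 1 - R * c) + (R - 1 + c) * (1 - c) * ρ / (R - 1)) (cz : ℤ)
    (hcz : c = cz)
    (hd1 : cz = 1 → 2 * (1 - 5 * R * η) ≤ T)
    (hd2 : ∀ p : ℕ, cz = -p → N = p + 1 → 2 * (1 - s - 11 * R * η * (p + 1)) ≤ T)
    (hs : ∀ p : ℕ, cz = -p → N = p + 1 → Φ ≤ p + 1 - s) :
    a * c + C * η * |c| - (1 / 2 - C * γ) * T + a * Φ ≤ (C + 11 * R + 1) * η * N := by
  have hR1 : (0 : ℝ) < R - 1 := by linarith
  have hCγ : 0 < C * γ := mul_pos hC hγ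
  have hCη : 0 < C * η := mul_pos hC hη
  have hN0 : (0 : ℝ) ≤ N := Nat.cast_nonneg _
  have ha0 : 0 < a := by linarith
  have hRHS : 0 ≤ (C + 11 * R + 1) * η * N := by positivity
  have hR0 : (0 : ℝ) ≤ R := by linarith only [hR]
  have hRη : 0 ≤ R * η := mul_nonneg hR0 hη.le
  have hRC := mul_le_mul_of_nonneg_right hR hCγ.le
  have hk0 : 0 ≤ 1 / 2 - C * γ := by linarith only [h1, hδ1, hRC]
  have hkR : 2 * a ≤ (1 / 2 - C * γ) * R := by linarith only [ha, h1, hR, hδ]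
  have hk1 : 1 / 2 - C * γ ≤ 1 / 2 := by linarith only [hCγ]
  rcases le_or_gt 1 cz with hc1 | hc1
  · have hc1r : (1 : ℝ) ≤ c := by rw [hcz]; exact_mod_cast hc1
    rw [abs_of_nonneg (by linarith only [hc1r])]
    -- lower bound of `T` from (S)
    have hS' : R * Z + (R * (c - 1) + 1) ≤ T := by
      have h4 : (R - 1 + c) * (1 - c) * ρ / (R - 1) ≤ 0 := by
        apply div_nonpos_of_nonpos_of_nonneg _ hR1.le
        have h5 : (R - 1 + c) * (1 - c) ≤ 0 :=
          mul_nonpos_of_nonneg_of_nonpos (by linarith only [hc1r, hR]) (by linarith only [hc1r])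
        exact mul_nonpos_of_nonpos_of_nonneg h5 hρ
      linarith only [hS, h4]
    have hkZ : 0 ≤ ((1 / 2 - C * γ) * R - 2 * a) * Z := mul_nonneg (by linarith only [hkR]) hZ
    have hkT := mul_le_mul_of_nonneg_left hS' hk0
    rcases eq_or_lt_of_le hc1 with hc | hc
    · -- `c = 1`
      have hce : c = 1 := by rw [hcz, ← hc]; norm_num
      subst hce
      rcases Nat.eq_zero_or_pos N with hN | hN
      · have hT1 := hd1 hc.symm
        have hΦ0 : Φ ≤ 0 := by rw [hN] at hΦN; simpa using hΦN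
        have h4 := mul_le_mul_of_nonneg_left hT1 hk0
        have h5 : a * Φ ≤ 0 := mul_nonpos_of_nonneg_of_nonpos ha0.le hΦ0
        have h6 : 0 ≤ C * γ * (R * η) := by positivity
        linarith only [ha, h1, h2, h4, h5, h6, hRHS, hδ, hRC]
      · have hN1 : (1 : ℝ) ≤ N := by exact_mod_cast hN
        have h4 : a * Φ ≤ a * (2 * Z - N) := mul_le_mul_of_nonneg_left hΦZ ha0.le
        have h5 : a * 1 ≤ a * N := mul_le_mul_of_nonneg_left hN1 ha0.le
        linarith only [h1, h2, h4, h5, hkT, hkZ, hRHS, hδ1, hRC, hRη]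
    · -- `c ≥ 2`
      have hc2 : (2 : ℝ) ≤ c := by rw [hcz]; exact_mod_cast hc
      have h4 : a * Φ ≤ a * (2 * Z - N) := mul_le_mul_of_nonneg_left hΦZ ha0.le
      have h5 : 0 ≤ a * N := by positivity
      have h6 : (2 - δ / 8) * (c - 1) ≤ (1 / 2 - C * γ) * R * (c - 1) :=
        mul_le_mul_of_nonneg_right (by linarith only [h1, hR]) (by linarith only [hc2])
      have h7 : C * η ≤ δ / 4 := by linarith only [h2, hRη]
      have h8 : C * η * c ≤ δ / 4 * c := mul_le_mul_of_nonneg_right h7 (by linarith only [hc2])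
      have h9 : a * c = (1 - δ) * c := by rw [ha]
      have h10 : 0 ≤ δ * c := mul_nonneg hδ.le (by linarith only [hc2])
      linarith only [hkT, h4, h5, h6, h8, h9, h10, hkZ, hRHS, hc2, hk0, hδ]
  · -- `c ≤ 0`
    obtain ⟨p, hp⟩ : ∃ p : ℕ, cz = -p := ⟨(-cz).toNat, by omega⟩
    have hcp : c = -(p : ℝ) := by rw [hcz, hp]; push_cast; ring
    have hp0 : (0 : ℝ) ≤ p := Nat.cast_nonneg _
    have habs : |c| = p := by rw [hcp, abs_neg, abs_of_nonneg hp0]
    rw [habs, hcp]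
    have hkT0 : 0 ≤ (1 / 2 - C * γ) * T := mul_nonneg hk0 hT
    have hηN : ∀ q : ℝ, q ≤ N → 0 ≤ q → (C * η) * q ≤ C * η * N := fun q hq _ =>
      mul_le_mul_of_nonneg_left hq hCη.le
    rcases Nat.lt_or_ge p N with hNp | hNp
    · have hpN : (p : ℝ) + 1 ≤ N := by exact_mod_cast hNp
      have hNη : 0 ≤ η * N := by positivity
      rcases Nat.lt_or_ge (p + 1) N with hN2 | hN2
      · -- `N ≥ p + 2`
        have hN2r : (p : ℝ) + 2 ≤ N := by exact_mod_cast hN2
        rcases le_or_gt (2 * Z - N) p with hZ1 | hZ1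
        · have h4 : a * Φ ≤ a * p := mul_le_mul_of_nonneg_left (hΦZ.trans hZ1) ha0.le
          have h5 := hηN p (by linarith) hp0
          have h6 : 0 ≤ (11 * R + 1) * η * N := by positivity
          linarith only [h4, h5, h6, hkT0]
        · -- lower bound of `T`
          have hS' : R * Z - (R - 1) - R * p - η * (1 + p) ≤ T := by
            have h4 : (R - 1 + -(p : ℝ)) * (1 - -(p : ℝ)) * ρ / (R - 1) ≤ η * (1 + p) := by
              rw [div_le_iff₀ hR1]
              have h5 : (R - 1 + -(p : ℝ)) * (1 - -(p : ℝ)) ≤ (R - 1) * (1 + p) := by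
                linarith only [mul_nonneg hp0 hp0, hp0]
              have h6 : (R - 1 + -(p : ℝ)) * (1 - -(p : ℝ)) * ρ ≤ (R - 1) * (1 + p) * ρ :=
                mul_le_mul_of_nonneg_right h5 hρ
              have h7 : (R - 1) * (1 + p) * ρ ≤ (R - 1) * (1 + p) * η :=
                mul_le_mul_of_nonneg_left hρη (by positivity)
              linarith only [h6, h7]
            rw [hcp] at hS
            linarith only [hS, h4]
          have hkT := mul_le_mul_of_nonneg_left hS' hk0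
          have h4 : a * Φ ≤ a * (2 * Z - N) := mul_le_mul_of_nonneg_left hΦZ ha0.le
          have h5 : 0 ≤ ((1 / 2 - C * γ) * R - 2 * a) * (Z - (N + p) / 2) :=
            mul_nonneg (by linarith only [hkR]) (by linarith only [hZ1])
          have h6 : 0 ≤ (1 / 2 - C * γ) * (R * (N - p) / 2 - R + 1) :=
            mul_nonneg hk0 (by
              have := mul_nonneg hR0 (by linarith only [hN2r] : (0 : ℝ) ≤ N - p - 2)
              linarith only [this])
          have h7 : (1 / 2 - C * γ) * (η * (1 + p)) ≤ 1 / 2 * (η * (1 + p)) :=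
            mul_le_mul_of_nonneg_right hk1 (by positivity)
          have h8 : η * (1 + p) ≤ η * N := mul_le_mul_of_nonneg_left (by linarith only [hpN]) hη.le
          have h9 := hηN p (by linarith only [hpN]) hp0
          have h10 : 0 ≤ R * (η * N) := by positivity
          linarith only [hkT, h4, h5, h6, h7, h8, h9, h10, hNη]
      · -- `N = p + 1`
        have hNe : N = p + 1 := by omega
        have hNr : (N : ℝ) = p + 1 := by rw [hNe]; push_cast; ring
        have hT2 := hd2 p hp hNe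
        have hΦs := hs p hp hNe
        have h4 : a * Φ ≤ a * (p + 1 - s) := mul_le_mul_of_nonneg_left hΦs ha0.le
        have h9 := hηN p (by linarith) hp0
        have h10 : 0 ≤ R * (η * N) := by positivity
        rcases le_or_gt (1 - s) 0 with hs1 | hs1
        · have h5 : a * (1 - s) ≤ 0 := mul_nonpos_of_nonneg_of_nonpos ha0.le hs1
          linarith only [h4, h5, h9, h10, hNη, hkT0]
        · have hkT := mul_le_mul_of_nonneg_left hT2 hk0
          have h5 : a * (1 - s) ≤ 2 * (1 / 2 - C * γ) * (1 - s) :=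
            mul_le_mul_of_nonneg_right (by linarith only [ha, h1, hRC, hCγ]) hs1.le
          have h6 : (1 / 2 - C * γ) * (R * (η * (p + 1))) ≤ 1 / 2 * (R * (η * (p + 1))) :=
            mul_le_mul_of_nonneg_right hk1 (by positivity)
          rw [hNr] at h9 h10 hNη ⊢
          linarith only [hkT, h4, h5, h6, h9, h10, hNη]
    · -- `N ≤ p`
      have hNr : (N : ℝ) ≤ p := by exact_mod_cast hNp
      have h4 : (0 : ℝ) ≤ 1 - γ / R := by
        rw [sub_nonneg, div_le_one (by linarith)]; exact hγR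
      have h5 : (N : ℝ) * (1 - γ / R) ≤ p * (1 - γ / R) := mul_le_mul_of_nonneg_right hNr h4
      have h6 : a * Φ ≤ a * (p * (1 - γ / R)) :=
        mul_le_mul_of_nonneg_left (hΦN.trans h5) ha0.le
      have h7 : C * η * p ≤ a * γ / R * p := mul_le_mul_of_nonneg_right h3 hp0
      have h8 : a * (p * (1 - γ / R)) = a * p - a * γ / R * p := by ring
      linarith only [h6, h7, h8, hkT0, hRHS]

theorem payO_A (R : ℕ) (hR : 4 ≤ R) : PayA R (R - 1) (R + 1) (psiO R) (chiO R) := by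
  intro C hC
  have hR4 : (4 : ℝ) ≤ R := by exact_mod_cast hR
  refine ⟨C + 11 * R + 1, 1 / (8 * C * R * (R + 1)), by positivity, by positivity, ?_⟩
  intro γ hγ hγ0
  refine ⟨min (AA R (R + 1) * γ / R / C) (1 / (4 * (R + 1) * (C + 5 * R))), ?_, ?_⟩
  · rw [PayO_AA]
    exact lt_min (by positivity) (by positivity)
  intro η hη hη0 m hP x M ι B u H
  classical
  obtain ⟨hm, hRm, _⟩ := PayO_pos hP
  have hA := PayO_AA R
  set a := AA R (R + 1) with ha
  have hη1 : η ≤ a * γ / R / C := hη0.trans (min_le_left _ _)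
  have hη2 : η ≤ 1 / (4 * (R + 1) * (C + 5 * R)) := hη0.trans (min_le_right _ _)
  set δ : ℝ := 1 / (R + 1) with hδ
  have haδ : a = 1 - δ := by
    rw [hA, hδ]; field_simp; ring
  have hδ0 : 0 < δ := by rw [hδ]; positivity
  have hδ1 : δ ≤ 1 / 5 := by
    rw [hδ]
    exact one_div_le_one_div_of_le (by norm_num) (by linarith)
  have g1 : 8 * R * (C * γ) ≤ δ := by
    have h := mul_le_mul_of_nonneg_left hγ0 (by positivity : 0 ≤ 8 * C * R)
    have e : 8 * C * R * (1 / (8 * C * R * (R + 1))) = δ := by rw [hδ]; field_simp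
    rw [e] at h
    linarith
  have g2 : 4 * ((C + 5 * R) * η) ≤ δ := by
    have h := mul_le_mul_of_nonneg_left hη2 (by positivity : 0 ≤ 4 * (C + 5 * R))
    have e : 4 * (C + 5 * R) * (1 / (4 * (R + 1) * (C + 5 * R))) = δ := by rw [hδ]; field_simp
    rw [e] at h
    linarith
  have g3 : C * η ≤ a * γ / R := by
    rw [le_div_iff₀ hC] at hη1
    linarith
  set c : ℝ := ∑ i, (x i : ℝ) - ((R - 1 : ℕ) : ℝ) with hc
  set cz : ℤ := ∑ i, x i - ((R : ℤ) - 1) with hcz
  have hccz : c = cz := by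
    rw [hc, hcz, PayO_cast hR]; push_cast; ring
  set T' : ℝ := ∑ i, (x i : ℝ) * ((x i : ℝ) - 1) + ∑ i, M i with hT'
  have hQ0 : 0 ≤ ∑ i, (x i : ℝ) * ((x i : ℝ) - 1) := Finset.sum_nonneg fun i _ => PayO_int_sq _
  have hM0 : 0 ≤ ∑ i, M i := Finset.sum_nonneg fun i _ => H.hM i
  have hT0 : 0 ≤ T' := add_nonneg hQ0 hM0
  set L := B.filter (fun b => chiO R m (u b)) with hL
  obtain ⟨hZ0, hU⟩ := PayO_U hP H
  set Z := ∑ b ∈ L, zet R (R - 1) m (u b) with hZ
  have hS := PayO_S hR H hc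
  have hηm5 : 5 * R * η ≤ 1 := by nlinarith
  have hγ1 : γ ≤ R := by
    have := hP.hγ'
    nlinarith
  have hcore := PayO_core (R := R) (N := L.card) (a := a) (δ := δ) (c := c) (C := C) (η := η)
    (γ := γ) (T := T' / m) (Φ := ∑ b ∈ B, PayO_phi R m (u b)) (Z := Z) (ρ := (R - 1) / m)
    (s := ∑ b ∈ L, (1 - tau R (R - 1) (u b) / m)) hR4 haδ hδ0 hδ1 hC hγ hη g1 g2 g3
    (by positivity) hZ0 PayO_phi_sum_z (PayO_phi_sum_N hP H)
    (div_nonneg (by linarith) hm.le) (by rw [div_le_iff₀ hm]; linarith) hγ1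
    (by
      have h1 : R * m * Z ≤ T' + m * ((R : ℝ) - 1 - R * c) + ((R : ℝ) - 1 + c) * (1 - c) :=
        hU.trans hS
      have h2 : R * Z = (R * m * Z) / m := by field_simp
      have h3 : T' / m + ((R : ℝ) - 1 - R * c) + ((R : ℝ) - 1 + c) * (1 - c) * ((R - 1) / m)
          / (R - 1) = (T' + m * ((R : ℝ) - 1 - R * c) + ((R : ℝ) - 1 + c) * (1 - c)) / m := by
        have : (R : ℝ) - 1 ≠ 0 := by linarith
        field_simp
      rw [h2, h3]
      exact div_le_div_of_nonneg_right h1 hm.le)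
    cz hccz
    (by
      -- `c = 1`
      intro hc1
      have hsum : ∑ i, (x i - 1) < 0 := by
        rw [Finset.sum_sub_distrib]
        simp only [Finset.sum_const, Finset.card_univ, Fintype.card_fin, nsmul_eq_mul, mul_one]
        push_cast
        omega
      obtain ⟨i, -, hi⟩ : ∃ i ∈ (Finset.univ : Finset (Fin (R + 1))), x i - 1 < 0 := by
        by_contra hcon
        push Not at hcon
        have := Finset.sum_nonneg hcon
        omega
      have hxi : (x i : ℝ) ≤ 0 := by exact_mod_cast (by omega : x i ≤ 0)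
      have hpart := H.part i
      have hc1r : ∑ k, (x k : ℝ) - ((R - 1 : ℕ) : ℝ) = 1 := by
        rw [← hc, hccz, hc1]; norm_num
      rw [hc1r] at hpart
      have hS0 : 0 ≤ ∑ b ∈ B, u b i := Finset.sum_nonneg fun b hb => (H.vec b hb).nn i
      have hx5 := (abs_le.1 (H.hx i)).1
      have hd := H.dbl i
      have h1 : (m : ℝ) * (1 - 5 * R * η) ≤ m + x i := by linarith
      have h2 : 0 ≤ (m : ℝ) * (1 - 5 * R * η) := mul_nonneg hm.le (by linarith)
      have h3 : ((m : ℝ) + x i) * ((x i : ℝ) - 1) ≤ -((m : ℝ) * (1 - 5 * R * η)) := by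
        nlinarith only [h1, h2, hxi]
      rw [le_div_iff₀ hm]
      linarith)
    (by
      intro p hp hN
      have h1 := PayO_d hP H (p := p) (by omega) hN
      rw [le_div_iff₀ hm]
      linarith)
    (by
      intro p _ hN
      have h1 := PayO_phi_sum_tau hP H
      have h2 : ∑ b ∈ L, (1 - tau R (R - 1) (u b) / m)
          = (p : ℝ) + 1 - ∑ b ∈ L, tau R (R - 1) (u b) / m := by
        rw [Finset.sum_sub_distrib, Finset.sum_const, nsmul_eq_mul, mul_one, hN]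
        push_cast
        ring
      rw [h2]
      linarith)
  -- conclusion
  have hmR : 0 < (m : ℝ) ^ R := by positivity
  have hpow : (m : ℝ) ^ R = m ^ (R + 1 - 2) * m := by
    rw [← pow_succ]
    congr 1
    omega
  have hpow1 : (m : ℝ) ^ (R + 1 - 1) = m ^ R := by rw [Nat.add_sub_cancel]
  have hψ : ∑ b ∈ B, psiO R m (u b) = a * (m : ℝ) ^ R * ∑ b ∈ B, PayO_phi R m (u b) := by
    rw [Finset.mul_sum]
    exact Finset.sum_congr rfl fun b _ => PayO_psi R m (u b)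
  rw [hψ, PayO_KK, hpow1]
  have hTm : (m : ℝ) ^ (R + 1 - 2) * T' = m ^ R * (T' / m) := by
    rw [hpow]; field_simp
  have hfin := mul_le_mul_of_nonneg_left hcore hmR.le
  have e1 : (1 / 2 - C * γ) * (m : ℝ) ^ (R + 1 - 2) * T'
      = (1 / 2 - C * γ) * (m ^ R * (T' / m)) := by rw [mul_assoc, hTm]
  rw [e1]
  have hLB : ((B.filter (fun b => chiO R m (u b))).card : ℝ) = L.card := rfl
  convert (show a * (m : ℝ) ^ R * c + C * η * (m : ℝ) ^ R * |c|
      - (1 / 2 - C * γ) * (m ^ R * (T' / m)) + a * (m : ℝ) ^ R * ∑ b ∈ B, PayO_phi R m (u b)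
      ≤ (C + 11 * R + 1) * η * (m : ℝ) ^ R * (L.card : ℝ) by linarith) using 1

theorem payO_C (R : ℕ) (hR : 4 ≤ R) : PayC R (R - 1) (psiO R) (chiO R) := by
  have hR4 : (4 : ℝ) ≤ R := by exact_mod_cast hR
  refine ⟨?_, R / 2, by positivity, ?_⟩
  · intro m γ η u hP hu
    obtain ⟨hm, _, _⟩ := PayO_pos hP
    rw [PayO_psi, PayO_AA]
    refine mul_nonneg (by positivity) ?_
    unfold PayO_phi
    split_ifs with h
    · exact le_rfl
    · refine le_min ?_ (by linarith [not_le.1 h])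
      unfold bet
      rw [PayO_cast hR]
      have ht := tau_nn (R := R) (r := R - 1) u hu.nn
      have e1 : ((R : ℝ) - (R - 1)) * (R * m + (R - 1)) = R * m + (R - 1) := by ring
      rw [e1]
      exact div_nonneg (by positivity) (by nlinarith)
  · intro m γ η u hP hu hχ
    obtain ⟨hm, _, _⟩ := PayO_pos hP
    have h1 : (1 : ℝ) / 2 < (∑ i, u i) / (R * m + ((R - 1 : ℕ) : ℝ)) := hχ
    rw [PayO_cast hR, lt_div_iff₀ (by nlinarith)] at h1
    linarith

end Pool.Agent.H45.KTD
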