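import Pool.Agent.H45.KTD.Macl
import Pool.Agent.H45.KTD.PayO
import Pool.Agent.H45.KTD.PSp

/-!
# KTD PayOB: the case `r = R - 1`, `t = R + 1`, side of the outside vertex

`ch = C(R, R) = 1`, `D = R m + R - 1`, `v = (R/D) u`, `z = U/D = (∑ v)/R ≤ 1 - γ1`, `γ1 = γ/(2 R)`, `ε = 6 R η`, `v j ≤ 1 + ε`, `v i1 ≤ ε` for the smallest
coordinate `i1`; `b2` the second smallest coordinate; `β = bet = tau v = v i1 + b2`, so `b2 ≤ β ≤ b2 + ε`.
`es R v ≤ ∏_{i ≠ i1} v i + C ε z` (`fe_insert`, `macl`), `∏_{i ≠ i1} v i ≤ b2 a ^ (R-1)`, `a = (R z - v i1 - b2)/(R - 1)` the mean of the other `R - 1`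
coordinates (AM-GM, or `macl` with `s = |S|`), `b2 ≤ a ≤ 1 + ε`.
`val = (k - ψ)/m ^ R`; `(D/R) ^ R ≤ m ^ R (1 + C/m)`, `1/m ≤ η`.
Small (`z ≤ 1/2`): `val ≤ z ^ R + C η z ≤ z/(R+1) - c2 z + C η z`, as `2 ^ (R-1) > R + 1`.
Large, `φ = 2 z - 1`: `z ^ R - (R/(R+1))(2 z - 1) - z/(R+1)` is convex on `[1/2, 1]`, negative at `1/2` (`2 ^ (R-1) > R + 1`), `0` at `1`, so
`≤ - s (1 - z) ≤ - s γ1`.
Large, `φ = β`: `val ≤ b2 a ^ (R-1) - (R/(R+1)) b2 + C η`, and
`z/(R+1) - (b2 a ^ (R-1) - (R/(R+1)) b2) ≥ ((R-1)/(R (R+1))) (a - b2) + b2 (1 - a ^ (R-1)) - C η ≥ c γ1 - C η` for some `c > 0` depending on `R`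
only: if `a ≥ 1 - γ1/2` then `b2 ≤ 1 - γ1 - ...`, `a - b2 ≥ γ1/4`; if `a < 1 - γ1/2`: either `b2 ≥ 1/4` and
`b2 (1 - a ^ (R-1)) ≥ γ1/8`, or `b2 < 1/4` and `a ≥ (R/2 - 1/2)/(R - 1) = 1/2`, `a - b2 ≥ 1/4`.
So `∑ val + (1/(R+1))(1 - Z) ^ R ≤ 1/(R+1) - ∑ σ` with `σ = c2 z` (small), `c3(γ1)` (large).  Errors and end as in PaySB / PayRB.
-/

set_option autoImplicit false

open Finset

namespace Pool.Agent.H45.KTD

open Pool.Agent.H11.TD

/-! private lemmas -/

private theorem pob_pow (n : ℕ) (x : ℝ) (h0 : 0 ≤ x) (h1 : x ≤ 1) :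
    (1 + x) ^ n ≤ 1 + ((2 : ℝ) ^ n - 1) * x := by
  induction n with
  | zero => simp
  | succ n ih =>
    have h2 : (1 : ℝ) ≤ 2 ^ n := one_le_pow₀ (by norm_num)
    calc (1 + x) ^ (n + 1) = (1 + x) ^ n * (1 + x) := pow_succ _ _
      _ ≤ (1 + ((2 : ℝ) ^ n - 1) * x) * (1 + x) := mul_le_mul_of_nonneg_right ih (by linarith)
      _ = 1 + x + ((2 : ℝ) ^ n - 1) * x + ((2 : ℝ) ^ n - 1) * x * x := by ring
      _ ≤ 1 + x + ((2 : ℝ) ^ n - 1) * x + ((2 : ℝ) ^ n - 1) * x * 1 := by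
          have : 0 ≤ ((2 : ℝ) ^ n - 1) * x := mul_nonneg (by linarith) h0
          nlinarith
      _ = _ := by rw [pow_succ]; ring

/-- chord of `z ^ R` on `[1/2, 1]` -/
private theorem pob_chord (R : ℕ) (hR : 1 ≤ R) (z : ℝ) (h0 : 1 / 2 ≤ z) (h1 : z ≤ 1) :
    z ^ R ≤ (1 - z) * (1 / 2) ^ (R - 1) + (2 * z - 1) := by
  have hcv : ConvexOn ℝ (Set.Ici 0) (fun x : ℝ => x ^ R) := convexOn_pow R
  have hc := hcv.2 (show (1 / 2 : ℝ) ∈ Set.Ici 0 from Set.mem_Ici.2 (by norm_num))
    (show (1 : ℝ) ∈ Set.Ici 0 from Set.mem_Ici.2 (by norm_num))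
    (show 0 ≤ 2 * (1 - z) by linarith) (show 0 ≤ 2 * z - 1 by linarith) (by ring)
  simp only [smul_eq_mul] at hc
  have e1 : 2 * (1 - z) * (1 / 2) + (2 * z - 1) * 1 = z := by ring
  rw [e1] at hc
  refine hc.trans (le_of_eq ?_)
  obtain ⟨n, rfl⟩ : ∃ n, R = n + 1 := ⟨R - 1, by omega⟩
  simp only [Nat.add_sub_cancel, one_pow, pow_succ]
  ring

private theorem pob_two_pow (R : ℕ) (hR : 4 ≤ R) :
    0 < 1 / ((R : ℝ) + 1) - (1 / 2 : ℝ) ^ (R - 1) := by
  have h : ∀ n : ℕ, 3 ≤ n → (n : ℝ) + 2 < 2 ^ n := by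
    intro n hn
    induction n, hn using Nat.le_induction with
    | base => norm_num
    | succ n hn ih =>
      have : (3 : ℝ) ≤ n := by exact_mod_cast hn
      push_cast
      rw [pow_succ]
      linarith
  have h1 := h (R - 1) (by omega)
  have h2 : ((R - 1 : ℕ) : ℝ) = (R : ℝ) - 1 := by
    rw [Nat.cast_sub (by omega)]; simp
  rw [h2] at h1
  have hR' : (4 : ℝ) ≤ R := by exact_mod_cast hR
  rw [one_div_pow, sub_pos]
  exact one_div_lt_one_div_of_lt (by linarith) (by linarith)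

/-- the elementary symmetric polynomial with a small coordinate -/
private theorem pob_es (R : ℕ) (hR : 4 ≤ R) (m ε : ℝ) (hm : 0 < m) (hε : 0 ≤ ε) (hε1 : ε ≤ 1)
    (u : Fin (R + 1) → ℝ) (hu0 : ∀ i, 0 ≤ u i) (hu1 : ∀ i, u i ≤ (1 + ε) * m)
    (hz : ∃ i, u i ≤ ε * m) :
    ∃ a b : ℝ, 0 ≤ b ∧ b ≤ a ∧ a ≤ 1 + ε ∧ m * b ≤ tau R (R - 1) u ∧
      tau R (R - 1) u ≤ m * (1 + 2 * ε) ∧
      m * (b + ((R : ℝ) - 1) * a) ≤ ∑ i, u i ∧
      ∑ i, u i ≤ m * (b + ((R : ℝ) - 1) * a) + ε * m ∧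
      es R u ≤ m ^ R * (b * a ^ (R - 1) + R * 2 ^ R * ε) := by
  classical
  have hR' : (4 : ℝ) ≤ R := by exact_mod_cast hR
  obtain ⟨W, hW, hτ, hle⟩ := tau_ex R (R - 1) u
  have hW2 : W.card = 2 := by omega
  obtain ⟨i, j, hij, hWij⟩ := Finset.card_eq_two.1 hW2
  -- order the two elements
  obtain ⟨i1, i2, h12, hW', hle12⟩ : ∃ i1 i2, i1 ≠ i2 ∧ W = {i1, i2} ∧ u i1 ≤ u i2 := by
    rcases le_total (u i) (u j) with h | h
    · exact ⟨i, j, hij, hWij, h⟩
    · exact ⟨j, i, hij.symm, by rw [hWij, Finset.pair_comm], h⟩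
  have hmin : ∀ k, u i1 ≤ u k := by
    intro k
    by_cases hk : k ∈ W
    · rw [hW', Finset.mem_insert, Finset.mem_singleton] at hk
      rcases hk with rfl | rfl
      · exact le_rfl
      · exact hle12
    · exact hle i1 (by rw [hW']; simp) k hk
  obtain ⟨i0, hi0⟩ := hz
  have hi1 : u i1 ≤ ε * m := (hmin i0).trans hi0
  set S : Finset (Fin (R + 1)) := (univ.erase i1).erase i2 with hS
  have hi2 : i2 ∈ univ.erase i1 := Finset.mem_erase.2 ⟨h12.symm, Finset.mem_univ _⟩
  have hc1 : (univ.erase i1).card = R := by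
    rw [Finset.card_erase_of_mem (Finset.mem_univ _), Finset.card_univ, Fintype.card_fin]
    rfl
  have hcS : S.card = R - 1 := by
    rw [hS, Finset.card_erase_of_mem hi2, hc1]
  have hsum : ∑ k, u k = u i1 + (u i2 + ∑ k ∈ S, u k) := by
    rw [← Finset.add_sum_erase _ _ (Finset.mem_univ i1), ← Finset.add_sum_erase _ _ hi2]
  have hτ' : tau R (R - 1) u = u i1 + u i2 := by
    rw [hτ, hW', Finset.sum_pair h12]
  have hcast : ((R - 1 : ℕ) : ℝ) = (R : ℝ) - 1 := by
    rw [Nat.cast_sub (by omega)]; simp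
  have hR1 : 0 < (R : ℝ) - 1 := by linarith
  set b : ℝ := u i2 / m with hb
  set a : ℝ := (∑ k ∈ S, u k) / (((R : ℝ) - 1) * m) with ha
  have hmb : m * b = u i2 := by rw [hb]; field_simp
  have hma : m * (((R : ℝ) - 1) * a) = ∑ k ∈ S, u k := by rw [ha]; field_simp
  have hb0 : 0 ≤ b := div_nonneg (hu0 i2) hm.le
  have hSlow : (((R : ℝ) - 1)) * u i2 ≤ ∑ k ∈ S, u k := by
    have := Finset.card_nsmul_le_sum S u (u i2) (fun k hk => by
      have hkW : k ∉ W := by
        rw [hW', Finset.mem_insert, Finset.mem_singleton]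
        rw [hS, Finset.mem_erase, Finset.mem_erase] at hk
        push Not
        exact ⟨hk.2.1, hk.1⟩
      exact hle i2 (by rw [hW']; simp) k hkW)
    rw [hcS, nsmul_eq_mul, hcast] at this
    exact this
  have hSup : ∑ k ∈ S, u k ≤ ((R : ℝ) - 1) * ((1 + ε) * m) := by
    have := Finset.sum_le_card_nsmul S u ((1 + ε) * m) (fun k _ => hu1 k)
    rw [hcS, nsmul_eq_mul, hcast] at this
    exact this
  have hba : b ≤ a := by
    rw [hb, ha, div_le_div_iff₀ hm (by positivity)]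
    nlinarith [mul_le_mul_of_nonneg_right hSlow hm.le]
  have ha1 : a ≤ 1 + ε := by
    rw [ha, div_le_iff₀ (by positivity)]
    linarith
  have ha0 : 0 ≤ a := hb0.trans hba
  refine ⟨a, b, hb0, hba, ha1, ?_, ?_, ?_, ?_, ?_⟩
  · rw [hmb, hτ']; linarith [hu0 i1]
  · rw [hτ']; linarith [hu1 i2]
  · rw [mul_add, hmb, hma, hsum]; linarith [hu0 i1]
  · rw [mul_add, hmb, hma, hsum]; linarith
  · -- the polynomial
    have he : es R u = fe R (insert i1 (univ.erase i1)) u := by
      rw [Finset.insert_erase (Finset.mem_univ _)]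
      rfl
    obtain ⟨n, hn⟩ : ∃ n, R = n + 1 := ⟨R - 1, by omega⟩
    have hi : fe R (insert i1 (univ.erase i1)) u =
        fe R (univ.erase i1) u + u i1 * fe (R - 1) (univ.erase i1) u := by
      have h := fe_insert n (univ.erase i1) i1 (Finset.notMem_erase _ _) u
      have e1 : R - 1 = n := by omega
      rw [e1]
      have e2 : R = n + 1 := hn
      calc fe R (insert i1 (univ.erase i1)) u = fe (n + 1) (insert i1 (univ.erase i1)) u := by
            congr 1
        _ = fe (n + 1) (univ.erase i1) u + u i1 * fe n (univ.erase i1) u := h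
        _ = _ := by congr 1; congr 1; exact e2.symm
    have hfull : ∀ (T : Finset (Fin (R + 1))), fe T.card T u = ∏ k ∈ T, u k := by
      intro T
      unfold fe
      rw [Finset.powersetCard_self, Finset.sum_singleton]
    have h1 : fe R (univ.erase i1) u = u i2 * ∏ k ∈ S, u k := by
      have := hfull (univ.erase i1)
      rw [hc1] at this
      rw [this, ← Finset.mul_prod_erase _ _ hi2]
    have h2 : ∏ k ∈ S, u k ≤ (m * a) ^ (R - 1) := by
      have h3 := macl S.card S u (fun k _ => hu0 k)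
      rw [hfull S, Nat.choose_self, Nat.cast_one, one_mul, hcS, hcast] at h3
      refine h3.trans (le_of_eq ?_)
      congr 1
      rw [← hma]
      field_simp
    have h4 : fe (R - 1) (univ.erase i1) u ≤ R * (2 * m) ^ (R - 1) := by
      have h5 := macl (R - 1) (univ.erase i1) u (fun k _ => hu0 k)
      rw [hc1] at h5
      have h6 : R.choose (R - 1) = R := by
        have : R.choose (R - 1) = R.choose 1 := by
          rw [← Nat.choose_symm (by omega : R - 1 ≤ R)]
          congr 1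
          omega
        rw [this, Nat.choose_one_right]
      rw [h6] at h5
      refine h5.trans (mul_le_mul_of_nonneg_left ?_ (by positivity))
      have h7 : 0 ≤ (∑ k ∈ univ.erase i1, u k) / R :=
        div_nonneg (Finset.sum_nonneg fun k _ => hu0 k) (by positivity)
      refine pow_le_pow_left₀ h7 ?_ _
      rw [div_le_iff₀ (by linarith)]
      have h8 := Finset.sum_le_card_nsmul (univ.erase i1) u ((1 + ε) * m) (fun k _ => hu1 k)
      rw [hc1, nsmul_eq_mul] at h8
      have h9 : (1 + ε) * m ≤ 2 * m := mul_le_mul_of_nonneg_right (by linarith) hm.le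
      nlinarith
    rw [he, hi, h1]
    have hp0 : 0 ≤ ∏ k ∈ S, u k := Finset.prod_nonneg fun k _ => hu0 k
    have h10 : u i2 * ∏ k ∈ S, u k ≤ m ^ R * (b * a ^ (R - 1)) := by
      calc u i2 * ∏ k ∈ S, u k ≤ u i2 * (m * a) ^ (R - 1) :=
            mul_le_mul_of_nonneg_left h2 (hu0 i2)
        _ = m ^ R * (b * a ^ (R - 1)) := by
            rw [← hmb, mul_pow]
            have : m ^ R = m * m ^ (R - 1) := by
              rw [← pow_succ']; congr 1; omega
            rw [this]; ring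
    have h11 : u i1 * fe (R - 1) (univ.erase i1) u ≤ m ^ R * (R * 2 ^ R * ε) := by
      have hfe0 : 0 ≤ fe (R - 1) (univ.erase i1) u := fe_nn _ _ _ fun k _ => hu0 k
      calc u i1 * fe (R - 1) (univ.erase i1) u
          ≤ (ε * m) * (R * (2 * m) ^ (R - 1)) :=
            mul_le_mul hi1 h4 hfe0 (mul_nonneg hε hm.le)
        _ = m ^ R * (R * 2 ^ (R - 1) * ε) := by
            rw [mul_pow]
            have : m ^ R = m * m ^ (R - 1) := by
              rw [← pow_succ']; congr 1; omega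
            rw [this]; ring
        _ ≤ m ^ R * (R * 2 ^ R * ε) := by
            refine mul_le_mul_of_nonneg_left ?_ (by positivity)
            refine mul_le_mul_of_nonneg_right ?_ hε
            refine mul_le_mul_of_nonneg_left ?_ (by positivity)
            exact pow_le_pow_right₀ (by norm_num) (by omega)
    rw [mul_add]
    exact add_le_add h10 h11

/-- the real inequality for `φ = β` -/
private theorem pob_G (R : ℕ) (hR : 4 ≤ R) (a b ε η γ1 s : ℝ) (hb0 : 0 ≤ b) (hba : b ≤ a)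
    (ha : a ≤ 1 + ε) (hε : 0 ≤ ε) (hε4 : ε ≤ 1 / 4) (hη : 0 ≤ η) (hγ0 : 0 ≤ γ1) (hγ1 : γ1 ≤ 1)
    (hs1 : b + ((R : ℝ) - 1) * a ≤ s) (hs2 : s ≤ b + ((R : ℝ) - 1) * a + ε)
    (hs3 : (R : ℝ) / 2 ≤ s) (hs4 : s ≤ R * (1 - γ1) + R * η) :
    ((R : ℝ) - 1) / (4 * R * (R + 1)) * γ1 - R * η - 2 ^ R * ε ≤
      b * (1 - a ^ (R - 1)) + ((R : ℝ) - 1) / (R * (R + 1)) * (a - b) := by
  have hR' : (4 : ℝ) ≤ R := by exact_mod_cast hR
  have ha0 : 0 ≤ a := hb0.trans hba
  set d : ℝ := ((R : ℝ) - 1) / (R * (R + 1)) with hd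
  have hR0 : (0 : ℝ) < R := by linarith only [hR']
  have hd0 : 0 < d := by
    rw [hd]
    exact div_pos (by linarith only [hR']) (mul_pos hR0 (by linarith only [hR']))
  have hd4 : ((R : ℝ) - 1) / (4 * R * (R + 1)) = d / 4 := by
    rw [hd]; field_simp
  have hdR : d * R ≤ 1 := by
    rw [hd, div_mul_eq_mul_div, div_le_one (mul_pos hR0 (by linarith only [hR']))]
    linarith only [hR']
  clear_value d
  have hd4' := mul_le_mul_of_nonneg_left hR' hd0.le
  rw [hd4]
  have h2R : (1 : ℝ) ≤ 2 ^ R := one_le_pow₀ (by norm_num)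
  rcases le_or_gt (1 - γ1 / 2) a with h | h
  · -- `a` large
    have hb2 : b ≤ 2 := by linarith only [hba, ha, hε4]
    have hpow : a ^ (R - 1) ≤ 1 + 2 ^ (R - 1) * ε := by
      have h1 : a ^ (R - 1) ≤ (1 + ε) ^ (R - 1) := pow_le_pow_left₀ ha0 ha _
      have h2 := pob_pow (R - 1) ε hε (by linarith only [hε4])
      have h3 : ((2 : ℝ) ^ (R - 1) - 1) * ε ≤ 2 ^ (R - 1) * ε :=
        mul_le_mul_of_nonneg_right (by linarith only [hR']) hε
      linarith only [h1, h2, h3]
    have hfirst : -(2 ^ R * ε) ≤ b * (1 - a ^ (R - 1)) := by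
      have e : (2 : ℝ) ^ R = 2 * 2 ^ (R - 1) := by
        rw [← pow_succ']; congr 1; omega
      have h4 : -(2 ^ (R - 1) * ε) ≤ 1 - a ^ (R - 1) := by linarith only [hpow]
      have h5 : 0 ≤ 2 ^ (R - 1) * ε := by positivity
      calc -(2 ^ R * ε) = 2 * -(2 ^ (R - 1) * ε) := by rw [e]; ring
        _ ≤ b * -(2 ^ (R - 1) * ε) := by linarith only [mul_le_mul_of_nonneg_right hb2 h5]
        _ ≤ b * (1 - a ^ (R - 1)) := mul_le_mul_of_nonneg_left h4 hb0
    have hab : R * γ1 / 2 - R * η ≤ a - b := by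
      linarith only [mul_le_mul_of_nonneg_left h hR0.le, hs1, hs4]
    have hsecond : d / 4 * γ1 - R * η ≤ d * (a - b) := by
      have h6 := mul_le_mul_of_nonneg_left hab hd0.le
      have h7 : d * (R * η) ≤ R * η := by
        have : d ≤ 1 := by linarith only [hdR, hd4', hd0]
        linarith only [mul_le_mul_of_nonneg_right this (mul_nonneg hR0.le hη)]
      have h8 : d / 4 * γ1 ≤ d * (R * γ1 / 2) := by
        have : 0 ≤ d * γ1 := mul_nonneg hd0.le hγ0
        linarith only [mul_le_mul_of_nonneg_right hR' this, this]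
      linarith only [h6, h7, h8]
    linarith only [hfirst, hsecond]
  · -- `a` not large
    have ha1 : a ≤ 1 := by linarith only [h, hγ0]
    have hpow : a ^ (R - 1) ≤ a := by
      have := pow_le_of_le_one ha0 ha1 (n := R - 1) (by omega)
      exact this
    have h1 : 0 ≤ R * η := by positivity
    have h2 : 0 ≤ 2 ^ R * ε := by positivity
    rcases le_or_gt (1 / 4) b with hb | hb
    · have h3 : 1 / 4 * (γ1 / 2) ≤ b * (1 - a ^ (R - 1)) := by
        have : γ1 / 2 ≤ 1 - a ^ (R - 1) := by linarith only [hpow, h]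
        exact mul_le_mul hb this (by linarith only [hγ0]) hb0
      have h4 : 0 ≤ d * (a - b) := mul_nonneg hd0.le (by linarith only [hba])
      have h5 : d / 4 * γ1 ≤ 1 / 4 * (γ1 / 2) := by
        have : d ≤ 1 / 4 := by linarith only [hdR, hd4']
        linarith only [mul_le_mul_of_nonneg_right this hγ0, hγ0]
      linarith only [h1, h2, h3, h4, h5]
    · have h3 : 0 ≤ b * (1 - a ^ (R - 1)) := mul_nonneg hb0 (by linarith only [hpow, ha1])
      have h4 : 1 / 2 ≤ a := by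
        by_contra hcon
        push Not at hcon
        linarith only [mul_lt_mul_of_pos_left hcon (by linarith only [hR'] : (0 : ℝ) < (R : ℝ) - 1), hs3, hs2, hb, hε4]
      have h5 : d * (1 / 4) ≤ d * (a - b) := mul_le_mul_of_nonneg_left (by linarith only [h4, hb]) hd0.le
      have h6 : d / 4 * γ1 ≤ d * (1 / 4) := by linarith only [mul_le_mul_of_nonneg_left hγ1 hd0.le]
      linarith only [h1, h2, h3, h5, h6]

/-- facts about the parameters -/
private theorem pob_par {R m : ℕ} {γ η : ℝ} (hR : 4 ≤ R) (P : Par R (R - 1) m γ η) :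
    0 < (m : ℝ) ∧ 1 ≤ η * m ∧ (R : ℝ) ≤ η * m ∧ η ≤ 1 / 1000 ∧ 6 * R * η ≤ 1 / 4 ∧ γ ≤ 1 ∧
      ((R - 1 : ℕ) : ℝ) = (R : ℝ) - 1 := by
  have hR' : (4 : ℝ) ≤ R := by exact_mod_cast hR
  have hcast : ((R - 1 : ℕ) : ℝ) = (R : ℝ) - 1 := by
    rw [Nat.cast_sub (by omega)]; simp
  have hm := P.hm
  rw [hcast] at hm
  have hη := P.hη
  have h1 : (R : ℝ) ≤ η * m := by linarith
  have h2 : 0 < (m : ℝ) := by
    by_contra h
    push Not at h
    nlinarith
  have hγ := P.hγ
  have hγ' := P.hγ'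
  have hη' := P.hη'
  have h3 : γ ≤ 1 := by nlinarith
  have h4 : η ≤ 1 / 1000 := by nlinarith [mul_pos hη (by linarith : (0:ℝ) < R)]
  have h5 : 6 * R * η ≤ 1 / 4 := by
    have : 4 * (R * η) ≤ (R : ℝ) ^ 2 * η := by nlinarith [mul_pos hη (by linarith : (0:ℝ) < R)]
    nlinarith
  exact ⟨h2, by linarith, h1, h4, h5, h3, hcast⟩

private theorem pob_AA (R : ℕ) : AA R (R + 1) = (R : ℝ) / (R + 1) := by
  unfold AA
  rw [Nat.add_sub_cancel, Nat.choose_self]
  push_cast
  ring

/-- one outside vertex -/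
private theorem pob_vertex (R : ℕ) (hR : 4 ≤ R) : ∃ C' c2 c6 : ℝ, 0 < C' ∧ 0 < c2 ∧ 0 < c6 ∧
    ∀ (m : ℕ) (γ η : ℝ), Par R (R - 1) m γ η → ∀ (u : Fin (R + 1) → ℝ) (k : ℝ), Vec R m γ η u →
      k ≤ ((∑ j, u j) / R) ^ R → k ≤ es R u →
      (zet R (R - 1) m u ≤ 1 / 2 → k - psiO R m u ≤ (m : ℝ) ^ R *
        (zet R (R - 1) m u / (R + 1) - (c2 - C' * η) * zet R (R - 1) m u)) ∧
      (1 / 2 < zet R (R - 1) m u → k - psiO R m u ≤ (m : ℝ) ^ R *
        (zet R (R - 1) m u / (R + 1) - (c6 * γ - C' * η))) := by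
  have hR' : (4 : ℝ) ≤ R := by exact_mod_cast hR
  have hc2 := pob_two_pow R hR
  set c2 : ℝ := 1 / ((R : ℝ) + 1) - (1 / 2 : ℝ) ^ (R - 1) with hc2d
  set c : ℝ := ((R : ℝ) - 1) / (4 * R * (R + 1)) with hcd
  have hc : 0 < c := by
    rw [hcd]
    exact div_pos (by linarith) (by positivity)
  have h2R : (1 : ℝ) ≤ 2 ^ R := one_le_pow₀ (by norm_num)
  refine ⟨R + 3 + 2 ^ R * (6 * R) + R * 2 ^ R * (6 * R), c2, min c2 c / (2 * R), by positivity,
    hc2, div_pos (lt_min hc2 hc) (by positivity), ?_⟩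
  intro m γ η P u k hV hk1 hk2
  have hR0 : (0 : ℝ) < R := by linarith only [hR']
  obtain ⟨hm, hηm1, hηm, hη1, hε4, hγ1, hcast⟩ := pob_par hR P
  have hη := P.hη
  have hγ := P.hγ
  set C' : ℝ := R + 3 + 2 ^ R * (6 * R) + R * 2 ^ R * (6 * R) with hC'
  have hC'1 : 2 ^ R ≤ C' := by
    have : (2 : ℝ) ^ R * 1 ≤ 2 ^ R * (6 * R) := mul_le_mul_of_nonneg_left (by linarith only [hR']) (by positivity)
    have h0 : 0 ≤ (R : ℝ) * 2 ^ R * (6 * R) := by positivity
    linarith only [this, h0, hC', hR']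
  set U : ℝ := ∑ j, u j with hU
  set D : ℝ := (R : ℝ) * m + ((R - 1 : ℕ) : ℝ) with hD
  have hDval : D = R * m + (R - 1) := by rw [hD, hcast]
  have hD0 : 0 < D := by rw [hDval]; linarith only [mul_pos hR0 hm, hR']
  set z : ℝ := zet R (R - 1) m u with hz
  have hzval : z = U / D := rfl
  have hU0 : 0 ≤ U := Finset.sum_nonneg fun j _ => hV.nn j
  have hz0 : 0 ≤ z := by rw [hzval]; exact div_nonneg hU0 hD0.le
  have hUz : U = z * D := by rw [hzval]; field_simp
  -- `D = R m (1 + x)`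
  set x : ℝ := ((R : ℝ) - 1) / (R * m) with hx
  have hx0 : 0 ≤ x := by rw [hx]; exact div_nonneg (by linarith) (by positivity)
  have hxη : x ≤ η := by
    rw [hx, div_le_iff₀ (by positivity)]
    linarith only [mul_le_mul_of_nonneg_left hηm1 hR0.le]
  have hDx : D = R * m * (1 + x) := by rw [hDval, hx]; field_simp
  have hz1 : z ≤ 1 - γ / (2 * R) := by
    rw [hzval, div_le_iff₀ hD0]
    have h1 := hV.sum
    have h2 : 0 ≤ 1 - γ / (2 * R) := by
      rw [sub_nonneg, div_le_one (by positivity)]; linarith only [hγ1, hR']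
    have h3 : R * m ≤ D := by rw [hDval]; linarith only [hR']
    calc U ≤ (R - γ / 2) * m := h1
      _ = (1 - γ / (2 * R)) * (R * m) := by field_simp
      _ ≤ _ := mul_le_mul_of_nonneg_left h3 h2
  have hγ10 : 0 ≤ γ / (2 * R) := by positivity
  have hz1' : z ≤ 1 := by linarith only [hz1, hγ10]
  have hmR : 0 < (m : ℝ) ^ R := by positivity
  -- first bound of `k`
  have hK1 : k ≤ (m : ℝ) ^ R * (z ^ R * (1 + 2 ^ R * η)) := by
    have h1 : (U / R) ^ R = (m : ℝ) ^ R * (z ^ R * (1 + x) ^ R) := by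
      have : U / R = m * (z * (1 + x)) := by rw [hUz, hDx]; field_simp
      rw [this, mul_pow, mul_pow]
    rw [h1] at hk1
    refine hk1.trans (mul_le_mul_of_nonneg_left (mul_le_mul_of_nonneg_left ?_ (by positivity))
      hmR.le)
    have h2 := pob_pow R x hx0 (by linarith only [hxη, hη1])
    have h3 : ((2 : ℝ) ^ R - 1) * x ≤ 2 ^ R * η :=
      mul_le_mul (by linarith only [hR']) hxη hx0 (by positivity)
    linarith only [h2, h3]
  have hψ : psiO R m u = (R : ℝ) / (R + 1) * (m : ℝ) ^ R * (if z ≤ 1 / 2 then 0 else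
      min (bet R (R - 1) m u) (2 * z - 1)) := by
    unfold psiO
    rw [pob_AA]
  constructor
  · -- small
    intro hsmall
    rw [hψ, if_pos hsmall, mul_zero, sub_zero]
    refine hK1.trans (mul_le_mul_of_nonneg_left ?_ hmR.le)
    have h1 : z ^ R ≤ z * (1 / 2) ^ (R - 1) := by
      have e : z ^ R = z * z ^ (R - 1) := by rw [← pow_succ']; congr 1; omega
      rw [e]
      exact mul_le_mul_of_nonneg_left (pow_le_pow_left₀ hz0 hsmall _) hz0
    have h2 : z ^ R ≤ z := by
      have := pow_le_of_le_one hz0 hz1' (n := R) (by omega)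
      exact this
    have h3 : z / (R + 1) - c2 * z = z * (1 / 2) ^ (R - 1) := by rw [hc2d]; ring
    have h4 : z ^ R * (2 ^ R * η) ≤ z * (C' * η) :=
      mul_le_mul h2 (mul_le_mul_of_nonneg_right hC'1 hη.le) (by positivity) hz0
    linarith only [h1, h3, h4]
  · -- large
    intro hlarge
    rw [hψ, if_neg (not_le.2 hlarge)]
    have hmin1 : min c2 c / (2 * R) * γ ≤ c2 * (γ / (2 * R)) := by
      have : min c2 c ≤ c2 := min_le_left _ _
      calc min c2 c / (2 * R) * γ = min c2 c * (γ / (2 * R)) := by ring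
        _ ≤ _ := mul_le_mul_of_nonneg_right this hγ10
    have hmin2 : min c2 c / (2 * R) * γ ≤ c * (γ / (2 * R)) := by
      have : min c2 c ≤ c := min_le_right _ _
      calc min c2 c / (2 * R) * γ = min c2 c * (γ / (2 * R)) := by ring
        _ ≤ _ := mul_le_mul_of_nonneg_right this hγ10
    have hRR : 0 ≤ (R : ℝ) / (R + 1) := by positivity
    have hRR1 : (R : ℝ) / (R + 1) ≤ 1 := by rw [div_le_one (by linarith)]; linarith
    rcases le_total (2 * z - 1) (bet R (R - 1) m u) with hb | hb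
    · -- `φ = 2 z - 1`
      rw [min_eq_right hb]
      have h1 := pob_chord R (by omega) z hlarge.le hz1'
      have h2 : z ^ R ≤ 1 := pow_le_one₀ hz0 hz1'
      have h3 : z ^ R * (1 + 2 ^ R * η) ≤ z ^ R + C' * η := by
        have : z ^ R * (2 ^ R * η) ≤ 1 * (C' * η) :=
          mul_le_mul h2 (mul_le_mul_of_nonneg_right hC'1 hη.le) (by positivity) zero_le_one
        linarith only [this]
      have h4 : z / (R + 1) - c2 * (1 - z) + (R : ℝ) / (R + 1) * (2 * z - 1) =
          (1 - z) * (1 / 2) ^ (R - 1) + (2 * z - 1) := by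
        rw [hc2d]; field_simp; ring
      have h5 : c2 * (γ / (2 * R)) ≤ c2 * (1 - z) :=
        mul_le_mul_of_nonneg_left (by linarith only [hz1]) hc2.le
      have h6 : z ^ R * (1 + 2 ^ R * η) - (R : ℝ) / (R + 1) * (2 * z - 1) ≤
          z / (R + 1) - (min c2 c / (2 * R) * γ - C' * η) := by linarith only [h1, h3, h4, h5, hmin1]
      calc k - (R : ℝ) / (R + 1) * (m : ℝ) ^ R * (2 * z - 1)
          ≤ (m : ℝ) ^ R * (z ^ R * (1 + 2 ^ R * η)) -
            (R : ℝ) / (R + 1) * (m : ℝ) ^ R * (2 * z - 1) := by linarith only [hK1]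
        _ = (m : ℝ) ^ R * (z ^ R * (1 + 2 ^ R * η) - (R : ℝ) / (R + 1) * (2 * z - 1)) := by ring
        _ ≤ _ := mul_le_mul_of_nonneg_left h6 hmR.le
    · -- `φ = β`
      rw [min_eq_left hb]
      obtain ⟨a, b, hb0, hba, ha1, hτ1, hτ2, hs1, hs2, hes⟩ := pob_es R hR m (6 * R * η) hm
        (by positivity) (by linarith only [hε4]) u hV.nn (fun i => (hV.le i).trans
          (mul_le_mul_of_nonneg_right (by nlinarith only [mul_pos hη hR0, hη, hR']) hm.le))
        hV.zero
      set ε : ℝ := 6 * R * η with hε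
      have hε0 : 0 ≤ ε := by positivity
      set s : ℝ := U / m with hs
      have hUs : U = m * s := by rw [hs]; field_simp
      have hsz : s = R * z * (1 + x) := by
        rw [hs, hUz, hDx]; field_simp
      have hs1' : b + ((R : ℝ) - 1) * a ≤ s := by
        rw [hs, le_div_iff₀ hm]; linarith only [hs1]
      have hs2' : s ≤ b + ((R : ℝ) - 1) * a + ε := by
        rw [hs, div_le_iff₀ hm]; linarith only [hs2]
      have hs3' : (R : ℝ) / 2 ≤ s := by
        rw [hsz]
        have h1 : (R : ℝ) / 2 ≤ R * z := by linarith only [mul_le_mul_of_nonneg_left hlarge.le hR0.le]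
        have h2 : 0 ≤ R * z * x := by positivity
        linarith only [h1, h2]
      have hs4' : s ≤ R * (1 - γ / (2 * R)) + R * η := by
        rw [hsz]
        have h1 : R * z ≤ R * (1 - γ / (2 * R)) := mul_le_mul_of_nonneg_left hz1 (by positivity)
        have h2 : R * z * x ≤ R * 1 * η :=
          mul_le_mul (mul_le_mul_of_nonneg_left hz1' (by positivity)) hxη hx0 (by positivity)
        linarith only [h1, h2]
      have hγ11 : γ / (2 * R) ≤ 1 := by
        rw [div_le_one (by positivity)]; linarith only [hγ1, hR']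
      have hG := pob_G R hR a b ε η (γ / (2 * R)) s hb0 hba ha1 hε0 hε4 hη.le hγ10 hγ11 hs1' hs2'
        hs3' hs4'
      rw [← hcd] at hG
      -- `β`
      have hβ : b - 2 * η ≤ bet R (R - 1) m u := by
        unfold bet
        rw [hcast]
        have e1 : ((R : ℝ) - (R - 1)) * (R * m + (R - 1)) = R * m * (1 + x) := by
          rw [← hDx, hDval]; ring
        rw [e1, le_div_iff₀ (by positivity)]
        have h1 : b * (1 + x) - 2 * η * (1 + x) ≤ b := by
          have hb2 : b ≤ 2 := by linarith only [hba, ha1, hε4]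
          linarith only [mul_le_mul_of_nonneg_right hb2 hx0, hxη, mul_nonneg hη.le hx0]
        calc (b - 2 * η) * (R * m * (1 + x)) = R * m * (b * (1 + x) - 2 * η * (1 + x)) := by ring
          _ ≤ R * m * b := mul_le_mul_of_nonneg_left h1 (by positivity)
          _ = R * (m * b) := by ring
          _ ≤ _ := mul_le_mul_of_nonneg_left hτ1 (by positivity)
      -- `z`
      have hzlow : (b + ((R : ℝ) - 1) * a) / R - η ≤ z := by
        have h1 : s / R ≤ z + η := by
          rw [hsz]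
          have : R * z * (1 + x) / R = z + z * x := by field_simp
          rw [this]
          have : z * x ≤ 1 * η := mul_le_mul hz1' hxη hx0 zero_le_one
          linarith only [this]
        have h2 : (b + ((R : ℝ) - 1) * a) / R ≤ s / R := div_le_div_of_nonneg_right hs1' (by positivity)
        linarith only [h1, h2]
      have hid : (b + ((R : ℝ) - 1) * a) / R / (R + 1) + (R : ℝ) / (R + 1) * b - b * a ^ (R - 1) =
          b * (1 - a ^ (R - 1)) + ((R : ℝ) - 1) / (R * (R + 1)) * (a - b) := by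
        field_simp; ring
      have hz2 : (b + ((R : ℝ) - 1) * a) / R / (R + 1) - η ≤ z / (R + 1) := by
        have h1 : ((b + ((R : ℝ) - 1) * a) / R - η) / (R + 1) ≤ z / (R + 1) :=
          div_le_div_of_nonneg_right hzlow (by positivity)
        have h2 : η / (R + 1) ≤ η := div_le_self hη.le (by linarith only [hR'])
        rw [sub_div] at h1
        linarith only [h1, h2]
      have hβ2 : (R : ℝ) / (R + 1) * b - 2 * η ≤ (R : ℝ) / (R + 1) * bet R (R - 1) m u := by
        have h1 := mul_le_mul_of_nonneg_left hβ hRR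
        have h2 : (R : ℝ) / (R + 1) * (2 * η) ≤ 1 * (2 * η) :=
          mul_le_mul_of_nonneg_right hRR1 (by positivity)
        linarith only [h1, h2]
      have h6 : b * a ^ (R - 1) + R * 2 ^ R * ε - (R : ℝ) / (R + 1) * bet R (R - 1) m u ≤
          z / (R + 1) - (min c2 c / (2 * R) * γ - C' * η) := by
        have e : C' * η = R * η + 3 * η + 2 ^ R * ε + R * 2 ^ R * ε := by
          rw [hC', hε]; ring
        linarith only [e, hG, hid, hz2, hβ2, hmin2]
      calc k - (R : ℝ) / (R + 1) * (m : ℝ) ^ R * bet R (R - 1) m u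
          ≤ (m : ℝ) ^ R * (b * a ^ (R - 1) + R * 2 ^ R * ε) -
            (R : ℝ) / (R + 1) * (m : ℝ) ^ R * bet R (R - 1) m u := by linarith only [hk2, hes]
        _ = (m : ℝ) ^ R * (b * a ^ (R - 1) + R * 2 ^ R * ε -
            (R : ℝ) / (R + 1) * bet R (R - 1) m u) := by ring
        _ ≤ _ := mul_le_mul_of_nonneg_left h6 hmR.le

theorem payO_B (R : ℕ) (hR : 4 ≤ R) : PayB R (R - 1) (R + 1) (psiO R) (chiO R) := by
  classical
  have hR' : (4 : ℝ) ≤ R := by exact_mod_cast hR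
  obtain ⟨C', c2, c6, hC', hc2, hc6, hvert⟩ := pob_vertex R hR
  intro C2 C3 hC2 hC3
  refine ⟨c2 / (4 * (C3 * (R + 1))), by positivity, ?_⟩
  intro γ hγ hγ0
  have hγC : C3 * (R + 1) * γ ≤ c2 / 4 := by
    rw [le_div_iff₀ (by positivity)] at hγ0
    linarith
  refine ⟨min (min (c2 / (4 * C')) (c6 * γ / (6 * C'))) (min (c6 * γ / (6 * C2))
    ((c6 * γ / (6 * C3)) ^ 2)), by positivity, ?_⟩
  intro η hη hη0
  have hη1 : C' * η ≤ c2 / 4 := by
    have := (hη0.trans (min_le_left _ _)).trans (min_le_left _ _)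
    rw [le_div_iff₀ (by positivity)] at this
    linarith
  have hη2 : C' * η ≤ c6 * γ / 6 := by
    have := (hη0.trans (min_le_left _ _)).trans (min_le_right _ _)
    rw [le_div_iff₀ (by positivity)] at this
    linarith
  have hη3 : C2 * η ≤ c6 * γ / 6 := by
    have := (hη0.trans (min_le_right _ _)).trans (min_le_left _ _)
    rw [le_div_iff₀ (by positivity)] at this
    linarith
  have hη4 : C3 * Real.sqrt η ≤ c6 * γ / 6 := by
    have h1 := (hη0.trans (min_le_right _ _)).trans (min_le_right _ _)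
    have h2 : Real.sqrt η ≤ c6 * γ / (6 * C3) := by
      rw [← Real.sqrt_sq (by positivity : 0 ≤ c6 * γ / (6 * C3))]
      exact Real.sqrt_le_sqrt h1
    rw [le_div_iff₀ (by positivity)] at h2
    linarith
  set c5 : ℝ := min (c2 / 2) (c6 * γ / 2) with hc5
  have hc50 : 0 < c5 := lt_min (by positivity) (by positivity)
  refine ⟨2 ^ R, c5 / (R + 1), by positivity, by positivity, ?_⟩
  intro m P ι L u k e h hVec hk he hh hsum
  obtain ⟨hm, hηm1, hηm, hη1000, hε4, hγ1, hcast⟩ := pob_par hR P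
  have hmR : 0 < (m : ℝ) ^ R := by positivity
  simp only [Nat.add_sub_cancel, Nat.choose_self, Nat.cast_one, one_mul] at hk he ⊢
  have e1 : R + 1 - 2 = R - 1 := by omega
  rw [e1] at he ⊢
  have hmRR : (m : ℝ) ^ R = m * (m : ℝ) ^ (R - 1) := by
    rw [← pow_succ']; congr 1; omega
  have hmR1 : 0 < (m : ℝ) ^ (R - 1) := by positivity
  set D : ℝ := (R : ℝ) * m + ((R - 1 : ℕ) : ℝ) with hD
  have hDval : D = R * m + (R - 1) := by rw [hD, hcast]
  have hR0 : (0 : ℝ) < R := by linarith only [hR']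
  have hD0 : 0 < D := by rw [hDval]; linarith only [mul_pos hR0 hm, hR']
  have hmge : (R : ℝ) ≤ m := by linarith only [hηm, mul_le_mul_of_nonneg_right hη1000 hm.le, hm]
  have hDle : D ≤ (R + 1) * m := by rw [hDval]; linarith only [hmge]
  set z : ι → ℝ := fun i => zet R (R - 1) m (u i) with hz
  have hzval : ∀ i, z i = (∑ j, u i j) / D := fun i => rfl
  have hUz : ∀ i, ∑ j, u i j = z i * D := fun i => by rw [hzval]; field_simp
  have hU0 : ∀ i ∈ L, 0 ≤ ∑ j, u i j := fun i hi => Finset.sum_nonneg fun j _ => (hVec i hi).nn j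
  have hz0 : ∀ i ∈ L, 0 ≤ z i := fun i hi => by rw [hzval]; exact div_nonneg (hU0 i hi) hD0.le
  have hz1 : ∀ i ∈ L, z i ≤ 1 := by
    intro i hi
    rw [hzval, div_le_one hD0, hDval]
    have := (hVec i hi).sum
    linarith only [this, mul_pos hγ hm, hR']
  -- one vertex
  have hone : ∀ i ∈ L, k i - psiO R m (u i) + e i +
      (if chiO R m (u i) then C2 * η * (m : ℝ) ^ R else 0) ≤
        (m : ℝ) ^ R * (z i / (R + 1) - c5 * z i) := by
    intro i hi
    obtain ⟨hs, hl⟩ := hvert m γ η P (u i) (k i) (hVec i hi) (hk i hi).1 (hk i hi).2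
    have hzi0 := hz0 i hi
    have hzi1 := hz1 i hi
    rcases le_or_gt (z i) (1 / 2) with h | h
    · have hχ : ¬ chiO R m (u i) := not_lt.2 h
      rw [if_neg hχ]
      have h1 := hs h
      have h2 := (he i hi).1
      have h3 : C3 * γ * (m : ℝ) ^ (R - 1) * ∑ j, u i j ≤ (m : ℝ) ^ R * (c2 / 4 * z i) := by
        rw [hUz i]
        calc C3 * γ * (m : ℝ) ^ (R - 1) * (z i * D)
            ≤ C3 * γ * (m : ℝ) ^ (R - 1) * (z i * ((R + 1) * m)) :=
              mul_le_mul_of_nonneg_left (mul_le_mul_of_nonneg_left hDle hzi0) (by positivity)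
          _ = (m : ℝ) ^ R * (C3 * (R + 1) * γ * z i) := by rw [hmRR]; ring
          _ ≤ _ := mul_le_mul_of_nonneg_left (mul_le_mul_of_nonneg_right hγC hzi0) hmR.le
      have h4 : c5 * z i ≤ c2 / 2 * z i := mul_le_mul_of_nonneg_right (min_le_left _ _) hzi0
      have h5 : C' * η * z i ≤ c2 / 4 * z i := mul_le_mul_of_nonneg_right hη1 hzi0
      have h6 : (m : ℝ) ^ R * (z i / (R + 1) - (c2 - C' * η) * z i) +
          (m : ℝ) ^ R * (c2 / 4 * z i) ≤ (m : ℝ) ^ R * (z i / (R + 1) - c5 * z i) := by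
        rw [← mul_add]
        refine mul_le_mul_of_nonneg_left ?_ hmR.le
        linarith only [h4, h5]
      linarith only [h1, h2, h3, h6]
    · have hχ : chiO R m (u i) := h
      rw [if_pos hχ]
      have h1 := hl h
      have h2 := (he i hi).2
      have h4 : c5 * z i ≤ c6 * γ / 2 := by
        calc c5 * z i ≤ c5 * 1 := mul_le_mul_of_nonneg_left hzi1 hc50.le
          _ ≤ _ := by rw [mul_one]; exact min_le_right _ _
      have h6 : (m : ℝ) ^ R * (z i / (R + 1) - (c6 * γ - C' * η)) +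
          (m : ℝ) ^ R * (C3 * Real.sqrt η) + (m : ℝ) ^ R * (C2 * η) ≤
          (m : ℝ) ^ R * (z i / (R + 1) - c5 * z i) := by
        rw [← mul_add, ← mul_add]
        refine mul_le_mul_of_nonneg_left ?_ hmR.le
        linarith only [h4, hη2, hη3, hη4]
      linarith only [h1, h2, h6]
  have hsumone := Finset.sum_le_sum hone
  set Z : ℝ := ∑ i ∈ L, z i with hZ
  have hZsum : ∑ i ∈ L, (m : ℝ) ^ R * (z i / (R + 1) - c5 * z i) =
      (m : ℝ) ^ R * (Z / (R + 1) - c5 * Z) := by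
    rw [← Finset.mul_sum, Finset.sum_sub_distrib, ← Finset.sum_div, ← Finset.mul_sum]
  have hZU : ∑ i ∈ L, ∑ j, u i j = Z * D := by
    rw [hZ, Finset.sum_mul]
    exact Finset.sum_congr rfl fun i _ => hUz i
  have hZ0 : 0 ≤ Z := Finset.sum_nonneg hz0
  rw [hZU] at hsum ⊢
  have hhD : h ≤ (1 - Z) * D := by
    have : Z * D + h ≤ D := hsum
    linarith only [this]
  have hZ1 : Z ≤ 1 := by
    by_contra hcon
    push Not at hcon
    linarith only [hhD, mul_pos (sub_pos.2 hcon) hD0, hh]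
  -- the part outside the clusters
  have hout : (h / R) ^ R / ((R + 1 : ℕ) : ℝ) ≤
      (m : ℝ) ^ R * (1 - Z) / (R + 1) + 2 ^ R * (m : ℝ) ^ (R - 1) := by
    have hx1 : h / R ≤ m * ((1 - Z) * (1 + 1 / m)) := by
      rw [div_le_iff₀ (by linarith)]
      refine hhD.trans ?_
      have h1 : D ≤ R * m * (1 + 1 / m) := by
        have : (R : ℝ) * m * (1 + 1 / (m : ℝ)) = R * m + R := by field_simp
        rw [this, hDval]; linarith
      calc (1 - Z) * D ≤ (1 - Z) * (R * m * (1 + 1 / m)) :=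
            mul_le_mul_of_nonneg_left h1 (by linarith)
        _ = _ := by ring
    have hx2 : (h / R) ^ R ≤ (m : ℝ) ^ R * ((1 - Z) ^ R * (1 + 1 / m) ^ R) := by
      have := pow_le_pow_left₀ (by positivity : 0 ≤ h / R) hx1 R
      rwa [mul_pow, mul_pow] at this
    have hm1 : (1 : ℝ) ≤ m := by linarith
    have hx3 : (1 + 1 / (m : ℝ)) ^ R ≤ 1 + 2 ^ R * (1 / m) := by
      have := pob_pow R (1 / (m : ℝ)) (by positivity) (by rw [div_le_one hm]; exact hm1)
      have h2 : ((2 : ℝ) ^ R - 1) * (1 / m) ≤ 2 ^ R * (1 / m) :=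
        mul_le_mul_of_nonneg_right (by linarith) (by positivity)
      linarith
    have hx4 : (1 - Z) ^ R ≤ 1 - Z :=
      pow_le_of_le_one (by linarith) (by linarith) (by omega)
    have hx5 : (h / R) ^ R ≤ (m : ℝ) ^ R * (1 - Z) + 2 ^ R * (m : ℝ) ^ (R - 1) := by
      calc (h / R) ^ R ≤ (m : ℝ) ^ R * ((1 - Z) ^ R * (1 + 1 / m) ^ R) := hx2
        _ ≤ (m : ℝ) ^ R * ((1 - Z) * (1 + 2 ^ R * (1 / m))) :=
            mul_le_mul_of_nonneg_left (mul_le_mul hx4 hx3 (by positivity) (by linarith)) hmR.le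
        _ = (m : ℝ) ^ R * (1 - Z) + (1 - Z) * (2 ^ R * (m : ℝ) ^ (R - 1)) := by
            rw [hmRR]; field_simp
        _ ≤ _ := by
            have : (1 - Z) * (2 ^ R * (m : ℝ) ^ (R - 1)) ≤ 1 * (2 ^ R * (m : ℝ) ^ (R - 1)) :=
              mul_le_mul_of_nonneg_right (by linarith) (by positivity)
            linarith
    have e2 : (((R + 1 : ℕ) : ℝ)) = (R : ℝ) + 1 := by push_cast; ring
    rw [e2, div_le_iff₀ (by linarith), add_mul, div_mul_cancel₀ _ (by linarith)]
    have h3 : 2 ^ R * (m : ℝ) ^ (R - 1) * 1 ≤ 2 ^ R * (m : ℝ) ^ (R - 1) * (R + 1) :=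
      mul_le_mul_of_nonneg_left (by linarith) (by positivity)
    linarith
  have hm1' : 1 ≤ m := by
    have : (1 : ℝ) ≤ m := by linarith
    exact_mod_cast this
  have hPL := PL_lo R (R - 1) m (R + 1) (by omega) (by omega) hm1'
  simp only [Nat.add_sub_cancel, Nat.choose_self, Nat.cast_one, one_mul] at hPL
  have e2 : (((R + 1 : ℕ) : ℝ)) = (R : ℝ) + 1 := by push_cast; ring
  rw [e2] at hPL hout ⊢
  have hfin : c5 / (R + 1) * (m : ℝ) ^ (R - 1) * (Z * D) ≤ (m : ℝ) ^ R * (c5 * Z) := by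
    calc c5 / (R + 1) * (m : ℝ) ^ (R - 1) * (Z * D)
        ≤ c5 / (R + 1) * (m : ℝ) ^ (R - 1) * (Z * ((R + 1) * m)) :=
          mul_le_mul_of_nonneg_left (mul_le_mul_of_nonneg_left hDle hZ0) (by positivity)
      _ = _ := by rw [hmRR]; field_simp
  rw [hZsum] at hsumone
  have hid : (m : ℝ) ^ R * (Z / (R + 1) - c5 * Z) + (m : ℝ) ^ R * (1 - Z) / (R + 1) -
      (m : ℝ) ^ R / (R + 1) = -((m : ℝ) ^ R * (c5 * Z)) := by
    field_simp; ring
  linarith

end Pool.Agent.H45.KTD
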