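import Mathlib

/-!
# KTD RefF: the real inequality for an outside vertex, refined case

`E = er x ^ (t-1)`, `z1 = x/2 ∈ [7/20, 1/2]`.  Numbers: `(1 - z1) ^ (t-2) < 1/t` and `(1 - z1) ^ (t-1) < 1/(2t)` because `1 - z1 ≤ 13/20`
and `t (13/20) ^ (t-2) < 1`, `2 t (13/20) ^ (t-1) < 1` for `t ≥ 8` (induction on `t`).
`GG x E t z = z/t` if `E ≤ x/t`; otherwise `(E/x) z` for `z ≤ x` and `E + (1/t - E)(z - x)/(1 - x)` for `z ≥ x`.

`refG` (`x a + (1 - x) b = z`, `0 ≤ b ≤ a + ε`, `0 ≤ a ≤ 1 + ε`, `ε ≤ 1`, `0 ≤ E < 1/t`, `x ≤ 1`): `a ^ (t-1) ≤ a + K ε` (for `a ≤ 1` clear).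
If `E ≤ x/t`: `E a + (1/t - E) b ≤ z/t + (x/t - E)(b - a) ≤ z/t + ε`.  If `E > x/t`, `z ≤ x`: `(1/t - E) ≤ E (1 - x)/x`, so
`E a + (1/t - E) b ≤ (E/x)(x a + (1 - x) b)`.  If `E > x/t`, `z ≥ x`: `(z - x)/(1 - x) = b - x (1 - a)/(1 - x)`, and
`GG - (E a + (1/t - E) b) = (1 - a)(E - (1/t - E) x/(1 - x)) = (1 - a) (E - x/t)/(1 - x) ≥ 0` for `a ≤ 1`, `≥ - K ε` otherwise
(`K` may depend on `x`).

`refF`: call `i` large if `z i > z1`.
* No large `i`, or at least two: all `z i ≤ 1 - z1`, `∑ w ≤ ∑ z ^ (t-1) ≤ (1 - z1) ^ (t-2) Z`, `(1/t)(1 - Z) ^ (t-1) ≤ (1 - Z)/t`, so the left side is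
  `≤ 1/t - s Z`, `s = 1/t - (13/20) ^ (t-2) > 0`.  (`c2 ≤ s`, `c3 ≤ s z1`.)
* One large `i`, `z = z i`: for the others `w ≤ er z_k ^ (t-1)`, so (superadditivity of `y ^ (t-1)`)
  `∑_{others} w + (1/t)(1 - Z) ^ (t-1) ≤ e' (1 - z) ^ (t-1)`, `e' = max er (1/t) ≤ 1`.  Claim: `w i + e' (1 - z) ^ (t-1) ≤ 1/t - s1 (1 - z)` with
  `s1 > 0` depending on `t, x, er` only; then `c2 = min s (s1/2)`, `c3 = min (s z1) (s1 γ1 / 2)` works, because
  `∑_{others} z ≤ 1 - z` and `1 - z ≥ γ1`.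
  - `w i ≤ z ^ (t-1) - ((t-1)/t)(z - z1)/(1 - z1)`: `z ^ (t-1) + (1 - z) ^ (t-1) - ((t-1)/t)(z - z1)/(1 - z1)` is convex, `= 1/t` at `1` and
    `≤ z1 ^ (t-1) + (1 - z1) ^ (t-1) ≤ (1 - z1) ^ (t-2) < 1/t` at `z1`.
  - `w i ≤ GG`, `E ≤ x/t`: `z/t + (1 - z) ^ (t-1) ≤ z/t + (1 - z)(13/20) ^ (t-2)`.
  - `w i ≤ GG`, `E > x/t` (then `er > 1/t`, `e' = er`, since `E ≤ x ^ (t-1) er`): on `[x/2, x]` `(E/x) z + er (1 - z) ^ (t-1)` is convex, at `x`:
    `E + er (1 - x) ^ (t-1) < 1/t` by `hc`, at `x/2`: `E/2 + (13/20) ^ (t-1) < 1/t` (`E < 1/t` by `hc`).  On `[x, 1]` with `y = (1 - z)/(1 - x)`: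
    `1/t - (1/t - E) y + er (1 - x) ^ (t-1) y ^ (t-1) ≤ 1/t - y (1/t - E - er (1 - x) ^ (t-1))`, `y ≥ 1 - z`.
-/

set_option autoImplicit false

open Finset

namespace Pool.Agent.H45.KTD

open scoped Classical in
noncomputable def GG (x E : ℝ) (t : ℕ) (z : ℝ) : ℝ :=
  if E ≤ x / t then z / t else if z ≤ x then E / x * z else E + (1 / t - E) * ((z - x) / (1 - x))

private theorem ref_num1 (m : ℕ) (hm : 6 ≤ m) :
    ((m + 2 : ℕ) : ℝ) * (13 / 20) ^ m < 1 := by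
  induction m, hm using Nat.le_induction with
  | base => norm_num
  | succ k hk ih =>
    have hk' : (6 : ℝ) ≤ k := by exact_mod_cast hk
    have hp : (0 : ℝ) < (13 / 20) ^ k := by positivity
    push_cast at ih ⊢
    rw [pow_succ]
    have h := mul_le_mul_of_nonneg_left (show ((k : ℝ) + 3) * (13 / 20) ≤ k + 2 by linarith) hp.le
    nlinarith

private theorem ref_num2 (m : ℕ) (hm : 6 ≤ m) :
    2 * ((m + 2 : ℕ) : ℝ) * (13 / 20) ^ (m + 1) < 1 := by
  induction m, hm using Nat.le_induction with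
  | base => norm_num
  | succ k hk ih =>
    have hk' : (6 : ℝ) ≤ k := by exact_mod_cast hk
    have hp : (0 : ℝ) < (13 / 20) ^ (k + 1) := by positivity
    push_cast at ih ⊢
    rw [pow_succ]
    have h := mul_le_mul_of_nonneg_left (show ((k : ℝ) + 3) * (13 / 20) ≤ k + 2 by linarith) hp.le
    nlinarith

private theorem ref_pow {y c : ℝ} (m : ℕ) (h0 : 0 ≤ y) (h : y ≤ c) : y ^ (m + 1) ≤ c ^ m * y := by
  rw [pow_succ]
  exact mul_le_mul_of_nonneg_right (pow_le_pow_left₀ h0 h m) h0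

private theorem ref_pow1 {y : ℝ} (m : ℕ) (h0 : 0 ≤ y) (h : y ≤ 1) : y ^ (m + 1) ≤ y := by
  have h1 := ref_pow m h0 h
  rwa [one_pow, one_mul] at h1

private theorem ref_one_add (n : ℕ) {ε : ℝ} (h0 : 0 ≤ ε) (h1 : ε ≤ 1) :
    (1 + ε) ^ n ≤ 1 + 3 ^ n * ε := by
  induction n with
  | zero => simp [h0]
  | succ k ih =>
    have hp : (1 : ℝ) ≤ 3 ^ k := one_le_pow₀ (by norm_num)
    have h2 : (3 : ℝ) ^ k * ε * ε ≤ 3 ^ k * ε := by
      have h3 : 0 ≤ (3 : ℝ) ^ k * ε := by positivity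
      nlinarith
    calc (1 + ε) ^ (k + 1) = (1 + ε) ^ k * (1 + ε) := pow_succ _ _
      _ ≤ (1 + 3 ^ k * ε) * (1 + ε) := mul_le_mul_of_nonneg_right ih (by linarith)
      _ = 1 + ε + 3 ^ k * ε + 3 ^ k * ε * ε := by ring
      _ ≤ 1 + 3 ^ (k + 1) * ε := by
        rw [pow_succ]
        nlinarith

theorem refG (t : ℕ) (ht : 8 ≤ t) (x : ℝ) (hx : 7 / 10 ≤ x) (hx1 : x < 1) : ∃ K : ℝ, 0 < K ∧
    ∀ (E ε a b : ℝ), 0 ≤ E → (t : ℝ) * E ≤ 1 → 0 ≤ ε → ε ≤ 1 → 0 ≤ a → a ≤ 1 + ε → 0 ≤ b →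
      b ≤ a + ε → E * a ^ (t - 1) + (1 / t - E) * b ≤ GG x E t (x * a + (1 - x) * b) + K * ε := by
  refine ⟨3 ^ (t - 1) + 1, by positivity, ?_⟩
  intro E ε a b hE hE1 hε hε1 ha ha1 hb hba
  have hT : (8 : ℝ) ≤ t := by exact_mod_cast ht
  have hTpos : (0 : ℝ) < t := by linarith
  have hE2 : E ≤ 1 / t := by
    rw [le_div_iff₀ hTpos]
    linarith
  have hT1 : 1 / (t : ℝ) ≤ 1 := by
    rw [div_le_one hTpos]
    linarith
  have hEle : E ≤ 1 := hE2.trans hT1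
  have hpow : a ^ (t - 1) ≤ a + 3 ^ (t - 1) * ε := by
    rcases le_or_gt a 1 with h | h
    · have h1 : a ^ (t - 1) ≤ a := by
        have h2 : t - 1 = (t - 2) + 1 := by omega
        rw [h2]
        exact ref_pow1 _ ha h
      have h3 : 0 ≤ (3 : ℝ) ^ (t - 1) * ε := by positivity
      linarith
    · calc a ^ (t - 1) ≤ (1 + ε) ^ (t - 1) := pow_le_pow_left₀ ha ha1 _
        _ ≤ 1 + 3 ^ (t - 1) * ε := ref_one_add _ hε hε1
        _ ≤ a + 3 ^ (t - 1) * ε := by linarith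
  have hx0 : 0 < x := by linarith
  have hx2 : 0 < 1 - x := by linarith
  have hmain : E * a + (1 / t - E) * b ≤ GG x E t (x * a + (1 - x) * b) + ε := by
    have hxt : x / (t : ℝ) = x * (1 / t) := by ring
    have hzt : (x * a + (1 - x) * b) / (t : ℝ) = (x * a + (1 - x) * b) * (1 / t) := by ring
    have hu0 : 0 < 1 / (t : ℝ) := by positivity
    unfold GG
    rw [hxt, hzt]
    generalize 1 / (t : ℝ) = u at *
    split_ifs with h1 h2
    · have h3 : 0 ≤ (x * u - E) * (a - b + ε) := mul_nonneg (by linarith) (by linarith)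
      have h4 : (x * u - E) * ε ≤ 1 * ε := by
        refine mul_le_mul_of_nonneg_right ?_ hε
        nlinarith
      nlinarith
    · have h5 : E / x * (x * a + (1 - x) * b) = E * a + (E * (1 - x) / x) * b := by
        field_simp
      have h6 : u - E ≤ E * (1 - x) / x := by
        rw [le_div_iff₀ hx0]
        nlinarith
      have h7 := mul_le_mul_of_nonneg_right h6 hb
      rw [h5]
      linarith
    · have h5 : (x * a + (1 - x) * b - x) / (1 - x) = b - x * (1 - a) / (1 - x) := by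
        field_simp
        ring
      have h6 : (u - E) * (x * (1 - a) / (1 - x)) ≤ E * (1 - a) + ε := by
        rw [← mul_div_assoc, div_le_iff₀ hx2]
        have h7 : 0 ≤ (1 - a + ε) * (E - x * u) := mul_nonneg (by linarith) (by linarith)
        have h8 : ε * (E - x * u) ≤ ε * (1 - x) := by
          refine mul_le_mul_of_nonneg_left ?_ hε
          nlinarith
        nlinarith
      rw [h5]
      nlinarith
  have h9 : E * a ^ (t - 1) ≤ E * a + 3 ^ (t - 1) * ε := by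
    have h3 : 0 ≤ (3 : ℝ) ^ (t - 1) * ε := by positivity
    calc E * a ^ (t - 1) ≤ E * (a + 3 ^ (t - 1) * ε) := mul_le_mul_of_nonneg_left hpow hE
      _ = E * a + E * (3 ^ (t - 1) * ε) := by ring
      _ ≤ E * a + 1 * (3 ^ (t - 1) * ε) := by
        have := mul_le_mul_of_nonneg_right hEle h3
        linarith
      _ = E * a + 3 ^ (t - 1) * ε := by ring
  linarith

private theorem ref_claim (m : ℕ) (hm : 6 ≤ m) (x er : ℝ) (hx : 7 / 10 ≤ x) (hx1 : x < 1)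
    (h0 : 0 ≤ er) (h1 : er ≤ 1) (z w s1 : ℝ) (hs0 : 0 ≤ s1)
    (hs1 : s1 ≤ 1 / ((m + 2 : ℕ) : ℝ) - (13 / 20) ^ m)
    (hs2 : s1 ≤ 1 / ((m + 2 : ℕ) : ℝ) - er * x ^ (m + 1) - er * (1 - x) ^ (m + 1))
    (hs3 : s1 ≤ 1 / (2 * ((m + 2 : ℕ) : ℝ)) - (13 / 20) ^ (m + 1)) (hz1 : x / 2 < z)
    (hz2 : z ≤ 1) (hw : w ≤ max (GG x (er * x ^ (m + 1)) (m + 2) z)
      (z ^ (m + 1) - (((m + 2 : ℕ) : ℝ) - 1) / ((m + 2 : ℕ) : ℝ) * ((z - x / 2) / (1 - x / 2)))) :
    w + max er (1 / ((m + 2 : ℕ) : ℝ)) * (1 - z) ^ (m + 1) ≤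
      1 / ((m + 2 : ℕ) : ℝ) - s1 * (1 - z) := by
  have hT8 : (8 : ℝ) ≤ ((m + 2 : ℕ) : ℝ) := by exact_mod_cast (by omega : 8 ≤ m + 2)
  have hzn : 0 ≤ 1 - z := by linarith
  have hpz : 0 ≤ (1 - z) ^ (m + 1) := by positivity
  have hTpos : (0 : ℝ) < ((m + 2 : ℕ) : ℝ) := by linarith
  have hTne : ((m + 2 : ℕ) : ℝ) ≠ 0 := hTpos.ne'
  have hT1 : 1 / ((m + 2 : ℕ) : ℝ) ≤ 1 := by
    rw [div_le_one hTpos]
    linarith
  have hu0 : 0 < 1 / ((m + 2 : ℕ) : ℝ) := by positivity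
  have he1 : max er (1 / ((m + 2 : ℕ) : ℝ)) ≤ 1 := max_le h1 hT1
  have hc1 : (1 - x / 2) ^ m ≤ (13 / 20) ^ m := pow_le_pow_left₀ (by linarith) (by linarith) m
  have hc2 : (1 - x / 2) ^ (m + 1) ≤ (13 / 20) ^ (m + 1) :=
    pow_le_pow_left₀ (by linarith) (by linarith) (m + 1)
  have hb1 : max er (1 / ((m + 2 : ℕ) : ℝ)) * (1 - z) ^ (m + 1) ≤ (1 - z) ^ (m + 1) := by
    have := mul_le_mul_of_nonneg_right he1 hpz
    linarith
  rcases le_max_iff.mp hw with h | h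
  · unfold GG at h
    split_ifs at h with hE hzx
    · -- `w ≤ z / t`
      have h2 : (1 - z) ^ (m + 1) ≤ (13 / 20) ^ m * (1 - z) := by
        refine (ref_pow m hzn (by linarith : 1 - z ≤ 1 - x / 2)).trans ?_
        exact mul_le_mul_of_nonneg_right hc1 hzn
      have h3 : z / ((m + 2 : ℕ) : ℝ) = 1 / ((m + 2 : ℕ) : ℝ) - 1 / ((m + 2 : ℕ) : ℝ) * (1 - z) := by
        field_simp
        ring
      have h4 := mul_le_mul_of_nonneg_right hs1 hzn
      rw [h3] at h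
      nlinarith
    · -- `z ≤ x`
      push Not at hE
      have hEr : 1 / ((m + 2 : ℕ) : ℝ) < er := by
        have h2 : er * x ^ (m + 1) ≤ er * x :=
          mul_le_mul_of_nonneg_left (ref_pow1 m (by linarith) hx1.le) h0
        have h3 : x * (1 / ((m + 2 : ℕ) : ℝ)) < x * er := by
          have : x * (1 / ((m + 2 : ℕ) : ℝ)) = x / ((m + 2 : ℕ) : ℝ) := by ring
          rw [this]
          linarith
        exact lt_of_mul_lt_mul_left h3 (by linarith)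
      rw [max_eq_left hEr.le]
      have hl0 : 0 ≤ (x - z) / (x / 2) := div_nonneg (by linarith) (by linarith)
      have hl1 : (x - z) / (x / 2) ≤ 1 := by
        rw [div_le_one (by linarith)]
        linarith
      have hzl : 1 - z = ((x - z) / (x / 2)) * (1 - x / 2) + (1 - (x - z) / (x / 2)) * (1 - x) := by
        have hx0 : x ≠ 0 := by linarith
        field_simp
        ring
      have hEz : er * x ^ (m + 1) / x * z = (er * x ^ (m + 1)) * (1 - ((x - z) / (x / 2)) / 2) := by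
        have hx0 : x ≠ 0 := by linarith
        field_simp
        ring
      rw [hEz] at h
      have hconv : (1 - z) ^ (m + 1) ≤ ((x - z) / (x / 2)) * (1 - x / 2) ^ (m + 1) +
          (1 - (x - z) / (x / 2)) * (1 - x) ^ (m + 1) := by
        have h5 := (convexOn_pow (m + 1)).2 (x := 1 - x / 2) (y := 1 - x)
          (Set.mem_Ici.mpr (by linarith)) (Set.mem_Ici.mpr (by linarith)) hl0
          (sub_nonneg.mpr hl1) (by ring)
        simp only [smul_eq_mul] at h5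
        rw [← hzl] at h5
        exact h5
      generalize (x - z) / (x / 2) = l at *
      generalize hX : x ^ (m + 1) = X at *
      generalize hY : (1 - x) ^ (m + 1) = Y at *
      have hV0 : 0 ≤ (1 - x / 2) ^ (m + 1) := pow_nonneg (by linarith) _
      generalize (1 - x / 2) ^ (m + 1) = V at *
      generalize (1 - z) ^ (m + 1) = W at *
      generalize (13 / 20 : ℝ) ^ (m + 1) = ν at *
      have hY0 : 0 ≤ Y := by
        rw [← hY]
        exact pow_nonneg (by linarith) _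
      have h6 : er * W ≤ er * (l * V + (1 - l) * Y) := mul_le_mul_of_nonneg_left hconv h0
      have h7 : 1 / (2 * ((m + 2 : ℕ) : ℝ)) = 1 / ((m + 2 : ℕ) : ℝ) / 2 := by
        field_simp
      rw [h7] at hs3
      generalize 1 / ((m + 2 : ℕ) : ℝ) = u at *
      have h8 : l * (er * X / 2 + er * V) ≤ l * (u - s1) := by
        refine mul_le_mul_of_nonneg_left ?_ hl0
        have h9 : er * V ≤ 1 * ν := mul_le_mul h1 hc2 hV0 (by norm_num)
        have h10 : er * X ≤ u := by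
          have : 0 ≤ er * Y := mul_nonneg h0 hY0
          linarith
        linarith
      have h9 : (1 - l) * (er * X + er * Y) ≤ (1 - l) * (u - s1) := by
        refine mul_le_mul_of_nonneg_left ?_ (by linarith)
        linarith
      have h10 : s1 * (1 - z) ≤ s1 := by nlinarith
      nlinarith
    · -- `z > x`
      push Not at hE hzx
      have hEr : 1 / ((m + 2 : ℕ) : ℝ) < er := by
        have h2 : er * x ^ (m + 1) ≤ er * x :=
          mul_le_mul_of_nonneg_left (ref_pow1 m (by linarith) hx1.le) h0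
        have h3 : x * (1 / ((m + 2 : ℕ) : ℝ)) < x * er := by
          have : x * (1 / ((m + 2 : ℕ) : ℝ)) = x / ((m + 2 : ℕ) : ℝ) := by ring
          rw [this]
          linarith
        exact lt_of_mul_lt_mul_left h3 (by linarith)
      rw [max_eq_left hEr.le]
      have hx2 : 0 < 1 - x := by linarith
      have hy0 : 0 ≤ (1 - z) / (1 - x) := div_nonneg hzn hx2.le
      have hy1 : (1 - z) / (1 - x) ≤ 1 := by
        rw [div_le_one hx2]
        linarith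
      have hzy : (z - x) / (1 - x) = 1 - (1 - z) / (1 - x) := by
        field_simp
        ring
      have hzy2 : 1 - z = (1 - x) * ((1 - z) / (1 - x)) := by
        field_simp
      have hyz : 1 - z ≤ (1 - z) / (1 - x) := by
        rw [le_div_iff₀ hx2]
        nlinarith
      have hpw : (1 - z) ^ (m + 1) ≤ (1 - x) ^ (m + 1) * ((1 - z) / (1 - x)) := by
        calc (1 - z) ^ (m + 1) = (1 - x) ^ (m + 1) * ((1 - z) / (1 - x)) ^ (m + 1) := by
              rw [← mul_pow, ← hzy2]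
          _ ≤ (1 - x) ^ (m + 1) * ((1 - z) / (1 - x)) :=
              mul_le_mul_of_nonneg_left (ref_pow1 m hy0 hy1) (pow_nonneg hx2.le _)
      have h6 := mul_le_mul_of_nonneg_left hpw h0
      rw [hzy] at h
      have h7 := mul_le_mul_of_nonneg_right hs2 hy0
      have h8 := mul_le_mul_of_nonneg_left hyz hs0
      nlinarith
  · -- the second bound
    have hx3 : 0 < 1 - x / 2 := by linarith
    have hl0 : 0 ≤ (1 - z) / (1 - x / 2) := div_nonneg hzn hx3.le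
    have hl1 : (1 - z) / (1 - x / 2) ≤ 1 := by
      rw [div_le_one hx3]
      linarith
    have hzl : z = ((1 - z) / (1 - x / 2)) * (x / 2) + (1 - (1 - z) / (1 - x / 2)) * 1 := by
      have hx4 : 2 - x ≠ 0 := by linarith
      have hx5 : 1 - x / 2 ≠ 0 := hx3.ne'
      field_simp
      ring
    have hzy : (z - x / 2) / (1 - x / 2) = 1 - (1 - z) / (1 - x / 2) := by
      rw [eq_sub_iff_add_eq, ← add_div, div_eq_one_iff_eq hx3.ne']
      ring
    have hzy2 : 1 - z = (1 - x / 2) * ((1 - z) / (1 - x / 2)) := by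
      rw [mul_div_cancel₀ _ hx3.ne']
    have hyz : 1 - z ≤ (1 - z) / (1 - x / 2) := by
      rw [le_div_iff₀ hx3]
      nlinarith
    have hconv : z ^ (m + 1) ≤ ((1 - z) / (1 - x / 2)) * (x / 2) ^ (m + 1) +
        (1 - (1 - z) / (1 - x / 2)) * 1 := by
      have h5 := (convexOn_pow (m + 1)).2 (x := x / 2) (y := (1 : ℝ))
        (Set.mem_Ici.mpr (by linarith)) (Set.mem_Ici.mpr (by linarith)) hl0
        (sub_nonneg.mpr hl1) (by ring)
      simp only [smul_eq_mul, one_pow] at h5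
      rw [← hzl] at h5
      exact h5
    have hpw : (1 - z) ^ (m + 1) ≤ (1 - x / 2) ^ (m + 1) * ((1 - z) / (1 - x / 2)) := by
      calc (1 - z) ^ (m + 1) = (1 - x / 2) ^ (m + 1) * ((1 - z) / (1 - x / 2)) ^ (m + 1) := by
            rw [← mul_pow, ← hzy2]
        _ ≤ (1 - x / 2) ^ (m + 1) * ((1 - z) / (1 - x / 2)) :=
            mul_le_mul_of_nonneg_left (ref_pow1 m hl0 hl1) (pow_nonneg hx3.le _)
    have hsum : (x / 2) ^ (m + 1) + (1 - x / 2) ^ (m + 1) ≤ (13 / 20) ^ m := by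
      have h5 := ref_pow m (by linarith : 0 ≤ x / 2) (by linarith : x / 2 ≤ 1 - x / 2)
      have h6 : (1 - x / 2) ^ (m + 1) = (1 - x / 2) ^ m * (1 - x / 2) := pow_succ _ _
      have h7 : (1 - x / 2) ^ m * (x / 2) + (1 - x / 2) ^ m * (1 - x / 2) = (1 - x / 2) ^ m := by
        ring
      linarith
    have hfr : (((m + 2 : ℕ) : ℝ) - 1) / ((m + 2 : ℕ) : ℝ) = 1 - 1 / ((m + 2 : ℕ) : ℝ) := by
      field_simp
    rw [hfr, hzy] at h
    have h7 := mul_le_mul_of_nonneg_right hs1 hl0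
    have h8 := mul_le_mul_of_nonneg_left hyz hs0
    have h9 := mul_le_mul_of_nonneg_left hsum hl0
    nlinarith

theorem refF (t : ℕ) (ht : 8 ≤ t) (x er : ℝ) (hx : 7 / 10 ≤ x) (hx1 : x < 1) (h0 : 0 ≤ er)
    (h1 : er ≤ 1) (hc : (t : ℝ) * (er * (x ^ (t - 1) + (1 - x) ^ (t - 1))) < 1) :
    ∃ c2 : ℝ, 0 < c2 ∧ ∀ γ1 : ℝ, 0 < γ1 → γ1 < 1 → ∃ c3 : ℝ, 0 < c3 ∧
      ∀ (ι : Type) (L : Finset ι) (z w : ι → ℝ), (∀ i ∈ L, 0 ≤ z i ∧ z i ≤ 1 - γ1) →
        ∑ i ∈ L, z i ≤ 1 → (∀ i ∈ L, w i ≤ (z i) ^ (t - 1)) →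
        (∀ i ∈ L, z i ≤ x / 2 → w i ≤ er * (z i) ^ (t - 1)) →
        (∀ i ∈ L, x / 2 < z i → w i ≤ max (GG x (er * x ^ (t - 1)) t (z i))
          ((z i) ^ (t - 1) - ((t : ℝ) - 1) / t * ((z i - x / 2) / (1 - x / 2)))) →
        ∑ i ∈ L, w i + 1 / t * (1 - ∑ i ∈ L, z i) ^ (t - 1) ≤
          1 / t - ∑ i ∈ L, (if z i ≤ x / 2 then c2 * z i else c3) := by
  obtain ⟨m, rfl⟩ : ∃ m, t = m + 2 := ⟨t - 2, by omega⟩
  have hm : 6 ≤ m := by omega
  have ht1 : m + 2 - 1 = m + 1 := rfl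
  simp only [ht1] at hc ⊢
  have hT8 : (8 : ℝ) ≤ ((m + 2 : ℕ) : ℝ) := by exact_mod_cast ht
  have hTpos : (0 : ℝ) < ((m + 2 : ℕ) : ℝ) := by linarith
  have hu0 : 0 < 1 / ((m + 2 : ℕ) : ℝ) := by positivity
  have hs : 0 < 1 / ((m + 2 : ℕ) : ℝ) - (13 / 20) ^ m := by
    rw [sub_pos, lt_div_iff₀ hTpos]
    have := ref_num1 m hm
    linarith
  have hδ : 0 < 1 / ((m + 2 : ℕ) : ℝ) - er * x ^ (m + 1) - er * (1 - x) ^ (m + 1) := by
    have h2 : er * (x ^ (m + 1) + (1 - x) ^ (m + 1)) < 1 / ((m + 2 : ℕ) : ℝ) := by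
      rw [lt_div_iff₀ hTpos]
      linarith
    linarith
  have hδ' : 0 < 1 / (2 * ((m + 2 : ℕ) : ℝ)) - (13 / 20) ^ (m + 1) := by
    rw [sub_pos, lt_div_iff₀ (by positivity)]
    have := ref_num2 m hm
    linarith
  obtain ⟨s, hsd⟩ : ∃ s, s = 1 / ((m + 2 : ℕ) : ℝ) - (13 / 20) ^ m := ⟨_, rfl⟩
  obtain ⟨s1, hs1d⟩ : ∃ s1, s1 = min (1 / ((m + 2 : ℕ) : ℝ) - (13 / 20) ^ m)
      (min (1 / ((m + 2 : ℕ) : ℝ) - er * x ^ (m + 1) - er * (1 - x) ^ (m + 1))
        (1 / (2 * ((m + 2 : ℕ) : ℝ)) - (13 / 20) ^ (m + 1))) := ⟨_, rfl⟩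
  have hs0 : 0 < s := by rw [hsd]; exact hs
  have hs10 : 0 < s1 := by rw [hs1d]; exact lt_min hs (lt_min hδ hδ')
  have hsa : s1 ≤ 1 / ((m + 2 : ℕ) : ℝ) - (13 / 20) ^ m := by rw [hs1d]; exact min_le_left _ _
  have hsb : s1 ≤ 1 / ((m + 2 : ℕ) : ℝ) - er * x ^ (m + 1) - er * (1 - x) ^ (m + 1) := by
    rw [hs1d]; exact (min_le_right _ _).trans (min_le_left _ _)
  have hsc : s1 ≤ 1 / (2 * ((m + 2 : ℕ) : ℝ)) - (13 / 20) ^ (m + 1) := by
    rw [hs1d]; exact (min_le_right _ _).trans (min_le_right _ _)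
  clear hs1d
  refine ⟨min s (s1 / 2), lt_min hs0 (by linarith), fun γ1 hγ hγ1 =>
    ⟨min (s * (x / 2)) (s1 * γ1 / 2), lt_min (mul_pos hs0 (by linarith)) (by positivity), ?_⟩⟩
  intro ι L z w hz hZ hw1 hw2 hw3
  have hc2a : min s (s1 / 2) ≤ s := min_le_left _ _
  have hc2b : min s (s1 / 2) ≤ s1 / 2 := min_le_right _ _
  have hc3a : min (s * (x / 2)) (s1 * γ1 / 2) ≤ s * (x / 2) := min_le_left _ _
  have hc3b : min (s * (x / 2)) (s1 * γ1 / 2) ≤ s1 * γ1 / 2 := min_le_right _ _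
  generalize min s (s1 / 2) = c2 at *
  generalize min (s * (x / 2)) (s1 * γ1 / 2) = c3 at *
  have hZ0 : 0 ≤ ∑ i ∈ L, z i := Finset.sum_nonneg fun i hi => (hz i hi).1
  by_cases hall : ∀ i ∈ L, z i ≤ 1 - x / 2
  · have hA : ∑ i ∈ L, w i ≤ (13 / 20) ^ m * ∑ i ∈ L, z i := by
      rw [Finset.mul_sum]
      refine Finset.sum_le_sum fun i hi => (hw1 i hi).trans ?_
      exact ref_pow m (hz i hi).1 ((hall i hi).trans (by linarith))
    have hB : (1 - ∑ i ∈ L, z i) ^ (m + 1) ≤ 1 - ∑ i ∈ L, z i :=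
      ref_pow1 m (by linarith) (by linarith)
    have hC : ∑ i ∈ L, (if z i ≤ x / 2 then c2 * z i else c3) ≤ s * ∑ i ∈ L, z i := by
      rw [Finset.mul_sum]
      refine Finset.sum_le_sum fun i hi => ?_
      split_ifs with h
      · exact mul_le_mul_of_nonneg_right hc2a (hz i hi).1
      · push Not at h
        exact hc3a.trans (mul_le_mul_of_nonneg_left h.le hs0.le)
    have hD := mul_le_mul_of_nonneg_left hB hu0.le
    rw [hsd] at hC
    nlinarith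
  · push Not at hall
    obtain ⟨i, hi, hzi⟩ := hall
    classical
    have hzi1 : z i ≤ 1 - γ1 := (hz i hi).2
    have hsz : ∑ j ∈ L, z j = z i + ∑ j ∈ L.erase i, z j :=
      (Finset.add_sum_erase L z hi).symm
    have hsw : ∑ j ∈ L, w j = w i + ∑ j ∈ L.erase i, w j :=
      (Finset.add_sum_erase L w hi).symm
    have hsf : ∑ j ∈ L, (if z j ≤ x / 2 then c2 * z j else c3) =
        (if z i ≤ x / 2 then c2 * z i else c3) +
          ∑ j ∈ L.erase i, (if z j ≤ x / 2 then c2 * z j else c3) :=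
      (Finset.add_sum_erase L _ hi).symm
    have hlarge : ¬ z i ≤ x / 2 := by
      push Not
      linarith
    rw [if_neg hlarge] at hsf
    have hZ'0 : 0 ≤ ∑ j ∈ L.erase i, z j :=
      Finset.sum_nonneg fun j hj => (hz j (Finset.mem_of_mem_erase hj)).1
    have hoth : ∀ j ∈ L.erase i, 0 ≤ z j ∧ z j ≤ 1 - z i ∧ z j ≤ x / 2 := by
      intro j hj
      have h2 : z j ≤ ∑ j ∈ L.erase i, z j :=
        Finset.single_le_sum (f := z) (fun k hk => (hz k (Finset.mem_of_mem_erase hk)).1) hj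
      exact ⟨(hz j (Finset.mem_of_mem_erase hj)).1, by linarith, by linarith⟩
    have hfo : ∑ j ∈ L.erase i, (if z j ≤ x / 2 then c2 * z j else c3) =
        c2 * ∑ j ∈ L.erase i, z j := by
      rw [Finset.mul_sum]
      exact Finset.sum_congr rfl fun j hj => if_pos (hoth j hj).2.2
    have hclaim := ref_claim m hm x er hx hx1 h0 h1 (z i) (w i) s1 hs10.le hsa hsb hsc
      (by linarith) (by linarith) (hw3 i hi (by linarith))
    have hew : er ≤ max er (1 / ((m + 2 : ℕ) : ℝ)) := le_max_left _ _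
    have heu : 1 / ((m + 2 : ℕ) : ℝ) ≤ max er (1 / ((m + 2 : ℕ) : ℝ)) := le_max_right _ _
    generalize max er (1 / ((m + 2 : ℕ) : ℝ)) = e at *
    have hzn : 0 ≤ 1 - z i := by linarith
    have hA : ∑ j ∈ L.erase i, w j ≤ e * (1 - z i) ^ m * ∑ j ∈ L.erase i, z j := by
      rw [Finset.mul_sum]
      refine Finset.sum_le_sum fun j hj => ?_
      have h2 := hw2 j (Finset.mem_of_mem_erase hj) (hoth j hj).2.2
      have h3 := ref_pow m (hoth j hj).1 (hoth j hj).2.1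
      calc w j ≤ er * z j ^ (m + 1) := h2
        _ ≤ e * z j ^ (m + 1) :=
            mul_le_mul_of_nonneg_right hew (pow_nonneg (hoth j hj).1 _)
        _ ≤ e * ((1 - z i) ^ m * z j) := mul_le_mul_of_nonneg_left h3 (h0.trans hew)
        _ = e * (1 - z i) ^ m * z j := by ring
    have hB : 1 / ((m + 2 : ℕ) : ℝ) * (1 - ∑ j ∈ L, z j) ^ (m + 1) ≤
        e * (1 - z i) ^ m * (1 - ∑ j ∈ L, z j) := by
      have hnn : 0 ≤ 1 - ∑ j ∈ L, z j := by linarith
      have h3 := ref_pow m hnn (by linarith : 1 - ∑ j ∈ L, z j ≤ 1 - z i)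
      calc 1 / ((m + 2 : ℕ) : ℝ) * (1 - ∑ j ∈ L, z j) ^ (m + 1)
          ≤ e * (1 - ∑ j ∈ L, z j) ^ (m + 1) :=
            mul_le_mul_of_nonneg_right heu (pow_nonneg hnn _)
        _ ≤ e * ((1 - z i) ^ m * (1 - ∑ j ∈ L, z j)) :=
            mul_le_mul_of_nonneg_left h3 (h0.trans hew)
        _ = e * (1 - z i) ^ m * (1 - ∑ j ∈ L, z j) := by ring
    have hAB : e * (1 - z i) ^ m * (∑ j ∈ L.erase i, z j) +
        e * (1 - z i) ^ m * (1 - ∑ j ∈ L, z j) = e * (1 - z i) ^ (m + 1) := by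
      rw [hsz, pow_succ]
      ring
    have hg1 : s1 * γ1 ≤ s1 * (1 - z i) := mul_le_mul_of_nonneg_left (by linarith) hs10.le
    have hg2 : c2 * ∑ j ∈ L.erase i, z j ≤ s1 / 2 * (1 - z i) :=
      mul_le_mul hc2b (by linarith) hZ'0 (by linarith)
    rw [hsw, hsf, hfo]
    linarith

end Pool.Agent.H45.KTD
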