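import Pool.Agent.H45.KTD.Macl
import Pool.Agent.H45.KTD.PayRA

/-!
# KTD RefH: the needed payment is below `gR`

`q = R - r ≥ 2` (`2 R < t q`, `t ≤ R + 1`), `P l = C(r, t-1-l) C(q, l) / C(R, t-1)`, `∑_{l = 0}^{t-1} P l = 1` (Vandermonde), `E = P 0`.
`h(b) = ∑_{l ≥ 1} P l b ^ l - (1/t - E) b` is convex on `[0, 1]`, `h(0) = 0`, `h(1) = (t-1)/t`.  Claim `h(b) ≤ ((t-1)/t) g(b)`,
`g(b) = max (κ1 b) (1 - κ2 (1 - b))`, `κ1 = q/(q+1)`, `κ2 = 1 + 1/(10 q)`.
It suffices that `h(1/2) ≤ ((t-1)/t) κ1/2` (note `κ1/2 ≤ 1 - κ2/2`): for `b ≤ 1/2` convexity gives `h(b) ≤ 2 b h(1/2)`, for `b ≥ 1/2`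
`h(b) ≤ (2 - 2 b) h(1/2) + (2 b - 1) h(1)`.  `h(1/2) = ∑_{l ≥ 0} P l 2 ^ (-l) - E/2 - 1/(2t) ≤ T - 1/(2 t)`, `T = ∑_{l ≥ 0} P l 2 ^ (-l)`; so
it suffices that `T ≤ 1/(2t) + ((t-1)/t) q/(2 (q+1))`.
* `q ≥ 4`: the right side is `≥ 2/5`.  `T C(R, t-1) = fe (t-1)` of the vector with `r` ones and `q` entries `1/2`, by `macl` (or directly
  Maclaurin's inequality) `T ≤ (1 - q/(2R)) ^ (t-1) ≤ (1 - 1/t) ^ (t-1) ≤ 2/5` for `t ≥ 8`, since with `n = t - 1 ≥ 7`
  `(1 + 1/n) ^ n ≥ 2 + (n-1)/(2n) + (n-1)(n-2)/(6 n²) ≥ 5/2`.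
* `q = 3` (`2 R < 3 t`): the right side is `≥ 3/8`; multiplied by `8 C(R, t-1)`, `R = r + 3`: the claim is implied by
  `5 C(r,t-1) + 3 C(r,t-2) ≤ 3 C(r,t-3) + 2 C(r,t-4)`; `(t-2) C(r,t-2) = (r-t+3) C(r,t-3)`, `(t-1) C(r,t-1) = (r-t+2) C(r,t-2)`,
  `2 r ≤ 3 t - 7`: `C(r,t-2) ≤ ((t-1)/(2(t-2))) C(r,t-3)`, `C(r,t-1) ≤ ((t-3)/(2(t-1))) C(r,t-2)`, so the left side is at most
  `((11 t - 21)/(4 t - 8)) C(r,t-3) ≤ 3 C(r,t-3)`.  (If `r < t - 1` the binomials are zero.)
* `q = 2` (`R < t`, so `R = t - 1`, `r = t - 3`): only `l = 2` occurs, `T = 1/4 ≤ 1/3`.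
-/

set_option autoImplicit false

open Finset

namespace Pool.Agent.H45.KTD

open Pool.Agent.H11.TD

/-- `(1 + x) ^ n` is at least its Taylor polynomial of degree three -/
private theorem pow_taylor (x : ℝ) (hx : 0 ≤ x) (n : ℕ) :
    1 + n * x + (n : ℝ) * (n - 1) / 2 * x ^ 2 + (n : ℝ) * (n - 1) * (n - 2) / 6 * x ^ 3 ≤
      (1 + x) ^ n := by
  induction n with
  | zero => simp
  | succ n ih =>
    have h0 : 0 ≤ (n : ℝ) * (n - 1) * (n - 2) := by
      rcases Nat.lt_or_ge n 2 with h | h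
      · interval_cases n <;> norm_num
      · have : (2 : ℝ) ≤ n := by exact_mod_cast h
        exact mul_nonneg (mul_nonneg (by linarith) (by linarith)) (by linarith)
    have h1 : (1 + n * x + (n : ℝ) * (n - 1) / 2 * x ^ 2 +
        (n : ℝ) * (n - 1) * (n - 2) / 6 * x ^ 3) * (1 + x) ≤ (1 + x) ^ (n + 1) := by
      rw [pow_succ]
      exact mul_le_mul_of_nonneg_right ih (by linarith)
    refine le_trans ?_ h1
    have h2 : 0 ≤ (n : ℝ) * (n - 1) * (n - 2) / 6 * x ^ 4 := by positivity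
    push_cast
    nlinarith

private theorem euler_bd (n : ℕ) (hn : 7 ≤ n) : ((n : ℝ) / (n + 1)) ^ n ≤ 2 / 5 := by
  have hn7 : (7 : ℝ) ≤ n := by exact_mod_cast hn
  have hn0 : (0 : ℝ) < n := by linarith
  have h1 := pow_taylor (1 / n) (by positivity) n
  have h2 : (5 : ℝ) / 2 ≤ 1 + n * (1 / (n : ℝ)) + (n : ℝ) * (n - 1) / 2 * (1 / n) ^ 2 +
      (n : ℝ) * (n - 1) * (n - 2) / 6 * (1 / n) ^ 3 := by
    have e : 1 + n * (1 / (n : ℝ)) + (n : ℝ) * (n - 1) / 2 * (1 / n) ^ 2 +
      (n : ℝ) * (n - 1) * (n - 2) / 6 * (1 / n) ^ 3 - 5 / 2 =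
        ((n : ℝ) ^ 2 - 6 * n + 2) / (6 * (n : ℝ) ^ 2) := by
      field_simp
      ring
    have h3 : 0 ≤ ((n : ℝ) ^ 2 - 6 * n + 2) / (6 * (n : ℝ) ^ 2) := by
      refine div_nonneg ?_ (by positivity)
      nlinarith
    linarith
  have h3 : (5 : ℝ) / 2 ≤ (1 + 1 / (n : ℝ)) ^ n := h2.trans h1
  have h4 : (n : ℝ) / (n + 1) = (1 + 1 / (n : ℝ))⁻¹ := by
    field_simp
  rw [h4, inv_pow]
  have h5 : ((1 + 1 / (n : ℝ)) ^ n)⁻¹ ≤ (5 / 2 : ℝ)⁻¹ := inv_anti₀ (by norm_num) h3
  refine h5.trans (by norm_num)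

private theorem fe_const {n : ℕ} (s : ℕ) (S : Finset (Fin n)) (v : Fin n → ℝ) (c : ℝ)
    (hv : ∀ i ∈ S, v i = c) : fe s S v = (S.card.choose s : ℝ) * c ^ s := by
  unfold fe
  have h : ∀ T ∈ S.powersetCard s, ∏ i ∈ T, v i = c ^ s := by
    intro T hT
    rw [mem_powersetCard] at hT
    rw [prod_congr rfl (fun i hi => hv i (hT.1 hi)), prod_const, hT.2]
  rw [sum_congr rfl h, sum_const, card_powersetCard, nsmul_eq_mul]

/-- the sum `T` (times the binomial coefficient) -/
private noncomputable def TT (q r n : ℕ) : ℝ :=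
  ∑ l ∈ range (n + 1), (r.choose (n - l) : ℝ) * (q.choose l : ℝ) * (1 / 2) ^ l

private theorem TT_macl (q r n : ℕ) (_h : 1 ≤ r + q) :
    TT q r n ≤ ((r + q).choose n : ℝ) * (((r : ℝ) + q / 2) / (r + q)) ^ n := by
  classical
  set W : Finset (Fin (r + q)) := univ.filter (fun i : Fin (r + q) => r ≤ (i : ℕ)) with hW
  set v : Fin (r + q) → ℝ := fun i => if i ∈ W then 1 / 2 else 1 with hv
  have hWc : Wᶜ = univ.filter (fun i : Fin (r + q) => (i : ℕ) < r) := by
    ext i
    simp [hW]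
  have hc1 : Wᶜ.card = r := by
    rw [hWc, Fin.card_filter_val_lt]
    exact min_eq_right (by omega)
  have hc2 : W.card = q := by
    have h1 := card_add_card_compl W
    rw [Fintype.card_fin, hc1] at h1
    omega
  have hv1 : ∀ i ∈ Wᶜ, v i = 1 := by
    intro i hi
    rw [mem_compl] at hi
    simp only [hv, if_neg hi]
  have hv2 : ∀ i ∈ W, v i = 1 / 2 := by
    intro i hi
    simp only [hv, if_pos hi]
  have h1 : es n v = TT q r n := by
    rw [fe_split n W v, TT]
    refine sum_congr rfl (fun l _ => ?_)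
    rw [fe_const _ _ _ 1 hv1, fe_const _ _ _ (1 / 2) hv2, hc1, hc2, one_pow, mul_one]
    ring
  have h2 : es n v = fe n univ v := rfl
  have hv0 : ∀ i ∈ (univ : Finset (Fin (r + q))), 0 ≤ v i := by
    intro i _
    simp only [hv]
    split_ifs <;> norm_num
  have h3 := macl n univ v hv0
  have h4 : ∑ i, v i = (r : ℝ) + q / 2 := by
    rw [← sum_add_sum_compl W v, sum_congr rfl hv1, sum_congr rfl hv2, sum_const, sum_const,
      hc1, hc2, nsmul_eq_mul, nsmul_eq_mul]
    ring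
  rw [← h1, h2]
  refine h3.trans (le_of_eq ?_)
  rw [card_univ, Fintype.card_fin, h4]
  push_cast
  rfl

private theorem vand (q r n : ℕ) :
    ∑ l ∈ range (n + 1), (r.choose (n - l) : ℝ) * (q.choose l : ℝ) =
      ((r + q).choose n : ℝ) := by
  have h := Nat.add_choose_eq q r n
  rw [Finset.Nat.sum_antidiagonal_eq_sum_range_succ (fun i j => q.choose i * r.choose j) n] at h
  rw [add_comm r q, h]
  push_cast
  exact sum_congr rfl (fun l _ => mul_comm _ _)

/-- the main estimate -/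
private theorem TT_le (r q t : ℕ) (hr : 1 ≤ r) (hq : 1 ≤ q) (ht : 8 ≤ t) (htR : t ≤ r + q + 1)
    (hI : 2 * (r + q) < t * q) :
    TT q r (t - 1) ≤ ((r + q).choose (t - 1) : ℝ) *
      (1 / (2 * t) + ((t : ℝ) - 1) / t * ((q : ℝ) / (2 * (q + 1)))) := by
  have ht8 : (8 : ℝ) ≤ t := by exact_mod_cast ht
  have hN : (0 : ℝ) ≤ ((r + q).choose (t - 1) : ℝ) := Nat.cast_nonneg _
  have hq2 : 2 ≤ q := by
    by_contra h
    have : q = 1 := by omega
    subst this
    omega
  -- lower bound for the right side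
  have hlow : ∀ c : ℝ, c ≤ 1 / 2 → c ≤ (q : ℝ) / (2 * (q + 1)) →
      c ≤ 1 / (2 * t) + ((t : ℝ) - 1) / t * ((q : ℝ) / (2 * (q + 1))) := by
    intro c h1 h2
    have h3 : 0 ≤ ((t : ℝ) - 1) / t := div_nonneg (by linarith) (by linarith)
    have h4 : ((t : ℝ) - 1) / t * c ≤ ((t : ℝ) - 1) / t * ((q : ℝ) / (2 * (q + 1))) :=
      mul_le_mul_of_nonneg_left h2 h3
    have h5 : c = 1 / t * c + ((t : ℝ) - 1) / t * c := by
      field_simp
      ring
    have h6 : 1 / (t : ℝ) * c ≤ 1 / (2 * t) := by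
      have h7 : 1 / (t : ℝ) * c ≤ 1 / t * (1 / 2) :=
        mul_le_mul_of_nonneg_left h1 (by positivity)
      refine h7.trans (le_of_eq ?_)
      field_simp
    linarith
  rcases Nat.lt_or_ge q 4 with hq4 | hq4
  · have hcase : q = 2 ∨ q = 3 := by omega
    rcases hcase with h | h
    · -- q = 2
      subst h
      have hrt : r = t - 3 := by omega
      obtain ⟨s, rfl⟩ : ∃ s, t = s + 3 := ⟨t - 3, by omega⟩
      have hr' : r = s := by omega
      subst hr'
      have e1 : r + 3 - 1 = r + 2 := rfl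
      rw [e1]
      have h1 : TT 2 r (r + 2) ≤ 1 / 4 := by
        unfold TT
        rw [sum_eq_single 2]
        · have e2 : r + 2 - 2 = r := rfl
          rw [e2, Nat.choose_self, Nat.choose_self]
          norm_num
        · intro l hl hne
          rcases Nat.lt_or_ge l 2 with h | h
          · rw [Nat.choose_eq_zero_of_lt (show r < r + 2 - l by omega)]
            simp
          · rw [Nat.choose_eq_zero_of_lt (show 2 < l by omega)]
            simp
        · intro h
          exact absurd (mem_range.2 (by omega)) h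
      rw [Nat.choose_self, Nat.cast_one, one_mul]
      refine h1.trans (hlow (1 / 4) (by norm_num) (by norm_num))
    · -- q = 3
      subst h
      have h38 := hlow (3 / 8) (by norm_num) (by norm_num)
      refine le_trans ?_ (mul_le_mul_of_nonneg_left h38 hN)
      obtain ⟨s, rfl⟩ : ∃ s, t = s + 4 := ⟨t - 4, by omega⟩
      have e1 : s + 4 - 1 = s + 3 := rfl
      rw [e1]
      have hsum : ∀ f : ℕ → ℝ, (∀ l, 3 < l → f l = 0) →
          ∑ l ∈ range (s + 3 + 1), f l = f 0 + f 1 + f 2 + f 3 := by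
        intro f hf
        have h1 : ∑ l ∈ range 4, f l = ∑ l ∈ range (s + 3 + 1), f l := by
          refine sum_subset (range_subset_range.2 (by omega)) ?_
          intro l _ hl
          rw [mem_range] at hl
          exact hf l (by omega)
        rw [← h1]
        simp [sum_range_succ]
      have hT : TT 3 r (s + 3) = (r.choose (s + 3) : ℝ) + 3 / 2 * (r.choose (s + 2) : ℝ) +
          3 / 4 * (r.choose (s + 1) : ℝ) + 1 / 8 * (r.choose s : ℝ) := by
        unfold TT
        rw [hsum]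
        · have e2 : s + 3 - 0 = s + 3 := rfl
          have e3 : s + 3 - 1 = s + 2 := rfl
          have e4 : s + 3 - 2 = s + 1 := rfl
          have e5 : s + 3 - 3 = s := rfl
          have c0 : Nat.choose 3 0 = 1 := rfl
          have c1 : Nat.choose 3 1 = 3 := rfl
          have c2 : Nat.choose 3 2 = 3 := rfl
          have c3 : Nat.choose 3 3 = 1 := rfl
          rw [e2, e3, e4, e5, c0, c1, c2, c3]
          push_cast
          ring
        · intro l hl
          rw [Nat.choose_eq_zero_of_lt hl]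
          simp
      have hNN : ((r + 3).choose (s + 3) : ℝ) = (r.choose (s + 3) : ℝ) +
          3 * (r.choose (s + 2) : ℝ) + 3 * (r.choose (s + 1) : ℝ) + (r.choose s : ℝ) := by
        rw [← vand 3 r (s + 3), hsum]
        · have e2 : s + 3 - 0 = s + 3 := rfl
          have e3 : s + 3 - 1 = s + 2 := rfl
          have e4 : s + 3 - 2 = s + 1 := rfl
          have e5 : s + 3 - 3 = s := rfl
          have c0 : Nat.choose 3 0 = 1 := rfl
          have c1 : Nat.choose 3 1 = 3 := rfl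
          have c2 : Nat.choose 3 2 = 3 := rfl
          have c3 : Nat.choose 3 3 = 1 := rfl
          rw [e2, e3, e4, e5, c0, c1, c2, c3]
          push_cast
          ring
        · intro l hl
          rw [Nat.choose_eq_zero_of_lt hl]
          simp
      rw [hT, hNN]
      have k1 := Nat.choose_succ_right_eq r (s + 1)
      have k2 := Nat.choose_succ_right_eq r (s + 2)
      have e6 : s + 1 + 1 = s + 2 := rfl
      have e7 : s + 2 + 1 = s + 3 := rfl
      rw [e6] at k1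
      rw [e7] at k2
      have m1 : 2 * (r - (s + 1)) ≤ s + 3 := by omega
      have m2 : 2 * (r - (s + 2)) ≤ s + 1 := by omega
      have n1 : 2 * (r.choose (s + 2) * (s + 2)) ≤ r.choose (s + 1) * (s + 3) := by
        rw [k1]
        calc 2 * (r.choose (s + 1) * (r - (s + 1)))
            = r.choose (s + 1) * (2 * (r - (s + 1))) := by ring
          _ ≤ _ := Nat.mul_le_mul_left _ m1
      have n2 : 2 * (r.choose (s + 3) * (s + 3)) ≤ r.choose (s + 2) * (s + 1) := by
        rw [k2]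
        calc 2 * (r.choose (s + 2) * (r - (s + 2)))
            = r.choose (s + 2) * (2 * (r - (s + 2))) := by ring
          _ ≤ _ := Nat.mul_le_mul_left _ m2
      have n1' : 2 * ((r.choose (s + 2) : ℝ) * (s + 2)) ≤ (r.choose (s + 1) : ℝ) * (s + 3) := by
        exact_mod_cast n1
      have n2' : 2 * ((r.choose (s + 3) : ℝ) * (s + 3)) ≤ (r.choose (s + 2) : ℝ) * (s + 1) := by
        exact_mod_cast n2
      set x3 : ℝ := (r.choose (s + 3) : ℝ) with hx3
      set x2 : ℝ := (r.choose (s + 2) : ℝ) with hx2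
      set x1 : ℝ := (r.choose (s + 1) : ℝ) with hx1
      have hs0 : (0 : ℝ) ≤ s := Nat.cast_nonneg s
      have p3 : 0 ≤ x3 := Nat.cast_nonneg _
      have p2 : 0 ≤ x2 := Nat.cast_nonneg _
      have p1 : 0 ≤ x1 := Nat.cast_nonneg _
      have p0 : (0 : ℝ) ≤ (r.choose s : ℝ) := Nat.cast_nonneg _
      have b2 : x2 ≤ (s + 3) / (2 * (s + 2)) * x1 := by
        rw [div_mul_eq_mul_div, le_div_iff₀ (by positivity)]
        linarith
      have b3 : x3 ≤ (s + 1) / (2 * (s + 3)) * x2 := by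
        rw [div_mul_eq_mul_div, le_div_iff₀ (by positivity)]
        linarith
      have b4 : x3 ≤ (s + 1) / (4 * (s + 2)) * x1 := by
        refine b3.trans ?_
        have h1 : ((s : ℝ) + 1) / (2 * (s + 3)) * x2 ≤
            (s + 1) / (2 * (s + 3)) * ((s + 3) / (2 * (s + 2)) * x1) :=
          mul_le_mul_of_nonneg_left b2 (by positivity)
        refine h1.trans (le_of_eq ?_)
        field_simp
        ring
      have b5 : 5 * x3 + 3 * x2 ≤ 3 * x1 := by
        have h1 : 5 * ((s + 1) / (4 * (s + 2)) * x1) + 3 * ((s + 3) / (2 * (s + 2)) * x1) ≤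
            3 * x1 := by
          have h2 : 5 * (((s : ℝ) + 1) / (4 * (s + 2)) * x1) +
              3 * ((s + 3) / (2 * (s + 2)) * x1) = (11 * s + 23) / (4 * (s + 2)) * x1 := by
            field_simp
            ring
          rw [h2]
          refine mul_le_mul_of_nonneg_right ?_ p1
          rw [div_le_iff₀ (by positivity)]
          linarith
        linarith
      linarith
  · -- q ≥ 4
    have hq4' : (4 : ℝ) ≤ q := by exact_mod_cast hq4
    have h25 := hlow (2 / 5) (by norm_num) (by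
      rw [le_div_iff₀ (by positivity)]
      linarith)
    refine le_trans ?_ (mul_le_mul_of_nonneg_left h25 hN)
    refine (TT_macl q r (t - 1) (by omega)).trans (mul_le_mul_of_nonneg_left ?_ hN)
    obtain ⟨n, rfl⟩ : ∃ n, t = n + 1 := ⟨t - 1, by omega⟩
    rw [Nat.add_sub_cancel]
    refine le_trans ?_ (euler_bd n (by omega))
    refine pow_le_pow_left₀ (by positivity) ?_ n
    have hr1 : (1 : ℝ) ≤ r := by exact_mod_cast hr
    have hI' : 2 * ((r : ℝ) + q) < ((n : ℝ) + 1) * q := by exact_mod_cast hI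
    rw [div_le_div_iff₀ (by positivity) (by positivity)]
    nlinarith

private theorem pow_conv (b : ℝ) (hb : 1 / 2 ≤ b) (hb1 : b ≤ 1) (l : ℕ) (hl : 1 ≤ l) :
    b ^ l ≤ (2 - 2 * b) * (1 / 2) ^ l + (2 * b - 1) := by
  induction l, hl using Nat.le_induction with
  | base => linarith
  | succ l _ ih =>
    have h1 : b ^ (l + 1) ≤ ((2 - 2 * b) * (1 / 2) ^ l + (2 * b - 1)) * b := by
      rw [pow_succ]
      exact mul_le_mul_of_nonneg_right ih (by linarith)
    refine h1.trans ?_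
    have h2 : ((1 : ℝ) / 2) ^ l ≤ 1 := pow_le_one₀ (by norm_num) (by norm_num)
    have h3 : 0 ≤ (2 * b - 1) * (1 - b) * (1 - (1 / 2) ^ l) :=
      mul_nonneg (mul_nonneg (by linarith) (by linarith)) (by linarith)
    rw [pow_succ]
    nlinarith

theorem refH (R r t : ℕ) (hr : 1 ≤ r) (hrR : r < R) (ht : 8 ≤ t) (htR : t ≤ R + 1)
    (hI : 2 * R < t * (R - r)) (b : ℝ) (hb0 : 0 ≤ b) (hb1 : b ≤ 1) :
    ∑ l ∈ Icc 1 (t - 1), (r.choose (t - 1 - l) : ℝ) * ((R - r).choose l : ℝ) /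
        (R.choose (t - 1) : ℝ) * b ^ l ≤
      ((t : ℝ) - 1) / t * gR R r b +
        (1 / t - (r.choose (t - 1) : ℝ) / (R.choose (t - 1) : ℝ)) * b := by
  obtain ⟨q, rfl⟩ : ∃ q, R = r + q := ⟨R - r, by omega⟩
  rw [Nat.add_sub_cancel_left] at hI ⊢
  have hq : 1 ≤ q := by omega
  have hq' : (1 : ℝ) ≤ q := by exact_mod_cast hq
  have ht8 : (8 : ℝ) ≤ t := by exact_mod_cast ht
  have hmain := TT_le r q t hr hq ht htR hI
  set n := t - 1 with hn
  have hNpos : (0 : ℝ) < ((r + q).choose n : ℝ) := by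
    exact_mod_cast Nat.choose_pos (show n ≤ r + q by omega)
  set N : ℝ := ((r + q).choose n : ℝ) with hN
  set c0 : ℝ := (r.choose n : ℝ) with hc0
  have hc00 : 0 ≤ c0 := Nat.cast_nonneg _
  have hsplit : ∀ f : ℕ → ℝ, ∑ l ∈ range (n + 1), f l = f 0 + ∑ l ∈ Icc 1 n, f l := by
    intro f
    have h1 : range (n + 1) = insert 0 (Icc 1 n) := by
      ext l
      simp only [mem_range, mem_insert, mem_Icc]
      omega
    rw [h1, sum_insert]
    simp
  have hS1 : ∑ l ∈ Icc 1 n, (r.choose (n - l) : ℝ) * (q.choose l : ℝ) = N - c0 := by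
    have h1 := vand q r n
    rw [hsplit] at h1
    simp only [Nat.sub_zero, Nat.choose_zero_right, Nat.cast_one, mul_one] at h1
    linarith
  have hS2 : ∑ l ∈ Icc 1 n, (r.choose (n - l) : ℝ) * (q.choose l : ℝ) * (1 / 2) ^ l =
      TT q r n - c0 := by
    unfold TT
    rw [hsplit]
    simp only [Nat.sub_zero, Nat.choose_zero_right, Nat.cast_one, mul_one, pow_zero]
    ring
  set κ : ℝ := (q : ℝ) / (q + 1) with hκ
  have hκ0 : 0 ≤ κ := by positivity
  have hκ2 : (q : ℝ) / (2 * (q + 1)) = κ / 2 := by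
    rw [hκ]
    field_simp
  rw [hκ2] at hmain
  set τ : ℝ := TT q r n / N with hτ
  have hTN : TT q r n = τ * N := by
    rw [hτ]
    field_simp
  have hτle : τ ≤ 1 / (2 * t) + ((t : ℝ) - 1) / t * (κ / 2) := by
    rw [hτ, div_le_iff₀ hNpos]
    linarith
  have hcast : ((r + q : ℕ) : ℝ) - r = q := by
    push_cast
    ring
  set e : ℝ := c0 / N with he
  have he0 : 0 ≤ e := div_nonneg hc00 hNpos.le
  have hc0e : c0 = e * N := by
    rw [he]
    field_simp
  have hpull : ∀ g : ℕ → ℝ, ∑ l ∈ Icc 1 n, (r.choose (n - l) : ℝ) * (q.choose l : ℝ) / N * g l =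
      (∑ l ∈ Icc 1 n, (r.choose (n - l) : ℝ) * (q.choose l : ℝ) * g l) / N := by
    intro g
    rw [sum_div]
    exact sum_congr rfl (fun l _ => by ring)
  rw [hpull]
  set w : ℝ := ((t : ℝ) - 1) / t with hw
  have hw0 : 0 ≤ w := div_nonneg (by linarith) (by linarith)
  have hw1 : 1 / (t : ℝ) = 1 - w := by
    rw [hw]
    field_simp
    ring
  have hw2 : 1 / (2 * (t : ℝ)) = (1 - w) / 2 := by
    rw [← hw1]
    field_simp
  rw [hw2] at hτle
  rw [hw1]
  rcases le_total b (1 / 2) with hb | hb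
  · have hg : κ * b ≤ gR (r + q) r b := by
      unfold gR
      rw [hcast]
      exact le_max_left _ _
    have h1 : ∑ l ∈ Icc 1 n, (r.choose (n - l) : ℝ) * (q.choose l : ℝ) * b ^ l ≤
        2 * b * (TT q r n - c0) := by
      rw [← hS2, mul_sum]
      refine sum_le_sum (fun l hl => ?_)
      rw [mem_Icc] at hl
      obtain ⟨l', rfl⟩ : ∃ l', l = l' + 1 := ⟨l - 1, by omega⟩
      have h2 : b ^ l' ≤ (1 / 2) ^ l' := pow_le_pow_left₀ hb0 hb _
      have h3 : b ^ (l' + 1) ≤ 2 * b * (1 / 2) ^ (l' + 1) := by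
        rw [pow_succ, pow_succ]
        nlinarith
      have h4 : (0 : ℝ) ≤ (r.choose (n - (l' + 1)) : ℝ) * (q.choose (l' + 1) : ℝ) := by
        positivity
      calc (r.choose (n - (l' + 1)) : ℝ) * (q.choose (l' + 1) : ℝ) * b ^ (l' + 1)
          ≤ (r.choose (n - (l' + 1)) : ℝ) * (q.choose (l' + 1) : ℝ) *
            (2 * b * (1 / 2) ^ (l' + 1)) := mul_le_mul_of_nonneg_left h3 h4
        _ = _ := by ring
    have h2 : (∑ l ∈ Icc 1 n, (r.choose (n - l) : ℝ) * (q.choose l : ℝ) * b ^ l) / N ≤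
        2 * b * (τ - e) := by
      rw [div_le_iff₀ hNpos]
      refine h1.trans (le_of_eq ?_)
      rw [hTN, hc0e]
      ring
    refine h2.trans ?_
    have h3 : w * (κ * b) ≤ w * gR (r + q) r b := mul_le_mul_of_nonneg_left hg hw0
    have h4 : 2 * b * τ ≤ 2 * b * ((1 - w) / 2 + w * (κ / 2)) :=
      mul_le_mul_of_nonneg_left hτle (by linarith)
    have h5 : 0 ≤ e * b := mul_nonneg he0 hb0
    nlinarith
  · have hg : 1 - (1 + 1 / (10 * (q : ℝ))) * (1 - b) ≤ gR (r + q) r b := by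
      unfold gR
      rw [hcast]
      exact le_max_right _ _
    have h1 : ∑ l ∈ Icc 1 n, (r.choose (n - l) : ℝ) * (q.choose l : ℝ) * b ^ l ≤
        (2 - 2 * b) * (TT q r n - c0) + (2 * b - 1) * (N - c0) := by
      rw [← hS2, ← hS1, mul_sum, mul_sum, ← sum_add_distrib]
      refine sum_le_sum (fun l hl => ?_)
      rw [mem_Icc] at hl
      have h3 := pow_conv b hb hb1 l hl.1
      have h4 : (0 : ℝ) ≤ (r.choose (n - l) : ℝ) * (q.choose l : ℝ) := by positivity
      calc (r.choose (n - l) : ℝ) * (q.choose l : ℝ) * b ^ l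
          ≤ (r.choose (n - l) : ℝ) * (q.choose l : ℝ) *
            ((2 - 2 * b) * (1 / 2) ^ l + (2 * b - 1)) := mul_le_mul_of_nonneg_left h3 h4
        _ = _ := by ring
    have h2 : (∑ l ∈ Icc 1 n, (r.choose (n - l) : ℝ) * (q.choose l : ℝ) * b ^ l) / N ≤
        (2 - 2 * b) * (τ - e) + (2 * b - 1) * (1 - e) := by
      rw [div_le_iff₀ hNpos]
      refine h1.trans (le_of_eq ?_)
      rw [hTN, hc0e]
      ring
    refine h2.trans ?_
    have h3 := mul_le_mul_of_nonneg_left hg hw0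
    have h4 : (2 - 2 * b) * τ ≤ (2 - 2 * b) * ((1 - w) / 2 + w * (κ / 2)) :=
      mul_le_mul_of_nonneg_left hτle (by linarith)
    have h5 : 0 ≤ e * (1 - b) := mul_nonneg he0 (by linarith)
    have h6 : κ + 1 / (10 * (q : ℝ)) ≤ 1 := by
      rw [hκ]
      have h7 : 1 - (q : ℝ) / (q + 1) = 1 / (q + 1) := by
        field_simp
        ring
      have h8 : 1 / (10 * (q : ℝ)) ≤ 1 / (q + 1) := by
        refine one_div_le_one_div_of_le (by positivity) ?_
        linarith
      linarith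
    have h7 : 0 ≤ w * ((1 - b) * (1 - (κ + 1 / (10 * (q : ℝ))))) :=
      mul_nonneg hw0 (mul_nonneg (by linarith) (by linarith))
    nlinarith

end Pool.Agent.H45.KTD
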