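import Pool.Agent.H45.KTD.EsAB
import Pool.Agent.H45.KTD.RefH
import Pool.Agent.H45.KTD.RefF
import Pool.Agent.H45.KTD.PSp

/-!
# KTD PayRB: the refined payment, side of the outside vertex

`D = R m + r`, `x = r/R ≥ 7/10`, `q = R - r`, `ch = C(R, t-1)`, `E = C(r, t-1)/ch`, `er = E / x ^ (t-1)`.  `hc` says
`t er (x ^ (t-1) + (1-x) ^ (t-1)) < 1`; `er ≤ 1` (`C(r, s)/C(R, s) = ∏ (r - i)/(R - i) ≤ (r/R) ^ s`; or `macl` for a 0-1 vector).
For `V ∈ L` (index `i` of `PayB`): `U = ∑ j, u j`, `z = zet = U/D ≤ 1 - γ1`, `γ1 = γ/(2R)`; `v = (R/D) u`: `VecE R 1 ε v`, `ε = 6 R η`;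
`a, b` from `es_ab` (`s = t - 1`), `b = tau v / q = bet` (`tau_mul`), `x a + (1 - x) b = z`, `b ≤ 1` (from `tau_vec` as in PayRA (iv)).
`(D/R) ^ (t-1) ≤ m ^ (t-1) (1 + C/m)`, `1/m ≤ η`.  With `val = (k - ψ)/(ch m ^ (t-1))` (`AA = ch (t-1)/t`, so
`ψ/(ch m ^ (t-1)) = ((t-1)/t) φ`), `P l` as in RefH, `es_mul`:
`k ≤ ch (D/R) ^ (t-1) z ^ (t-1)` and `k ≤ (D/R) ^ (t-1) (ch (E a ^ (t-1) + ∑_{l ≥ 1} P l a ^ (t-1-l) b ^ l) + C ε R z)`.
* small (`z ≤ x/2`): `a ≤ z/x ≤ 1/2`, `b ≤ a + ε ≤ 13/25`, `∑_{l ≥ 1} P l a ^ (t-1-l) b ^ l ≤ b (1/2 + ε) ^ (t-2) ≤ b/50`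
  (`(13/25) ^ 6 ≤ 1/50`), and `((t-1)/t) φ ≥ (7/8) b/10`; so `val ≤ E a ^ (t-1) + C' η z ≤ er z ^ (t-1) + C' η z`, also
  `val ≤ z ^ (t-1) + C' η z`.
* large: `a ≤ 1 + ε`: `∑_{l ≥ 1} P l a ^ (t-1-l) b ^ l ≤ (1 + C ε) ∑_{l ≥ 1} P l b ^ l`.  If `gR b ≤ (z - x/2)/(1 - x/2)`: `refH` gives
  `val ≤ E a ^ (t-1) + (1/t - E) b + C' η ≤ GG z + C' η` (`refG`); otherwise `φ = (z - x/2)/(1 - x/2)`,
  `val ≤ z ^ (t-1) - ((t-1)/t)(z - x/2)/(1 - x/2) + C' η`; and always `val ≤ z ^ (t-1) + C' η` (`ψ ≥ 0`).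
Put `w = val - C' η z` (small) resp. `val - C' η` (large) and apply `refF` (`c2, c3`; `c2` does not depend on `γ`):
`∑ val + (1/t)(1 - Z) ^ (t-1) - 1/t ≤ - ∑ σ + ∑ errors`.  `h/D ≤ 1 - Z`, `PL ≥ ch m ^ (t-1)/t`.
Small: errors `C' η z + e/(ch m ^ (t-1))`, `e ≤ C3 γ m ^ (t-2) U ≤ C3 (R + 1) γ m ^ (t-1) z`: at most `(c2/2) z` for `γ ≤ γ0`, `η ≤ η0`.
Large: errors `C' η + (C3 √η + C2 η)/ch ≤ c3/2` for `η ≤ η0(γ)`.  The rest as in PaySB.
-/

set_option autoImplicit false

open Finset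

namespace Pool.Agent.H45.KTD

open Pool.Agent.H11.TD

private theorem PayRB_pow (n : ℕ) (y : ℝ) (h0 : 0 ≤ y) (h1 : y ≤ 1) : (1 + y) ^ n ≤ 1 + 2 ^ n * y := by
  have h : (1 + y) ^ n ≤ 1 + (2 ^ n - 1) * y := by
    induction n with
    | zero => simp
    | succ n ih =>
      have h2 : (1 : ℝ) ≤ 2 ^ n := one_le_pow₀ (by norm_num)
      rw [pow_succ, pow_succ]
      calc (1 + y) ^ n * (1 + y) ≤ (1 + (2 ^ n - 1) * y) * (1 + y) :=
            mul_le_mul_of_nonneg_right ih (by linarith)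
        _ ≤ 1 + (2 ^ n * 2 - 1) * y := by
            have h3 : y * y ≤ y := by nlinarith
            nlinarith [mul_le_mul_of_nonneg_left h3 (show (0 : ℝ) ≤ 2 ^ n - 1 by linarith)]
  nlinarith

private theorem PayRB_powm (n : ℕ) (m x : ℝ) (hm : 1 ≤ m) (hx0 : 0 ≤ x) (hx1 : x ≤ 1) :
    (m + x) ^ n ≤ m ^ n * (1 + 2 ^ n / m) := by
  have hm0 : 0 < m := by linarith
  have e : m + x = m * (1 + x / m) := by field_simp
  rw [e, mul_pow]
  apply mul_le_mul_of_nonneg_left _ (by positivity)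
  have h1 : x / m ≤ 1 / m := div_le_div_of_nonneg_right hx1 hm0.le
  have h2 : 1 / m ≤ 1 := by
    rw [div_le_one hm0]
    exact hm
  refine le_trans (PayRB_pow n (x / m) (by positivity) (by linarith)) ?_
  have h3 : (2 : ℝ) ^ n * (x / m) ≤ 2 ^ n * (1 / m) := mul_le_mul_of_nonneg_left h1 (by positivity)
  have h4 : (2 : ℝ) ^ n * (1 / m) = 2 ^ n / m := by ring
  linarith

private theorem PayRB_choose (R r : ℕ) (hrR : r ≤ R) (s : ℕ) :
    r.choose s * R ^ s ≤ R.choose s * r ^ s := by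
  induction s with
  | zero => simp
  | succ s ih =>
    have h1 := Nat.choose_succ_right_eq r s
    have h2 := Nat.choose_succ_right_eq R s
    have h3 : (r - s) * R ≤ (R - s) * r := by
      rcases Nat.lt_or_ge r s with h | h
      · have : r - s = 0 := by omega
        rw [this]
        simp
      · rw [Nat.sub_mul, Nat.sub_mul]
        have e : r * R = R * r := Nat.mul_comm _ _
        rw [e]
        apply Nat.sub_le_sub_left
        exact Nat.mul_le_mul_left s hrR
    have h4 : (s + 1) * (r.choose (s + 1) * R ^ (s + 1)) ≤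
        (s + 1) * (R.choose (s + 1) * r ^ (s + 1)) := by
      calc (s + 1) * (r.choose (s + 1) * R ^ (s + 1)) =
            (r.choose (s + 1) * (s + 1)) * R ^ (s + 1) := by ring
        _ = (r.choose s * R ^ s) * ((r - s) * R) := by rw [h1]; ring
        _ ≤ (R.choose s * r ^ s) * ((R - s) * r) := Nat.mul_le_mul ih h3
        _ = (R.choose (s + 1) * (s + 1)) * r ^ (s + 1) := by rw [h2]; ring
        _ = (s + 1) * (R.choose (s + 1) * r ^ (s + 1)) := by ring
    exact Nat.le_of_mul_le_mul_left h4 (Nat.succ_pos s)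

/-- facts on `er` -/
private theorem PayRB_er (R r t : ℕ) (hr : 1 ≤ r) (hrR : r < R) (ht : 8 ≤ t)
    (htR : t ≤ R + 1) (hc : t * r.choose (t - 1) * (r ^ (t - 1) + (R - r) ^ (t - 1)) <
      R.choose (t - 1) * r ^ (t - 1)) :
    0 < (R.choose (t - 1) : ℝ) ∧
    0 ≤ (r.choose (t - 1) : ℝ) / (R.choose (t - 1) : ℝ) / ((r : ℝ) / R) ^ (t - 1) ∧
    (r.choose (t - 1) : ℝ) / (R.choose (t - 1) : ℝ) / ((r : ℝ) / R) ^ (t - 1) ≤ 1 ∧
    (t : ℝ) * ((r.choose (t - 1) : ℝ) / (R.choose (t - 1) : ℝ) / ((r : ℝ) / R) ^ (t - 1) *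
      (((r : ℝ) / R) ^ (t - 1) + (1 - (r : ℝ) / R) ^ (t - 1))) < 1 := by
  have hch : 0 < (R.choose (t - 1) : ℝ) := by
    exact_mod_cast Nat.choose_pos (by omega)
  have hr0 : (0 : ℝ) < r := by exact_mod_cast hr
  have hR0 : (0 : ℝ) < R := by
    have : 0 < R := by omega
    exact_mod_cast this
  have hrn : (0 : ℝ) < (r : ℝ) ^ (t - 1) := by positivity
  have hRn : (0 : ℝ) < (R : ℝ) ^ (t - 1) := by positivity
  refine ⟨hch, by positivity, ?_, ?_⟩
  · rw [div_pow, div_div, div_le_one (by positivity)]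
    rw [mul_div_assoc', le_div_iff₀ hRn]
    exact_mod_cast PayRB_choose R r hrR.le (t - 1)
  · have h1 : (t : ℝ) * r.choose (t - 1) * ((r : ℝ) ^ (t - 1) + ((R : ℝ) - r) ^ (t - 1)) <
        (R.choose (t - 1) : ℝ) * (r : ℝ) ^ (t - 1) := by
      have h2 : ((t * r.choose (t - 1) * (r ^ (t - 1) + (R - r) ^ (t - 1)) : ℕ) : ℝ) <
        ((R.choose (t - 1) * r ^ (t - 1) : ℕ) : ℝ) := by exact_mod_cast hc
      push_cast [Nat.cast_sub hrR.le] at h2
      exact h2
    have e1 : 1 - (r : ℝ) / R = ((R : ℝ) - r) / R := by field_simp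
    rw [e1, div_pow, div_pow]
    have e2 : (t : ℝ) * ((r.choose (t - 1) : ℝ) / (R.choose (t - 1) : ℝ) /
        ((r : ℝ) ^ (t - 1) / (R : ℝ) ^ (t - 1)) *
        ((r : ℝ) ^ (t - 1) / (R : ℝ) ^ (t - 1) + ((R : ℝ) - r) ^ (t - 1) / (R : ℝ) ^ (t - 1))) =
        ((t : ℝ) * r.choose (t - 1) * ((r : ℝ) ^ (t - 1) + ((R : ℝ) - r) ^ (t - 1))) /
          ((R.choose (t - 1) : ℝ) * (r : ℝ) ^ (t - 1)) := by
      field_simp
    rw [e2, div_lt_one (by positivity)]
    exact h1

private theorem PayRB_vand (R r n : ℕ) (hrR : r ≤ R) :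
    ∑ l ∈ range (n + 1), (r.choose (n - l) : ℝ) * ((R - r).choose l : ℝ) = (R.choose n : ℝ) := by
  have h := Nat.add_choose_eq (R - r) r n
  rw [Nat.sub_add_cancel hrR, Finset.Nat.sum_antidiagonal_eq_sum_range_succ
    (fun i j => (R - r).choose i * r.choose j)] at h
  rw [h]
  push_cast
  apply sum_congr rfl
  intro l _
  ring

private theorem PayRB_split (n : ℕ) (f : ℕ → ℝ) :
    ∑ l ∈ range (n + 1), f l = f 0 + ∑ l ∈ Icc 1 n, f l := by
  rw [Finset.range_eq_Ico, Finset.sum_eq_sum_Ico_succ_bot (Nat.succ_pos n)]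
  congr 1


/-- basic data of a vector -/
private theorem PayRB_ab (R r n : ℕ) (hR : 4 ≤ R) (hr : 1 ≤ r) (hrR : r < R) (hn : 7 ≤ n) :
    ∃ C : ℝ, 0 < C ∧ ∀ (m : ℕ) (γ η : ℝ), Par R r m γ η → 2 ^ n * η ≤ 1 → 300 * R * η ≤ 1 →
      ∀ u : Fin (R + 1) → ℝ, Vec R m γ η u → ∃ a b : ℝ, b = bet R r m u ∧ 0 ≤ a ∧ 0 ≤ b ∧
        b ≤ 1 ∧ b ≤ a + 6 * R * η ∧ a ≤ 1 + 6 * R * η ∧
        (r : ℝ) / R * a + (1 - (r : ℝ) / R) * b = zet R r m u ∧
        es n u ≤ (((R : ℝ) * m + r) / R) ^ n *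
          (∑ l ∈ range (n + 1), (r.choose (n - l) : ℝ) * ((R - r).choose l : ℝ) *
          a ^ (n - l) * b ^ l + C * η * zet R r m u) := by
  obtain ⟨C, hC, hes⟩ := es_ab R r n hr hrR (by omega)
  have hR0 : (0 : ℝ) < R := by
    have : 0 < R := by omega
    exact_mod_cast this
  have hr0 : (0 : ℝ) < r := by exact_mod_cast hr
  have hrR' : (r : ℝ) < R := by exact_mod_cast hrR
  refine ⟨C * (6 * R) * R, by positivity, ?_⟩
  intro m γ η hP h2 h300 u hu
  have hη := hP.hη
  have hm1 := hP.hm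
  have hη1 : η ≤ 1 := by
    have h4 : (1 : ℝ) ≤ 2 ^ n := one_le_pow₀ (by norm_num)
    have h5 := mul_le_mul_of_nonneg_right h4 hη.le
    linarith
  have hRη : 0 < (R : ℝ) * η := mul_pos hR0 hη
  have hm0 : (0 : ℝ) < m := by
    rcases Nat.eq_zero_or_pos m with h | h
    · rw [h] at hm1
      simp at hm1
      linarith
    · exact_mod_cast h
  set D : ℝ := (R : ℝ) * m + r with hD
  have hD0 : 0 < D := by positivity
  have hRm : (R : ℝ) * m ≤ D := by rw [hD]; linarith
  set v : Fin (R + 1) → ℝ := fun i => R / D * u i with hv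
  have hRD0 : 0 ≤ (R : ℝ) / D := by positivity
  have hRDm : (R : ℝ) / D * m ≤ 1 := by
    rw [div_mul_eq_mul_div, div_le_one hD0]
    exact hRm
  have hε : 6 * (R : ℝ) * η ≤ 1 := by linarith
  have hε0 : 0 ≤ 6 * (R : ℝ) * η := by positivity
  have hvE : VecE R 1 (6 * R * η) v := by
    refine ⟨fun i => mul_nonneg hRD0 (hu.nn i), fun i => ?_, ?_⟩
    · calc (R : ℝ) / D * u i ≤ R / D * ((1 + 5 * R * η) * m) :=
            mul_le_mul_of_nonneg_left (hu.le i) hRD0
        _ = (R / D * m) * (1 + 5 * R * η) := by ring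
        _ ≤ 1 * (1 + 5 * R * η) := mul_le_mul_of_nonneg_right hRDm (by positivity)
        _ ≤ (1 + 6 * R * η) * 1 := by linarith
    · obtain ⟨i, hi⟩ := hu.zero
      refine ⟨i, ?_⟩
      calc (R : ℝ) / D * u i ≤ R / D * (6 * R * η * m) := mul_le_mul_of_nonneg_left hi hRD0
        _ = (R / D * m) * (6 * R * η) := by ring
        _ ≤ 1 * (6 * R * η) := mul_le_mul_of_nonneg_right hRDm hε0
        _ = 6 * R * η * 1 := by ring
  obtain ⟨a, b, hb0, hba, ha1, hbt, hab, hesv⟩ := hes (6 * R * η) v hε0 hε hvE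
  have htau : tau R r v = R / D * tau R r u := tau_mul u (R / D) hRD0
  have hbet : b = bet R r m u := by
    rw [hbt, htau]
    unfold bet
    rw [← hD]
    have h1 : (R : ℝ) - r ≠ 0 := by linarith
    field_simp
  have hsum : ∑ i, v i = R * zet R r m u := by
    rw [hv]
    simp only
    rw [← mul_sum]
    unfold zet
    rw [← hD]
    ring
  have hq : (0 : ℝ) < (R : ℝ) - r := by linarith
  have hcomb : (r : ℝ) / R * a + (1 - (r : ℝ) / R) * b = zet R r m u := by
    have h1 : (r : ℝ) / R * a + (1 - (r : ℝ) / R) * b = (r * a + ((R : ℝ) - r) * b) / R := by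
      field_simp
    rw [h1, hab, hsum]
    field_simp
  have ha0 : 0 ≤ a := by
    have h1 : tau R r v ≤ ∑ i, v i := by
      obtain ⟨W, _, hW2, _⟩ := tau_ex R r v
      rw [hW2]
      exact sum_le_sum_of_subset_of_nonneg (subset_univ _) (fun i _ _ => hvE.nn i)
    have h2 : ((R : ℝ) - r) * b = tau R r v := by
      rw [hbt]
      field_simp
    have h3 : 0 ≤ (r : ℝ) * a := by linarith
    exact nonneg_of_mul_nonneg_right h3 hr0
  have hb1 : b ≤ 1 := by
    have h1 := tau_vec (R := R) (r := r) (m := m) (γ := γ) (η := η) (by omega) hrR.le u hu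
    have h2 := hu.sum
    have h3 : ((R : ℝ) - r) * b = R / D * tau R r u := by
      rw [hbt, htau]
      field_simp
    have htau0 : 0 ≤ tau R r u := tau_nn u hu.nn
    have h4 : R / D ≤ 1 / m := by
      rw [div_le_div_iff₀ hD0 hm0]
      linarith
    have h5 : ((R : ℝ) - r) * b ≤ 1 / m * tau R r u := by
      rw [h3]
      exact mul_le_mul_of_nonneg_right h4 htau0
    have h6 : ((R : ℝ) - r) / R * ∑ i, u i ≤ ((R : ℝ) - r) / R * ((R - γ / 2) * m) :=
      mul_le_mul_of_nonneg_left h2 (by positivity)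
    have h7 : 1 / (m : ℝ) * tau R r u ≤ 6 * R * η + ((R : ℝ) - r) / R * (R - γ / 2) := by
      rw [one_div, inv_mul_le_iff₀ hm0]
      calc tau R r u ≤ 6 * R * η * m + ((R : ℝ) - r) / R * ((R - γ / 2) * m) := by linarith
        _ = m * (6 * R * η + ((R : ℝ) - r) / R * (R - γ / 2)) := by ring
    have h8 : ((R : ℝ) - r) / R * (R - γ / 2) = ((R : ℝ) - r) - ((R : ℝ) - r) * γ / (2 * R) := by
      field_simp
    have hq1 : (1 : ℝ) ≤ (R : ℝ) - r := by
      have : r + 1 ≤ R := hrR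
      have h' : ((r + 1 : ℕ) : ℝ) ≤ (R : ℝ) := by exact_mod_cast this
      push_cast at h'
      linarith
    have h9 : 6 * (R : ℝ) * η ≤ ((R : ℝ) - r) * γ / (2 * R) := by
      rw [le_div_iff₀ (by positivity)]
      have h10 := hP.hη'
      have h11 := hP.hγ
      have h12 : γ ≤ ((R : ℝ) - r) * γ := le_mul_of_one_le_left h11.le hq1
      have h13 : 0 ≤ (R : ℝ) ^ 2 * η := by positivity
      have e : 6 * (R : ℝ) * η * (2 * R) = 12 * ((R : ℝ) ^ 2 * η) := by ring
      rw [e]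
      linarith
    have h12 : ((R : ℝ) - r) * b ≤ ((R : ℝ) - r) * 1 := by linarith
    exact le_of_mul_le_mul_left h12 hq
  refine ⟨a, b, hbet, ha0, hb0, hb1, hba, ha1, hcomb, ?_⟩
  have hu' : u = fun i => D / R * v i := by
    funext i
    rw [hv]
    simp only
    field_simp
  have h1 : es n u = (D / R) ^ n * es n v := by
    conv_lhs => rw [hu']
    exact es_mul n (D / R) v
  rw [h1]
  apply mul_le_mul_of_nonneg_left _ (by positivity)
  refine le_trans hesv ?_
  rw [hsum]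
  apply le_of_eq
  ring

/-- the value of a vector -/
private theorem PayRB_vec (R r n : ℕ) (hR : 4 ≤ R) (hr : 1 ≤ r) (hrR : r < R) (hn : 7 ≤ n)
    (hnR : n ≤ R) (hI : 2 * R < (n + 1) * (R - r)) (hx : 7 * R ≤ 10 * r)
    (hc : (n + 1) * r.choose n * (r ^ n + (R - r) ^ n) < R.choose n * r ^ n) :
    ∃ C' : ℝ, 0 < C' ∧ ∀ (m : ℕ) (γ η : ℝ), Par R r m γ η → 2 ^ n * η ≤ 1 → 300 * R * η ≤ 1 →
      ∀ u : Fin (R + 1) → ℝ, Vec R m γ η u → ∀ k : ℝ,
        k ≤ (R.choose n : ℝ) * ((∑ j, u j) / R) ^ n → k ≤ es n u →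
        (zet R r m u ≤ (r : ℝ) / R / 2 →
          (k - psiR R r (n + 1) m u) / ((R.choose n : ℝ) * (m : ℝ) ^ n) - C' * η * zet R r m u ≤
            zet R r m u ^ n ∧
          (k - psiR R r (n + 1) m u) / ((R.choose n : ℝ) * (m : ℝ) ^ n) - C' * η * zet R r m u ≤
            (r.choose n : ℝ) / (R.choose n : ℝ) / ((r : ℝ) / R) ^ n * zet R r m u ^ n) ∧
        ((r : ℝ) / R / 2 < zet R r m u →
          (k - psiR R r (n + 1) m u) / ((R.choose n : ℝ) * (m : ℝ) ^ n) - C' * η ≤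
            zet R r m u ^ n ∧
          (k - psiR R r (n + 1) m u) / ((R.choose n : ℝ) * (m : ℝ) ^ n) - C' * η ≤
            max (GG ((r : ℝ) / R) ((r.choose n : ℝ) / (R.choose n : ℝ)) (n + 1) (zet R r m u))
              (zet R r m u ^ n - (((n + 1 : ℕ) : ℝ) - 1) / ((n + 1 : ℕ) : ℝ) *
                ((zet R r m u - (r : ℝ) / R / 2) / (1 - (r : ℝ) / R / 2)))) := by
  have hR0 : (0 : ℝ) < R := by
    have : 0 < R := by omega
    exact_mod_cast this
  have hr0 : (0 : ℝ) < r := by exact_mod_cast hr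
  have hrR' : (r : ℝ) < R := by exact_mod_cast hrR
  obtain ⟨hch, her0, her1, hcr⟩ := PayRB_er R r (n + 1) hr hrR (by omega) (by omega)
    (by simpa using hc)
  simp only [Nat.add_sub_cancel] at hch her0 her1 hcr
  obtain ⟨C, hC, hab⟩ := PayRB_ab R r n hR hr hrR hn
  set x : ℝ := (r : ℝ) / R with hxdef
  have hx1 : x < 1 := by
    rw [hxdef, div_lt_one hR0]
    exact hrR'
  have hx7 : 7 / 10 ≤ x := by
    rw [hxdef, div_le_div_iff₀ (by norm_num) hR0]
    have h' : ((7 * R : ℕ) : ℝ) ≤ ((10 * r : ℕ) : ℝ) := by exact_mod_cast hx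
    push_cast at h'
    linarith
  have hx0 : 0 < x := by linarith
  obtain ⟨K, hK, hG⟩ := refG (n + 1) (by omega) x hx7 hx1
  simp only [Nat.add_sub_cancel] at hG
  set ch : ℝ := (R.choose n : ℝ) with hchdef
  set E : ℝ := (r.choose n : ℝ) / ch with hE
  have hE0 : 0 ≤ E := by positivity
  have hEer : E / x ^ n * x ^ n = E := by
    field_simp
  have htE : ((n + 1 : ℕ) : ℝ) * E ≤ 1 := by
    have h1 : E ≤ E / x ^ n * (x ^ n + (1 - x) ^ n) := by
      have h2 : 0 ≤ E / x ^ n * (1 - x) ^ n := mul_nonneg her0 (by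
        apply pow_nonneg
        linarith)
      rw [mul_add, hEer]
      linarith
    have h3 := mul_le_mul_of_nonneg_left h1 (Nat.cast_nonneg (α := ℝ) (n + 1))
    linarith
  have hE1 : E ≤ 1 := by
    have h1 : (1 : ℝ) ≤ ((n + 1 : ℕ) : ℝ) := by
      push_cast
      have := Nat.cast_nonneg (α := ℝ) n
      linarith
    have h2 := mul_le_mul_of_nonneg_right h1 hE0
    linarith
  -- Vandermonde
  set P : ℕ → ℝ := fun l => (r.choose (n - l) : ℝ) * ((R - r).choose l : ℝ) / ch with hPdef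
  have hP0 : ∀ l, 0 ≤ P l := fun l => by
    rw [hPdef]
    positivity
  have hPsum : E + ∑ l ∈ Icc 1 n, P l = 1 := by
    have h1 := PayRB_vand R r n hrR.le
    rw [PayRB_split] at h1
    simp only [Nat.sub_zero, Nat.choose_zero_right, Nat.cast_one, mul_one] at h1
    have h2 : E + ∑ l ∈ Icc 1 n, P l = ((r.choose n : ℝ) +
        ∑ l ∈ Icc 1 n, (r.choose (n - l) : ℝ) * ((R - r).choose l : ℝ)) / ch := by
      rw [add_div, sum_div]
    rw [h2, h1]
    exact div_self hch.ne'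
  have hPs1 : ∑ l ∈ Icc 1 n, P l ≤ 1 := by linarith
  set C1 : ℝ := C / ch with hC1
  have hC10 : 0 < C1 := by positivity
  have h2n : (1 : ℝ) ≤ 2 ^ n := one_le_pow₀ (by norm_num)
  refine ⟨2 ^ n * 4 + 2 * C1 + (K * (6 * R) + 2 * (2 ^ n * (6 * R)) + 2 ^ n * (2 ^ n + 1)),
    by positivity, ?_⟩
  intro m γ η hPar h2 h300 u hu k hk1 hk2
  obtain ⟨a, b, hbb, ha0, hb0, hb1, hba, ha1, hzab, hes⟩ := hab m γ η hPar h2 h300 u hu
  have hη := hPar.hη
  have hη1 : η ≤ 1 := by
    have h5 := mul_le_mul_of_nonneg_right h2n hη.le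
    linarith
  have hm1 := hPar.hm
  have hmη : 1 ≤ η * m := by linarith
  have hm0 : (0 : ℝ) < m := by
    rcases Nat.eq_zero_or_pos m with h | h
    · rw [h] at hm1
      simp at hm1
      linarith
    · exact_mod_cast h
  have hm1' : (1 : ℝ) ≤ m := by
    have h5 := mul_le_mul_of_nonneg_right hη1 hm0.le
    linarith
  set z : ℝ := zet R r m u with hz
  have hD0 : 0 < (R : ℝ) * m + r := by positivity
  have hU0 : 0 ≤ ∑ j, u j := sum_nonneg fun j _ => hu.nn j
  have hz0 : 0 ≤ z := by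
    rw [hz]
    unfold zet
    positivity
  have hz1 : z ≤ 1 := by
    rw [hz]
    unfold zet
    rw [div_le_one hD0]
    have h3 := hu.sum
    have h4 := hPar.hγ
    have h5 : 0 ≤ γ / 2 * m := by positivity
    linarith
  have hzU : ∑ j, u j = ((R : ℝ) * m + r) * z := by
    rw [hz]
    unfold zet
    field_simp
  set φ : ℝ := (if z ≤ x / 2 then b / 10 else min (gR R r b) ((z - x / 2) / (1 - x / 2))) with hφ
  have hψ : psiR R r (n + 1) m u = ch * (m : ℝ) ^ n *
      ((((n + 1 : ℕ) : ℝ) - 1) / ((n + 1 : ℕ) : ℝ) * φ) := by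
    unfold psiR AA
    simp only [Nat.add_sub_cancel]
    rw [← hz, ← hxdef, ← hbb, hφ, hchdef]
    ring
  have hψ0 : 0 ≤ psiR R r (n + 1) m u :=
    (payR_C R r (n + 1) hR hr hrR (by omega)).nn m γ η u hPar hu
  set T : ℝ := (((n + 1 : ℕ) : ℝ) - 1) / ((n + 1 : ℕ) : ℝ) with hT
  have hchm : 0 < ch * (m : ℝ) ^ n := by positivity
  have hTφ0 : 0 ≤ T * φ := by
    rw [hψ] at hψ0
    exact nonneg_of_mul_nonneg_right hψ0 hchm
  have hval : (k - psiR R r (n + 1) m u) / (ch * (m : ℝ) ^ n) = k / (ch * (m : ℝ) ^ n) - T * φ := by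
    rw [hψ]
    field_simp
  rw [hval]
  -- the power
  have hρ : (((R : ℝ) * m + r) / R) ^ n ≤ (m : ℝ) ^ n * (1 + 2 ^ n * η) := by
    have e : ((R : ℝ) * m + r) / R = m + x := by
      rw [hxdef]
      field_simp
    rw [e]
    refine le_trans (PayRB_powm n m x hm1' hx0.le hx1.le) ?_
    apply mul_le_mul_of_nonneg_left _ (by positivity)
    have h3 : (2 : ℝ) ^ n / m ≤ 2 ^ n * η := by
      rw [div_le_iff₀ hm0]
      have h5 := mul_le_mul_of_nonneg_left hmη (show (0 : ℝ) ≤ 2 ^ n by positivity)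
      linarith
    linarith
  have hκ1 : k / (ch * (m : ℝ) ^ n) ≤ (1 + 2 ^ n * η) * z ^ n := by
    rw [div_le_iff₀ hchm]
    refine le_trans hk1 ?_
    rw [hzU]
    have e : (((R : ℝ) * m + r) * z / R) ^ n = (((R : ℝ) * m + r) / R) ^ n * z ^ n := by
      rw [← mul_pow]
      congr 1
      ring
    rw [e]
    calc ch * ((((R : ℝ) * m + r) / R) ^ n * z ^ n) ≤
          ch * (((m : ℝ) ^ n * (1 + 2 ^ n * η)) * z ^ n) := by
          apply mul_le_mul_of_nonneg_left _ hch.le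
          exact mul_le_mul_of_nonneg_right hρ (by positivity)
      _ = _ := by ring
  have hκ2 : k / (ch * (m : ℝ) ^ n) ≤ (1 + 2 ^ n * η) *
      (E * a ^ n + ∑ l ∈ Icc 1 n, P l * (a ^ (n - l) * b ^ l) + C1 * η * z) := by
    rw [div_le_iff₀ hchm]
    refine le_trans hk2 (le_trans hes ?_)
    have h4 : ∑ l ∈ range (n + 1), (r.choose (n - l) : ℝ) * ((R - r).choose l : ℝ) *
        a ^ (n - l) * b ^ l + C * η * z =
        ch * (E * a ^ n + ∑ l ∈ Icc 1 n, P l * (a ^ (n - l) * b ^ l) + C1 * η * z) := by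
      rw [PayRB_split]
      simp only [Nat.sub_zero, Nat.choose_zero_right, Nat.cast_one, mul_one, pow_zero]
      rw [mul_add, mul_add, mul_sum]
      congr 1
      · congr 1
        · rw [hE]; field_simp
        · apply sum_congr rfl
          intro l _
          rw [hPdef]
          simp only
          field_simp
      · rw [hC1]; field_simp
    rw [h4]
    have h5 : 0 ≤ ch * (E * a ^ n + ∑ l ∈ Icc 1 n, P l * (a ^ (n - l) * b ^ l) + C1 * η * z) := by
      apply mul_nonneg hch.le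
      have h6 : 0 ≤ ∑ l ∈ Icc 1 n, P l * (a ^ (n - l) * b ^ l) :=
        sum_nonneg fun l _ => mul_nonneg (hP0 l) (by positivity)
      positivity
    calc _ ≤ ((m : ℝ) ^ n * (1 + 2 ^ n * η)) *
          (ch * (E * a ^ n + ∑ l ∈ Icc 1 n, P l * (a ^ (n - l) * b ^ l) + C1 * η * z)) :=
          mul_le_mul_of_nonneg_right hρ h5
      _ = _ := by ring
  have hzn : z ^ n ≤ z := by
    calc z ^ n ≤ z ^ 1 := pow_le_pow_of_le_one hz0 hz1 (by omega)
      _ = z := pow_one z
  have hzn0 : 0 ≤ z ^ n := by positivity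
  have hη2 : 0 ≤ 2 ^ n * η := by positivity
  set κ : ℝ := k / (ch * (m : ℝ) ^ n) with hκ
  have hκ1' : κ ≤ z ^ n + 2 ^ n * η * z := by
    have h3 : 2 ^ n * η * z ^ n ≤ 2 ^ n * η * z := mul_le_mul_of_nonneg_left hzn hη2
    linarith
  have hrest : 0 ≤ (K * (6 * R) + 2 * (2 ^ n * (6 * R)) + 2 ^ n * (2 ^ n + 1)) := by positivity
  have hηz : 0 ≤ η * z := mul_nonneg hη.le hz0
  constructor
  · -- small
    intro hzx
    have hφs : φ = b / 10 := by rw [hφ, if_pos hzx]
    constructor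
    · have h3 : 2 ^ n * η * z ≤ (2 ^ n * 4 + 2 * C1 +
          (K * (6 * R) + 2 * (2 ^ n * (6 * R)) + 2 ^ n * (2 ^ n + 1))) * η * z := by
        have h4 : 2 ^ n ≤ (2 ^ n * 4 + 2 * C1 +
          (K * (6 * R) + 2 * (2 ^ n * (6 * R)) + 2 ^ n * (2 ^ n + 1))) := by linarith
        have h5 := mul_le_mul_of_nonneg_right h4 hηz
        linarith
      linarith
    · have hxa : x * a ≤ z := by
        have h3 : 0 ≤ (1 - x) * b := mul_nonneg (by linarith) hb0
        linarith
      have ha2 : a ≤ 1 / 2 := by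
        have h3 : x * a ≤ x * (1 / 2) := by linarith
        exact le_of_mul_le_mul_left h3 hx0
      have hε : 6 * (R : ℝ) * η ≤ 1 / 50 := by linarith
      have hb2 : b ≤ 13 / 25 := by linarith
      have ha3 : a ≤ 13 / 25 := by linarith
      have hS : ∑ l ∈ Icc 1 n, P l * (a ^ (n - l) * b ^ l) ≤ b / 50 := by
        have h3 : ∀ l ∈ Icc 1 n, P l * (a ^ (n - l) * b ^ l) ≤ P l * (b / 50) := by
          intro l hl
          rw [mem_Icc] at hl
          apply mul_le_mul_of_nonneg_left _ (hP0 l)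
          obtain ⟨j, rfl⟩ : ∃ j, l = j + 1 := ⟨l - 1, by omega⟩
          calc a ^ (n - (j + 1)) * b ^ (j + 1) = b * (a ^ (n - (j + 1)) * b ^ j) := by ring
            _ ≤ b * ((13 / 25) ^ (n - (j + 1)) * (13 / 25) ^ j) := by
                apply mul_le_mul_of_nonneg_left _ hb0
                apply mul_le_mul (pow_le_pow_left₀ ha0 ha3 _) (pow_le_pow_left₀ hb0 hb2 _)
                  (by positivity) (by positivity)
            _ = b * (13 / 25) ^ (n - 1) := by
                rw [← pow_add]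
                congr 2
                omega
            _ ≤ b * (13 / 25) ^ 6 := by
                apply mul_le_mul_of_nonneg_left _ hb0
                exact pow_le_pow_of_le_one (by norm_num) (by norm_num) (by omega)
            _ ≤ b / 50 := by
                rw [div_eq_mul_one_div]
                apply mul_le_mul_of_nonneg_left _ hb0
                norm_num
        calc _ ≤ ∑ l ∈ Icc 1 n, P l * (b / 50) := sum_le_sum h3
          _ = (∑ l ∈ Icc 1 n, P l) * (b / 50) := by rw [sum_mul]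
          _ ≤ 1 * (b / 50) := mul_le_mul_of_nonneg_right hPs1 (by positivity)
          _ = b / 50 := one_mul _
      have hT78 : 7 / 8 ≤ T := by
        rw [hT, div_le_div_iff₀ (by norm_num) (by positivity)]
        push_cast
        have : (7 : ℝ) ≤ n := by exact_mod_cast hn
        linarith
      have hTb : 7 / 8 * (b / 10) ≤ T * φ := by
        rw [hφs]
        exact mul_le_mul_of_nonneg_right hT78 (by positivity)
      have hEa : E * a ^ n ≤ E / x ^ n * z ^ n := by
        have h3 : (x * a) ^ n ≤ z ^ n := pow_le_pow_left₀ (by positivity) hxa n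
        calc E * a ^ n = E / x ^ n * (x * a) ^ n := by
              rw [mul_pow]
              field_simp
          _ ≤ _ := mul_le_mul_of_nonneg_left h3 her0
      have hEa2 : E * a ^ n ≤ 2 * z := by
        have h3 : a ^ n ≤ a := by
          calc a ^ n ≤ a ^ 1 := pow_le_pow_of_le_one ha0 (by linarith) (by omega)
            _ = a := pow_one a
        have h4 : a ≤ 2 * z := by
          have h5 := mul_le_mul_of_nonneg_right hx7 ha0
          linarith
        calc E * a ^ n ≤ 1 * (2 * z) :=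
              mul_le_mul hE1 (le_trans h3 h4) (by positivity) zero_le_one
          _ = 2 * z := one_mul _
      have hS0 : 0 ≤ ∑ l ∈ Icc 1 n, P l * (a ^ (n - l) * b ^ l) :=
        sum_nonneg fun l _ => mul_nonneg (hP0 l) (by positivity)
      have h3 : 2 ^ n * η * (E * a ^ n) ≤ 2 ^ n * η * (2 * z) := mul_le_mul_of_nonneg_left hEa2 hη2
      have h4 : (1 + 2 ^ n * η) * (∑ l ∈ Icc 1 n, P l * (a ^ (n - l) * b ^ l)) ≤ 2 * (b / 50) :=
        mul_le_mul (by linarith) hS hS0 (by norm_num)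
      have h5 : (1 + 2 ^ n * η) * (C1 * η * z) ≤ 2 * (C1 * η * z) :=
        mul_le_mul_of_nonneg_right (by linarith) (by positivity)
      have h6 : κ ≤ E / x ^ n * z ^ n + 2 ^ n * η * (2 * z) + 2 * (b / 50) + 2 * (C1 * η * z) := by
        refine le_trans hκ2 ?_
        have e : (1 + 2 ^ n * η) * (E * a ^ n + ∑ l ∈ Icc 1 n, P l * (a ^ (n - l) * b ^ l) +
            C1 * η * z) = E * a ^ n + 2 ^ n * η * (E * a ^ n) +
            (1 + 2 ^ n * η) * (∑ l ∈ Icc 1 n, P l * (a ^ (n - l) * b ^ l)) +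
            (1 + 2 ^ n * η) * (C1 * η * z) := by ring
        rw [e]
        linarith
      have h7 : 2 ^ n * η * (2 * z) + 2 * (C1 * η * z) ≤ (2 ^ n * 4 + 2 * C1 +
          (K * (6 * R) + 2 * (2 ^ n * (6 * R)) + 2 ^ n * (2 ^ n + 1))) * η * z := by
        have h8 : 2 ^ n * 2 + 2 * C1 ≤ (2 ^ n * 4 + 2 * C1 +
          (K * (6 * R) + 2 * (2 ^ n * (6 * R)) + 2 ^ n * (2 ^ n + 1))) := by linarith
        have h9 := mul_le_mul_of_nonneg_right h8 hηz
        linarith
      linarith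
  · -- large
    intro hzx
    have hφl : φ = min (gR R r b) ((z - x / 2) / (1 - x / 2)) := by
      rw [hφ, if_neg (not_le.2 hzx)]
    have hbase : κ ≤ z ^ n + 2 ^ n * η := by
      have h3 : 2 ^ n * η * z ≤ 2 ^ n * η * 1 := mul_le_mul_of_nonneg_left hz1 hη2
      linarith
    have hCbig : 2 ^ n * η ≤ (2 ^ n * 4 + 2 * C1 +
        (K * (6 * R) + 2 * (2 ^ n * (6 * R)) + 2 ^ n * (2 ^ n + 1))) * η := by
      apply mul_le_mul_of_nonneg_right _ hη.le
      linarith
    constructor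
    · linarith
    · rcases le_total (gR R r b) ((z - x / 2) / (1 - x / 2)) with hg | hg
      · -- payment g
        rw [min_eq_left hg] at hφl
        refine le_trans ?_ (le_max_left _ _)
        have hεle : 6 * (R : ℝ) * η ≤ 1 := by linarith
        have hε0 : 0 ≤ 6 * (R : ℝ) * η := by positivity
        have hapow : ∀ j ≤ n, a ^ j ≤ 1 + 2 ^ n * (6 * R * η) := by
          intro j hj
          calc a ^ j ≤ (1 + 6 * R * η) ^ j := pow_le_pow_left₀ ha0 ha1 j
            _ ≤ (1 + 6 * R * η) ^ n := pow_le_pow_right₀ (by linarith) hj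
            _ ≤ 1 + 2 ^ n * (6 * R * η) := PayRB_pow n _ hε0 hεle
        have hS : ∑ l ∈ Icc 1 n, P l * (a ^ (n - l) * b ^ l) ≤
            ∑ l ∈ Icc 1 n, P l * b ^ l + 2 ^ n * (6 * R * η) := by
          have h3 : ∀ l ∈ Icc 1 n, P l * (a ^ (n - l) * b ^ l) ≤
              P l * b ^ l + P l * (2 ^ n * (6 * R * η)) := by
            intro l _
            have h4 := hapow (n - l) (Nat.sub_le _ _)
            have h5 : b ^ l ≤ 1 := pow_le_one₀ hb0 hb1
            have h5' : 0 ≤ b ^ l := by positivity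
            have h6 : a ^ (n - l) * b ^ l ≤ b ^ l + 2 ^ n * (6 * R * η) := by
              calc a ^ (n - l) * b ^ l ≤ (1 + 2 ^ n * (6 * R * η)) * b ^ l :=
                    mul_le_mul_of_nonneg_right h4 h5'
                _ = b ^ l + 2 ^ n * (6 * R * η) * b ^ l := by ring
                _ ≤ b ^ l + 2 ^ n * (6 * R * η) * 1 := by
                    have := mul_le_mul_of_nonneg_left h5
                      (show 0 ≤ 2 ^ n * (6 * (R : ℝ) * η) by positivity)
                    linarith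
                _ = _ := by ring
            calc _ ≤ P l * (b ^ l + 2 ^ n * (6 * R * η)) := mul_le_mul_of_nonneg_left h6 (hP0 l)
              _ = _ := by ring
          calc _ ≤ ∑ l ∈ Icc 1 n, (P l * b ^ l + P l * (2 ^ n * (6 * R * η))) := sum_le_sum h3
            _ = ∑ l ∈ Icc 1 n, P l * b ^ l + (∑ l ∈ Icc 1 n, P l) * (2 ^ n * (6 * R * η)) := by
                rw [sum_add_distrib, sum_mul]
            _ ≤ ∑ l ∈ Icc 1 n, P l * b ^ l + 1 * (2 ^ n * (6 * R * η)) := by
                have := mul_le_mul_of_nonneg_right hPs1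
                  (show 0 ≤ 2 ^ n * (6 * (R : ℝ) * η) by positivity)
                linarith
            _ = _ := by ring
        have hSb1 : ∑ l ∈ Icc 1 n, P l * b ^ l ≤ 1 := by
          calc _ ≤ ∑ l ∈ Icc 1 n, P l * 1 := sum_le_sum fun l _ =>
                mul_le_mul_of_nonneg_left (pow_le_one₀ hb0 hb1) (hP0 l)
            _ = ∑ l ∈ Icc 1 n, P l := by simp
            _ ≤ 1 := hPs1
        have hH := refH R r (n + 1) hr hrR (by omega) (by omega) hI b hb0 hb1
        simp only [Nat.add_sub_cancel] at hH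
        have hG' := hG E (6 * R * η) a b hE0 htE hε0 hεle ha0 ha1 hb0 hba
        rw [hzab] at hG'
        have hEan : E * a ^ n ≤ 2 ^ n := by
          have h3 : a ^ n ≤ 2 ^ n := pow_le_pow_left₀ ha0 (by linarith) n
          calc E * a ^ n ≤ 1 * 2 ^ n := mul_le_mul hE1 h3 (by positivity) zero_le_one
            _ = 2 ^ n := one_mul _
        set S : ℝ := ∑ l ∈ Icc 1 n, P l * b ^ l with hSdef
        have hH' : S ≤ T * gR R r b + (1 / ((n + 1 : ℕ) : ℝ) - E) * b := hH
        have h8 : κ ≤ E * a ^ n + S + 2 ^ n * η * (2 ^ n + 1) + 2 * (2 ^ n * (6 * R * η)) +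
            2 * (C1 * η) := by
          refine le_trans hκ2 ?_
          have h9 : E * a ^ n + ∑ l ∈ Icc 1 n, P l * (a ^ (n - l) * b ^ l) + C1 * η * z ≤
              (E * a ^ n + S) + 2 ^ n * (6 * R * η) + C1 * η := by
            have h10 : C1 * η * z ≤ C1 * η * 1 := mul_le_mul_of_nonneg_left hz1 (by positivity)
            linarith
          have h11 : (1 + 2 ^ n * η) * (E * a ^ n + ∑ l ∈ Icc 1 n, P l * (a ^ (n - l) * b ^ l) +
              C1 * η * z) ≤ (1 + 2 ^ n * η) * ((E * a ^ n + S) + 2 ^ n * (6 * R * η) + C1 * η) :=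
            mul_le_mul_of_nonneg_left h9 (by linarith)
          refine le_trans h11 ?_
          have h12 : 2 ^ n * η * (E * a ^ n + S) ≤ 2 ^ n * η * (2 ^ n + 1) :=
            mul_le_mul_of_nonneg_left (by linarith) hη2
          have h13 : (1 + 2 ^ n * η) * (2 ^ n * (6 * R * η)) ≤ 2 * (2 ^ n * (6 * R * η)) :=
            mul_le_mul_of_nonneg_right (by linarith) (by positivity)
          have h14 : (1 + 2 ^ n * η) * (C1 * η) ≤ 2 * (C1 * η) :=
            mul_le_mul_of_nonneg_right (by linarith) (by positivity)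
          have e : (1 + 2 ^ n * η) * ((E * a ^ n + S) + 2 ^ n * (6 * R * η) + C1 * η) =
              (E * a ^ n + S) + 2 ^ n * η * (E * a ^ n + S) +
              (1 + 2 ^ n * η) * (2 ^ n * (6 * R * η)) + (1 + 2 ^ n * η) * (C1 * η) := by ring
          rw [e]
          linarith
        rw [hφl]
        have h15 : K * (6 * R * η) + 2 ^ n * η * (2 ^ n + 1) + 2 * (2 ^ n * (6 * R * η)) +
            2 * (C1 * η) ≤ (2 ^ n * 4 + 2 * C1 +
              (K * (6 * R) + 2 * (2 ^ n * (6 * R)) + 2 ^ n * (2 ^ n + 1))) * η := by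
          have : 0 ≤ 2 ^ n * 4 * η := by positivity
          linarith
        linarith
      · rw [min_eq_right hg] at hφl
        refine le_trans ?_ (le_max_right _ _)
        rw [hφl]
        linarith

theorem payR_B (R r t : ℕ) (hR : 4 ≤ R) (hr : 1 ≤ r) (hrR : r < R) (ht : 8 ≤ t) (htR : t ≤ R + 1)
    (hI : 2 * R < t * (R - r)) (hx : 7 * R ≤ 10 * r)
    (hc : t * r.choose (t - 1) * (r ^ (t - 1) + (R - r) ^ (t - 1)) <
      R.choose (t - 1) * r ^ (t - 1)) :
    PayB R r t (psiR R r t) (chiR R r) := by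
  classical
  have hR0 : (0 : ℝ) < R := by
    have : 0 < R := by omega
    exact_mod_cast this
  have hr0 : (0 : ℝ) < r := by exact_mod_cast hr
  have hrR' : (r : ℝ) < R := by exact_mod_cast hrR
  obtain ⟨hch, her0, her1, hcr⟩ := PayRB_er R r t hr hrR ht htR hc
  obtain ⟨n, rfl⟩ : ∃ n, t = n + 1 := ⟨t - 1, by omega⟩
  simp only [Nat.add_sub_cancel] at hch her0 her1 hcr hc
  obtain ⟨C', hC', hval⟩ := PayRB_vec R r n hR hr hrR (by omega) (by omega) hI hx hc
  set x : ℝ := (r : ℝ) / R with hxdef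
  have hx1 : x < 1 := by
    rw [hxdef, div_lt_one hR0]
    exact hrR'
  have hx7 : 7 / 10 ≤ x := by
    rw [hxdef, div_le_div_iff₀ (by norm_num) hR0]
    have h' : ((7 * R : ℕ) : ℝ) ≤ ((10 * r : ℕ) : ℝ) := by exact_mod_cast hx
    push_cast at h'
    linarith
  have hx0 : 0 < x := by linarith
  set ch : ℝ := (R.choose n : ℝ) with hchdef
  set er : ℝ := (r.choose n : ℝ) / ch / x ^ n with her
  have herx : er * x ^ n = (r.choose n : ℝ) / ch := by
    rw [her]
    field_simp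
  obtain ⟨c2, hc2, hF⟩ := refF (n + 1) ht x er hx7 hx1 her0 her1 hcr
  intro C2 C3 hC2 hC3
  refine ⟨min 1 (ch * c2 / (4 * C3 * (R + 1))), by positivity, ?_⟩
  intro γ hγ hγ0
  have hγ1 : γ ≤ 1 := le_trans hγ0 (min_le_left _ _)
  have hγ2 : C3 * γ * (R + 1) ≤ ch * c2 / 4 := by
    have h1 := le_trans hγ0 (min_le_right _ _)
    rw [le_div_iff₀ (by positivity)] at h1
    linarith
  have hγ1' : 0 < γ / (2 * R) := by positivity
  have hγ1'' : γ / (2 * R) < 1 := by
    rw [div_lt_one (by positivity)]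
    have : (4 : ℝ) ≤ R := by exact_mod_cast hR
    linarith
  obtain ⟨c3, hc3, hF3⟩ := hF (γ / (2 * R)) hγ1' hγ1''
  simp only [Nat.add_sub_cancel] at hF3
  -- the choice of η0
  set s0 : ℝ := ch * c3 / (6 * C3) with hs0
  have hs00 : 0 < s0 := by positivity
  refine ⟨min (1 / 2 ^ n) (min (1 / (300 * R)) (min (c2 / (4 * C')) (min (c3 / (6 * C'))
    (min (ch * c3 / (6 * C2)) (s0 ^ 2))))), by positivity, ?_⟩
  intro η hη hη0
  rw [le_min_iff, le_min_iff, le_min_iff, le_min_iff, le_min_iff] at hη0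
  obtain ⟨e1, e2, e3, e4, e5, e6⟩ := hη0
  have h2 : 2 ^ n * η ≤ 1 := by
    rw [le_div_iff₀ (by positivity)] at e1
    linarith
  have h300 : 300 * R * η ≤ 1 := by
    rw [le_div_iff₀ (by positivity)] at e2
    linarith
  have hC'1 : C' * η ≤ c2 / 4 := by
    rw [le_div_iff₀ (by positivity)] at e3
    linarith
  have hC'2 : C' * η ≤ c3 / 6 := by
    rw [le_div_iff₀ (by positivity)] at e4
    linarith
  have hC2η : C2 * η ≤ ch * c3 / 6 := by
    rw [le_div_iff₀ (by positivity)] at e5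
    linarith
  have hC3η : C3 * Real.sqrt η ≤ ch * c3 / 6 := by
    have h1 : Real.sqrt η ≤ s0 := by
      rw [Real.sqrt_le_left hs00.le]
      exact e6
    calc C3 * Real.sqrt η ≤ C3 * s0 := mul_le_mul_of_nonneg_left h1 hC3.le
      _ = ch * c3 / 6 := by
        rw [hs0]
        field_simp
  set c4 : ℝ := min c2 c3 with hc4
  have hc40 : 0 < c4 := lt_min hc2 hc3
  refine ⟨ch * 2 ^ n / (n + 1), ch * c4 / (2 * (R + 1)), by positivity, by positivity, ?_⟩
  intro m hP ι L u k e h hVec hk he hh hsum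
  simp only [Nat.add_sub_cancel] at hk he ⊢
  have hn2 : n + 1 - 2 = n - 1 := by omega
  rw [hn2] at he ⊢
  have hη1 : η ≤ 1 := by
    have h5 : (1 : ℝ) ≤ 2 ^ n := one_le_pow₀ (by norm_num)
    have h6 := mul_le_mul_of_nonneg_right h5 hη.le
    linarith
  have hm1 := hP.hm
  have hmη : 1 ≤ η * m := by linarith
  have hm0 : (0 : ℝ) < m := by
    rcases Nat.eq_zero_or_pos m with h' | h'
    · rw [h'] at hm1
      simp at hm1
      linarith
    · exact_mod_cast h'
  have hm1' : (1 : ℝ) ≤ m := by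
    have h5 := mul_le_mul_of_nonneg_right hη1 hm0.le
    linarith
  have hmN : 1 ≤ m := by exact_mod_cast hm1'
  have hpow : (m : ℝ) ^ n = (m : ℝ) ^ (n - 1) * m := by
    conv_lhs => rw [show n = (n - 1) + 1 by omega]
    rw [pow_succ]
  set D : ℝ := (R : ℝ) * m + r with hD
  have hD0 : 0 < D := by positivity
  have hrm : (r : ℝ) ≤ m := by
    have h5 := mul_le_mul_of_nonneg_right hη1 hm0.le
    linarith
  have hDR : D ≤ (R + 1) * m := by
    rw [hD]
    linarith
  set z : ι → ℝ := fun i => zet R r m (u i) with hz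
  have hzU : ∀ i, ∑ j, u i j = D * z i := by
    intro i
    rw [hz]
    simp only
    unfold zet
    rw [← hD]
    field_simp
  have hz0 : ∀ i ∈ L, 0 ≤ z i := by
    intro i hi
    rw [hz]
    simp only
    unfold zet
    rw [← hD]
    exact div_nonneg (sum_nonneg fun j _ => (hVec i hi).nn j) hD0.le
  have hz1 : ∀ i ∈ L, z i ≤ 1 - γ / (2 * R) := by
    intro i hi
    have h5 := (hVec i hi).sum
    rw [hzU] at h5
    have h6 : (R : ℝ) * m * z i ≤ D * z i := by
      apply mul_le_mul_of_nonneg_right _ (hz0 i hi)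
      rw [hD]
      linarith
    have h7 : (R : ℝ) * m * z i ≤ (R : ℝ) * m * (1 - γ / (2 * R)) := by
      have e' : (R : ℝ) * m * (1 - γ / (2 * R)) = (R - γ / 2) * m := by
        field_simp
      rw [e']
      linarith
    exact le_of_mul_le_mul_left h7 (by positivity)
  have hz1' : ∀ i ∈ L, z i ≤ 1 := fun i hi => by
    have := hz1 i hi
    linarith
  set Z : ℝ := ∑ i ∈ L, z i with hZ
  have hZ0 : 0 ≤ Z := sum_nonneg hz0
  have hsumU : ∑ i ∈ L, ∑ j, u i j = D * Z := by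
    rw [hZ, mul_sum]
    exact sum_congr rfl fun i _ => hzU i
  have hhD : h ≤ D * (1 - Z) := by
    rw [hsumU] at hsum
    linarith
  have hZ1 : Z ≤ 1 := by
    have h5 : 0 ≤ D * (1 - Z) := le_trans hh hhD
    have h6 := nonneg_of_mul_nonneg_right h5 hD0
    linarith
  -- the values
  set w : ι → ℝ := fun i => (k i - psiR R r (n + 1) m (u i)) / (ch * (m : ℝ) ^ n) -
    C' * η * (if z i ≤ x / 2 then z i else 1) with hw
  have hv := fun i (hi : i ∈ L) => hval m γ η hP h2 h300 (u i) (hVec i hi) (k i) (hk i hi).1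
    (hk i hi).2
  have hF4 := hF3 ι L z w (fun i hi => ⟨hz0 i hi, hz1 i hi⟩) hZ1
    (fun i hi => by
      rw [hw]
      simp only
      by_cases h5 : z i ≤ x / 2
      · rw [if_pos h5]
        exact ((hv i hi).1 h5).1
      · rw [if_neg h5, mul_one]
        exact ((hv i hi).2 (not_le.1 h5)).1)
    (fun i hi h5 => by
      rw [hw]
      simp only
      rw [if_pos h5]
      exact ((hv i hi).1 h5).2)
    (fun i hi h5 => by
      rw [hw]
      simp only
      rw [if_neg (not_le.2 h5), mul_one, herx]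
      exact ((hv i hi).2 h5).2)
  rw [← hZ] at hF4
  have hchm : 0 < ch * (m : ℝ) ^ n := by positivity
  -- the outside part
  have hout : ch * (h / R) ^ n / ((n + 1 : ℕ) : ℝ) ≤
      ch * (m : ℝ) ^ n * (1 / ((n + 1 : ℕ) : ℝ) * (1 - Z) ^ n) + ch * 2 ^ n / (n + 1) * (m : ℝ) ^ (n - 1) := by
    have h5 : (h / R) ^ n ≤ (m : ℝ) ^ n * (1 + 2 ^ n / m) * (1 - Z) ^ n := by
      have e' : D / R = m + x := by
        rw [hD, hxdef]
        field_simp
      have h6 : h / R ≤ (m + x) * (1 - Z) := by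
        rw [← e', div_mul_eq_mul_div]
        exact div_le_div_of_nonneg_right hhD hR0.le
      calc (h / R) ^ n ≤ ((m + x) * (1 - Z)) ^ n := pow_le_pow_left₀ (by positivity) h6 n
        _ = (m + x) ^ n * (1 - Z) ^ n := mul_pow _ _ _
        _ ≤ _ := mul_le_mul_of_nonneg_right (PayRB_powm n m x hm1' hx0.le hx1.le)
            (pow_nonneg (by linarith) n)
    have h7 : (1 - Z) ^ n ≤ 1 := pow_le_one₀ (by linarith) (by linarith)
    have h8 : (m : ℝ) ^ n * (1 + 2 ^ n / m) = (m : ℝ) ^ n + 2 ^ n * (m : ℝ) ^ (n - 1) := by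
      rw [hpow]
      field_simp
    rw [h8] at h5
    have h9 : 2 ^ n * (m : ℝ) ^ (n - 1) * (1 - Z) ^ n ≤ 2 ^ n * (m : ℝ) ^ (n - 1) * 1 :=
      mul_le_mul_of_nonneg_left h7 (by positivity)
    have h10 : (h / R) ^ n ≤ (m : ℝ) ^ n * (1 - Z) ^ n + 2 ^ n * (m : ℝ) ^ (n - 1) := by
      have e'' : ((m : ℝ) ^ n + 2 ^ n * (m : ℝ) ^ (n - 1)) * (1 - Z) ^ n =
        (m : ℝ) ^ n * (1 - Z) ^ n + 2 ^ n * (m : ℝ) ^ (n - 1) * (1 - Z) ^ n := by ring
      rw [e''] at h5
      linarith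
    have h11 : ch * (h / R) ^ n / ((n + 1 : ℕ) : ℝ) ≤
        ch * ((m : ℝ) ^ n * (1 - Z) ^ n + 2 ^ n * (m : ℝ) ^ (n - 1)) / ((n + 1 : ℕ) : ℝ) :=
      div_le_div_of_nonneg_right (mul_le_mul_of_nonneg_left h10 hch.le) (by positivity)
    refine le_trans h11 (le_of_eq ?_)
    push_cast
    field_simp
  have hPL := PL_lo R r m (n + 1) hrR.le (by omega) hmN
  simp only [Nat.add_sub_cancel] at hPL
  rw [← hchdef] at hPL
  -- per vertex estimate
  have hper : ∀ i ∈ L, k i - psiR R r (n + 1) m (u i) + e i +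
      (if chiR R r m (u i) then C2 * η * (m : ℝ) ^ n else 0) ≤
      ch * (m : ℝ) ^ n * (w i + (if z i ≤ x / 2 then c2 * z i else c3)) -
        ch * c4 / (2 * (R + 1)) * (m : ℝ) ^ (n - 1) * ∑ j, u i j := by
    intro i hi
    have hkψ : k i - psiR R r (n + 1) m (u i) = ch * (m : ℝ) ^ n *
        (w i + C' * η * (if z i ≤ x / 2 then z i else 1)) := by
      rw [hw]
      simp only
      field_simp
      ring
    have hz0i := hz0 i hi
    have hz1i := hz1' i hi
    have hmz : (m : ℝ) ^ (n - 1) * ∑ j, u i j ≤ (m : ℝ) ^ n * ((R + 1) * z i) := by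
      rw [hzU, hpow]
      calc (m : ℝ) ^ (n - 1) * (D * z i) ≤ (m : ℝ) ^ (n - 1) * ((R + 1) * m * z i) := by
            apply mul_le_mul_of_nonneg_left _ (by positivity)
            exact mul_le_mul_of_nonneg_right hDR hz0i
        _ = _ := by ring
    have hlast : ch * c4 / (2 * (R + 1)) * (m : ℝ) ^ (n - 1) * ∑ j, u i j ≤
        ch * (m : ℝ) ^ n * (c4 / 2 * z i) := by
      have h5 := mul_le_mul_of_nonneg_left hmz (show 0 ≤ ch * c4 / (2 * (R + 1)) by positivity)
      have e' : ch * c4 / (2 * (R + 1)) * ((m : ℝ) ^ n * ((R + 1) * z i)) =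
          ch * (m : ℝ) ^ n * (c4 / 2 * z i) := by
        field_simp
      rw [e'] at h5
      linarith
    by_cases h5 : z i ≤ x / 2
    · have hnchi : ¬ chiR R r m (u i) := by
        unfold chiR
        exact not_lt.2 h5
      rw [if_neg hnchi]
      rw [if_pos h5] at hkψ ⊢
      rw [hkψ]
      have h6 : e i ≤ ch * (m : ℝ) ^ n * (c2 / 4 * z i) := by
        calc e i ≤ C3 * γ * (m : ℝ) ^ (n - 1) * ∑ j, u i j := (he i hi).1
          _ = C3 * γ * ((m : ℝ) ^ (n - 1) * ∑ j, u i j) := by ring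
          _ ≤ C3 * γ * ((m : ℝ) ^ n * ((R + 1) * z i)) :=
              mul_le_mul_of_nonneg_left hmz (by positivity)
          _ = (C3 * γ * (R + 1)) * ((m : ℝ) ^ n * z i) := by ring
          _ ≤ (ch * c2 / 4) * ((m : ℝ) ^ n * z i) :=
              mul_le_mul_of_nonneg_right hγ2 (by positivity)
          _ = _ := by ring
      have h7 : C' * η * z i ≤ c2 / 4 * z i := mul_le_mul_of_nonneg_right hC'1 hz0i
      have h8 : c4 / 2 * z i ≤ c2 / 2 * z i := by
        apply mul_le_mul_of_nonneg_right _ hz0i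
        have := min_le_left c2 c3
        rw [← hc4] at this
        linarith
      have h9 : ch * (m : ℝ) ^ n * (w i + C' * η * z i) + ch * (m : ℝ) ^ n * (c2 / 4 * z i) +
          ch * (m : ℝ) ^ n * (c4 / 2 * z i) ≤ ch * (m : ℝ) ^ n * (w i + c2 * z i) := by
        rw [← mul_add, ← mul_add]
        apply mul_le_mul_of_nonneg_left _ hchm.le
        linarith
      linarith
    · rw [if_neg h5] at hkψ ⊢
      rw [mul_one] at hkψ
      rw [hkψ]
      have h6 : e i ≤ ch * (m : ℝ) ^ n * (c3 / 6) := by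
        calc e i ≤ C3 * Real.sqrt η * (m : ℝ) ^ n := (he i hi).2
          _ ≤ (ch * c3 / 6) * (m : ℝ) ^ n := mul_le_mul_of_nonneg_right hC3η (by positivity)
          _ = _ := by ring
      have h6' : (if chiR R r m (u i) then C2 * η * (m : ℝ) ^ n else 0) ≤
          ch * (m : ℝ) ^ n * (c3 / 6) := by
        have h7 : C2 * η * (m : ℝ) ^ n ≤ ch * (m : ℝ) ^ n * (c3 / 6) := by
          calc C2 * η * (m : ℝ) ^ n ≤ (ch * c3 / 6) * (m : ℝ) ^ n :=
                mul_le_mul_of_nonneg_right hC2η (by positivity)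
            _ = _ := by ring
        split_ifs
        · exact h7
        · positivity
      have h8 : c4 / 2 * z i ≤ c3 / 2 := by
        have h9 : c4 ≤ c3 := min_le_right c2 c3
        have h10 : c4 * z i ≤ c4 * 1 := mul_le_mul_of_nonneg_left hz1i hc40.le
        linarith
      have h9 : ch * (m : ℝ) ^ n * (w i + C' * η) + ch * (m : ℝ) ^ n * (c3 / 6) +
          ch * (m : ℝ) ^ n * (c3 / 6) + ch * (m : ℝ) ^ n * (c4 / 2 * z i) ≤
          ch * (m : ℝ) ^ n * (w i + c3) := by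
        rw [← mul_add, ← mul_add, ← mul_add]
        apply mul_le_mul_of_nonneg_left _ hchm.le
        linarith
      linarith
  -- summation
  have hS := sum_le_sum hper
  rw [sum_sub_distrib, ← mul_sum, ← mul_sum] at hS
  have e8 : ∑ i ∈ L, (w i + (if z i ≤ x / 2 then c2 * z i else c3)) =
      ∑ i ∈ L, w i + ∑ i ∈ L, (if z i ≤ x / 2 then c2 * z i else c3) := sum_add_distrib
  have hF5 := mul_le_mul_of_nonneg_left hF4 hchm.le
  have e7 : ch * (m : ℝ) ^ n * (1 / ((n + 1 : ℕ) : ℝ) - ∑ i ∈ L, (if z i ≤ x / 2 then c2 * z i else c3)) =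
      ch * (m : ℝ) ^ n / ((n + 1 : ℕ) : ℝ) -
        ch * (m : ℝ) ^ n * ∑ i ∈ L, (if z i ≤ x / 2 then c2 * z i else c3) := by ring
  rw [e7, mul_add] at hF5
  rw [e8] at hS
  have e9 : ch * (m : ℝ) ^ n * (∑ i ∈ L, w i + ∑ i ∈ L, (if z i ≤ x / 2 then c2 * z i else c3)) =
      ch * (m : ℝ) ^ n * ∑ i ∈ L, w i +
        ch * (m : ℝ) ^ n * ∑ i ∈ L, (if z i ≤ x / 2 then c2 * z i else c3) := mul_add _ _ _
  rw [e9] at hS
  rw [← hchdef]
  linarith

end Pool.Agent.H45.KTD
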