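import Mathlib

/-!
# KTD RealF: the real inequality for an outside vertex

`F z = z ^ (t-1) - ((t-1)/t) (z - x)⁺ / (1 - x)`: `F z = z ^ (t-1)` for `z ≤ x`, convex on `[x, 1]`, `F 1 = 1/t`.
`Z = ∑ z i ≤ 1`; `(1/t)(1 - Z) ^ (t-1) ≤ (1 - Z)/t`.
Case 1 (`x ≤ 1/2`, `t x ^ (t-2) < 1`): `δ = 1/t - x ^ (t-2)`, `z1 = x`, `c2 = δ`, `c3 = δ x γ1`.
  `z ≤ x`: `F z ≤ x ^ (t-2) z = z/t - δ z`.  `x ≤ z ≤ 1 - γ1`: convexity between `x` and `1`, `F x = x/t - δ x`, `F 1 = 1/t`:
  `F z ≤ z/t - δ x (1 - z)/(1 - x) ≤ z/t - δ x γ1`.  Add up.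
Case 2 (`x ≥ 1/2`, `t ≥ 5`, `t (x ^ (t-1) + (1-x) ^ (t-1)) < 1`): `z1 = 1/2`,
  `δ = min (1/t - 2 ^ (2-t)) (1/t - x ^ (t-1) - (1-x) ^ (t-1)) > 0` (`t < 2 ^ (t-2)` for `t ≥ 5`), `c2 = δ`, `c3 = δ γ1 / 2`.
  (a) all `z i ≤ 1/2`: `F (z i) = z i ^ (t-1) ≤ 2 ^ (2-t) z i ≤ z i / t - δ z i`.
  (b) some `z0 = z i > 1/2`; the others have sum `u ≤ 1 - z0 < 1/2`, and are `≤ 1/2`, so their `F` sum is `≤ u ^ (t-1)`.  Have to show
  `F z0 + u ^ (t-1) + (1/t)(1 - z0 - u) ^ (t-1) + δ u ≤ 1/t - c3` for `0 ≤ u ≤ 1 - z0`; the left side is convex in `u`, at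
  `u = 0` and `u = 1 - z0` it is `≤ q(z0) + δ (1 - z0)` with `q z = F z + (1 - z) ^ (t-1)`.
  On `[1/2, x]`: `q` convex, `q(1/2) = 2 ^ (2-t)`, `q(x) = x ^ (t-1) + (1-x) ^ (t-1)`, so `q ≤ 1/t - δ`, `q + δ (1 - z0) ≤ 1/t - δ/2`.
  On `[x, 1 - γ1]`: `q` convex, `q(1) = 1/t`: `q(z) ≤ 1/t - δ (1 - z)/(1 - x) ≤ 1/t - 2 δ (1 - z)` (as `1 - x ≤ 1/2`), so
  `q(z) + δ (1 - z) ≤ 1/t - δ (1 - z) ≤ 1/t - δ γ1`.
-/

set_option autoImplicit false

open Finset

namespace Pool.Agent.H45.KTD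

private theorem realF_conv (n : ℕ) (x z : ℝ) (hx0 : 0 ≤ x) (hx1 : x < 1) (hz : x ≤ z)
    (hz1 : z ≤ 1) : z ^ n ≤ (z - x) / (1 - x) + (1 - z) / (1 - x) * x ^ n := by
  have h1 : 0 < 1 - x := by linarith
  have ha : 0 ≤ (1 - z) / (1 - x) := div_nonneg (by linarith) h1.le
  have hb : 0 ≤ (z - x) / (1 - x) := div_nonneg (by linarith) h1.le
  have hab : (1 - z) / (1 - x) + (z - x) / (1 - x) = 1 := by field_simp; ring
  have h := (convexOn_pow (𝕜 := ℝ) n).2 (show x ∈ Set.Ici (0 : ℝ) from hx0)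
    (show (1 : ℝ) ∈ Set.Ici (0 : ℝ) from Set.mem_Ici.2 zero_le_one) ha hb hab
  simp only [smul_eq_mul, one_pow, mul_one] at h
  have e : (1 - z) / (1 - x) * x + (z - x) / (1 - x) = z := by field_simp; ring
  rw [e] at h
  linarith

private theorem realF_low (n : ℕ) (x z : ℝ) (hz0 : 0 ≤ z) (hz : z ≤ x) :
    z ^ (n + 1) ≤ x ^ n * z := by
  rw [pow_succ]
  exact mul_le_mul_of_nonneg_right (pow_le_pow_left₀ hz0 hz n) hz0

private theorem realF_convq (n : ℕ) :
    ConvexOn ℝ (Set.Icc (0 : ℝ) 1) (fun z : ℝ => z ^ n + (1 - z) ^ n) := by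
  refine ⟨convex_Icc 0 1, ?_⟩
  intro z hz w hw a b ha hb hab
  have h1 := (convexOn_pow (𝕜 := ℝ) n).2 (show z ∈ Set.Ici (0 : ℝ) from hz.1)
    (show w ∈ Set.Ici (0 : ℝ) from hw.1) ha hb hab
  have h2 := (convexOn_pow (𝕜 := ℝ) n).2 (show 1 - z ∈ Set.Ici (0 : ℝ) from sub_nonneg.2 hz.2)
    (show 1 - w ∈ Set.Ici (0 : ℝ) from sub_nonneg.2 hw.2) ha hb hab
  simp only [smul_eq_mul] at h1 h2 ⊢
  have e : a * (1 - z) + b * (1 - w) = 1 - (a * z + b * w) := by linear_combination hab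
  rw [e] at h2
  linarith

private theorem realF_two (t : ℕ) (ht : 5 ≤ t) : t < 2 ^ (t - 2) := by
  induction t, ht using Nat.le_induction with
  | base => norm_num
  | succ k hk ih =>
    obtain ⟨m, rfl⟩ : ∃ m, k = m + 2 := ⟨k - 2, by omega⟩
    have e1 : m + 2 - 2 = m := by omega
    have e2 : m + 2 + 1 - 2 = m + 1 := by omega
    rw [e1] at ih
    rw [e2, pow_succ]
    omega

theorem realF (t : ℕ) (ht : 4 ≤ t) (x : ℝ) (hx0 : 0 < x) (hx1 : x < 1)
    (hcase : (x ≤ 1 / 2 ∧ (t : ℝ) * x ^ (t - 2) < 1) ∨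
      (1 / 2 ≤ x ∧ 5 ≤ t ∧ (t : ℝ) * (x ^ (t - 1) + (1 - x) ^ (t - 1)) < 1)) :
    ∃ z1 c2 : ℝ, 0 < z1 ∧ z1 ≤ x ∧ 0 < c2 ∧ ∀ γ1 : ℝ, 0 < γ1 → γ1 < 1 → ∃ c3 : ℝ, 0 < c3 ∧
      ∀ (ι : Type) (L : Finset ι) (z : ι → ℝ), (∀ i ∈ L, 0 ≤ z i ∧ z i ≤ 1 - γ1) →
        ∑ i ∈ L, z i ≤ 1 →
        ∑ i ∈ L, ((z i) ^ (t - 1) - ((t : ℝ) - 1) / t * (max (z i - x) 0 / (1 - x))) +
          1 / t * (1 - ∑ i ∈ L, z i) ^ (t - 1) ≤
        1 / t - ∑ i ∈ L, (if z i ≤ z1 then c2 * z i else c3) := by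
  have htR : (0 : ℝ) < t := by
    have : 0 < t := by omega
    exact_mod_cast this
  have ht1 : (1 : ℝ) / t > 0 := by positivity
  obtain ⟨n, rfl⟩ : ∃ n, t = n + 2 := ⟨t - 2, by omega⟩
  have e1 : n + 2 - 2 = n := by omega
  have e2 : n + 2 - 1 = n + 1 := by omega
  rw [e1, e2] at hcase
  rw [e2]
  set T : ℝ := ((n + 2 : ℕ) : ℝ) with hT
  have hx1' : 0 < 1 - x := by linarith
  have hTT : (T - 1) / T = 1 - 1 / T := by field_simp
  -- the function `F`
  have hFlow : ∀ z : ℝ, z ≤ x → z ^ (n + 1) - (T - 1) / T * (max (z - x) 0 / (1 - x)) =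
      z ^ (n + 1) := by
    intro z hz
    rw [max_eq_right (by linarith), zero_div, mul_zero, sub_zero]
  have hFhigh : ∀ z : ℝ, x ≤ z → z ≤ 1 →
      z ^ (n + 1) - (T - 1) / T * (max (z - x) 0 / (1 - x)) ≤
        (z - x) / (1 - x) / T + (1 - z) / (1 - x) * x ^ (n + 1) := by
    intro z hz hz1
    rw [max_eq_left (by linarith), hTT]
    have h := realF_conv (n + 1) x z hx0.le hx1 hz hz1
    have e : (1 - 1 / T) * ((z - x) / (1 - x)) = (z - x) / (1 - x) - (z - x) / (1 - x) / T := by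
      ring
    rw [e]
    linarith
  have hlast : ∀ Z : ℝ, 0 ≤ Z → Z ≤ 1 → 1 / T * (1 - Z) ^ (n + 1) ≤ 1 / T * (1 - Z) := by
    intro Z h0 h1
    apply mul_le_mul_of_nonneg_left _ ht1.le
    have := pow_le_of_le_one (a := 1 - Z) (by linarith) (by linarith) (Nat.succ_ne_zero n)
    exact this
  rcases hcase with ⟨hx2, hc⟩ | ⟨hx2, ht5, hc⟩
  · -- case 1
    set δ : ℝ := 1 / T - x ^ n with hδ
    have hδ0 : 0 < δ := by
      rw [hδ, sub_pos, lt_div_iff₀ htR]
      linarith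
    refine ⟨x, δ, hx0, le_refl x, hδ0, fun γ1 hγ hγ1 => ⟨δ * x * γ1, by positivity, ?_⟩⟩
    intro ι L z hz hZ
    have hZ0 : 0 ≤ ∑ i ∈ L, z i := Finset.sum_nonneg fun i hi => (hz i hi).1
    have hkey : ∀ i ∈ L, (z i) ^ (n + 1) - (T - 1) / T * (max (z i - x) 0 / (1 - x)) ≤
        1 / T * z i - (if z i ≤ x then δ * z i else δ * x * γ1) := by
      intro i hi
      obtain ⟨h0, h1⟩ := hz i hi
      split_ifs with h2
      · rw [hFlow _ h2]
        have := realF_low n x (z i) h0 h2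
        have e : x ^ n = 1 / T - δ := by rw [hδ]; ring
        rw [e] at this
        linarith
      · have h2' : x ≤ z i := (not_le.mp h2).le
        refine (hFhigh (z i) h2' (by linarith)).trans ?_
        have e : x ^ (n + 1) = (1 / T - δ) * x := by rw [hδ, pow_succ]; ring
        have e3 : (z i - x) / (1 - x) / T + (1 - z i) / (1 - x) * x ^ (n + 1) =
            1 / T * z i - δ * x * ((1 - z i) / (1 - x)) := by
          rw [e]
          field_simp
          ring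
        rw [e3]
        have h4 : γ1 ≤ (1 - z i) / (1 - x) := by
          rw [le_div_iff₀ hx1']
          nlinarith
        have h5 : δ * x * γ1 ≤ δ * x * ((1 - z i) / (1 - x)) :=
          mul_le_mul_of_nonneg_left h4 (by positivity)
        linarith
    have hsum := Finset.sum_le_sum hkey
    have e4 : ∑ i ∈ L, (1 / T * z i - (if z i ≤ x then δ * z i else δ * x * γ1)) =
        1 / T * ∑ i ∈ L, z i - ∑ i ∈ L, (if z i ≤ x then δ * z i else δ * x * γ1) := by
      rw [Finset.sum_sub_distrib, ← Finset.mul_sum]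
    rw [e4] at hsum
    have h6 := hlast _ hZ0 hZ
    linarith
  · -- case 2
    have h2pow : T * (1 / 2) ^ n < 1 := by
      have h := realF_two (n + 2) ht5
      rw [e1] at h
      have h' : T < 2 ^ n := by
        rw [hT]
        exact_mod_cast h
      rw [one_div, inv_pow, ← div_eq_mul_inv, div_lt_one (by positivity)]
      exact h'
    set δ : ℝ := min (1 / T - (1 / 2) ^ n) (1 / T - (x ^ (n + 1) + (1 - x) ^ (n + 1))) with hδ
    have hδ1 : δ ≤ 1 / T - (1 / 2) ^ n := min_le_left _ _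
    have hδ2 : δ ≤ 1 / T - (x ^ (n + 1) + (1 - x) ^ (n + 1)) := min_le_right _ _
    have hδ0 : 0 < δ := by
      rw [hδ, lt_min_iff]
      constructor
      · rw [sub_pos, lt_div_iff₀ htR]
        linarith
      · rw [sub_pos, lt_div_iff₀ htR]
        linarith
    refine ⟨1 / 2, δ, by norm_num, hx2, hδ0, fun γ1 hγ hγ1 => ⟨δ * γ1 / 2, by positivity, ?_⟩⟩
    intro ι L z hz hZ
    have hZ0 : 0 ≤ ∑ i ∈ L, z i := Finset.sum_nonneg fun i hi => (hz i hi).1
    by_cases hall : ∀ i ∈ L, z i ≤ 1 / 2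
    · have hkey : ∀ i ∈ L, (z i) ^ (n + 1) - (T - 1) / T * (max (z i - x) 0 / (1 - x)) ≤
          1 / T * z i - (if z i ≤ 1 / 2 then δ * z i else δ * γ1 / 2) := by
        intro i hi
        obtain ⟨h0, h1⟩ := hz i hi
        have h2 := hall i hi
        rw [if_pos h2, hFlow _ (h2.trans hx2)]
        have := realF_low n (1 / 2) (z i) h0 h2
        nlinarith
      have hsum := Finset.sum_le_sum hkey
      have e4 : ∑ i ∈ L, (1 / T * z i - (if z i ≤ 1 / 2 then δ * z i else δ * γ1 / 2)) =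
          1 / T * ∑ i ∈ L, z i - ∑ i ∈ L, (if z i ≤ 1 / 2 then δ * z i else δ * γ1 / 2) := by
        rw [Finset.sum_sub_distrib, ← Finset.mul_sum]
      rw [e4] at hsum
      have h6 := hlast _ hZ0 hZ
      linarith
    · push Not at hall
      obtain ⟨i0, hi0, hz0⟩ := hall
      classical
      have hs1 : ∀ f : ι → ℝ, ∑ i ∈ L, f i = f i0 + ∑ i ∈ L.erase i0, f i := fun f =>
        (Finset.add_sum_erase L f hi0).symm
      rw [hs1 (fun i => (z i) ^ (n + 1) - (T - 1) / T * (max (z i - x) 0 / (1 - x))),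
        hs1 (fun i => if z i ≤ 1 / 2 then δ * z i else δ * γ1 / 2), hs1 z]
      rw [hs1 z] at hZ
      set z0 := z i0 with hz0d
      set u := ∑ i ∈ L.erase i0, z i with hu
      have hu0 : 0 ≤ u := Finset.sum_nonneg fun i hi => (hz i (Finset.mem_of_mem_erase hi)).1
      have hle : ∀ i ∈ L.erase i0, z i ≤ u := fun i hi =>
        Finset.single_le_sum (f := z) (fun j hj => (hz j (Finset.mem_of_mem_erase hj)).1) hi
      have hrest : ∑ i ∈ L.erase i0, ((z i) ^ (n + 1) -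
          (T - 1) / T * (max (z i - x) 0 / (1 - x))) ≤ u ^ (n + 1) := by
        calc ∑ i ∈ L.erase i0, ((z i) ^ (n + 1) - (T - 1) / T * (max (z i - x) 0 / (1 - x)))
            ≤ ∑ i ∈ L.erase i0, u ^ n * z i := by
              refine Finset.sum_le_sum fun i hi => ?_
              have h1 := hle i hi
              rw [hFlow _ (by linarith)]
              exact realF_low n u (z i) (hz i (Finset.mem_of_mem_erase hi)).1 h1
          _ = u ^ (n + 1) := by rw [← Finset.mul_sum, ← hu, pow_succ]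
      have hrest2 : ∑ i ∈ L.erase i0, (if z i ≤ 1 / 2 then δ * z i else δ * γ1 / 2) = δ * u := by
        rw [hu, Finset.mul_sum]
        refine Finset.sum_congr rfl fun i hi => ?_
        have h1 := hle i hi
        rw [if_pos (by linarith)]
      rw [hrest2, if_neg (not_le.mpr hz0)]
      have hw : u ≤ 1 - z0 := by linarith
      obtain ⟨hz00, hz01⟩ := hz i0 hi0
      rw [← hz0d] at hz00 hz01
      have hA : u ^ (n + 1) + 1 / T * (1 - (z0 + u)) ^ (n + 1) ≤ (1 - z0) ^ (n + 1) := by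
        have a1 : u ^ (n + 1) ≤ (1 - z0) ^ n * u := realF_low n (1 - z0) u hu0 hw
        have a2 : (1 - (z0 + u)) ^ (n + 1) ≤ (1 - z0) ^ n * (1 - (z0 + u)) :=
          realF_low n (1 - z0) _ (by linarith) (by linarith)
        have a3 : 0 ≤ (1 - (z0 + u)) ^ (n + 1) := pow_nonneg (by linarith) _
        have a4 : 1 / T ≤ 1 := by
          rw [div_le_one htR, hT]
          push_cast
          linarith [Nat.cast_nonneg (α := ℝ) n]
        have a5 : 1 / T * (1 - (z0 + u)) ^ (n + 1) ≤ 1 * (1 - (z0 + u)) ^ (n + 1) :=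
          mul_le_mul_of_nonneg_right a4 a3
        have a6 : (1 - z0) ^ (n + 1) = (1 - z0) ^ n * u + (1 - z0) ^ n * (1 - (z0 + u)) := by
          rw [pow_succ]
          ring
        linarith
      have hB : z0 ^ (n + 1) - (T - 1) / T * (max (z0 - x) 0 / (1 - x)) + (1 - z0) ^ (n + 1) +
          δ * (1 - z0) ≤ 1 / T - δ * γ1 / 2 := by
        rcases le_total z0 x with h3 | h3
        · rw [hFlow _ h3]
          have hq := (realF_convq (n + 1)).le_max_of_mem_Icc (x := 1 / 2) (y := x) (z := z0)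
            (by norm_num) ⟨hx0.le, hx1.le⟩ ⟨hz0.le, h3⟩
          have hq' : z0 ^ (n + 1) + (1 - z0) ^ (n + 1) ≤ 1 / T - δ := by
            refine hq.trans (max_le ?_ ?_)
            · have : (1 / 2 : ℝ) ^ (n + 1) + (1 - 1 / 2) ^ (n + 1) = (1 / 2) ^ n := by
                rw [pow_succ, pow_succ]
                ring
              rw [this]
              linarith
            · linarith
          nlinarith
        · have h4 := hFhigh z0 h3 (by linarith)
          have h5 : (1 - z0) ^ (n + 1) ≤ (1 - z0) / (1 - x) * (1 - x) ^ (n + 1) := by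
            have h6 := realF_low n (1 - x) (1 - z0) (by linarith) (by linarith)
            have e : (1 - z0) / (1 - x) * (1 - x) ^ (n + 1) = (1 - x) ^ n * (1 - z0) := by
              rw [pow_succ]
              field_simp
            rw [e]
            exact h6
          have h7 : 0 ≤ (1 - z0) / (1 - x) := div_nonneg (by linarith) hx1'.le
          have h8 : (1 - z0) / (1 - x) * (x ^ (n + 1) + (1 - x) ^ (n + 1)) ≤
              (1 - z0) / (1 - x) * (1 / T - δ) := mul_le_mul_of_nonneg_left (by linarith) h7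
          have h9 : (z0 - x) / (1 - x) / T + (1 - z0) / (1 - x) * (1 / T - δ) =
              1 / T - δ * ((1 - z0) / (1 - x)) := by
            field_simp
            ring
          have h10 : 2 * (1 - z0) ≤ (1 - z0) / (1 - x) := by
            rw [le_div_iff₀ hx1']
            nlinarith
          have h11 : δ * (2 * (1 - z0)) ≤ δ * ((1 - z0) / (1 - x)) :=
            mul_le_mul_of_nonneg_left h10 hδ0.le
          have h12 : δ * γ1 ≤ δ * (1 - z0) := mul_le_mul_of_nonneg_left (by linarith) hδ0.le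
          have h13 : 0 < δ * γ1 := by positivity
          linarith
      have hC : δ * u ≤ δ * (1 - z0) := mul_le_mul_of_nonneg_left hw hδ0.le
      linarith

end Pool.Agent.H45.KTD
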