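import Pool.Agent.H45.KTD.PaySA
import Pool.Agent.H45.KTD.RealF
import Pool.Agent.H45.KTD.PSp

/-!
# KTD PaySB: the scalar payment, side of the outside vertex

`D = R m + r`, `x = r / R`, `U i = ∑ j, u i j`, `z i = U i / D ≤ (R - γ/2) m / (R m) = 1 - γ1`, `γ1 = γ / (2 R)`, `Z = ∑ z i`,
`h / D ≤ 1 - Z`, `ch = C(R, t-1)`.
`(D/R) ^ (t-1) = (m + r/R) ^ (t-1) ≤ m ^ (t-1) + C m ^ (t-2)`, `∑ z i ^ (t-1) + (1 - Z) ^ (t-1) ≤ 1`, so
`∑ ch (U i / R) ^ (t-1) + ch (h/R) ^ (t-1) / t ≤ ch m ^ (t-1) (∑ z i ^ (t-1) + (1 - Z) ^ (t-1) / t) + C m ^ (t-2)`;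
`psiS = AA m ^ (t-1) (z i - x)⁺ / (1 - x)`, `AA = ch (t-1)/t`; `PL ≥ ch m ^ (t-1) / t` (`PL_lo`).  By `realF` the left side is
`≤ - ch m ^ (t-1) ∑ σ i + C m ^ (t-2) + ∑ e i + ∑ (χ terms)`, `σ i = c2 z i` if `z i ≤ z1` and `c3` otherwise.
If `z i ≤ z1 ≤ x` there is no `χ` term and `e i ≤ C3 γ m ^ (t-2) U i ≤ C3 (R + 1) γ m ^ (t-1) z i ≤ (1/2) ch m ^ (t-1) c2 z i` for
`γ ≤ γ0`; if `z i > z1` then `e i + C2 η m ^ (t-1) ≤ (C3 √η + C2 η) m ^ (t-1) ≤ (1/2) ch m ^ (t-1) c3` for `η ≤ η0(γ)`.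
What remains is `≤ C m ^ (t-2) - (1/2) ch m ^ (t-1) min(c2, c3) ∑ z i` (`z i ≤ 1`), and `z i ≥ U i / ((R + 1) m)`.
(`z1, c2` do not depend on `γ`; `c3` depends on `γ1`.)
-/

set_option autoImplicit false

open Finset

namespace Pool.Agent.H45.KTD

open Pool.Agent.H11.TD

private theorem PaySB_pow (m : ℝ) (hm : 1 ≤ m) (x : ℝ) (hx0 : 0 ≤ x) (hx1 : x ≤ 1) (n : ℕ) :
    (m + x) ^ (n + 1) ≤ m ^ (n + 1) + 3 ^ (n + 1) * m ^ n := by
  induction n with
  | zero =>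
    norm_num
    linarith
  | succ n ih =>
    have hmn : 0 < m ^ n := by positivity
    have h1 : (m + x) ^ (n + 1 + 1) = (m + x) ^ (n + 1) * (m + x) := pow_succ _ _
    have h2 : (m + x) ^ (n + 1) * (m + x) ≤ (m ^ (n + 1) + 3 ^ (n + 1) * m ^ n) * (m + 1) :=
      mul_le_mul ih (by linarith) (by linarith) (by positivity)
    have h3 : m ^ n ≤ m ^ (n + 1) := by
      rw [pow_succ]
      nlinarith
    have h4 : (3 : ℝ) ^ (n + 1) * m ^ n ≤ 3 ^ (n + 1) * m ^ (n + 1) :=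
      mul_le_mul_of_nonneg_left h3 (by positivity)
    have h5 : (1 : ℝ) ≤ 3 ^ (n + 1) := one_le_pow₀ (by norm_num)
    have h6 : m ^ (n + 1) ≤ 3 ^ (n + 1) * m ^ (n + 1) :=
      le_mul_of_one_le_left (by positivity) h5
    rw [h1]
    refine h2.trans ?_
    have h7 : (m ^ (n + 1) + 3 ^ (n + 1) * m ^ n) * (m + 1) =
        m ^ (n + 1 + 1) + m ^ (n + 1) + 3 ^ (n + 1) * m ^ (n + 1) + 3 ^ (n + 1) * m ^ n := by ring
    have h8 : (3 : ℝ) ^ (n + 1 + 1) * m ^ (n + 1) = 3 * (3 ^ (n + 1) * m ^ (n + 1)) := by ring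
    rw [h7, h8]
    linarith

theorem payS_B (R r t : ℕ) (hR : 4 ≤ R) (hr : 1 ≤ r) (hrR : r < R) (ht : 4 ≤ t) (htR : t ≤ R + 1)
    (hcase : ((r : ℝ) / R ≤ 1 / 2 ∧ (t : ℝ) * ((r : ℝ) / R) ^ (t - 2) < 1) ∨
      (1 / 2 ≤ (r : ℝ) / R ∧ 5 ≤ t ∧
        (t : ℝ) * (((r : ℝ) / R) ^ (t - 1) + (1 - (r : ℝ) / R) ^ (t - 1)) < 1)) :
    PayB R r t (psiS R r t) (chiS R r) := by
  classical
  have hR0 : (0 : ℝ) < R := by
    have : 0 < R := by omega
    exact_mod_cast this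
  have hR4 : (4 : ℝ) ≤ R := by exact_mod_cast hR
  have hr0 : (0 : ℝ) < r := by
    have : 0 < r := by omega
    exact_mod_cast this
  have hrR' : (r : ℝ) < R := by exact_mod_cast hrR
  set x : ℝ := (r : ℝ) / R with hx
  have hx0 : 0 < x := div_pos hr0 hR0
  have hx1 : x < 1 := by
    rw [hx, div_lt_one hR0]
    exact hrR'
  have ht4 : (4 : ℝ) ≤ t := by exact_mod_cast ht
  have ht0 : (0 : ℝ) < t := by linarith
  set ch : ℝ := (R.choose (t - 1) : ℝ) with hch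
  have hch0 : 0 < ch := by
    have h1 : 0 < R.choose (t - 1) := Nat.choose_pos (by omega)
    rw [hch]
    exact_mod_cast h1
  obtain ⟨z1, c2, hz1, hz1x, hc2, hF⟩ := realF t ht x hx0 hx1 hcase
  intro C2 C3 hC2 hC3
  refine ⟨min 1 (ch * c2 / (2 * C3 * (R + 1))), lt_min one_pos (by positivity), ?_⟩
  intro γ hγ hγ0
  have hγ1 : γ ≤ 1 := hγ0.trans (min_le_left _ _)
  have hγ2 : C3 * γ * (R + 1) ≤ ch * c2 / 2 := by
    have h1 : γ ≤ ch * c2 / (2 * C3 * (R + 1)) := hγ0.trans (min_le_right _ _)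
    rw [le_div_iff₀ (by positivity)] at h1
    linarith
  have hg0 : 0 < γ / (2 * R) := by positivity
  have hg1 : γ / (2 * R) < 1 := by
    rw [div_lt_one (by positivity)]
    linarith
  obtain ⟨c3, hc3, hF3⟩ := hF (γ / (2 * R)) hg0 hg1
  set s0 : ℝ := min 1 (ch * c3 / (2 * (C2 + C3))) with hs0
  have hs0pos : 0 < s0 := lt_min one_pos (by positivity)
  refine ⟨s0 ^ 2, by positivity, ?_⟩
  intro η hη hη0
  have hsq : Real.sqrt η ≤ s0 := by
    rw [Real.sqrt_le_left hs0pos.le]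
    exact hη0
  have hsq0 : 0 ≤ Real.sqrt η := Real.sqrt_nonneg η
  have hsq1 : Real.sqrt η ≤ 1 := hsq.trans (min_le_left _ _)
  have hηs : η ≤ Real.sqrt η := by
    have h1 : Real.sqrt η * Real.sqrt η = η := Real.mul_self_sqrt hη.le
    nlinarith
  have hηc : C3 * Real.sqrt η + C2 * η ≤ ch * c3 / 2 := by
    have h1 : s0 ≤ ch * c3 / (2 * (C2 + C3)) := min_le_right _ _
    have h2 : Real.sqrt η ≤ ch * c3 / (2 * (C2 + C3)) := hsq.trans h1
    rw [le_div_iff₀ (by positivity)] at h2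
    have h3 : C2 * η ≤ C2 * Real.sqrt η := mul_le_mul_of_nonneg_left hηs hC2.le
    nlinarith
  set cm : ℝ := min c2 c3 with hcm
  have hcm0 : 0 < cm := lt_min hc2 hc3
  refine ⟨ch * 3 ^ (t - 1), ch * cm / (2 * (R + 1)), by positivity, by positivity, ?_⟩
  intro m hPar ι L u k e h hVec hk he hh hsum
  have hη1 : η ≤ 1 := hηs.trans hsq1
  have hm0 : (r : ℝ) + 1 ≤ m := by
    have h1 := hPar.hm
    have h2 : (0 : ℝ) ≤ m := Nat.cast_nonneg m
    nlinarith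
  have hm1 : (1 : ℝ) ≤ m := by linarith
  have hm1' : 1 ≤ m := by exact_mod_cast hm1
  have hmpos : (0 : ℝ) < m := by linarith
  have hpow : (m : ℝ) ^ (t - 1) = (m : ℝ) ^ (t - 2) * m := by
    rw [← pow_succ]
    congr 1
    omega
  have ht1 : t - 1 = (t - 2) + 1 := by omega
  set D : ℝ := (R : ℝ) * m + r with hD
  have hDpos : 0 < D := by positivity
  have hRm : (R : ℝ) * m ≤ D := by linarith
  have hDm : D ≤ (R + 1) * m := by
    have : (R : ℝ) * m + r ≤ (R + 1) * m := by nlinarith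
    exact this
  set U : ι → ℝ := fun i => ∑ j, u i j with hU
  set z : ι → ℝ := fun i => U i / D with hz
  have hU0 : ∀ i ∈ L, 0 ≤ U i := fun i hi => Finset.sum_nonneg fun j _ => (hVec i hi).nn j
  have hz0 : ∀ i ∈ L, 0 ≤ z i := fun i hi => div_nonneg (hU0 i hi) hDpos.le
  have hzle : ∀ i ∈ L, z i ≤ 1 - γ / (2 * R) := by
    intro i hi
    have h1 : U i ≤ (R - γ / 2) * m := (hVec i hi).sum
    have h2 : 0 ≤ 1 - γ / (2 * (R : ℝ)) := by linarith
    show U i / D ≤ _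
    rw [div_le_iff₀ hDpos]
    have h3 : (1 - γ / (2 * (R : ℝ))) * (R * m) = (R - γ / 2) * m := by
      field_simp
    have h4 := mul_le_mul_of_nonneg_left hRm h2
    linarith
  have hz1' : ∀ i ∈ L, z i ≤ 1 := fun i hi => (hzle i hi).trans (by linarith)
  have hUz : ∀ i, U i = D * z i := by
    intro i
    show U i = D * (U i / D)
    field_simp
  set Z : ℝ := ∑ i ∈ L, z i with hZ
  have hZsum : ∑ i ∈ L, U i = D * Z := by
    rw [hZ, Finset.mul_sum]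
    exact Finset.sum_congr rfl fun i _ => hUz i
  have hhD : h ≤ D * (1 - Z) := by
    have h1 : ∑ i ∈ L, U i + h ≤ D := hsum
    rw [hZsum] at h1
    linarith
  have hZ1 : Z ≤ 1 := by
    by_contra hcon
    push Not at hcon
    have : D * (1 - Z) < 0 := mul_neg_of_pos_of_neg hDpos (by linarith)
    linarith
  have hZ0 : 0 ≤ Z := Finset.sum_nonneg hz0
  -- the real inequality
  have hreal := hF3 ι L z (fun i hi => ⟨hz0 i hi, hzle i hi⟩) hZ1
  rw [← hZ] at hreal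
  set σ : ι → ℝ := fun i => if z i ≤ z1 then c2 * z i else c3 with hσ
  -- the power of D / R
  have hDR : D / R = m + x := by
    rw [hD, hx]
    field_simp
  have hDRp : (D / R) ^ (t - 1) ≤ (m : ℝ) ^ (t - 1) + 3 ^ (t - 1) * (m : ℝ) ^ (t - 2) := by
    rw [hDR, ht1]
    exact PaySB_pow m hm1 x hx0.le hx1.le (t - 2)
  -- the sum S
  set S : ℝ := ∑ i ∈ L, z i ^ (t - 1) + 1 / t * (1 - Z) ^ (t - 1) with hS
  have hn0 : t - 1 ≠ 0 := by omega
  have hS0 : 0 ≤ S := by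
    have h1 : 0 ≤ ∑ i ∈ L, z i ^ (t - 1) := Finset.sum_nonneg fun i hi => pow_nonneg (hz0 i hi) _
    have h2 : 0 ≤ 1 / (t : ℝ) * (1 - Z) ^ (t - 1) :=
      mul_nonneg (by positivity) (pow_nonneg (by linarith) _)
    linarith
  have hS1 : S ≤ 1 := by
    have h1 : ∑ i ∈ L, z i ^ (t - 1) ≤ Z :=
      Finset.sum_le_sum fun i hi => pow_le_of_le_one (hz0 i hi) (hz1' i hi) hn0
    have h2 : (1 - Z) ^ (t - 1) ≤ 1 - Z := pow_le_of_le_one (by linarith) (by linarith) hn0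
    have h3 : 1 / (t : ℝ) ≤ 1 := by
      rw [div_le_one ht0]
      linarith
    have h4 : 0 ≤ (1 - Z) ^ (t - 1) := pow_nonneg (by linarith) _
    have h5 : 1 / (t : ℝ) * (1 - Z) ^ (t - 1) ≤ 1 * (1 - Z) ^ (t - 1) :=
      mul_le_mul_of_nonneg_right h3 h4
    linarith
  have hkS : ∑ i ∈ L, k i + ch * (h / R) ^ (t - 1) / t ≤ ch * (D / R) ^ (t - 1) * S := by
    have h1 : ∀ i ∈ L, k i ≤ ch * (D / R) ^ (t - 1) * z i ^ (t - 1) := by
      intro i hi
      refine (hk i hi).1.trans (le_of_eq ?_)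
      have h2 : (∑ j, u i j) / (R : ℝ) = (D / R) * z i := by
        have : ∑ j, u i j = D * z i := hUz i
        rw [this]
        ring
      rw [h2, mul_pow]
      ring
    have h3 : ch * (h / R) ^ (t - 1) / t ≤ ch * (D / R) ^ (t - 1) * (1 / t * (1 - Z) ^ (t - 1)) := by
      have h4 : h / R ≤ (D / R) * (1 - Z) := by
        rw [div_le_iff₀ hR0]
        have : D / R * (1 - Z) * R = D * (1 - Z) := by field_simp
        rw [this]
        exact hhD
      have h5 : (h / R) ^ (t - 1) ≤ ((D / R) * (1 - Z)) ^ (t - 1) :=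
        pow_le_pow_left₀ (div_nonneg hh hR0.le) h4 _
      rw [mul_pow] at h5
      have h6 : ch * (h / R) ^ (t - 1) / t ≤ ch * ((D / R) ^ (t - 1) * (1 - Z) ^ (t - 1)) / t :=
        div_le_div_of_nonneg_right (mul_le_mul_of_nonneg_left h5 hch0.le) ht0.le
      refine h6.trans (le_of_eq ?_)
      ring
    have h7 : ∑ i ∈ L, k i ≤ ch * (D / R) ^ (t - 1) * ∑ i ∈ L, z i ^ (t - 1) := by
      rw [Finset.mul_sum]
      exact Finset.sum_le_sum h1
    have h8 : ch * (D / R) ^ (t - 1) * S = ch * (D / R) ^ (t - 1) * ∑ i ∈ L, z i ^ (t - 1) +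
        ch * (D / R) ^ (t - 1) * (1 / t * (1 - Z) ^ (t - 1)) := by
      rw [hS]
      ring
    linarith
  have hkS2 : ∑ i ∈ L, k i + ch * (h / R) ^ (t - 1) / t ≤
      ch * (m : ℝ) ^ (t - 1) * S + ch * 3 ^ (t - 1) * (m : ℝ) ^ (t - 2) := by
    refine hkS.trans ?_
    have h1 : ch * (D / R) ^ (t - 1) * S ≤
        ch * ((m : ℝ) ^ (t - 1) + 3 ^ (t - 1) * (m : ℝ) ^ (t - 2)) * S :=
      mul_le_mul_of_nonneg_right (mul_le_mul_of_nonneg_left hDRp hch0.le) hS0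
    have h2 : ch * (3 ^ (t - 1) * (m : ℝ) ^ (t - 2)) * S ≤
        ch * (3 ^ (t - 1) * (m : ℝ) ^ (t - 2)) * 1 :=
      mul_le_mul_of_nonneg_left hS1 (by positivity)
    have h3 : ch * ((m : ℝ) ^ (t - 1) + 3 ^ (t - 1) * (m : ℝ) ^ (t - 2)) * S =
        ch * (m : ℝ) ^ (t - 1) * S + ch * (3 ^ (t - 1) * (m : ℝ) ^ (t - 2)) * S := by ring
    linarith
  -- the payments
  have hpsi : ∑ i ∈ L, psiS R r t m (u i) =
      ch * (m : ℝ) ^ (t - 1) * ∑ i ∈ L, ((t : ℝ) - 1) / t * (max (z i - x) 0 / (1 - x)) := by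
    rw [Finset.mul_sum]
    refine Finset.sum_congr rfl fun i _ => ?_
    unfold psiS AA
    have h1 : (∑ j, u i j) / ((R : ℝ) * m + r) = z i := rfl
    rw [h1, ← hx, ← hch]
    ring
  have hPL := PL_lo R r m t (by omega) (by omega) hm1'
  have hpowpos : 0 < (m : ℝ) ^ (t - 1) := by positivity
  have hpowpos2 : 0 < (m : ℝ) ^ (t - 2) := by positivity
  have hmain1 : ∑ i ∈ L, k i - ∑ i ∈ L, psiS R r t m (u i) + ch * (h / R) ^ (t - 1) / t -
      PL R r m t ≤ ch * 3 ^ (t - 1) * (m : ℝ) ^ (t - 2) -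
        ch * (m : ℝ) ^ (t - 1) * ∑ i ∈ L, σ i := by
    rw [hpsi]
    rw [Finset.sum_sub_distrib] at hreal
    have h1 := mul_le_mul_of_nonneg_left hreal (by positivity : 0 ≤ ch * (m : ℝ) ^ (t - 1))
    have h2 : ch * (m : ℝ) ^ (t - 1) * (1 / t) = ch * (m : ℝ) ^ (t - 1) / t := by ring
    have h3 : ch * (m : ℝ) ^ (t - 1) * S = ch * (m : ℝ) ^ (t - 1) * ∑ i ∈ L, z i ^ (t - 1) +
        ch * (m : ℝ) ^ (t - 1) * (1 / t * (1 - Z) ^ (t - 1)) := by
      rw [hS]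
      ring
    have h4 : ∑ i ∈ L, (if z i ≤ z1 then c2 * z i else c3) = ∑ i ∈ L, σ i := rfl
    rw [h4] at h1
    have h5 : ch * (m : ℝ) ^ (t - 1) * (∑ i ∈ L, z i ^ (t - 1) -
        ∑ i ∈ L, ((t : ℝ) - 1) / t * (max (z i - x) 0 / (1 - x)) +
          1 / t * (1 - Z) ^ (t - 1)) = ch * (m : ℝ) ^ (t - 1) * ∑ i ∈ L, z i ^ (t - 1) -
        ch * (m : ℝ) ^ (t - 1) * ∑ i ∈ L, ((t : ℝ) - 1) / t * (max (z i - x) 0 / (1 - x)) +
        ch * (m : ℝ) ^ (t - 1) * (1 / t * (1 - Z) ^ (t - 1)) := by ring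
    have h6 : ch * (m : ℝ) ^ (t - 1) * (1 / t - ∑ i ∈ L, σ i) =
        ch * (m : ℝ) ^ (t - 1) * (1 / t) - ch * (m : ℝ) ^ (t - 1) * ∑ i ∈ L, σ i := by ring
    rw [h5, h6] at h1
    rw [← hch] at hPL
    linarith
  -- the errors
  have herr : ∀ i ∈ L, e i + (if chiS R r m (u i) then C2 * η * (m : ℝ) ^ (t - 1) else 0) ≤
      1 / 2 * (ch * (m : ℝ) ^ (t - 1) * σ i) := by
    intro i hi
    by_cases hzi : z i ≤ z1
    · have hnot : ¬ chiS R r m (u i) := by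
        unfold chiS
        rw [not_lt]
        show z i ≤ x
        linarith
      have hσi : σ i = c2 * z i := by
        simp only [hσ]
        rw [if_pos hzi]
      rw [if_neg hnot, add_zero, hσi]
      have h1 := (he i hi).1
      have h2 : ∑ j, u i j ≤ (R + 1) * m * z i := by
        have h3 : ∑ j, u i j = D * z i := hUz i
        rw [h3]
        exact mul_le_mul_of_nonneg_right hDm (hz0 i hi)
      have h4 : C3 * γ * (m : ℝ) ^ (t - 2) * ∑ j, u i j ≤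
          C3 * γ * (m : ℝ) ^ (t - 2) * ((R + 1) * m * z i) :=
        mul_le_mul_of_nonneg_left h2 (by positivity)
      have h5 : C3 * γ * (m : ℝ) ^ (t - 2) * ((R + 1) * m * z i) =
          C3 * γ * (R + 1) * ((m : ℝ) ^ (t - 1) * z i) := by
        rw [hpow]
        ring
      have h6 : C3 * γ * (R + 1) * ((m : ℝ) ^ (t - 1) * z i) ≤
          ch * c2 / 2 * ((m : ℝ) ^ (t - 1) * z i) :=
        mul_le_mul_of_nonneg_right hγ2 (mul_nonneg hpowpos.le (hz0 i hi))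
      have h7 : ch * c2 / 2 * ((m : ℝ) ^ (t - 1) * z i) =
          1 / 2 * (ch * (m : ℝ) ^ (t - 1) * (c2 * z i)) := by ring
      linarith
    · have hσi : σ i = c3 := by
        simp only [hσ]
        rw [if_neg hzi]
      have h1 := (he i hi).2
      have h2 : (if chiS R r m (u i) then C2 * η * (m : ℝ) ^ (t - 1) else 0) ≤
          C2 * η * (m : ℝ) ^ (t - 1) := by
        split_ifs
        · exact le_refl _
        · positivity
      have h3 := mul_le_mul_of_nonneg_right hηc hpowpos.le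
      have h4 : ch * c3 / 2 * (m : ℝ) ^ (t - 1) = 1 / 2 * (ch * (m : ℝ) ^ (t - 1) * c3) := by ring
      have h5 : (C3 * Real.sqrt η + C2 * η) * (m : ℝ) ^ (t - 1) =
          C3 * Real.sqrt η * (m : ℝ) ^ (t - 1) + C2 * η * (m : ℝ) ^ (t - 1) := by ring
      rw [hσi]
      linarith
  have herrsum : ∑ i ∈ L, (e i + (if chiS R r m (u i) then C2 * η * (m : ℝ) ^ (t - 1) else 0)) ≤
      1 / 2 * (ch * (m : ℝ) ^ (t - 1) * ∑ i ∈ L, σ i) := by
    rw [Finset.mul_sum, Finset.mul_sum]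
    exact Finset.sum_le_sum herr
  -- the lower bound for the sum of the σ i
  have hσlow : cm / (R + 1) * ∑ i ∈ L, U i ≤ m * ∑ i ∈ L, σ i := by
    rw [Finset.mul_sum, Finset.mul_sum]
    refine Finset.sum_le_sum fun i hi => ?_
    have h1 : cm * z i ≤ σ i := by
      simp only [hσ]
      split_ifs
      · exact mul_le_mul_of_nonneg_right (min_le_left _ _) (hz0 i hi)
      · have h2 : cm * z i ≤ c3 * z i := mul_le_mul_of_nonneg_right (min_le_right _ _) (hz0 i hi)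
        have h3 : c3 * z i ≤ c3 * 1 := mul_le_mul_of_nonneg_left (hz1' i hi) hc3.le
        linarith
    have h4 : U i ≤ (R + 1) * m * z i := by
      rw [hUz i]
      exact mul_le_mul_of_nonneg_right hDm (hz0 i hi)
    have h5 : cm / (R + 1) * U i ≤ cm / (R + 1) * ((R + 1) * m * z i) :=
      mul_le_mul_of_nonneg_left h4 (by positivity)
    have h6 : cm / ((R : ℝ) + 1) * ((R + 1) * m * z i) = m * (cm * z i) := by
      field_simp
    have h7 := mul_le_mul_of_nonneg_left h1 hmpos.le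
    linarith
  have hfin : ch * cm / (2 * (R + 1)) * (m : ℝ) ^ (t - 2) * ∑ i ∈ L, U i ≤
      1 / 2 * (ch * (m : ℝ) ^ (t - 1) * ∑ i ∈ L, σ i) := by
    have h1 := mul_le_mul_of_nonneg_left hσlow
      (by positivity : 0 ≤ 1 / 2 * (ch * (m : ℝ) ^ (t - 2)))
    have h2 : 1 / 2 * (ch * (m : ℝ) ^ (t - 2)) * (cm / (R + 1) * ∑ i ∈ L, U i) =
        ch * cm / (2 * (R + 1)) * (m : ℝ) ^ (t - 2) * ∑ i ∈ L, U i := by
      field_simp
    have h3 : 1 / 2 * (ch * (m : ℝ) ^ (t - 2)) * (m * ∑ i ∈ L, σ i) =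
        1 / 2 * (ch * (m : ℝ) ^ (t - 1) * ∑ i ∈ L, σ i) := by
      rw [hpow]
      ring
    rw [h2, h3] at h1
    exact h1
  have hsplit : ∑ i ∈ L, (k i - psiS R r t m (u i) + e i +
      (if chiS R r m (u i) then C2 * η * (m : ℝ) ^ (t - 1) else 0)) =
      ∑ i ∈ L, k i - ∑ i ∈ L, psiS R r t m (u i) +
        ∑ i ∈ L, (e i + (if chiS R r m (u i) then C2 * η * (m : ℝ) ^ (t - 1) else 0)) := by
    rw [← Finset.sum_sub_distrib, ← Finset.sum_add_distrib]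
    refine Finset.sum_congr rfl fun i _ => ?_
    ring
  have hgoal : ∑ i ∈ L, (k i - psiS R r t m (u i) + e i +
      (if chiS R r m (u i) then C2 * η * (m : ℝ) ^ (t - 1) else 0)) +
      ch * (h / R) ^ (t - 1) / t - PL R r m t ≤
      ch * 3 ^ (t - 1) * (m : ℝ) ^ (t - 2) -
        ch * cm / (2 * (R + 1)) * (m : ℝ) ^ (t - 2) * ∑ i ∈ L, U i := by
    rw [hsplit]
    linarith
  refine le_trans (le_of_eq ?_) hgoal
  congr 3

end Pool.Agent.H45.KTD
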