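import Pool.Agent.H45.KTD.Upp
import Pool.Agent.H45.KTD.Cond
import Pool.Agent.H45.KTD.PaySB
import Pool.Agent.H45.KTD.PayRB
import Pool.Agent.H45.KTD.PayOB
import Pool.Agent.H45.KTD.LG
import Pool.Agent.H45.KTD.LGn
import Pool.Agent.H45.KTD.LB
import Pool.Agent.H45.KTD.LBn

/-!
# KTD MainK (assembly, proved)
-/

set_option autoImplicit false

open Finset Filter Topology

namespace Pool.Agent.H45.KTD

open Pool.Agent.H11.TD

/-- the condition for `L` being optimal -/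
def Opt (R r t : ℕ) : Prop :=
  (2 * R < t * (R - r) ∧ (2 * r ≤ R ∨
    t * r.choose (t - 1) * (r ^ (t - 1) + (R - r) ^ (t - 1)) < R.choose (t - 1) * r ^ (t - 1))) ∨
  (r + 1 = R ∧ t = R + 1)

theorem pay_ex (R r t : ℕ) (hR : 4 ≤ R) (hr : 1 ≤ r) (hrR : r < R) (ht : 4 ≤ t) (htR : t ≤ R + 1)
    (h : Opt R r t) : ∃ (ψ : ℕ → (Fin (R + 1) → ℝ) → ℝ) (χ : ℕ → (Fin (R + 1) → ℝ) → Prop),
      PayA R r t ψ χ ∧ PayB R r t ψ χ ∧ PayC R r ψ χ := by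
  rcases h with ⟨hI, h⟩ | ⟨h1, h2⟩
  · by_cases h3 : 2 * r ≤ R ∨ t ≤ 7 ∨ 10 * r < 7 * R
    · exact ⟨_, _, payS_A R r t hR hr hrR ht htR hI,
        payS_B R r t hR hr hrR ht htR (condS R r t hR hrR ht hI h3), payS_C R r t hR hr hrR ht⟩
    · push Not at h3
      obtain ⟨h4, h5, h6⟩ := h3
      have h7 : t * r.choose (t - 1) * (r ^ (t - 1) + (R - r) ^ (t - 1)) <
          R.choose (t - 1) * r ^ (t - 1) := by
        rcases h with h | h
        · omega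
        · exact h
      exact ⟨_, _, payR_A R r t hR hr hrR ht htR hI,
        payR_B R r t hR hr hrR (by omega) htR hI (by omega) h7, payR_C R r t hR hr hrR ht⟩
  · obtain rfl : r = R - 1 := by omega
    subst h2
    exact ⟨_, _, payO_A R hR, payO_B R hR, payO_C R hR⟩

theorem main_opt (R r t : ℕ) (hR : 4 ≤ R) (hr : 1 ≤ r) (hrR : r < R) (ht : 4 ≤ t)
    (htR : t ≤ R + 1) (h : Opt R r t) : ∃ m0 : ℕ, ∀ m : ℕ, m0 ≤ m →
      Tendsto (fun p : ℕ => (exK t p (R * m + r) (R + 1) : ℝ) / p) atTop (𝓝 (PL R r m t)) := by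
  obtain ⟨ψ, χ, hA, hB, hC⟩ := pay_ex R r t hR hr hrR ht htR h
  obtain ⟨m1, h1⟩ := upperK R r t hR hrR ht htR ψ χ hA hB hC
  refine ⟨max 1 m1, fun m hm => ?_⟩
  have hm1 : 1 ≤ m := (le_max_left _ _).trans hm
  have hm2 : m1 ≤ m := (le_max_right _ _).trans hm
  have hP0 : 0 ≤ PL R r m t := by
    refine le_trans ?_ (PL_lo R r m t hrR.le (by omega) hm1)
    positivity
  refine lim_ofK t _ _ ((R + 1) * m + r) (by omega) _ (by positivity) hP0 ?_ ?_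
  · intro p G hG
    have h2 := h1 m hm2 (Fin p) G (ctx_of_cls G hG)
    rw [kq_univ, Fintype.card_fin] at h2
    exact h2
  · refine ⟨_, turan_cls R r m hrR.le, ?_⟩
    rw [kc_turan R r m t hrR.le]
    unfold PL
    have h7 : (0 : ℝ) < (R + 1) * m + r := by positivity
    push_cast
    rw [div_mul_cancel₀ _ h7.ne']

theorem main_G (R r t : ℕ) (hR : 4 ≤ R) (hr : r + 2 ≤ R) (ht : 4 ≤ t) (htR : t ≤ R + 1)
    (h : t * (R - r) < 2 * R) : ∃ m0 : ℕ, ∀ m : ℕ, m0 ≤ m →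
      ∃ c : ℝ, PL R r m t < c ∧ ∀ᶠ p : ℕ in atTop, c ≤ (exK t p (R * m + r) (R + 1) : ℝ) / p := by
  obtain ⟨m1, h1⟩ := lgn R r t hR hr ht htR h
  refine ⟨max 1 m1, fun m hm => ?_⟩
  have hm1 : 1 ≤ m := (le_max_left _ _).trans hm
  have hm2 : m1 ≤ m := (le_max_right _ _).trans hm
  refine liminf_ofK t _ _ ((R + 1) * m + r + 1) (by omega) _ (by positivity) ?_
  obtain ⟨G0, hG0, h2⟩ := low_GK R r m t hr hm1 (by omega)
  refine ⟨G0, hG0, ?_⟩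
  have h3 := h1 m hm2
  push_cast
  exact h3.trans_le h2

theorem main_B (R r t : ℕ) (hR : 4 ≤ R) (hr : 1 ≤ r) (hrR : r < R) (hq : R ≤ 2 * r) (ht : 4 ≤ t)
    (htR : t ≤ R + 1)
    (h : R.choose (t - 1) * r ^ (t - 1) < t * r.choose (t - 1) * (r ^ (t - 1) + (R - r) ^ (t - 1))) :
    ∃ m0 : ℕ, ∀ m : ℕ, m0 ≤ m →
      ∃ c : ℝ, PL R r m t < c ∧ ∀ᶠ p : ℕ in atTop, c ≤ (exK t p (R * m + r) (R + 1) : ℝ) / p := by
  obtain ⟨m1, h1⟩ := lbn R r t hR hr hrR ht htR h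
  refine ⟨max 1 m1, fun m hm => ?_⟩
  have hm1 : 1 ≤ m := (le_max_left _ _).trans hm
  have hm2 : m1 ≤ m := (le_max_right _ _).trans hm
  refine liminf_ofK t _ _ (2 * ((R + 1) * m + r) + 1) (by omega) _ (by positivity) ?_
  obtain ⟨G0, hG0, h2⟩ := low_B R r m t hr hrR hq (by omega) hm1
  refine ⟨G0, hG0, ?_⟩
  have h3 := h1 m hm2
  push_cast
  exact h3.trans_le h2

end Pool.Agent.H45.KTD
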