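import Pool.Agent.H11.TD.HulB
import Pool.Agent.H11.TD.Tu
import Pool.Agent.H45.KTD.Bas

/-!
# KTD MixE: edges between the neighbours of `b` inside and outside a hull

`V` a core, `b ∉ hull V`, `K = nb b (hull V)`, `N' = NN b \ hull V`.
* `mixE1`: every `v ∈ K` has at most `3 γ m` neighbours outside `hull V` (`hpt_ext`).
* `mixE2`: `ee K N' = ∑_{z ∈ N'} |nb z K| ≤ ∑_{z ∈ N'} |nb z (hull V)| ≤ 4 R³ √η m²`: every `z ∈ N'` is outside `tot V`
  (`tot V ⊆ hull V`); those with `|nb z (tot V)| ≥ √η m` are at most `2 R² √η m` by `outer_count` (`θ = √η`) and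
  contribute at most `R m + r ≤ (R + 1) m` each; the others have `|nb z (hull V)| ≤ √η m + 4 R η m ≤ 2 √η m`
  (`hull_out_card`, `4 R √η ≤ 1`), and there are at most `(R + 1) m` of them; `(2 R² + 2)(R + 1) ≤ 4 R³`.
  (This is part of the proof of `Pool.Agent.H11.TD.badJ` in `Pool/Agent/H11/TD/BadJ.lean`, where it can be copied.)
-/

set_option autoImplicit false

open Finset

namespace Pool.Agent.H45.KTD

open Pool.Agent.H11.TD

variable {α : Type} [Fintype α] [DecidableEq α] (G : SimpleGraph α) {R r m : ℕ} {γ η : ℝ}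
  {V : Fin (R + 1) → Finset α}

theorem mixE1 (hp : Par R r m γ η) (hG : Ctx G R r m) (hV : Core G R m η V) (b : α) :
    (ee G (nb G b (hull G m γ V)) (NN G b \ hull G m γ V) : ℝ) ≤
      3 * γ * m * ((nb G b (hull G m γ V)).card : ℝ) := by
  unfold ee
  rw [Nat.cast_sum]
  calc ∑ z ∈ nb G b (hull G m γ V), ((nb G z (NN G b \ hull G m γ V)).card : ℝ)
      ≤ ∑ _z ∈ nb G b (hull G m γ V), 3 * γ * m := by
        refine Finset.sum_le_sum fun z hz => ?_
        rw [mem_nb] at hz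
        have h1 := hpt_ext G hp hG hV z hz.1
        have h2 : nb G z (NN G b \ hull G m γ V) ⊆ NN G z \ hull G m γ V := by
          intro w hw
          rw [mem_nb, Finset.mem_sdiff] at hw
          rw [Finset.mem_sdiff, mem_NN]
          exact ⟨hw.2, hw.1.2⟩
        have h3 : ((nb G z (NN G b \ hull G m γ V)).card : ℝ) ≤
            ((NN G z \ hull G m γ V).card : ℝ) := by exact_mod_cast Finset.card_le_card h2
        linarith
    _ = 3 * γ * m * ((nb G b (hull G m γ V)).card : ℝ) := by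
        rw [Finset.sum_const, nsmul_eq_mul]; ring

theorem mixE2 (hp : Par R r m γ η) (hG : Ctx G R r m) (hV : Core G R m η V) (b : α)
    (hb : b ∉ hull G m γ V) :
    (ee G (nb G b (hull G m γ V)) (NN G b \ hull G m γ V) : ℝ) ≤
      4 * (R : ℝ) ^ 3 * Real.sqrt η * m ^ 2 := by
  set U0 := hull G m γ V with hU0
  set N' := NN G b \ U0 with hN'
  have hR4 : (4 : ℝ) ≤ R := by exact_mod_cast hp.hR
  have hR0 : (0 : ℝ) < R := by linarith
  have hm0 : (0 : ℝ) ≤ m := Nat.cast_nonneg m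
  have hη0 := hp.hη
  have hγ0 := hp.hγ
  have hγ1 : γ ≤ 1 := by
    have := hp.hγ'
    nlinarith
  have hη1 : 16 * (R : ℝ) ^ 2 * η ≤ 1 := by
    have := hp.hη'
    nlinarith [mul_pos (pow_pos hR0 2) hη0]
  have hηle : η ≤ 1 := by nlinarith [mul_pos (pow_pos hR0 2) hη0]
  have hrm : (r : ℝ) ≤ m := by
    have h1 := hp.hm
    have h2 : η * m ≤ 1 * m := mul_le_mul_of_nonneg_right hηle hm0
    linarith
  set s := Real.sqrt η with hs
  have hs0 : 0 < s := Real.sqrt_pos.2 hη0
  have hss : s * s = η := Real.mul_self_sqrt hη0.le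
  have h4Rs : 4 * R * s ≤ 1 := by
    have h1 : (4 * R * s) ^ 2 ≤ 1 ^ 2 := by
      calc (4 * R * s) ^ 2 = 16 * (R : ℝ) ^ 2 * (s * s) := by ring
        _ = 16 * (R : ℝ) ^ 2 * η := by rw [hss]
        _ ≤ 1 ^ 2 := by linarith
    exact le_of_sq_le_sq h1 (by norm_num)
  -- degrees
  have hdeg : ∀ z : α, ((nb G z U0).card : ℝ) ≤ (R + 1) * m := by
    intro z
    have h1 := (nb_card_le G z U0).trans (hG.deg z)
    have h2 : ((nb G z U0).card : ℝ) ≤ R * m + r := by exact_mod_cast h1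
    linarith
  have hK : nb G b U0 = NN G b ∩ U0 := nb_eq_inter G
  have hcard : N'.card + (nb G b U0).card = (NN G b).card := by
    rw [hN', hK]
    exact Finset.card_sdiff_add_card_inter _ _
  have hcardR : (N'.card : ℝ) + ((nb G b U0).card : ℝ) ≤ R * m + r := by
    have h1 := hG.deg b
    rw [← hcard] at h1
    exact_mod_cast h1
  have hN'c : (N'.card : ℝ) ≤ (R + 1) * m := by
    have : (0 : ℝ) ≤ ((nb G b U0).card : ℝ) := Nat.cast_nonneg _
    linarith
  -- mixed term
  have htot : tot V ⊆ U0 := by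
    intro z hz
    rw [mem_tot] at hz
    obtain ⟨i, hi⟩ := hz
    rw [hU0, hull, mem_tot]
    exact ⟨i, core_sub_hpt G hp hV i hi⟩
  have h1 : ee G (nb G b U0) N' ≤ ∑ z ∈ N', (nb G z U0).card := by
    unfold ee
    rw [sum_nb_comm]
    refine Finset.sum_le_sum fun z _ => Finset.card_le_card (nb_mono G ?_)
    rw [hK]
    exact Finset.inter_subset_right
  classical
  set Y := N'.filter (fun z => s * m ≤ ((nb G z (tot V)).card : ℝ)) with hY
  have hYc : (Y.card : ℝ) ≤ 2 * (R : ℝ) ^ 2 * s * m := by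
    have h2 := outer_count G hp hG hV s Y (fun z hz => by
      rw [hY, Finset.mem_filter] at hz
      refine ⟨fun h3 => ?_, hz.2⟩
      rw [hN', Finset.mem_sdiff] at hz
      exact hz.1.2 (htot h3))
    rw [← hss] at h2
    have h3 : s * (Y.card : ℝ) ≤ s * (2 * (R : ℝ) ^ 2 * s * m) := by
      calc s * (Y.card : ℝ) ≤ 2 * (R : ℝ) ^ 2 * (s * s) * m := h2
        _ = s * (2 * (R : ℝ) ^ 2 * s * m) := by ring
    exact le_of_mul_le_mul_left h3 hs0
  have hsplit : ∑ z ∈ N', ((nb G z U0).card : ℝ)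
      = ∑ z ∈ Y, ((nb G z U0).card : ℝ) +
        ∑ z ∈ N'.filter (fun z => ¬ s * m ≤ ((nb G z (tot V)).card : ℝ)),
          ((nb G z U0).card : ℝ) := by
    rw [hY]
    exact (Finset.sum_filter_add_sum_filter_not _ _ _).symm
  have hA : ∑ z ∈ Y, ((nb G z U0).card : ℝ) ≤ 2 * (R : ℝ) ^ 2 * s * m * ((R + 1) * m) := by
    calc ∑ z ∈ Y, ((nb G z U0).card : ℝ) ≤ ∑ _z ∈ Y, (R + 1) * (m : ℝ) :=
          Finset.sum_le_sum fun z _ => hdeg z
      _ = Y.card * ((R + 1) * m) := by rw [Finset.sum_const, nsmul_eq_mul]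
      _ ≤ _ := mul_le_mul_of_nonneg_right hYc (by positivity)
  have hB : ∑ z ∈ N'.filter (fun z => ¬ s * m ≤ ((nb G z (tot V)).card : ℝ)),
      ((nb G z U0).card : ℝ) ≤ (R + 1) * m * (2 * s * m) := by
    calc _ ≤ ∑ _z ∈ N'.filter (fun z => ¬ s * m ≤ ((nb G z (tot V)).card : ℝ)),
            (2 * s * m : ℝ) := by
          refine Finset.sum_le_sum fun z hz => ?_
          rw [Finset.mem_filter, not_le] at hz
          have h3 : nb G z U0 ⊆ nb G z (tot V) ∪ (U0 \ tot V) := by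
            intro w hw
            rw [mem_nb] at hw
            by_cases h4 : w ∈ tot V
            · exact Finset.mem_union_left _ ((mem_nb G).2 ⟨h4, hw.2⟩)
            · exact Finset.mem_union_right _ (Finset.mem_sdiff.2 ⟨hw.1, h4⟩)
          have h5 := (Finset.card_le_card h3).trans (Finset.card_union_le _ _)
          have h6 : ((nb G z U0).card : ℝ) ≤
              ((nb G z (tot V)).card : ℝ) + ((U0 \ tot V).card : ℝ) := by exact_mod_cast h5
          have h7 := hull_out_card G hp hG hV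
          have h8 : 4 * R * η * m ≤ s * m := by
            rw [← hss]
            calc 4 * R * (s * s) * m = (4 * R * s) * (s * m) := by ring
              _ ≤ 1 * (s * m) := mul_le_mul_of_nonneg_right h4Rs (by positivity)
              _ = s * m := one_mul _
          have h9 := hz.2
          linarith
      _ = ((N'.filter (fun z => ¬ s * m ≤ ((nb G z (tot V)).card : ℝ))).card : ℝ) *
            (2 * s * m) := by rw [Finset.sum_const, nsmul_eq_mul]
      _ ≤ N'.card * (2 * s * m) := by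
          refine mul_le_mul_of_nonneg_right ?_ (by positivity)
          exact_mod_cast Finset.card_filter_le _ _
      _ ≤ (R + 1) * m * (2 * s * m) := mul_le_mul_of_nonneg_right hN'c (by positivity)
  have h2 : (ee G (nb G b U0) N' : ℝ) ≤ ∑ z ∈ N', ((nb G z U0).card : ℝ) := by
    exact_mod_cast h1
  rw [hsplit] at h2
  have h3 : 2 * (R : ℝ) ^ 2 * s * m * ((R + 1) * m) + (R + 1) * m * (2 * s * m)
      = (2 * ((R : ℝ) ^ 3 + R ^ 2 + R + 1)) * (s * m ^ 2) := by ring
  have h4 : 2 * ((R : ℝ) ^ 3 + R ^ 2 + R + 1) ≤ 4 * (R : ℝ) ^ 3 := by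
    have h5 : (R : ℝ) ^ 2 * 4 ≤ (R : ℝ) ^ 2 * R := mul_le_mul_of_nonneg_left hR4 (by positivity)
    nlinarith
  have h5 : (2 * ((R : ℝ) ^ 3 + R ^ 2 + R + 1)) * (s * m ^ 2)
      ≤ 4 * (R : ℝ) ^ 3 * (s * m ^ 2) := mul_le_mul_of_nonneg_right h4 (by positivity)
  calc (ee G (nb G b U0) N' : ℝ) ≤ _ := h2
    _ ≤ 2 * (R : ℝ) ^ 2 * s * m * ((R + 1) * m) + (R + 1) * m * (2 * s * m) := add_le_add hA hB
    _ ≤ 4 * (R : ℝ) ^ 3 * (s * m ^ 2) := by rw [h3]; exact h5
    _ = 4 * (R : ℝ) ^ 3 * s * m ^ 2 := by ring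

end Pool.Agent.H45.KTD
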