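import Pool.Agent.H45.KTD.Defs
import Pool.Agent.H45.KTD.PSp

/-!
# KTD NumG: a bad outside vertex (numerical)

`(U/R) ^ (t-1) ≤ U (2 m) ^ (t-2)` for `0 ≤ U ≤ R m` (`Vec.sum`), `ψ ≥ 0` (`PayC.nn`), `e ≤ C3 γ m ^ (t-2) U`, and if `χ` then `m ≤ U / c0`
(`PayC.ch`), so the `η` term is at most `(C2 η / c0) m ^ (t-2) U`; `γ, η ≤ 1`.  `PL ≥ C(R, t-1) m ^ (t-1) / t` (`PL_lo`, `m ≥ 1` by `Par.hm`),
`k' / t ≤ (C(R, t-1) - ε') m ^ (t-1) / t`.
-/

set_option autoImplicit false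

open Finset

namespace Pool.Agent.H45.KTD

open Pool.Agent.H11.TD

open scoped Classical in
theorem numG (R r t : ℕ) (hR : 4 ≤ R) (hrR : r < R) (ht : 4 ≤ t) (htR : t ≤ R + 1)
    (ψ : ℕ → (Fin (R + 1) → ℝ) → ℝ) (χ : ℕ → (Fin (R + 1) → ℝ) → Prop) (hC : PayC R r ψ χ)
    (C2 C3 : ℝ) (hC2 : 0 < C2) (hC3 : 0 < C3) : ∃ C9 : ℝ, 0 < C9 ∧ ∀ (m : ℕ) (γ η : ℝ),
      Par R r m γ η → ∀ (ι : Type) (L : Finset ι) (u : ι → Fin (R + 1) → ℝ) (k e : ι → ℝ)
        (k' ε' : ℝ), (∀ i ∈ L, Vec R m γ η (u i)) →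
        (∀ i ∈ L, k i ≤ (R.choose (t - 1) : ℝ) * ((∑ j, u i j) / R) ^ (t - 1)) →
        (∀ i ∈ L, e i ≤ C3 * γ * (m : ℝ) ^ (t - 2) * ∑ j, u i j) →
        k' ≤ ((R.choose (t - 1) : ℝ) - ε') * (m : ℝ) ^ (t - 1) →
        ∑ i ∈ L, (k i - ψ m (u i) + e i +
          (if χ m (u i) then C2 * η * (m : ℝ) ^ (t - 1) else 0)) + k' / t - PL R r m t ≤
        - (ε' / t) * (m : ℝ) ^ (t - 1) + C9 * (m : ℝ) ^ (t - 2) * ∑ i ∈ L, ∑ j, u i j := by
  obtain ⟨c0, hc0, hch⟩ := hC.ch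
  have hK0 : (0 : ℝ) ≤ (R.choose (t - 1) : ℝ) := Nat.cast_nonneg _
  refine ⟨(R.choose (t - 1) : ℝ) + C3 + C2 / c0, by positivity, ?_⟩
  intro m γ η hPar ι L u k e k' ε' hvec hk he hk'
  have hR1 : (1 : ℝ) ≤ R := by exact_mod_cast (by omega : 1 ≤ R)
  have hR0 : (0 : ℝ) < R := by linarith
  have hγ0 := hPar.hγ
  have hη0 := hPar.hη
  have hγ1 : γ ≤ 1 := by
    have h1 := hPar.hγ'
    have h2 : γ ≤ R * γ := by nlinarith
    nlinarith
  have hη1 : η ≤ 1 := by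
    have h1 := hPar.hη'
    have h2 : η ≤ (R : ℝ) ^ 2 * η := by
      have : (1 : ℝ) ≤ (R : ℝ) ^ 2 := one_le_pow₀ hR1
      nlinarith
    nlinarith
  have hm0 : (0 : ℝ) < m := by
    have h1 := hPar.hm
    have h2 : (0 : ℝ) ≤ r := Nat.cast_nonneg r
    by_contra h3
    have h4 : (m : ℝ) ≤ 0 := not_lt.mp h3
    have h5 : η * (m : ℝ) ≤ 0 := mul_nonpos_of_nonneg_of_nonpos hη0.le h4
    linarith
  have hm1 : 1 ≤ m := by exact_mod_cast hm0
  have hmp : 0 ≤ (m : ℝ) ^ (t - 2) := by positivity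
  have hpow : (m : ℝ) ^ (t - 1) = (m : ℝ) ^ (t - 2) * m := by
    rw [← pow_succ]
    congr 1
    omega
  have hterm : ∀ i ∈ L, k i - ψ m (u i) + e i +
      (if χ m (u i) then C2 * η * (m : ℝ) ^ (t - 1) else 0) ≤
      ((R.choose (t - 1) : ℝ) + C3 + C2 / c0) * (m : ℝ) ^ (t - 2) * ∑ j, u i j := by
    intro i hi
    have hv := hvec i hi
    set U := ∑ j, u i j with hU
    have hU0 : 0 ≤ U := sum_nonneg (fun j _ => hv.nn j)
    have hUR : U ≤ R * m := by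
      have h1 := hv.sum
      have h2 : 0 ≤ γ / 2 * m := by positivity
      linarith
    have hUm : U / R ≤ m := by
      rw [div_le_iff₀ hR0]
      linarith
    have hUR0 : 0 ≤ U / R := by positivity
    have h1 : k i ≤ (R.choose (t - 1) : ℝ) * ((m : ℝ) ^ (t - 2) * U) := by
      refine (hk i hi).trans (mul_le_mul_of_nonneg_left ?_ hK0)
      have h2 : (U / R) ^ (t - 1) = (U / R) ^ (t - 2) * (U / R) := by
        rw [← pow_succ]
        congr 1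
        omega
      rw [h2]
      apply mul_le_mul _ _ hUR0 hmp
      · exact pow_le_pow_left₀ hUR0 hUm _
      · rw [div_le_iff₀ hR0]
        nlinarith
    have h3 : 0 ≤ ψ m (u i) := hC.nn m γ η (u i) hPar hv
    have h4 : e i ≤ C3 * ((m : ℝ) ^ (t - 2) * U) := by
      have h5 := he i hi
      have h6 : γ * (C3 * ((m : ℝ) ^ (t - 2) * U)) ≤ 1 * (C3 * ((m : ℝ) ^ (t - 2) * U)) :=
        mul_le_mul_of_nonneg_right hγ1 (by positivity)
      have h7 : C3 * γ * (m : ℝ) ^ (t - 2) * U = γ * (C3 * ((m : ℝ) ^ (t - 2) * U)) := by ring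
      linarith
    have h8 : (if χ m (u i) then C2 * η * (m : ℝ) ^ (t - 1) else 0) ≤
        C2 / c0 * ((m : ℝ) ^ (t - 2) * U) := by
      split_ifs with hχ
      · have h9 := hch m γ η (u i) hPar hv hχ
        have h10 : (m : ℝ) ≤ U / c0 := by
          rw [le_div_iff₀ hc0]
          linarith
        have h11 : C2 * (m : ℝ) ^ (t - 2) * m ≤ C2 * (m : ℝ) ^ (t - 2) * (U / c0) :=
          mul_le_mul_of_nonneg_left h10 (by positivity)
        have h12 : η * (C2 * (m : ℝ) ^ (t - 2) * m) ≤ 1 * (C2 * (m : ℝ) ^ (t - 2) * m) :=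
          mul_le_mul_of_nonneg_right hη1 (by positivity)
        rw [hpow]
        have h13 : C2 * η * ((m : ℝ) ^ (t - 2) * m) = η * (C2 * (m : ℝ) ^ (t - 2) * m) := by ring
        have h14 : C2 / c0 * ((m : ℝ) ^ (t - 2) * U) = C2 * (m : ℝ) ^ (t - 2) * (U / c0) := by
          field_simp
        linarith
      · positivity
    have h15 : ((R.choose (t - 1) : ℝ) + C3 + C2 / c0) * (m : ℝ) ^ (t - 2) * U =
        (R.choose (t - 1) : ℝ) * ((m : ℝ) ^ (t - 2) * U) + C3 * ((m : ℝ) ^ (t - 2) * U) +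
          C2 / c0 * ((m : ℝ) ^ (t - 2) * U) := by ring
    linarith
  have hsum := sum_le_sum hterm
  rw [← mul_sum] at hsum
  have hPL := PL_lo R r m t hrR.le (by omega) hm1
  have ht0 : (0 : ℝ) < t := by exact_mod_cast (by omega : 0 < t)
  have hk'' : k' / t ≤ ((R.choose (t - 1) : ℝ) - ε') * (m : ℝ) ^ (t - 1) / t :=
    div_le_div_of_nonneg_right hk' ht0.le
  have heq : ((R.choose (t - 1) : ℝ) - ε') * (m : ℝ) ^ (t - 1) / t =
      (R.choose (t - 1) : ℝ) * (m : ℝ) ^ (t - 1) / t - ε' / t * (m : ℝ) ^ (t - 1) := by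
    field_simp
  linarith

end Pool.Agent.H45.KTD
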