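import Pool.Agent.H45.KTD.Defs

/-!
# KTD PaySA: the scalar payment, cluster side

`D = R m + r`, `x0 = r/R`, `q = R - r`, `A = AA R t = κ R / t` (`C(R, t-1) (t-1) = κ R`, `κ = KK R t > 0`), `δ = κ q / 2 - A > 0` (from
`2 R < t q`), `C' = C`.  `U b = ∑ i, u b i`, `S = ∑ U b`, `X = ∑ x i`, `c = X - r` (an integer), `Q = ∑ x i (x i - 1) ≥ 0`, `𝓜 = ∑ M i`,
`N` = number of the `b` with `chiS`.  `1/m ≤ η`, `r ≤ η m`, `γ ≤ 1`.
(1) Sum of `part`: `S ≤ 𝓜 + ∑ (m + x i)(x i - c) = 𝓜 + m (r - R c) + Q + X - c X`.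
(2) `ψ(u) ≤ A m ^ (t-1) U / D ≤ (A / R) m ^ (t-2) U` as `U ≤ D` (`(z - x0)/(1 - x0) ≤ z` for `z ≤ 1`).
Case `c ≥ 1`: `Q + 𝓜 ≥ S + m (R c - r) + c X - X ≥ S + m (R c - r)` (`X = r + c ≥ 0`).  The left side is
`≤ m ^ (t-1) (A c + C η c - (κ/2 - C γ)(R c - r)) + m ^ (t-2) S (A/R - κ/2 + C γ) ≤ 0` because
`(κ/2)(R c - r) - A c ≥ c δ` and `κ/2 - A/R ≥ κ/2 - A/q = δ/q`, for small `γ` and `η`.
Case `c = - p ≤ 0`.
* `N ≤ p`: `ψ(u b) ≤ A m ^ (t-1) (1 - γ/(2 R))` (`U b / D ≤ (R - γ/2) m / (R m)`), and it is `0` if not `chiS`; the left side is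
  `≤ p m ^ (t-1) (- A + C η + A (1 - γ/(2R))) ≤ 0` if `C η ≤ A γ / (2 R)`.
* `N ≥ p + 1`: `∑ ψ ≤ (A m ^ (t-1) / (1 - x0)) (∑_χ U b / D - N x0) ≤ (A / q) m ^ (t-2) (S - (p + 1) r m)`, and by (1)
  `S ≤ (Q + 𝓜) + m (r + R p) + X (1 + p)`, `X (1 + p) ≤ r (1 + p)` (`X = r - p`), so
  `∑ ψ ≤ (A / q) m ^ (t-2) (Q + 𝓜 + m p q + r (1 + p))`, and the left side is
  `≤ C η p m ^ (t-1) - (κ/2 - C γ - A/q) m ^ (t-2) (Q + 𝓜) + (A/q) r m ^ (t-2) (1 + p) ≤ C2 η m ^ (t-1) N` (`r m ^ (t-2) ≤ η m ^ (t-1)`).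
-/

set_option autoImplicit false

open Finset

namespace Pool.Agent.H45.KTD

open Pool.Agent.H11.TD

/-- scalar payment -/
noncomputable def psiS (R r t m : ℕ) (u : Fin (R + 1) → ℝ) : ℝ :=
  AA R t * (m : ℝ) ^ (t - 1) * (max ((∑ i, u i) / (R * m + r) - r / R) 0 / (1 - r / R))

/-- vertices to which errors may be charged -/
def chiS (R r m : ℕ) (u : Fin (R + 1) → ℝ) : Prop := (r : ℝ) / R < (∑ i, u i) / (R * m + r)

private theorem paySA_kappa (R t : ℕ) (hR : 4 ≤ R) (ht : 4 ≤ t) (htR : t ≤ R + 1) :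
    0 < KK R t ∧ AA R t * t = KK R t * R := by
  constructor
  · unfold KK
    exact_mod_cast Nat.choose_pos (by omega)
  · obtain ⟨s, rfl⟩ : ∃ s, t = s + 2 := ⟨t - 2, by omega⟩
    obtain ⟨R', rfl⟩ : ∃ R', R = R' + 1 := ⟨R - 1, by omega⟩
    unfold AA KK
    have h := Nat.add_one_mul_choose_eq R' s
    have h' : ((R' : ℝ) + 1) * (R'.choose s : ℝ) = ((R' + 1).choose (s + 1) : ℝ) * (s + 1) := by
      exact_mod_cast h
    have e1 : s + 2 - 1 = s + 1 := by omega
    have e2 : s + 2 - 2 = s := by omega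
    have e3 : R' + 1 - 1 = R' := by omega
    rw [e1, e2, e3]
    push_cast
    have hs : (s : ℝ) + 2 ≠ 0 := by positivity
    rw [div_mul_cancel₀ _ hs]
    linarith

private theorem paySA_z {z x0 : ℝ} (h0 : 0 ≤ z) (h1 : z ≤ 1) (hx : 0 ≤ x0) (hx1 : x0 < 1) :
    max (z - x0) 0 / (1 - x0) ≤ z := by
  rw [div_le_iff₀ (by linarith)]
  apply max_le
  · nlinarith [mul_nonneg hx (sub_nonneg.2 h1)]
  · exact mul_nonneg h0 (by linarith)

private theorem paySA_sum {R : ℕ} {ι : Type} (B : Finset ι) (u : ι → Fin (R + 1) → ℝ)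
    (x : Fin (R + 1) → ℤ) (M : Fin (R + 1) → ℝ) (m r c : ℝ)
    (hc : c = (∑ i, (x i : ℝ)) - r)
    (hpart : ∀ i, ∑ b ∈ B, u b i ≤ M i + (m + x i) * ((x i : ℝ) - c)) :
    ∑ b ∈ B, ∑ i, u b i ≤ (∑ i, (x i : ℝ) * ((x i : ℝ) - 1) + ∑ i, M i) + m * (r - R * c) +
      (∑ i, (x i : ℝ)) * (1 - c) := by
  rw [Finset.sum_comm]
  refine (Finset.sum_le_sum fun i _ => hpart i).trans (le_of_eq ?_)
  have h1 : ∀ i, M i + (m + x i) * ((x i : ℝ) - c) =
      (x i : ℝ) * ((x i : ℝ) - 1) + M i + (m - c + 1) * (x i : ℝ) - m * c := by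
    intro i
    ring
  rw [Finset.sum_congr rfl fun i _ => h1 i, Finset.sum_sub_distrib, Finset.sum_add_distrib,
    Finset.sum_add_distrib, ← Finset.mul_sum, Finset.sum_const, Finset.card_univ,
    Fintype.card_fin, nsmul_eq_mul]
  have h2 : (∑ i, (x i : ℝ)) = c + r := by linarith
  rw [h2]
  push_cast
  ring

theorem payS_A (R r t : ℕ) (hR : 4 ≤ R) (hr : 1 ≤ r) (hrR : r < R) (ht : 4 ≤ t) (htR : t ≤ R + 1)
    (hI : 2 * R < t * (R - r)) : PayA R r t (psiS R r t) (chiS R r) := by
  obtain ⟨hκ, hA⟩ := paySA_kappa R t hR ht htR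
  have hR4 : (4 : ℝ) ≤ R := by exact_mod_cast hR
  have hR0 : (0 : ℝ) < R := by linarith
  have ht0 : (0 : ℝ) < t := by
    have : (4 : ℝ) ≤ t := by exact_mod_cast ht
    linarith
  have hr0 : (1 : ℝ) ≤ r := by exact_mod_cast hr
  have hrR' : (r : ℝ) + 1 ≤ R := by exact_mod_cast hrR
  intro C hC
  generalize hAd : AA R t = A at hA
  generalize hκd : KK R t = κ at hA hκ
  have hA0 : 0 < A := by
    have h1 : 0 < A * t := by
      rw [hA]
      positivity
    exact pos_of_mul_pos_left h1 ht0.le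
  obtain ⟨q, hq⟩ : ∃ q : ℝ, q = (R : ℝ) - r := ⟨_, rfl⟩
  have hq1 : 1 ≤ q := by rw [hq]; linarith
  have hq0 : 0 < q := by linarith
  have hqR : q ≤ R := by rw [hq]; linarith
  have hI' : 2 * (R : ℝ) < t * q := by
    have h1 : ((2 * R : ℕ) : ℝ) < ((t * (R - r) : ℕ) : ℝ) := by exact_mod_cast hI
    rw [Nat.cast_mul, Nat.cast_mul, Nat.cast_sub hrR.le] at h1
    rw [hq]
    exact_mod_cast h1
  obtain ⟨δ, hδd⟩ : ∃ δ : ℝ, δ = κ * q / 2 - A := ⟨_, rfl⟩
  have hδ : 0 < δ := by
    have h1 : A * t < κ * q / 2 * t := by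
      rw [hA]
      have h2 : κ * (2 * R) < κ * (t * q) := mul_lt_mul_of_pos_left hI' hκ
      linarith
    have h2 : A < κ * q / 2 := lt_of_mul_lt_mul_right h1 ht0.le
    rw [hδd]
    linarith
  refine ⟨C + A, δ / (2 * C * R), by positivity, by positivity, ?_⟩
  intro γ hγ hγ0
  have hCγ : 2 * R * (C * γ) ≤ δ := by
    rw [le_div_iff₀ (by positivity)] at hγ0
    linarith
  refine ⟨A * γ / (2 * R * C), by positivity, ?_⟩
  intro η hη hη0 m hp x M ι B u hN
  have hCη : C * η ≤ A * (γ / (2 * R)) := by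
    rw [le_div_iff₀ (by positivity)] at hη0
    have h1 : A * (γ / (2 * R)) = A * γ / (2 * R) := by ring
    rw [h1, le_div_iff₀ (by positivity)]
    linarith
  -- the parameters
  have hηγ : η ≤ γ := by
    have h1 := hp.hη'
    have h2 : 1 * η ≤ 1000 * (R : ℝ) ^ 2 * η := by
      apply mul_le_mul_of_nonneg_right _ hη.le
      nlinarith
    linarith
  have hm1 : (r : ℝ) + 1 ≤ η * m := hp.hm
  have hm0 : (0 : ℝ) < m := by
    by_contra h
    push Not at h
    have h1 : η * m ≤ 0 := mul_nonpos_of_nonneg_of_nonpos hη.le h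
    linarith
  have hmr : (r : ℝ) ≤ η * m := by linarith
  have hD : 0 < (R : ℝ) * m + r := by positivity
  -- powers
  obtain ⟨P, hP⟩ : ∃ P : ℝ, P = (m : ℝ) ^ (t - 2) := ⟨_, rfl⟩
  have hP0 : 0 < P := by rw [hP]; positivity
  have hP1 : (m : ℝ) ^ (t - 1) = m * P := by
    rw [hP, ← pow_succ']
    congr 1
    omega
  -- sums
  obtain ⟨c, hc⟩ : ∃ c : ℝ, c = (∑ i, (x i : ℝ)) - r := ⟨_, rfl⟩
  have hX : (∑ i, (x i : ℝ)) = c + r := by linarith
  have hSS := paySA_sum B u x M (m : ℝ) (r : ℝ) c hc (fun i => by rw [hc]; exact hN.part i)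
  obtain ⟨T, hT⟩ : ∃ T : ℝ, T = ∑ i, (x i : ℝ) * ((x i : ℝ) - 1) + ∑ i, M i := ⟨_, rfl⟩
  have hT0 : 0 ≤ T := by
    rw [hT]
    apply add_nonneg
    · apply Finset.sum_nonneg
      intro i _
      have h1 : (0 : ℤ) ≤ x i * (x i - 1) := by
        rcases le_or_gt (x i) 0 with h | h
        · nlinarith
        · nlinarith
      exact_mod_cast h1
    · exact Finset.sum_nonneg fun i _ => hN.hM i
  have hU0 : ∀ b ∈ B, 0 ≤ ∑ i, u b i := fun b hb =>
    Finset.sum_nonneg fun i _ => (hN.vec b hb).nn i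
  obtain ⟨S, hS⟩ : ∃ S : ℝ, S = ∑ b ∈ B, ∑ i, u b i := ⟨_, rfl⟩
  have hS0 : 0 ≤ S := by
    rw [hS]
    exact Finset.sum_nonneg hU0
  rw [← hT, ← hS, hX] at hSS
  rw [← hT, ← hc, hP1, ← hP]
  -- the values of `ψ`
  have hx0 : (0 : ℝ) ≤ r / R := by positivity
  have hx1 : (r : ℝ) / R < 1 := by
    rw [div_lt_one hR0]
    linarith
  have hxq : 1 - (r : ℝ) / R = q / R := by
    rw [hq]
    field_simp
  have hz0 : ∀ b ∈ B, 0 ≤ (∑ i, u b i) / (R * m + r) := fun b hb => div_nonneg (hU0 b hb) hD.le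
  have hz2 : ∀ b ∈ B, (∑ i, u b i) / (R * m + r) ≤ (∑ i, u b i) / (R * m) := by
    intro b hb
    apply div_le_div_of_nonneg_left (hU0 b hb) (by positivity)
    linarith
  have hz3 : ∀ b ∈ B, (∑ i, u b i) / (R * m) ≤ 1 - γ / (2 * R) := by
    intro b hb
    rw [div_le_iff₀ (by positivity)]
    have h1 := (hN.vec b hb).sum
    have h2 : (1 - γ / (2 * R)) * (R * m) = (R - γ / 2) * m := by
      field_simp
    rw [h2]
    exact h1
  have hγR : 0 < γ / (2 * R) := by positivity
  have hz1 : ∀ b ∈ B, (∑ i, u b i) / (R * m + r) ≤ 1 := fun b hb => by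
    have := (hz2 b hb).trans (hz3 b hb)
    linarith
  have hψ1 : ∀ b ∈ B, psiS R r t m (u b) ≤ A * (m * P) * ((∑ i, u b i) / (R * m + r)) := by
    intro b hb
    unfold psiS
    rw [hAd, hP1]
    exact mul_le_mul_of_nonneg_left (paySA_z (hz0 b hb) (hz1 b hb) hx0 hx1) (by positivity)
  have hk : A / q + C * γ ≤ κ / 2 := by
    have h1 : A / q = κ / 2 - δ / q := by
      rw [hδd]
      field_simp
      ring
    have h2 : C * γ ≤ δ / q := by
      rw [le_div_iff₀ hq0]
      have h3 : C * γ * q ≤ C * γ * (2 * R) :=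
        mul_le_mul_of_nonneg_left (by linarith) (by positivity)
      linarith
    linarith
  have hAR : A / R ≤ A / q := div_le_div_of_nonneg_left hA0.le hq0 hqR
  have hAq0 : 0 < A / q := by positivity
  have hk0 : 0 ≤ κ / 2 - C * γ := by linarith
  have hRHS : ∀ n : ℕ, 0 ≤ (C + A) * η * (m * P) * (n : ℝ) := fun n => by positivity
  -- integrality of c
  obtain ⟨cz, hcz⟩ : ∃ cz : ℤ, c = (cz : ℝ) := ⟨(∑ i, x i) - r, by rw [hc]; push_cast; ring⟩
  rcases le_or_gt 1 cz with hc1 | hc1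
  · -- the case `c ≥ 1`
    have hc1' : (1 : ℝ) ≤ c := by rw [hcz]; exact_mod_cast hc1
    have hsum : ∑ b ∈ B, psiS R r t m (u b) ≤ A / R * P * S := by
      rw [hS, Finset.mul_sum]
      apply Finset.sum_le_sum
      intro b hb
      refine (hψ1 b hb).trans ?_
      refine (mul_le_mul_of_nonneg_left (hz2 b hb) (by positivity)).trans (le_of_eq ?_)
      field_simp
    refine le_trans ?_ (hRHS _)
    rw [abs_of_nonneg (by linarith : (0 : ℝ) ≤ c)]
    have h1 : S + m * (R * c - r) ≤ T := by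
      have h2 : 0 ≤ (c + r) * (c - 1) := mul_nonneg (by linarith) (by linarith)
      linarith
    have h3 : (κ / 2 - C * γ) * (S + m * (R * c - r)) ≤ (κ / 2 - C * γ) * T :=
      mul_le_mul_of_nonneg_left h1 hk0
    have h4 : A / R * S ≤ (κ / 2 - C * γ) * S := mul_le_mul_of_nonneg_right (by linarith) hS0
    have h5 : c * (κ * q / 2) ≤ κ / 2 * (R * c - r) := by
      have h6 : 0 ≤ κ / 2 * (r * (c - 1)) :=
        mul_nonneg (by linarith) (mul_nonneg (by linarith) (by linarith))
      have h7 : κ / 2 * (R * c - r) - c * (κ * q / 2) = κ / 2 * (r * (c - 1)) := by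
        rw [hq]
        ring
      linarith
    have h8 : C * γ * (R * c - r) ≤ C * γ * (R * c) :=
      mul_le_mul_of_nonneg_left (by linarith) (by positivity)
    have h9 : A * c + C * η * c - (κ / 2 - C * γ) * (R * c - r) ≤
        c * (C * η + C * γ * R - δ) := by
      rw [hδd]
      linarith
    have h10 : C * η + C * γ * R - δ ≤ 0 := by
      have h11 : C * η ≤ C * γ := mul_le_mul_of_nonneg_left hηγ hC.le
      have h12 : C * γ * 1 ≤ C * γ * R := mul_le_mul_of_nonneg_left (by linarith) (by positivity)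
      linarith
    have h13 : A * c + C * η * c - (κ / 2 - C * γ) * (R * c - r) ≤ 0 :=
      h9.trans (mul_nonpos_of_nonneg_of_nonpos (by linarith) h10)
    have h14 : m * (A * c + C * η * c - (κ / 2 - C * γ) * (R * c - r)) ≤ 0 :=
      mul_nonpos_of_nonneg_of_nonpos hm0.le h13
    have h15 : A * m * c + C * η * m * c - (κ / 2 - C * γ) * T + A / R * S ≤ 0 := by
      linarith
    have h16 : P * (A * m * c + C * η * m * c - (κ / 2 - C * γ) * T + A / R * S) ≤ 0 :=
      mul_nonpos_of_nonneg_of_nonpos hP0.le h15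
    linarith
  · -- the case `c ≤ 0`
    have hc0 : c ≤ 0 := by
      rw [hcz]
      exact_mod_cast (by omega : cz ≤ 0)
    rw [abs_of_nonpos hc0]
    classical
    have hfil : ∑ b ∈ B.filter (fun b => chiS R r m (u b)), psiS R r t m (u b) =
        ∑ b ∈ B, psiS R r t m (u b) := by
      apply Finset.sum_filter_of_ne
      intro b hb hne
      by_contra hch
      apply hne
      unfold chiS at hch
      push Not at hch
      unfold psiS
      rw [max_eq_right (by linarith), zero_div, mul_zero]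
    rw [← hfil]
    obtain ⟨N, hNd⟩ : ∃ N : ℕ, N = (B.filter (fun b => chiS R r m (u b))).card := ⟨_, rfl⟩
    have hgoal : A * (m * P) * c + C * η * (m * P) * -c - (κ / 2 - C * γ) * P * T +
        ∑ b ∈ B.filter (fun b => chiS R r m (u b)), psiS R r t m (u b) ≤
        (C + A) * η * (m * P) * (N : ℝ) := by
      rcases le_or_gt (N : ℤ) (-cz) with hNp | hNp
      · -- few vertices
        have hNp' : (N : ℝ) ≤ -c := by
          rw [hcz]
          exact_mod_cast hNp
        have h1 : ∑ b ∈ B.filter (fun b => chiS R r m (u b)), psiS R r t m (u b) ≤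
            (N : ℝ) * (A * (m * P) * (1 - γ / (2 * R))) := by
          rw [hNd, ← nsmul_eq_mul]
          apply Finset.sum_le_card_nsmul
          intro b hb
          have hb' := (Finset.mem_filter.1 hb).1
          refine (hψ1 b hb').trans ?_
          exact mul_le_mul_of_nonneg_left ((hz2 b hb').trans (hz3 b hb')) (by positivity)
        have hγR1 : γ / (2 * R) ≤ 1 := by
          rw [div_le_one (by positivity)]
          have h2 := hp.hγ'
          have h3 : (0 : ℝ) < R * γ := by positivity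
          nlinarith
        have h2 : (N : ℝ) * (A * (m * P) * (1 - γ / (2 * R))) ≤
            -c * (A * (m * P) * (1 - γ / (2 * R))) :=
          mul_le_mul_of_nonneg_right hNp' (mul_nonneg (by positivity) (by linarith))
        refine le_trans ?_ (hRHS N)
        have h3 : -c * (m * P) * (C * η - A * (γ / (2 * R))) ≤ 0 :=
          mul_nonpos_of_nonneg_of_nonpos (mul_nonneg (by linarith) (by positivity)) (by linarith)
        have h4 : 0 ≤ (κ / 2 - C * γ) * P * T := by positivity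
        linarith
      · -- many vertices
        have hNp' : -c + 1 ≤ (N : ℝ) := by
          rw [hcz]
          exact_mod_cast (by omega : -cz + 1 ≤ (N : ℤ))
        have h1 : ∀ b ∈ B.filter (fun b => chiS R r m (u b)), psiS R r t m (u b) ≤
            A / q * P * ((∑ i, u b i) - m * r) := by
          intro b hb
          have hb' := (Finset.mem_filter.1 hb).1
          have hch : chiS R r m (u b) := (Finset.mem_filter.1 hb).2
          unfold chiS at hch
          unfold psiS
          rw [max_eq_left (by linarith), hAd, hP1, hxq]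
          have h2 : (∑ i, u b i) / (R * m + r) - r / R ≤ (∑ i, u b i) / (R * m) - r / R := by
            have := hz2 b hb'
            linarith
          have h3 : ((∑ i, u b i) / (R * m + r) - r / R) / (q / R) ≤
              ((∑ i, u b i) / (R * m) - r / R) / (q / R) :=
            div_le_div_of_nonneg_right h2 (by positivity)
          refine (mul_le_mul_of_nonneg_left h3 (by positivity)).trans (le_of_eq ?_)
          field_simp
        have h2 := Finset.sum_le_sum h1
        rw [← Finset.mul_sum, Finset.sum_sub_distrib, Finset.sum_const, nsmul_eq_mul, ← hNd] at h2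
        have h3 : ∑ b ∈ B.filter (fun b => chiS R r m (u b)), ∑ i, u b i ≤ S := by
          rw [hS]
          apply Finset.sum_le_sum_of_subset_of_nonneg (Finset.filter_subset _ _)
          intro b hb _
          exact hU0 b hb
        have h4 : (-c + 1) * (m * r) ≤ (N : ℝ) * (m * r) :=
          mul_le_mul_of_nonneg_right hNp' (by positivity)
        have h5 : (∑ b ∈ B.filter (fun b => chiS R r m (u b)), ∑ i, u b i) - N * (m * r) ≤
            T + m * (-c) * q + r * (1 - c) := by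
          have h6 : c * (1 - c) ≤ 0 := mul_nonpos_of_nonpos_of_nonneg hc0 (by linarith)
          rw [hq]
          linarith
        have h6 : A / q * P * ((∑ b ∈ B.filter (fun b => chiS R r m (u b)), ∑ i, u b i) -
            N * (m * r)) ≤ A / q * P * (T + m * (-c) * q + r * (1 - c)) :=
          mul_le_mul_of_nonneg_left h5 (by positivity)
        have h7 : A / q * P * (T + m * (-c) * q + r * (1 - c)) =
            A / q * (P * T) + A * (m * P) * (-c) + A / q * (P * (r * (1 - c))) := by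
          field_simp
        have h8 : A / q * (P * T) ≤ (κ / 2 - C * γ) * (P * T) :=
          mul_le_mul_of_nonneg_right (by linarith) (by positivity)
        have h9 : A / q * (P * (r * (1 - c))) ≤ A * (P * (η * m * (1 - c))) := by
          have h10 : A / q ≤ A := div_le_self hA0.le hq1
          have h11 : P * (r * (1 - c)) ≤ P * (η * m * (1 - c)) :=
            mul_le_mul_of_nonneg_left (mul_le_mul_of_nonneg_right hmr (by linarith)) hP0.le
          have h12 : 0 ≤ P * (r * (1 - c)) :=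
            mul_nonneg hP0.le (mul_nonneg (by linarith) (by linarith))
          exact mul_le_mul h10 h11 h12 hA0.le
        have h10 : C * η * (m * P) * -c ≤ C * η * (m * P) * (-c + 1) :=
          mul_le_mul_of_nonneg_left (by linarith) (by positivity)
        have h11 : (C + A) * η * (m * P) * (-c + 1) ≤ (C + A) * η * (m * P) * N :=
          mul_le_mul_of_nonneg_left hNp' (by positivity)
        linarith
    rw [hNd] at hgoal
    convert hgoal using 2

theorem payS_C (R r t : ℕ) (hR : 4 ≤ R) (hr : 1 ≤ r) (hrR : r < R) (ht : 4 ≤ t) :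
    PayC R r (psiS R r t) (chiS R r) := by
  have hR4 : (4 : ℝ) ≤ R := by exact_mod_cast hR
  have hR0 : (0 : ℝ) < R := by linarith
  have hr0 : (1 : ℝ) ≤ r := by exact_mod_cast hr
  have hrR' : (r : ℝ) + 1 ≤ R := by exact_mod_cast hrR
  have hx1 : (r : ℝ) / R < 1 := by
    rw [div_lt_one hR0]
    linarith
  refine { nn := ?_, ch := ?_ }
  · intro m γ η u hp hu
    unfold psiS
    have hA : 0 ≤ AA R t := by
      unfold AA
      have ht' : (4 : ℝ) ≤ t := by exact_mod_cast ht
      apply div_nonneg _ (by linarith)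
      exact mul_nonneg (Nat.cast_nonneg _) (by linarith)
    apply mul_nonneg (mul_nonneg hA (by positivity))
    exact div_nonneg (le_max_right _ _) (by linarith)
  · refine ⟨1, one_pos, ?_⟩
    intro m γ η u hp hu hch
    unfold chiS at hch
    have hm1 : (r : ℝ) + 1 ≤ η * m := hp.hm
    have hm0 : (0 : ℝ) < m := by
      by_contra h
      push Not at h
      have h1 : η * m ≤ 0 := mul_nonpos_of_nonneg_of_nonpos hp.hη.le h
      linarith
    have hD : 0 < (R : ℝ) * m + r := by positivity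
    rw [div_lt_div_iff₀ hR0 hD] at hch
    have h1 : (r : ℝ) * (R * m) ≤ r * (R * m + r) :=
      mul_le_mul_of_nonneg_left (by linarith) (by linarith)
    have h2 : 1 * (R * (m : ℝ)) ≤ r * (R * m) :=
      mul_le_mul_of_nonneg_right hr0 (by positivity)
    have h3 : (m : ℝ) * R ≤ (∑ j, u j) * R := by linarith
    have h4 := le_of_mul_le_mul_right h3 hR0
    linarith

end Pool.Agent.H45.KTD
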