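import Pool.Agent.H45.KTD.EsD

/-!
# KTD Red: reduction of the cluster inequality to numerical data

Notation: `x i = |A i| - m`, `X = ∑ x i`, `c = X - r`, `f i = x i - c` (integers), `Q = ∑ x i (x i - 1) ≥ 0`, `Mμ = ∑∑ mu`.
`|x i| ≤ 5 R η m`, so `|c| ≤ 10 R² η m`, `|f i| ≤ 12 R² η m ≤ γ m` (`Par.hη'`: `1000 R² η ≤ γ`), `1 / m ≤ η` (`Par.hm`), `|A i| ≤ 2 m`,
`η ≤ γ ≤ 1/4000`.
`red`: `rel` gives `ex v ≤ mu v + f⁺`, `f⁺ = max (f i) 0`, so (integers)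
`ex (ex - 1) ≤ mu (mu + 2 f⁺) + f⁺ (f⁺ - 1) ≤ 4 γ m mu + f⁺ (f⁺ - 1)` (`mu ≤ 2 γ m`).
If `c = 0`: `f⁺ (f⁺ - 1) ≤ x i (x i - 1)`; if `c ≠ 0` (`|c| ≥ 1`): `f⁺ (f⁺ - 1) ≤ f² ≤ 2 x i² + 2 c² ≤ 4 x i (x i - 1) + 2 + 2 c²`
(`x² ≤ 2 x (x - 1) + 1` for integers); in both cases `∑ f⁺ (f⁺ - 1) ≤ 4 Q + C η m |c|` (`|c| ≤ 10 R² η m`, `1 ≤ η m`).
With `|A i| ≤ 2 m` and `(6 γ m) ^ (t-3) ≤ 6 γ m ^ (t-3)` (`6 γ ≤ 1`, `t ≥ 4`) the `ex` term is
`≤ 24 γ² m ^ (t-2) Mμ + 12 γ m ^ (t-2) (4 Q + C η m |c|)`.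
Now use `esD` for the integers `x i` (`1000 R² η ≤ 1`, `r + 1 ≤ η m`) and `η ≤ γ`.
`cn_of_ck`: `part` is the sum of `rel` over `v ∈ A i` (`ex ≥ 0`) with `sB`.
`payCK`: `red` gives `C`; apply `hA C` to `cn_of_ck`.
-/

set_option autoImplicit false

open Finset

namespace Pool.Agent.H45.KTD

open Pool.Agent.H11.TD

private theorem Red_int1 {e μ f : ℤ} (he : 0 ≤ e) (hμ : 0 ≤ μ) (h : e ≤ μ + f) :
    e * (e - 1) ≤ μ * (μ + 2 * max f 0) + max f 0 * (max f 0 - 1) := by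
  obtain ⟨p, hp⟩ : ∃ p, p = max f 0 := ⟨_, rfl⟩
  rw [← hp]
  have hp0 : 0 ≤ p := by rw [hp]; exact le_max_right _ _
  have hfp : f ≤ p := by rw [hp]; exact le_max_left _ _
  have h1 : 0 ≤ p * (p - 1) := by
    rcases hp0.eq_or_lt with h0 | h0
    · rw [← h0]; simp
    · exact mul_nonneg hp0 (by omega)
  rcases he.eq_or_lt with h0 | h0
  · rw [← h0]
    have : 0 ≤ μ * (μ + 2 * p) := by positivity
    linarith
  · have h2 : e * (e - 1) ≤ (μ + p) * (μ + p - 1) :=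
      mul_le_mul (by omega) (by omega) (by omega) (by omega)
    nlinarith

private theorem Red_nn (x : ℤ) : 0 ≤ x * (x - 1) := by
  rcases lt_or_ge 0 x with h | h
  · exact mul_nonneg h.le (by omega)
  · exact mul_nonneg_of_nonpos_of_nonpos h (by omega)

private theorem Red_int2 (x c : ℤ) :
    max (x - c) 0 * (max (x - c) 0 - 1) ≤ 4 * (x * (x - 1)) + (2 + 2 * |c|) * |c| := by
  have hx := Red_nn x
  by_cases hc : c = 0
  · subst hc
    rw [sub_zero, abs_zero, mul_zero, add_zero]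
    rcases max_cases x 0 with ⟨h, _⟩ | ⟨h, _⟩
    · rw [h]; linarith
    · rw [h, zero_mul]; linarith
  · have h1 : 1 ≤ |c| := Int.one_le_abs hc
    have h2 : max (x - c) 0 * (max (x - c) 0 - 1) ≤ (x - c) ^ 2 := by
      rcases max_cases (x - c) 0 with ⟨h, h'⟩ | ⟨h, _⟩
      · rw [h]; nlinarith
      · rw [h, zero_mul]; positivity
    have h3 : |c| * |c| = c * c := abs_mul_abs_self c
    nlinarith [sq_nonneg (x - 1), sq_nonneg (x + c)]

theorem red (R r t : ℕ) (hR : 4 ≤ R) (hrR : r < R) (ht : 4 ≤ t) (htR : t ≤ R + 1)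
    (C1 : ℝ) (hC1 : 0 < C1) : ∃ C : ℝ, 0 < C ∧ ∀ (m : ℕ) (γ η : ℝ), Par R r m γ η →
      ∀ (α : Type) [DecidableEq α] (A : Fin (R + 1) → Finset α) (mu ex bb : α → ℕ)
        (B : Finset α) (u : α → Fin (R + 1) → ℝ), CK R r m γ η A mu ex bb B u →
        es t (fun i => ((A i).card : ℝ)) - PL R r m t * ∑ i, ((A i).card : ℝ) -
          (KK R t / 2 - C1 * γ) * (m : ℝ) ^ (t - 2) * ∑ i, ∑ v ∈ A i, (mu v : ℝ) +
          (6 * γ * m) ^ (t - 3) * ∑ i, ∑ v ∈ A i, (ex v : ℝ) * ((ex v : ℝ) - 1) ≤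
        AA R t * (m : ℝ) ^ (t - 1) * ((∑ i, (((A i).card : ℝ) - m)) - r) +
          C * η * (m : ℝ) ^ (t - 1) * |(∑ i, (((A i).card : ℝ) - m)) - r| -
          (KK R t / 2 - C * γ) * (m : ℝ) ^ (t - 2) *
            (∑ i, (((A i).card : ℝ) - m) * ((((A i).card : ℝ) - m) - 1) +
              ∑ i, ∑ v ∈ A i, (mu v : ℝ)) := by
  obtain ⟨D, hD, hes⟩ := esD R r t hR hrR.le ht htR
  obtain ⟨K, hK⟩ : ∃ K : ℝ, K = 2 + 14 * (R : ℝ) ^ 2 := ⟨_, rfl⟩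
  have hK0 : 0 < K := by rw [hK]; positivity
  refine ⟨C1 + D + 48 + 12 * ((R : ℝ) + 1) * K, by positivity, ?_⟩
  intro m γ η hpar α _ A mu ex bb B u hck
  have hRr : (4 : ℝ) ≤ R := by exact_mod_cast hR
  have hγ := hpar.hγ
  have hη := hpar.hη
  have hγ1 : 4000 * γ ≤ 1 := by nlinarith [hpar.hγ']
  have hηR : 1000 * (R : ℝ) ^ 2 * η ≤ 1 := by linarith [hpar.hη']
  have hR2 : (16 : ℝ) ≤ (R : ℝ) ^ 2 := by nlinarith
  have hηγ : η ≤ γ := by nlinarith [hpar.hη']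
  have hr0 : (0 : ℝ) ≤ r := Nat.cast_nonneg r
  have hP1 : 1 ≤ η * m := by linarith [hpar.hm]
  have hrP : (r : ℝ) ≤ η * m := by linarith [hpar.hm]
  have hP0 : 0 < η * m := by linarith
  have hm0 : (0 : ℝ) < m := by
    by_contra h
    have : (m : ℝ) = 0 := le_antisymm (not_lt.1 h) (Nat.cast_nonneg m)
    rw [this, mul_zero] at hP1
    linarith
  -- the integers `x i` and `c`
  obtain ⟨x, hx⟩ : ∃ x : Fin (R + 1) → ℤ, ∀ i, x i = ((A i).card : ℤ) - m := ⟨_, fun _ => rfl⟩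
  have hxr : ∀ i, (x i : ℝ) = ((A i).card : ℝ) - m := by
    intro i; rw [hx]; push_cast; ring
  obtain ⟨c, hc⟩ : ∃ c : ℤ, c = (∑ i, x i) - r := ⟨_, rfl⟩
  have hcr : (c : ℝ) = (∑ i, (x i : ℝ)) - r := by rw [hc]; push_cast; ring
  have hxb : ∀ i, |(x i : ℝ)| ≤ 5 * R * η * m := by
    intro i; rw [hxr]; exact hck.size i
  have hcb : |(c : ℝ)| ≤ 7 * (R : ℝ) ^ 2 * (η * m) := by
    rw [hcr]
    have h1 : |∑ i, (x i : ℝ)| ≤ ∑ i : Fin (R + 1), 5 * R * η * (m : ℝ) :=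
      (Finset.abs_sum_le_sum_abs _ _).trans (Finset.sum_le_sum fun i _ => hxb i)
    rw [Finset.sum_const, Finset.card_univ, Fintype.card_fin, nsmul_eq_mul] at h1
    push_cast at h1
    have h2 := abs_sub (∑ i, (x i : ℝ)) (r : ℝ)
    rw [abs_of_nonneg hr0] at h2
    have h3 : ((R : ℝ) + 1) * (5 * R * η * m) = (5 * (R : ℝ) ^ 2 + 5 * R) * (η * m) := by ring
    rw [h3] at h1
    have h4 : (5 * (R : ℝ) ^ 2 + 5 * R + 1) * (η * m) ≤ 7 * (R : ℝ) ^ 2 * (η * m) :=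
      mul_le_mul_of_nonneg_right (by nlinarith) hP0.le
    linarith
  have hxb' : ∀ i, |(x i : ℝ)| ≤ 2 * (R : ℝ) ^ 2 * (η * m) := by
    intro i
    have h4 : (5 * (R : ℝ)) * (η * m) ≤ 2 * (R : ℝ) ^ 2 * (η * m) :=
      mul_le_mul_of_nonneg_right (by nlinarith) hP0.le
    have := hxb i
    linarith
  have h9 : 9 * (R : ℝ) ^ 2 * (η * m) ≤ γ * m := by
    have h1 : 9 * (R : ℝ) ^ 2 * η ≤ γ := by
      have : 0 ≤ (R : ℝ) ^ 2 * η := by positivity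
      linarith [hpar.hη']
    have := mul_le_mul_of_nonneg_right h1 hm0.le
    linarith
  -- the numbers `p i`
  obtain ⟨p, hp⟩ : ∃ p : Fin (R + 1) → ℤ, ∀ i, p i = max (x i - c) 0 := ⟨_, fun _ => rfl⟩
  have hp0 : ∀ i, 0 ≤ (p i : ℝ) := by
    intro i
    have : 0 ≤ p i := by rw [hp]; exact le_max_right _ _
    exact_mod_cast this
  have hpb : ∀ i, (p i : ℝ) ≤ γ * m := by
    intro i
    rw [hp]
    push_cast
    refine max_le ?_ (by positivity)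
    have h1 := le_abs_self (x i : ℝ)
    have h2 := neg_abs_le (c : ℝ)
    have h3 := hxb' i
    linarith
  have hpnn : ∀ i, 0 ≤ (p i : ℝ) * ((p i : ℝ) - 1) := by
    intro i
    have := Red_nn (p i)
    exact_mod_cast this
  have hpq : ∀ i, (p i : ℝ) * ((p i : ℝ) - 1) ≤
      4 * ((x i : ℝ) * ((x i : ℝ) - 1)) + K * (η * m) * |(c : ℝ)| := by
    intro i
    have h1 := Red_int2 (x i) c
    rw [← hp] at h1
    have h2 : (p i : ℝ) * ((p i : ℝ) - 1) ≤ 4 * ((x i : ℝ) * ((x i : ℝ) - 1)) +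
        (2 + 2 * |(c : ℝ)|) * |(c : ℝ)| := by exact_mod_cast h1
    have h3 : (2 + 2 * |(c : ℝ)|) * |(c : ℝ)| ≤ (K * (η * m)) * |(c : ℝ)| := by
      refine mul_le_mul_of_nonneg_right ?_ (abs_nonneg _)
      rw [hK]
      linarith
    linarith
  -- the external neighbours
  have hexv : ∀ i, ∀ v ∈ A i, (ex v : ℝ) * ((ex v : ℝ) - 1) ≤
      4 * γ * m * (mu v : ℝ) + (p i : ℝ) * ((p i : ℝ) - 1) := by
    intro i v hv
    have h1 := hck.rel i v hv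
    have h2 : (∑ k, ((A k).card : ℤ)) - (R + 1) * m - r = c := by
      rw [hc]
      have : ∑ i, x i = (∑ k, ((A k).card : ℤ)) - (R + 1) * m := by
        rw [Finset.sum_congr rfl fun i _ => hx i, Finset.sum_sub_distrib, Finset.sum_const,
          Finset.card_univ, Fintype.card_fin, nsmul_eq_mul]
        push_cast
        ring
      rw [this]
    rw [h2, ← hx i] at h1
    have h3 : (ex v : ℤ) ≤ (mu v : ℤ) + (x i - c) := by
      have : (0 : ℤ) ≤ bb v := Int.natCast_nonneg _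
      linarith
    have h4 := Red_int1 (Int.natCast_nonneg (ex v)) (Int.natCast_nonneg (mu v)) h3
    rw [← hp] at h4
    have h5 : (ex v : ℝ) * ((ex v : ℝ) - 1) ≤ (mu v : ℝ) * ((mu v : ℝ) + 2 * (p i : ℝ)) +
        (p i : ℝ) * ((p i : ℝ) - 1) := by exact_mod_cast h4
    have h6 : (mu v : ℝ) * ((mu v : ℝ) + 2 * (p i : ℝ)) ≤ (mu v : ℝ) * (4 * γ * m) := by
      refine mul_le_mul_of_nonneg_left ?_ (Nat.cast_nonneg _)
      have := hck.hmu i v hv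
      have := hpb i
      linarith
    linarith
  have hcard : ∀ i, ((A i).card : ℝ) ≤ 2 * m := by
    intro i
    have h1 := le_abs_self (x i : ℝ)
    have h2 := hxb' i
    have h3 : γ * m ≤ m := by nlinarith
    have h4 : 0 ≤ (R : ℝ) ^ 2 * (η * m) := by positivity
    have := hxr i
    linarith
  have hEXi : ∀ i, ∑ v ∈ A i, (ex v : ℝ) * ((ex v : ℝ) - 1) ≤
      4 * γ * m * ∑ v ∈ A i, (mu v : ℝ) +
        (8 * m * ((x i : ℝ) * ((x i : ℝ) - 1)) + 2 * m * (K * (η * m) * |(c : ℝ)|)) := by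
    intro i
    have h1 : ∑ v ∈ A i, (ex v : ℝ) * ((ex v : ℝ) - 1) ≤
        ∑ v ∈ A i, (4 * γ * m * (mu v : ℝ) + (p i : ℝ) * ((p i : ℝ) - 1)) :=
      Finset.sum_le_sum fun v hv => hexv i v hv
    rw [Finset.sum_add_distrib, ← Finset.mul_sum, Finset.sum_const, nsmul_eq_mul] at h1
    have h2 : ((A i).card : ℝ) * ((p i : ℝ) * ((p i : ℝ) - 1)) ≤
        2 * m * ((p i : ℝ) * ((p i : ℝ) - 1)) :=
      mul_le_mul_of_nonneg_right (hcard i) (hpnn i)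
    have h3 : 2 * (m : ℝ) * ((p i : ℝ) * ((p i : ℝ) - 1)) ≤
        2 * m * (4 * ((x i : ℝ) * ((x i : ℝ) - 1)) + K * (η * m) * |(c : ℝ)|) :=
      mul_le_mul_of_nonneg_left (hpq i) (by positivity)
    linarith
  have hEX : ∑ i, ∑ v ∈ A i, (ex v : ℝ) * ((ex v : ℝ) - 1) ≤
      4 * γ * m * (∑ i, ∑ v ∈ A i, (mu v : ℝ)) +
        (8 * m * (∑ i, (x i : ℝ) * ((x i : ℝ) - 1)) +
          ((R : ℝ) + 1) * (2 * m * (K * (η * m) * |(c : ℝ)|))) := by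
    have h1 := Finset.sum_le_sum fun i (_ : i ∈ (Finset.univ : Finset (Fin (R + 1)))) => hEXi i
    rw [Finset.sum_add_distrib, ← Finset.mul_sum, Finset.sum_add_distrib, ← Finset.mul_sum,
      Finset.sum_const, Finset.card_univ, Fintype.card_fin, nsmul_eq_mul] at h1
    push_cast at h1
    exact h1
  -- conclusion
  have hes1 := hes m η hη hηR hpar.hm x hxb
  have e1 : (fun i => (m : ℝ) + (x i : ℝ)) = fun i => ((A i).card : ℝ) := by
    funext i; rw [hxr]; ring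
  have e2 : ((R : ℝ) + 1) * m + ∑ i, (x i : ℝ) = ∑ i, ((A i).card : ℝ) := by
    rw [Finset.sum_congr rfl fun i _ => hxr i, Finset.sum_sub_distrib, Finset.sum_const,
      Finset.card_univ, Fintype.card_fin, nsmul_eq_mul]
    push_cast
    ring
  rw [e1, e2, ← hcr] at hes1
  have e3 : (∑ i, (((A i).card : ℝ) - m)) - r = c := by
    rw [hcr, Finset.sum_congr rfl fun i _ => hxr i]
  have e4 : ∑ i, (((A i).card : ℝ) - m) * ((((A i).card : ℝ) - m) - 1) =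
      ∑ i, (x i : ℝ) * ((x i : ℝ) - 1) :=
    Finset.sum_congr rfl fun i _ => by rw [hxr i]
  rw [e3, e4]
  have hQ : 0 ≤ ∑ i, (x i : ℝ) * ((x i : ℝ) - 1) :=
    Finset.sum_nonneg fun i _ => by
      have := Red_nn (x i)
      exact_mod_cast this
  have hM : 0 ≤ ∑ i, ∑ v ∈ A i, (mu v : ℝ) :=
    Finset.sum_nonneg fun i _ => Finset.sum_nonneg fun v _ => Nat.cast_nonneg _
  have hc0 : 0 ≤ |(c : ℝ)| := abs_nonneg _
  generalize ∑ i, (x i : ℝ) * ((x i : ℝ) - 1) = Q at hes1 hEX hQ ⊢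
  generalize ∑ i, ∑ v ∈ A i, (mu v : ℝ) = M at hEX hM ⊢
  generalize ∑ i, ∑ v ∈ A i, (ex v : ℝ) * ((ex v : ℝ) - 1) = EX at hEX ⊢
  generalize es t (fun i => ((A i).card : ℝ)) = E at hes1 ⊢
  generalize ∑ i, ((A i).card : ℝ) = N at hes1 ⊢
  generalize PL R r m t = PLv at hes1 ⊢
  generalize AA R t = AAv at hes1 ⊢
  generalize KK R t = KKv at hes1 ⊢
  generalize (c : ℝ) = cc at hes1 hEX hc0 ⊢
  obtain ⟨s, rfl⟩ : ∃ s, t = s + 4 := ⟨t - 4, by omega⟩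
  have t1 : s + 4 - 1 = s + 3 := by omega
  have t2 : s + 4 - 2 = s + 2 := by omega
  have t3 : s + 4 - 3 = s + 1 := by omega
  rw [t1, t2] at hes1
  rw [t1, t2, t3]
  have hms : 0 < (m : ℝ) ^ s := pow_pos hm0 s
  have h6 : (6 * γ * m) ^ (s + 1) ≤ 6 * γ * (m : ℝ) ^ (s + 1) := by
    rw [mul_pow]
    refine mul_le_mul_of_nonneg_right ?_ (by positivity)
    rw [pow_succ]
    have : (6 * γ) ^ s ≤ 1 := pow_le_one₀ (by positivity) (by linarith)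
    nlinarith
  obtain ⟨E', hE'⟩ : ∃ E', E' = 4 * γ * m * M + (8 * m * Q +
      ((R : ℝ) + 1) * (2 * m * (K * (η * m) * |cc|))) := ⟨_, rfl⟩
  have hE'0 : 0 ≤ E' := by rw [hE']; positivity
  have h7 : (6 * γ * m) ^ (s + 1) * EX ≤ 6 * γ * (m : ℝ) ^ (s + 1) * E' := by
    refine (mul_le_mul_of_nonneg_left (hEX.trans_eq hE'.symm) (by positivity)).trans ?_
    exact mul_le_mul_of_nonneg_right h6 hE'0
  have h8 : 6 * γ * (m : ℝ) ^ (s + 1) * E' = (m : ℝ) ^ (s + 2) * (24 * γ * γ * M + 48 * γ * Q) +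
      12 * ((R : ℝ) + 1) * K * γ * (η * (m : ℝ) ^ (s + 3) * |cc|) := by
    rw [hE']
    ring
  have hms2 : 0 < (m : ℝ) ^ (s + 2) := by positivity
  have hms3 : 0 < (m : ℝ) ^ (s + 3) := by positivity
  have hγle : γ ≤ 1 := by linarith
  -- the three comparisons
  have g1 : 24 * γ * γ * M ≤ (D + 48 + 12 * ((R : ℝ) + 1) * K) * γ * M := by
    refine mul_le_mul_of_nonneg_right ?_ hM
    have : 24 * γ ≤ D + 48 + 12 * ((R : ℝ) + 1) * K := by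
      have : 0 ≤ 12 * ((R : ℝ) + 1) * K := by positivity
      linarith
    exact mul_le_mul_of_nonneg_right this hγ.le
  have g2 : (48 * γ + D * η) * Q ≤ (C1 + D + 48 + 12 * ((R : ℝ) + 1) * K) * γ * Q := by
    refine mul_le_mul_of_nonneg_right ?_ hQ
    have h1 : 0 ≤ (C1 + 12 * ((R : ℝ) + 1) * K) * γ := by positivity
    have h2 : D * η ≤ D * γ := mul_le_mul_of_nonneg_left hηγ hD.le
    linarith
  have g3 : 12 * ((R : ℝ) + 1) * K * γ * (η * (m : ℝ) ^ (s + 3) * |cc|) ≤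
      (C1 + 48 + 12 * ((R : ℝ) + 1) * K) * (η * (m : ℝ) ^ (s + 3) * |cc|) := by
    refine mul_le_mul_of_nonneg_right ?_ (by positivity)
    have h1 : 12 * ((R : ℝ) + 1) * K * γ ≤ 12 * ((R : ℝ) + 1) * K * 1 :=
      mul_le_mul_of_nonneg_left hγle (by positivity)
    linarith
  have g4 := mul_le_mul_of_nonneg_left (add_le_add g1 g2) hms2.le
  have h10 : (6 * γ * m) ^ (s + 1) * EX ≤ (m : ℝ) ^ (s + 2) * (24 * γ * γ * M + 48 * γ * Q) +
      12 * ((R : ℝ) + 1) * K * γ * (η * (m : ℝ) ^ (s + 3) * |cc|) := h7.trans_eq h8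
  clear hEX hE'0 hE' h7 h8 h6 hpq hexv hEXi hpb hpnn hcard hp0 hxb' hxb
  generalize (6 * γ * m) ^ (s + 1) * EX = W at h10 ⊢
  generalize 12 * ((R : ℝ) + 1) * K = Z at g4 g3 h10 ⊢
  generalize |cc| = ac at hes1 g3 h10 ⊢
  generalize (m : ℝ) ^ (s + 2) = m2 at hes1 g4 h10 ⊢
  generalize (m : ℝ) ^ (s + 3) = m3 at hes1 g3 h10 ⊢
  linarith

theorem cn_of_ck {R r m : ℕ} {γ η : ℝ} {α : Type} [DecidableEq α] {A : Fin (R + 1) → Finset α}
    {mu ex bb : α → ℕ} {B : Finset α} {u : α → Fin (R + 1) → ℝ}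
    (h : CK R r m γ η A mu ex bb B u) :
    CN R r m γ η (fun i => ((A i).card : ℤ) - m) (fun i => ∑ v ∈ A i, (mu v : ℝ)) B u := by
  refine ⟨?_, ?_, h.dbl, ?_, h.vec⟩
  · intro i
    push_cast
    exact h.size i
  · intro i
    exact Finset.sum_nonneg fun v _ => Nat.cast_nonneg _
  · intro i
    rw [← h.sB i]
    obtain ⟨c, hc⟩ : ∃ c : ℝ, c = (∑ k, ((((A k).card : ℤ) - (m : ℤ) : ℤ) : ℝ)) - r := ⟨_, rfl⟩
    have hc' : c = (∑ k, ((A k).card : ℝ)) - (R + 1) * m - r := by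
      rw [hc]
      push_cast
      rw [Finset.sum_sub_distrib, Finset.sum_const, Finset.card_univ, Fintype.card_fin,
        nsmul_eq_mul]
      push_cast
      ring
    have h1 : ∀ v ∈ A i, (bb v : ℝ) ≤ (mu v : ℝ) + ((((A i).card : ℝ) - m) - c) := by
      intro v hv
      have h2 := h.rel i v hv
      have h3 : ((ex v : ℝ) + bb v) + ((∑ k, ((A k).card : ℝ)) - (R + 1) * m - r) -
          ((A i).card - m) ≤ mu v := by exact_mod_cast h2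
      rw [← hc'] at h3
      have : (0 : ℝ) ≤ ex v := Nat.cast_nonneg _
      linarith
    have h4 := Finset.sum_le_sum h1
    rw [Finset.sum_add_distrib, Finset.sum_const, nsmul_eq_mul] at h4
    rw [← hc]
    push_cast
    have e : (m : ℝ) + ((A i).card - m) = (A i).card := by ring
    rw [e]
    exact h4

open scoped Classical in
theorem payCK (R r t : ℕ) (hR : 4 ≤ R) (hrR : r < R) (ht : 4 ≤ t) (htR : t ≤ R + 1)
    (ψ : ℕ → (Fin (R + 1) → ℝ) → ℝ) (χ : ℕ → (Fin (R + 1) → ℝ) → Prop) (hA : PayA R r t ψ χ)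
    (C1 : ℝ) (hC1 : 0 < C1) :
    ∃ C2 γ0 : ℝ, 0 < C2 ∧ 0 < γ0 ∧ ∀ γ : ℝ, 0 < γ → γ ≤ γ0 → ∃ η0 : ℝ, 0 < η0 ∧
      ∀ η : ℝ, 0 < η → η ≤ η0 → ∀ m : ℕ, Par R r m γ η →
        ∀ (α : Type) [DecidableEq α] (A : Fin (R + 1) → Finset α) (mu ex bb : α → ℕ)
          (B : Finset α) (u : α → Fin (R + 1) → ℝ), CK R r m γ η A mu ex bb B u →
          es t (fun i => ((A i).card : ℝ)) - PL R r m t * ∑ i, ((A i).card : ℝ) -
            (KK R t / 2 - C1 * γ) * (m : ℝ) ^ (t - 2) * ∑ i, ∑ v ∈ A i, (mu v : ℝ) +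
            (6 * γ * m) ^ (t - 3) * ∑ i, ∑ v ∈ A i, (ex v : ℝ) * ((ex v : ℝ) - 1) +
            ∑ b ∈ B, ψ m (u b) ≤
          C2 * η * (m : ℝ) ^ (t - 1) * ((B.filter (fun b => χ m (u b))).card : ℝ) := by
  obtain ⟨C, hC, hred⟩ := red R r t hR hrR ht htR C1 hC1
  obtain ⟨C2, γ0, hC2, hγ0, hA'⟩ := hA C hC
  refine ⟨C2, γ0, hC2, hγ0, ?_⟩
  intro γ hγ hγ'
  obtain ⟨η0, hη0, hA''⟩ := hA' γ hγ hγ'
  refine ⟨η0, hη0, ?_⟩
  intro η hη hη' m hpar α _ A mu ex bb B u hck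
  have h1 := hred m γ η hpar α A mu ex bb B u hck
  have h2 := hA'' η hη hη' m hpar _ _ α B u (cn_of_ck hck)
  push_cast at h2
  linarith

end Pool.Agent.H45.KTD
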