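import Pool.Agent.H11.TD.Bas
import Pool.Agent.H45.KTD.Defs

/-!
# KTD SumO: the vertices outside all hulls pay for themselves

`g b = |nb b (univ \ O)|`.
(1) For `b ∈ Bad ∩ O`: `f b ≤ - c7 m ^ (t-1)` for large `m`: let `κ' = c8 / (2 C9)`; if `g b ≥ κ' m` use `h1`:
  `f b ≤ C4 m ^ (t-2) - c5 κ' m ^ (t-1) ≤ - (c5 κ' / 2) m ^ (t-1)`; if `g b < κ' m` use `h2`: `f b ≤ - (c8/2) m ^ (t-1)`.
(2) For `b ∈ O` not bad: `f b ≤ 0` if `g b ≥ C4 / c5`, and always `f b ≤ C4 m ^ (t-2)`.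
(3) The `b ∈ O`, not bad, with `g b < C4 / c5` have more than `ε m - C4/c5 ≥ (ε/2) m` bad neighbours in `O`; double counting
  (`sum_nb_comm`, degrees `≤ R m + r ≤ 2 R m`): their number is at most `(2/(ε m)) |Bad ∩ O| 2 R m = (4 R / ε) |Bad ∩ O|`.
Sum: `∑ f ≤ C4 m ^ (t-2) (4 R / ε) |Bad ∩ O| - c7 m ^ (t-1) |Bad ∩ O| ≤ 0` for large `m`.
-/

set_option autoImplicit false

open Finset

namespace Pool.Agent.H45.KTD

open Pool.Agent.H11.TD

theorem sumO (R r t : ℕ) (hR : 4 ≤ R) (hrR : r < R) (ht : 4 ≤ t) (ε C4 c5 c8 C9 : ℝ) (hε : 0 < ε)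
    (hC4 : 0 < C4) (hc5 : 0 < c5) (hc8 : 0 < c8) (hC9 : 0 < C9) :
    ∃ m0 : ℕ, ∀ m : ℕ, m0 ≤ m →
      ∀ (α : Type) [Fintype α] [DecidableEq α] (G : SimpleGraph α), Ctx G R r m →
        ∀ (O : Finset α) (f : α → ℝ),
        (∀ b ∈ O, b ∈ Bad G R m ε ∨ ε * m < ((nb G b (Bad G R m ε)).card : ℝ)) →
        (∀ b ∈ O, f b ≤ C4 * (m : ℝ) ^ (t - 2) -
          c5 * (m : ℝ) ^ (t - 2) * ((nb G b (univ \ O)).card : ℝ)) →
        (∀ b ∈ O, b ∈ Bad G R m ε → f b ≤ - c8 * (m : ℝ) ^ (t - 1) +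
          C9 * (m : ℝ) ^ (t - 2) * ((nb G b (univ \ O)).card : ℝ)) →
        ∑ b ∈ O, f b ≤ 0 := by
  obtain ⟨κ, hκ⟩ : ∃ κ : ℝ, κ = c8 / (2 * C9) := ⟨_, rfl⟩
  have hκ0 : 0 < κ := by rw [hκ]; positivity
  have hκ1 : C9 * κ = c8 / 2 := by rw [hκ]; field_simp
  obtain ⟨c7, hc7⟩ : ∃ c7 : ℝ, c7 = min (c5 * κ / 2) (c8 / 2) := ⟨_, rfl⟩
  have hc70 : 0 < c7 := by rw [hc7]; exact lt_min (by positivity) (by positivity)
  have hc7a : c7 ≤ c5 * κ / 2 := by rw [hc7]; exact min_le_left _ _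
  have hc7b : c7 ≤ c8 / 2 := by rw [hc7]; exact min_le_right _ _
  obtain ⟨m1, hm1⟩ := exists_nat_ge (2 * C4 / (c5 * κ))
  obtain ⟨m2, hm2⟩ := exists_nat_ge (2 * C4 / (c5 * ε))
  obtain ⟨m3, hm3⟩ := exists_nat_ge (4 * R * C4 / (ε * c7))
  refine ⟨m1 + m2 + m3 + 1, ?_⟩
  intro m hm α _ _ G hG O f h0 h1 h2
  have hmr : ((m1 + m2 + m3 + 1 : ℕ) : ℝ) ≤ m := by exact_mod_cast hm
  push_cast at hmr
  have hn1 : (0 : ℝ) ≤ m1 := by positivity
  have hn2 : (0 : ℝ) ≤ m2 := by positivity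
  have hn3 : (0 : ℝ) ≤ m3 := by positivity
  have hmpos : (1 : ℝ) ≤ m := by linarith
  have hM : (0 : ℝ) < (m : ℝ) ^ (t - 2) := by positivity
  have hMm : (m : ℝ) ^ (t - 1) = (m : ℝ) ^ (t - 2) * m := by
    rw [← pow_succ]; congr 1; omega
  obtain ⟨M, hMdef⟩ : ∃ M : ℝ, M = (m : ℝ) ^ (t - 2) := ⟨_, rfl⟩
  rw [hMm] at h2
  rw [← hMdef] at h1 h2 hM
  have e1 : 2 * C4 ≤ c5 * κ * m := by
    have : 2 * C4 / (c5 * κ) ≤ m := by linarith
    rw [div_le_iff₀ (by positivity)] at this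
    linarith
  have e2 : 2 * (C4 / c5) ≤ ε * m := by
    have : 2 * C4 / (c5 * ε) ≤ m := by linarith
    rw [div_le_iff₀ (by positivity)] at this
    have h3 : 2 * (C4 / c5) = (2 * C4) / c5 := by ring
    rw [h3, div_le_iff₀ hc5]
    linarith
  have e3 : 4 * R * C4 ≤ ε * c7 * m := by
    have : 4 * R * C4 / (ε * c7) ≤ m := by linarith
    rw [div_le_iff₀ (by positivity)] at this
    linarith
  -- bad vertices
  have a1 : ∀ b ∈ O, b ∈ Bad G R m ε → f b ≤ - (c7 * m * M) := by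
    intro b hb hbB
    have g1 := h1 b hb
    have g2 := h2 b hb hbB
    rcases le_or_gt (κ * m) ((nb G b (univ \ O)).card : ℝ) with hg | hg
    · have : c5 * M * (κ * m) ≤ c5 * M * ((nb G b (univ \ O)).card : ℝ) :=
        mul_le_mul_of_nonneg_left hg (by positivity)
      have h3 : C4 * M ≤ (c5 * κ * m) / 2 * M :=
        mul_le_mul_of_nonneg_right (by linarith) hM.le
      have h4 : c7 * (m * M) ≤ c5 * κ / 2 * (m * M) :=
        mul_le_mul_of_nonneg_right hc7a (by positivity)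
      nlinarith
    · have : C9 * M * ((nb G b (univ \ O)).card : ℝ) ≤ C9 * M * (κ * m) :=
        mul_le_mul_of_nonneg_left hg.le (by positivity)
      have h3 : C9 * M * (κ * m) = c8 / 2 * (M * m) := by rw [← hκ1]; ring
      have h4 : c7 * (m * M) ≤ c8 / 2 * (m * M) :=
        mul_le_mul_of_nonneg_right hc7b (by positivity)
      nlinarith
  classical
  have hsplit : ∑ b ∈ O, f b = ∑ b ∈ O.filter (fun b => b ∈ Bad G R m ε), f b +
      ∑ b ∈ O.filter (fun b => ¬ b ∈ Bad G R m ε), f b :=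
    (Finset.sum_filter_add_sum_filter_not O _ f).symm
  obtain ⟨OB, hOB⟩ : ∃ OB : Finset α, OB = O.filter (fun b => b ∈ Bad G R m ε) := ⟨_, rfl⟩
  obtain ⟨OG, hOG⟩ : ∃ OG : Finset α, OG = O.filter (fun b => ¬ b ∈ Bad G R m ε) := ⟨_, rfl⟩
  rw [← hOB, ← hOG] at hsplit
  have hsplit2 : ∑ b ∈ OG, f b =
      ∑ b ∈ OG.filter (fun b => ((nb G b (univ \ O)).card : ℝ) < C4 / c5), f b +
      ∑ b ∈ OG.filter (fun b => ¬ ((nb G b (univ \ O)).card : ℝ) < C4 / c5), f b :=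
    (Finset.sum_filter_add_sum_filter_not OG _ f).symm
  obtain ⟨T, hT⟩ : ∃ T : Finset α,
      T = OG.filter (fun b => ((nb G b (univ \ O)).card : ℝ) < C4 / c5) := ⟨_, rfl⟩
  rw [← hT] at hsplit2
  have b1 : ∑ b ∈ OB, f b ≤ OB.card * (- (c7 * m * M)) := by
    have : ∑ b ∈ OB, f b ≤ ∑ _b ∈ OB, (- (c7 * m * M)) := by
      apply Finset.sum_le_sum
      intro b hb
      rw [hOB, Finset.mem_filter] at hb
      exact a1 b hb.1 hb.2
    rw [Finset.sum_const, nsmul_eq_mul] at this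
    exact this
  have b2 : ∑ b ∈ OG.filter (fun b => ¬ ((nb G b (univ \ O)).card : ℝ) < C4 / c5), f b ≤ 0 := by
    apply Finset.sum_nonpos
    intro b hb
    rw [Finset.mem_filter, not_lt, hOG, Finset.mem_filter] at hb
    have g1 := h1 b hb.1.1
    have g2 := hb.2
    rw [div_le_iff₀ hc5] at g2
    have : C4 * M ≤ ((nb G b (univ \ O)).card : ℝ) * c5 * M :=
      mul_le_mul_of_nonneg_right g2 hM.le
    nlinarith
  have b3 : ∑ b ∈ T, f b ≤ T.card * (C4 * M) := by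
    have : ∑ b ∈ T, f b ≤ ∑ _b ∈ T, (C4 * M) := by
      apply Finset.sum_le_sum
      intro b hb
      rw [hT, Finset.mem_filter, hOG, Finset.mem_filter] at hb
      have g1 := h1 b hb.1.1
      have g2 : 0 ≤ c5 * M * ((nb G b (univ \ O)).card : ℝ) := by positivity
      linarith
    rw [Finset.sum_const, nsmul_eq_mul] at this
    exact this
  -- double counting
  have d1 : ∀ b ∈ T, ε * m / 2 ≤ ((nb G b OB).card : ℝ) := by
    intro b hb
    rw [hT, Finset.mem_filter, hOG, Finset.mem_filter] at hb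
    have g0 : ε * m < ((nb G b (Bad G R m ε)).card : ℝ) := by
      rcases h0 b hb.1.1 with h | h
      · exact absurd h hb.1.2
      · exact h
    have g1 : nb G b (Bad G R m ε) ⊆ nb G b OB ∪ nb G b (univ \ O) := by
      intro u hu
      rw [mem_nb] at hu
      rw [Finset.mem_union, mem_nb, mem_nb]
      by_cases huO : u ∈ O
      · left
        refine ⟨?_, hu.2⟩
        rw [hOB, Finset.mem_filter]
        exact ⟨huO, hu.1⟩
      · right
        refine ⟨?_, hu.2⟩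
        simp [huO]
    have g2 : (nb G b (Bad G R m ε)).card ≤ (nb G b OB).card + (nb G b (univ \ O)).card :=
      (Finset.card_le_card g1).trans (Finset.card_union_le _ _)
    have g3 : ((nb G b (Bad G R m ε)).card : ℝ) ≤
        ((nb G b OB).card : ℝ) + ((nb G b (univ \ O)).card : ℝ) := by exact_mod_cast g2
    have g4 := hb.2
    linarith
  have d2 : (T.card : ℝ) * (ε * m / 2) ≤ OB.card * (2 * R * m) := by
    have h3 : (T.card : ℝ) * (ε * m / 2) ≤ ((∑ b ∈ T, (nb G b OB).card : ℕ) : ℝ) := by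
      push_cast
      have : ∑ _b ∈ T, (ε * m / 2) ≤ ∑ b ∈ T, ((nb G b OB).card : ℝ) :=
        Finset.sum_le_sum d1
      rw [Finset.sum_const, nsmul_eq_mul] at this
      exact this
    rw [sum_nb_comm] at h3
    have h4 : ((∑ u ∈ OB, (nb G u T).card : ℕ) : ℝ) ≤ OB.card * (2 * R * m) := by
      push_cast
      have : ∑ u ∈ OB, ((nb G u T).card : ℝ) ≤ ∑ _u ∈ OB, (2 * (R : ℝ) * m) := by
        apply Finset.sum_le_sum
        intro u _
        have k1 : (nb G u T).card ≤ R * m + r := (nb_card_le G u T).trans (hG.deg u)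
        have k2 : ((nb G u T).card : ℝ) ≤ R * m + r := by exact_mod_cast k1
        have k3 : (r : ℝ) ≤ R := by exact_mod_cast hrR.le
        have k4 : (R : ℝ) ≤ R * m := by nlinarith [(by positivity : (0 : ℝ) ≤ R)]
        linarith
      rw [Finset.sum_const, nsmul_eq_mul] at this
      exact this
    exact h3.trans h4
  have d3 : (T.card : ℝ) * ε ≤ OB.card * (4 * R) := by
    have : ((T.card : ℝ) * ε) * m ≤ (OB.card * (4 * R)) * m := by linarith
    exact le_of_mul_le_mul_right this (by linarith)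
  have d4 : (T.card : ℝ) * C4 ≤ OB.card * (c7 * m) := by
    have k1 : (T.card : ℝ) * ε * C4 ≤ OB.card * (4 * R) * C4 :=
      mul_le_mul_of_nonneg_right d3 hC4.le
    have k2 : (OB.card : ℝ) * (4 * R * C4) ≤ OB.card * (ε * c7 * m) :=
      mul_le_mul_of_nonneg_left e3 (by positivity)
    have k3 : (T.card * C4) * ε ≤ (OB.card * (c7 * m)) * ε := by linarith
    exact le_of_mul_le_mul_right k3 hε
  have d5 : (T.card : ℝ) * C4 * M ≤ OB.card * (c7 * m) * M :=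
    mul_le_mul_of_nonneg_right d4 hM.le
  rw [hsplit, hsplit2]
  linarith

end Pool.Agent.H45.KTD
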