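import Pool.Agent.H45.KTD.Defs

/-!
# KTD Tau: the sum of the `R + 1 - r` smallest coordinates

`tau` is the minimum of `∑ i ∈ W, u i` over the sets `W` of `R + 1 - r` indices (finitely many).
* `tau_ex`: a minimising `W`; if `i ∈ W`, `j ∉ W` and `u j < u i` then `(W \ {i}) ∪ {j}` would have a smaller sum.
* `tau_avg`: `tau ≤` average of `∑_W u` over all `W`, which is `(R + 1 - r) / (R + 1) ∑ u`.
* `tau_vec`: let `u i0 ≤ 6 R η m`; the average of `∑_{W'} u` over the sets `W'` of `R - r` indices different from `i0` is at most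
  `((R - r) / R) ∑ u`; take `W = W' ∪ {i0}` for a `W'` with at most this sum.
-/

set_option autoImplicit false

open Finset

namespace Pool.Agent.H45.KTD

open Pool.Agent.H11.TD

/-- the sum of the `R + 1 - r` smallest coordinates -/
noncomputable def tau (R r : ℕ) (u : Fin (R + 1) → ℝ) : ℝ :=
  ⨅ W : {W : Finset (Fin (R + 1)) // W.card = R + 1 - r}, ∑ i ∈ W.1, u i

/-- a subset of `S` with `k` elements and the smallest sum -/
private theorem tau_min {ι : Type} [DecidableEq ι] (S : Finset ι) (k : ℕ) (hk : k ≤ S.card)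
    (u : ι → ℝ) : ∃ W ⊆ S, W.card = k ∧ (∀ W' ⊆ S, W'.card = k → ∑ i ∈ W, u i ≤ ∑ i ∈ W', u i) ∧
      (∀ i ∈ W, ∀ j ∈ S, j ∉ W → u i ≤ u j) ∧
      (S.card : ℝ) * ∑ i ∈ W, u i ≤ (k : ℝ) * ∑ i ∈ S, u i := by
  have hne : (S.powersetCard k).Nonempty := Finset.powersetCard_nonempty.2 hk
  obtain ⟨W, hW, hmin⟩ := Finset.exists_min_image (S.powersetCard k) (fun W => ∑ i ∈ W, u i) hne
  rw [Finset.mem_powersetCard] at hW
  have hmin' : ∀ W' ⊆ S, W'.card = k → ∑ i ∈ W, u i ≤ ∑ i ∈ W', u i := by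
    intro W' h1 h2
    exact hmin W' (Finset.mem_powersetCard.2 ⟨h1, h2⟩)
  have hex : ∀ i ∈ W, ∀ j ∈ S, j ∉ W → u i ≤ u j := by
    intro i hi j hjS hj
    have hj' : j ∉ W.erase i := fun h => hj (Finset.mem_of_mem_erase h)
    have h1 := hmin' (insert j (W.erase i)) (by
      intro x hx
      rw [Finset.mem_insert] at hx
      rcases hx with rfl | hx
      · exact hjS
      · exact hW.1 (Finset.mem_of_mem_erase hx)) (by
      rw [Finset.card_insert_of_notMem hj', Finset.card_erase_of_mem hi, hW.2]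
      have : 0 < W.card := Finset.card_pos.2 ⟨i, hi⟩
      omega)
    rw [Finset.sum_insert hj'] at h1
    have h2 := Finset.add_sum_erase W u hi
    linarith
  refine ⟨W, hW.1, hW.2, hmin', hex, ?_⟩
  have h3 : ∑ i ∈ W, ∑ j ∈ S \ W, u i ≤ ∑ i ∈ W, ∑ j ∈ S \ W, u j := by
    refine Finset.sum_le_sum fun i hi => Finset.sum_le_sum fun j hj => ?_
    rw [Finset.mem_sdiff] at hj
    exact hex i hi j hj.1 hj.2
  have h4 : ∑ i ∈ W, ∑ j ∈ S \ W, u i = ((S \ W).card : ℝ) * ∑ i ∈ W, u i := by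
    rw [Finset.mul_sum]
    refine Finset.sum_congr rfl fun i _ => ?_
    rw [Finset.sum_const, nsmul_eq_mul]
  have h5 : ∑ i ∈ W, ∑ j ∈ S \ W, u j = (W.card : ℝ) * ∑ j ∈ S \ W, u j := by
    rw [Finset.sum_const, nsmul_eq_mul]
  rw [h4, h5] at h3
  have h6 : ((S \ W).card : ℝ) = (S.card : ℝ) - W.card := by
    have := Finset.card_sdiff_add_card_eq_card hW.1
    have h7 : ((S \ W).card : ℝ) + W.card = S.card := by exact_mod_cast this
    linarith
  have h8 : ∑ j ∈ S \ W, u j + ∑ j ∈ W, u j = ∑ j ∈ S, u j := Finset.sum_sdiff hW.1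
  rw [h6] at h3
  rw [← h8, ← hW.2]
  linarith [h3]

theorem tau_le {R r : ℕ} (u : Fin (R + 1) → ℝ) (W : Finset (Fin (R + 1)))
    (hW : W.card = R + 1 - r) : tau R r u ≤ ∑ i ∈ W, u i := by
  unfold tau
  exact ciInf_le (Set.finite_range _).bddBelow
    (⟨W, hW⟩ : {W : Finset (Fin (R + 1)) // W.card = R + 1 - r})

/-- the minimising set -/
private theorem tau_ex' (R r : ℕ) (u : Fin (R + 1) → ℝ) : ∃ W : Finset (Fin (R + 1)),
    W.card = R + 1 - r ∧ tau R r u = ∑ i ∈ W, u i ∧ (∀ i ∈ W, ∀ j, j ∉ W → u i ≤ u j) ∧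
      ((R : ℝ) + 1) * ∑ i ∈ W, u i ≤ ((R + 1 - r : ℕ) : ℝ) * ∑ i, u i := by
  obtain ⟨W, -, h2, h3, h4, h5⟩ := tau_min (Finset.univ : Finset (Fin (R + 1))) (R + 1 - r)
    (by rw [Finset.card_univ, Fintype.card_fin]; omega) u
  refine ⟨W, h2, ?_, fun i hi j hj => h4 i hi j (Finset.mem_univ _) hj, ?_⟩
  · apply le_antisymm (tau_le u W h2)
    have : Nonempty {W : Finset (Fin (R + 1)) // W.card = R + 1 - r} := ⟨⟨W, h2⟩⟩
    unfold tau
    exact le_ciInf fun W' => h3 W'.1 (Finset.subset_univ _) W'.2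
  · rw [Finset.card_univ, Fintype.card_fin] at h5
    push_cast at h5 ⊢
    exact h5

theorem tau_ex (R r : ℕ) (u : Fin (R + 1) → ℝ) : ∃ W : Finset (Fin (R + 1)),
    W.card = R + 1 - r ∧ tau R r u = ∑ i ∈ W, u i ∧ ∀ i ∈ W, ∀ j, j ∉ W → u i ≤ u j := by
  obtain ⟨W, h1, h2, h3, -⟩ := tau_ex' R r u
  exact ⟨W, h1, h2, h3⟩

theorem tau_nn {R r : ℕ} (u : Fin (R + 1) → ℝ) (h : ∀ i, 0 ≤ u i) : 0 ≤ tau R r u := by
  obtain ⟨W, -, h2, -⟩ := tau_ex R r u
  rw [h2]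
  exact Finset.sum_nonneg fun i _ => h i

theorem tau_mul {R r : ℕ} (u : Fin (R + 1) → ℝ) (a : ℝ) (ha : 0 ≤ a) :
    tau R r (fun i => a * u i) = a * tau R r u := by
  unfold tau
  rw [Real.mul_iInf_of_nonneg ha]
  congr 1
  funext W
  rw [Finset.mul_sum]

theorem tau_avg {R r : ℕ} (hr : r ≤ R) (u : Fin (R + 1) → ℝ) :
    ((R : ℝ) + 1) * tau R r u ≤ ((R : ℝ) + 1 - r) * ∑ i, u i := by
  obtain ⟨W, h1, h2, -, h4⟩ := tau_ex' R r u
  rw [h2]
  have : ((R + 1 - r : ℕ) : ℝ) = (R : ℝ) + 1 - r := by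
    rw [Nat.cast_sub (by omega)]
    push_cast
    ring
  rw [this] at h4
  exact h4

theorem tau_vec {R r m : ℕ} {γ η : ℝ} (hR : 1 ≤ R) (hr : r ≤ R) (u : Fin (R + 1) → ℝ)
    (hu : Vec R m γ η u) : tau R r u ≤ 6 * R * η * m + ((R : ℝ) - r) / R * ∑ i, u i := by
  obtain ⟨i0, hi0⟩ := hu.zero
  have hcard : ((Finset.univ : Finset (Fin (R + 1))).erase i0).card = R := by
    rw [Finset.card_erase_of_mem (Finset.mem_univ _), Finset.card_univ, Fintype.card_fin]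
    omega
  obtain ⟨W, h1, h2, -, -, h5⟩ := tau_min ((Finset.univ : Finset (Fin (R + 1))).erase i0) (R - r)
    (by rw [hcard]; omega) u
  have hi0W : i0 ∉ W := fun h => Finset.notMem_erase i0 _ (h1 h)
  have h6 := tau_le (r := r) u (insert i0 W) (by
    rw [Finset.card_insert_of_notMem hi0W, h2]
    omega)
  rw [Finset.sum_insert hi0W] at h6
  have h7 : u i0 + ∑ i ∈ (Finset.univ : Finset (Fin (R + 1))).erase i0, u i = ∑ i, u i :=
    Finset.add_sum_erase _ _ (Finset.mem_univ _)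
  have h8 := hu.nn i0
  have hR0 : (0 : ℝ) < R := by exact_mod_cast hR
  rw [hcard, Nat.cast_sub hr] at h5
  have hrR : (0 : ℝ) ≤ (R : ℝ) - r := by
    have : (r : ℝ) ≤ R := by exact_mod_cast hr
    linarith
  have h9 : ∑ i ∈ W, u i ≤ ((R : ℝ) - r) / R * ∑ i, u i := by
    rw [div_mul_eq_mul_div, le_div_iff₀ hR0, mul_comm]
    refine h5.trans (mul_le_mul_of_nonneg_left ?_ hrR)
    linarith
  linarith

end Pool.Agent.H45.KTD
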