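import Pool.Agent.H45.KTD.Bas

/-!
# KTD TypB: cliques which meet several hulls

`K` a `t`-clique contained in `HH L` and in no single hull.  The hulls of the `V ∈ L` are disjoint; there are `V ∈ L` and
`v ∈ K ∩ hull V` with `|K \ hull V| ≥ 2`: if `K` has only one element `w` outside of `hull V`, `w ∈ hull V1`, then
`K \ hull V1 ⊇ K ∩ hull V` has `t - 1` elements, and we take `w` and `V1`.
So `v` has at least two neighbours in
`K \ hull V ⊆ HH L \ hull V`; let `y1 ≠ y2` be two of them, `y1 ∈ hull V1`, `V1 ≠ V`.  Every other element `z` of `K` (`t - 3` of them)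
is adjacent to `v` and `y1`; if `z ∉ hull V` it is in `NN v \ hull V`, and if `z ∈ hull V` it is not in `hull V1`, so in
`NN y1 \ hull V1`; both sets have at most `3 γ m` elements (`hpt_ext`).  So for given `v, y1, y2` there are at most
`(6 γ m) ^ (t - 3)` such `K` (number of the subsets with `t - 3` elements of a set with at most `6 γ m` elements), and there are
`ex v (ex v - 1)` ordered pairs `y1 ≠ y2` in `nb v (HH L \ hull V)`, `ex v = |nb v (HH L \ hull V)|`.
-/

set_option autoImplicit false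

open Finset

namespace Pool.Agent.H45.KTD

open Pool.Agent.H11.TD

open scoped Classical in
theorem typB {α : Type} [Fintype α] [DecidableEq α] (G : SimpleGraph α) {R r m : ℕ} {γ η : ℝ}
    (t : ℕ) (ht : 4 ≤ t) (hp : Par R r m γ η) (hG : Ctx G R r m)
    (L : Finset (Fin (R + 1) → Finset α)) (hL : Fam G R m γ η L) :
    (((cq G t (HH G m γ L)).filter (fun K => ∀ V ∈ L, ¬ K ⊆ hull G m γ V)).card : ℝ) ≤
      ∑ V ∈ L, ∑ v ∈ hull G m γ V, ((nb G v (HH G m γ L \ hull G m γ V)).card : ℝ) *
        (((nb G v (HH G m γ L \ hull G m γ V)).card : ℝ) - 1) * (6 * γ * m) ^ (t - 3) := by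
  set H := HH G m γ L with hH
  set X := (cq G t H).filter (fun K => ∀ V ∈ L, ¬ K ⊆ hull G m γ V) with hX
  have hHH : ∀ z, z ∈ H ↔ ∃ V ∈ L, z ∈ hull G m γ V := by
    intro z
    rw [hH, HH, mem_biUnion]
  have hnb : ∀ (v z : α) (S : Finset α), z ∈ nb G v S ↔ z ∈ S ∧ G.Adj v z := by
    intro v z S
    rw [nb, mem_filter]
  have hNN : ∀ (v z : α), z ∈ NN G v ↔ G.Adj v z := by
    intro v z
    rw [NN, hnb]
    simp
  have hdis : ∀ V ∈ L, ∀ V' ∈ L, V ≠ V' → ∀ z, z ∈ hull G m γ V → z ∉ hull G m γ V' :=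
    fun V hV V' hV' hne z hz => disjoint_left.1 (hL.disj V hV V' hV' hne) hz
  -- the cliques through `v` with two elements outside of `hull V`
  let Y : (Fin (R + 1) → Finset α) → α → Finset (Finset α) := fun V v =>
    X.filter (fun K => v ∈ K ∧ 2 ≤ (K \ hull G m γ V).card)
  have hcov : X ⊆ L.biUnion (fun V => (hull G m γ V).biUnion (fun v => Y V v)) := by
    intro K hK
    have hK0 := hK
    rw [hX, mem_filter, mem_cq] at hK
    obtain ⟨⟨hKH, hKc, hKq⟩, hKV⟩ := hK
    have hne : K.Nonempty := card_pos.1 (by omega)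
    obtain ⟨v, hv⟩ := hne
    obtain ⟨V0, hV0, hvV0⟩ := (hHH v).1 (hKH hv)
    rw [mem_biUnion]
    by_cases h2 : 2 ≤ (K \ hull G m γ V0).card
    · refine ⟨V0, hV0, ?_⟩
      rw [mem_biUnion]
      exact ⟨v, hvV0, mem_filter.2 ⟨hK0, hv, h2⟩⟩
    · obtain ⟨w, hw, hw2⟩ := not_subset.1 (hKV V0 hV0)
      obtain ⟨V1, hV1, hwV1⟩ := (hHH w).1 (hKH hw)
      have hne1 : V0 ≠ V1 := by
        rintro rfl
        exact hw2 hwV1
      refine ⟨V1, hV1, ?_⟩
      rw [mem_biUnion]
      refine ⟨w, hwV1, mem_filter.2 ⟨hK0, hw, ?_⟩⟩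
      have h3 : K ∩ hull G m γ V0 ⊆ K \ hull G m γ V1 := by
        intro z hz
        rw [mem_inter] at hz
        rw [mem_sdiff]
        exact ⟨hz.1, hdis V0 hV0 V1 hV1 hne1 z hz.2⟩
      have h4 := card_le_card h3
      have h5 := card_sdiff_add_card_inter K (hull G m γ V0)
      omega
  have hY : ∀ V ∈ L, ∀ v ∈ hull G m γ V, ((Y V v).card : ℝ) ≤
      ((nb G v (H \ hull G m γ V)).card : ℝ) *
        (((nb G v (H \ hull G m γ V)).card : ℝ) - 1) * (6 * γ * m) ^ (t - 3) := by
    intro V hV v hv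
    set E := nb G v (H \ hull G m γ V) with hE
    have hcov2 : Y V v ⊆ E.offDiag.biUnion
        (fun p => (Y V v).filter (fun K => p.1 ∈ K ∧ p.2 ∈ K)) := by
      intro K hK
      have hK0 := hK
      rw [mem_filter, hX, mem_filter, mem_cq] at hK
      obtain ⟨⟨⟨hKH, hKc, hKq⟩, hKV⟩, hvK, h2⟩ := hK
      obtain ⟨y1, hy1, y2, hy2, hne⟩ := one_lt_card.1 (show 1 < (K \ hull G m γ V).card by omega)
      have hin : ∀ y ∈ K \ hull G m γ V, y ∈ E := by
        intro y hy
        rw [mem_sdiff] at hy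
        rw [hE, hnb, mem_sdiff]
        refine ⟨⟨hKH hy.1, hy.2⟩, hKq hvK hy.1 ?_⟩
        rintro rfl
        exact hy.2 hv
      rw [mem_biUnion]
      refine ⟨(y1, y2), mem_offDiag.2 ⟨hin y1 hy1, hin y2 hy2, hne⟩, mem_filter.2 ⟨hK0, ?_, ?_⟩⟩
      · exact (mem_sdiff.1 hy1).1
      · exact (mem_sdiff.1 hy2).1
    have hZ : ∀ p ∈ E.offDiag, (((Y V v).filter (fun K => p.1 ∈ K ∧ p.2 ∈ K)).card : ℝ) ≤
        (6 * γ * m) ^ (t - 3) := by
      rintro ⟨y1, y2⟩ hp1
      rw [mem_offDiag] at hp1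
      obtain ⟨hy1, hy2, hne⟩ := hp1
      dsimp only at hy1 hy2 hne ⊢
      rw [hE, hnb, mem_sdiff] at hy1 hy2
      obtain ⟨V1, hV1, hyV1⟩ := (hHH y1).1 hy1.1.1
      have hne1 : V ≠ V1 := by
        rintro rfl
        exact hy1.1.2 hyV1
      set W := (NN G v \ hull G m γ V) ∪ (NN G y1 \ hull G m γ V1) with hW
      have hWc : (W.card : ℝ) ≤ 6 * γ * m := by
        have h1 := hpt_ext G hp hG (hL.core V hV) v hv
        have h2 := hpt_ext G hp hG (hL.core V1 hV1) y1 hyV1
        have h3 : (W.card : ℝ) ≤ ((NN G v \ hull G m γ V).card : ℝ) +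
            ((NN G y1 \ hull G m γ V1).card : ℝ) := by
          exact_mod_cast card_union_le _ _
        linarith
      have hvy1 : v ≠ y1 := by
        rintro rfl
        exact hy1.1.2 hv
      have hvy2 : v ≠ y2 := by
        rintro rfl
        exact hy2.1.2 hv
      have h3 : (({v, y1, y2} : Finset α)).card = 3 := by
        rw [card_insert_of_notMem, card_pair hne]
        rw [mem_insert, mem_singleton, not_or]
        exact ⟨hvy1, hvy2⟩
      have hsub : ∀ K ∈ (Y V v).filter (fun K => y1 ∈ K ∧ y2 ∈ K),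
          ({v, y1, y2} : Finset α) ⊆ K := by
        intro K hK
        rw [mem_filter, mem_filter] at hK
        intro z hz
        rw [mem_insert, mem_insert, mem_singleton] at hz
        rcases hz with rfl | rfl | rfl
        · exact hK.1.2.1
        · exact hK.2.1
        · exact hK.2.2
      have hinj : ((Y V v).filter (fun K => y1 ∈ K ∧ y2 ∈ K)).card ≤
          (W.powersetCard (t - 3)).card := by
        refine card_le_card_of_injOn (fun K => K \ {v, y1, y2}) ?_ ?_
        · intro K hK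
          have hs := hsub K hK
          rw [mem_coe, mem_filter, mem_filter, hX, mem_filter, mem_cq] at hK
          obtain ⟨⟨⟨⟨hKH, hKc, hKq⟩, hKV⟩, hvK, h2⟩, hK1, hK2⟩ := hK
          rw [mem_coe, mem_powersetCard]
          refine ⟨?_, ?_⟩
          · intro z hz
            rw [mem_sdiff, mem_insert, mem_insert, mem_singleton, not_or, not_or] at hz
            obtain ⟨hzK, hzv, hz1, hz2⟩ := hz
            rw [hW, mem_union]
            by_cases hzV : z ∈ hull G m γ V
            · right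
              rw [mem_sdiff, hNN]
              exact ⟨hKq hK1 hzK (Ne.symm hz1), hdis V hV V1 hV1 hne1 z hzV⟩
            · left
              rw [mem_sdiff, hNN]
              exact ⟨hKq hvK hzK (Ne.symm hzv), hzV⟩
          · rw [card_sdiff_of_subset hs, h3, hKc]
        · intro K hK K' hK' h
          have hs := hsub K hK
          have hs' := hsub K' hK'
          dsimp only at h
          rw [← sdiff_union_of_subset hs, ← sdiff_union_of_subset hs', h]
      have h4 : ((Y V v).filter (fun K => y1 ∈ K ∧ y2 ∈ K)).card ≤ W.card ^ (t - 3) := by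
        refine hinj.trans ?_
        rw [card_powersetCard]
        exact Nat.choose_le_pow _ _
      calc (((Y V v).filter (fun K => y1 ∈ K ∧ y2 ∈ K)).card : ℝ)
          ≤ (W.card : ℝ) ^ (t - 3) := by exact_mod_cast h4
        _ ≤ (6 * γ * m) ^ (t - 3) := pow_le_pow_left₀ (Nat.cast_nonneg _) hWc _
    have h5 : ((Y V v).card : ℝ) ≤ ∑ p ∈ E.offDiag,
        (((Y V v).filter (fun K => p.1 ∈ K ∧ p.2 ∈ K)).card : ℝ) := by
      exact_mod_cast (card_le_card hcov2).trans card_biUnion_le
    refine h5.trans ((sum_le_sum hZ).trans (le_of_eq ?_))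
    rw [sum_const, nsmul_eq_mul, offDiag_card, Nat.cast_sub (Nat.le_mul_self _)]
    push_cast
    ring
  have h6 : (X.card : ℝ) ≤ ∑ V ∈ L, ∑ v ∈ hull G m γ V, ((Y V v).card : ℝ) := by
    have h7 : X.card ≤ ∑ V ∈ L, ∑ v ∈ hull G m γ V, (Y V v).card :=
      (card_le_card hcov).trans (card_biUnion_le.trans
        (sum_le_sum (fun V _ => card_biUnion_le)))
    exact_mod_cast h7
  exact h6.trans (sum_le_sum (fun V hV => sum_le_sum (fun v hv => hY V hV v hv)))

end Pool.Agent.H45.KTD
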