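import Pool.Agent.H11.TD.CoreB
import Pool.Agent.H45.KTD.HCnt
import Pool.Agent.H45.KTD.TypB
import Pool.Agent.H45.KTD.MixE
import Pool.Agent.H45.KTD.Acc
import Pool.Agent.H45.KTD.BadK
import Pool.Agent.H45.KTD.SumO
import Pool.Agent.H45.KTD.Red
import Pool.Agent.H45.KTD.Cdat
import Pool.Agent.H45.KTD.NumG
import Pool.Agent.H45.KTD.Knb

/-!
# KTD Upp: the upper bound (assembly)

Constants: `C1` from `hcnt`; `C2, γ1` from `payCK` (`C1`); `C3 = 4 R³ (R + 1) ^ (t - 3)`; `γ2` from `hB C2 C3`;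
`γ = min γ1 γ2 (1/(1000 R))`; `η1, η2` from `payCK`, `hB`; `η = min η1 η2 (γ / (1000 R²)) 1`; `C4, c5` from `hB`; `ε, m1` from `core_ex`
(`η`); `ε', m2` from `badK` (`ε`); `c8 = ε'/t`; `C9` from `numG`; `m3` from `sumO`; `m0 = max m1 m2 m3 ⌈(r + 1)/η⌉`.
Then `Par R r m γ η`.  `L` from `exists_fam`, `H = hull`, `O = univ \ HH L`.
For `b ∈ O`, `V ∈ L`: `u b V i = |nb b (hpt V i)|`, `U = ∑ i, u b V i = |nb b (hull V)|`,
`k b V = kq (t-1) (nb b (hull V)) ≤ C(R, t-1) (U/R) ^ (t-1)` and `≤ es (t-1) (u b V)` by `kq_nb_hull` (file Knb);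
`e b V = ee (nb b (hull V)) (NN b \ hull V) D ^ (t-3)`, `D = R m + r ≤ (R + 1) m`: `≤ C3 γ m ^ (t-2) U` (`mixE1`) and
`≤ C3 √η m ^ (t-1)` (`mixE2`); `h b = |nb b O|`, `∑_V U + h = |NN b| ≤ D` (disjoint hulls).
`acck` (`ι = ` type of the cores, `D = R m + r`) and `hcnt`, `typB`, `payCK` (with `cdat`; `muV_eq`; `|hull V| = ∑ |hpt V i|`, the sums
over `hull V = tot (hpt V)` are sums over the disjoint parts) give
`kq t univ ≤ ∑_V PL |hull V| + ∑_{b ∈ O} (f b + PL) = PL n + ∑_{b ∈ O} f b`, where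
`f b = ∑_V (k - ψ + e + [χ] C2 η m ^ (t-1)) + kq (t-1) (nb b O) / t - PL`.
`∑_{b ∈ O} f b ≤ 0` by `sumO`:
* `b ∈ O` is bad or has more than `ε m` bad neighbours: otherwise `core_ex` gives a core `V'` with `b ∈ tot V'`, and `Fam.cover`
  gives `b ∈ HH L`;
* second hypothesis: `hB` with `kq (t-1) (nb b O) ≤ C(R, t-1) (h/R) ^ (t-1)` (`kq_cf`, `kq_turan`); `univ \ O = HH L`,
  `|nb b (HH L)| = ∑_V U`;
* third hypothesis: `numG` with `k' = kq (t-1) (nb b O) ≤ kq (t-1) (NN b)` and `badK`.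
-/

set_option autoImplicit false

open Finset

namespace Pool.Agent.H45.KTD

open Pool.Agent.H11.TD

private theorem uppk_pow {m : ℝ} (t : ℕ) (ht : 4 ≤ t) : m * m ^ (t - 3) = m ^ (t - 2) ∧
    m ^ 2 * m ^ (t - 3) = m ^ (t - 1) := by
  constructor
  · rw [← pow_succ']
    congr 1
    omega
  · rw [← pow_add]
    congr 1
    omega

private theorem uppk_tot {α : Type} [DecidableEq α] {k : ℕ} (A : Fin k → Finset α)
    (hd : ∀ i j, i ≠ j → Disjoint (A i) (A j)) (f : α → ℝ) :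
    ∑ i, ∑ v ∈ A i, f v = ∑ v ∈ tot A, f v := by
  unfold tot
  rw [Finset.sum_biUnion]
  intro i _ j _ hij
  exact hd i j hij

open scoped Classical in
private theorem uppk_mem_Bad {α : Type} [Fintype α] [DecidableEq α] (G : SimpleGraph α) {R m : ℕ}
    {ε : ℝ} (b : α) (h : ¬ Good G R m ε b) : b ∈ Bad G R m ε := by
  unfold Bad
  exact mem_filter.2 ⟨mem_univ _, h⟩

open scoped Classical in
/-- the accounting for one graph -/
private theorem uppk_main (R r t m : ℕ) (ht : 4 ≤ t)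
    (ψ : ℕ → (Fin (R + 1) → ℝ) → ℝ) (χ : ℕ → (Fin (R + 1) → ℝ) → Prop)
    (γ η C1 C2 : ℝ) (hp : Par R r m γ η)
    (α : Type) [Fintype α] [DecidableEq α] (G : SimpleGraph α) (hG : Ctx G R r m)
    (L : Finset (Fin (R + 1) → Finset α)) (hL : Fam G R m γ η L)
    (hcnt' : ∀ V : Fin (R + 1) → Finset α, Core G R m η V →
          (kq G t (hull G m γ V) : ℝ) ≤ es t (fun i => ((hpt G m γ V i).card : ℝ)) -
            (KK R t / 2 - C1 * γ) * (m : ℝ) ^ (t - 2) *
              ∑ i, ∑ v ∈ hpt G m γ V i, (ms G (hpt G m γ V) i v : ℝ))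
    (hpay : ∀ (A : Fin (R + 1) → Finset α) (mu ex bb : α → ℕ)
          (B : Finset α) (u : α → Fin (R + 1) → ℝ), CK R r m γ η A mu ex bb B u →
          es t (fun i => ((A i).card : ℝ)) - PL R r m t * ∑ i, ((A i).card : ℝ) -
            (KK R t / 2 - C1 * γ) * (m : ℝ) ^ (t - 2) * ∑ i, ∑ v ∈ A i, (mu v : ℝ) +
            (6 * γ * m) ^ (t - 3) * ∑ i, ∑ v ∈ A i, (ex v : ℝ) * ((ex v : ℝ) - 1) +
            ∑ b ∈ B, ψ m (u b) ≤
          C2 * η * (m : ℝ) ^ (t - 1) * ((B.filter (fun b => χ m (u b))).card : ℝ)) :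
    (kq G t univ : ℝ) ≤ PL R r m t * (Fintype.card α : ℝ) +
      ∑ b ∈ univ \ HH G m γ L, (∑ V ∈ L, ((kq G (t - 1) (nb G b (hull G m γ V)) : ℝ) -
        ψ m (fun i => ((nb G b (hpt G m γ V i)).card : ℝ)) +
        (ee G (nb G b (hull G m γ V)) (NN G b \ hull G m γ V) : ℝ) *
          ((R : ℝ) * m + r) ^ (t - 3) +
        (if χ m (fun i => ((nb G b (hpt G m γ V i)).card : ℝ)) then
          C2 * η * (m : ℝ) ^ (t - 1) else 0)) +
        (kq G (t - 1) (nb G b (univ \ HH G m γ L)) : ℝ) / t - PL R r m t) := by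
  set O := univ \ HH G m γ L with hO
  have hdj : ∀ V ∈ L, ∀ i j, i ≠ j → Disjoint (hpt G m γ V i) (hpt G m γ V j) :=
    fun V hV => hpt_disj G hp hG (hL.core V hV)
  have hsz : ∀ V ∈ L, ((hull G m γ V).card : ℝ) = ∑ i, ((hpt G m γ V i).card : ℝ) := by
    intro V hV
    unfold hull
    rw [tot_card _ (hdj V hV)]
    push_cast
    rfl
  -- one cluster
  have hone : ∀ V ∈ L, (kq G t (hull G m γ V) : ℝ) +
      (∑ v ∈ hull G m γ V, ((nb G v (HH G m γ L \ hull G m γ V)).card : ℝ) *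
        (((nb G v (HH G m γ L \ hull G m γ V)).card : ℝ) - 1) * (6 * γ * m) ^ (t - 3)) ≤
      PL R r m t * ((hull G m γ V).card : ℝ) + ∑ b ∈ O,
        ((if χ m (fun i => ((nb G b (hpt G m γ V i)).card : ℝ)) then
          C2 * η * (m : ℝ) ^ (t - 1) else 0) -
          ψ m (fun i => ((nb G b (hpt G m γ V i)).card : ℝ))) := by
    intro V hV
    have h1 := hcnt' V (hL.core V hV)
    have h2 := hpay _ _ _ _ _ _ (cdat G hp hG L hL V hV)
    have h3 : ∑ i, ∑ v ∈ hpt G m γ V i, (muV G (hpt G m γ V) v : ℝ) =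
        ∑ i, ∑ v ∈ hpt G m γ V i, (ms G (hpt G m γ V) i v : ℝ) := by
      refine sum_congr rfl fun i _ => sum_congr rfl fun v hv => ?_
      rw [muV_eq G _ (hdj V hV) i v hv]
    rw [h3, ← hsz V hV] at h2
    have h4 : (6 * γ * m) ^ (t - 3) * ∑ i, ∑ v ∈ hpt G m γ V i,
        ((nb G v (HH G m γ L \ hull G m γ V)).card : ℝ) *
          (((nb G v (HH G m γ L \ hull G m γ V)).card : ℝ) - 1) =
        ∑ v ∈ hull G m γ V, ((nb G v (HH G m γ L \ hull G m γ V)).card : ℝ) *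
        (((nb G v (HH G m γ L \ hull G m γ V)).card : ℝ) - 1) * (6 * γ * m) ^ (t - 3) := by
      rw [uppk_tot _ (hdj V hV) (fun v => ((nb G v (HH G m γ L \ hull G m γ V)).card : ℝ) *
          (((nb G v (HH G m γ L \ hull G m γ V)).card : ℝ) - 1)), mul_sum]
      unfold hull
      refine sum_congr rfl fun v _ => ?_
      ring
    rw [h4] at h2
    have h5 : ∑ b ∈ O, (if χ m (fun i => ((nb G b (hpt G m γ V i)).card : ℝ)) then
          C2 * η * (m : ℝ) ^ (t - 1) else 0) = C2 * η * (m : ℝ) ^ (t - 1) *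
          ((O.filter (fun b => χ m (fun i => ((nb G b (hpt G m γ V i)).card : ℝ)))).card : ℝ) := by
      rw [← sum_filter, sum_const, nsmul_eq_mul]
      ring
    rw [sum_sub_distrib, h5]
    linarith
  -- the accounting
  have hD : ∀ v, ((NN G v).card : ℝ) ≤ (R : ℝ) * m + r := by
    intro v
    exact_mod_cast hG.deg v
  have hacc0 := acck G L (fun V => hull G m γ V) t ht hL.disj ((R : ℝ) * m + r) hD
  have htyp := typB G t ht hp hG L hL
  have hHH : L.biUnion (fun V => hull G m γ V) = HH G m γ L := rfl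
  rw [hHH, ← hO] at hacc0
  have hacc : (kq G t univ : ℝ) ≤ ∑ V ∈ L, (kq G t (hull G m γ V) : ℝ) +
      (((cq G t (HH G m γ L)).filter (fun K => ∀ V ∈ L, ¬ K ⊆ hull G m γ V)).card : ℝ) +
      ∑ b ∈ O, (∑ V ∈ L, ((kq G (t - 1) (nb G b (hull G m γ V)) : ℝ) +
        (ee G (nb G b (hull G m γ V)) (NN G b \ hull G m γ V) : ℝ) *
          ((R : ℝ) * m + r) ^ (t - 3)) +
        (kq G (t - 1) (nb G b O) : ℝ) / t) := by
    convert hacc0 using 5
    ext K
    simp only [mem_filter]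
  have hsum := sum_le_sum hone
  rw [sum_add_distrib, sum_add_distrib] at hsum
  have hcard : (Fintype.card α : ℝ) = ∑ V ∈ L, ((hull G m γ V).card : ℝ) + (O.card : ℝ) := by
    have h1 : Fintype.card α = ∑ V ∈ L, (hull G m γ V).card + O.card := by
      have h2 : (HH G m γ L).card = ∑ V ∈ L, (hull G m γ V).card := by
        unfold HH
        exact card_biUnion hL.disj
      rw [← h2, hO, ← card_univ]
      rw [card_sdiff_of_subset (subset_univ _)]
      have h3 := card_le_card (subset_univ (HH G m γ L))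
      omega
    rw [h1]
    push_cast
    ring
  have e1 : ∑ V ∈ L, ∑ b ∈ O,
        ((if χ m (fun i => ((nb G b (hpt G m γ V i)).card : ℝ)) then
          C2 * η * (m : ℝ) ^ (t - 1) else 0) -
          ψ m (fun i => ((nb G b (hpt G m γ V i)).card : ℝ))) +
      ∑ b ∈ O, (∑ V ∈ L, ((kq G (t - 1) (nb G b (hull G m γ V)) : ℝ) +
        (ee G (nb G b (hull G m γ V)) (NN G b \ hull G m γ V) : ℝ) *
          ((R : ℝ) * m + r) ^ (t - 3)) +
        (kq G (t - 1) (nb G b O) : ℝ) / t) =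
      PL R r m t * (O.card : ℝ) +
      ∑ b ∈ O, (∑ V ∈ L, ((kq G (t - 1) (nb G b (hull G m γ V)) : ℝ) -
        ψ m (fun i => ((nb G b (hpt G m γ V i)).card : ℝ)) +
        (ee G (nb G b (hull G m γ V)) (NN G b \ hull G m γ V) : ℝ) *
          ((R : ℝ) * m + r) ^ (t - 3) +
        (if χ m (fun i => ((nb G b (hpt G m γ V i)).card : ℝ)) then
          C2 * η * (m : ℝ) ^ (t - 1) else 0)) +
        (kq G (t - 1) (nb G b O) : ℝ) / t - PL R r m t) := by
    have h1 : PL R r m t * (O.card : ℝ) = ∑ b ∈ O, PL R r m t := by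
      rw [sum_const, nsmul_eq_mul]
      ring
    rw [sum_comm, h1, ← sum_add_distrib, ← sum_add_distrib]
    refine sum_congr rfl fun b _ => ?_
    have h2 : ∑ V ∈ L, ((kq G (t - 1) (nb G b (hull G m γ V)) : ℝ) -
        ψ m (fun i => ((nb G b (hpt G m γ V i)).card : ℝ)) +
        (ee G (nb G b (hull G m γ V)) (NN G b \ hull G m γ V) : ℝ) *
          ((R : ℝ) * m + r) ^ (t - 3) +
        (if χ m (fun i => ((nb G b (hpt G m γ V i)).card : ℝ)) then
          C2 * η * (m : ℝ) ^ (t - 1) else 0)) =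
        ∑ V ∈ L, ((if χ m (fun i => ((nb G b (hpt G m γ V i)).card : ℝ)) then
          C2 * η * (m : ℝ) ^ (t - 1) else 0) -
          ψ m (fun i => ((nb G b (hpt G m γ V i)).card : ℝ))) +
        ∑ V ∈ L, ((kq G (t - 1) (nb G b (hull G m γ V)) : ℝ) +
        (ee G (nb G b (hull G m γ V)) (NN G b \ hull G m γ V) : ℝ) *
          ((R : ℝ) * m + r) ^ (t - 3)) := by
      rw [← sum_add_distrib]
      refine sum_congr rfl fun V _ => ?_
      ring
    rw [h2]
    ring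
  have e2 : ∑ V ∈ L, PL R r m t * ((hull G m γ V).card : ℝ) =
      PL R r m t * ∑ V ∈ L, ((hull G m γ V).card : ℝ) := by
    rw [mul_sum]
  rw [hcard]
  rw [e2] at hsum
  linarith

theorem upperK (R r t : ℕ) (hR : 4 ≤ R) (hrR : r < R) (ht : 4 ≤ t) (htR : t ≤ R + 1)
    (ψ : ℕ → (Fin (R + 1) → ℝ) → ℝ) (χ : ℕ → (Fin (R + 1) → ℝ) → Prop) (hA : PayA R r t ψ χ)
    (hB : PayB R r t ψ χ) (hC : PayC R r ψ χ) : ∃ m0 : ℕ, ∀ m : ℕ, m0 ≤ m →
      ∀ (α : Type) [Fintype α] [DecidableEq α] (G : SimpleGraph α), Ctx G R r m →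
        (kq G t univ : ℝ) ≤ PL R r m t * (Fintype.card α : ℝ) := by
  classical
  have hR4 : (4 : ℝ) ≤ R := by exact_mod_cast hR
  obtain ⟨C1, hC1, hcn⟩ := hcnt R r t hR ht htR
  obtain ⟨C2, γ1, hC2, hγ1, hpay⟩ := payCK R r t hR hrR ht htR ψ χ hA C1 hC1
  set C3 : ℝ := 4 * (R : ℝ) ^ 3 * ((R : ℝ) + 1) ^ (t - 3) with hC3def
  have hC3 : 0 < C3 := by positivity
  obtain ⟨γ2, hγ2, hB2⟩ := hB C2 C3 hC2 hC3
  set γ : ℝ := min (min γ1 γ2) (1 / (1000 * R)) with hγdef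
  have hγ : 0 < γ := lt_min (lt_min hγ1 hγ2) (by positivity)
  have hγa : γ ≤ γ1 := (min_le_left _ _).trans (min_le_left _ _)
  have hγb : γ ≤ γ2 := (min_le_left _ _).trans (min_le_right _ _)
  have hγc : γ ≤ 1 / (1000 * R) := min_le_right _ _
  clear_value C3 γ
  obtain ⟨η1, hη1, hpay2⟩ := hpay γ hγ hγa
  obtain ⟨η2, hη2, hB3⟩ := hB2 γ hγ hγb
  set η : ℝ := min (min η1 η2) (min (γ / (1000 * (R : ℝ) ^ 2)) 1) with hηdef
  have hη : 0 < η := lt_min (lt_min hη1 hη2) (lt_min (by positivity) one_pos)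
  have hηa : η ≤ η1 := (min_le_left _ _).trans (min_le_left _ _)
  have hηb : η ≤ η2 := (min_le_left _ _).trans (min_le_right _ _)
  have hηc : η ≤ γ / (1000 * (R : ℝ) ^ 2) := (min_le_right _ _).trans (min_le_left _ _)
  have hηd : η ≤ 1 := (min_le_right _ _).trans (min_le_right _ _)
  clear_value η
  obtain ⟨C4, c5, hC4, hc5, hB4⟩ := hB3 η hη hηb
  obtain ⟨ε, hε, m1, hm1⟩ := core_ex R r (by omega) η hη hηd
  obtain ⟨ε', hε', m2, hm2⟩ := badK R r t hR ht htR ε hε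
  obtain ⟨C9, hC9, hnum⟩ := numG R r t hR hrR ht htR ψ χ hC C2 C3 hC2 hC3
  have ht0 : (0 : ℝ) < t := by
    have : 0 < t := by omega
    exact_mod_cast this
  obtain ⟨m3, hm3⟩ := sumO R r t hR hrR ht ε C4 c5 (ε' / t) C9 hε hC4 hc5 (by positivity) hC9
  obtain ⟨m4, hm4⟩ := exists_nat_ge (((r : ℝ) + 1) / η)
  refine ⟨max m1 (max m2 (max m3 m4)), fun m hm α _ _ G hG => ?_⟩
  simp only [max_le_iff] at hm
  obtain ⟨ha, hb2, hc, hd⟩ := hm
  have hp : Par R r m γ η := by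
    refine ⟨hR, hrR, hγ, ?_, hη, ?_, ?_⟩
    · rw [le_div_iff₀ (by positivity)] at hγc
      linarith
    · rw [le_div_iff₀ (by positivity)] at hηc
      linarith
    · have h1 : ((r : ℝ) + 1) / η ≤ m := hm4.trans (by exact_mod_cast hd)
      rw [div_le_iff₀ hη] at h1
      linarith
  have hm0 : (0 : ℝ) < m := hulb_m hp
  have hrm : (r : ℝ) ≤ m := by
    have h1 := hp.hm
    have h2 : η * m ≤ 1 * m := mul_le_mul_of_nonneg_right hηd hm0.le
    linarith
  obtain ⟨L, hL⟩ := exists_fam G hp hG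
  have hmain := uppk_main R r t m ht ψ χ γ η C1 C2 hp α G hG L hL
    (fun V hV => hcn m γ η hp α G hG V hV)
    (fun A mu ex bb B u h => by
      have := hpay2 η hη hηa m hp α A mu ex bb B u h
      convert this using 3)
  set O := univ \ HH G m γ L with hO
  set H := HH G m γ L with hH
  have hOc : univ \ O = H := by
    rw [hO, sdiff_sdiff_right_self]
    simp
  -- data of an outside vertex
  have hvec : ∀ b ∈ O, ∀ V ∈ L, Vec R m γ η (fun i => ((nb G b (hpt G m γ V i)).card : ℝ)) :=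
    fun b hb V hV => (cdat G hp hG L hL V hV).vec b hb
  have hk : ∀ b, ∀ V ∈ L, (kq G (t - 1) (nb G b (hull G m γ V)) : ℝ) ≤
      (R.choose (t - 1) : ℝ) * ((∑ j, ((nb G b (hpt G m γ V j)).card : ℝ)) / R) ^ (t - 1) ∧
      (kq G (t - 1) (nb G b (hull G m γ V)) : ℝ) ≤
      es (t - 1) (fun i => ((nb G b (hpt G m γ V i)).card : ℝ)) :=
    fun b V hV => kq_nb_hull G hp hG (hL.core V hV) (t - 1) (by omega) (by omega) b
  have hDle : ((R : ℝ) * m + r) ^ (t - 3) ≤ ((R : ℝ) + 1) ^ (t - 3) * (m : ℝ) ^ (t - 3) := by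
    rw [← mul_pow]
    refine pow_le_pow_left₀ (by positivity) ?_ _
    nlinarith
  have hD0 : 0 ≤ ((R : ℝ) * m + r) ^ (t - 3) := by positivity
  obtain ⟨hpw1, hpw2⟩ := uppk_pow (m := (m : ℝ)) t ht
  have hR3 : (1 : ℝ) ≤ (R : ℝ) ^ 3 := one_le_pow₀ (by linarith)
  have he1 : ∀ b, ∀ V ∈ L, (ee G (nb G b (hull G m γ V)) (NN G b \ hull G m γ V) : ℝ) *
          ((R : ℝ) * m + r) ^ (t - 3) ≤
      C3 * γ * (m : ℝ) ^ (t - 2) * ∑ j, ((nb G b (hpt G m γ V j)).card : ℝ) := by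
    intro b V hV
    have h1 := mixE1 G hp hG (hL.core V hV) b
    rw [nb_hull_card G hp hG (hL.core V hV) b] at h1
    have hU0 : 0 ≤ ∑ j, ((nb G b (hpt G m γ V j)).card : ℝ) :=
      sum_nonneg fun _ _ => Nat.cast_nonneg _
    generalize ∑ j, ((nb G b (hpt G m γ V j)).card : ℝ) = U at h1 hU0 ⊢
    have h2 : 0 ≤ 3 * γ * m * U := by positivity
    calc _ ≤ (3 * γ * m * U) * (((R : ℝ) + 1) ^ (t - 3) * (m : ℝ) ^ (t - 3)) :=
          mul_le_mul h1 hDle hD0 h2
      _ = 3 * ((R : ℝ) + 1) ^ (t - 3) * γ * (m * (m : ℝ) ^ (t - 3)) * U := by ring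
      _ = 3 * ((R : ℝ) + 1) ^ (t - 3) * (γ * (m : ℝ) ^ (t - 2) * U) := by rw [hpw1]; ring
      _ ≤ C3 * (γ * (m : ℝ) ^ (t - 2) * U) := by
          refine mul_le_mul_of_nonneg_right ?_ (by positivity)
          rw [hC3def]
          refine mul_le_mul_of_nonneg_right ?_ (by positivity)
          linarith
      _ = C3 * γ * (m : ℝ) ^ (t - 2) * U := by ring
  have he2 : ∀ b ∈ O, ∀ V ∈ L, (ee G (nb G b (hull G m γ V)) (NN G b \ hull G m γ V) : ℝ) *
          ((R : ℝ) * m + r) ^ (t - 3) ≤ C3 * Real.sqrt η * (m : ℝ) ^ (t - 1) := by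
    intro b hb V hV
    have hbV : b ∉ hull G m γ V := by
      intro h
      rw [hO, mem_sdiff] at hb
      refine hb.2 ?_
      rw [hH]
      unfold HH
      exact mem_biUnion.2 ⟨V, hV, h⟩
    have h1 := mixE2 G hp hG (hL.core V hV) b hbV
    have h2 : 0 ≤ 4 * (R : ℝ) ^ 3 * Real.sqrt η * m ^ 2 := by positivity
    calc _ ≤ (4 * (R : ℝ) ^ 3 * Real.sqrt η * m ^ 2) *
            (((R : ℝ) + 1) ^ (t - 3) * (m : ℝ) ^ (t - 3)) := mul_le_mul h1 hDle hD0 h2
      _ = 4 * (R : ℝ) ^ 3 * ((R : ℝ) + 1) ^ (t - 3) * Real.sqrt η *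
            ((m : ℝ) ^ 2 * (m : ℝ) ^ (t - 3)) := by ring
      _ = C3 * Real.sqrt η * (m : ℝ) ^ (t - 1) := by rw [hpw2, hC3def]
  -- neighbours in the hulls
  have hnbH : ∀ b, ((nb G b H).card : ℝ) =
      ∑ V ∈ L, ∑ j, ((nb G b (hpt G m γ V j)).card : ℝ) := by
    intro b
    have h1 : nb G b H = L.biUnion (fun V => nb G b (hull G m γ V)) := by
      ext x
      rw [mem_nb, mem_biUnion, hH]
      unfold HH
      rw [mem_biUnion]
      constructor
      · rintro ⟨⟨V, hV, hx⟩, hb⟩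
        exact ⟨V, hV, (mem_nb G).2 ⟨hx, hb⟩⟩
      · rintro ⟨V, hV, hx⟩
        rw [mem_nb] at hx
        exact ⟨⟨V, hV, hx.1⟩, hx.2⟩
    have h2 : (nb G b H).card = ∑ V ∈ L, (nb G b (hull G m γ V)).card := by
      rw [h1, card_biUnion]
      intro V hV V' hV' hne
      refine disjoint_left.2 fun x hx hx' => ?_
      exact disjoint_left.1 (hL.disj V hV V' hV' hne) ((mem_nb G).1 hx).1 ((mem_nb G).1 hx').1
    rw [h2]
    push_cast
    refine sum_congr rfl fun V hV => ?_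
    rw [nb_hull_card G hp hG (hL.core V hV) b]
  have hsplit : ∀ b, (nb G b H).card + (nb G b O).card ≤ R * m + r := by
    intro b
    refine le_trans ?_ (hG.deg b)
    have h1 : Disjoint (nb G b H) (nb G b O) := by
      refine disjoint_left.2 fun x hx hx' => ?_
      have h2 := ((mem_nb G).1 hx').1
      rw [hO, mem_sdiff] at h2
      exact h2.2 ((mem_nb G).1 hx).1
    rw [← card_union_of_disjoint h1]
    refine card_le_card fun x hx => ?_
    rw [mem_NN]
    rcases mem_union.1 hx with h | h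
    · exact ((mem_nb G).1 h).2
    · exact ((mem_nb G).1 h).2
  have hsub : ∀ b, ∀ S : Finset α, nb G b S ⊆ NN G b := by
    intro b S x hx
    rw [mem_NN]
    exact ((mem_nb G).1 hx).2
  refine hmain.trans ?_
  have hfin := hm3 m hc α G hG O (fun b => ∑ V ∈ L, ((kq G (t - 1) (nb G b (hull G m γ V)) : ℝ) -
        ψ m (fun i => ((nb G b (hpt G m γ V i)).card : ℝ)) +
        (ee G (nb G b (hull G m γ V)) (NN G b \ hull G m γ V) : ℝ) *
          ((R : ℝ) * m + r) ^ (t - 3) +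
        (if χ m (fun i => ((nb G b (hpt G m γ V i)).card : ℝ)) then
          C2 * η * (m : ℝ) ^ (t - 1) else 0)) +
        (kq G (t - 1) (nb G b O) : ℝ) / t - PL R r m t) ?_ ?_ ?_
  · have h1 : ∀ x : ℝ, x ≤ 0 → PL R r m t * (Fintype.card α : ℝ) + x ≤
        PL R r m t * (Fintype.card α : ℝ) := fun x hx => by linarith
    exact h1 _ hfin
  · intro b hb
    by_contra hcon
    push Not at hcon
    obtain ⟨h1, h2⟩ := hcon
    have h3 : Good G R m ε b := by
      by_contra h4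
      exact h1 (uppk_mem_Bad G b h4)
    obtain ⟨V', hV', hbV⟩ := hm1 m ha α G hG b h3 h2
    obtain ⟨V, hV, hbh⟩ := hL.cover V' hV' b hbV
    rw [hO, mem_sdiff] at hb
    refine hb.2 ?_
    rw [hH]
    unfold HH
    exact mem_biUnion.2 ⟨V, hV, hbh⟩
  · intro b hb
    have h1 := hB4 m hp (Fin (R + 1) → Finset α) L
      (fun V i => ((nb G b (hpt G m γ V i)).card : ℝ))
      (fun V => (kq G (t - 1) (nb G b (hull G m γ V)) : ℝ))
      (fun V => (ee G (nb G b (hull G m γ V)) (NN G b \ hull G m γ V) : ℝ) *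
          ((R : ℝ) * m + r) ^ (t - 3)) ((nb G b O).card : ℝ)
      (fun V hV => hvec b hb V hV) (fun V hV => hk b V hV)
      (fun V hV => ⟨he1 b V hV, he2 b hb V hV⟩) (Nat.cast_nonneg _) (by
        rw [← hnbH b]
        exact_mod_cast hsplit b)
    have h2 : (kq G (t - 1) (nb G b O) : ℝ) ≤
        (R.choose (t - 1) : ℝ) * (((nb G b O).card : ℝ) / R) ^ (t - 1) :=
      kq_turan G (by omega) (by omega) _ (kq_cf G hG.cf b _ (hsub b O))
    have h3 : (kq G (t - 1) (nb G b O) : ℝ) / t ≤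
        (R.choose (t - 1) : ℝ) * (((nb G b O).card : ℝ) / R) ^ (t - 1) / t :=
      div_le_div_of_nonneg_right h2 ht0.le
    rw [hOc, hnbH b]
    linarith
  · intro b hb hbad
    have h1 : (kq G (t - 1) (nb G b O) : ℝ) ≤
        ((R.choose (t - 1) : ℝ) - ε') * (m : ℝ) ^ (t - 1) := by
      refine le_trans ?_ (hm2 m hb2 α G hG b hbad)
      exact_mod_cast kq_mono G (hsub b O)
    have h2 := hnum m γ η hp (Fin (R + 1) → Finset α) L
      (fun V i => ((nb G b (hpt G m γ V i)).card : ℝ))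
      (fun V => (kq G (t - 1) (nb G b (hull G m γ V)) : ℝ))
      (fun V => (ee G (nb G b (hull G m γ V)) (NN G b \ hull G m γ V) : ℝ) *
          ((R : ℝ) * m + r) ^ (t - 3)) (kq G (t - 1) (nb G b O) : ℝ) ε'
      (fun V hV => hvec b hb V hV) (fun V hV => (hk b V hV).1)
      (fun V hV => he1 b V hV) h1
    rw [hOc, hnbH b]
    linarith

end Pool.Agent.H45.KTD
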